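import Pool.Agent.Q127.KI.Stm

/-!
# Job TRA of project KI (MP_a24f0f_an)
-/

set_option autoImplicit false

open MeasureTheory Filter Topology

namespace Pool.Agent.Q252.KI

open Pool.Agent.Q127.KI

lemma measurable_sh : Measurable sh :=
  measurable_pi_lambda _ fun i => measurable_pi_apply (i + 1)

lemma transport {M : Type} [MetricSpace M] [MeasurableSpace M] [BorelSpace M] {f : M → M}
    (hf : Measurable f) {Φ : (ℤ → Bool) → M} (hemb : MeasurableEmbedding Φ)
    (hinj : Function.Injective Φ) (hconj : ∀ w ∈ Q127.KI.Sub, f (Φ w) = Φ (sh w))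
    (μ : Measure M) [IsProbabilityMeasure μ] (hμ : MeasurePreserving f μ μ)
    (hS : ∀ᵐ x ∂μ, x ∈ Φ '' Q127.KI.Sub) :
    (μ.comap Φ).map Φ = μ ∧ IsProbabilityMeasure (μ.comap Φ) ∧
      MeasurePreserving sh (μ.comap Φ) (μ.comap Φ) ∧ ∀ᵐ w ∂(μ.comap Φ), w ∈ Q127.KI.Sub := by
  have hmap : (μ.comap Φ).map Φ = μ := by
    rw [hemb.map_comap]
    apply Measure.restrict_eq_self_of_ae_mem
    filter_upwards [hS] with x hx
    obtain ⟨w, _, rfl⟩ := hx
    exact ⟨w, rfl⟩
  have hprob : IsProbabilityMeasure (μ.comap Φ) := by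
    refine ⟨?_⟩
    have : ((μ.comap Φ).map Φ) Set.univ = 1 := by rw [hmap]; exact measure_univ
    rwa [Measure.map_apply hemb.measurable MeasurableSet.univ, Set.preimage_univ] at this
  have hsub : ∀ᵐ w ∂(μ.comap Φ), w ∈ Q127.KI.Sub := by
    have h1 : ∀ᵐ x ∂((μ.comap Φ).map Φ), x ∈ Φ '' Q127.KI.Sub := by rw [hmap]; exact hS
    filter_upwards [ae_of_ae_map hemb.measurable.aemeasurable h1] with w hw
    obtain ⟨w', hw', hww⟩ := hw
    rwa [← hinj hww]
  refine ⟨hmap, hprob, ⟨measurable_sh, ?_⟩, hsub⟩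
  have h2 : ((μ.comap Φ).map sh).map Φ = (μ.comap Φ).map Φ := by
    rw [Measure.map_map hemb.measurable measurable_sh]
    have h3 : (Φ ∘ sh) =ᵐ[μ.comap Φ] (f ∘ Φ) := by
      filter_upwards [hsub] with w hw
      exact (hconj w hw).symm
    rw [Measure.map_congr h3, ← Measure.map_map hf hemb.measurable, hmap]
    exact hμ.map_eq
  rw [← hemb.comap_map ((μ.comap Φ).map sh), h2, hemb.comap_map]

theorem tra (h : S_uni) : S_tra := by
  intro M _ _ _ f hf Φ hΦ hinj hconj μ ν _ _ hμ hν hμS hνS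
  have hemb : MeasurableEmbedding Φ := (hΦ.isClosedEmbedding hinj).measurableEmbedding
  obtain ⟨m1, p1, q1, r1⟩ := transport hf hemb hinj hconj μ hμ hμS
  obtain ⟨m2, p2, q2, r2⟩ := transport hf hemb hinj hconj ν hν hνS
  rw [← m1, ← m2, h (μ.comap Φ) (ν.comap Φ) q1 q2 r1 r2]

end Pool.Agent.Q252.KI
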