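import Pool.Agent.Q16.SQ.Stm5

/-! JOB NT of project SQ (helper16): classification of the rational angle relations. -/

set_option autoImplicit false

namespace Pool.Agent.Q252.SQNT

open Q16.SQ

theorem vf_eq (n x m c : ℕ) (hn : 0 < n) (hm : 0 < m) (h : m * x = c * n) (j : ℤ) :
    vf n j x = (((j * c) % (m : ℤ) : ℤ) : ℝ) / m := by
  have h1 : (j : ℝ) * x / n = ((j * c : ℤ) : ℝ) / m := by
    have hn' : (n : ℝ) ≠ 0 := by positivity
    have hm' : (m : ℝ) ≠ 0 := by positivity
    have h' : (m : ℝ) * x = c * n := by exact_mod_cast h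
    rw [div_eq_div_iff hn' hm']
    push_cast
    linear_combination (j : ℝ) * h'
  rw [vf, h1, Int.fract_div_intCast_eq_div_intCast_mod]

theorem vf_one (n x : ℕ) (hx : x < n) : vf n 1 x = (x : ℝ) / n := by
  have hn : (0 : ℝ) < n := by
    have : 0 < n := by omega
    exact_mod_cast this
  rw [vf, Int.fract_eq_self.2]
  · push_cast
    ring
  · push_cast
    rw [one_mul]
    constructor
    · positivity
    · rw [div_lt_one hn]
      exact_mod_cast hx

theorem vf_ne (n x : ℕ) (hx0 : 0 < x) (hx : x < n) (j : ℤ) (hj : IsCoprime j ((4 * n : ℕ) : ℤ)) :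
    vf n j x ≠ 0 := by
  intro h
  have hn : (n : ℝ) ≠ 0 := by
    have : n ≠ 0 := by omega
    exact_mod_cast this
  rw [vf] at h
  rw [Int.fract_eq_iff] at h
  obtain ⟨_, _, z, hz⟩ := h
  rw [sub_zero, div_eq_iff hn] at hz
  have h1 : j * (x : ℤ) = z * n := by exact_mod_cast hz
  have hjn : IsCoprime j (n : ℤ) := by
    have h2 : ((4 * n : ℕ) : ℤ) = 4 * (n : ℤ) := by push_cast; ring
    rw [h2] at hj
    exact hj.of_mul_right_right
  have h3 : (n : ℤ) ∣ x := by
    apply hjn.symm.dvd_of_dvd_mul_left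
    exact Dvd.intro_left z h1.symm
  have h4 : n ∣ x := by exact_mod_cast h3
  have h5 := Nat.le_of_dvd hx0 h4
  omega

theorem vf_pos (n x : ℕ) (hx0 : 0 < x) (hx : x < n) (j : ℤ) (hj : IsCoprime j ((4 * n : ℕ) : ℤ)) :
    0 < vf n j x :=
  lt_of_le_of_ne (Int.fract_nonneg _) (vf_ne n x hx0 hx j hj).symm

theorem vf_lt (n x : ℕ) (j : ℤ) : vf n j x < 1 := Int.fract_lt_one _

theorem vf_neg (n x : ℕ) (hx0 : 0 < x) (hx : x < n) (j : ℤ) (hj : IsCoprime j ((4 * n : ℕ) : ℤ)) :
    vf n (-j) x = 1 - vf n j x := by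
  have h := vf_ne n x hx0 hx j hj
  rw [vf] at h
  rw [vf, vf, ← Int.fract_neg h]
  congr 1
  push_cast
  ring

theorem good_or (n x y z : ℕ) (hx0 : 0 < x) (hy0 : 0 < y) (hz0 : 0 < z) (hs : x + y + z = n)
    (j : ℤ) (hj : IsCoprime j ((4 * n : ℕ) : ℤ)) :
    vf n j x + vf n j y + vf n j z = 1 ∨ vf n (-j) x + vf n (-j) y + vf n (-j) z = 1 := by
  have hx : x < n := by omega
  have hy : y < n := by omega
  have hz : z < n := by omega
  have hn : (n : ℝ) ≠ 0 := by
    have : n ≠ 0 := by omega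
    exact_mod_cast this
  have h1 : (j : ℝ) * x / n + (j : ℝ) * y / n + (j : ℝ) * z / n = j := by
    have h' : (x : ℝ) + y + z = n := by exact_mod_cast hs
    rw [← add_div, ← add_div, ← mul_add, ← mul_add, h', mul_div_assoc, div_self hn, mul_one]
  have h2 : vf n j x + vf n j y + vf n j z =
      ((j - ⌊(j : ℝ) * x / n⌋ - ⌊(j : ℝ) * y / n⌋ - ⌊(j : ℝ) * z / n⌋ : ℤ) : ℝ) := by
    push_cast
    simp only [vf, Int.fract]
    linear_combination h1
  have p1 := vf_pos n x hx0 hx j hj
  have p2 := vf_pos n y hy0 hy j hj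
  have p3 := vf_pos n z hz0 hz j hj
  have l1 := vf_lt n x j
  have l2 := vf_lt n y j
  have l3 := vf_lt n z j
  set s : ℤ := j - ⌊(j : ℝ) * x / n⌋ - ⌊(j : ℝ) * y / n⌋ - ⌊(j : ℝ) * z / n⌋ with hsdef
  have s0 : 0 < s := by
    have : (0 : ℝ) < (s : ℝ) := by rw [← h2]; linarith
    exact_mod_cast this
  have s3 : s < 3 := by
    have : (s : ℝ) < 3 := by rw [← h2]; linarith
    exact_mod_cast this
  have s12 : s = 1 ∨ s = 2 := by omega
  rcases s12 with h | h
  · left
    rw [h2, h]
    norm_num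
  · right
    rw [vf_neg n x hx0 hx j hj, vf_neg n y hy0 hy j hj, vf_neg n z hz0 hz j hj]
    rw [h] at h2
    push_cast at h2
    linarith

theorem lift (m N : ℕ) (hN : 0 < N) (hd : m ∣ N) (r : ℕ) (hr : Nat.Coprime r m) :
    ∃ j : ℤ, IsCoprime j (N : ℤ) ∧ j % (m : ℤ) = (r : ℤ) % m := by
  have : NeZero N := ⟨hN.ne'⟩
  obtain ⟨u, hu⟩ := ZMod.unitsMap_surjective hd (ZMod.unitOfCoprime r hr)
  refine ⟨((u : ZMod N).val : ℤ), ?_, ?_⟩
  · exact Nat.isCoprime_iff_coprime.2 (ZMod.val_coe_unit_coprime u)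
  · have h1 : (((u : ZMod N).val : ℕ) : ZMod m) = ((r : ℕ) : ZMod m) := by
      have h2 := congrArg (fun v : (ZMod m)ˣ => (v : ZMod m)) hu
      simp only [ZMod.coe_unitOfCoprime] at h2
      rw [← h2, ZMod.unitsMap_val, ZMod.natCast_val]
    rw [ZMod.natCast_eq_natCast_iff'] at h1
    exact_mod_cast h1

theorem use_nta (h : S_NTA) (n x y z : ℕ) (hx0 : 0 < x) (hy0 : 0 < y) (hz0 : 0 < z)
    (hs : x + y + z = n) (p : ℕ) (hp : 3 ≤ p) (w : ℕ) (hw : w = x ∨ w = y)
    (H : ∀ j : ℤ, IsCoprime j ((4 * n : ℕ) : ℤ) → vf n j x + vf n j y + vf n j z = 1 →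
      vf n j w < 1 / p) :
    (p = 3 ∧ (4 * w = n ∨ 4 * w = 3 * n)) ∨ (p ≤ 5 ∧ (6 * w = n ∨ 6 * w = 5 * n)) ∨
    (p = 3 ∧ (10 * w = n ∨ 10 * w = 3 * n ∨ 10 * w = 7 * n ∨ 10 * w = 9 * n)) := by
  have hw0 : 0 < w := by rcases hw with rfl | rfl <;> assumption
  have hwn : w < n := by rcases hw with rfl | rfl <;> omega
  apply h n w p (by omega) hw0 hwn hp
  intro j hj
  rcases good_or n x y z hx0 hy0 hz0 hs j hj with h1 | h1
  · left
    exact H j hj h1
  · right
    have h2 := H (-j) (by simpa using hj.neg_left) h1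
    rw [vf_neg n w hw0 hwn j hj] at h2
    linarith


/-- the conclusion for two positive multiplicities -/
def Con (n x y z p q : ℕ) : Prop :=
  (∃ d : ℕ, (d = 3 ∨ d = 4 ∨ d = 6) ∧ (∃ m : ℕ, d * x = m * n) ∧ ∃ m : ℕ, d * y = m * n) ∨
  (p = 3 ∧ q = 1 ∧ ((10 * x = n ∧ 10 * y = 7 * n ∧ 10 * z = 2 * n) ∨
    (10 * x = 3 * n ∧ 10 * y = n ∧ 10 * z = 6 * n)))

theorem coreA (h : S_NTA) (n x y z p : ℕ) (hx0 : 0 < x) (hy0 : 0 < y) (hz0 : 0 < z)
    (hs : x + y + z = n) (hp : 3 ≤ p)
    (H : ∀ j : ℤ, IsCoprime j ((4 * n : ℕ) : ℤ) → vf n j x + vf n j y + vf n j z = 1 →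
      (p : ℝ) * vf n j x = 1) :
    ∃ d : ℕ, (d = 3 ∨ d = 4 ∨ d = 6) ∧ ∃ m : ℕ, d * x = m * n := by
  have hn : 0 < n := by omega
  have hnR : (n : ℝ) ≠ 0 := by exact_mod_cast hn.ne'
  have hpR : (0 : ℝ) < p := by
    have : 0 < p := by omega
    exact_mod_cast this
  have e1 : p * x = n := by
    have h1 := H 1 isCoprime_one_left (by
      rw [vf_one n x (by omega), vf_one n y (by omega), vf_one n z (by omega), ← add_div,
        ← add_div, div_eq_one_iff_eq hnR]
      exact_mod_cast hs)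
    rw [vf_one n x (by omega), ← mul_div_assoc, div_eq_one_iff_eq hnR] at h1
    exact_mod_cast h1
  rcases Nat.lt_or_ge p 4 with h4 | h4
  · have : p = 3 := by omega
    subst this
    exact ⟨3, Or.inl rfl, 1, by omega⟩
  · have hN := use_nta h n x y z hx0 hy0 hz0 hs (p - 1) (by omega) x (Or.inl rfl) (by
      intro j hj hg
      have h1 := H j hj hg
      have h2 : vf n j x = 1 / p := by
        field_simp
        linarith
      rw [h2]
      apply one_div_lt_one_div_of_lt
      · have : 0 < p - 1 := by omega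
        exact_mod_cast this
      · have : p - 1 < p := by omega
        exact_mod_cast this)
    rcases hN with ⟨h5, h6⟩ | ⟨h5, h6⟩ | ⟨h5, h6⟩
    · have : p = 4 := by omega
      subst this
      exact ⟨4, Or.inr (Or.inl rfl), 1, by omega⟩
    · have h7 : p = 4 ∨ p = 5 ∨ p = 6 := by omega
      rcases h7 with rfl | rfl | rfl
      · exact ⟨4, Or.inr (Or.inl rfl), 1, by omega⟩
      · exfalso
        omega
      · exact ⟨6, Or.inr (Or.inr rfl), 1, by omega⟩
    · have : p = 4 := by omega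
      subst this
      exact ⟨4, Or.inr (Or.inl rfl), 1, by omega⟩

theorem coreB (h : S_NTA) (n x y z p q : ℕ) (hx0 : 0 < x) (hy0 : 0 < y) (hz0 : 0 < z)
    (hs : x + y + z = n) (hp : 3 ≤ p) (hq : 0 < q) (hqp : q ≤ p)
    (H : ∀ j : ℤ, IsCoprime j ((4 * n : ℕ) : ℤ) → vf n j x + vf n j y + vf n j z = 1 →
      (p : ℝ) * vf n j x + q * vf n j y = 1) : Con n x y z p q := by
  have hn : 0 < n := by omega
  have hxn : x < n := by omega
  have hyn : y < n := by omega
  have hzn : z < n := by omega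
  have hnR : (n : ℝ) ≠ 0 := by exact_mod_cast hn.ne'
  have hpR : (0 : ℝ) < p := by
    have : 0 < p := by omega
    exact_mod_cast this
  have hqR : (0 : ℝ) < q := by exact_mod_cast hq
  have e1 : p * x + q * y = n := by
    have h1 := H 1 isCoprime_one_left (by
      rw [vf_one n x hxn, vf_one n y hyn, vf_one n z hzn, ← add_div,
        ← add_div, div_eq_one_iff_eq hnR]
      exact_mod_cast hs)
    rw [vf_one n x hxn, vf_one n y hyn, ← mul_div_assoc, ← mul_div_assoc, ← add_div,
      div_eq_one_iff_eq hnR] at h1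
    exact_mod_cast h1
  have hqy : 0 < q * y := Nat.mul_pos hq hy0
  have h3x : 3 * x ≤ p * x := Nat.mul_le_mul_right x hp
  -- v x < 1 / p for good j
  have hvx : ∀ j : ℤ, IsCoprime j ((4 * n : ℕ) : ℤ) → vf n j x + vf n j y + vf n j z = 1 →
      vf n j x < 1 / p := by
    intro j hj hg
    have h1 := H j hj hg
    have h2 := mul_pos hqR (vf_pos n y hy0 hyn j hj)
    rw [lt_div_iff₀ hpR]
    linarith
  have hvx3 : ∀ j : ℤ, IsCoprime j ((4 * n : ℕ) : ℤ) → vf n j x + vf n j y + vf n j z = 1 →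
      vf n j x < 1 / 3 := by
    intro j hj hg
    refine lt_of_lt_of_le (hvx j hj hg) ?_
    apply one_div_le_one_div_of_le (by norm_num)
    exact_mod_cast hp
  -- impossible values for y
  have hbig : ∀ s : ℕ, 6 ≤ s → (∀ j : ℤ, IsCoprime j ((4 * n : ℕ) : ℤ) →
      vf n j x + vf n j y + vf n j z = 1 → vf n j y < 1 / (s : ℝ)) → False := by
    intro s hs6 hh
    rcases use_nta h n x y z hx0 hy0 hz0 hs s (by omega) y (Or.inr rfl) hh with
      ⟨h5, _⟩ | ⟨h5, _⟩ | ⟨h5, _⟩ <;> omega
  have hN := use_nta h n x y z hx0 hy0 hz0 hs p hp x (Or.inl rfl) hvx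
  rcases hN with ⟨h5, h6⟩ | ⟨h5, h6⟩ | ⟨h5, h6⟩
  · -- p = 3, 4 x = n
    subst h5
    have hx4 : 4 * x = n := by omega
    have hv : ∀ j : ℤ, IsCoprime j ((4 * n : ℕ) : ℤ) → vf n j x + vf n j y + vf n j z = 1 →
        vf n j x = 1 / 4 := by
      intro j hj hg
      have a1 := vf_pos n x hx0 hxn j hj
      have a2 := hvx3 j hj hg
      rw [vf_eq n x 4 1 hn (by norm_num) (by omega) j] at a1 a2 ⊢
      push_cast at a1 a2 ⊢
      have a3 : (0 : ℤ) < (j * 1) % 4 := by
        have : (0 : ℝ) < (((j * 1) % 4 : ℤ) : ℝ) := by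
          by_contra hc
          push Not at hc
          push_cast at hc
          linarith
        exact_mod_cast this
      have a4 : (j * 1) % 4 < 2 := by
        have : (((j * 1) % 4 : ℤ) : ℝ) < 2 := by
          push_cast
          linarith
        exact_mod_cast this
      have a5 : (j * 1) % 4 = 1 := by omega
      have a6 : (((j * 1) % 4 : ℤ) : ℝ) = 1 := by rw [a5]; norm_num
      push_cast at a6
      rw [a6]
    rcases Nat.lt_or_ge q 2 with hq2 | hq2
    · have : q = 1 := by omega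
      subst this
      exact Or.inl ⟨4, Or.inr (Or.inl rfl), ⟨1, by omega⟩, 1, by omega⟩
    · exfalso
      apply hbig (4 * q - 1) (by omega)
      intro j hj hg
      have a1 := H j hj hg
      rw [hv j hj hg] at a1
      have a2 : vf n j y = 1 / (4 * q) := by
        field_simp
        push_cast at a1
        linarith
      rw [a2]
      apply one_div_lt_one_div_of_lt
      · have : 0 < 4 * q - 1 := by omega
        exact_mod_cast this
      · have : 4 * q - 1 < 4 * q := by omega
        exact_mod_cast this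
  · -- 6 x = n
    have hx6 : 6 * x = n := by omega
    have hv : ∀ j : ℤ, IsCoprime j ((4 * n : ℕ) : ℤ) → vf n j x + vf n j y + vf n j z = 1 →
        vf n j x = 1 / 6 := by
      intro j hj hg
      have a1 := vf_pos n x hx0 hxn j hj
      have a2 := hvx3 j hj hg
      rw [vf_eq n x 6 1 hn (by norm_num) (by omega) j] at a1 a2 ⊢
      push_cast at a1 a2 ⊢
      have a3 : (0 : ℤ) < (j * 1) % 6 := by
        have : (0 : ℝ) < (((j * 1) % 6 : ℤ) : ℝ) := by
          by_contra hc
          push Not at hc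
          push_cast at hc
          linarith
        exact_mod_cast this
      have a4 : (j * 1) % 6 < 2 := by
        have : (((j * 1) % 6 : ℤ) : ℝ) < 2 := by
          push_cast
          linarith
        exact_mod_cast this
      have a5 : (j * 1) % 6 = 1 := by omega
      have a6 : (((j * 1) % 6 : ℤ) : ℝ) = 1 := by rw [a5]; norm_num
      push_cast at a6
      rw [a6]
    have hp345 : p = 3 ∨ p = 4 ∨ p = 5 := by omega
    rcases hp345 with rfl | rfl | rfl
    · have hq3 : q = 1 ∨ q = 2 ∨ q = 3 := by omega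
      rcases hq3 with rfl | rfl | rfl
      · exact Or.inl ⟨6, Or.inr (Or.inr rfl), ⟨1, by omega⟩, 3, by omega⟩
      · exfalso
        have hd : 12 ∣ 4 * n := by omega
        obtain ⟨j, hj, hj12⟩ := lift 12 (4 * n) (by omega) hd 7 (by norm_num)
        have v1 := vf_eq n x 6 1 hn (by norm_num) (by omega) j
        have v2 := vf_eq n y 4 1 hn (by norm_num) (by omega) j
        have v3 := vf_eq n z 12 7 hn (by norm_num) (by omega) j
        push_cast at hj12 v1 v2 v3
        have w1 : (j * 1) % 6 = 1 := by omega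
        have w2 : (j * 1) % 4 = 3 := by omega
        have w3 : (j * 7) % 12 = 1 := by omega
        rw [w1] at v1
        rw [w2] at v2
        rw [w3] at v3
        norm_num at v1 v2 v3
        have a1 := H j hj (by rw [v1, v2, v3]; norm_num)
        rw [v1, v2] at a1
        norm_num at a1
      · exact Or.inl ⟨6, Or.inr (Or.inr rfl), ⟨1, by omega⟩, 1, by omega⟩
    · rcases Nat.lt_or_ge q 3 with hq3 | hq3
      · have hq12 : q = 1 ∨ q = 2 := by omega
        rcases hq12 with rfl | rfl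
        · exact Or.inl ⟨6, Or.inr (Or.inr rfl), ⟨1, by omega⟩, 2, by omega⟩
        · exact Or.inl ⟨6, Or.inr (Or.inr rfl), ⟨1, by omega⟩, 1, by omega⟩
      · exfalso
        apply hbig (3 * q - 1) (by omega)
        intro j hj hg
        have a1 := H j hj hg
        rw [hv j hj hg] at a1
        have a2 : vf n j y = 1 / (3 * q) := by
          field_simp
          push_cast at a1
          linarith
        rw [a2]
        apply one_div_lt_one_div_of_lt
        · have : 0 < 3 * q - 1 := by omega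
          exact_mod_cast this
        · have : 3 * q - 1 < 3 * q := by omega
          exact_mod_cast this
    · rcases Nat.lt_or_ge q 2 with hq2 | hq2
      · have : q = 1 := by omega
        subst this
        exact Or.inl ⟨6, Or.inr (Or.inr rfl), ⟨1, by omega⟩, 1, by omega⟩
      · exfalso
        apply hbig (6 * q - 1) (by omega)
        intro j hj hg
        have a1 := H j hj hg
        rw [hv j hj hg] at a1
        have a2 : vf n j y = 1 / (6 * q) := by
          field_simp
          push_cast at a1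
          linarith
        rw [a2]
        apply one_div_lt_one_div_of_lt
        · have : 0 < 6 * q - 1 := by omega
          exact_mod_cast this
        · have : 6 * q - 1 < 6 * q := by omega
          exact_mod_cast this
  · -- p = 3, 10 x = n or 3 n
    subst h5
    have hx10 : 10 * x = n ∨ 10 * x = 3 * n := by omega
    have hq3 : q = 1 ∨ q = 2 ∨ q = 3 := by omega
    rcases hq3 with rfl | rfl | rfl
    · right
      refine ⟨rfl, rfl, ?_⟩
      rcases hx10 with h7 | h7
      · left
        refine ⟨h7, ?_, ?_⟩ <;> omega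
      · right
        refine ⟨h7, ?_, ?_⟩ <;> omega
    · exfalso
      rcases hx10 with h7 | h7
      · have hd : 20 ∣ 4 * n := by omega
        obtain ⟨j, hj, hj20⟩ := lift 20 (4 * n) (by omega) hd 11 (by norm_num)
        have v1 := vf_eq n x 10 1 hn (by norm_num) (by omega) j
        have v2 := vf_eq n y 20 7 hn (by norm_num) (by omega) j
        have v3 := vf_eq n z 20 11 hn (by norm_num) (by omega) j
        push_cast at hj20 v1 v2 v3
        have w1 : (j * 1) % 10 = 1 := by omega
        have w2 : (j * 7) % 20 = 17 := by omega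
        have w3 : (j * 11) % 20 = 1 := by omega
        rw [w1] at v1
        rw [w2] at v2
        rw [w3] at v3
        norm_num at v1 v2 v3
        have a1 := H j hj (by rw [v1, v2, v3]; norm_num)
        rw [v1, v2] at a1
        norm_num at a1
      · have hd : 20 ∣ 4 * n := by omega
        obtain ⟨j, hj, hj20⟩ := lift 20 (4 * n) (by omega) hd 11 (by norm_num)
        have v1 := vf_eq n x 10 3 hn (by norm_num) (by omega) j
        have v2 := vf_eq n y 20 1 hn (by norm_num) (by omega) j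
        have v3 := vf_eq n z 20 13 hn (by norm_num) (by omega) j
        push_cast at hj20 v1 v2 v3
        have w1 : (j * 3) % 10 = 3 := by omega
        have w2 : (j * 1) % 20 = 11 := by omega
        have w3 : (j * 13) % 20 = 3 := by omega
        rw [w1] at v1
        rw [w2] at v2
        rw [w3] at v3
        norm_num at v1 v2 v3
        have a1 := H j hj (by rw [v1, v2, v3]; norm_num)
        rw [v1, v2] at a1
        norm_num at a1
    · exfalso
      have hge : ∀ j : ℤ, IsCoprime j ((4 * n : ℕ) : ℤ) → 1 / 10 ≤ vf n j x := by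
        intro j hj
        have a1 := vf_pos n x hx0 hxn j hj
        obtain ⟨c, hc⟩ : ∃ c : ℕ, 10 * x = c * n := by
          rcases hx10 with h7 | h7
          · exact ⟨1, by omega⟩
          · exact ⟨3, h7⟩
        rw [vf_eq n x 10 c hn (by norm_num) hc j] at a1 ⊢
        push_cast at a1 ⊢
        have a3 : (0 : ℤ) < (j * c) % 10 := by
          have : (0 : ℝ) < (((j * c) % 10 : ℤ) : ℝ) := by
            by_contra hc
            push Not at hc
            push_cast at hc
            linarith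
          exact_mod_cast this
        have a4 : (1 : ℤ) ≤ (j * c) % 10 := by omega
        have a5 : (1 : ℝ) ≤ (((j * c) % 10 : ℤ) : ℝ) := by exact_mod_cast a4
        push_cast at a5
        linarith
      have hN := use_nta h n x y z hx0 hy0 hz0 hs 4 (by norm_num) y (Or.inr rfl) (by
        intro j hj hg
        have a1 := H j hj hg
        have a2 := hge j hj
        push_cast at a1 ⊢
        linarith)
      rcases hN with ⟨h7, _⟩ | ⟨_, h8⟩ | ⟨h7, _⟩ <;> omega


theorem perm3 : ∀ i j k : Fin 3, i ≠ j → j ≠ k → i ≠ k → ∀ f : Fin 3 → ℝ,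
    f 0 + f 1 + f 2 = f i + f j + f k := by
  intro i j k
  fin_cases i <;> fin_cases j <;> fin_cases k <;> intro h1 h2 h3 f <;>
    first
    | exact absurd rfl h1
    | exact absurd rfl h2
    | exact absurd rfl h3
    | (simp; try ring)

theorem perm3N : ∀ i j k : Fin 3, i ≠ j → j ≠ k → i ≠ k → ∀ f : Fin 3 → ℕ,
    f 0 + f 1 + f 2 = f i + f j + f k := by
  intro i j k h1 h2 h3 f
  have h := perm3 i j k h1 h2 h3 (fun l => (f l : ℝ))
  exact_mod_cast h

theorem mem3 : ∀ i j k : Fin 3, i ≠ j → j ≠ k → i ≠ k → ∀ l : Fin 3, l = i ∨ l = j ∨ l = k := by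
  decide

theorem two (h : S_NTA) (n : ℕ) (a P : Fin 3 → ℕ) (hn : 0 < n) (ha : ∀ k, 0 < a k)
    (hs : a 0 + a 1 + a 2 = n) (hP : 3 ≤ P 0 + P 1 + P 2)
    (H : ∀ j : ℤ, IsCoprime j ((4 * n : ℕ) : ℤ) → vf n j (a 0) + vf n j (a 1) + vf n j (a 2) = 1 →
      (P 0 : ℝ) * vf n j (a 0) + P 1 * vf n j (a 1) + P 2 * vf n j (a 2) = 1)
    (i j k : Fin 3) (hij : i ≠ j) (hjk : j ≠ k) (hik : i ≠ k) (hk : P k = 0) (hj : 0 < P j)
    (hji : P j ≤ P i) : NTout n a P := by
  have hs' : a i + a j + a k = n := by rw [← perm3N i j k hij hjk hik a, hs]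
  have hP' : 3 ≤ P i + P j + P k := by rw [← perm3N i j k hij hjk hik P]; exact hP
  have H' : ∀ s : ℤ, IsCoprime s ((4 * n : ℕ) : ℤ) →
      vf n s (a i) + vf n s (a j) + vf n s (a k) = 1 →
      (P i : ℝ) * vf n s (a i) + P j * vf n s (a j) = 1 := by
    intro s hs1 hg
    rw [← perm3 i j k hij hjk hik (fun l => vf n s (a l))] at hg
    have h1 := H s hs1 hg
    rw [perm3 i j k hij hjk hik (fun l => (P l : ℝ) * vf n s (a l)), hk] at h1
    push_cast at h1
    linarith
  rcases Nat.lt_or_ge (P i) 3 with h3 | h3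
  · have hPi : P i = 2 := by omega
    have hPj : P j = 2 ∨ P j = 1 := by omega
    rcases hPj with hPj | hPj
    · refine Or.inr (Or.inr (Or.inl ⟨i, j, k, hij, hjk, hik, hPi, hPj, hk, ?_⟩))
      have hnR : (n : ℝ) ≠ 0 := by exact_mod_cast hn.ne'
      have hi := ha i
      have hj' := ha j
      have hk' := ha k
      have h1 := H' 1 isCoprime_one_left (by
        rw [vf_one n (a i) (by omega), vf_one n (a j) (by omega), vf_one n (a k) (by omega),
          ← add_div, ← add_div, div_eq_one_iff_eq hnR]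
        exact_mod_cast hs')
      rw [vf_one n (a i) (by omega), vf_one n (a j) (by omega), ← mul_div_assoc, ← mul_div_assoc,
        ← add_div, div_eq_one_iff_eq hnR, hPi, hPj] at h1
      have h2 : 2 * a i + 2 * a j = n := by exact_mod_cast h1
      omega
    · exact Or.inr (Or.inr (Or.inr (Or.inl ⟨i, j, k, hij, hjk, hik, hPi, hPj, hk⟩)))
  · rcases coreB h n (a i) (a j) (a k) (P i) (P j) (ha i) (ha j) (ha k) hs' h3 hj hji H' with
      ⟨d, hd, h1, h2⟩ | ⟨h1, h2, h4⟩
    · refine Or.inr (Or.inl ⟨d, hd, ?_⟩)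
      intro l hl
      rcases mem3 i j k hij hjk hik l with rfl | rfl | rfl
      · exact h1
      · exact h2
      · omega
    · exact Or.inr (Or.inr (Or.inr (Or.inr ⟨i, j, k, hij, hjk, hik, h1, h2, hk, h4⟩)))

theorem one (h : S_NTA) (n : ℕ) (a P : Fin 3 → ℕ) (ha : ∀ k, 0 < a k)
    (hs : a 0 + a 1 + a 2 = n) (hP : 3 ≤ P 0 + P 1 + P 2)
    (H : ∀ j : ℤ, IsCoprime j ((4 * n : ℕ) : ℤ) → vf n j (a 0) + vf n j (a 1) + vf n j (a 2) = 1 →
      (P 0 : ℝ) * vf n j (a 0) + P 1 * vf n j (a 1) + P 2 * vf n j (a 2) = 1)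
    (i j k : Fin 3) (hij : i ≠ j) (hjk : j ≠ k) (hik : i ≠ k) (hk : P k = 0) (hj : P j = 0) :
    NTout n a P := by
  have hs' : a i + a j + a k = n := by rw [← perm3N i j k hij hjk hik a, hs]
  have hP' : 3 ≤ P i + P j + P k := by rw [← perm3N i j k hij hjk hik P]; exact hP
  have H' : ∀ s : ℤ, IsCoprime s ((4 * n : ℕ) : ℤ) →
      vf n s (a i) + vf n s (a j) + vf n s (a k) = 1 →
      (P i : ℝ) * vf n s (a i) = 1 := by
    intro s hs1 hg
    rw [← perm3 i j k hij hjk hik (fun l => vf n s (a l))] at hg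
    have h1 := H s hs1 hg
    rw [perm3 i j k hij hjk hik (fun l => (P l : ℝ) * vf n s (a l)), hk, hj] at h1
    push_cast at h1
    linarith
  obtain ⟨d, hd, h1⟩ := coreA h n (a i) (a j) (a k) (P i) (ha i) (ha j) (ha k) hs' (by omega) H'
  refine Or.inr (Or.inl ⟨d, hd, ?_⟩)
  intro l hl
  rcases mem3 i j k hij hjk hik l with rfl | rfl | rfl
  · exact h1
  · omega
  · omega

theorem t_NT (h : S_NTA) : S_NT := by
  intro n a P hn ha hs hP H
  have a0 := ha 0
  have a1 := ha 1
  have a2 := ha 2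
  have n01 : (0 : Fin 3) ≠ 1 := by decide
  have n02 : (0 : Fin 3) ≠ 2 := by decide
  have n12 : (1 : Fin 3) ≠ 2 := by decide
  have hnR : (n : ℝ) ≠ 0 := by exact_mod_cast hn.ne'
  rcases Nat.eq_zero_or_pos (P 0) with p0 | p0 <;> rcases Nat.eq_zero_or_pos (P 1) with p1 | p1 <;>
    rcases Nat.eq_zero_or_pos (P 2) with p2 | p2
  · omega
  · exact one h n a P ha hs hP H 2 0 1 n02.symm n01 n12.symm p1 p0
  · exact one h n a P ha hs hP H 1 0 2 n01.symm n02 n12 p2 p0
  · rcases le_total (P 1) (P 2) with h12 | h12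
    · exact two h n a P hn ha hs hP H 2 1 0 n12.symm n01.symm n02.symm p0 p1 h12
    · exact two h n a P hn ha hs hP H 1 2 0 n12 n02.symm n01.symm p0 p2 h12
  · exact one h n a P ha hs hP H 0 1 2 n01 n12 n02 p2 p1
  · rcases le_total (P 0) (P 2) with h12 | h12
    · exact two h n a P hn ha hs hP H 2 0 1 n02.symm n01 n12.symm p1 p0 h12
    · exact two h n a P hn ha hs hP H 0 2 1 n02 n12.symm n01 p1 p2 h12
  · rcases le_total (P 0) (P 1) with h12 | h12
    · exact two h n a P hn ha hs hP H 1 0 2 n01.symm n02 n12 p2 p0 h12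
    · exact two h n a P hn ha hs hP H 0 1 2 n01 n12 n02 p2 p1 h12
  · left
    have e1 : P 0 * a 0 + P 1 * a 1 + P 2 * a 2 = n := by
      have h1 := H 1 isCoprime_one_left (by
        rw [vf_one n (a 0) (by omega), vf_one n (a 1) (by omega), vf_one n (a 2) (by omega),
          ← add_div, ← add_div, div_eq_one_iff_eq hnR]
        exact_mod_cast hs)
      rw [vf_one n (a 0) (by omega), vf_one n (a 1) (by omega), vf_one n (a 2) (by omega),
        ← mul_div_assoc, ← mul_div_assoc, ← mul_div_assoc, ← add_div, ← add_div,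
        div_eq_one_iff_eq hnR] at h1
      exact_mod_cast h1
    have g0 : 1 * a 0 ≤ P 0 * a 0 := Nat.mul_le_mul_right _ p0
    have g1 : 1 * a 1 ≤ P 1 * a 1 := Nat.mul_le_mul_right _ p1
    have g2 : 1 * a 2 ≤ P 2 * a 2 := Nat.mul_le_mul_right _ p2
    have f0 : P 0 * a 0 = 1 * a 0 := by linarith
    have f1 : P 1 * a 1 = 1 * a 1 := by linarith
    have f2 : P 2 * a 2 = 1 * a 2 := by linarith
    intro k
    fin_cases k
    · exact Nat.eq_of_mul_eq_mul_right a0 f0
    · exact Nat.eq_of_mul_eq_mul_right a1 f1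
    · exact Nat.eq_of_mul_eq_mul_right a2 f2

end Pool.Agent.Q252.SQNT
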