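import Pool.Agent.Q16.XP.Stm

/-!
# Project XP: additivity of the sum over consecutive prime factors
-/

set_option autoImplicit false

namespace Pool.Agent.Q252.XP_P1

open Q16.XP

theorem rs_pos {n : ℕ} (hn : n ≠ 0) : 0 < rs n := Nat.ordCompl_pos n.minFac hn

theorem rs_dvd (n : ℕ) : rs n ∣ n := Nat.ordCompl_dvd n n.minFac

theorem mul_rs (n : ℕ) : n.minFac ^ ex n * rs n = n := Nat.ordProj_mul_ordCompl_eq_self n n.minFac

theorem ex_pos {n : ℕ} (hn : 1 < n) : 0 < ex n :=
  (Nat.minFac_prime (by omega)).factorization_pos_of_dvd (by omega) (Nat.minFac_dvd n)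

theorem rs_lt {n : ℕ} (hn : 1 < n) : rs n < n := by
  have h1 := mul_rs n
  have h2 : 0 < rs n := rs_pos (by omega)
  have h3 : 1 < n.minFac ^ ex n :=
    Nat.one_lt_pow (ex_pos hn).ne' (Nat.minFac_prime (by omega)).one_lt
  calc rs n < n.minFac ^ ex n * rs n := by nlinarith
    _ = n := h1

theorem rs_le_one {n : ℕ} (hn : n ≤ 1) : rs n ≤ 1 := by
  unfold rs
  exact (Nat.div_le_self _ _).trans hn

theorem fuel (F : ℕ → ℕ → ℕ → ℕ → ℕ) (n : ℕ) : ∀ k, n ≤ k → PSf F k n = PSf F n n := by
  induction n using Nat.strong_induction_on with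
  | _ n ih =>
    intro k hk
    rcases Nat.lt_or_ge 1 n with hn | hn
    · obtain ⟨m, rfl⟩ : ∃ m, n = m + 1 := ⟨n - 1, by omega⟩
      obtain ⟨l, rfl⟩ : ∃ l, k = l + 1 := ⟨k - 1, by omega⟩
      have h1 := rs_lt hn
      rw [PSf, PSf, ih _ h1 l (by omega), ih _ h1 m (by omega)]
    · have h1 := rs_le_one hn
      have h2 : ∀ j, PSf F j n = 0 := by
        intro j
        cases j with
        | zero => rfl
        | succ j => rw [PSf, if_pos h1]
      rw [h2, h2]

theorem PS_one (F : ℕ → ℕ → ℕ → ℕ → ℕ) {n : ℕ} (h : rs n ≤ 1) : PS F n = 0 := by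
  unfold PS
  cases n with
  | zero => rfl
  | succ n => rw [PSf, if_pos h]

theorem PS_rec (F : ℕ → ℕ → ℕ → ℕ → ℕ) {n : ℕ} (h : 1 < rs n) :
    PS F n = F n.minFac (ex n) (rs n).minFac (ex (rs n)) + PS F (rs n) := by
  have hn : 1 < n := by
    by_contra h1
    have := rs_le_one (not_lt.1 h1)
    omega
  unfold PS
  obtain ⟨m, rfl⟩ : ∃ m, n = m + 1 := ⟨n - 1, by omega⟩
  have h1 := rs_lt hn
  rw [PSf, if_neg (by omega), fuel F (rs (m + 1)) m (by omega)]

theorem minFac_mul {b a : ℕ} (hb : 1 < b) (ha : 1 < a) (hs : Sep b a) :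
    (b * a).minFac = b.minFac := by
  have hba : b * a ≠ 1 := by
    intro h
    have := Nat.eq_one_of_mul_eq_one_right h
    omega
  have hq := Nat.minFac_prime hba
  have hp := Nat.minFac_prime (show b ≠ 1 by omega)
  apply le_antisymm
  · exact Nat.minFac_le_of_dvd hp.two_le ((Nat.minFac_dvd b).mul_right a)
  · rcases (Nat.Prime.dvd_mul hq).1 (Nat.minFac_dvd (b * a)) with h | h
    · exact Nat.minFac_le_of_dvd hq.two_le h
    · exact (hs _ _ hp hq (Nat.minFac_dvd b) h).le

theorem not_dvd {b a : ℕ} (hb : 1 < b) (hs : Sep b a) : ¬ b.minFac ∣ a := fun h =>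
  absurd (hs _ _ (Nat.minFac_prime (by omega)) (Nat.minFac_prime (by omega)) (Nat.minFac_dvd b) h)
    (lt_irrefl _)

theorem ex_mul {b a : ℕ} (hb : 1 < b) (ha : 1 < a) (hs : Sep b a) : ex (b * a) = ex b := by
  unfold ex
  rw [minFac_mul hb ha hs, Nat.factorization_mul (by omega) (by omega), Finsupp.add_apply,
    Nat.factorization_eq_zero_of_not_dvd (not_dvd hb hs), add_zero]

theorem rs_mul {b a : ℕ} (hb : 1 < b) (ha : 1 < a) (hs : Sep b a) : rs (b * a) = rs b * a := by
  unfold rs
  rw [ex_mul hb ha hs, minFac_mul hb ha hs]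
  exact (Nat.div_mul_right_comm (Nat.ordProj_dvd b b.minFac) a).symm

theorem tp_mem {n : ℕ} (hn : 1 < n) : tp n ∈ n.primeFactors := by
  have h1 : n.primeFactors.Nonempty := Nat.nonempty_primeFactors.2 hn
  obtain ⟨q, hq, h2⟩ := Finset.exists_mem_eq_sup _ h1 (id : ℕ → ℕ)
  unfold tp
  rw [h2]
  exact hq

theorem le_tp {n q : ℕ} (hq : q ∈ n.primeFactors) : q ≤ tp n :=
  Finset.le_sup (f := (id : ℕ → ℕ)) hq

theorem p1 (F : ℕ → ℕ → ℕ → ℕ → ℕ) (a : ℕ) (ha : 1 < a) (b : ℕ) : 1 < b → Sep b a →
    PS F (b * a) = PS F b + F (tp b) (b.factorization (tp b)) a.minFac (ex a) + PS F a := by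
  induction b using Nat.strong_induction_on with
  | _ b ih =>
    intro hb hs
    have hp := Nat.minFac_prime (show b ≠ 1 by omega)
    have hr0 : 0 < rs b := rs_pos (by omega)
    have hrs := rs_mul hb ha hs
    have hmb := mul_rs b
    have hrec := PS_rec F (n := b * a) (by rw [hrs]; nlinarith)
    rw [hrs, minFac_mul hb ha hs, ex_mul hb ha hs] at hrec
    rw [hrec]
    rcases Nat.lt_or_ge 1 (rs b) with h1 | h1
    · have hs' : Sep (rs b) a := fun p q hp hq h2 h3 => hs p q hp hq (h2.trans (rs_dvd b)) h3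
      rw [minFac_mul h1 ha hs', ex_mul h1 ha hs', ih (rs b) (rs_lt hb) h1 hs', PS_rec F h1]
      have hmem := tp_mem h1
      have hmem' : tp (rs b) ∈ b.primeFactors :=
        Nat.primeFactors_mono (rs_dvd b) (by omega) hmem
      have hne : tp (rs b) ≠ b.minFac := by
        intro h
        have h2 := Nat.dvd_of_mem_primeFactors hmem
        rw [h] at h2
        exact Nat.not_dvd_ordCompl hp (by omega) h2
      have htp : tp b = tp (rs b) := by
        apply le_antisymm
        · have h2 := tp_mem hb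
          have h3 := Nat.prime_of_mem_primeFactors h2
          have h4 : tp b ∣ b.minFac ^ ex b * rs b := by
            rw [hmb]; exact Nat.dvd_of_mem_primeFactors h2
          rcases (Nat.Prime.dvd_mul h3).1 h4 with h5 | h5
          · have h6 := (Nat.prime_dvd_prime_iff_eq h3 hp).1 (h3.dvd_of_dvd_pow h5)
            rw [h6]
            exact Nat.minFac_le_of_dvd (Nat.prime_of_mem_primeFactors hmem').two_le
              (Nat.dvd_of_mem_primeFactors hmem')
          · exact le_tp (Nat.mem_primeFactors.2 ⟨h3, h5, hr0.ne'⟩)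
        · exact le_tp hmem'
      have hf : b.factorization (tp (rs b)) = (rs b).factorization (tp (rs b)) := by
        have h5 : (b.minFac ^ ex b * rs b).factorization (tp (rs b)) =
            b.factorization (tp (rs b)) := by rw [hmb]
        rw [← h5, Nat.factorization_mul (pow_ne_zero _ hp.ne_zero) hr0.ne', Finsupp.add_apply,
          Nat.factorization_eq_zero_of_not_dvd, zero_add]
        intro h2
        have h3 := Nat.prime_of_mem_primeFactors hmem
        exact hne ((Nat.prime_dvd_prime_iff_eq h3 hp).1 (h3.dvd_of_dvd_pow h2))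
      rw [htp, hf]
      ring
    · have h2 : rs b = 1 := by omega
      rw [PS_one F h1, h2, one_mul, zero_add]
      rw [h2, mul_one] at hmb
      have h3 : tp b = b.minFac := by
        have h4 := tp_mem hb
        have h5 := Nat.prime_of_mem_primeFactors h4
        have h6 : tp b ∣ b.minFac ^ ex b := by
          rw [hmb]; exact Nat.dvd_of_mem_primeFactors h4
        exact (Nat.prime_dvd_prime_iff_eq h5 hp).1 (h5.dvd_of_dvd_pow h6)
      rw [h3]
      rfl

theorem t_P1 : S_P1 := fun F b a hb ha hs => p1 F a ha b hb hs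

end Pool.Agent.Q252.XP_P1
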