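import Mathlib
import Pool.Agent.Q2.PM.Stm

/-!
# Project PM (helper2), job B8
-/

set_option autoImplicit false

namespace Q252.PM_B8

open Q2.PM
open Q2.TN (IsPNil IsSyl IsChief Nm)

/-- B8 -/
theorem b8 : S_B8 := by
  intro G _ _ L F hLn hFn hLF hL hc hodd
  have h1 : (L.subgroupOf F).Normal := hLn.subgroupOf F
  obtain ⟨j, hj⟩ := (IsPGroup.iff_card (p := 2) (G := L)).1 hL
  have hcard : Nat.card (L.subgroupOf F) = 2 ^ j := by
    rw [← hj]
    exact Nat.card_congr (Subgroup.subgroupOfEquivOfLe hLF).toEquiv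
  have hodd' : Odd (L.subgroupOf F).index := hodd
  have hcop : Nat.Coprime (Nat.card (L.subgroupOf F)) (L.subgroupOf F).index := by
    rw [hcard]
    exact Nat.Coprime.pow_left j (Nat.coprime_two_left.2 hodd')
  obtain ⟨H, hH⟩ := Subgroup.exists_right_complement'_of_coprime hcop
  have hm : (L.subgroupOf F).index = Nat.card H := hH.symm.index_eq_card
  have hmodd : Odd (Nat.card H) := by rw [← hm]; exact hodd'
  have hcardO : Nat.card (H.map F.subtype) = Nat.card H :=
    (Nat.card_congr (H.equivMapOfInjective F.subtype F.subtype_injective).toEquiv).symm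
  -- description of the complement
  have key : ∀ x : G, x ∈ H.map F.subtype ↔ x ∈ F ∧ x ^ Nat.card H = 1 := by
    intro x
    constructor
    · rintro ⟨y, hy, rfl⟩
      refine ⟨y.2, ?_⟩
      have h2 : (⟨y, hy⟩ : H) ^ Nat.card H = 1 := pow_card_eq_one'
      exact congrArg (fun z : H => ((z : F) : G)) h2
    · rintro ⟨hx, hxm⟩
      obtain ⟨⟨a, b⟩, hab⟩ := hH.2 ⟨x, hx⟩
      have hab' : (a.1 : G) * (b.1 : G) = x := congrArg (fun z : F => (z : G)) hab
      have ha : (a.1 : G) ∈ L := Subgroup.mem_subgroupOf.1 a.2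
      have hcomm : Commute (a.1 : G) (b.1 : G) := hc _ ha _ b.1.2
      have hb : (b.1 : G) ^ Nat.card H = 1 := by
        have h2 : b ^ Nat.card H = 1 := pow_card_eq_one'
        exact congrArg (fun z : H => ((z : F) : G)) h2
      have ha1 : (a.1 : G) ^ Nat.card H = 1 := by
        have h2 := hcomm.mul_pow (Nat.card H)
        rw [hab', hxm, hb, mul_one] at h2
        exact h2.symm
      have ha2 : (a.1 : G) ^ (2 ^ j) = 1 := by
        have h2 : (⟨(a.1 : G), ha⟩ : L) ^ Nat.card L = 1 := pow_card_eq_one'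
        rw [hj] at h2
        exact congrArg (fun z : L => (z : G)) h2
      have hco : Nat.Coprime (Nat.card H) (2 ^ j) :=
        (Nat.Coprime.pow_left j (Nat.coprime_two_left.2 hmodd)).symm
      have ha3 : (a.1 : G) = 1 := by
        have h2 := Nat.Coprime.gcd_eq_one hco
        have h3 : orderOf (a.1 : G) ∣ 1 := by
          rw [← h2]
          exact Nat.dvd_gcd (orderOf_dvd_of_pow_eq_one ha1) (orderOf_dvd_of_pow_eq_one ha2)
        exact orderOf_eq_one_iff.1 (Nat.dvd_one.1 h3)
      rw [ha3, one_mul] at hab'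
      exact ⟨b.1, b.2, hab'⟩
  refine ⟨H.map F.subtype, ⟨fun x hx g => ?_⟩, by rw [hcardO]; exact hmodd, ?_⟩
  · rw [key] at hx ⊢
    refine ⟨hFn.conj_mem x hx.1 g, ?_⟩
    rw [conj_pow, hx.2, mul_one, mul_inv_cancel]
  · have h2 := congrArg (Subgroup.map F.subtype) hH.sup_eq_top
    rw [Subgroup.map_sup, Subgroup.subgroupOf_map_subtype, inf_eq_left.2 hLF,
      ← MonoidHom.range_eq_map, Subgroup.range_subtype] at h2
    exact h2

end Q252.PM_B8
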