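import Pool.Agent.Q82.BB.Stm

set_option autoImplicit false

open MeasureTheory Filter Topology Set

namespace Pool.Agent.Q82.BB

lemma cg_cont {T : ℝ} {G : ℝ → ℝ → ℂ} (hG : Good T G) {τ : ℝ} (hτ : τ ∈ Ioo 0 T) :
    Continuous (fun η => G η τ) := by
  rw [← continuousOn_univ]
  exact hG.1.comp (by fun_prop : Continuous fun η : ℝ => (η, τ)).continuousOn
    (fun η _ => ⟨mem_univ _, hτ⟩)

lemma cg_contAt {T : ℝ} {G : ℝ → ℝ → ℂ} (hG : Good T G) {ξ τ : ℝ} (hτ : τ ∈ Ioo 0 T) :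
    ContinuousAt (fun q : ℝ × ℝ => G q.1 q.2) (ξ, τ) :=
  hG.1.continuousAt ((isOpen_univ.prod isOpen_Ioo).mem_nhds ⟨mem_univ _, hτ⟩)

lemma cg_bd {T : ℝ} {G : ℝ → ℝ → ℂ} (hG : Good T G) {a b : ℝ} (ha : 0 < a) (hb : b < T) :
    ∃ c C : ℝ, 0 < c ∧ 0 ≤ C ∧ ∀ ξ : ℝ, ∀ τ ∈ Icc a b, ‖G ξ τ‖ ≤ C * Real.exp (-(c * |ξ|)) := by
  obtain ⟨c, C, hc, h⟩ := hG.2 a b ha hb
  refine ⟨c, |C|, hc, abs_nonneg _, fun ξ τ hτ => (h ξ τ hτ).trans ?_⟩
  exact mul_le_mul_of_nonneg_right (le_abs_self C) (Real.exp_pos _).le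

lemma cg_int {c : ℝ} (hc : 0 < c) : Integrable (fun η : ℝ => Real.exp (-(c * |η|))) := by
  refine (integrable_inv_one_add_sq.const_mul (1 + 2 / c ^ 2)).mono'
    (by fun_prop : Continuous fun η : ℝ => Real.exp (-(c * |η|))).aestronglyMeasurable
    (Eventually.of_forall fun η => ?_)
  rw [Real.norm_of_nonneg (Real.exp_pos _).le, Real.exp_neg, ← div_eq_mul_inv,
    inv_eq_one_div, div_le_div_iff₀ (Real.exp_pos _) (by positivity), one_mul]
  have h1 := Real.quadratic_le_exp_of_nonneg (x := c * |η|) (by positivity)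
  have h2 : (c * |η|) ^ 2 = c ^ 2 * η ^ 2 := by rw [mul_pow, sq_abs]
  have h3 : 0 ≤ c * |η| := by positivity
  have h4 : (1 + 2 / c ^ 2) * (1 + c ^ 2 * η ^ 2 / 2) ≤ (1 + 2 / c ^ 2) * Real.exp (c * |η|) := by
    refine mul_le_mul_of_nonneg_left ?_ (by positivity)
    rw [h2] at h1
    linarith
  have h5 : (1 + 2 / c ^ 2) * (1 + c ^ 2 * η ^ 2 / 2) =
      1 + 2 / c ^ 2 + c ^ 2 * η ^ 2 / 2 + η ^ 2 := by
    field_simp
    ring
  have h6 : 0 ≤ 2 / c ^ 2 := by positivity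
  have h7 : 0 ≤ c ^ 2 * η ^ 2 / 2 := by positivity
  linarith

/-- the product bound -/
lemma cg_exp {c c' : ℝ} (hc : 0 < c) (hc' : 0 < c') (ξ η : ℝ) :
    Real.exp (-(c * |η|)) * Real.exp (-(c' * |ξ - η|)) ≤
      Real.exp (-(min c c' / 2 * |ξ|)) * Real.exp (-(min c c' / 2 * |η|)) := by
  rw [← Real.exp_add, ← Real.exp_add]
  apply Real.exp_le_exp.2
  have h0 : 0 < min c c' := lt_min hc hc'
  have h1 : |ξ| ≤ |η| + |ξ - η| := by
    have := abs_add_le η (ξ - η)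
    rwa [add_sub_cancel] at this
  have h2 : min c c' * |η| ≤ c * |η| := mul_le_mul_of_nonneg_right (min_le_left _ _) (abs_nonneg _)
  have h3 : min c c' * |ξ - η| ≤ c' * |ξ - η| :=
    mul_le_mul_of_nonneg_right (min_le_right _ _) (abs_nonneg _)
  have h4 := mul_le_mul_of_nonneg_left h1 h0.le
  have h5 : 0 ≤ min c c' * |ξ - η| := by positivity
  nlinarith

lemma cg_prod {T : ℝ} {G H : ℝ → ℝ → ℂ} (hG : Good T G) (hH : Good T H) {a b : ℝ} (ha : 0 < a)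
    (hb : b < T) : ∃ c C : ℝ, 0 < c ∧ 0 ≤ C ∧ ∀ ξ η : ℝ, ∀ τ ∈ Icc a b,
      ‖G η τ * H (ξ - η) τ‖ ≤ C * (Real.exp (-(c * |ξ|)) * Real.exp (-(c * |η|))) := by
  obtain ⟨c, C, hc, hC, h⟩ := cg_bd hG ha hb
  obtain ⟨c', C', hc', hC', h'⟩ := cg_bd hH ha hb
  refine ⟨min c c' / 2, C * C', half_pos (lt_min hc hc'), mul_nonneg hC hC', fun ξ η τ hτ => ?_⟩
  rw [norm_mul]
  calc ‖G η τ‖ * ‖H (ξ - η) τ‖ ≤
        (C * Real.exp (-(c * |η|))) * (C' * Real.exp (-(c' * |ξ - η|))) :=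
        mul_le_mul (h η τ hτ) (h' (ξ - η) τ hτ) (norm_nonneg _)
          (mul_nonneg hC (Real.exp_pos _).le)
    _ = C * C' * (Real.exp (-(c * |η|)) * Real.exp (-(c' * |ξ - η|))) := by ring
    _ ≤ _ := mul_le_mul_of_nonneg_left (cg_exp hc hc' ξ η) (mul_nonneg hC hC')

lemma cg_cont2 {T : ℝ} {G H : ℝ → ℝ → ℂ} (hG : Good T G) (hH : Good T H) (ξ : ℝ) {τ : ℝ}
    (hτ : τ ∈ Ioo 0 T) : Continuous (fun η => G η τ * H (ξ - η) τ) :=
  (cg_cont hG hτ).mul ((cg_cont hH hτ).comp (by fun_prop : Continuous fun η : ℝ => ξ - η))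

lemma cg_intg {T : ℝ} {G H : ℝ → ℝ → ℂ} (hG : Good T G) (hH : Good T H) (ξ : ℝ) {τ : ℝ}
    (hτ : τ ∈ Ioo 0 T) : Integrable (fun η => G η τ * H (ξ - η) τ) := by
  obtain ⟨c, C, hc, hC, h⟩ := cg_prod hG hH hτ.1 hτ.2
  refine (((cg_int hc).const_mul (Real.exp (-(c * |ξ|)))).const_mul C).mono'
    (cg_cont2 hG hH ξ hτ).aestronglyMeasurable (Eventually.of_forall fun η => ?_)
  exact h ξ η τ ⟨le_refl _, le_refl _⟩

/-- a closed interval around `τ` -/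
lemma cg_nhd {T τ : ℝ} (hτ : τ ∈ Ioo 0 T) : ∃ a b : ℝ, 0 < a ∧ b < T ∧ Icc a b ∈ 𝓝 τ := by
  refine ⟨τ / 2, (τ + T) / 2, by linarith [hτ.1], by linarith [hτ.2],
    Icc_mem_nhds (by linarith [hτ.1]) (by linarith [hτ.2])⟩

lemma cg_good {T : ℝ} {G H : ℝ → ℝ → ℂ} (hG : Good T G) (hH : Good T H) : Good T (cv G H) := by
  constructor
  · rintro ⟨ξ₀, τ₀⟩ ⟨-, hτ₀⟩
    apply ContinuousAt.continuousWithinAt
    obtain ⟨a, b, ha, hb, hab⟩ := cg_nhd hτ₀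
    obtain ⟨c, C, hc, hC, h⟩ := cg_prod hG hH ha hb
    have hev : ∀ᶠ q : ℝ × ℝ in 𝓝 (ξ₀, τ₀), q.2 ∈ Icc a b :=
      continuous_snd.continuousAt.eventually_mem hab
    have hev' : ∀ᶠ q : ℝ × ℝ in 𝓝 (ξ₀, τ₀), q.2 ∈ Ioo 0 T :=
      continuous_snd.continuousAt.eventually_mem (isOpen_Ioo.mem_nhds hτ₀)
    refine continuousAt_of_dominated (F := fun (q : ℝ × ℝ) (η : ℝ) => G η q.2 * H (q.1 - η) q.2)
      (bound := fun η => C * Real.exp (-(c * |η|)))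
      (hev'.mono fun q hq => (cg_cont2 hG hH q.1 hq).aestronglyMeasurable)
      (hev.mono fun q hq => Eventually.of_forall fun η => ?_) ((cg_int hc).const_mul C)
      (Eventually.of_forall fun η => ?_)
    · refine (h q.1 η q.2 hq).trans (mul_le_mul_of_nonneg_left ?_ hC)
      refine mul_le_of_le_one_left (Real.exp_pos _).le (Real.exp_le_one_iff.2 ?_)
      have : 0 ≤ c * |q.1| := by positivity
      linarith
    · refine ContinuousAt.mul ?_ ?_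
      · exact ContinuousAt.comp (f := fun q : ℝ × ℝ => (η, q.2)) (x := (ξ₀, τ₀))
          (g := fun q : ℝ × ℝ => G q.1 q.2) (cg_contAt hG hτ₀)
          (by fun_prop : Continuous fun q : ℝ × ℝ => (η, q.2)).continuousAt
      · exact ContinuousAt.comp (f := fun q : ℝ × ℝ => (q.1 - η, q.2)) (x := (ξ₀, τ₀))
          (g := fun q : ℝ × ℝ => H q.1 q.2) (cg_contAt hH hτ₀)
          (by fun_prop : Continuous fun q : ℝ × ℝ => (q.1 - η, q.2)).continuousAt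
  · intro a b ha hb
    obtain ⟨c, C, hc, hC, h⟩ := cg_prod hG hH ha hb
    refine ⟨c, C * ∫ η : ℝ, Real.exp (-(c * |η|)), hc, fun ξ τ hτ => ?_⟩
    have h1 := norm_integral_le_of_norm_le
      (((cg_int hc).const_mul (Real.exp (-(c * |ξ|)))).const_mul C)
      (Eventually.of_forall fun η => h ξ η τ hτ)
    refine h1.trans (le_of_eq ?_)
    rw [integral_const_mul, integral_const_mul]
    ring

theorem cg : S_CG := by
  intro T G H hT hG hH
  refine ⟨cg_good hG hH, fun G1 H1 hG1 hH1 hdG hdH ξ τ hτ => ?_⟩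
  obtain ⟨a, b, ha, hb, hab⟩ := cg_nhd hτ
  obtain ⟨c, C, hc, hC, h⟩ := cg_prod hG1 hH ha hb
  obtain ⟨c', C', hc', hC', h'⟩ := cg_prod hG hH1 ha hb
  have hle : ∀ (c : ℝ), 0 < c → ∀ η : ℝ, Real.exp (-(c * |ξ|)) * Real.exp (-(c * |η|)) ≤
      Real.exp (-(c * |η|)) := fun c hc η => by
    refine mul_le_of_le_one_left (Real.exp_pos _).le (Real.exp_le_one_iff.2 ?_)
    have : 0 ≤ c * |ξ| := by positivity
    linarith
  have key := hasDerivAt_integral_of_dominated_loc_of_deriv_le (μ := volume)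
    (s := Icc a b ∩ Ioo 0 T) (x₀ := τ)
    (F := fun τ η => G η τ * H (ξ - η) τ)
    (F' := fun τ η => G1 η τ * H (ξ - η) τ + G η τ * H1 (ξ - η) τ)
    (bound := fun η => C * Real.exp (-(c * |η|)) + C' * Real.exp (-(c' * |η|)))
    (Filter.inter_mem hab (isOpen_Ioo.mem_nhds hτ))
    ((isOpen_Ioo.eventually_mem hτ).mono fun t ht =>
      (cg_cont2 hG hH ξ ht).aestronglyMeasurable)
    (cg_intg hG hH ξ hτ)
    ((cg_cont2 hG1 hH ξ hτ).add (cg_cont2 hG hH1 ξ hτ)).aestronglyMeasurable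
    (Eventually.of_forall fun η t ht => (norm_add_le _ _).trans (add_le_add
      ((h ξ η t ht.1).trans (mul_le_mul_of_nonneg_left (hle c hc η) hC))
      ((h' ξ η t ht.1).trans (mul_le_mul_of_nonneg_left (hle c' hc' η) hC'))))
    (((cg_int hc).const_mul C).add ((cg_int hc').const_mul C'))
    (Eventually.of_forall fun η t ht => (hdG η t ht.2).mul (hdH (ξ - η) t ht.2))
  have h2 := key.2
  rw [integral_add (cg_intg hG1 hH ξ hτ) (cg_intg hG hH1 ξ hτ)] at h2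
  exact h2

end Pool.Agent.Q82.BB
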