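import Pool.Agent.Q252.BB_ODEb

set_option autoImplicit false

open MeasureTheory Filter Topology Set

namespace Pool.Agent.Q82.BB

/-- the nonlinear part for all times -/
noncomputable def ode_NN (sh ch : ℝ → ℝ → ℝ) (T : ℝ) (w : ℝ → ℝ → ℂ) (ξ τ : ℝ) : ℂ :=
  (ξ : ℂ) ^ 2 * ((((1 - chi ξ) / (2 * lam ξ) : ℝ) : ℂ) * ode_A T (lam ξ) (ode_g T w ξ) τ -
    (chi ξ : ℂ) * ode_B sh ch (mu ξ) (ode_g T w ξ) τ)

/-- the derivative -/
noncomputable def ode_w1 (sh ch : ℝ → ℝ → ℝ) (T : ℝ) (p : ℕ) (ε : ℝ) (w : ℝ → ℝ → ℂ) (ξ τ : ℝ) : ℂ :=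
  -((lam ξ : ℂ) * (ode_c p ε ξ * (Real.exp (-(lam ξ * τ)) : ℂ))) +
  (ξ : ℂ) ^ 2 * ((((1 - chi ξ) / 2 : ℝ) : ℂ) * ode_A1 T (lam ξ) (ode_g T w ξ) τ -
    (chi ξ : ℂ) * ode_B1 sh ch (mu ξ) (ode_g T w ξ) τ)

lemma ode_Nl {sh ch : ℝ → ℝ → ℝ} (h : IsSh sh ch) {T : ℝ} {w : ℝ → ℝ → ℂ} {ξ τ : ℝ}
    (hg : Continuous (ode_g T w ξ)) (hτ : τ ∈ Icc 0 T) :
    Nl T (kap sh) w ξ τ = ode_NN sh ch T w ξ τ := by
  have hT : 0 ≤ T := hτ.1.trans hτ.2
  have hcs := ode_sh_cont1 h (mu ξ)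
  unfold Nl ode_NN
  rw [← ode_A_eq hg hτ, ← ode_B_eq h hg hτ, ← intervalIntegral.integral_const_mul,
    ← intervalIntegral.integral_const_mul, ← intervalIntegral.integral_sub
      (Continuous.intervalIntegrable (by fun_prop) _ _)
      (Continuous.intervalIntegrable (by fun_prop) _ _), ← intervalIntegral.integral_const_mul]
  refine intervalIntegral.integral_congr fun s hs => ?_
  rw [uIcc_of_le hT] at hs
  rw [ode_g_eq w ξ hs]
  unfold kap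
  push_cast
  ring

lemma ode_ratio (ξ : ℝ) : (((1 - chi ξ) / (2 * lam ξ) : ℝ) : ℂ) * (lam ξ : ℂ) =
    (((1 - chi ξ) / 2 : ℝ) : ℂ) := by
  rw [← Complex.ofReal_mul]
  congr 1
  rcases le_or_gt |ξ| 2 with h | h
  · rw [ode_chi_one h]
    simp
  · have h1 := ode_lam_ge h.le
    have h2 := ode_sq4 h.le
    have h3 : 0 < lam ξ := by linarith
    field_simp

lemma ode_NN_deriv {sh ch : ℝ → ℝ → ℝ} (h : IsSh sh ch) {T : ℝ} {w : ℝ → ℝ → ℂ} {ξ : ℝ}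
    (hg : Continuous (ode_g T w ξ)) (τ : ℝ) :
    HasDerivAt (ode_NN sh ch T w ξ) ((ξ : ℂ) ^ 2 *
      ((((1 - chi ξ) / 2 : ℝ) : ℂ) * ode_A1 T (lam ξ) (ode_g T w ξ) τ -
      (chi ξ : ℂ) * ode_B1 sh ch (mu ξ) (ode_g T w ξ) τ)) τ := by
  have h1 := (ode_A_deriv T (lam ξ) hg τ).const_mul (((1 - chi ξ) / (2 * lam ξ) : ℝ) : ℂ)
  have h2 := (ode_B_deriv h (mu ξ) hg τ).const_mul (chi ξ : ℂ)
  have h3 : HasDerivAt (ode_NN sh ch T w ξ) _ τ := (h1.sub h2).const_mul ((ξ : ℂ) ^ 2)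
  refine h3.congr_deriv ?_
  rw [← mul_assoc, ode_ratio]

lemma ode_w1_deriv {sh ch : ℝ → ℝ → ℝ} (h : IsSh sh ch) {T : ℝ} {p : ℕ} {ε : ℝ} {w : ℝ → ℝ → ℂ}
    {ξ : ℝ} (hg : Continuous (ode_g T w ξ)) (τ : ℝ) :
    HasDerivAt (ode_w1 sh ch T p ε w ξ) ((mu ξ : ℂ) * (w0 p ε ξ τ + ode_NN sh ch T w ξ τ) -
      (ξ : ℂ) ^ 2 * ode_g T w ξ τ) τ := by
  have h0 := (((ode_exp_deriv' (lam ξ) τ).const_mul (ode_c p ε ξ)).const_mul (lam ξ : ℂ)).neg
  have h1 := (ode_A1_deriv T (lam ξ) hg τ).const_mul (((1 - chi ξ) / 2 : ℝ) : ℂ)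
  have h2 := (ode_B1_deriv h (mu ξ) hg τ).const_mul (chi ξ : ℂ)
  have h3 : HasDerivAt (ode_w1 sh ch T p ε w ξ) _ τ :=
    h0.add ((h1.sub h2).const_mul ((ξ : ℂ) ^ 2))
  refine h3.congr_deriv ?_
  rw [ode_w0]
  unfold ode_NN
  rcases le_or_gt |ξ| 2 with h | h
  · rw [ode_c_zero h, ode_chi_one h]
    push_cast
    ring
  · have h4 := ode_lam_sq h.le
    have h5 : (mu ξ : ℂ) = (lam ξ : ℂ) ^ 2 := by
      rw [← h4]
      push_cast
      rfl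
    have h6 := ode_ratio ξ
    have h7 : (((1 - chi ξ) / 2 : ℝ) : ℂ) * 2 = 1 - (chi ξ : ℂ) := by
      push_cast
      ring
    generalize ode_B sh ch (mu ξ) (ode_g T w ξ) τ = b
    generalize ode_A T (lam ξ) (ode_g T w ξ) τ = a
    generalize ode_g T w ξ τ = g
    rw [h5]
    generalize (((1 - chi ξ) / (2 * lam ξ) : ℝ) : ℂ) = r1 at *
    generalize (((1 - chi ξ) / 2 : ℝ) : ℂ) = r2 at *
    linear_combination (-(ξ : ℂ) ^ 2 * lam ξ * a) * h6 - (ξ : ℂ) ^ 2 * g * h7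

/-- the joint continuity of the time integrals -/
lemma ode_I_cont {f : ℝ → ℝ → ℝ} {g : ℝ → ℝ → ℂ} (hf : Continuous fun q : ℝ × ℝ => f q.1 q.2)
    (hg : Continuous fun q : ℝ × ℝ => g q.1 q.2) :
    Continuous (fun q : ℝ × ℝ => ode_I (f q.1) (g q.1) q.2) := by
  unfold ode_I
  refine intervalIntegral.continuous_parametric_intervalIntegral_of_continuous
    (f := fun (q : ℝ × ℝ) (s : ℝ) => (f q.1 s : ℂ) * g q.1 s) ?_ continuous_snd
  have h1 : Continuous fun q : (ℝ × ℝ) × ℝ => f q.1.1 q.2 :=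
    hf.comp (by fun_prop : Continuous fun q : (ℝ × ℝ) × ℝ => (q.1.1, q.2))
  have h2 : Continuous fun q : (ℝ × ℝ) × ℝ => g q.1.1 q.2 :=
    hg.comp (by fun_prop : Continuous fun q : (ℝ × ℝ) × ℝ => (q.1.1, q.2))
  exact (Complex.continuous_ofReal.comp h1).mul h2

lemma ode_J_cont (T : ℝ) {f : ℝ → ℝ → ℝ} {g : ℝ → ℝ → ℂ}
    (hf : Continuous fun q : ℝ × ℝ => f q.1 q.2) (hg : Continuous fun q : ℝ × ℝ => g q.1 q.2) :
    Continuous (fun q : ℝ × ℝ => ode_J T (f q.1) (g q.1) q.2) := by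
  unfold ode_J
  have h1 : Continuous fun q : (ℝ × ℝ) × ℝ => f q.1.1 q.2 :=
    hf.comp (by fun_prop : Continuous fun q : (ℝ × ℝ) × ℝ => (q.1.1, q.2))
  have h2 : Continuous fun q : (ℝ × ℝ) × ℝ => g q.1.1 q.2 :=
    hg.comp (by fun_prop : Continuous fun q : (ℝ × ℝ) × ℝ => (q.1.1, q.2))
  have h3 := intervalIntegral.continuous_parametric_intervalIntegral_of_continuous (a₀ := T)
    (μ := volume) (f := fun (q : ℝ × ℝ) (s : ℝ) => (f q.1 s : ℂ) * g q.1 s)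
    ((Complex.continuous_ofReal.comp h1).mul h2) continuous_snd
  refine h3.neg.congr fun q => ?_
  rw [intervalIntegral.integral_symm]
  rfl

lemma ode_w1_cont {sh ch : ℝ → ℝ → ℝ} (h : IsSh sh ch) {T : ℝ} {p : ℕ} {ε : ℝ} {w : ℝ → ℝ → ℂ}
    (hg : Continuous (fun q : ℝ × ℝ => ode_g T w q.1 q.2)) :
    Continuous (fun q : ℝ × ℝ => ode_w1 sh ch T p ε w q.1 q.2) := by
  have hl := ode_lam_cont
  have hm := ode_mu_cont
  have hχ := ode_chi_cont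
  have hc := ode_c_cont p ε
  have hs := ode_sh_cont h
  have hh := ode_ch_cont h
  have hs2 : Continuous fun q : ℝ × ℝ => sh (mu q.1) q.2 :=
    hs.comp (by fun_prop : Continuous fun q : ℝ × ℝ => (mu q.1, q.2))
  have hh2 : Continuous fun q : ℝ × ℝ => ch (mu q.1) q.2 :=
    hh.comp (by fun_prop : Continuous fun q : ℝ × ℝ => (mu q.1, q.2))
  have i1 := ode_I_cont (f := fun ξ s => Real.exp (lam ξ * s)) (by fun_prop) hg
  have i2 := ode_J_cont T (f := fun ξ s => Real.exp (-(lam ξ * s))) (by fun_prop) hg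
  have i3 := ode_I_cont (f := fun ξ => ch (mu ξ)) hh2 hg
  have i4 := ode_I_cont (f := fun ξ => sh (mu ξ)) hs2 hg
  unfold ode_w1 ode_A1 ode_B1
  fun_prop

/-- the integral which bounds the derivative of the nonlinear part -/
lemma ode_time (h1 : S_CVB) (h3 : S_TI) {T : ℝ} {p : ℕ} {w : ℝ → ℝ → ℂ} {Cs : ℕ → ℝ} (hT : 0 < T)
    (hA : Adm T p w Cs) (hg : Continuous (fun q : ℝ × ℝ => ode_g T w q.1 q.2)) :
    ∃ K : ℝ, 0 ≤ K ∧ ∀ ξ : ℝ, ∀ τ ∈ Icc 0 T,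
      ∫ s in (0 : ℝ)..T, Real.exp (-(ξ ^ 2 * |τ - s| / 4)) * ‖ode_g T w ξ s‖ ≤
        K * (ex ξ τ / (1 + |ξ|) ^ (p + 2)) := by
  obtain ⟨K, hK, h⟩ := ode_g_norm h1 hA
  obtain ⟨K', hK', h'⟩ := h3 T hT
  refine ⟨K * K', mul_nonneg hK hK'.le, fun ξ τ hτ => ?_⟩
  have hg1 : Continuous (ode_g T w ξ) := hg.comp (by fun_prop : Continuous fun s : ℝ => (ξ, s))
  have hex : Continuous fun s : ℝ => ex ξ s := by
    unfold ex
    fun_prop
  calc ∫ s in (0 : ℝ)..T, Real.exp (-(ξ ^ 2 * |τ - s| / 4)) * ‖ode_g T w ξ s‖ ≤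
      ∫ s in (0 : ℝ)..T, (K / (1 + |ξ|) ^ p) * (Real.exp (-(ξ ^ 2 * |τ - s| / 4)) * ex ξ s) := by
        refine intervalIntegral.integral_mono_on hT.le
          (Continuous.intervalIntegrable (by fun_prop) _ _)
          (Continuous.intervalIntegrable (by fun_prop) _ _) fun s hs => ?_
        have := mul_le_mul_of_nonneg_left (h ξ s hs)
          (Real.exp_pos (-(ξ ^ 2 * |τ - s| / 4))).le
        refine this.trans (le_of_eq ?_)
        ring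
    _ = (K / (1 + |ξ|) ^ p) * ∫ s in (0 : ℝ)..T, Real.exp (-(ξ ^ 2 * |τ - s| / 4)) * ex ξ s :=
        intervalIntegral.integral_const_mul _ _
    _ ≤ (K / (1 + |ξ|) ^ p) * (K' * (ex ξ τ / (1 + |ξ|) ^ 2)) :=
        mul_le_mul_of_nonneg_left (h' ξ τ hτ) (by positivity)
    _ = _ := by
        rw [pow_add]
        field_simp

lemma ode_high {T : ℝ} {w : ℝ → ℝ → ℂ} {ξ τ : ℝ} (hg : Continuous (ode_g T w ξ))
    (hτ : τ ∈ Icc 0 T) : ‖(((1 - chi ξ) / 2 : ℝ) : ℂ) * ode_A1 T (lam ξ) (ode_g T w ξ) τ‖ ≤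
      ∫ s in (0 : ℝ)..T, Real.exp (-(ξ ^ 2 * |τ - s| / 4)) * ‖ode_g T w ξ s‖ := by
  have hT : 0 ≤ T := hτ.1.trans hτ.2
  have hpos : 0 ≤ ∫ s in (0 : ℝ)..T, Real.exp (-(ξ ^ 2 * |τ - s| / 4)) * ‖ode_g T w ξ s‖ :=
    intervalIntegral.integral_nonneg hT fun s _ => by positivity
  rw [norm_mul, Complex.norm_real, Real.norm_of_nonneg (by linarith [ode_chi_le ξ])]
  rcases le_or_gt |ξ| 2 with h | h
  · rw [ode_chi_one h, sub_self, zero_div, zero_mul]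
    exact hpos
  · have h1 : ‖ode_A1 T (lam ξ) (ode_g T w ξ) τ‖ ≤
        ∫ s in (0 : ℝ)..T, Real.exp (-(ξ ^ 2 * |τ - s| / 4)) * ‖ode_g T w ξ s‖ := by
      refine (ode_A1_norm hg hτ).trans ?_
      refine intervalIntegral.integral_mono_on hT
          (Continuous.intervalIntegrable (by fun_prop) _ _)
          (Continuous.intervalIntegrable (by fun_prop) _ _) fun s hs => ?_
      refine mul_le_mul_of_nonneg_right (Real.exp_le_exp.2 ?_) (norm_nonneg _)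
      have := mul_le_mul_of_nonneg_right (ode_lam_ge h.le) (abs_nonneg (τ - s))
      linarith
    have h2 : (1 - chi ξ) / 2 ≤ 1 := by linarith [ode_chi_nonneg ξ]
    calc (1 - chi ξ) / 2 * ‖ode_A1 T (lam ξ) (ode_g T w ξ) τ‖ ≤
          1 * ∫ s in (0 : ℝ)..T, Real.exp (-(ξ ^ 2 * |τ - s| / 4)) * ‖ode_g T w ξ s‖ :=
          mul_le_mul h2 h1 (norm_nonneg _) zero_le_one
      _ = _ := one_mul _

lemma ode_low {sh ch : ℝ → ℝ → ℝ} (h : IsSh sh ch) (T : ℝ) : ∃ M : ℝ, 0 ≤ M ∧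
    ∀ (w : ℝ → ℝ → ℂ) (ξ τ : ℝ), Continuous (ode_g T w ξ) → τ ∈ Icc 0 T →
      ‖(chi ξ : ℂ) * ode_B1 sh ch (mu ξ) (ode_g T w ξ) τ‖ ≤
        M * ∫ s in (0 : ℝ)..T, Real.exp (-(ξ ^ 2 * |τ - s| / 4)) * ‖ode_g T w ξ s‖ := by
  have hch2 : Continuous fun q : ℝ × ℝ => ch (mu q.1) q.2 := by
    have hm := ode_mu_cont
    exact (ode_ch_cont h).comp (by fun_prop : Continuous fun q : ℝ × ℝ => (mu q.1, q.2))
  obtain ⟨M, hM⟩ := (isCompact_Icc.prod isCompact_Icc : IsCompact (Icc (-3 : ℝ) 3 ×ˢ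
    Icc (0 : ℝ) T)).exists_bound_of_continuousOn hch2.continuousOn
  refine ⟨|M| * Real.exp (9 * T / 4), by positivity, fun w ξ τ hg hτ => ?_⟩
  have hT : 0 ≤ T := hτ.1.trans hτ.2
  have hpos : 0 ≤ ∫ s in (0 : ℝ)..T, Real.exp (-(ξ ^ 2 * |τ - s| / 4)) * ‖ode_g T w ξ s‖ :=
    intervalIntegral.integral_nonneg hT fun s _ => by positivity
  rw [norm_mul, Complex.norm_real, Real.norm_of_nonneg (ode_chi_nonneg ξ)]
  rcases le_or_gt 3 |ξ| with h3 | h3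
  · rw [ode_chi_zero h3, zero_mul]
    exact mul_nonneg (by positivity) hpos
  · have hξ : ξ ∈ Icc (-3 : ℝ) 3 := abs_le.1 h3.le
    have hsq : ξ ^ 2 ≤ 9 := by
      rw [← sq_abs]
      nlinarith [abs_nonneg ξ]
    have hch1 := ode_ch_cont1 h (mu ξ)
    have hc1 : Continuous fun s : ℝ =>
      |M| * Real.exp (9 * T / 4) * (Real.exp (-(ξ ^ 2 * |τ - s| / 4)) * ‖ode_g T w ξ s‖) := by
      fun_prop
    have h1 : ‖ode_B1 sh ch (mu ξ) (ode_g T w ξ) τ‖ ≤ |M| * Real.exp (9 * T / 4) *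
        ∫ s in (0 : ℝ)..T, Real.exp (-(ξ ^ 2 * |τ - s| / 4)) * ‖ode_g T w ξ s‖ := by
      rw [ode_B1_eq h hg, ← intervalIntegral.integral_const_mul]
      refine (intervalIntegral.norm_integral_le_integral_norm hτ.1).trans ?_
      have h5 : ∫ s in (0 : ℝ)..τ, ‖(ch (mu ξ) (τ - s) : ℂ) * ode_g T w ξ s‖ ≤
          ∫ s in (0 : ℝ)..τ, |M| * Real.exp (9 * T / 4) *
            (Real.exp (-(ξ ^ 2 * |τ - s| / 4)) * ‖ode_g T w ξ s‖) := by
        refine intervalIntegral.integral_mono_on hτ.1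
          (Continuous.intervalIntegrable (by fun_prop) _ _) (hc1.intervalIntegrable _ _)
          fun s hs => ?_
        rw [norm_mul, Complex.norm_real]
        have h6 : ‖ch (mu ξ) (τ - s)‖ ≤ |M| :=
          (hM (ξ, τ - s) ⟨hξ, by linarith [hs.2], by linarith [hs.1, hτ.2]⟩).trans (le_abs_self M)
        have h7 : 1 ≤ Real.exp (9 * T / 4) * Real.exp (-(ξ ^ 2 * |τ - s| / 4)) := by
          rw [← Real.exp_add]
          refine Real.one_le_exp ?_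
          have h8 : |τ - s| ≤ T := by
            rw [abs_of_nonneg (by linarith [hs.2])]
            linarith [hs.1, hτ.2]
          have h9 : ξ ^ 2 * |τ - s| ≤ 9 * T := mul_le_mul hsq h8 (abs_nonneg _) (by norm_num)
          linarith
        calc ‖ch (mu ξ) (τ - s)‖ * ‖ode_g T w ξ s‖ ≤ |M| * ‖ode_g T w ξ s‖ :=
              mul_le_mul_of_nonneg_right h6 (norm_nonneg _)
          _ = |M| * ‖ode_g T w ξ s‖ * 1 := (mul_one _).symm
          _ ≤ |M| * ‖ode_g T w ξ s‖ *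
                (Real.exp (9 * T / 4) * Real.exp (-(ξ ^ 2 * |τ - s| / 4))) :=
              mul_le_mul_of_nonneg_left h7 (by positivity)
          _ = _ := by ring
      refine h5.trans ?_
      rw [← intervalIntegral.integral_add_adjacent_intervals (hc1.intervalIntegrable 0 τ)
        (hc1.intervalIntegrable τ T)]
      refine le_add_of_nonneg_right (intervalIntegral.integral_nonneg hτ.2 fun s _ => ?_)
      positivity
    calc chi ξ * ‖ode_B1 sh ch (mu ξ) (ode_g T w ξ) τ‖ ≤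
          1 * (|M| * Real.exp (9 * T / 4) *
            ∫ s in (0 : ℝ)..T, Real.exp (-(ξ ^ 2 * |τ - s| / 4)) * ‖ode_g T w ξ s‖) :=
          mul_le_mul (ode_chi_le ξ) h1 (norm_nonneg _) zero_le_one
      _ = _ := one_mul _

theorem ode (h1 : S_CVB) (h2 : S_CVD) (h3 : S_TI) : S_ODE := by
  intro sh ch h T p ε w Cs hT hA hw
  have hg2 := ode_g_cont h2 hT hA
  have hg : ∀ ξ, Continuous (ode_g T w ξ) := fun ξ =>
    hg2.comp (by fun_prop : Continuous fun s : ℝ => (ξ, s))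
  refine ⟨ode_w1 sh ch T p ε w, (ode_w1_cont h hg2).continuousOn, ?_, fun ξ τ hτ => ?_,
    fun ξ τ hτ => ?_⟩
  · obtain ⟨K, hK, hK1⟩ := ode_time h1 h3 hT hA hg2
    obtain ⟨M, hM, hM1⟩ := ode_low h T
    refine ⟨2 * |ε| * 2 ^ (p + 1) + (1 + M) * K, fun ξ τ hτ => ?_⟩
    set E : ℝ := ex ξ τ / (1 + |ξ|) ^ (p + 1) with hE
    have hE0 : 0 ≤ E := by
      rw [hE]
      unfold ex
      positivity
    have hE2 : ex ξ τ / (1 + |ξ|) ^ (p + 2) ≤ E := by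
      rw [hE]
      refine div_le_div_of_nonneg_left (by unfold ex; positivity) (by positivity) ?_
      exact pow_le_pow_right₀ (by linarith [abs_nonneg ξ]) (by omega)
    have hsq : ξ ^ 2 ≤ (1 + |ξ|) ^ 2 := by
      rw [← sq_abs]
      exact pow_le_pow_left₀ (abs_nonneg _) (by linarith [abs_nonneg ξ]) 2
    have hI := hK1 ξ τ hτ
    have hI2 : ∫ s in (0 : ℝ)..T, Real.exp (-(ξ ^ 2 * |τ - s| / 4)) * ‖ode_g T w ξ s‖ ≤ K * E :=
      hI.trans (mul_le_mul_of_nonneg_left hE2 hK)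
    have hN : ‖(((1 - chi ξ) / 2 : ℝ) : ℂ) * ode_A1 T (lam ξ) (ode_g T w ξ) τ -
        (chi ξ : ℂ) * ode_B1 sh ch (mu ξ) (ode_g T w ξ) τ‖ ≤ (1 + M) * (K * E) := by
      refine (norm_sub_le _ _).trans ?_
      have e1 := (ode_high (hg ξ) hτ).trans hI2
      have e2 := (hM1 w ξ τ (hg ξ) hτ).trans (mul_le_mul_of_nonneg_left hI2 hM)
      linarith
    have h0 := ode_w0_norm p ε ξ hτ.1
    rw [ode_w0, ← hE] at h0
    unfold ode_w1
    refine (norm_add_le _ _).trans ?_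
    rw [norm_neg, norm_mul (lam ξ : ℂ), norm_mul ((ξ : ℂ) ^ 2), Complex.norm_real (lam ξ), norm_pow,
      Complex.norm_real ξ, Real.norm_of_nonneg (ode_lam_nonneg ξ), Real.norm_eq_abs, sq_abs]
    have e3 : lam ξ * ‖ode_c p ε ξ * (Real.exp (-(lam ξ * τ)) : ℂ)‖ ≤
        (1 + |ξ|) ^ 2 * (2 * |ε| * 2 ^ (p + 1) * E) :=
      mul_le_mul ((ode_lam_le ξ).trans hsq) h0 (norm_nonneg _) (by positivity)
    have e4 := mul_le_mul hsq hN (norm_nonneg _) (by positivity : (0 : ℝ) ≤ (1 + |ξ|) ^ 2)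
    calc _ ≤ (1 + |ξ|) ^ 2 * (2 * |ε| * 2 ^ (p + 1) * E) + (1 + |ξ|) ^ 2 * ((1 + M) * (K * E)) :=
          add_le_add e3 e4
      _ = _ := by ring
  · have hd := (((ode_exp_deriv' (lam ξ) τ).const_mul (ode_c p ε ξ)).add
      (ode_NN_deriv h (hg ξ) τ))
    have hev : (fun τ => w ξ τ) =ᶠ[𝓝 τ] fun τ : ℝ => ode_c p ε ξ * (Real.exp (-(lam ξ * τ)) : ℂ) +
        ode_NN sh ch T w ξ τ := by
      filter_upwards [isOpen_Ioo.mem_nhds hτ] with t ht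
      rw [hw ξ t ⟨ht.1.le, ht.2.le⟩, ode_Nl h (hg ξ) ⟨ht.1.le, ht.2.le⟩, ode_w0]
    refine (HasDerivAt.congr_deriv (f := fun τ : ℝ => ode_c p ε ξ *
      (Real.exp (-(lam ξ * τ)) : ℂ) + ode_NN sh ch T w ξ τ) hd ?_).congr_of_eventuallyEq hev
    unfold ode_w1
    ring
  · have hd := ode_w1_deriv (p := p) (ε := ε) h (hg ξ) τ
    refine HasDerivAt.congr_deriv (f := fun τ => ode_w1 sh ch T p ε w ξ τ) hd ?_
    rw [hw ξ τ ⟨hτ.1.le, hτ.2.le⟩, ode_Nl h (hg ξ) ⟨hτ.1.le, hτ.2.le⟩,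
      ode_g_eq w ξ ⟨hτ.1.le, hτ.2.le⟩]

end Pool.Agent.Q82.BB
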