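import Pool.Agent.Q82.BB.Stm

set_option autoImplicit false

open MeasureTheory Filter Topology Set

namespace Pool.Agent.Q82.BB

/-! ### the time integrals for a fixed frequency -/

/-- `∫_0^τ f g` -/
noncomputable def ode_I (f : ℝ → ℝ) (g : ℝ → ℂ) (τ : ℝ) : ℂ := ∫ s in (0 : ℝ)..τ, (f s : ℂ) * g s

/-- `∫_τ^T f g` -/
noncomputable def ode_J (T : ℝ) (f : ℝ → ℝ) (g : ℝ → ℂ) (τ : ℝ) : ℂ := ∫ s in τ..T, (f s : ℂ) * g s

lemma ode_I_deriv {f : ℝ → ℝ} {g : ℝ → ℂ} (hf : Continuous f) (hg : Continuous g) (τ : ℝ) :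
    HasDerivAt (ode_I f g) ((f τ : ℂ) * g τ) τ := by
  have hc : Continuous fun s => (f s : ℂ) * g s := (Complex.continuous_ofReal.comp hf).mul hg
  exact intervalIntegral.integral_hasDerivAt_right (hc.intervalIntegrable _ _)
    (hc.stronglyMeasurableAtFilter _ _) hc.continuousAt

lemma ode_J_deriv (T : ℝ) {f : ℝ → ℝ} {g : ℝ → ℂ} (hf : Continuous f) (hg : Continuous g) (τ : ℝ) :
    HasDerivAt (ode_J T f g) (-((f τ : ℂ) * g τ)) τ := by
  have hc : Continuous fun s => (f s : ℂ) * g s := (Complex.continuous_ofReal.comp hf).mul hg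
  exact intervalIntegral.integral_hasDerivAt_left (hc.intervalIntegrable _ _)
    (hc.stronglyMeasurableAtFilter _ _) hc.continuousAt

noncomputable def ode_A (T l : ℝ) (g : ℝ → ℂ) (τ : ℝ) : ℂ :=
  (Real.exp (-(l * τ)) : ℂ) * ode_I (fun s => Real.exp (l * s)) g τ +
    (Real.exp (l * τ) : ℂ) * ode_J T (fun s => Real.exp (-(l * s))) g τ

noncomputable def ode_A1 (T l : ℝ) (g : ℝ → ℂ) (τ : ℝ) : ℂ :=
  -((Real.exp (-(l * τ)) : ℂ) * ode_I (fun s => Real.exp (l * s)) g τ) +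
    (Real.exp (l * τ) : ℂ) * ode_J T (fun s => Real.exp (-(l * s))) g τ

lemma ode_exp_deriv (l τ : ℝ) :
    HasDerivAt (fun τ : ℝ => (Real.exp (l * τ) : ℂ)) ((l : ℂ) * (Real.exp (l * τ) : ℂ)) τ := by
  have h : HasDerivAt (fun τ : ℝ => Real.exp (l * τ)) (Real.exp (l * τ) * (l * 1)) τ :=
    ((hasDerivAt_id τ).const_mul l).exp
  have h2 := h.ofReal_comp
  convert h2 using 1
  push_cast
  ring

lemma ode_exp_deriv' (l τ : ℝ) :
    HasDerivAt (fun τ : ℝ => (Real.exp (-(l * τ)) : ℂ)) (-(l : ℂ) * (Real.exp (-(l * τ)) : ℂ)) τ := by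
  have h := ode_exp_deriv (-l) τ
  have he : (fun τ : ℝ => (Real.exp (-(l * τ)) : ℂ)) = fun τ : ℝ => (Real.exp (-l * τ) : ℂ) := by
    funext t
    rw [neg_mul]
  rw [he, show -(l * τ) = -l * τ by ring]
  convert h using 1
  push_cast
  ring

lemma ode_expmul (l τ : ℝ) : (Real.exp (-(l * τ)) : ℂ) * (Real.exp (l * τ) : ℂ) = 1 := by
  rw [← Complex.ofReal_mul, ← Real.exp_add]
  simp

lemma ode_A_deriv (T l : ℝ) {g : ℝ → ℂ} (hg : Continuous g) (τ : ℝ) :
    HasDerivAt (ode_A T l g) ((l : ℂ) * ode_A1 T l g τ) τ := by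
  have h1 := ode_I_deriv (f := fun s => Real.exp (l * s)) (by fun_prop) hg τ
  have h2 := ode_J_deriv T (f := fun s => Real.exp (-(l * s))) (by fun_prop) hg τ
  have h : HasDerivAt (ode_A T l g) _ τ :=
    ((ode_exp_deriv' l τ).mul h1).add ((ode_exp_deriv l τ).mul h2)
  refine h.congr_deriv ?_
  have h3 := ode_expmul l τ
  unfold ode_A1
  ring

lemma ode_A1_deriv (T l : ℝ) {g : ℝ → ℂ} (hg : Continuous g) (τ : ℝ) :
    HasDerivAt (ode_A1 T l g) ((l : ℂ) * ode_A T l g τ - 2 * g τ) τ := by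
  have h1 := ode_I_deriv (f := fun s => Real.exp (l * s)) (by fun_prop) hg τ
  have h2 := ode_J_deriv T (f := fun s => Real.exp (-(l * s))) (by fun_prop) hg τ
  have h : HasDerivAt (ode_A1 T l g) _ τ :=
    (((ode_exp_deriv' l τ).mul h1).neg).add ((ode_exp_deriv l τ).mul h2)
  refine h.congr_deriv ?_
  have h3 := ode_expmul l τ
  unfold ode_A
  linear_combination (-2 * g τ) * h3

noncomputable def ode_B (sh ch : ℝ → ℝ → ℝ) (m : ℝ) (g : ℝ → ℂ) (τ : ℝ) : ℂ :=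
  (sh m τ : ℂ) * ode_I (ch m) g τ - (ch m τ : ℂ) * ode_I (sh m) g τ

noncomputable def ode_B1 (sh ch : ℝ → ℝ → ℝ) (m : ℝ) (g : ℝ → ℂ) (τ : ℝ) : ℂ :=
  (ch m τ : ℂ) * ode_I (ch m) g τ - (m : ℂ) * (sh m τ : ℂ) * ode_I (sh m) g τ

lemma ode_sh_cont {sh ch : ℝ → ℝ → ℝ} (h : IsSh sh ch) :
    Continuous (fun q : ℝ × ℝ => sh q.1 q.2) := (h.1 0).continuous

lemma ode_ch_cont {sh ch : ℝ → ℝ → ℝ} (h : IsSh sh ch) :
    Continuous (fun q : ℝ × ℝ => ch q.1 q.2) := (h.2.1 0).continuous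

lemma ode_sh_cont1 {sh ch : ℝ → ℝ → ℝ} (h : IsSh sh ch) (m : ℝ) : Continuous (sh m) :=
  (ode_sh_cont h).comp (by fun_prop : Continuous fun r : ℝ => (m, r))

lemma ode_ch_cont1 {sh ch : ℝ → ℝ → ℝ} (h : IsSh sh ch) (m : ℝ) : Continuous (ch m) :=
  (ode_ch_cont h).comp (by fun_prop : Continuous fun r : ℝ => (m, r))

lemma ode_one {sh ch : ℝ → ℝ → ℝ} (h : IsSh sh ch) (m τ : ℝ) :
    (ch m τ : ℂ) * ch m τ - (m : ℂ) * sh m τ * sh m τ = 1 := by
  have h1 := h.2.2.2.2.2.2.2 m τ τ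
  rw [sub_self, h.2.2.2.1 m] at h1
  rw [← Complex.ofReal_one, h1]
  push_cast
  ring

lemma ode_B_deriv {sh ch : ℝ → ℝ → ℝ} (h : IsSh sh ch) (m : ℝ) {g : ℝ → ℂ} (hg : Continuous g)
    (τ : ℝ) : HasDerivAt (ode_B sh ch m g) (ode_B1 sh ch m g τ) τ := by
  have h1 := ode_I_deriv (ode_ch_cont1 h m) hg τ
  have h2 := ode_I_deriv (ode_sh_cont1 h m) hg τ
  have hs := (h.2.2.2.2.1 m τ).ofReal_comp
  have hc := (h.2.2.2.2.2.1 m τ).ofReal_comp
  have hh : HasDerivAt (ode_B sh ch m g) _ τ := (hs.mul h1).sub (hc.mul h2)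
  refine hh.congr_deriv ?_
  unfold ode_B1
  push_cast
  ring

lemma ode_B1_deriv {sh ch : ℝ → ℝ → ℝ} (h : IsSh sh ch) (m : ℝ) {g : ℝ → ℂ} (hg : Continuous g)
    (τ : ℝ) : HasDerivAt (ode_B1 sh ch m g) ((m : ℂ) * ode_B sh ch m g τ + g τ) τ := by
  have h1 := ode_I_deriv (ode_ch_cont1 h m) hg τ
  have h2 := ode_I_deriv (ode_sh_cont1 h m) hg τ
  have hs := (h.2.2.2.2.1 m τ).ofReal_comp
  have hc := (h.2.2.2.2.2.1 m τ).ofReal_comp
  have hh : HasDerivAt (ode_B1 sh ch m g) _ τ := (hc.mul h1).sub ((hs.const_mul (m : ℂ)).mul h2)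
  refine hh.congr_deriv ?_
  have h3 := ode_one h m τ
  unfold ode_B
  push_cast
  linear_combination (g τ) * h3

lemma ode_part1 {l τ : ℝ} (g : ℝ → ℂ) (hτ : 0 ≤ τ) :
    (Real.exp (-(l * τ)) : ℂ) * ode_I (fun s => Real.exp (l * s)) g τ =
      ∫ s in (0 : ℝ)..τ, (Real.exp (-(l * |τ - s|)) : ℂ) * g s := by
  unfold ode_I
  rw [← intervalIntegral.integral_const_mul]
  refine intervalIntegral.integral_congr fun s hs => ?_
  rw [uIcc_of_le hτ] at hs
  simp only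
  rw [abs_of_nonneg (by linarith [hs.2] : 0 ≤ τ - s), ← mul_assoc, ← Complex.ofReal_mul,
    ← Real.exp_add]
  congr 3
  ring

lemma ode_part2 {T l τ : ℝ} (g : ℝ → ℂ) (hτ : τ ≤ T) :
    (Real.exp (l * τ) : ℂ) * ode_J T (fun s => Real.exp (-(l * s))) g τ =
      ∫ s in τ..T, (Real.exp (-(l * |τ - s|)) : ℂ) * g s := by
  unfold ode_J
  rw [← intervalIntegral.integral_const_mul]
  refine intervalIntegral.integral_congr fun s hs => ?_
  rw [uIcc_of_le hτ] at hs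
  simp only
  rw [abs_of_nonpos (by linarith [hs.1] : τ - s ≤ 0), ← mul_assoc, ← Complex.ofReal_mul,
    ← Real.exp_add]
  congr 3
  ring

/-- the integral over `[0,T]` with the kernel `exp (-l |τ - s|)` -/
lemma ode_A_eq {T l τ : ℝ} {g : ℝ → ℂ} (hg : Continuous g) (hτ : τ ∈ Icc 0 T) :
    ∫ s in (0 : ℝ)..T, (Real.exp (-(l * |τ - s|)) : ℂ) * g s = ode_A T l g τ := by
  have hc : Continuous fun s : ℝ => (Real.exp (-(l * |τ - s|)) : ℂ) * g s := by fun_prop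
  rw [← intervalIntegral.integral_add_adjacent_intervals (hc.intervalIntegrable 0 τ)
    (hc.intervalIntegrable τ T), ← ode_part1 g hτ.1, ← ode_part2 g hτ.2]
  rfl

lemma ode_A1_norm {T l τ : ℝ} {g : ℝ → ℂ} (hg : Continuous g) (hτ : τ ∈ Icc 0 T) :
    ‖ode_A1 T l g τ‖ ≤ ∫ s in (0 : ℝ)..T, Real.exp (-(l * |τ - s|)) * ‖g s‖ := by
  have hc : Continuous fun s : ℝ => Real.exp (-(l * |τ - s|)) * ‖g s‖ := by fun_prop
  rw [← intervalIntegral.integral_add_adjacent_intervals (hc.intervalIntegrable 0 τ)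
    (hc.intervalIntegrable τ T)]
  unfold ode_A1
  rw [ode_part1 g hτ.1, ode_part2 g hτ.2]
  have hn : ∀ s : ℝ, ‖(Real.exp (-(l * |τ - s|)) : ℂ) * g s‖ = Real.exp (-(l * |τ - s|)) * ‖g s‖ :=
    fun s => by rw [norm_mul, Complex.norm_real, Real.norm_of_nonneg (Real.exp_pos _).le]
  refine (norm_add_le _ _).trans (add_le_add ?_ ?_)
  · rw [norm_neg]
    refine (intervalIntegral.norm_integral_le_integral_norm hτ.1).trans (le_of_eq ?_)
    exact intervalIntegral.integral_congr fun s _ => hn s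
  · refine (intervalIntegral.norm_integral_le_integral_norm hτ.2).trans (le_of_eq ?_)
    exact intervalIntegral.integral_congr fun s _ => hn s

lemma ode_B_eq {sh ch : ℝ → ℝ → ℝ} (h : IsSh sh ch) {T m τ : ℝ} {g : ℝ → ℂ} (hg : Continuous g)
    (hτ : τ ∈ Icc 0 T) :
    ∫ s in (0 : ℝ)..T, (sh m (max (τ - s) 0) : ℂ) * g s = ode_B sh ch m g τ := by
  have hcs := ode_sh_cont1 h m
  have hcc := ode_ch_cont1 h m
  have hc : Continuous fun s : ℝ => (sh m (max (τ - s) 0) : ℂ) * g s := by fun_prop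
  rw [← intervalIntegral.integral_add_adjacent_intervals (hc.intervalIntegrable 0 τ)
    (hc.intervalIntegrable τ T)]
  have h2 : ∫ s in τ..T, (sh m (max (τ - s) 0) : ℂ) * g s = 0 := by
    rw [← intervalIntegral.integral_zero (a := τ) (b := T) (μ := volume) (E := ℂ)]
    refine intervalIntegral.integral_congr fun s hs => ?_
    rw [uIcc_of_le hτ.2] at hs
    rw [max_eq_right (by linarith [hs.1] : τ - s ≤ 0), h.2.2.1 m]
    simp
  rw [h2, add_zero]
  unfold ode_B ode_I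
  rw [← intervalIntegral.integral_const_mul, ← intervalIntegral.integral_const_mul,
    ← intervalIntegral.integral_sub
      ((by fun_prop : Continuous fun s : ℝ => (sh m τ : ℂ) * ((ch m s : ℂ) * g s)).intervalIntegrable _ _)
      ((by fun_prop : Continuous fun s : ℝ => (ch m τ : ℂ) * ((sh m s : ℂ) * g s)).intervalIntegrable _ _)]
  refine intervalIntegral.integral_congr fun s hs => ?_
  rw [uIcc_of_le hτ.1] at hs
  rw [max_eq_left (by linarith [hs.2] : 0 ≤ τ - s), h.2.2.2.2.2.2.1 m τ s]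
  push_cast
  ring

lemma ode_B1_eq {sh ch : ℝ → ℝ → ℝ} (h : IsSh sh ch) {m τ : ℝ} {g : ℝ → ℂ} (hg : Continuous g) :
    ode_B1 sh ch m g τ = ∫ s in (0 : ℝ)..τ, (ch m (τ - s) : ℂ) * g s := by
  have hcs := ode_sh_cont1 h m
  have hcc := ode_ch_cont1 h m
  unfold ode_B1 ode_I
  rw [← intervalIntegral.integral_const_mul, ← intervalIntegral.integral_const_mul,
    ← intervalIntegral.integral_sub
      ((by fun_prop : Continuous fun s : ℝ => (ch m τ : ℂ) * ((ch m s : ℂ) * g s)).intervalIntegrable _ _)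
      ((by fun_prop : Continuous fun s : ℝ =>
        (m : ℂ) * (sh m τ : ℂ) * ((sh m s : ℂ) * g s)).intervalIntegrable _ _)]
  refine intervalIntegral.integral_congr fun s _ => ?_
  rw [h.2.2.2.2.2.2.2 m τ s]
  push_cast
  ring

end Pool.Agent.Q82.BB
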