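import Pool.Agent.Q252.BB_ODEa

set_option autoImplicit false

open MeasureTheory Filter Topology Set

namespace Pool.Agent.Q82.BB

lemma ode_chi_cont : Continuous chi := bump.continuous

lemma ode_chi_nonneg (ξ : ℝ) : 0 ≤ chi ξ := bump.nonneg

lemma ode_chi_le (ξ : ℝ) : chi ξ ≤ 1 := bump.le_one

lemma ode_chi_one {ξ : ℝ} (h : |ξ| ≤ 2) : chi ξ = 1 := by
  refine bump.one_of_mem_closedBall ?_
  rw [mem_closedBall_zero_iff, Real.norm_eq_abs]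
  exact h

lemma ode_chi_zero {ξ : ℝ} (h : 3 ≤ |ξ|) : chi ξ = 0 := by
  refine bump.zero_of_le_dist ?_
  rw [dist_zero_right, Real.norm_eq_abs]
  exact h

lemma ode_sq4 {ξ : ℝ} (h : 2 ≤ |ξ|) : 4 ≤ ξ ^ 2 := by
  rw [← sq_abs]
  nlinarith

lemma ode_lam_sq {ξ : ℝ} (h : 2 ≤ |ξ|) : lam ξ ^ 2 = mu ξ := by
  refine Real.sq_sqrt ?_
  have := ode_sq4 h
  unfold mu
  nlinarith

lemma ode_lam_ge {ξ : ℝ} (h : 2 ≤ |ξ|) : ξ ^ 2 / 4 ≤ lam ξ := by
  refine Real.le_sqrt_of_sq_le ?_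
  have := ode_sq4 h
  unfold mu
  nlinarith

lemma ode_lam_le (ξ : ℝ) : lam ξ ≤ ξ ^ 2 := by
  refine Real.sqrt_le_iff.2 ⟨by positivity, ?_⟩
  unfold mu
  nlinarith [sq_nonneg ξ]

lemma ode_lam_nonneg (ξ : ℝ) : 0 ≤ lam ξ := Real.sqrt_nonneg _

lemma ode_mu_cont : Continuous mu := by
  unfold mu
  fun_prop

lemma ode_lam_cont : Continuous lam := ode_mu_cont.sqrt

/-- the coefficient of the linear part -/
noncomputable def ode_c (p : ℕ) (ε ξ : ℝ) : ℂ :=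
  ((2 * ε * (1 - chi ξ) * Real.cos ξ / |ξ| : ℝ) : ℂ) * ((Complex.I * ξ) ^ p)⁻¹

lemma ode_w0 (p : ℕ) (ε ξ τ : ℝ) :
    w0 p ε ξ τ = ode_c p ε ξ * (Real.exp (-(lam ξ * τ)) : ℂ) := by
  unfold w0 ode_c
  push_cast
  ring

lemma ode_c_zero {p : ℕ} {ε ξ : ℝ} (h : |ξ| ≤ 2) : ode_c p ε ξ = 0 := by
  unfold ode_c
  rw [ode_chi_one h]
  simp

lemma ode_c_cont (p : ℕ) (ε : ℝ) : Continuous (ode_c p ε) := by
  rw [continuous_iff_continuousAt]
  intro ξ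
  rcases lt_or_ge |ξ| 2 with h | h
  · have hev : ode_c p ε =ᶠ[𝓝 ξ] fun _ => 0 := by
      filter_upwards [(isOpen_lt continuous_abs continuous_const).mem_nhds h] with x hx
      exact ode_c_zero (le_of_lt hx)
    exact (continuousAt_const).congr hev.symm
  · have h0 : ξ ≠ 0 := by
      rintro rfl
      rw [abs_zero] at h
      linarith
    unfold ode_c
    refine ContinuousAt.mul ?_ (ContinuousAt.inv₀ ?_ ?_)
    · refine Complex.continuous_ofReal.continuousAt.comp (ContinuousAt.div ?_ ?_ ?_)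
      · have := ode_chi_cont
        fun_prop
      · exact continuous_abs.continuousAt
      · exact abs_ne_zero.2 h0
    · fun_prop
    · exact pow_ne_zero _ (mul_ne_zero Complex.I_ne_zero (Complex.ofReal_ne_zero.2 h0))

lemma ode_c_norm (p : ℕ) (ε ξ : ℝ) :
    ‖ode_c p ε ξ‖ ≤ 2 * |ε| * 2 ^ (p + 1) / (1 + |ξ|) ^ (p + 1) := by
  rcases le_or_gt |ξ| 2 with h | h
  · rw [ode_c_zero h, norm_zero]
    positivity
  · have h0 : 0 < |ξ| := by linarith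
    unfold ode_c
    rw [norm_mul, Complex.norm_real, norm_inv, norm_pow, norm_mul, Complex.norm_I, one_mul,
      Complex.norm_real, Real.norm_eq_abs, Real.norm_eq_abs, abs_div, abs_abs, abs_mul, abs_mul,
      abs_mul, abs_two, abs_of_nonneg (sub_nonneg.2 (ode_chi_le ξ))]
    have h1 : 2 * |ε| * (1 - chi ξ) * |Real.cos ξ| ≤ 2 * |ε| := by
      have h2 : (1 - chi ξ) * |Real.cos ξ| ≤ 1 :=
        mul_le_one₀ (by linarith [ode_chi_nonneg ξ]) (abs_nonneg _) (Real.abs_cos_le_one ξ)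
      have h3 : 0 ≤ 2 * |ε| := by positivity
      nlinarith
    have h4 : 2 * |ε| * (1 - chi ξ) * |Real.cos ξ| / |ξ| * (|ξ| ^ p)⁻¹ =
        2 * |ε| * (1 - chi ξ) * |Real.cos ξ| / |ξ| ^ (p + 1) := by
      rw [pow_succ]
      field_simp
    rw [h4]
    have h5 : (1 + |ξ|) ^ (p + 1) ≤ 2 ^ (p + 1) * |ξ| ^ (p + 1) := by
      rw [← mul_pow]
      exact pow_le_pow_left₀ (by positivity) (by linarith) _
    rw [div_le_div_iff₀ (by positivity) (by positivity)]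
    calc 2 * |ε| * (1 - chi ξ) * |Real.cos ξ| * (1 + |ξ|) ^ (p + 1) ≤
          2 * |ε| * (1 + |ξ|) ^ (p + 1) := mul_le_mul_of_nonneg_right h1 (by positivity)
      _ ≤ 2 * |ε| * (2 ^ (p + 1) * |ξ| ^ (p + 1)) := mul_le_mul_of_nonneg_left h5 (by positivity)
      _ = _ := by ring

lemma ode_w0_norm (p : ℕ) (ε ξ : ℝ) {τ : ℝ} (hτ : 0 ≤ τ) :
    ‖w0 p ε ξ τ‖ ≤ 2 * |ε| * 2 ^ (p + 1) * (ex ξ τ / (1 + |ξ|) ^ (p + 1)) := by
  rw [ode_w0, norm_mul, Complex.norm_real, Real.norm_of_nonneg (Real.exp_pos _).le]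
  rcases le_or_gt |ξ| 2 with h | h
  · rw [ode_c_zero h, norm_zero, zero_mul]
    unfold ex
    positivity
  · have h1 : Real.exp (-(lam ξ * τ)) ≤ ex ξ τ := by
      unfold ex
      refine Real.exp_le_exp.2 ?_
      have h2 := ode_lam_ge h.le
      have h3 : |ξ| / 16 ≤ ξ ^ 2 / 4 := by
        rw [← sq_abs]
        nlinarith
      have h4 := mul_le_mul_of_nonneg_right (h3.trans h2) hτ
      linarith
    calc ‖ode_c p ε ξ‖ * Real.exp (-(lam ξ * τ)) ≤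
          (2 * |ε| * 2 ^ (p + 1) / (1 + |ξ|) ^ (p + 1)) * ex ξ τ :=
          mul_le_mul (ode_c_norm p ε ξ) h1 (Real.exp_pos _).le (by positivity)
      _ = _ := by ring

/-- the self-convolution, extended to all times -/
noncomputable def ode_g (T : ℝ) (w : ℝ → ℝ → ℂ) (ξ s : ℝ) : ℂ := cv w w ξ (max 0 (min s T))

lemma ode_g_eq {T : ℝ} (w : ℝ → ℝ → ℂ) (ξ : ℝ) {s : ℝ} (hs : s ∈ Icc 0 T) :
    ode_g T w ξ s = cv w w ξ s := by
  unfold ode_g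
  rw [min_eq_left hs.2, max_eq_right hs.1]

lemma ode_g_cont (h2 : S_CVD) {T : ℝ} {p : ℕ} {w : ℝ → ℝ → ℂ} {Cs : ℕ → ℝ} (hT : 0 < T)
    (hA : Adm T p w Cs) : Continuous (fun q : ℝ × ℝ => ode_g T w q.1 q.2) := by
  have h := (h2 T p w Cs hT hA).2.2 0
  simp only [iteratedDeriv_zero] at h
  rw [← continuousOn_univ]
  refine h.comp (f := fun q : ℝ × ℝ => (q.1, max 0 (min q.2 T)))
    (by fun_prop : Continuous fun q : ℝ × ℝ => (q.1, max 0 (min q.2 T))).continuousOn ?_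
  intro q _
  exact ⟨mem_univ _, le_max_left _ _, max_le hT.le (min_le_right _ _)⟩

lemma ode_g_norm (h1 : S_CVB) {T : ℝ} {p : ℕ} {w : ℝ → ℝ → ℂ} {Cs : ℕ → ℝ}
    (hA : Adm T p w Cs) : ∃ K : ℝ, 0 ≤ K ∧ ∀ ξ : ℝ, ∀ s ∈ Icc 0 T,
      ‖ode_g T w ξ s‖ ≤ K * (ex ξ s / (1 + |ξ|) ^ p) := by
  obtain ⟨K, hK, h⟩ := h1 p
  refine ⟨K * Cs 0 * Cs 0, mul_nonneg (mul_nonneg hK.le (hA.2.2.1 0)) (hA.2.2.1 0),
    fun ξ s hs => ?_⟩
  rw [ode_g_eq w ξ hs]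
  have hc : Continuous fun η => w η s := (hA.1 s hs 0).continuous
  have hb : ∀ η, ‖w η s‖ ≤ Cs 0 * (ex η s / (1 + |η|) ^ (p + 1)) := fun η => by
    have := hA.2.2.2 0 η s hs
    rwa [iteratedDeriv_zero] at this
  exact (h (fun η => w η s) (fun η => w η s) (Cs 0) (Cs 0) s hs.1 (hA.2.2.1 0) (hA.2.2.1 0)
    hc hc hb hb ξ).2

end Pool.Agent.Q82.BB
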