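import Mathlib

/-!
# Periods of additive cellular automata: general lemmas

`In F p u m y`: some power of `u` times `y` is in the ideal generated by `F` and `p ^ m`.
-/

set_option autoImplicit false

namespace Pool.Agent.Q252.CA

open Polynomial

variable {A : Type*} [CommRing A]

/-- membership in the ideal `(F, c)` -/
def J (F c : A) (y : A) : Prop := ∃ s t : A, y = F * s + c * t

/-- some power of `u` times `y` is in the ideal `(F, c)` -/
def In (F c u y : A) : Prop := ∃ l : ℕ, J F c (u ^ l * y)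

variable {F c c' u y z : A}

lemma J.add (h : J F c y) (h' : J F c z) : J F c (y + z) := by
  obtain ⟨s, t, rfl⟩ := h
  obtain ⟨s', t', rfl⟩ := h'
  exact ⟨s + s', t + t', by ring⟩

lemma J.mul_left (a : A) (h : J F c y) : J F c (a * y) := by
  obtain ⟨s, t, rfl⟩ := h
  exact ⟨a * s, a * t, by ring⟩

lemma J.sub (h : J F c y) (h' : J F c z) : J F c (y - z) := by
  have := h.add (h'.mul_left (-1))
  rwa [neg_one_mul, ← sub_eq_add_neg] at this

lemma J.mul (h : J F c y) (h' : J F c' z) : J F (c * c') (y * z) := by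
  obtain ⟨s, t, rfl⟩ := h
  obtain ⟨s', t', rfl⟩ := h'
  exact ⟨s * (F * s' + c' * t') + c * t * s', t * t', by ring⟩

lemma J.of_dvd (h : J F c y) (hc : c' ∣ c) : J F c' y := by
  obtain ⟨s, t, rfl⟩ := h
  obtain ⟨d, rfl⟩ := hc
  exact ⟨s, d * t, by ring⟩

lemma In.of_J (h : J F c y) : In F c u y := ⟨0, by simpa using h⟩

lemma In.lift {l l' : ℕ} (h : J F c (u ^ l * y)) (hl : l ≤ l') : J F c (u ^ l' * y) := by
  obtain ⟨d, rfl⟩ := Nat.exists_eq_add_of_le hl
  have := h.mul_left (u ^ d)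
  have e : u ^ (l + d) * y = u ^ d * (u ^ l * y) := by ring
  rwa [e]

lemma In.add (h : In F c u y) (h' : In F c u z) : In F c u (y + z) := by
  obtain ⟨l, h⟩ := h
  obtain ⟨l', h'⟩ := h'
  refine ⟨l + l', ?_⟩
  rw [mul_add]
  exact (In.lift h (by omega)).add (In.lift h' (by omega))

lemma In.mul_left (a : A) (h : In F c u y) : In F c u (a * y) := by
  obtain ⟨l, h⟩ := h
  refine ⟨l, ?_⟩
  have e : u ^ l * (a * y) = a * (u ^ l * y) := by ring
  rw [e]
  exact h.mul_left a

lemma In.mul_right (a : A) (h : In F c u y) : In F c u (y * a) := by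
  rw [mul_comm]; exact h.mul_left a

lemma In.sub (h : In F c u y) (h' : In F c u z) : In F c u (y - z) := by
  have := h.add (h'.mul_left (-1))
  rwa [neg_one_mul, ← sub_eq_add_neg] at this

lemma In.mul (h : In F c u y) (h' : In F c' u z) : In F (c * c') u (y * z) := by
  obtain ⟨l, h⟩ := h
  obtain ⟨l', h'⟩ := h'
  refine ⟨l + l', ?_⟩
  have e : u ^ (l + l') * (y * z) = u ^ l * y * (u ^ l' * z) := by ring
  rw [e]
  exact h.mul h'

lemma In.of_dvd (h : In F c u y) (hc : c' ∣ c) : In F c' u y := by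
  obtain ⟨l, h⟩ := h
  exact ⟨l, h.of_dvd hc⟩

lemma In.cmul (h : In F c u y) : In F (c' * c) u (c' * y) := by
  obtain ⟨l, s, t, h⟩ := h
  refine ⟨l, c' * s, t, ?_⟩
  have e : u ^ l * (c' * y) = c' * (u ^ l * y) := by ring
  rw [e, h]
  ring

/-- multiplying with `u` does not change membership -/
lemma In.of_mul_pow (k : ℕ) (h : In F c u (u ^ k * y)) : In F c u y := by
  obtain ⟨l, h⟩ := h
  refine ⟨l + k, ?_⟩
  have e : u ^ (l + k) * y = u ^ l * (u ^ k * y) := by ring
  rwa [e]

/-! ### the exponents `k` with `u ^ k = 1` -/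

/-- `k` is a multiple of the period -/
def Per (F c u : A) (k : ℕ) : Prop := In F c u (u ^ k - 1)

lemma per_zero : Per F c u 0 := by
  refine ⟨0, 0, 0, ?_⟩
  simp

lemma Per.add {k j : ℕ} (h : Per F c u k) (h' : Per F c u j) : Per F c u (k + j) := by
  unfold Per at *
  have e : u ^ (k + j) - 1 = u ^ j * (u ^ k - 1) + (u ^ j - 1) := by ring
  rw [e]
  exact (h.mul_left _).add h'

lemma Per.sub {k j : ℕ} (h : Per F c u (k + j)) (h' : Per F c u k) : Per F c u j := by
  unfold Per at *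
  refine In.of_mul_pow k ?_
  have e : u ^ k * (u ^ j - 1) = (u ^ (k + j) - 1) - (u ^ k - 1) := by ring
  rw [e]
  exact h.sub h'

lemma Per.mul {k : ℕ} (h : Per F c u k) (t : ℕ) : Per F c u (k * t) := by
  induction t with
  | zero => simpa using per_zero
  | succ t ih => rw [mul_add, mul_one]; exact ih.add h

open Classical in
/-- the period -/
noncomputable def period (F c u : A) : ℕ := sInf {k | 1 ≤ k ∧ Per F c u k}

lemma period_spec (h : ∃ k, 1 ≤ k ∧ Per F c u k) :
    1 ≤ period F c u ∧ Per F c u (period F c u) := Nat.sInf_mem h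

lemma per_iff (h : ∃ k, 1 ≤ k ∧ Per F c u k) (k : ℕ) : Per F c u k ↔ period F c u ∣ k := by
  obtain ⟨h1, h2⟩ := period_spec h
  constructor
  · intro hk
    rw [Nat.dvd_iff_mod_eq_zero]
    by_contra hne
    have h3 : Per F c u (k % period F c u) := by
      have e := Nat.div_add_mod k (period F c u)
      have h4 := h2.mul (k / period F c u)
      refine Per.sub (k := period F c u * (k / period F c u)) ?_ h4
      rwa [e]
    have h5 : period F c u ≤ k % period F c u := Nat.sInf_le ⟨by omega, h3⟩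
    have h6 := Nat.mod_lt k (show period F c u > 0 by omega)
    omega
  · rintro ⟨t, rfl⟩
    exact h2.mul t

/-- the binomial expansion up to the third term -/
lemma exists_expand (y : A) (n : ℕ) :
    ∃ s : A, (1 + y) ^ n = 1 + n * y + (n.choose 2 : ℕ) * y ^ 2 + y ^ 3 * s := by
  induction n with
  | zero => exact ⟨0, by simp⟩
  | succ n ih =>
    obtain ⟨s, hs⟩ := ih
    refine ⟨s + y * s + (n.choose 2 : ℕ), ?_⟩
    rw [pow_succ, hs]
    have h : (n + 1).choose 2 = n + n.choose 2 := by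
      rw [Nat.choose_succ_succ' n 1, Nat.choose_one_right]
    rw [h]
    push_cast
    ring

/-- raising to the `p`-th power: the main congruence -/
lemma grow {p : ℕ} (hp : p.Prime) (hp2 : p ≠ 2) {m : ℕ} (hm : 1 ≤ m)
    (hy : In F ((p : A) ^ m) u y) :
    In F ((p : A) ^ (m + 2)) u ((1 + y) ^ p - 1 - p * y) := by
  obtain ⟨s, hs⟩ := exists_expand y p
  obtain ⟨d, hd⟩ : p ∣ p.choose 2 := hp.dvd_choose_self (by norm_num)
    (by have := hp.two_le; omega)
  have e : (1 + y) ^ p - 1 - p * y = (p : A) * (y * y) * d + (y * (y * y)) * s := by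
    rw [hs, hd]
    push_cast
    ring
  rw [e]
  have h2 : In F ((p : A) ^ m * (p : A) ^ m) u (y * y) := hy.mul hy
  refine In.add (In.mul_right _ ?_) (In.mul_right _ ?_)
  · have h3 : In F ((p : A) * ((p : A) ^ m * (p : A) ^ m)) u ((p : A) * (y * y)) := h2.cmul
    refine h3.of_dvd ?_
    rw [← pow_add, ← pow_succ']
    exact pow_dvd_pow _ (by omega)
  · have h3 : In F ((p : A) ^ m * ((p : A) ^ m * (p : A) ^ m)) u (y * (y * y)) := hy.mul h2
    refine h3.of_dvd ?_
    rw [← pow_add, ← pow_add]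
    exact pow_dvd_pow _ (by omega)

lemma Per.up {p : ℕ} (hp : p.Prime) (hp2 : p ≠ 2) {m : ℕ} (hm : 1 ≤ m) {k : ℕ}
    (h : Per F ((p : A) ^ m) u k) : Per F ((p : A) ^ (m + 1)) u (k * p) := by
  unfold Per at *
  have h1 := grow hp hp2 hm h
  have h2 : In F ((p : A) ^ (m + 1)) u ((p : A) * (u ^ k - 1)) := by
    rw [pow_succ']
    exact h.cmul
  have h3 := (h1.of_dvd (pow_dvd_pow (p : A) (show m + 1 ≤ m + 2 by omega))).add h2
  have e : u ^ (k * p) - 1 = (1 + (u ^ k - 1)) ^ p - 1 - p * (u ^ k - 1) + p * (u ^ k - 1) := by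
    have e1 : (1 + (u ^ k - 1)) = u ^ k := by ring
    rw [e1, pow_mul]
    ring
  rw [e]
  exact h3

/-- If `u ^ k = 1` modulo `p ^ m` but not modulo `p ^ (m + 1)`, then `u ^ (k p)` is not `1` modulo
`p ^ (m + 2)`. -/
lemma not_per_up {p : ℕ} (hp : p.Prime) (hp2 : p ≠ 2) {m : ℕ} (hm : 1 ≤ m) {k : ℕ}
    (hcancel : ∀ z : A, In F ((p : A) ^ (m + 2)) u ((p : A) * z) → In F ((p : A) ^ (m + 1)) u z)
    (h : Per F ((p : A) ^ m) u k) (h' : ¬ Per F ((p : A) ^ (m + 1)) u k) :
    ¬ Per F ((p : A) ^ (m + 2)) u (k * p) := by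
  intro hcon
  apply h'
  unfold Per at *
  apply hcancel
  have h1 := grow hp hp2 hm h
  have e : (p : A) * (u ^ k - 1) = (u ^ (k * p) - 1) - ((1 + (u ^ k - 1)) ^ p - 1 - p * (u ^ k - 1)) := by
    have e1 : (1 + (u ^ k - 1)) = u ^ k := by ring
    rw [e1, pow_mul]
    ring
  rw [e]
  exact hcon.sub h1

end Pool.Agent.Q252.CA
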