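import Pool.Agent.Q252.CA1

/-!
# Periods of additive cellular automata: integer polynomials
-/

set_option autoImplicit false

namespace Pool.Agent.Q252.CA

open Polynomial

/-- `X ^ σ - 1` -/
noncomputable def FF (σ : ℕ) : ℤ[X] := X ^ σ - 1

/-- the rule `a + b X` -/
noncomputable def U (a b : ℤ) : ℤ[X] := C a + C b * X

lemma FF_monic {σ : ℕ} (hσ : σ ≠ 0) : (FF σ).Monic := by
  unfold FF
  have := monic_X_pow_sub_C (1 : ℤ) hσ
  simpa using this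

lemma prime_natCast {p : ℕ} (hp : p.Prime) : Prime (p : ℤ[X]) := by
  have h : Prime (C (p : ℤ) : ℤ[X]) := prime_C_iff.2 (Nat.prime_iff_prime_int.1 hp)
  simpa using h

lemma not_dvd_FF {p σ : ℕ} (hp : p.Prime) (hσ : σ ≠ 0) : ¬ (p : ℤ[X]) ∣ FF σ := by
  intro h
  have h1 : (C (p : ℤ) : ℤ[X]) ∣ FF σ := by simpa using h
  rw [C_dvd_iff_dvd_coeff] at h1
  have h2 := h1 (FF σ).natDegree
  have h3 : (FF σ).coeff (FF σ).natDegree = 1 := (FF_monic hσ).coeff_natDegree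
  rw [h3] at h2
  have h4 : (p : ℤ) ∣ ((1 : ℕ) : ℤ) := by simpa using h2
  have h5 := Int.natCast_dvd_natCast.1 h4
  exact hp.one_lt.ne' (Nat.dvd_one.1 h5)

lemma J_cancel {p σ : ℕ} (hp : p.Prime) (hσ : σ ≠ 0) {m : ℕ} {z : ℤ[X]}
    (h : J (FF σ) ((p : ℤ[X]) ^ (m + 1)) ((p : ℤ[X]) * z)) : J (FF σ) ((p : ℤ[X]) ^ m) z := by
  obtain ⟨s, t, h⟩ := h
  have hp' := prime_natCast hp
  have h1 : (p : ℤ[X]) ∣ FF σ * s := by
    refine ⟨z - (p : ℤ[X]) ^ m * t, ?_⟩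
    rw [mul_sub, h]
    ring
  rcases hp'.dvd_or_dvd h1 with h2 | h2
  · exact absurd h2 (not_dvd_FF hp hσ)
  · obtain ⟨s', rfl⟩ := h2
    refine ⟨s', t, ?_⟩
    have h3 : (p : ℤ[X]) * z = (p : ℤ[X]) * (FF σ * s' + (p : ℤ[X]) ^ m * t) := by
      rw [h]; ring
    exact mul_left_cancel₀ hp'.ne_zero h3

lemma cancel {p σ : ℕ} (hp : p.Prime) (hσ : σ ≠ 0) {m : ℕ} {u z : ℤ[X]}
    (h : In (FF σ) ((p : ℤ[X]) ^ (m + 1)) u ((p : ℤ[X]) * z)) :
    In (FF σ) ((p : ℤ[X]) ^ m) u z := by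
  obtain ⟨l, h⟩ := h
  refine ⟨l, J_cancel hp hσ ?_⟩
  have e : (p : ℤ[X]) * (u ^ l * z) = u ^ l * ((p : ℤ[X]) * z) := by ring
  rwa [e]

lemma map_FF (σ n : ℕ) : (FF σ).map (Int.castRingHom (ZMod n)) = X ^ σ - 1 := by
  simp [FF]

lemma J_iff (σ n : ℕ) (y : ℤ[X]) :
    J (FF σ) (n : ℤ[X]) y ↔
      (X ^ σ - 1 : (ZMod n)[X]) ∣ y.map (Int.castRingHom (ZMod n)) := by
  constructor
  · rintro ⟨s, t, rfl⟩
    rw [Polynomial.map_add, Polynomial.map_mul, Polynomial.map_mul, map_FF, Polynomial.map_natCast]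
    have : ((n : ℕ) : (ZMod n)[X]) = 0 := by
      have h : (C ((n : ℕ) : ZMod n) : (ZMod n)[X]) = 0 := by simp
      simpa using h
    rw [this, zero_mul, add_zero]
    exact dvd_mul_right _ _
  · rintro ⟨q, hq⟩
    obtain ⟨s, rfl⟩ := Polynomial.map_surjective (Int.castRingHom (ZMod n))
      (ZMod.ringHom_surjective _) q
    rw [← map_FF, ← Polynomial.map_mul] at hq
    have h1 : (y - FF σ * s).map (Int.castRingHom (ZMod n)) = 0 := by
      rw [Polynomial.map_sub, hq, sub_self]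
    have h2 : (C (n : ℤ) : ℤ[X]) ∣ y - FF σ * s := by
      rw [C_dvd_iff_dvd_coeff]
      intro i
      have h3 := congrArg (fun f => f.coeff i) h1
      simp only [coeff_map, coeff_zero] at h3
      have h4 : (((y - FF σ * s).coeff i : ℤ) : ZMod n) = 0 := h3
      exact (ZMod.intCast_zmod_eq_zero_iff_dvd _ n).1 h4
    obtain ⟨t, ht⟩ := h2
    refine ⟨s, t, ?_⟩
    have h5 : (C (n : ℤ) : ℤ[X]) = (n : ℤ[X]) := by simp
    rw [← h5, ← ht]
    ring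

lemma In_iff (σ n : ℕ) (u y : ℤ[X]) :
    In (FF σ) (n : ℤ[X]) u y ↔ ∃ l : ℕ,
      (X ^ σ - 1 : (ZMod n)[X]) ∣ (u.map (Int.castRingHom (ZMod n))) ^ l *
        y.map (Int.castRingHom (ZMod n)) := by
  unfold In
  simp only [J_iff, Polynomial.map_mul, Polynomial.map_pow]

lemma Per_iff (σ n : ℕ) (u : ℤ[X]) (k : ℕ) :
    Per (FF σ) (n : ℤ[X]) u k ↔ ∃ l : ℕ,
      (X ^ σ - 1 : (ZMod n)[X]) ∣ (u.map (Int.castRingHom (ZMod n))) ^ l *
        ((u.map (Int.castRingHom (ZMod n))) ^ k - 1) := by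
  unfold Per
  rw [In_iff]
  simp

/-- there is a period -/
lemma exists_per {σ n : ℕ} (hσ : σ ≠ 0) (hn : n ≠ 0) (u : ℤ[X]) :
    ∃ k, 1 ≤ k ∧ Per (FF σ) (n : ℤ[X]) u k := by
  haveI : NeZero n := ⟨hn⟩
  set f : (ZMod n)[X] := X ^ σ - 1 with hf
  have hfm : f.Monic := by
    have := monic_X_pow_sub_C (1 : ZMod n) hσ
    simpa [hf] using this
  haveI : Module.Finite (ZMod n) (AdjoinRoot f) := hfm.finite_adjoinRoot
  haveI : Finite (AdjoinRoot f) := Module.finite_of_finite (ZMod n)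
  obtain ⟨i, j, hij, h⟩ := Finite.exists_ne_map_eq_of_infinite
    (fun i : ℕ => (AdjoinRoot.mk f (u.map (Int.castRingHom (ZMod n)))) ^ i)
  wlog hlt : i < j generalizing i j
  · exact this j i hij.symm h.symm (by omega)
  refine ⟨j - i, by omega, ?_⟩
  rw [Per_iff]
  refine ⟨i, ?_⟩
  simp only [← map_pow] at h
  rw [eq_comm, AdjoinRoot.mk_eq_mk] at h
  rw [mul_sub, mul_one, ← pow_add, Nat.add_sub_cancel' hlt.le]
  exact h

end Pool.Agent.Q252.CA
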