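import Pool.Agent.Q252.CA2

/-!
# Periods of additive cellular automata: modulo a prime
-/

set_option autoImplicit false

namespace Pool.Agent.Q252.CA

open Polynomial

/-- period condition in characteristic `p` -/
def P1 (p σ : ℕ) (v : (ZMod p)[X]) (k : ℕ) : Prop :=
  ∃ l : ℕ, (X ^ σ - 1 : (ZMod p)[X]) ∣ v ^ l * (v ^ k - 1)

lemma frob {p : ℕ} [Fact p.Prime] (s e : ℕ) :
    (X ^ (p ^ e * s) - 1 : (ZMod p)[X]) = (X ^ s - 1) ^ (p ^ e) := by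
  rw [sub_pow_char_pow, one_pow, ← pow_mul, mul_comm]

lemma frob' {p : ℕ} [Fact p.Prime] (v : (ZMod p)[X]) (s e : ℕ) :
    (v ^ (p ^ e * s) - 1 : (ZMod p)[X]) = (v ^ s - 1) ^ (p ^ e) := by
  rw [sub_pow_char_pow, one_pow, ← pow_mul, mul_comm]

lemma sqf {p : ℕ} [hp : Fact p.Prime] {s : ℕ} (hs : ¬ p ∣ s) :
    Squarefree (X ^ s - 1 : (ZMod p)[X]) := by
  apply Separable.squarefree
  rw [X_pow_sub_one_separable_iff]
  intro h
  exact hs ((ZMod.natCast_eq_zero_iff s p).1 h)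

lemma sqf_dvd {p : ℕ} [hp : Fact p.Prime] {s : ℕ} (hs : ¬ p ∣ s) {v w : (ZMod p)[X]} {l n : ℕ}
    (h : (X ^ s - 1 : (ZMod p)[X]) ∣ v ^ l * w ^ n) : (X ^ s - 1 : (ZMod p)[X]) ∣ v * w := by
  have h1 : (X ^ s - 1 : (ZMod p)[X]) ∣ (v * w) ^ (l + n + 1) := by
    rw [mul_pow]
    exact h.trans (mul_dvd_mul (pow_dvd_pow _ (by omega)) (pow_dvd_pow _ (by omega)))
  have h2 := (sqf hs).dvd_pow_iff_dvd (y := v * w) (n := l + n + 1) (by omega)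
  exact h2.1 h1

/-- the `p`-part of the period divides `p ^ e` -/
lemma lemmaR {p : ℕ} [hp : Fact p.Prime] {s e f k : ℕ} (hs : ¬ p ∣ s) {v : (ZMod p)[X]}
    (h : P1 p (p ^ e * s) v (p ^ f * k)) : P1 p (p ^ e * s) v (p ^ e * k) := by
  obtain ⟨l, h⟩ := h
  rw [frob' v k f] at h
  have h1 : (X ^ s - 1 : (ZMod p)[X]) ∣ X ^ (p ^ e * s) - 1 := by
    rw [frob s e]
    exact dvd_pow_self _ (pow_ne_zero _ hp.out.ne_zero)
  have h2 : (X ^ s - 1 : (ZMod p)[X]) ∣ v * (v ^ k - 1) := sqf_dvd hs (h1.trans h)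
  refine ⟨p ^ e, ?_⟩
  rw [frob s e, frob' v k e, ← mul_pow]
  exact pow_dvd_pow_of_dvd h2 _

lemma Per_iff_P1 (p σ : ℕ) (u : ℤ[X]) (k : ℕ) :
    Per (FF σ) (p : ℤ[X]) u k ↔ P1 p σ (u.map (Int.castRingHom (ZMod p))) k := Per_iff _ _ _ _

lemma map_U (n : ℕ) (a b : ℤ) :
    (U a b).map (Int.castRingHom (ZMod n)) = C (a : ZMod n) + C (b : ZMod n) * X := by
  simp [U]

end Pool.Agent.Q252.CA
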