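import Pool.Agent.Q252.CA3

/-!
# Periods of additive cellular automata: the rule `g + g X`
-/

set_option autoImplicit false

namespace Pool.Agent.Q252.CA

open Polynomial

lemma neg_one_ne_one {p : ℕ} [hp : Fact p.Prime] (hp2 : p ≠ 2) : (-1 : ZMod p) ≠ 1 :=
  haveI : Fact (2 < p) := ⟨lt_of_le_of_ne hp.out.two_le (Ne.symm hp2)⟩
  ZMod.neg_one_ne_one

lemma two_ne_zero' {p : ℕ} [hp : Fact p.Prime] (hp2 : p ≠ 2) : (2 : ZMod p) ≠ 0 := by
  intro h
  apply neg_one_ne_one (p := p) hp2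
  linear_combination (-1 : ZMod p) * h

lemma gg1 {p σ : ℕ} [hp : Fact p.Prime] {g : ZMod p} (hg : 2 * g ≠ 0)
    {k : ℕ} (h : P1 p σ (C g + C g * X) k) : (2 * g) ^ k = 1 := by
  obtain ⟨l, q, hq⟩ := h
  have h1 := congrArg (eval 1) hq
  simp only [eval_mul, eval_pow, eval_add, eval_C, eval_X, mul_one, eval_sub, eval_one,
    one_pow, sub_self, zero_mul] at h1
  rw [← two_mul] at h1
  rcases mul_eq_zero.1 h1 with h2 | h2
  · exact absurd h2 (pow_ne_zero _ hg)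
  · exact sub_eq_zero.1 h2

lemma gg2 {p σ : ℕ} [hp : Fact p.Prime] (hp2 : p ≠ 2) (hσ : σ ≠ 0) {g : ZMod p} (hg : 2 * g ≠ 0)
    (hord : orderOf (2 * g) = p - 1)
    {k : ℕ} (hk : k ≠ 0) (h : P1 p σ (C g + C g * X) k) : σ ∣ k := by
  have hdvd : p - 1 ∣ k := by
    rw [← hord]
    exact orderOf_dvd_of_pow_eq_one (gg1 hg h)
  have hg0 : g ≠ 0 := by
    rintro rfl
    simp at hg
  have hgk : g ^ k = 1 := by
    obtain ⟨t, rfl⟩ := hdvd
    rw [pow_mul, ZMod.pow_card_sub_one_eq_one hg0, one_pow]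
  have hkeven : 2 ∣ k := by
    refine dvd_trans ?_ hdvd
    have := hp.out.odd_of_ne_two hp2
    obtain ⟨t, ht⟩ := this
    exact ⟨t, by omega⟩
  obtain ⟨l, h⟩ := h
  -- remove the constant
  have e1 : (C g + C g * X : (ZMod p)[X]) = C g * (1 + X) := by ring
  have hC : IsUnit ((C g : (ZMod p)[X]) ^ l) := (isUnit_C.2 hg0.isUnit).pow l
  have h0 : (X ^ σ - 1 : (ZMod p)[X]) ∣ (1 + X) ^ l * ((1 + X) ^ k - 1) := by
    rw [e1, mul_pow, mul_pow, ← C_pow (n := k), hgk, map_one, one_mul, mul_assoc] at h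
    exact (hC.dvd_mul_left).1 h
  -- the reflection
  have h2 : ((X ^ (σ - 1)) ^ σ - 1 : (ZMod p)[X]) ∣
      (1 + X ^ (σ - 1)) ^ l * ((1 + X ^ (σ - 1)) ^ k - 1) := by
    obtain ⟨q, hq⟩ := h0
    refine ⟨q.comp (X ^ (σ - 1)), ?_⟩
    have := congrArg (fun f => f.comp (X ^ (σ - 1) : (ZMod p)[X])) hq
    simpa using this
  have h3 : (X ^ σ - 1 : (ZMod p)[X]) ∣ (X ^ (σ - 1)) ^ σ - 1 := by
    rw [← pow_mul, mul_comm, pow_mul]
    have := sub_dvd_pow_sub_pow (X ^ σ : (ZMod p)[X]) 1 (σ - 1)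
    rwa [one_pow] at this
  have h4 : (X ^ σ - 1 : (ZMod p)[X]) ∣ (X + X ^ σ) ^ l * ((X + X ^ σ) ^ k - X ^ k) := by
    have h5 := (h3.trans h2).mul_left (X ^ (l + k))
    have e : (X : (ZMod p)[X]) ^ (l + k) * ((1 + X ^ (σ - 1)) ^ l * ((1 + X ^ (σ - 1)) ^ k - 1))
        = (X + X ^ σ) ^ l * ((X + X ^ σ) ^ k - X ^ k) := by
      have e2 : (X + X ^ σ : (ZMod p)[X]) = X * (1 + X ^ (σ - 1)) := by
        rw [mul_add, mul_one, mul_comm X (X ^ (σ - 1)), ← pow_succ,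
          Nat.sub_add_cancel (Nat.one_le_iff_ne_zero.2 hσ)]
      rw [e2, mul_pow, mul_pow, pow_add]
      ring
    rwa [e] at h5
  have h5 : (X ^ σ - 1 : (ZMod p)[X]) ∣ (1 + X) ^ l * ((1 + X) ^ k - X ^ k) := by
    have e3 : (X + X ^ σ : (ZMod p)[X]) - (1 + X) = X ^ σ - 1 := by ring
    have d1 : (X ^ σ - 1 : (ZMod p)[X]) ∣ (X + X ^ σ) ^ l - (1 + X) ^ l := by
      rw [← e3]; exact sub_dvd_pow_sub_pow _ _ _
    have d2 : (X ^ σ - 1 : (ZMod p)[X]) ∣ (X + X ^ σ) ^ (l + k) - (1 + X) ^ (l + k) := by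
      rw [← e3]; exact sub_dvd_pow_sub_pow _ _ _
    have e4 : (1 + X) ^ l * ((1 + X) ^ k - X ^ k) =
        (X + X ^ σ : (ZMod p)[X]) ^ l * ((X + X ^ σ) ^ k - X ^ k)
          - (((X + X ^ σ) ^ (l + k) - (1 + X) ^ (l + k))
            - X ^ k * ((X + X ^ σ) ^ l - (1 + X) ^ l)) := by
      ring
    rw [e4]
    exact dvd_sub h4 (dvd_sub d2 (d1.mul_left _))
  have h6 : (X ^ σ - 1 : (ZMod p)[X]) ∣ (1 + X) ^ l * (X ^ k - 1) := by
    have e5 : (1 + X : (ZMod p)[X]) ^ l * (X ^ k - 1) =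
      (1 + X) ^ l * ((1 + X) ^ k - 1) - (1 + X) ^ l * ((1 + X) ^ k - X ^ k) := by ring
    rw [e5]
    exact dvd_sub h0 h5
  by_contra hnd
  -- the gcd
  obtain ⟨hh, hhdef⟩ : ∃ hh, hh = Nat.gcd k σ := ⟨_, rfl⟩
  have hhk : hh ∣ k := hhdef ▸ Nat.gcd_dvd_left _ _
  have hhσ : hh ∣ σ := hhdef ▸ Nat.gcd_dvd_right _ _
  have hlt : hh < σ := by
    refine lt_of_le_of_ne (Nat.le_of_dvd (Nat.pos_of_ne_zero hσ) hhσ) ?_
    rintro rfl
    exact hnd hhk
  have hh0 : hh ≠ 0 := by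
    rintro rfl
    exact hσ (Nat.eq_zero_of_zero_dvd hhσ)
  obtain ⟨s, hs⟩ := Nat.exists_mul_mod_eq_gcd (n := k) (k := σ) (by rw [← hhdef]; exact hlt)
  rw [← hhdef] at hs
  have h7 : (X ^ σ - 1 : (ZMod p)[X]) ∣ (1 + X) ^ l * (X ^ hh - 1) := by
    have d1 : (X ^ σ - 1 : (ZMod p)[X]) ∣ (1 + X) ^ l * (X ^ (k * s) - 1) := by
      refine h6.trans (mul_dvd_mul_left _ ?_)
      rw [pow_mul]
      have := sub_dvd_pow_sub_pow (X ^ k : (ZMod p)[X]) 1 s
      rwa [one_pow] at this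
    have d2 : (X ^ σ - 1 : (ZMod p)[X]) ∣ X ^ (σ * (k * s / σ)) - 1 := by
      rw [pow_mul]
      have := sub_dvd_pow_sub_pow (X ^ σ : (ZMod p)[X]) 1 (k * s / σ)
      rwa [one_pow] at this
    have e6 : k * s = σ * (k * s / σ) + hh := by
      have := Nat.div_add_mod (k * s) σ
      omega
    have e7 : (1 + X : (ZMod p)[X]) ^ l * (X ^ hh - 1) = (1 + X) ^ l * (X ^ (k * s) - 1) -
      (1 + X) ^ l * X ^ hh * (X ^ (σ * (k * s / σ)) - 1) := by
      have : (X : (ZMod p)[X]) ^ (k * s) = X ^ (σ * (k * s / σ)) * X ^ hh := by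
        rw [← pow_add, ← e6]
      rw [this]
      ring
    rw [e7]
    exact dvd_sub d1 (d2.mul_left _)
  obtain ⟨t, ht⟩ := hhσ
  set Q : (ZMod p)[X] := ∑ i ∈ Finset.range t, (X ^ hh) ^ i with hQ
  have hXQ : (X ^ σ - 1 : (ZMod p)[X]) = (X ^ hh - 1) * Q := by
    rw [hQ, mul_geom_sum, ← pow_mul, ← ht]
  have hXh0 : (X ^ hh - 1 : (ZMod p)[X]) ≠ 0 := by
    have := (monic_X_pow_sub_C (1 : ZMod p) hh0).ne_zero
    simpa using this
  have hQdvd : Q ∣ (1 + X) ^ l := by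
    rw [hXQ, mul_comm ((1 + X) ^ l)] at h7
    exact (mul_dvd_mul_iff_left hXh0).1 h7
  have hQ1 : eval 1 Q ≠ 0 := by
    obtain ⟨w, hw⟩ := hQdvd
    intro h8
    have := congrArg (eval 1) hw
    rw [eval_mul, h8, zero_mul] at this
    simp only [eval_pow, eval_add, eval_one, eval_X] at this
    rw [one_add_one_eq_two] at this
    exact pow_ne_zero _ (two_ne_zero' hp2) this
  have hQm1 : eval (-1) Q ≠ 0 := by
    intro h8
    have h9 := congrArg (eval (-1)) hXQ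
    rw [eval_mul, h8, mul_zero] at h9
    simp only [eval_sub, eval_pow, eval_X, eval_one] at h9
    have h10 : (-1 : ZMod p) ^ σ = 1 := sub_eq_zero.1 h9
    have h11 : Even σ := by
      by_contra hodd
      rw [Nat.not_even_iff_odd] at hodd
      rw [hodd.neg_one_pow] at h10
      exact neg_one_ne_one hp2 h10
    have h12 : 2 ∣ hh := by
      rw [hhdef]
      exact Nat.dvd_gcd hkeven h11.two_dvd
    have h13 : (-1 : ZMod p) ^ hh = 1 := (even_iff_two_dvd.2 h12).neg_one_pow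
    apply hQ1
    rw [← h8, hQ]
    simp only [eval_finsetSum, eval_pow, eval_X, h13, one_pow]
  have hcop : IsCoprime (X - C (-1) : (ZMod p)[X]) Q := by
    rw [(irreducible_X_sub_C (-1 : ZMod p)).coprime_iff_not_dvd, dvd_iff_isRoot]
    exact hQm1
  have hcop2 : IsCoprime ((1 + X : (ZMod p)[X]) ^ l) Q := by
    have e : (1 + X : (ZMod p)[X]) = X - C (-1) := by
      rw [map_neg, map_one]; ring
    rw [e]
    exact hcop.pow_left
  have hunit : IsUnit Q := hcop2.isUnit_of_dvd' hQdvd dvd_rfl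
  have hdeg := natDegree_eq_zero_of_isUnit hunit
  have hQ0 : Q ≠ 0 := hunit.ne_zero
  have h14 : (X ^ σ - 1 : (ZMod p)[X]).natDegree = (X ^ hh - 1 : (ZMod p)[X]).natDegree := by
    rw [hXQ, natDegree_mul hXh0 hQ0, hdeg, add_zero]
  have h15 : (X ^ σ - 1 : (ZMod p)[X]).natDegree = σ := by
    have := natDegree_X_pow_sub_C (n := σ) (r := (1 : ZMod p))
    simpa using this
  have h16 : (X ^ hh - 1 : (ZMod p)[X]).natDegree = hh := by
    have := natDegree_X_pow_sub_C (n := hh) (r := (1 : ZMod p))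
    simpa using this
  omega

end Pool.Agent.Q252.CA
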