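import Pool.Agent.Q252.CA4

/-!
# Periods of additive cellular automata: growth of the period when `p` divides `σ`
-/

set_option autoImplicit false

namespace Pool.Agent.Q252.CA

open Polynomial Finset

/-- the middle part of the binomial expansion -/
noncomputable def G (p r : ℕ) (a b : ℤ) : ℤ[X] :=
  ∑ k ∈ Ioo 0 p, (C b * X ^ r) ^ k * (C a) ^ (p - k) * ((p.choose k / p : ℕ) : ℤ[X])

lemma G_term (p r : ℕ) (a b : ℤ) (k : ℕ) :
    (C b * X ^ r) ^ k * (C a) ^ (p - k) * ((p.choose k / p : ℕ) : ℤ[X])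
      = C (b ^ k * a ^ (p - k) * ((p.choose k / p : ℕ) : ℤ)) * X ^ (r * k) := by
  rw [mul_pow, ← pow_mul]
  simp only [map_mul, map_pow, map_natCast]
  ring

lemma binom {p : ℕ} (hp : p.Prime) (r : ℕ) (a b : ℤ) :
    (C a + C b * X ^ r : ℤ[X]) ^ p = expand ℤ (r * p) (U (a ^ p) (b ^ p)) + p * G p r a b := by
  rw [add_comm, add_pow_prime_eq' hp, G, U]
  simp only [map_add, map_mul, expand_C, expand_X, map_pow]
  ring

lemma contract_G {p r : ℕ} (hr : r ≠ 0) (hp : p ≠ 0) (a b : ℤ) :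
    contract (r * p) (G p r a b) = 0 := by
  ext n
  rw [coeff_contract (mul_ne_zero hr hp), coeff_zero, G, finsetSum_coeff]
  apply Finset.sum_eq_zero
  intro k hk
  rw [mem_Ioo] at hk
  rw [G_term, coeff_C_mul_X_pow, if_neg]
  intro h
  have h1 : n * p = k := by
    have h2 : r * (n * p) = r * k := by rw [← h]; ring
    exact Nat.eq_of_mul_eq_mul_left (Nat.pos_of_ne_zero hr) h2
  rcases Nat.eq_zero_or_pos n with h0 | h0
  · subst h0; omega
  · have : p ≤ n * p := Nat.le_mul_of_pos_left p h0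
    omega

lemma contract_XG {p r : ℕ} (hr : r ≠ 0) (hp : p.Prime) (a b : ℤ) :
    contract (r * p) (X ^ (r * p - r) * G p r a b) = C (b * a ^ (p - 1)) * X := by
  ext n
  rw [coeff_contract (mul_ne_zero hr hp.ne_zero), G, mul_sum, finsetSum_coeff]
  have hp2 := hp.two_le
  have key : ∀ k ∈ Ioo 0 p, (X ^ (r * p - r) * ((C b * X ^ r) ^ k * (C a) ^ (p - k) *
      ((p.choose k / p : ℕ) : ℤ[X]))).coeff (n * (r * p)) =
      if n = 1 ∧ k = 1 then b * a ^ (p - 1) else 0 := by
    intro k hk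
    rw [mem_Ioo] at hk
    have e : X ^ (r * p - r) * ((C b * X ^ r) ^ k * (C a) ^ (p - k) *
      ((p.choose k / p : ℕ) : ℤ[X])) = C (b ^ k * a ^ (p - k) * ((p.choose k / p : ℕ) : ℤ)) *
        X ^ (r * p - r + r * k) := by
      rw [G_term, pow_add]; ring
    rw [e, coeff_C_mul_X_pow]
    have hiff : (n * (r * p) = r * p - r + r * k) ↔ (n = 1 ∧ k = 1) := by
      have h3 : r * p - r + r * k = r * (p - 1 + k) := by
        rw [mul_add, Nat.mul_sub, mul_one]
      rw [h3]
      constructor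
      · intro h
        have h4 : r * (n * p) = r * (p - 1 + k) := by rw [← h]; ring
        have h5 := Nat.eq_of_mul_eq_mul_left (Nat.pos_of_ne_zero hr) h4
        have h6 : n < 2 := by
          by_contra hcon
          have : 2 * p ≤ n * p := Nat.mul_le_mul_right p (by omega)
          omega
        have h7 : n ≠ 0 := by
          rintro rfl
          omega
        have h8 : n = 1 := by omega
        subst h8
        omega
      · rintro ⟨rfl, rfl⟩
        rw [one_mul, Nat.sub_add_cancel hp.one_le]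
    by_cases hc : n = 1 ∧ k = 1
    · rw [if_pos (hiff.2 hc), if_pos hc]
      obtain ⟨-, rfl⟩ := hc
      rw [Nat.choose_one_right, Nat.div_self hp.pos]
      simp
    · rw [if_neg (fun h => hc (hiff.1 h)), if_neg hc]
  rw [Finset.sum_congr rfl key]
  rw [coeff_C_mul, coeff_X]
  by_cases hn : n = 1
  · subst hn
    rw [Finset.sum_eq_single 1]
    · simp
    · intro k _ hk
      simp [hk]
    · intro h
      exfalso
      apply h
      rw [mem_Ioo]
      omega
  · rw [if_neg (by tauto), mul_zero]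
    apply Finset.sum_eq_zero
    intro k _
    simp [hn]

/-- divisibility by `n` and reduction -/
lemma natCast_dvd_iff (n : ℕ) (y : ℤ[X]) :
    (n : ℤ[X]) ∣ y ↔ y.map (Int.castRingHom (ZMod n)) = 0 := by
  have h5 : (C (n : ℤ) : ℤ[X]) = (n : ℤ[X]) := by simp
  rw [← h5, C_dvd_iff_dvd_coeff]
  constructor
  · intro h
    ext i
    rw [coeff_map, coeff_zero]
    exact (ZMod.intCast_zmod_eq_zero_iff_dvd _ n).2 (h i)
  · intro h i
    have h3 := congrArg (fun f => f.coeff i) h
    simp only [coeff_map, coeff_zero] at h3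
    exact (ZMod.intCast_zmod_eq_zero_iff_dvd _ n).1 h3

lemma frobU {p : ℕ} [hp : Fact p.Prime] (e : ℕ) (a b : ℤ) :
    (p : ℤ[X]) ∣ U a b ^ p ^ e - (C a + C b * X ^ p ^ e) := by
  rw [natCast_dvd_iff, Polynomial.map_sub, Polynomial.map_pow, map_U, add_pow_char_pow,
    mul_pow, ← C_pow, ← C_pow, ZMod.pow_card_pow, ZMod.pow_card_pow]
  simp

/-- the expansion of `u ^ q` modulo `p ^ 2` -/
lemma expandU {p : ℕ} [hp : Fact p.Prime] (e : ℕ) (a b : ℤ) :
    ∃ T : ℤ[X], U a b ^ (p ^ e * p) =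
      expand ℤ (p ^ e * p) (U (a ^ p) (b ^ p)) + p * G p (p ^ e) a b + p ^ 2 * T := by
  have h := dvd_sub_pow_of_dvd_sub (frobU (p := p) e a b) 1
  rw [pow_one, ← pow_mul, binom hp.out] at h
  obtain ⟨T, hT⟩ := h
  refine ⟨T, ?_⟩
  have : ((p : ℤ[X]) ^ (1 + 1)) = (p : ℤ[X]) ^ 2 := by norm_num
  rw [this] at hT
  rw [← hT]
  ring

/-- powers of `W + p G` modulo `p ^ 2` -/
lemma pow_expand {A : Type*} [CommRing A] (W H T c : A) (N : ℕ) :
    ∃ T' : A, (W + c * H + c ^ 2 * T) ^ (N + 1) =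
      W ^ (N + 1) + (N + 1) * c * W ^ N * H + c ^ 2 * T' := by
  induction N with
  | zero => exact ⟨T, by ring⟩
  | succ N ih =>
    obtain ⟨T', hT'⟩ := ih
    refine ⟨T' * (W + c * H + c ^ 2 * T) + (N + 1) * W ^ N * H * (H + c * T) + W ^ (N + 1) * T, ?_⟩
    rw [pow_succ, hT']
    push_cast
    ring

end Pool.Agent.Q252.CA
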