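import Pool.Agent.Q252.CA5

/-!
# Periods of additive cellular automata: growth of the period when `p` divides `σ`
-/

set_option autoImplicit false

namespace Pool.Agent.Q252.CA

open Polynomial Finset

lemma J_C_unit {p s : ℕ} (hp : p.Prime) {c : ℤ} (hc : ¬ (p : ℤ) ∣ c) {z : ℤ[X]}
    (h : J (FF s) (p : ℤ[X]) (C c * z)) : J (FF s) (p : ℤ[X]) z := by
  have hcop : IsCoprime (p : ℤ) c :=
    (Prime.coprime_iff_not_dvd (Nat.prime_iff_prime_int.1 hp)).2 hc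
  obtain ⟨x, y, hxy⟩ := hcop
  have e : z = C y * (C c * z) + (p : ℤ[X]) * (C x * z) := by
    have h1 : (C x * (p : ℤ[X]) + C y * C c : ℤ[X]) = 1 := by
      have := congrArg (C : ℤ → ℤ[X]) hxy
      simpa using this
    linear_combination (-z) * h1
  rw [e]
  exact (h.mul_left _).add ⟨0, C x * z, by ring⟩

lemma J_X_unit {c : ℤ[X]} {s : ℕ} (hs : s ≠ 0) {z : ℤ[X]}
    (h : J (FF s) c (X * z)) : J (FF s) c z := by
  have e : z = X ^ (s - 1) * (X * z) - FF s * z := by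
    have h1 : (X : ℤ[X]) ^ (s - 1) * X = X ^ s := by
      rw [← pow_succ, Nat.sub_add_cancel (Nat.one_le_iff_ne_zero.2 hs)]
    rw [FF, ← mul_assoc, h1]
    ring
  rw [e]
  exact (h.mul_left _).sub ⟨z, 0, by ring⟩

lemma expand_FF (s q : ℕ) : expand ℤ q (FF s) = FF (q * s) := by
  simp [FF, ← pow_mul, mul_comm]

lemma contract_J {q s : ℕ} (hq : q ≠ 0) (n : ℕ) {z : ℤ[X]} (h : J (FF (q * s)) (n : ℤ[X]) z) :
    J (FF s) (n : ℤ[X]) (contract q z) := by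
  obtain ⟨x, y, rfl⟩ := h
  refine ⟨contract q x, contract q y, ?_⟩
  rw [contract_add hq]
  have e1 : FF (q * s) * x = x * expand ℤ q (FF s) := by rw [expand_FF]; ring
  have e2 : (n : ℤ[X]) * y = y * expand ℤ q (n : ℤ[X]) := by simp [mul_comm]
  rw [e1, e2, contract_mul_expand hq, contract_mul_expand hq]
  ring

set_option maxHeartbeats 1000000 in
/-- the main lemma: if the period does not grow then `u` is nilpotent -/
lemma grow_step {p : ℕ} [hp : Fact p.Prime] {e s k : ℕ} (hs : s ≠ 0)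
    (hk : ¬ p ∣ k) {a b : ℤ} (ha : ¬ (p : ℤ) ∣ a) (hb : ¬ (p : ℤ) ∣ b)
    (h : Per (FF (p ^ e * p * s)) ((p : ℤ[X]) ^ 2) (U a b) (p ^ e * p * k)) :
    ∃ l, J (FF (p ^ e * p * s)) (p : ℤ[X]) (U a b ^ l) := by
  obtain ⟨q, hq⟩ : ∃ q, q = p ^ e * p := ⟨_, rfl⟩
  have hpp := hp.out
  have hr0 : p ^ e ≠ 0 := pow_ne_zero _ hpp.ne_zero
  have hq0 : q ≠ 0 := by rw [hq]; exact mul_ne_zero hr0 hpp.ne_zero
  obtain ⟨T, hT⟩ := expandU (p := p) e a b
  set w : ℤ[X] := U (a ^ p) (b ^ p) with hw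
  set H : ℤ[X] := G p (p ^ e) a b with hH
  rw [← hq] at hT h ⊢
  have hH0 : contract q H = 0 := by rw [hH, hq]; exact contract_G hr0 hpp.ne_zero a b
  have hH1 : contract q (X ^ (q - p ^ e) * H) = C (b * a ^ (p - 1)) * X := by
    rw [hH, hq]; exact contract_XG hr0 hpp a b
  have hX0 : contract q (X ^ (q - p ^ e) : ℤ[X]) = 0 := by
    ext n
    rw [coeff_contract hq0, coeff_X_pow, coeff_zero, if_neg]
    intro h1
    have h2 : p ^ e * (n * p) = p ^ e * (p - 1) := by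
      have : p ^ e * (n * p) = n * q := by rw [hq]; ring
      rw [this, h1, hq, Nat.mul_sub, mul_one]
    have h3 := Nat.eq_of_mul_eq_mul_left (Nat.pos_of_ne_zero hr0) h2
    have hp2 := hpp.two_le
    rcases Nat.eq_zero_or_pos n with h0 | h0
    · subst h0; omega
    · have : p ≤ n * p := Nat.le_mul_of_pos_left p h0
      omega
  obtain ⟨L, hL⟩ := h
  -- the congruence with exponent a multiple of `q`
  have hL1 : J (FF (q * s)) ((p : ℤ[X]) ^ 2)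
      ((U a b ^ q) ^ ((L + k) + 1) - (U a b ^ q) ^ (L + 1)) := by
    have h1 := In.lift (l' := q * (L + 1)) hL
      (le_trans (by omega : L ≤ L + 1) (Nat.le_mul_of_pos_left _ (Nat.pos_of_ne_zero hq0)))
    have e1 : (U a b ^ q) ^ ((L + k) + 1) - (U a b ^ q) ^ (L + 1) =
      U a b ^ (q * (L + 1)) * (U a b ^ (q * k) - 1) := by
      rw [mul_sub, mul_one, ← pow_add, ← pow_mul, ← pow_mul]
      ring_nf
    rwa [e1]
  rw [hT] at hL1
  obtain ⟨T1, hT1⟩ := pow_expand (expand ℤ q w) H T (p : ℤ[X]) (L + k)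
  obtain ⟨T2, hT2⟩ := pow_expand (expand ℤ q w) H T (p : ℤ[X]) L
  rw [hT1, hT2] at hL1
  set W : ℤ[X] := expand ℤ q w with hW
  have hL2 : J (FF (q * s)) (((p ^ 2 : ℕ)) : ℤ[X])
      (expand ℤ q (w ^ (L + k + 1) - w ^ (L + 1)) +
        H * expand ℤ q ((p : ℤ[X]) * ((((L + k : ℕ) : ℤ[X]) + 1) * w ^ (L + k) - (((L : ℕ) : ℤ[X]) + 1) * w ^ L))) := by
    have e2 : (expand ℤ q (w ^ (L + k + 1) - w ^ (L + 1)) +
        H * expand ℤ q ((p : ℤ[X]) * ((((L + k : ℕ) : ℤ[X]) + 1) * w ^ (L + k) - (((L : ℕ) : ℤ[X]) + 1) * w ^ L))) =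
        (W ^ (L + k + 1) + (((L + k : ℕ) : ℤ[X]) + 1) * (p : ℤ[X]) * W ^ (L + k) * H +
          (p : ℤ[X]) ^ 2 * T1 - (W ^ (L + 1) + (((L : ℕ) : ℤ[X]) + 1) * (p : ℤ[X]) * W ^ L * H +
          (p : ℤ[X]) ^ 2 * T2)) + (0 * 0 + (p : ℤ[X]) ^ 2 * (T2 - T1)) := by
      simp only [map_sub, map_mul, map_add, map_pow, map_natCast, map_one, ← hW]
      ring
    rw [e2]
    have h3 : (((p ^ 2 : ℕ)) : ℤ[X]) = (p : ℤ[X]) ^ 2 := by push_cast; rfl
    rw [h3]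
    exact hL1.add ⟨0, T2 - T1, by ring⟩
  -- first contraction
  have hA : J (FF s) ((p ^ 2 : ℕ) : ℤ[X]) (w ^ (L + k + 1) - w ^ (L + 1)) := by
    have h4 := contract_J hq0 (p ^ 2) hL2
    rw [contract_add hq0, contract_expand q hq0, contract_mul_expand hq0, hH0, zero_mul,
      add_zero] at h4
    exact h4
  -- second contraction
  have hB : J (FF s) ((p ^ 2 : ℕ) : ℤ[X]) ((C (b * a ^ (p - 1)) * X) *
      ((p : ℤ[X]) * ((((L + k : ℕ) : ℤ[X]) + 1) * w ^ (L + k) - (((L : ℕ) : ℤ[X]) + 1) * w ^ L))) := by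
    have h4 := contract_J hq0 (p ^ 2) (hL2.mul_left (X ^ (q - p ^ e)))
    rw [mul_add, contract_add hq0, contract_mul_expand hq0, hX0, zero_mul, zero_add,
      ← mul_assoc, contract_mul_expand hq0, hH1] at h4
    exact h4
  have hB1 : J (FF s) (p : ℤ[X])
      ((((L + k : ℕ) : ℤ[X]) + 1) * w ^ (L + k) - (((L : ℕ) : ℤ[X]) + 1) * w ^ L) := by
    have e3 : ((C (b * a ^ (p - 1)) * X) *
      ((p : ℤ[X]) * ((((L + k : ℕ) : ℤ[X]) + 1) * w ^ (L + k) - (((L : ℕ) : ℤ[X]) + 1) * w ^ L))) =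
      (p : ℤ[X]) * (C (b * a ^ (p - 1)) * (X *
        ((((L + k : ℕ) : ℤ[X]) + 1) * w ^ (L + k) - (((L : ℕ) : ℤ[X]) + 1) * w ^ L))) := by ring
    rw [e3] at hB
    have h3 : (((p ^ 2 : ℕ)) : ℤ[X]) = (p : ℤ[X]) ^ (1 + 1) := by push_cast; rfl
    rw [h3] at hB
    have h5 := J_cancel hpp hs hB
    rw [pow_one] at h5
    refine J_X_unit hs (J_C_unit hpp ?_ h5)
    intro h6
    have hpi := Nat.prime_iff_prime_int.1 hpp
    rcases hpi.dvd_or_dvd h6 with h7 | h7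
    · exact hb h7
    · exact ha (hpi.dvd_of_dvd_pow h7)
  have hA1 : J (FF s) (p : ℤ[X]) (w ^ (L + k + 1) - w ^ (L + 1)) := by
    refine hA.of_dvd ⟨(p : ℤ[X]), ?_⟩
    push_cast
    ring
  have hC : J (FF s) (p : ℤ[X]) (C (k : ℤ) * w ^ (L + 1)) := by
    have h8 := (hB1.mul_left w).sub (hA1.mul_left (((L + k : ℕ) : ℤ[X]) + 1))
    have e4 : (C (k : ℤ) * w ^ (L + 1) : ℤ[X]) =
      w * ((((L + k : ℕ) : ℤ[X]) + 1) * w ^ (L + k) - (((L : ℕ) : ℤ[X]) + 1) * w ^ L) -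
        (((L + k : ℕ) : ℤ[X]) + 1) * (w ^ (L + k + 1) - w ^ (L + 1)) := by
      have : (C (k : ℤ) : ℤ[X]) = (k : ℤ[X]) := by simp
      rw [this]
      push_cast
      ring
    rw [e4]
    exact h8
  have hD : J (FF s) (p : ℤ[X]) (w ^ (L + 1)) := by
    refine J_C_unit hpp ?_ hC
    intro h9
    exact hk (Int.natCast_dvd_natCast.1 h9)
  refine ⟨(L + 1) * q, ?_⟩
  rw [J_iff] at hD ⊢
  have hmw : w.map (Int.castRingHom (ZMod p)) = (U a b).map (Int.castRingHom (ZMod p)) := by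
    rw [hw, map_U, map_U]
    push_cast
    rw [ZMod.pow_card, ZMod.pow_card]
  rw [Polynomial.map_pow, hmw] at hD
  have hFq : (X ^ (q * s) - 1 : (ZMod p)[X]) = (X ^ s - 1) ^ q := by
    rw [hq, ← pow_succ]
    exact frob s (e + 1)
  rw [hFq, Polynomial.map_pow, pow_mul]
  exact pow_dvd_pow_of_dvd hD q

end Pool.Agent.Q252.CA
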