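import Pool.Agent.Q252.CA6

/-!
# Periods of additive cellular automata: the base case
-/

set_option autoImplicit false

namespace Pool.Agent.Q252.CA

open Polynomial Finset

/-- the period modulo `p` -/
noncomputable def f1 (p σ : ℕ) (α β : ZMod p) : ℕ := sInf {k | 1 ≤ k ∧ P1 p σ (C α + C β * X) k}

lemma period_eq_f1 (p σ : ℕ) (a b : ℤ) :
    period (FF σ) (p : ℤ[X]) (U a b) = f1 p σ (a : ZMod p) (b : ZMod p) := by
  unfold period f1
  congr 1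
  ext k
  simp only [Set.mem_ofPred_eq, Per_iff_P1, map_U]

lemma f1_spec {p σ : ℕ} [hp : Fact p.Prime] (hσ : σ ≠ 0) (a b : ℤ) :
    1 ≤ f1 p σ a b ∧ P1 p σ (C (a : ZMod p) + C (b : ZMod p) * X) (f1 p σ a b) := by
  have h := period_spec (exists_per hσ hp.out.ne_zero (U a b))
  rw [period_eq_f1, Per_iff_P1, map_U] at h
  exact h

lemma f1_dvd {p σ : ℕ} [hp : Fact p.Prime] (hσ : σ ≠ 0) (a b : ℤ) {k : ℕ}
    (h : P1 p σ (C (a : ZMod p) + C (b : ZMod p) * X) k) : f1 p σ a b ∣ k := by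
  rw [← period_eq_f1]
  rw [← per_iff (exists_per hσ hp.out.ne_zero (U a b)), Per_iff_P1, map_U]
  exact h

lemma int_lift {p : ℕ} (α : ZMod p) : ∃ a : ℤ, (a : ZMod p) = α :=
  ZMod.intCast_surjective α

lemma exists_g {p : ℕ} [hp : Fact p.Prime] (hp2 : p ≠ 2) :
    ∃ g : ZMod p, 2 * g ≠ 0 ∧ g ≠ 0 ∧ orderOf (2 * g) = p - 1 := by
  obtain ⟨γ, hγ⟩ := IsCyclic.exists_generator (α := (ZMod p)ˣ)
  have h1 : orderOf γ = p - 1 := by
    rw [orderOf_eq_card_of_forall_mem_zpowers hγ, Nat.card_eq_fintype_card,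
      ZMod.card_units_eq_totient, Nat.totient_prime hp.out]
  have h2 : (2 : ZMod p) * ((γ : ZMod p) / 2) = γ := by
    have := two_ne_zero' (p := p) hp2
    field_simp
  refine ⟨(γ : ZMod p) / 2, ?_, ?_, ?_⟩
  · rw [h2]; exact γ.ne_zero
  · exact div_ne_zero γ.ne_zero (two_ne_zero' hp2)
  · rw [h2, orderOf_units, h1]

/-- monomials satisfy the period condition at common multiples of `p - 1` and `σ` -/
lemma mono_per {p σ : ℕ} [hp : Fact p.Prime] {k : ℕ} (h1 : p - 1 ∣ k) (h2 : σ ∣ k)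
    {α β : ZMod p} (h : α = 0 ∨ β = 0) : P1 p σ (C α + C β * X) k := by
  have hpow : ∀ x : ZMod p, x ≠ 0 → x ^ k = 1 := by
    intro x hx
    obtain ⟨t, rfl⟩ := h1
    rw [pow_mul, ZMod.pow_card_sub_one_eq_one hx, one_pow]
  by_cases ha : α = 0
  · by_cases hb : β = 0
    · refine ⟨1, ?_⟩
      simp [ha, hb]
    · refine ⟨0, ?_⟩
      rw [pow_zero, one_mul, ha, map_zero, zero_add, mul_pow, ← C_pow, hpow β hb, map_one, one_mul]
      obtain ⟨t, rfl⟩ := h2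
      rw [pow_mul]
      have := sub_dvd_pow_sub_pow (X ^ σ : (ZMod p)[X]) 1 t
      rwa [one_pow] at this
  · have hb : β = 0 := by tauto
    refine ⟨0, ?_⟩
    rw [pow_zero, one_mul, hb, map_zero, zero_mul, add_zero, ← C_pow, hpow α ha]
    simp

/-- a maximal rule with both coefficients prime to `p` -/
lemma exists_max {p σ : ℕ} [hp : Fact p.Prime] (hp2 : p ≠ 2) (hσ : σ ≠ 0) :
    ∃ a b : ℤ, ¬ (p : ℤ) ∣ a ∧ ¬ (p : ℤ) ∣ b ∧ 2 ≤ f1 p σ a b ∧
      ∀ a' b' : ℤ, f1 p σ a' b' ≤ f1 p σ a b := by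
  classical
  obtain ⟨g, hg2, hg0, hord⟩ := exists_g (p := p) hp2
  obtain ⟨gi, hgi⟩ := int_lift g
  set S : Finset (ZMod p × ZMod p) := Finset.univ.filter (fun x => x.1 ≠ 0 ∧ x.2 ≠ 0) with hS
  have hne : S.Nonempty := ⟨(g, g), by simp [hS, hg0]⟩
  obtain ⟨⟨α, β⟩, hmem, hmax⟩ := S.exists_max_image (fun x => f1 p σ x.1 x.2) hne
  obtain ⟨a, ha⟩ := int_lift α
  obtain ⟨b, hb⟩ := int_lift β
  simp only [hS, Finset.mem_filter, Finset.mem_univ, true_and, and_imp, Prod.forall] at hmem hmax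
  have hgg := f1_spec (p := p) hσ gi gi
  rw [hgi] at hgg
  have hk0 : f1 p σ g g ≠ 0 := by omega
  have hd1 : p - 1 ∣ f1 p σ g g := by
    rw [← hord]
    exact orderOf_dvd_of_pow_eq_one (gg1 hg2 hgg.2)
  have hd2 : σ ∣ f1 p σ g g := gg2 hp2 hσ hg2 hord hk0 hgg.2
  have hle : p - 1 ≤ f1 p σ g g := Nat.le_of_dvd (by omega) hd1
  have hp3 : 3 ≤ p := by
    have := hp.out.two_le
    omega
  have hgmax := hmax g g hg0 hg0
  refine ⟨a, b, ?_, ?_, ?_, ?_⟩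
  · intro h
    exact hmem.1 (by rw [← ha]; exact (ZMod.intCast_zmod_eq_zero_iff_dvd _ p).2 h)
  · intro h
    exact hmem.2 (by rw [← hb]; exact (ZMod.intCast_zmod_eq_zero_iff_dvd _ p).2 h)
  · rw [ha, hb]
    omega
  · intro a' b'
    rw [ha, hb]
    by_cases h : (a' : ZMod p) = 0 ∨ (b' : ZMod p) = 0
    · refine le_trans ?_ hgmax
      exact Nat.le_of_dvd (by omega) (f1_dvd hσ a' b' (mono_per hd1 hd2 h))
    · push Not at h
      exact hmax _ _ h.1 h.2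

lemma not_nilp {p σ : ℕ} [hp : Fact p.Prime] (hσ : σ ≠ 0) {a b : ℤ} (h2 : 2 ≤ f1 p σ a b) {l : ℕ} :
    ¬ J (FF σ) (p : ℤ[X]) (U a b ^ l) := by
  intro h
  have h3 : P1 p σ (C (a : ZMod p) + C (b : ZMod p) * X) 1 := by
    rw [← map_U, ← Per_iff_P1]
    refine ⟨l, ?_⟩
    have := h.mul_left (U a b ^ 1 - 1)
    rwa [mul_comm] at this
  have h4 := Nat.le_of_dvd one_pos (f1_dvd hσ a b h3)
  omega

lemma In_scale {p σ : ℕ} {u y : ℤ[X]}
    (h : In (FF σ) ((p : ℤ[X]) ^ 2) ((1 + p) * u) y) : In (FF σ) ((p : ℤ[X]) ^ 2) u y := by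
  obtain ⟨l, h⟩ := h
  refine ⟨l, ?_⟩
  have h1 := sub_dvd_pow_sub_pow ((1 - (p : ℤ[X])) * (1 + p)) 1 l
  rw [one_pow] at h1
  have h2 : (p : ℤ[X]) ^ 2 ∣ ((1 - (p : ℤ[X])) * (1 + p)) ^ l - 1 :=
    dvd_trans ⟨-1, by ring⟩ h1
  obtain ⟨t, ht⟩ := h2
  have h3 := h.mul_left ((1 - (p : ℤ[X])) ^ l)
  have e : u ^ l * y = (1 - (p : ℤ[X])) ^ l * (((1 + p) * u) ^ l * y) - (0 + (p : ℤ[X]) ^ 2 * (t * (u ^ l * y))) := by
    rw [← mul_assoc ((p : ℤ[X]) ^ 2), ← ht, mul_pow, mul_pow]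
    ring
  rw [e]
  exact h3.sub ⟨0, t * (u ^ l * y), by ring⟩

lemma base {p σ : ℕ} [hp : Fact p.Prime] (hp2 : p ≠ 2) (hσ : σ ≠ 0) :
    ∃ a b : ℤ, (∀ a' b' : ℤ, period (FF σ) (p : ℤ[X]) (U a' b') ≤ period (FF σ) (p : ℤ[X]) (U a b)) ∧
      ¬ Per (FF σ) ((p : ℤ[X]) ^ 2) (U a b) (period (FF σ) (p : ℤ[X]) (U a b)) := by
  simp only [period_eq_f1]
  have hpp := hp.out
  obtain ⟨a, b, ha, hb, h2, hmax⟩ := exists_max (p := p) hp2 hσ
  obtain ⟨d, hd⟩ : ∃ d, d = f1 p σ a b := ⟨_, rfl⟩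
  have hspec := f1_spec (p := p) hσ a b
  obtain ⟨j, k, hk, hdk⟩ := Nat.exists_eq_pow_mul_and_not_dvd (n := f1 p σ a b) (by omega) p
    hpp.ne_one
  obtain ⟨e, s, hs, hes⟩ := Nat.exists_eq_pow_mul_and_not_dvd hσ p hpp.ne_one
  have hs0 : s ≠ 0 := by
    rintro rfl
    exact hs (dvd_zero p)
  have hR : P1 p σ (C (a : ZMod p) + C (b : ZMod p) * X) (p ^ e * k) := by
    have h3 := hspec.2
    rw [hdk] at h3
    subst hes
    exact lemmaR hs h3
  have hR2 := f1_dvd hσ a b hR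
  rcases Nat.eq_zero_or_pos e with he | he
  · -- `p` does not divide `σ`
    subst he
    rw [pow_zero, one_mul] at hR2
    have hpd : ¬ p ∣ f1 p σ a b := fun h => hk (h.trans hR2)
    by_cases hP : Per (FF σ) ((p : ℤ[X]) ^ 2) (U a b) (f1 p σ a b)
    · have hca : (((1 + p) * a : ℤ) : ZMod p) = a := by push_cast; simp
      have hcb : (((1 + p) * b : ℤ) : ZMod p) = b := by push_cast; simp
      refine ⟨(1 + p) * a, (1 + p) * b, ?_, ?_⟩
      · rw [hca, hcb]; exact hmax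
      · rw [hca, hcb]
        intro hP2
        have hU : U ((1 + p) * a) ((1 + p) * b) = (1 + p) * U a b := by
          simp only [U, map_mul, map_add, map_one, map_natCast]
          ring
        unfold Per at hP hP2
        rw [hU] at hP2
        have h3 := In_scale hP2
        have h4 := h3.sub (hP.mul_left ((1 + (p : ℤ[X])) ^ (f1 p σ a b)))
        have e1 : ((1 + (p : ℤ[X])) * U a b) ^ (f1 p σ a b) - 1 -
          (1 + (p : ℤ[X])) ^ (f1 p σ a b) * (U a b ^ (f1 p σ a b) - 1) =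
          (1 + (p : ℤ[X])) ^ (f1 p σ a b) - 1 := by
          rw [mul_pow]; ring
        rw [e1] at h4
        obtain ⟨t, ht⟩ := exists_expand (p : ℤ[X]) (f1 p σ a b)
        have h5 : In (FF σ) ((p : ℤ[X]) ^ (1 + 1)) (U a b) ((p : ℤ[X]) * (f1 p σ a b : ℤ[X])) := by
          have e2 : (p : ℤ[X]) * (f1 p σ a b : ℤ[X]) = ((1 + (p : ℤ[X])) ^ (f1 p σ a b) - 1) -
            (0 + (p : ℤ[X]) ^ 2 * (((f1 p σ a b).choose 2 : ℕ) + (p : ℤ[X]) * t)) := by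
            rw [ht]; ring
          rw [e2]
          have h6 : (p : ℤ[X]) ^ (1 + 1) = (p : ℤ[X]) ^ 2 := by norm_num
          rw [h6]
          exact h4.sub (In.of_J ⟨0, (((f1 p σ a b).choose 2 : ℕ) + (p : ℤ[X]) * t), by ring⟩)
        have h7 := cancel hpp hσ h5
        rw [pow_one] at h7
        obtain ⟨l, h8⟩ := h7
        have h9 : J (FF σ) (p : ℤ[X]) (C ((f1 p σ a b : ℕ) : ℤ) * U a b ^ l) := by
          have e3 : (C ((f1 p σ a b : ℕ) : ℤ) * U a b ^ l : ℤ[X]) =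
            U a b ^ l * (f1 p σ a b : ℤ[X]) := by
            rw [mul_comm]; simp
          rw [e3]; exact h8
        exact not_nilp hσ h2 (J_C_unit hpp (fun h => hpd (Int.natCast_dvd_natCast.1 h)) h9)
    · exact ⟨a, b, hmax, hP⟩
  · obtain ⟨e', rfl⟩ := Nat.exists_eq_succ_of_ne_zero (by omega : e ≠ 0)
    refine ⟨a, b, hmax, ?_⟩
    intro hP
    obtain ⟨t, ht⟩ := hR2
    have h3 := hP.mul t
    rw [← ht] at h3
    have h4 : σ = p ^ e' * p * s := by rw [hes, Nat.succ_eq_add_one, pow_succ]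
    have h5 : p ^ e'.succ * k = p ^ e' * p * k := by rw [Nat.succ_eq_add_one, pow_succ]
    rw [h5] at h3
    rw [h4] at h3
    obtain ⟨l, hl⟩ := grow_step (p := p) hs0 hk ha hb h3
    rw [← h4] at hl
    exact not_nilp hσ h2 hl

end Pool.Agent.Q252.CA
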