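import Pool.Agent.Q252.CA7

/-!
# Periods of additive cellular automata: the periods modulo all powers of an odd prime
-/

set_option autoImplicit false

namespace Pool.Agent.Q252.CA

open Polynomial Finset

lemma exists_per_pow {p σ : ℕ} [hp : Fact p.Prime] (hσ : σ ≠ 0) (m : ℕ) (u : ℤ[X]) :
    ∃ k, 1 ≤ k ∧ Per (FF σ) ((p : ℤ[X]) ^ m) u k := by
  have h := exists_per hσ (pow_ne_zero m hp.out.ne_zero) u
  rwa [Nat.cast_pow] at h

lemma periods {p σ : ℕ} [hp : Fact p.Prime] (hp2 : p ≠ 2) (hσ : σ ≠ 0) :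
    ∃ a b : ℤ, ∃ d : ℕ, 1 ≤ d ∧ ∀ m : ℕ,
      period (FF σ) ((p : ℤ[X]) ^ (m + 1)) (U a b) = d * p ^ m ∧
      ∀ a' b' : ℤ, period (FF σ) ((p : ℤ[X]) ^ (m + 1)) (U a' b') ≤ d * p ^ m := by
  have hpp := hp.out
  obtain ⟨a, b, hmax, hng⟩ := base (p := p) hp2 hσ
  obtain ⟨d, hd⟩ : ∃ d, d = period (FF σ) (p : ℤ[X]) (U a b) := ⟨_, rfl⟩
  rw [← hd] at hng hmax
  have hex1 : ∀ u : ℤ[X], ∃ k, 1 ≤ k ∧ Per (FF σ) (p : ℤ[X]) u k := fun u =>
    exists_per hσ hpp.ne_zero u
  have hd1 : 1 ≤ d := by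
    rw [hd]; exact (period_spec (hex1 (U a b))).1
  -- upper bound for all rules
  have hup : ∀ (a' b' : ℤ) (m : ℕ), Per (FF σ) ((p : ℤ[X]) ^ (m + 1)) (U a' b')
      (period (FF σ) (p : ℤ[X]) (U a' b') * p ^ m) := by
    intro a' b' m
    induction m with
    | zero =>
      rw [zero_add, pow_one, pow_zero, mul_one]
      exact (period_spec (hex1 (U a' b'))).2
    | succ m ih =>
      have := Per.up hpp hp2 (by omega) ih
      rwa [mul_assoc, ← pow_succ] at this
  have hlow : ∀ m : ℕ, ¬ Per (FF σ) ((p : ℤ[X]) ^ (m + 2)) (U a b) (d * p ^ m) := by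
    intro m
    induction m with
    | zero => simpa using hng
    | succ m ih =>
      have h1 := hup a b m
      rw [← hd] at h1
      have := not_per_up hpp hp2 (m := m + 1) (by omega) (fun z hz => cancel hpp hσ hz) h1 ih
      rwa [mul_assoc, ← pow_succ] at this
  refine ⟨a, b, d, hd1, fun m => ⟨?_, ?_⟩⟩
  · have h1 := hup a b m
    rw [← hd, per_iff (exists_per_pow hσ (m + 1) (U a b))] at h1
    have h2 : d ∣ period (FF σ) ((p : ℤ[X]) ^ (m + 1)) (U a b) := by
      rw [hd, ← per_iff (hex1 (U a b))]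
      have h3 := (period_spec (exists_per_pow (p := p) hσ (m + 1) (U a b))).2
      exact In.of_dvd h3 (dvd_pow_self _ (by omega))
    obtain ⟨t, ht⟩ := h2
    rw [ht] at h1 ⊢
    have h4 : t ∣ p ^ m := Nat.dvd_of_mul_dvd_mul_left (by omega) h1
    obtain ⟨i, hi, rfl⟩ := (Nat.dvd_prime_pow hpp).1 h4
    rcases Nat.lt_or_ge i m with h5 | h5
    · exfalso
      obtain ⟨m', rfl⟩ := Nat.exists_eq_succ_of_ne_zero (by omega : m ≠ 0)
      apply hlow m'
      rw [per_iff (exists_per_pow hσ (m' + 2) (U a b))]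
      have h6 : m'.succ + 1 = m' + 2 := rfl
      rw [h6] at ht
      rw [ht]
      exact Nat.mul_dvd_mul_left d (pow_dvd_pow p (by omega))
    · have : i = m := by omega
      rw [this]
  · intro a' b'
    have h1 := hup a' b' m
    rw [per_iff (exists_per_pow hσ (m + 1) (U a' b'))] at h1
    have hpos : 1 ≤ period (FF σ) (p : ℤ[X]) (U a' b') := (period_spec (hex1 (U a' b'))).1
    have h2 := Nat.le_of_dvd (Nat.mul_pos hpos (pow_pos hpp.pos m)) h1
    exact h2.trans (Nat.mul_le_mul_right _ (hmax a' b'))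

end Pool.Agent.Q252.CA
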