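import Mathlib

/-!
# Generating functions of sums of distinct terms of an injective family
-/

set_option autoImplicit false

namespace Q252.DF

open Finset Filter Topology

variable {ι : Type*} (s : ι → ℕ)

/-- the number of finite subfamilies with sum `n` -/
noncomputable def cnt (n : ℕ) : ℕ := Nat.card {T : Finset ι // ∑ i ∈ T, s i = n}

variable {s}

theorem summable_norm (hs : Function.Injective s) {x : ℂ} (hx : ‖x‖ < 1) :
    Summable (fun i => ‖x ^ s i‖) := by
  have h := (summable_geometric_of_lt_one (norm_nonneg x) hx).comp_injective hs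
  refine h.congr fun i => ?_
  rw [Function.comp, norm_pow]

theorem hasSum_fin (hs : Function.Injective s) {x : ℂ} (hx : ‖x‖ < 1) :
    HasSum (fun n => (cnt s n : ℂ) * x ^ n) (∑' T : Finset ι, ∏ i ∈ T, x ^ s i) := by
  have h1 := (summable_finsetProd_of_summable_norm (summable_norm hs hx)).hasSum
  set σ : Finset ι → ℕ := fun T => ∑ i ∈ T, s i with hσ
  have h2 := (Equiv.sigmaFiberEquiv σ).hasSum_iff.2 h1
  apply HasSum.sigma h2
  intro n
  have e : (fun c : {T : Finset ι // σ T = n} =>
      ((fun T : Finset ι => ∏ i ∈ T, x ^ s i) ∘ (Equiv.sigmaFiberEquiv σ)) ⟨n, c⟩) =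
      fun _ => x ^ n := by
    funext c
    obtain ⟨T, hT⟩ := c
    simp only [Function.comp, Equiv.sigmaFiberEquiv_apply]
    rw [prod_pow_eq_pow_sum]
    congr 1
  have h4 : Summable (fun c : {T : Finset ι // σ T = n} =>
      ((fun T : Finset ι => ∏ i ∈ T, x ^ s i) ∘ (Equiv.sigmaFiberEquiv σ)) ⟨n, c⟩) :=
    h2.summable.sigma_factor n
  have h5 := h4.hasSum
  rw [e] at h5 ⊢
  rw [tsum_const, nsmul_eq_mul] at h5
  exact h5

end Q252.DF
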