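import Pool.Agent.Q252.DF1

/-!
# Estimates for the product over `p^a q^b` at a `p`-th root of unity
-/

set_option autoImplicit false

namespace Q252.DF

open Finset Filter Topology

/-- `‖1 + η u‖ ≥ √u ‖1 + η‖` for `‖η‖ = 1` -/
theorem norm_one_add_ge {η : ℂ} (hη : ‖η‖ = 1) {v : ℝ} :
    Real.exp (-v) * ‖1 + η‖ ≤ ‖1 + η * (Real.exp (-(2 * v)) : ℝ)‖ := by
  set u : ℝ := Real.exp (-v) with hu
  have hu0 : 0 < u := Real.exp_pos _
  have huu : Real.exp (-(2 * v)) = u ^ 2 := by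
    rw [hu, ← Real.exp_nat_mul]; congr 1; push_cast; ring
  rw [huu]
  have h1 : ‖1 + η‖ ^ 2 = 2 + 2 * η.re := by
    rw [← Complex.normSq_eq_norm_sq, Complex.normSq_add, Complex.normSq_one,
      Complex.normSq_eq_norm_sq, hη]
    simp
    ring
  have h2 : ‖1 + η * ((u ^ 2 : ℝ) : ℂ)‖ ^ 2 = 1 + 2 * u ^ 2 * η.re + u ^ 4 := by
    rw [← Complex.normSq_eq_norm_sq, Complex.normSq_add, Complex.normSq_one,
      Complex.normSq_eq_norm_sq, norm_mul, hη, Complex.norm_real, one_mul,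
      Real.norm_of_nonneg (by positivity)]
    rw [map_mul, Complex.conj_ofReal, one_mul, Complex.re_mul_ofReal, Complex.conj_re]
    ring
  have h3 : (u * ‖1 + η‖) ^ 2 ≤ ‖1 + η * ((u ^ 2 : ℝ) : ℂ)‖ ^ 2 := by
    rw [mul_pow, h1, h2]
    nlinarith [sq_nonneg (1 - u ^ 2)]
  exact (sq_le_sq₀ (by positivity) (norm_nonneg _)).1 h3

/-- a primitive root with a large orbit product -/
theorem exists_root {p q : ℕ} (hp : 2 < p) (hc : Nat.Coprime q p) (r : ℕ) :
    ∃ μ : ℂ, IsPrimitiveRoot μ p ∧ 1 ≤ ∏ b ∈ range r, ‖1 + μ ^ (q ^ b)‖ := by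
  have hp0 : 0 < p := by omega
  have hprim := Complex.isPrimitiveRoot_exp p hp0.ne'
  set R := primitiveRoots p ℂ with hR
  have hRne : R.Nonempty := ⟨_, (mem_primitiveRoots hp0).2 hprim⟩
  -- the norm of `1 + ζ`
  have h1 : 1 ≤ ∏ μ ∈ R, ‖1 + μ‖ := by
    have h2 : (Polynomial.cyclotomic p ℂ).eval (-1) = ∏ μ ∈ R, (-1 - μ) := by
      rw [Polynomial.cyclotomic_eq_prod_X_sub_primitiveRoots hprim, Polynomial.eval_prod]
      simp [hR]
    have h3 : (Polynomial.cyclotomic p ℂ).eval (-1) =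
        (((Polynomial.cyclotomic p ℤ).eval (-1) : ℤ) : ℂ) := by
      rw [← Polynomial.map_cyclotomic_int p ℂ]
      have := Polynomial.eval_intCast_map (Int.castRingHom ℂ) (Polynomial.cyclotomic p ℤ) (-1)
      simpa using this
    have h4 : (Polynomial.cyclotomic p ℤ).eval (-1) ≠ 0 := by
      intro h0
      rw [h0, Int.cast_zero] at h3
      have : NeZero (p : ℂ) := ⟨by exact_mod_cast hp0.ne'⟩
      have h5 := Polynomial.isRoot_cyclotomic_iff.1 (show (Polynomial.cyclotomic p ℂ).IsRoot (-1) from h3)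
      have h6 := h5.dvd_of_pow_eq_one 2 (by norm_num)
      have := Nat.le_of_dvd (by norm_num) h6
      omega
    have h5 : ∏ μ ∈ R, ‖1 + μ‖ = ‖(((Polynomial.cyclotomic p ℤ).eval (-1) : ℤ) : ℂ)‖ := by
      rw [← h3, h2, norm_prod]
      apply prod_congr rfl
      intro μ _
      rw [← norm_neg]
      congr 1
      ring
    rw [h5, Complex.norm_intCast]
    have := Int.one_le_abs h4
    exact_mod_cast this
  -- powers permute the primitive roots
  have hperm : ∀ b : ℕ, ∏ μ ∈ R, ‖1 + μ ^ (q ^ b)‖ = ∏ μ ∈ R, ‖1 + μ‖ := by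
    intro b
    have hcb : Nat.Coprime (q ^ b) p := Nat.Coprime.pow_left b hc
    have hmaps : ∀ μ ∈ R, μ ^ (q ^ b) ∈ R := by
      intro μ hμ
      rw [hR, mem_primitiveRoots hp0] at hμ ⊢
      exact hμ.pow_of_coprime _ hcb
    have hinj : ∀ μ ∈ R, ∀ ν ∈ R, μ ^ (q ^ b) = ν ^ (q ^ b) → μ = ν := by
      intro μ hμ ν hν h
      rw [hR, mem_primitiveRoots hp0] at hμ hν
      -- invert the exponent modulo `p`
      obtain ⟨m, _, hm⟩ := Nat.exists_mul_mod_eq_one_of_coprime hcb (by omega)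
      have e : ∀ z : ℂ, z ^ p = 1 → (z ^ (q ^ b)) ^ m = z := by
        intro z hz
        rw [← pow_mul, pow_eq_pow_mod _ hz, hm, pow_one]
      rw [← e μ hμ.pow_eq_one, ← e ν hν.pow_eq_one, h]
    have himg : R.image (fun μ => μ ^ (q ^ b)) = R := by
      apply Finset.eq_of_subset_of_card_le
      · intro z hz
        rw [mem_image] at hz
        obtain ⟨μ, hμ, rfl⟩ := hz
        exact hmaps μ hμ
      · rw [card_image_of_injOn hinj]
    calc ∏ μ ∈ R, ‖1 + μ ^ (q ^ b)‖ = ∏ ν ∈ R.image (fun μ => μ ^ (q ^ b)), ‖1 + ν‖ := by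
          rw [prod_image hinj]
      _ = ∏ μ ∈ R, ‖1 + μ‖ := by rw [himg]
  have htot : 1 ≤ ∏ μ ∈ R, ∏ b ∈ range r, ‖1 + μ ^ (q ^ b)‖ := by
    rw [Finset.prod_comm]
    have : ∀ b ∈ range r, ∏ μ ∈ R, ‖1 + μ ^ (q ^ b)‖ = ∏ μ ∈ R, ‖1 + μ‖ := fun b _ => hperm b
    rw [prod_congr rfl this, prod_const]
    exact one_le_pow₀ h1
  by_contra hcon
  push Not at hcon
  have hlt : ∀ μ ∈ R, ∏ b ∈ range r, ‖1 + μ ^ (q ^ b)‖ < 1 := fun μ hμ =>
    hcon μ ((mem_primitiveRoots hp0).1 (hR ▸ hμ))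
  have hnn : ∀ μ ∈ R, 0 ≤ ∏ b ∈ range r, ‖1 + μ ^ (q ^ b)‖ := fun μ _ =>
    prod_nonneg fun _ _ => norm_nonneg _
  obtain ⟨μ₀, hμ₀⟩ := hRne
  have : ∏ μ ∈ R, ∏ b ∈ range r, ‖1 + μ ^ (q ^ b)‖ < 1 := by
    rw [← mul_prod_erase R _ hμ₀]
    have h6 : ∏ μ ∈ R.erase μ₀, ∏ b ∈ range r, ‖1 + μ ^ (q ^ b)‖ ≤ 1 :=
      prod_le_one (fun μ hμ => hnn μ (mem_of_mem_erase hμ))
        (fun μ hμ => (hlt μ (mem_of_mem_erase hμ)).le)
    calc _ ≤ (∏ b ∈ range r, ‖1 + μ₀ ^ (q ^ b)‖) * 1 :=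
          mul_le_mul_of_nonneg_left h6 (hnn μ₀ hμ₀)
      _ < 1 := by rw [mul_one]; exact hlt μ₀ hμ₀
  linarith

theorem prod_one_sub_ge (x : ℕ → ℝ) (h0 : ∀ i, 0 ≤ x i) (h1 : ∀ i, x i ≤ 1) (m : ℕ) :
    1 - ∑ i ∈ range m, x i ≤ ∏ i ∈ range m, (1 - x i) := by
  induction m with
  | zero => simp
  | succ m ih =>
    rw [sum_range_succ, prod_range_succ]
    have hp : 0 ≤ ∏ i ∈ range m, (1 - x i) := prod_nonneg fun i _ => by linarith [h1 i]
    have hp1 : ∏ i ∈ range m, (1 - x i) ≤ 1 :=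
      prod_le_one (fun i _ => by linarith [h1 i]) (fun i _ => by linarith [h0 i])
    nlinarith [h0 m, h1 m]

theorem exp_pow_le {q : ℕ} (hq : 3 ≤ q) (i : ℕ) :
    Real.exp (-((q : ℝ) ^ i)) ≤ Real.exp (-1) * (Real.exp (-2)) ^ i := by
  rw [← Real.exp_nat_mul, ← Real.exp_add]
  apply Real.exp_le_exp.2
  have h : ∀ i : ℕ, (1 + 2 * i : ℝ) ≤ (q : ℝ) ^ i := by
    intro i
    induction i with
    | zero => simp
    | succ i ih =>
      have hq' : (3 : ℝ) ≤ q := by exact_mod_cast hq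
      rw [pow_succ]
      push_cast
      have : (0 : ℝ) ≤ i := Nat.cast_nonneg i
      nlinarith
  have := h i
  linarith

theorem exp_neg_two_lt : Real.exp (-2) < 0.14 := by
  have h : Real.exp (-2) = (Real.exp (-1)) ^ 2 := by
    rw [← Real.exp_nat_mul]; norm_num
  rw [h]
  have h1 := Real.exp_neg_one_lt_d9
  have h0 : 0 < Real.exp (-1) := Real.exp_pos _
  nlinarith

theorem sum_exp_le {q : ℕ} (hq : 3 ≤ q) (m : ℕ) :
    ∑ i ∈ range m, Real.exp (-((q : ℝ) ^ i)) ≤ 1 / 2 := by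
  have hr0 : 0 < Real.exp (-2) := Real.exp_pos _
  have hr1 := exp_neg_two_lt
  calc ∑ i ∈ range m, Real.exp (-((q : ℝ) ^ i))
      ≤ ∑ i ∈ range m, Real.exp (-1) * (Real.exp (-2)) ^ i := sum_le_sum fun i _ => exp_pow_le hq i
    _ = Real.exp (-1) * ∑ i ∈ range m, (Real.exp (-2)) ^ i := by rw [mul_sum]
    _ ≤ Real.exp (-1) * (1 - Real.exp (-2))⁻¹ := by
        apply mul_le_mul_of_nonneg_left _ (Real.exp_pos _).le
        have h7 := (summable_geometric_of_lt_one hr0.le (by linarith)).sum_le_tsum (range m)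
          (fun n _ => pow_nonneg hr0.le n)
        rwa [tsum_geometric_of_lt_one hr0.le (by linarith)] at h7
    _ ≤ 1 / 2 := by
        rw [← div_eq_mul_inv, div_le_div_iff₀ (by linarith) (by norm_num)]
        have h1 := Real.exp_neg_one_lt_d9
        linarith

section

variable {p q : ℕ} (hp : 2 < p) (hq : 2 < q) (hc : Nat.Coprime p q)

/-- the elements `p^a q^b` -/
def el (p q : ℕ) (i : ℕ × ℕ) : ℕ := p ^ i.1 * q ^ i.2

include hp hq hc in
theorem el_inj : Function.Injective (el p q) := by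
  rintro ⟨a, b⟩ ⟨c, d⟩ h
  simp only [el] at h
  have key : ∀ a b c d : ℕ, p ^ a * q ^ b = p ^ c * q ^ d → a ≤ c → a = c ∧ b = d := by
    intro a b c d h hac
    obtain ⟨e, rfl⟩ := Nat.exists_eq_add_of_le hac
    rw [pow_add, mul_assoc] at h
    have h1 := Nat.eq_of_mul_eq_mul_left (Nat.pow_pos (by omega)) h
    -- q^b = p^e q^d
    have he : e = 0 := by
      by_contra hne
      have h2 : p ∣ q ^ b := by
        rw [h1]
        exact Dvd.dvd.mul_right (dvd_pow_self p hne) _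
      have h3 : Nat.Coprime p (q ^ b) := Nat.Coprime.pow_right b hc
      have := Nat.Coprime.eq_one_of_dvd h3 h2
      omega
    subst he
    rw [pow_zero, one_mul] at h1
    exact ⟨by omega, Nat.pow_right_injective (by omega) h1⟩
  rcases le_total a c with hac | hac
  · obtain ⟨h1, h2⟩ := key a b c d h hac
    rw [h1, h2]
  · obtain ⟨h1, h2⟩ := key c d a b h.symm hac
    rw [h1, h2]

/-- the generating function -/
noncomputable def F (p q : ℕ) (x : ℂ) : ℂ := ∑' T : Finset (ℕ × ℕ), ∏ i ∈ T, x ^ el p q i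

include hp hq hc in
theorem tendsto_F {x : ℂ} (hx : ‖x‖ < 1) (B : ℕ) :
    Tendsto (fun L : ℕ => ∏ a ∈ range (L + 1), ∏ b ∈ range (B + L), (1 + x ^ (p ^ a * q ^ b)))
      atTop (𝓝 (F p q x)) := by
  have h1 := (summable_finsetProd_of_summable_norm
    (summable_norm (el_inj hp hq hc) hx)).hasSum
  have h2 := hasProd_one_add_of_hasSum_prod h1
  have h3 : Tendsto (fun L : ℕ => range (L + 1) ×ˢ range (B + L)) atTop atTop := by
    apply Monotone.tendsto_atTop_finset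
    · intro L M hLM
      exact product_subset_product (range_mono (by omega)) (range_mono (by omega))
    · rintro ⟨a, b⟩
      refine ⟨a + b + 1, ?_⟩
      rw [mem_product, mem_range, mem_range]
      omega
  have h4 := h2.comp h3
  refine h4.congr fun L => ?_
  simp only [Function.comp]
  rw [prod_product]
  rfl

end

end Q252.DF
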