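import Pool.Agent.Q252.DF2

/-!
# The number of representations as a sum of distinct terms `p^a q^b` is not eventually monotone
-/

set_option autoImplicit false

namespace Q252.DF

open Finset Filter Topology

section

variable {p q : ℕ} (hp : 2 < p) (hq : 2 < q) (hc : Nat.Coprime p q)

/-- the counting function -/
noncomputable def f (p q n : ℕ) : ℕ := cnt (el p q) n

include hp hq hc in
theorem hasSum_F {x : ℂ} (hx : ‖x‖ < 1) : HasSum (fun n => (f p q n : ℂ) * x ^ n) (F p q x) :=
  hasSum_fin (el_inj hp hq hc) hx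

/-- the difference -/
noncomputable def d (p q n : ℕ) : ℝ := (f p q (n + 1) : ℝ) - f p q n

include hp hq hc in
theorem hasSum_d {x : ℂ} (hx : ‖x‖ < 1) :
    HasSum (fun n => (d p q n : ℂ) * x ^ (n + 1)) ((1 - x) * F p q x - f p q 0) := by
  have h1 := hasSum_F hp hq hc hx
  have h2 : HasSum (fun n => (f p q (n + 1) : ℂ) * x ^ (n + 1)) (F p q x - f p q 0) := by
    have := (hasSum_nat_add_iff' (f := fun n => (f p q n : ℂ) * x ^ n) 1).2 h1
    simpa using this
  have h3 : HasSum (fun n => (f p q n : ℂ) * x ^ (n + 1)) (x * F p q x) := by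
    have e : (fun n => (f p q n : ℂ) * x ^ (n + 1)) = fun n => x * ((f p q n : ℂ) * x ^ n) := by
      funext n
      rw [pow_succ]
      ring
    rw [e]
    exact h1.mul_left x
  have e : (fun n => (d p q n : ℂ) * x ^ (n + 1)) =
      fun n => (f p q (n + 1) : ℂ) * x ^ (n + 1) - (f p q n : ℂ) * x ^ (n + 1) := by
    funext n
    simp only [d]
    push_cast
    ring
  have e2 : (1 - x) * F p q x - f p q 0 = F p q x - f p q 0 - x * F p q x := by ring
  rw [e, e2]
  exact h2.sub h3

include hp hq hc in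
/-- if `f` is eventually nondecreasing then the generating function is small off the real axis -/
theorem mono_bound {N : ℕ} (hN : ∀ n, N ≤ n → f p q n ≤ f p q (n + 1)) :
    ∃ C : ℝ, 0 ≤ C ∧ ∀ (u : ℝ) (μ : ℂ), 0 ≤ u → u < 1 → ‖μ‖ = 1 →
      ‖(1 - μ * u) * F p q (μ * u)‖ ≤ (1 - u) * ‖F p q u‖ + C := by
  refine ⟨∑ n ∈ range N, 2 * |d p q n|, by positivity, ?_⟩
  intro u μ hu0 hu1 hμ
  have hx : ‖μ * (u : ℂ)‖ < 1 := by
    rw [norm_mul, hμ, one_mul, Complex.norm_real, Real.norm_of_nonneg hu0]; exact hu1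
  have hxu : ‖(u : ℂ)‖ < 1 := by
    rw [Complex.norm_real, Real.norm_of_nonneg hu0]; exact hu1
  have h1 := hasSum_d hp hq hc hx
  have h2 := hasSum_d hp hq hc hxu
  -- absolute values
  have h3 : Summable (fun n => |d p q n| * u ^ (n + 1)) := by
    refine h2.summable.norm.congr fun n => ?_
    rw [norm_mul, norm_pow, Complex.norm_real, Complex.norm_real, Real.norm_eq_abs,
      Real.norm_of_nonneg hu0]
  have h4 : ‖(1 - μ * u) * F p q (μ * u) - f p q 0‖ ≤ ∑' n, |d p q n| * u ^ (n + 1) := by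
    rw [← h1.tsum_eq]
    apply tsum_of_norm_bounded h3.hasSum
    intro n
    rw [norm_mul, norm_pow, norm_mul, hμ, one_mul, Complex.norm_real, Complex.norm_real,
      Real.norm_eq_abs, Real.norm_of_nonneg hu0]
  have h5 : HasSum (fun n => d p q n * u ^ (n + 1)) ((1 - u) * (F p q u).re - f p q 0) := by
    have h6 := Complex.hasSum_re h2
    have e1 : (fun n => ((d p q n : ℂ) * (u : ℂ) ^ (n + 1)).re) = fun n => d p q n * u ^ (n + 1) := by
      funext n
      rw [← Complex.ofReal_pow, ← Complex.ofReal_mul, Complex.ofReal_re]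
    have e2 : ((1 - (u : ℂ)) * F p q u - f p q 0).re = (1 - u) * (F p q u).re - f p q 0 := by
      rw [Complex.sub_re, ← Complex.ofReal_one, ← Complex.ofReal_sub, Complex.re_ofReal_mul,
        Complex.natCast_re]
    rw [e1, e2] at h6
    exact h6
  have h6 : HasSum (fun n => if n < N then 2 * |d p q n| else 0)
      (∑ n ∈ range N, 2 * |d p q n|) := by
    have this : HasSum (fun n : ℕ => if n < N then 2 * |d p q n| else 0)
        (∑ n ∈ range N, if n < N then 2 * |d p q n| else 0) :=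
      hasSum_sum_of_ne_finset_zero (by
        intro n hn
        rw [mem_range] at hn
        rw [if_neg hn])
    convert this using 1
    apply sum_congr rfl
    intro n hn
    rw [if_pos (mem_range.1 hn)]
  have h7 : ∑' n, |d p q n| * u ^ (n + 1) ≤
      ((1 - u) * (F p q u).re - f p q 0) + ∑ n ∈ range N, 2 * |d p q n| := by
    apply hasSum_le _ h3.hasSum (h5.add h6)
    intro n
    have hu : 0 ≤ u ^ (n + 1) := pow_nonneg hu0 _
    have hu' : u ^ (n + 1) ≤ 1 := pow_le_one₀ hu0 hu1.le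
    split_ifs with hn
    · have h8 : |d p q n| * u ^ (n + 1) - d p q n * u ^ (n + 1) ≤ 2 * |d p q n| := by
        have h9 : |d p q n| - d p q n ≤ 2 * |d p q n| := by
          have := neg_abs_le (d p q n); linarith
        have h10 : 0 ≤ |d p q n| - d p q n := by have := le_abs_self (d p q n); linarith
        calc |d p q n| * u ^ (n + 1) - d p q n * u ^ (n + 1)
            = (|d p q n| - d p q n) * u ^ (n + 1) := by ring
          _ ≤ (|d p q n| - d p q n) * 1 := mul_le_mul_of_nonneg_left hu' h10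
          _ ≤ 2 * |d p q n| := by linarith
      linarith
    · push Not at hn
      have h8 : 0 ≤ d p q n := by
        have := hN n hn
        simp only [d]
        have h9 : (f p q n : ℝ) ≤ f p q (n + 1) := by exact_mod_cast this
        linarith
      rw [abs_of_nonneg h8, add_zero]
  have h8 : (F p q u).re ≤ ‖F p q u‖ := Complex.re_le_norm _
  have h9 : ‖(1 - μ * u) * F p q (μ * u)‖ ≤
      ‖(1 - μ * u) * F p q (μ * u) - f p q 0‖ + f p q 0 := by
    have := norm_add_le ((1 - μ * u) * F p q (μ * u) - f p q 0) (f p q 0 : ℂ)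
    rw [sub_add_cancel, Complex.norm_natCast] at this
    exact this
  have h10 : (1 - u) * (F p q u).re ≤ (1 - u) * ‖F p q u‖ :=
    mul_le_mul_of_nonneg_left h8 (by linarith)
  linarith

/-- the partial products -/
noncomputable def P (p q B L : ℕ) (x : ℂ) : ℂ :=
  ∏ a ∈ range (L + 1), ∏ b ∈ range (B + L), (1 + x ^ (p ^ a * q ^ b))

/-- the common factor -/
noncomputable def R (p q B L : ℕ) (u : ℝ) : ℝ :=
  ∏ a ∈ range L, ∏ b ∈ range (B + L), (1 + u ^ (p ^ (a + 1) * q ^ b))

theorem P_norm {μ : ℂ} (hμ : μ ^ p = 1) {u : ℝ} (hu : 0 ≤ u) (B L : ℕ) :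
    ‖P p q B L (μ * u)‖ = (∏ b ∈ range (B + L), ‖1 + μ ^ (q ^ b) * (u : ℂ) ^ (q ^ b)‖) *
      R p q B L u := by
  rw [P, prod_range_succ', norm_mul, mul_comm, norm_prod, norm_prod, R]
  congr 1
  · apply prod_congr rfl
    intro b _
    rw [pow_zero, one_mul, mul_pow]
  · apply prod_congr rfl
    intro a _
    rw [norm_prod]
    apply prod_congr rfl
    intro b _
    have e : (μ * (u : ℂ)) ^ (p ^ (a + 1) * q ^ b) = ((u ^ (p ^ (a + 1) * q ^ b) : ℝ) : ℂ) := by
      rw [mul_pow, pow_succ' p a, mul_assoc p, pow_mul μ p, hμ, one_pow, one_mul]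
      push_cast
      rfl
    rw [e, ← Complex.ofReal_one, ← Complex.ofReal_add, Complex.norm_real,
      Real.norm_of_nonneg (by positivity)]

theorem one_le_prod_real {ι : Type*} (s : Finset ι) (g : ι → ℝ) (h : ∀ i ∈ s, 1 ≤ g i) :
    1 ≤ ∏ i ∈ s, g i := by
  calc (1 : ℝ) = ∏ i ∈ s, 1 := by simp
    _ ≤ ∏ i ∈ s, g i := Finset.prod_le_prod (fun _ _ => zero_le_one) h

theorem one_le_factor {u : ℝ} (hu : 0 ≤ u) (k : ℕ) : 1 ≤ 1 + u ^ k := by
  have : 0 ≤ u ^ k := pow_nonneg hu k
  linarith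

theorem R_ge {u : ℝ} (hu : 0 ≤ u) {B L : ℕ} (hL : 1 ≤ L) {c : ℝ} (hc0 : 1 ≤ c)
    (h : ∀ b < B, c ≤ 1 + u ^ (p * q ^ b)) : c ^ B ≤ R p q B L u := by
  obtain ⟨L', rfl⟩ : ∃ L', L = L' + 1 := ⟨L - 1, by omega⟩
  rw [R, prod_range_succ']
  have h1 : (1 : ℝ) ≤ ∏ a ∈ range L', ∏ b ∈ range (B + (L' + 1)),
      (1 + u ^ (p ^ (a + 1 + 1) * q ^ b)) := by
    apply one_le_prod_real
    intro a _
    apply one_le_prod_real
    intro b _
    exact one_le_factor hu _
  have h2 : c ^ B ≤ ∏ b ∈ range (B + (L' + 1)), (1 + u ^ (p ^ (0 + 1) * q ^ b)) := by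
    rw [prod_range_add]
    have h3 : c ^ B ≤ ∏ b ∈ range B, (1 + u ^ (p ^ (0 + 1) * q ^ b)) := by
      calc c ^ B = ∏ b ∈ range B, c := by rw [prod_const, card_range]
        _ ≤ _ := by
          apply Finset.prod_le_prod (fun _ _ => by linarith)
          intro b hb
          rw [zero_add, pow_one]
          exact h b (mem_range.1 hb)
    have h4 : (1 : ℝ) ≤ ∏ b ∈ range (L' + 1), (1 + u ^ (p ^ (0 + 1) * q ^ (B + b))) := by
      apply one_le_prod_real
      intro b _
      exact one_le_factor hu _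
    have h5 : (0 : ℝ) ≤ c ^ B := by positivity
    nlinarith
  have h6 : (0 : ℝ) ≤ c ^ B := by positivity
  nlinarith

end

end Q252.DF
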