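import Pool.Agent.Q252.DF3

/-!
# Main estimates
-/

set_option autoImplicit false

namespace Q252.DF

open Finset Filter Topology

section

variable {p q : ℕ} (hp : 2 < p) (hq : 2 < q) (hc : Nat.Coprime p q)

include hq in
theorem sum_pow_le (B : ℕ) : ∑ b ∈ range B, (q : ℝ) ^ b ≤ (q : ℝ) ^ B := by
  induction B with
  | zero => simp
  | succ B ih =>
    rw [sum_range_succ, pow_succ]
    have hq' : (3 : ℝ) ≤ q := by exact_mod_cast hq
    have : (0 : ℝ) < (q : ℝ) ^ B := by positivity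
    nlinarith

/-- `u_B = exp(-q^{-B})` -/
noncomputable def ub (q B : ℕ) : ℝ := Real.exp (-(((q : ℝ) ^ B)⁻¹))

theorem ub_pow (B b : ℕ) : (ub q B) ^ (q ^ b) = Real.exp (-(((q : ℝ) ^ B)⁻¹ * (q : ℝ) ^ b)) := by
  rw [ub, ← Real.exp_nat_mul]
  congr 1
  push_cast
  ring

include hq in
theorem ub_pow_add (B i : ℕ) : (ub q B) ^ (q ^ (B + i)) = Real.exp (-((q : ℝ) ^ i)) := by
  rw [ub_pow, pow_add]
  congr 1
  have : (q : ℝ) ^ B ≠ 0 := by positivity
  field_simp

include hq in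
theorem ub_lt (B : ℕ) : 0 ≤ ub q B ∧ ub q B < 1 ∧ 1 - ub q B ≤ ((q : ℝ) ^ B)⁻¹ := by
  have hqB : (0 : ℝ) < ((q : ℝ) ^ B)⁻¹ := by positivity
  refine ⟨(Real.exp_pos _).le, ?_, ?_⟩
  · rw [ub, Real.exp_lt_one_iff]; linarith
  · have := Real.add_one_le_exp (-(((q : ℝ) ^ B)⁻¹))
    rw [ub]
    linarith

include hq in
theorem lower_G {μ : ℂ} (hμ : ‖μ‖ = 1) {B : ℕ}
    (h1 : 1 ≤ ∏ b ∈ range B, ‖1 + μ ^ (q ^ b)‖) (L : ℕ) :
    Real.exp (-(1 / 2)) / 2 ≤
      ∏ b ∈ range (B + L), ‖1 + μ ^ (q ^ b) * ((ub q B : ℝ) : ℂ) ^ (q ^ b)‖ := by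
  have hqB : (0 : ℝ) < (q : ℝ) ^ B := by positivity
  rw [prod_range_add]
  have h2 : Real.exp (-(1 / 2)) ≤
      ∏ b ∈ range B, ‖1 + μ ^ (q ^ b) * ((ub q B : ℝ) : ℂ) ^ (q ^ b)‖ := by
    calc Real.exp (-(1 / 2)) ≤ Real.exp (-(1 / 2)) * ∏ b ∈ range B, ‖1 + μ ^ (q ^ b)‖ :=
          le_mul_of_one_le_right (Real.exp_pos _).le h1
      _ ≤ (∏ b ∈ range B, Real.exp (-(((q : ℝ) ^ B)⁻¹ * (q : ℝ) ^ b / 2))) *
          ∏ b ∈ range B, ‖1 + μ ^ (q ^ b)‖ := by
          apply mul_le_mul_of_nonneg_right _ (by linarith)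
          rw [← Real.exp_sum]
          apply Real.exp_le_exp.2
          rw [sum_neg_distrib, ← sum_div, ← mul_sum]
          have h3 := sum_pow_le hq B
          have h4 : ((q : ℝ) ^ B)⁻¹ * ∑ b ∈ range B, (q : ℝ) ^ b ≤ 1 := by
            rw [inv_mul_le_iff₀ hqB, mul_one]; exact h3
          linarith
      _ = ∏ b ∈ range B, (Real.exp (-(((q : ℝ) ^ B)⁻¹ * (q : ℝ) ^ b / 2)) * ‖1 + μ ^ (q ^ b)‖) := by
          rw [prod_mul_distrib]
      _ ≤ _ := by
          apply Finset.prod_le_prod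
          · intro b _; positivity
          · intro b _
            have hn : ‖μ ^ (q ^ b)‖ = 1 := by rw [norm_pow, hμ, one_pow]
            have h5 := norm_one_add_ge hn (v := ((q : ℝ) ^ B)⁻¹ * (q : ℝ) ^ b / 2)
            have e : (2 * (((q : ℝ) ^ B)⁻¹ * (q : ℝ) ^ b / 2)) = ((q : ℝ) ^ B)⁻¹ * (q : ℝ) ^ b := by
              ring
            rw [e, ← ub_pow, Complex.ofReal_pow] at h5
            exact h5
  have h3 : (1 : ℝ) / 2 ≤
      ∏ i ∈ range L, ‖1 + μ ^ (q ^ (B + i)) * ((ub q B : ℝ) : ℂ) ^ (q ^ (B + i))‖ := by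
    have h4 := prod_one_sub_ge (fun i => Real.exp (-((q : ℝ) ^ i))) (fun i => (Real.exp_pos _).le)
      (fun i => by
        rw [Real.exp_le_one_iff]
        have : (0 : ℝ) ≤ (q : ℝ) ^ i := by positivity
        linarith) L
    have h5 := sum_exp_le hq L
    calc (1 : ℝ) / 2 ≤ ∏ i ∈ range L, (1 - Real.exp (-((q : ℝ) ^ i))) := by linarith
      _ ≤ _ := by
        apply Finset.prod_le_prod
        · intro i _
          have : Real.exp (-((q : ℝ) ^ i)) ≤ 1 := by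
            rw [Real.exp_le_one_iff]
            have : (0 : ℝ) ≤ (q : ℝ) ^ i := by positivity
            linarith
          linarith
        · intro i _
          rw [← Complex.ofReal_pow, ub_pow_add hq]
          have hn : ‖μ ^ (q ^ (B + i)) * ((Real.exp (-((q : ℝ) ^ i)) : ℝ) : ℂ)‖ =
              Real.exp (-((q : ℝ) ^ i)) := by
            rw [norm_mul, norm_pow, hμ, one_pow, one_mul, Complex.norm_real,
              Real.norm_of_nonneg (Real.exp_pos _).le]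
          have h6 := norm_sub_norm_le (1 : ℂ) (-(μ ^ (q ^ (B + i)) * ((Real.exp (-((q : ℝ) ^ i)) : ℝ) : ℂ)))
          rw [norm_neg, hn, norm_one, sub_neg_eq_add] at h6
          exact h6
  calc Real.exp (-(1 / 2)) / 2 = Real.exp (-(1 / 2)) * (1 / 2) := by ring
    _ ≤ _ := mul_le_mul h2 h3 (by norm_num) (by positivity)

include hq in
theorem upper_G (B L : ℕ) :
    ∏ b ∈ range (B + L), ‖1 + (1 : ℂ) ^ (q ^ b) * ((ub q B : ℝ) : ℂ) ^ (q ^ b)‖ ≤
      2 ^ B * Real.exp (1 / 2) := by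
  rw [prod_range_add]
  apply mul_le_mul
  · calc ∏ b ∈ range B, ‖1 + (1 : ℂ) ^ (q ^ b) * ((ub q B : ℝ) : ℂ) ^ (q ^ b)‖
        ≤ ∏ b ∈ range B, (2 : ℝ) := by
          apply Finset.prod_le_prod (fun _ _ => norm_nonneg _)
          intro b _
          refine (norm_add_le _ _).trans ?_
          rw [one_pow, one_mul, norm_one, norm_pow, Complex.norm_real,
            Real.norm_of_nonneg (ub_lt hq B).1]
          have : (ub q B) ^ (q ^ b) ≤ 1 := pow_le_one₀ (ub_lt hq B).1 (ub_lt hq B).2.1.le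
          linarith
      _ = 2 ^ B := by rw [prod_const, card_range]
  · calc ∏ i ∈ range L, ‖1 + (1 : ℂ) ^ (q ^ (B + i)) * ((ub q B : ℝ) : ℂ) ^ (q ^ (B + i))‖
        ≤ ∏ i ∈ range L, Real.exp (Real.exp (-((q : ℝ) ^ i))) := by
          apply Finset.prod_le_prod (fun _ _ => norm_nonneg _)
          intro i _
          refine (norm_add_le _ _).trans ?_
          rw [one_pow, one_mul, norm_one, ← Complex.ofReal_pow, ub_pow_add hq, Complex.norm_real,
            Real.norm_of_nonneg (Real.exp_pos _).le]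
          have := Real.add_one_le_exp (Real.exp (-((q : ℝ) ^ i)))
          linarith
      _ = Real.exp (∑ i ∈ range L, Real.exp (-((q : ℝ) ^ i))) := by rw [Real.exp_sum]
      _ ≤ Real.exp (1 / 2) := Real.exp_le_exp.2 (sum_exp_le hq L)
  · exact prod_nonneg fun _ _ => norm_nonneg _
  · positivity

include hq in
theorem R_lower (B : ℕ) {L : ℕ} (hL : 1 ≤ L) :
    (1 + Real.exp (-(p : ℝ))) ^ B ≤ R p q B L (ub q B) := by
  apply R_ge (ub_lt hq B).1 hL
  · have := Real.exp_pos (-(p : ℝ)); linarith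
  · intro b hb
    have h1 : (ub q B) ^ (p * q ^ b) = ((ub q B) ^ (q ^ b)) ^ p := by
      rw [← pow_mul, mul_comm]
    rw [h1, ub_pow, ← Real.exp_nat_mul]
    have h2 : Real.exp (-(p : ℝ)) ≤ Real.exp (p * -(((q : ℝ) ^ B)⁻¹ * (q : ℝ) ^ b)) := by
      apply Real.exp_le_exp.2
      have hqB : (0 : ℝ) < (q : ℝ) ^ B := by positivity
      have h3 : ((q : ℝ) ^ B)⁻¹ * (q : ℝ) ^ b ≤ 1 := by
        rw [inv_mul_le_iff₀ hqB, mul_one]
        apply pow_le_pow_right₀ _ hb.le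
        have : (3 : ℝ) ≤ q := by exact_mod_cast hq
        linarith
      have h4 : (0 : ℝ) ≤ p := Nat.cast_nonneg p
      nlinarith
    linarith

include hp hq hc in
/-- the two estimates at `μ u_B` -/
theorem estimates {μ : ℂ} (hμ : μ ^ p = 1) {B : ℕ}
    (h1 : 1 ≤ ∏ b ∈ range B, ‖1 + μ ^ (q ^ b)‖) :
    Real.exp (-(1 / 2)) / 2 * (1 + Real.exp (-(p : ℝ))) ^ B ≤ ‖F p q (μ * (ub q B : ℝ))‖ ∧
    Real.exp (-(1 / 2)) / 2 * ‖F p q (ub q B : ℝ)‖ ≤
      2 ^ B * Real.exp (1 / 2) * ‖F p q (μ * (ub q B : ℝ))‖ := by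
  have hμ1 : ‖μ‖ = 1 := Complex.norm_eq_one_of_pow_eq_one hμ (by omega)
  obtain ⟨hu0, hu1, hu2⟩ := ub_lt hq B
  have hx : ‖μ * ((ub q B : ℝ) : ℂ)‖ < 1 := by
    rw [norm_mul, hμ1, one_mul, Complex.norm_real, Real.norm_of_nonneg hu0]; exact hu1
  have hxu : ‖((ub q B : ℝ) : ℂ)‖ < 1 := by
    rw [Complex.norm_real, Real.norm_of_nonneg hu0]; exact hu1
  have t1 := (tendsto_F hp hq hc hx B).norm
  have t2 := (tendsto_F hp hq hc hxu B).norm
  have hRpos : ∀ L, 1 ≤ L → 0 < R p q B L (ub q B) := fun L hL =>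
    lt_of_lt_of_le (by have := Real.exp_pos (-(p : ℝ)); positivity) (R_lower hq B hL)
  have hlow : ∀ L, 1 ≤ L → Real.exp (-(1 / 2)) / 2 * R p q B L (ub q B) ≤
      ‖P p q B L (μ * (ub q B : ℝ))‖ := by
    intro L hL
    rw [P_norm hμ hu0]
    exact mul_le_mul_of_nonneg_right (lower_G hq hμ1 h1 L) (hRpos L hL).le
  constructor
  · apply ge_of_tendsto t1
    filter_upwards [eventually_ge_atTop 1] with L hL
    refine le_trans ?_ (hlow L hL)
    exact mul_le_mul_of_nonneg_left (R_lower hq B hL) (by positivity)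
  · apply le_of_tendsto_of_tendsto (t2.const_mul _) (t1.const_mul _)
    filter_upwards [eventually_ge_atTop 1] with L hL
    have h2 : ‖P p q B L ((ub q B : ℝ) : ℂ)‖ ≤ 2 ^ B * Real.exp (1 / 2) * R p q B L (ub q B) := by
      have h3 := P_norm (p := p) (q := q) (μ := 1) (one_pow p) hu0 B L
      rw [one_mul] at h3
      rw [h3]
      exact mul_le_mul_of_nonneg_right (upper_G hq B L) (hRpos L hL).le
    have h3 := hlow L hL
    change Real.exp (-(1 / 2)) / 2 * ‖P p q B L ((ub q B : ℝ) : ℂ)‖ ≤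
      2 ^ B * Real.exp (1 / 2) * ‖P p q B L (μ * (ub q B : ℝ))‖
    calc Real.exp (-(1 / 2)) / 2 * ‖P p q B L ((ub q B : ℝ) : ℂ)‖
        ≤ Real.exp (-(1 / 2)) / 2 * (2 ^ B * Real.exp (1 / 2) * R p q B L (ub q B)) :=
          mul_le_mul_of_nonneg_left h2 (by positivity)
      _ = 2 ^ B * Real.exp (1 / 2) * (Real.exp (-(1 / 2)) / 2 * R p q B L (ub q B)) := by ring
      _ ≤ _ := mul_le_mul_of_nonneg_left h3 (by positivity)

include hp hq hc in
/-- **`f` is not eventually nondecreasing** -/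
theorem not_mono (N : ℕ) : ∃ n, N ≤ n ∧ f p q (n + 1) < f p q n := by
  by_contra hcon
  push Not at hcon
  obtain ⟨C, hC0, hC⟩ := mono_bound hp hq hc hcon
  set r := Nat.totient p with hr
  have hr0 : 0 < r := Nat.totient_pos.2 (by omega)
  obtain ⟨μ, hprim, hμ1⟩ := exists_root hp hc.symm r
  have hμp := hprim.pow_eq_one
  have hμn : ‖μ‖ = 1 := Complex.norm_eq_one_of_pow_eq_one hμp (by omega)
  -- periodicity of the factors
  have hper : ∀ b, μ ^ (q ^ (r + b)) = μ ^ (q ^ b) := by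
    intro b
    have h1 : q ^ (r + b) ≡ q ^ b [MOD p] := by
      rw [pow_add]
      have h2 := Nat.ModEq.pow_totient hc.symm
      have h3 := h2.mul_right (q ^ b)
      rwa [one_mul] at h3
    rw [pow_eq_pow_mod _ hμp, pow_eq_pow_mod (q ^ b) hμp]
    congr 1
  have hprod : ∀ M : ℕ, 1 ≤ ∏ b ∈ range (r * M), ‖1 + μ ^ (q ^ b)‖ := by
    intro M
    induction M with
    | zero => simp
    | succ M ih =>
      rw [mul_add, mul_one, add_comm, prod_range_add]
      have h2 : ∏ x ∈ range (r * M), ‖1 + μ ^ (q ^ (r + x))‖ =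
          ∏ x ∈ range (r * M), ‖1 + μ ^ (q ^ x)‖ := prod_congr rfl fun x _ => by rw [hper]
      rw [h2]
      exact one_le_mul_of_one_le_of_one_le hμ1 ih
  set δ := Real.exp (-(1 / 2)) / 2 with hδ
  have hδ0 : 0 < δ := by positivity
  set ρ := 1 + Real.exp (-(p : ℝ)) with hρ
  have hρ1 : 1 < ρ := by have := Real.exp_pos (-(p : ℝ)); linarith
  -- the inequality for every `M`
  have key : ∀ M : ℕ, Real.exp (-(1 / 2)) * ‖1 - μ‖ ≤
      (2 / (q : ℝ)) ^ (r * M) * (Real.exp (1 / 2) / δ) + (C / δ) * (ρ⁻¹) ^ (r * M) := by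
    intro M
    set B := r * M with hB
    obtain ⟨hu0, hu1, hu2⟩ := ub_lt hq B
    have hpB := hprod M
    rw [← hB] at hpB
    obtain ⟨e1, e2⟩ := estimates hp hq hc hμp hpB
    rw [← hδ, ← hρ] at e1
    rw [← hδ] at e2
    have h3 := hC (ub q B) μ hu0 hu1 hμn
    rw [norm_mul] at h3
    set Y := ‖F p q (μ * (ub q B : ℝ))‖ with hY
    have hY0 : 0 < Y := lt_of_lt_of_le (by positivity) e1
    have hqB : (0 : ℝ) < (q : ℝ) ^ B := by positivity
    have h4 : Real.exp (-(1 / 2)) * ‖1 - μ‖ ≤ ‖1 - μ * (ub q B : ℝ)‖ := by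
      have hn : ‖-μ‖ = 1 := by rw [norm_neg]; exact hμn
      have h5 := norm_one_add_ge hn (v := ((q : ℝ) ^ B)⁻¹ / 2)
      have e : 2 * (((q : ℝ) ^ B)⁻¹ / 2) = ((q : ℝ) ^ B)⁻¹ := by ring
      rw [e] at h5
      have e' : (1 : ℂ) + -μ = 1 - μ := by ring
      have e'' : (1 : ℂ) + -μ * (Real.exp (-((q : ℝ) ^ B)⁻¹) : ℝ) = 1 - μ * (ub q B : ℝ) := by
        rw [ub]; ring
      rw [e', e''] at h5
      refine le_trans ?_ h5
      apply mul_le_mul_of_nonneg_right _ (norm_nonneg _)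
      apply Real.exp_le_exp.2
      have : ((q : ℝ) ^ B)⁻¹ ≤ 1 := by
        apply inv_le_one_of_one_le₀
        apply one_le_pow₀
        have : (3 : ℝ) ≤ q := by exact_mod_cast hq
        linarith
      linarith
    have h5 : ‖F p q (ub q B : ℝ)‖ ≤ 2 ^ B * Real.exp (1 / 2) / δ * Y := by
      rw [div_mul_eq_mul_div, le_div_iff₀ hδ0]
      linarith
    have h6 : ‖1 - μ * (ub q B : ℝ)‖ * Y ≤
        ((q : ℝ) ^ B)⁻¹ * (2 ^ B * Real.exp (1 / 2) / δ * Y) + C := by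
      refine h3.trans ?_
      apply add_le_add_left
      apply mul_le_mul hu2 h5 (norm_nonneg _) (by positivity)
    have h7 : ‖1 - μ * (ub q B : ℝ)‖ ≤
        ((q : ℝ) ^ B)⁻¹ * (2 ^ B * Real.exp (1 / 2) / δ) + C / Y := by
      have h8 : ((q : ℝ) ^ B)⁻¹ * (2 ^ B * Real.exp (1 / 2) / δ) + C / Y =
          (((q : ℝ) ^ B)⁻¹ * (2 ^ B * Real.exp (1 / 2) / δ * Y) + C) / Y := by
        field_simp
      rw [h8, le_div_iff₀ hY0]
      exact h6
    have h8 : C / Y ≤ (C / δ) * (ρ⁻¹) ^ B := by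
      have h9 : (C / δ) * (ρ⁻¹) ^ B = C / (δ * ρ ^ B) := by
        rw [inv_pow]; field_simp
      rw [h9]
      exact div_le_div_of_nonneg_left hC0 (by positivity) e1
    have h9 : ((q : ℝ) ^ B)⁻¹ * (2 ^ B * Real.exp (1 / 2) / δ) =
        (2 / (q : ℝ)) ^ B * (Real.exp (1 / 2) / δ) := by
      rw [div_pow]; field_simp
    rw [h9] at h7
    linarith
  -- let `M → ∞`
  have hq' : (3 : ℝ) ≤ q := by exact_mod_cast hq
  have hrM : Tendsto (fun M : ℕ => r * M) atTop atTop :=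
    tendsto_id.const_mul_atTop' hr0
  have l1 : Tendsto (fun M : ℕ => (2 / (q : ℝ)) ^ (r * M)) atTop (𝓝 0) := by
    refine (tendsto_pow_atTop_nhds_zero_of_lt_one (by positivity) ?_).comp hrM
    rw [div_lt_one (by linarith)]; linarith
  have l2 : Tendsto (fun M : ℕ => (ρ⁻¹) ^ (r * M)) atTop (𝓝 0) :=
    (tendsto_pow_atTop_nhds_zero_of_lt_one (by positivity) (inv_lt_one_of_one_lt₀ hρ1)).comp hrM
  have l3 := (l1.mul_const (Real.exp (1 / 2) / δ)).add (l2.const_mul (C / δ))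
  rw [zero_mul, mul_zero, add_zero] at l3
  have l4 := ge_of_tendsto l3 (Eventually.of_forall key)
  have hne : 0 < ‖1 - μ‖ := by
    rw [norm_pos_iff, sub_ne_zero]
    intro h
    have := hprim.dvd_of_pow_eq_one 1 (by rw [pow_one]; exact h.symm)
    have := Nat.le_of_dvd one_pos this
    omega
  have : 0 < Real.exp (-(1 / 2)) * ‖1 - μ‖ := by positivity
  linarith

end

end Q252.DF
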