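import Pool.Agent.Q252.DF4

/-!
# `f` is not eventually nonincreasing
-/

set_option autoImplicit false

namespace Q252.DF

open Finset Filter Topology

theorem prod_subset_le {ι : Type*} [DecidableEq ι] {S T : Finset ι} (h : S ⊆ T) (g : ι → ℝ)
    (hg : ∀ i ∈ T, 1 ≤ g i) : ∏ i ∈ S, g i ≤ ∏ i ∈ T, g i := by
  rw [← prod_sdiff h]
  apply le_mul_of_one_le_left
  · exact prod_nonneg fun i hi => by have := hg i (h hi); linarith
  · exact one_le_prod_real _ _ fun i hi => hg i (mem_sdiff.1 hi).1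

section

variable {p q : ℕ} (hp : 2 < p) (hq : 2 < q) (hc : Nat.Coprime p q)

include hp hq hc in
theorem F_lower (M : ℕ) :
    (1 + Real.exp (-1)) ^ (M * M) ≤ ‖F p q (ub (p * q) M : ℝ)‖ := by
  have hpq : 2 < p * q := by nlinarith
  obtain ⟨hu0, hu1, hu2⟩ := ub_lt hpq M
  have hxu : ‖((ub (p * q) M : ℝ) : ℂ)‖ < 1 := by
    rw [Complex.norm_real, Real.norm_of_nonneg hu0]; exact hu1
  have t := (tendsto_F hp hq hc hxu 0).norm
  apply ge_of_tendsto t
  filter_upwards [eventually_ge_atTop M] with L hL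
  set u := ub (p * q) M with hu
  have h1 : ‖∏ a ∈ range (L + 1), ∏ b ∈ range (0 + L), (1 + ((u : ℝ) : ℂ) ^ (p ^ a * q ^ b))‖ =
      ∏ i ∈ range (L + 1) ×ˢ range (0 + L), (1 + u ^ (p ^ i.1 * q ^ i.2)) := by
    rw [prod_product, norm_prod]
    apply prod_congr rfl
    intro a _
    rw [norm_prod]
    apply prod_congr rfl
    intro b _
    rw [← Complex.ofReal_pow, ← Complex.ofReal_one, ← Complex.ofReal_add, Complex.norm_real,
      Real.norm_of_nonneg (by positivity)]
  rw [h1]
  have h2 : range M ×ˢ range M ⊆ range (L + 1) ×ˢ range (0 + L) :=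
    product_subset_product (range_mono (by omega)) (range_mono (by omega))
  refine le_trans ?_ (prod_subset_le h2 _ fun i _ => one_le_factor hu0 _)
  calc (1 + Real.exp (-1)) ^ (M * M) = ∏ i ∈ range M ×ˢ range M, (1 + Real.exp (-1)) := by
        rw [prod_const, card_product, card_range]
    _ ≤ _ := by
      apply Finset.prod_le_prod (fun _ _ => by positivity)
      rintro ⟨a, b⟩ hi
      rw [mem_product, mem_range, mem_range] at hi
      have h3 : Real.exp (-1) ≤ u ^ (p ^ a * q ^ b) := by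
        rw [hu, ub, ← Real.exp_nat_mul]
        apply Real.exp_le_exp.2
        have hD : (0 : ℝ) < (((p * q : ℕ) : ℝ)) ^ M := by positivity
        have h4 : p ^ a * q ^ b ≤ (p * q) ^ M := by
          rw [mul_pow]
          exact Nat.mul_le_mul (Nat.pow_le_pow_right (by omega) hi.1.le)
            (Nat.pow_le_pow_right (by omega) hi.2.le)
        have h5 : ((p ^ a * q ^ b : ℕ) : ℝ) ≤ ((p * q : ℕ) : ℝ) ^ M := by exact_mod_cast h4
        have h6 : ((p ^ a * q ^ b : ℕ) : ℝ) * (((p * q : ℕ) : ℝ) ^ M)⁻¹ ≤ 1 := by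
          rw [mul_inv_le_iff₀ hD, one_mul]; exact h5
        linarith
      simp only
      linarith

include hp hq hc in
/-- **`f` is not eventually nonincreasing** -/
theorem not_anti (N : ℕ) : ∃ n, N ≤ n ∧ f p q n < f p q (n + 1) := by
  by_contra hcon
  push Not at hcon
  -- `f` is bounded
  have hbd : ∀ n, f p q n ≤ ∑ m ∈ range (N + 1), f p q m := by
    have h1 : ∀ k, f p q (N + k) ≤ f p q N := by
      intro k
      induction k with
      | zero => exact le_rfl
      | succ k ih => exact (hcon (N + k) (by omega)).trans ih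
    intro n
    rcases Nat.lt_or_ge n N with h | h
    · exact single_le_sum (f := fun m => f p q m) (fun _ _ => Nat.zero_le _)
        (mem_range.2 (by omega))
    · obtain ⟨k, rfl⟩ := Nat.exists_eq_add_of_le h
      exact (h1 k).trans (single_le_sum (f := fun m => f p q m) (fun _ _ => Nat.zero_le _)
        (mem_range.2 (by omega)))
  set K := ∑ m ∈ range (N + 1), f p q m with hK
  have hpq : 2 < p * q := by nlinarith
  have hD3 : (3 : ℝ) ≤ ((p * q : ℕ) : ℝ) := by exact_mod_cast hpq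
  set D : ℝ := ((p * q : ℕ) : ℝ) with hD
  have hD0 : 0 < D := by linarith
  -- the upper bound
  have hup : ∀ M : ℕ, (1 + Real.exp (-1)) ^ (M * M) ≤ K * Real.exp 1 * D ^ M := by
    intro M
    obtain ⟨hu0, hu1, hu2⟩ := ub_lt hpq M
    have hxu : ‖((ub (p * q) M : ℝ) : ℂ)‖ < 1 := by
      rw [Complex.norm_real, Real.norm_of_nonneg hu0]; exact hu1
    refine (F_lower hp hq hc M).trans ?_
    set u := ub (p * q) M with hu
    have h1 : ‖F p q (u : ℝ)‖ ≤ K * (1 - u)⁻¹ := by
      rw [← (hasSum_F hp hq hc hxu).tsum_eq]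
      apply tsum_of_norm_bounded ((hasSum_geometric_of_lt_one hu0 hu1).mul_left (K : ℝ))
      intro n
      rw [norm_mul, norm_pow, Complex.norm_natCast, Complex.norm_real, Real.norm_of_nonneg hu0]
      apply mul_le_mul_of_nonneg_right _ (pow_nonneg hu0 n)
      exact_mod_cast hbd n
    refine h1.trans ?_
    rw [mul_assoc]
    apply mul_le_mul_of_nonneg_left _ (Nat.cast_nonneg K)
    have hDM : 0 < D ^ M := by positivity
    have h2 : (Real.exp 1 * D ^ M)⁻¹ ≤ 1 - u := by
      -- `1 - e^{-s} ≥ e^{-1} s`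
      have hs1 : (D ^ M)⁻¹ ≤ 1 := inv_le_one_of_one_le₀ (one_le_pow₀ (by linarith))
      have hs0 : 0 < (D ^ M)⁻¹ := by positivity
      have h3 : u = Real.exp (-((D ^ M)⁻¹)) := by rw [hu, ub, hD]
      have h4 := Real.add_one_le_exp ((D ^ M)⁻¹)
      have h5 : Real.exp (-((D ^ M)⁻¹)) * Real.exp ((D ^ M)⁻¹) = 1 := by
        rw [← Real.exp_add]; simp
      have h6 : Real.exp (-1) ≤ Real.exp (-((D ^ M)⁻¹)) := Real.exp_le_exp.2 (by linarith)
      have h7 : (Real.exp 1 * D ^ M)⁻¹ = Real.exp (-1) * (D ^ M)⁻¹ := by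
        rw [mul_inv, Real.exp_neg]
      rw [h7, h3]
      have h8 : 0 < Real.exp (-((D ^ M)⁻¹)) := Real.exp_pos _
      nlinarith
    rw [inv_le_comm₀ (by linarith) (by positivity)]
    exact h2
  -- contradiction
  set a : ℝ := 1 + Real.exp (-1) with ha
  have ha1 : 1 < a := by have := Real.exp_pos (-1); linarith
  obtain ⟨M₀, hM₀⟩ := (tendsto_atTop.1 (tendsto_pow_atTop_atTop_of_one_lt ha1) (2 * D)).exists_forall_of_atTop
  obtain ⟨M₁, hM₁⟩ := (tendsto_atTop.1 (tendsto_pow_atTop_atTop_of_one_lt (one_lt_two (α := ℝ)))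
    (K * Real.exp 1 + 1)).exists_forall_of_atTop
  set M := max M₀ M₁ with hM
  have h1 := hM₀ M (le_max_left _ _)
  have h2 := hM₁ M (le_max_right _ _)
  have h3 := hup M
  have h4 : (2 : ℝ) ^ M * D ^ M ≤ a ^ (M * M) := by
    rw [← mul_pow, pow_mul]
    exact pow_le_pow_left₀ (by positivity) h1 M
  have h5 : 0 < D ^ M := by positivity
  have h6 : (K * Real.exp 1 + 1) * D ^ M ≤ K * Real.exp 1 * D ^ M :=
    (mul_le_mul_of_nonneg_right h2 h5.le).trans (h4.trans h3)
  nlinarith

end

end Q252.DF
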