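import Pool.Agent.Q127.DJ.Stm

/-!
# Project DJ: positive entropy and the innovations
-/

set_option autoImplicit false

namespace Pool.Agent.Q252.DJ_ENT

open MeasureTheory Filter Topology
open Pool.Agent.Q127.DJ

theorem ent (h1 : S_inn) (h2 : S_cnv) (h3 : S_cha) : S_ent := by
  intro μ _ hμ m f hpos
  by_contra hcon
  push Not at hcon
  obtain ⟨c, hc, hH⟩ := hpos
  have hA : ∀ a : Fin m, Tendsto (fun t => ∫ x, (g μ f a t x) ^ 2 ∂μ) atTop (𝓝 0) := by
    intro a
    obtain ⟨l, hl⟩ := h2 μ hμ m f a 0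
    have h0 : l = 0 := by
      by_contra h
      exact hcon a l h hl
    subst h0
    exact hl.congr fun t => (h1 μ m f a t).2.2.2
  obtain ⟨K, hK, hcha⟩ := h3 (c / (2 * (m + 1))) (by positivity)
  have hB : Tendsto (fun t => K * ∑ a : Fin m, ∫ x, (g μ f a t x) ^ 2 ∂μ) atTop (𝓝 0) := by
    have := (tendsto_finsetSum (Finset.univ : Finset (Fin m)) (fun a _ => hA a)).const_mul K
    simpa using this
  obtain ⟨n0, hn0⟩ := eventually_atTop.1 (hB.eventually_le_const (by positivity : 0 < c / 4))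
  set H : ℕ → ℝ := fun n => ∑ w : Fin n → Fin m, Real.negMulLog (μ.real (cyl f n w)) with hHdef
  have hη : (m : ℝ) * (c / (2 * (m + 1))) ≤ c / 2 := by
    rw [mul_div_assoc', div_le_div_iff₀ (by positivity) (by norm_num)]
    have : (0 : ℝ) ≤ m := Nat.cast_nonneg m
    nlinarith
  have hstep : ∀ n, n0 ≤ n → H (n + 1) ≤ H n + 3 * c / 4 := by
    intro n hn
    have ha := hcha μ m f n
    have hb := hn0 n hn
    change H (n + 1) ≤ H n + m * (c / (2 * (m + 1))) + K * _ at ha
    linarith
  have hind : ∀ j : ℕ, H (n0 + j) ≤ H n0 + j * (3 * c / 4) := by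
    intro j
    induction j with
    | zero => simp
    | succ j ih =>
      have := hstep (n0 + j) (by omega)
      rw [← add_assoc]
      push_cast
      linarith
  have hlow : ∀ n : ℕ, c * (n : ℝ) ≤ H n := by
    intro n
    refine (hH n).trans (le_of_eq ?_)
    refine Finset.sum_congr rfl fun w _ => ?_
    have : {x : ℕ → ℕ | ∀ i : Fin n, f (x i.val) = w i} = cyl f n w := by
      ext x
      simp only [Set.mem_setOf_eq, cyl, nm, funext_iff]
    rw [this]
    rfl
  obtain ⟨j, hj⟩ := exists_nat_gt ((H n0 - c * n0) * 4 / c)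
  have ha := hind j
  have hb := hlow (n0 + j)
  push_cast at hb
  rw [div_lt_iff₀ hc] at hj
  linarith

end Pool.Agent.Q252.DJ_ENT
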