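import Mathlib

namespace Pool.Agent.Q252.ED1

open Finset

/-- The second elementary symmetric value of the subsequence of `s` with index set `I`. -/
def e2 {n k : ℕ} (s : Fin k → ZMod n) (I : Finset (Fin k)) : ZMod n :=
  ∑ i ∈ I, ∑ j ∈ I.filter (fun j => i < j), s i * s j

/-- Every sequence of length `l` over `ZMod n` has a subsequence with at least two terms
whose second elementary symmetric value is `0`. -/
def Forced (n l : ℕ) : Prop :=
  ∀ s : Fin l → ZMod n, ∃ I : Finset (Fin l), 2 ≤ I.card ∧ e2 s I = 0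

/-- The degree-2 elementary symmetric Davenport constant of `ZMod n`. -/
noncomputable def D (n : ℕ) : ℕ := sInf {l | Forced n l}

theorem two_e2 {n k : ℕ} (s : Fin k → ZMod n) (I : Finset (Fin k)) :
    2 * e2 s I = (∑ i ∈ I, s i) ^ 2 - ∑ i ∈ I, s i ^ 2 := by
  have h1 : e2 s I = ∑ i ∈ I, ∑ j ∈ I, if i < j then s i * s j else 0 := by
    unfold e2
    refine Finset.sum_congr rfl fun i _ => ?_
    rw [Finset.sum_filter]
  have h2 : e2 s I = ∑ i ∈ I, ∑ j ∈ I, if j < i then s i * s j else 0 := by
    rw [h1, Finset.sum_comm]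
    refine Finset.sum_congr rfl fun i _ => Finset.sum_congr rfl fun j _ => ?_
    rw [mul_comm]
  have h3 : ∑ i ∈ I, s i ^ 2 = ∑ i ∈ I, ∑ j ∈ I, if i = j then s i * s j else 0 := by
    refine Finset.sum_congr rfl fun i hi => ?_
    rw [Finset.sum_ite_eq I i (fun j => s i * s j), if_pos hi, sq]
  have h4 : (∑ i ∈ I, s i) ^ 2 = ∑ i ∈ I, ∑ j ∈ I, s i * s j := by
    rw [sq, Finset.sum_mul_sum]
  rw [two_mul]
  nth_rewrite 1 [h1]
  rw [h2, h3, h4, eq_sub_iff_add_eq, ← Finset.sum_add_distrib, ← Finset.sum_add_distrib]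
  refine Finset.sum_congr rfl fun i _ => ?_
  rw [← Finset.sum_add_distrib, ← Finset.sum_add_distrib]
  refine Finset.sum_congr rfl fun j _ => ?_
  rcases lt_trichotomy i j with h | h | h
  · simp [h, h.not_gt, h.ne]
  · simp [h]
  · simp [h, h.not_gt, h.ne']

theorem forced_mono {n l l' : ℕ} (hl : l ≤ l') (h : Forced n l) : Forced n l' := by
  intro s
  obtain ⟨I, hI, he⟩ := h (fun i => s (Fin.castLE hl i))
  refine ⟨I.map (Fin.castLEEmb hl), by simpa using hI, ?_⟩
  rw [← he]
  unfold e2
  rw [Finset.sum_map]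
  refine Finset.sum_congr rfl fun i _ => ?_
  rw [Finset.filter_map, Finset.sum_map]
  refine Finset.sum_congr ?_ fun j _ => rfl
  ext j
  simp

theorem forced_sq {p : ℕ} (hp : p.Prime) (hp2 : p ≠ 2) : Forced p (p * p) := by
  have : Fact p.Prime := ⟨hp⟩
  intro s
  obtain ⟨y, hy⟩ := Fintype.exists_le_card_fiber_of_mul_le_card s (n := p)
    (by rw [ZMod.card, Fintype.card_fin])
  obtain ⟨I, hIs, hI⟩ := Finset.exists_subset_card_eq hy
  refine ⟨I, by rw [hI]; exact hp.two_le, ?_⟩
  have hs : ∀ i ∈ I, s i = y := fun i hi => (Finset.mem_filter.1 (hIs hi)).2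
  have h2 : (2 : ZMod p) ≠ 0 := by
    intro h
    have : ((2 : ℕ) : ZMod p) = 0 := by exact_mod_cast h
    rw [ZMod.natCast_eq_zero_iff] at this
    exact hp2 ((Nat.prime_dvd_prime_iff_eq hp Nat.prime_two).1 this)
  have h3 := two_e2 s I
  have e1 : ∑ i ∈ I, s i = 0 := by
    rw [Finset.sum_congr rfl hs, Finset.sum_const, hI]; simp
  have e3 : ∑ i ∈ I, s i ^ 2 = 0 := by
    rw [Finset.sum_congr rfl (fun i hi => by rw [hs i hi]), Finset.sum_const, hI]; simp
  rw [e1, e3] at h3
  simp only [ne_eq, OfNat.ofNat_ne_zero, not_false_eq_true, zero_pow, sub_self, mul_eq_zero] at h3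
  exact h3.resolve_left h2

/-- A sequence without such a subsequence bounds the constant from below. -/
theorem lt_D {p l : ℕ} (hp : p.Prime) (hp2 : p ≠ 2) (h : ¬ Forced p l) : l + 1 ≤ D p := by
  by_contra hc
  have hmem : Forced p (D p) := Nat.sInf_mem (s := {l | Forced p l}) ⟨p * p, forced_sq hp hp2⟩
  exact h (forced_mono (by omega) hmem)

/-- `p - 1 - r` copies of `1` and `s` copies of `(r + 1) / 2` form a sequence without such a
subsequence as soon as the numbers `1 + (r ^ 2 - 1) k`, `2 ≤ k ≤ s`, are nonsquares. -/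
theorem criterion {p r s : ℕ} (hp : p.Prime) (hp2 : p ≠ 2) (hr : r + 1 ≤ p)
    (hns : ∀ k : ℕ, 2 ≤ k → k ≤ s → ¬ IsSquare (1 + ((r : ZMod p) ^ 2 - 1) * k)) :
    p + s ≤ D p + r := by
  have : Fact p.Prime := ⟨hp⟩
  obtain ⟨h, hh⟩ : ∃ h, h + (r + 1) = p := ⟨p - (r + 1), by omega⟩
  have h2 : (2 : ZMod p) ≠ 0 := by
    intro h
    have : ((2 : ℕ) : ZMod p) = 0 := by exact_mod_cast h
    rw [ZMod.natCast_eq_zero_iff] at this
    exact hp2 ((Nat.prime_dvd_prime_iff_eq hp Nat.prime_two).1 this)
  set t : ZMod p := ((r : ZMod p) + 1) / 2 with ht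
  have ht2 : 2 * t = r + 1 := by rw [ht]; field_simp
  suffices hF : ¬ Forced p (h + s) by
    have := lt_D hp hp2 hF
    omega
  intro hF
  obtain ⟨I, hI, he⟩ := hF (fun i => if i.val < h then 1 else t)
  have h3 := two_e2 (fun i : Fin (h + s) => if i.val < h then (1 : ZMod p) else t) I
  rw [he, mul_zero] at h3
  set A := I.filter (fun i => i.val < h) with hA
  set B := I.filter (fun i => ¬ i.val < h) with hB
  have hcard : A.card + B.card = I.card := Finset.card_filter_add_card_filter_not _
  have hAle : A.card ≤ h := by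
    calc A.card ≤ (Finset.univ.filter (fun i : Fin (h + s) => i.val < h)).card :=
          Finset.card_le_card (Finset.filter_subset_filter _ (Finset.subset_univ _))
      _ = h := by
          rw [Fin.card_filter_val_lt]; simp
  have hBle : B.card ≤ s := by
    have h5 : (Finset.univ.filter (fun i : Fin (h + s) => i.val < h)).card = h := by
      rw [Fin.card_filter_val_lt]; simp
    have h6 : (Finset.univ.filter (fun i : Fin (h + s) => i.val < h)).card
        + (Finset.univ.filter (fun i : Fin (h + s) => ¬ i.val < h)).card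
        = (Finset.univ : Finset (Fin (h + s))).card := Finset.card_filter_add_card_filter_not _
    have h7 : B.card ≤ (Finset.univ.filter (fun i : Fin (h + s) => ¬ i.val < h)).card :=
      Finset.card_le_card (Finset.filter_subset_filter _ (Finset.subset_univ _))
    rw [Finset.card_univ, Fintype.card_fin] at h6
    omega
  have e1 : ∑ i ∈ I, (if i.val < h then (1 : ZMod p) else t) = A.card + B.card * t := by
    rw [Finset.sum_ite, Finset.sum_const, Finset.sum_const]
    simp [hA, hB]
  have e3 : ∑ i ∈ I, (if i.val < h then (1 : ZMod p) else t) ^ 2 = A.card + B.card * t ^ 2 := by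
    have : ∀ i : Fin (h + s), (if i.val < h then (1 : ZMod p) else t) ^ 2
        = if i.val < h then (1 : ZMod p) else t ^ 2 := by
      intro i; split_ifs <;> simp
    simp_rw [this]
    rw [Finset.sum_ite, Finset.sum_const, Finset.sum_const]
    simp [hA, hB]
  rw [e1, e3] at h3
  set a := A.card with ha
  set k := B.card with hk
  have key : (2 * (a : ZMod p) + k * (r + 1) - 1) ^ 2 = 1 + ((r : ZMod p) ^ 2 - 1) * k := by
    linear_combination (-4) * h3 - (4 * (a : ZMod p) * k + (2 * t + r + 1) * (k ^ 2 - k)) * ht2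
  by_cases hk2 : 2 ≤ k
  · exact hns k hk2 hBle ⟨_, by rw [← key, sq]⟩
  · have hcast : ∀ m : ℕ, (m : ZMod p) = 0 → m < p → m = 0 := by
      intro m hm hmp
      rw [ZMod.natCast_eq_zero_iff] at hm
      exact Nat.eq_zero_of_dvd_of_lt hm hmp
    have hkk : k = 0 ∨ k = 1 := by omega
    rcases hkk with hk0 | hk1
    · rw [hk0] at key
      have h8 : (4 : ZMod p) * (a * ((a : ZMod p) - 1)) = 0 := by
        push_cast at key
        linear_combination key
      have h4 : (4 : ZMod p) ≠ 0 := by
        have : (4 : ZMod p) = 2 * 2 := by norm_num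
        rw [this]; exact mul_ne_zero h2 h2
      have ha2 : 2 ≤ a := by omega
      rcases mul_eq_zero.1 (mul_eq_zero.1 h8 |>.resolve_left h4) with h9 | h9
      · have := hcast a h9 (by omega)
        omega
      · have h10 : ((a - 1 : ℕ) : ZMod p) = 0 := by
          rw [Nat.cast_sub (by omega)]; simpa using h9
        have := hcast _ h10 (by omega)
        omega
    · rw [hk1] at key
      have h8 : (4 : ZMod p) * (a * ((a : ZMod p) + r)) = 0 := by
        push_cast at key
        linear_combination key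
      have h4 : (4 : ZMod p) ≠ 0 := by
        have : (4 : ZMod p) = 2 * 2 := by norm_num
        rw [this]; exact mul_ne_zero h2 h2
      have ha1 : 1 ≤ a := by omega
      rcases mul_eq_zero.1 (mul_eq_zero.1 h8 |>.resolve_left h4) with h9 | h9
      · have := hcast a h9 (by omega)
        omega
      · have h10 : ((a + r : ℕ) : ZMod p) = 0 := by push_cast; exact h9
        have := hcast _ h10 (by omega)
        omega

end Pool.Agent.Q252.ED1
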