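import Mathlib
import Pool.Agent.Q252.ED1

namespace Pool.Agent.Q252.ED1

open Finset NumberTheorySymbols

/-- One prime `p₀ ≡ 1 (mod 4)` with the nonresidue property gives infinitely many. -/
theorem infinite_family (r s p₀ : ℕ) (hp0 : p₀.Prime) (h4 : p₀ % 4 = 1)
    (hJ : ∀ k ∈ Finset.Icc 2 s, jacobiSym (1 + ((r : ℤ) ^ 2 - 1) * k) p₀ = -1) :
    {p : ℕ | p.Prime ∧ p % 4 = 1 ∧ p + s ≤ D p + r}.Infinite := by
  set b : ℕ → ℕ := fun k => (1 + ((r : ℤ) ^ 2 - 1) * k).natAbs with hb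
  have hp0one : 1 < p₀ := hp0.one_lt
  have : NeZero p₀ := ⟨hp0.ne_zero⟩
  have hb0 : ∀ k ∈ Finset.Icc 2 s, b k ≠ 0 := by
    intro k hk h0
    have h1 : (1 + ((r : ℤ) ^ 2 - 1) * k) = 0 := Int.natAbs_eq_zero.1 h0
    have h2 := hJ k hk
    rw [h1, jacobiSym.zero_left hp0one] at h2
    norm_num at h2
  set N : ℕ := 4 * ∏ k ∈ Finset.Icc 2 s, b k with hN
  have hN0 : N ≠ 0 := by
    rw [hN]
    exact Nat.mul_ne_zero (by norm_num) (Finset.prod_ne_zero_iff.2 hb0)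
  have : NeZero N := ⟨hN0⟩
  have hcop : Nat.Coprime p₀ N := by
    rw [hN]
    refine Nat.Coprime.mul_right ?_ (Nat.Coprime.prod_right fun k hk => ?_)
    · have : Nat.Coprime p₀ 2 := by
        rw [Nat.coprime_primes hp0 Nat.prime_two]; omega
      exact Nat.Coprime.mul_right this this
    · by_contra hc
      have h2 := hJ k hk
      have h3 : jacobiSym (1 + ((r : ℤ) ^ 2 - 1) * k) p₀ = 0 := by
        rw [jacobiSym.eq_zero_iff_not_coprime]
        intro h5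
        apply hc
        rw [Nat.coprime_comm]
        have : Int.gcd (1 + ((r : ℤ) ^ 2 - 1) * k) (p₀ : ℤ) = Nat.gcd (b k) p₀ := by
          rw [Int.gcd_def]; rfl
        rw [Nat.Coprime, ← this]
        exact h5
      rw [h3] at h2
      norm_num at h2
  have hunit : IsUnit ((p₀ : ℕ) : ZMod N) := (ZMod.isUnit_iff_coprime p₀ N).2 hcop
  apply Set.infinite_of_not_bddAbove
  rintro ⟨M, hM⟩
  obtain ⟨p, hpgt, hp, hpN⟩ := Nat.forall_exists_prime_gt_and_eq_mod hunit (M + r + 1)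
  have hmod : p ≡ p₀ [MOD N] := (ZMod.natCast_eq_natCast_iff p p₀ N).1 hpN
  have hp4 : p % 4 = 1 := by
    have h1 : p ≡ p₀ [MOD 4] := hmod.of_dvd ⟨_, hN⟩
    rw [Nat.ModEq] at h1
    rw [h1, h4]
  have hpodd : Odd p := Nat.odd_iff.2 (by omega)
  have hp0odd : Odd p₀ := Nat.odd_iff.2 (by omega)
  have : Fact p.Prime := ⟨hp⟩
  have hmem : p ∈ {p : ℕ | p.Prime ∧ p % 4 = 1 ∧ p + s ≤ D p + r} := by
    refine ⟨hp, hp4, criterion hp (by rintro rfl; omega) (by omega) fun k hk2 hks => ?_⟩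
    have hk : k ∈ Finset.Icc 2 s := Finset.mem_Icc.2 ⟨hk2, hks⟩
    have h1 : jacobiSym (1 + ((r : ℤ) ^ 2 - 1) * k) p = -1 := by
      rw [← hJ k hk, jacobiSym.mod_right _ hpodd, jacobiSym.mod_right _ hp0odd]
      have h2 : p ≡ p₀ [MOD 4 * b k] :=
        hmod.of_dvd (Nat.mul_dvd_mul_left 4 (Finset.dvd_prod_of_mem b hk))
      rw [Nat.ModEq] at h2
      have e : ((1 : ℤ) + ((r : ℤ) ^ 2 - 1) * (k : ℤ)).natAbs = b k := rfl
      rw [e, h2]
    have h3 := ZMod.nonsquare_iff_jacobiSym_eq_neg_one.1 h1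
    push_cast at h3
    exact h3
  have := hM hmem
  omega

theorem p73 : 75 ≤ D 73 := by
  have hp : Nat.Prime 73 := by norm_num
  have : Fact (Nat.Prime 73) := ⟨hp⟩
  have h := criterion (p := 73) (r := 2) (s := 4) hp (by norm_num) (by norm_num) (by
    intro k hk2 hk4
    have h1 : jacobiSym (1 + 3 * (k : ℤ)) 73 = -1 := by
      interval_cases k <;> norm_num
    have h3 := ZMod.nonsquare_iff_jacobiSym_eq_neg_one.1 h1
    push_cast at h3
    convert h3 using 2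
    push_cast
    ring)
  omega

theorem infinite17 : {p : ℕ | p.Prime ∧ p % 4 = 1 ∧ p + 17 ≤ D p}.Infinite := by
  refine (infinite_family 6 23 1167913 (by norm_num) (by norm_num) ?_).mono ?_
  · intro k hk
    rw [Finset.mem_Icc] at hk
    obtain ⟨h1, h2⟩ := hk
    interval_cases k <;> norm_num
  · rintro p ⟨h1, h2, h3⟩
    exact ⟨h1, h2, by omega⟩

end Pool.Agent.Q252.ED1
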