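import Mathlib

/-!
Lattices of index `N` in the plane and the hexagonal norm `max (|x|, |y|, |x+y|)`; used for
Farey sequences of `Gamma_0(p^n)` with small denominators.
-/

namespace Pool.Agent.Q252.FA

/-- `(x, y)` lies in the lattice of the point `(b : d)` modulo `N`. -/
def InL (N b d x y : ℤ) : Prop := N ∣ x * d - y * b

/-- The hexagonal norm of `(x, y)` is at most `k`. -/
def Bd (x y k : ℤ) : Prop :=
  (-k ≤ x ∧ x ≤ k) ∧ (-k ≤ y ∧ y ≤ k) ∧ (-k ≤ x + y ∧ x + y ≤ k)

/-- There is no nonzero lattice vector of norm less than `K`. -/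
def Emp (N b d K : ℤ) : Prop := ∀ x y, InL N b d x y → Bd x y (K - 1) → x = 0 ∧ y = 0

/-- Not both entries are divisible by `p`. -/
def Pr (p b d : ℤ) : Prop := ¬ (p ∣ b ∧ p ∣ d)

variable {N b d c e x y z w K p : ℤ}

theorem inL_self : InL N b d b d := by
  unfold InL; rw [mul_comm b d, sub_self]; exact dvd_zero _

theorem inL_neg (h : InL N b d x y) : InL N b d (-x) (-y) := by
  unfold InL at *
  have : -x * d - -y * b = -(x * d - y * b) := by ring
  rw [this]; exact (dvd_neg).2 h

theorem inL_add (h : InL N b d x y) (h' : InL N b d z w) : InL N b d (x + z) (y + w) := by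
  unfold InL at *
  have : (x + z) * d - (y + w) * b = (x * d - y * b) + (z * d - w * b) := by ring
  rw [this]; exact dvd_add h h'

theorem inL_smul (t : ℤ) (h : InL N b d x y) : InL N b d (t * x) (t * y) := by
  unfold InL at *
  have : t * x * d - t * y * b = t * (x * d - y * b) := by ring
  rw [this]; exact h.mul_left t

theorem inL_sub (h : InL N b d x y) (h' : InL N b d z w) : InL N b d (x - z) (y - w) := by
  have := inL_add h (inL_neg h'); simpa [sub_eq_add_neg] using this

/-- rotation -/
theorem inL_rot : InL N d (-b - d) y (-x - y) ↔ InL N b d x y := by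
  unfold InL
  have : y * (-b - d) - (-x - y) * d = x * d - y * b := by ring
  rw [this]

theorem inL_rot' : InL N (-b - d) b (-x - y) x ↔ InL N b d x y := by
  unfold InL
  have : (-x - y) * b - x * (-b - d) = x * d - y * b := by ring
  rw [this]

theorem inL_negb : InL N (-b) (-d) x y ↔ InL N b d x y := by
  unfold InL
  have : x * -d - y * -b = -(x * d - y * b) := by ring
  rw [this, dvd_neg]

/-- swap -/
theorem inL_swap : InL N d b y x ↔ InL N b d x y := by
  unfold InL
  have : y * b - x * d = -(x * d - y * b) := by ring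
  rw [this, dvd_neg]

/-- the neighbour across the third edge -/
theorem inL_up : InL N (b - d) d (x - y) y ↔ InL N b d x y := by
  unfold InL
  have : (x - y) * d - y * (b - d) = x * d - y * b := by ring
  rw [this]

theorem emp_rot : Emp N d (-b - d) K ↔ Emp N b d K := by
  constructor
  · intro h x y hl hb
    have := h y (-x - y) (inL_rot.2 hl) (by unfold Bd at *; omega)
    omega
  · intro h x y hl hb
    have h1 : InL N b d (-x - y) x := by
      have : InL N d (-b - d) x (-(-x-y) - x) := by
        have e : -(-x-y) - x = y := by ring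
        rw [e]; exact hl
      exact inL_rot.1 this
    have := h (-x - y) x h1 (by unfold Bd at *; omega)
    omega

theorem emp_rot' : Emp N (-b - d) b K ↔ Emp N b d K := by
  rw [← emp_rot (b := b) (d := d), ← emp_rot (b := d) (d := -b - d)]
  have : -d - (-b - d) = b := by ring
  rw [this]

theorem emp_negb : Emp N (-b) (-d) K ↔ Emp N b d K := by
  unfold Emp
  simp only [inL_negb]

theorem emp_swap : Emp N d b K ↔ Emp N b d K := by
  constructor
  · intro h x y hl hb
    have := h y x (inL_swap.2 hl) (by unfold Bd at *; omega)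
    omega
  · intro h x y hl hb
    have := h y x (inL_swap.2 hl) (by unfold Bd at *; omega)
    omega

/-- Membership in the lattice of a coprime-to-`p` vector determines the lattice. -/
theorem inL_of_inL {q : ℕ} (hp : Nat.Prime q) {n : ℕ} (hN : N = (q : ℤ) ^ n) (hbd : Pr q b d)
    (h : InL N b d c e) (h' : InL N b d x y) : InL N c e x y := by
  have hq : Prime (q : ℤ) := Nat.prime_iff_prime_int.1 hp
  unfold InL at *
  by_cases hb : (q : ℤ) ∣ b
  · have hd : ¬ (q : ℤ) ∣ d := fun hd => hbd ⟨hb, hd⟩
    have hc : IsCoprime N d := by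
      rw [hN]; exact ((Prime.coprime_iff_not_dvd hq).2 hd).pow_left
    have : N ∣ d * (x * e - y * c) := by
      have e1 : d * (x * e - y * c) = e * (x * d - y * b) - y * (c * d - e * b) := by ring
      rw [e1]; exact dvd_sub (h'.mul_left _) (h.mul_left _)
    exact hc.dvd_of_dvd_mul_left this
  · have hc : IsCoprime N b := by
      rw [hN]; exact ((Prime.coprime_iff_not_dvd hq).2 hb).pow_left
    have : N ∣ b * (x * e - y * c) := by
      have e1 : b * (x * e - y * c) = c * (x * d - y * b) - x * (c * d - e * b) := by ring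
      rw [e1]; exact dvd_sub (h'.mul_left _) (h.mul_left _)
    exact hc.dvd_of_dvd_mul_left this

theorem inL_symm (h : InL N b d c e) : InL N c e b d := by
  unfold InL at *
  have : b * e - d * c = -(c * d - e * b) := by ring
  rw [this, dvd_neg]; exact h

theorem inL_iff {q : ℕ} (hp : Nat.Prime q) {n : ℕ} (hN : N = (q : ℤ) ^ n) (hbd : Pr q b d)
    (hce : Pr q c e) (h : InL N b d c e) (x y : ℤ) : InL N b d x y ↔ InL N c e x y :=
  ⟨inL_of_inL hp hN hbd h, inL_of_inL hp hN hce (inL_symm h)⟩

/-- The determinant of two lattice vectors is a multiple of `N`. -/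
theorem dvd_det {q : ℕ} (hp : Nat.Prime q) {n : ℕ} (hN : N = (q : ℤ) ^ n) (hbd : Pr q b d)
    (h : InL N b d x y) (h' : InL N b d z w) : N ∣ x * w - y * z := by
  have := inL_of_inL hp hN hbd h h'
  unfold InL at this
  have e : x * w - y * z = -(z * y - w * x) := by ring
  rw [e, dvd_neg]; exact this

/-- Two lattice vectors divisible by `p` have determinant different from `± N`. -/
theorem no_div_basis {q : ℕ} (hq0 : (0:ℤ) < N) (hbd : Pr q b d)
    (h : InL N b d x y) (h' : InL N b d z w)
    (hdet : x * w - y * z = N) (hx : (q:ℤ) ∣ x) (hy : (q:ℤ) ∣ y) (hz : (q:ℤ) ∣ z)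
    (hw : (q:ℤ) ∣ w) : False := by
  obtain ⟨k1, hk1⟩ := h
  obtain ⟨k2, hk2⟩ := h'
  apply hbd
  constructor
  · have : N * b = N * (z * k1 - x * k2) := by
      have : N * b = (x * w - y * z) * b := by rw [hdet]
      rw [this]; linear_combination z * hk1 - x * hk2
    have h3 : b = z * k1 - x * k2 := mul_left_cancel₀ hq0.ne' this
    rw [h3]; exact dvd_sub (hz.mul_right _) (hx.mul_right _)
  · have : N * d = N * (w * k1 - y * k2) := by
      have : N * d = (x * w - y * z) * d := by rw [hdet]
      rw [this]; linear_combination w * hk1 - y * hk2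
    have h3 : d = w * k1 - y * k2 := mul_left_cancel₀ hq0.ne' this
    rw [h3]; exact dvd_sub (hw.mul_right _) (hy.mul_right _)

end Pool.Agent.Q252.FA
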