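import Pool.Agent.Q252.FA1

/-!
Shortest vectors for the hexagonal norm.
-/

namespace Pool.Agent.Q252.FA

variable {N b d c e x y z w K : ℤ}

theorem scale_bd {c c' u1 u2 K : ℤ} (hc' : 0 ≤ c') (hlt : c' < c)
    (hb : Bd (c * u1) (c * u2) K) (hK : 0 < K) : Bd (c' * u1) (c' * u2) (K - 1) := by
  have key : ∀ t : ℤ, -K ≤ c * t → c * t ≤ K → -(K-1) ≤ c' * t ∧ c' * t ≤ K - 1 := by
    intro t h1 h2
    rcases lt_trichotomy t 0 with ht | ht | ht
    · constructor
      · nlinarith
      · nlinarith
    · subst ht; constructor <;> simp <;> omega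
    · constructor
      · nlinarith
      · nlinarith
  obtain ⟨h1, h2, h3⟩ := hb
  refine ⟨key _ h1.1 h1.2, key _ h2.1 h2.2, ?_⟩
  have := key (u1 + u2) (by rw [mul_add]; exact h3.1) (by rw [mul_add]; exact h3.2)
  rw [mul_add] at this; exact this

/-- A shortest vector is part of a basis. -/
theorem exists_compl (hN : 0 < N) (hg : InL N b d x y) (h0 : x ≠ 0 ∨ y ≠ 0) (hK : 0 < K)
    (hb : Bd x y K) (hE : Emp N b d K) : ∃ z w, InL N b d z w ∧ x * w - y * z = N := by
  set g : ℤ := (Int.gcd x y : ℤ) with hgdef
  have hg0 : 0 < g := by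
    have : 0 < Int.gcd x y := by
      rw [Int.gcd_pos_iff]; exact h0
    exact Int.natCast_pos.2 this
  obtain ⟨u1, hu1⟩ : g ∣ x := Int.gcd_dvd_left x y
  obtain ⟨u2, hu2⟩ : g ∣ y := Int.gcd_dvd_right x y
  have hbez : g = x * Int.gcdA x y + y * Int.gcdB x y := Int.gcd_eq_gcd_ab x y
  set s := -(Int.gcdB x y) with hs
  set t := Int.gcdA x y with ht
  have hdet : u1 * t - u2 * s = 1 := by
    have : g * (u1 * t - u2 * s) = g * 1 := by
      calc g * (u1 * t - u2 * s) = (g * u1) * t + (g * u2) * (-s) := by ring
        _ = x * t + y * Int.gcdB x y := by rw [← hu1, ← hu2, hs, neg_neg]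
        _ = g * 1 := by rw [mul_one]; exact hbez.symm
    exact mul_left_cancel₀ hg0.ne' this
  set A := u1 * d - u2 * b with hA
  set C := s * d - t * b with hC
  set G : ℤ := (Int.gcd N A : ℤ) with hG
  have hG0 : 0 < G := by
    have : 0 < Int.gcd N A := by rw [Int.gcd_pos_iff]; left; exact hN.ne'
    exact Int.natCast_pos.2 this
  have hNg : N ∣ g * A := by
    unfold InL at hg
    have : g * A = x * d - y * b := by
      calc g * A = (g * u1) * d - (g * u2) * b := by rw [hA]; ring
        _ = _ := by rw [← hu1, ← hu2]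
    rw [this]; exact hg
  obtain ⟨N', hN'⟩ : G ∣ N := Int.gcd_dvd_left N A
  obtain ⟨A', hA'⟩ : G ∣ A := Int.gcd_dvd_right N A
  have hN'0 : 0 < N' := by
    by_contra hh
    have : N ≤ 0 := by rw [hN']; nlinarith
    omega
  have hbez2 : G = N * Int.gcdA N A + A * Int.gcdB N A := Int.gcd_eq_gcd_ab N A
  have hcop : IsCoprime N' A' := by
    refine ⟨Int.gcdA N A, Int.gcdB N A, ?_⟩
    have : G * (Int.gcdA N A * N' + Int.gcdB N A * A') = G * 1 := by
      calc G * (Int.gcdA N A * N' + Int.gcdB N A * A')
          = (G * N') * Int.gcdA N A + (G * A') * Int.gcdB N A := by ring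
        _ = N * Int.gcdA N A + A * Int.gcdB N A := by rw [← hN', ← hA']
        _ = G * 1 := by rw [mul_one]; exact hbez2.symm
    exact mul_left_cancel₀ hG0.ne' this
  have hdiv : N' ∣ g := by
    have h1 : N' ∣ g * A' := by
      obtain ⟨q, hq⟩ := hNg
      refine ⟨q, ?_⟩
      have : G * (g * A') = G * (N' * q) := by
        calc G * (g * A') = g * (G * A') := by ring
          _ = g * A := by rw [← hA']
          _ = N * q := hq
          _ = (G * N') * q := by rw [← hN']
          _ = _ := by ring
      exact mul_left_cancel₀ hG0.ne' this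
    exact hcop.dvd_of_dvd_mul_right h1
  have hle : N' ≤ g := Int.le_of_dvd hg0 hdiv
  have hge : ¬ N' < g := by
    intro hlt
    have hin : InL N b d (N' * u1) (N' * u2) := by
      unfold InL
      have : N' * u1 * d - N' * u2 * b = N * A' := by
        calc N' * u1 * d - N' * u2 * b = N' * A := by rw [hA]; ring
          _ = N' * (G * A') := by rw [← hA']
          _ = (G * N') * A' := by ring
          _ = _ := by rw [← hN']
      rw [this]; exact dvd_mul_right _ _
    have hbd : Bd (N' * u1) (N' * u2) (K - 1) :=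
      scale_bd hN'0.le hlt (by rw [← hu1, ← hu2]; exact hb) hK
    have := hE _ _ hin hbd
    have h1 : u1 = 0 := by
      rcases mul_eq_zero.1 this.1 with h | h
      · omega
      · exact h
    have h2 : u2 = 0 := by
      rcases mul_eq_zero.1 this.2 with h | h
      · omega
      · exact h
    rcases h0 with h | h
    · apply h; rw [hu1, h1, mul_zero]
    · apply h; rw [hu2, h2, mul_zero]
  have hgN : g = N' := le_antisymm (not_lt.1 hge) hle
  refine ⟨-(Int.gcdB N A * C) * u1 + G * s, -(Int.gcdB N A * C) * u2 + G * t, ?_, ?_⟩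
  · unfold InL
    have : (-(Int.gcdB N A * C) * u1 + G * s) * d - (-(Int.gcdB N A * C) * u2 + G * t) * b
        = N * (Int.gcdA N A * C) := by
      calc _ = -(Int.gcdB N A * C) * A + G * C := by rw [hA, hC]; ring
        _ = -(Int.gcdB N A * C) * A + (N * Int.gcdA N A + A * Int.gcdB N A) * C := by
            rw [← hbez2]
        _ = _ := by ring
    rw [this]; exact dvd_mul_right _ _
  · calc x * (-(Int.gcdB N A * C) * u2 + G * t) - y * (-(Int.gcdB N A * C) * u1 + G * s)
        = (g * u1) * (-(Int.gcdB N A * C) * u2 + G * t)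
          - (g * u2) * (-(Int.gcdB N A * C) * u1 + G * s) := by rw [← hu1, ← hu2]
      _ = g * G * (u1 * t - u2 * s) := by ring
      _ = N := by rw [hdet, mul_one, hgN, mul_comm]; exact hN'.symm

/-- The quadratic form of a shortest vector is at most `N`. -/
theorem mink_aux (hN : 0 < N) (hg : InL N b d x y) (hy : 0 ≤ y) (hyx : y ≤ x) (hx : 0 < x)
    (hE : Emp N b d (x + y)) : x ^ 2 + x * y + y ^ 2 ≤ N := by
  obtain ⟨z, w, hzw, hdet⟩ := exists_compl hN hg (Or.inl hx.ne') (by omega)
    (by unfold Bd; omega) hE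
  by_contra hlt
  push Not at hlt
  -- translate
  set q := (-y - z) / x with hq
  have hmod : (-y - z) = q * x + (-y - z) % x := (Int.ediv_mul_add_emod _ _).symm
  have hm0 : 0 ≤ (-y - z) % x := Int.emod_nonneg _ hx.ne'
  have hm1 : (-y - z) % x < x := Int.emod_lt_of_pos _ hx
  have hL : InL N b d (z + q * x) (w + q * y) := inL_add hzw (inL_smul q hg)
  have hdet' : x * (w + q * y) - y * (z + q * x) = N := by rw [← hdet]; ring
  generalize hz' : z + q * x = z' at *
  generalize hw' : w + q * y = w' at *
  have hz1 : z' ≤ -y := by nlinarith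
  have hz2 : -(x + y) < z' := by nlinarith
  have hw1 : w' < x + y := by nlinarith
  have hw2 : -(x + y) < w' := by nlinarith
  by_cases hw0 : 0 ≤ w'
  · have := hE z' w' hL (by unfold Bd; omega)
    rw [this.1, this.2] at hdet'
    simp at hdet'; omega
  · push Not at hw0
    have hy0 : 0 < y := by
      rcases hy.lt_or_eq with h | h
      · exact h
      · exfalso
        rw [← h] at hdet'
        nlinarith
    have := hE (z' + x) (w' + y) (inL_add hL hg) (by unfold Bd; omega)
    have h1 : z' = -x := by omega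
    have h2 : w' = -y := by omega
    rw [h1, h2] at hdet'
    have : x * -y - y * -x = 0 := by ring
    omega

theorem mink (hN : 0 < N) (hg : InL N b d x y) (hy : 0 ≤ y) (hx : 0 ≤ x) (h0 : 0 < x + y)
    (hE : Emp N b d (x + y)) : x ^ 2 + x * y + y ^ 2 ≤ N := by
  rcases le_total y x with h | h
  · exact mink_aux hN hg hy h (by omega) hE
  · have := mink_aux hN (inL_swap.2 hg) hx h (by omega)
      (by rw [add_comm]; exact emp_swap.2 hE)
    linarith [mul_comm x y]

/-- Uniqueness of the short vector seen from the neighbouring triangle. -/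
theorem uniq (hv : InL N b d c e) (hc : 0 < c) (he : 0 < e) (hE : Emp N b d (c + e))
    (hz : InL N b d z w) (h0 : z ≠ 0 ∨ w ≠ 0)
    (h1 : -(max c e) ≤ z ∧ z ≤ max c e) (h2 : -(max c e) ≤ w ∧ w ≤ max c e)
    (h3 : -(max c e) ≤ z - w ∧ z - w ≤ max c e) : (z = c ∧ w = e) ∨ (z = -c ∧ w = -e) := by
  have hA := hE z w hz
  have hB := hE (z - c) (w - e) (inL_sub hz hv)
  have hC := hE (z + c) (w + e) (inL_add hz hv)
  unfold Bd at hA hB hC
  omega

/-- The same in the coordinates of the neighbouring triangle. -/
theorem uniq_t (hv : InL N b d x (-y)) (hx : 0 < x) (hy : 0 < y)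
    (hE : Emp N (b - d) d (x + y)) (hz : InL N b d z w) (h0 : z ≠ 0 ∨ w ≠ 0)
    (hb : Bd z w (max x y)) : (z = x ∧ w = -y) ∨ (z = -x ∧ w = y) := by
  have hA := hE (z - w) w (inL_up.2 hz)
  have h2 : InL N b d (z - x) (w + y) := by
    have := inL_sub hz hv; simpa using this
  have h3 : InL N b d (z + x) (w - y) := by
    have := inL_add hz hv; simpa [sub_eq_add_neg] using this
  have hB := hE ((z - x) - (w + y)) (w + y) (inL_up.2 h2)
  have hC := hE ((z + x) - (w - y)) (w - y) (inL_up.2 h3)
  unfold Bd at hA hB hC hb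
  omega

theorem qf_le (hN0 : 0 < N) (hg : InL N b d x (-y)) (hx : 0 < x) (hy : 0 < y)
    (hE : Emp N b d (max x y)) : x ^ 2 - x * y + y ^ 2 ≤ N := by
  rcases le_total y x with h | h
  · have h1 : InL N d (-b - d) y (x - y) := by
      have := inL_neg (inL_rot.2 hg)
      have e1 : -(-x - -y) = x - y := by ring
      rw [neg_neg, e1] at this; exact this
    have h2 : Emp N d (-b - d) (y + (x - y)) := by
      rw [max_eq_left h] at hE
      rw [add_sub_cancel]; exact emp_rot.2 hE
    have := mink hN0 h1 (by omega) hy.le (by omega) h2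
    nlinarith
  · have h1 : InL N (-b - d) b (y - x) x := by
      have := inL_rot'.2 hg
      have e1 : -x - -y = y - x := by ring
      rw [e1] at this; exact this
    have h2 : Emp N (-b - d) b ((y - x) + x) := by
      rw [max_eq_right h] at hE
      rw [sub_add_cancel]; exact emp_rot'.2 hE
    have := mink hN0 h1 hx.le (by omega) (by omega) h2
    nlinarith

theorem max_lt (hN0 : 0 < N) (hg : InL N b d x (-y)) (hx : 0 < x) (hy : 0 < y)
    (hE : Emp N b d (max x y)) : max x y < 2 * N := by
  have h := qf_le hN0 hg hx hy hE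
  rcases le_total y x with h1 | h1
  · rw [max_eq_left h1]
    by_contra hh
    push Not at hh
    nlinarith [sq_nonneg (x - 2 * y)]
  · rw [max_eq_right h1]
    by_contra hh
    push Not at hh
    nlinarith [sq_nonneg (y - 2 * x)]

/-- Shortest vectors of neighbouring triangles lying on different sides form a basis. -/
theorem basis {q : ℕ} (hp : Nat.Prime q) (hq2 : q ≠ 2) {n : ℕ} (hN : N = (q : ℤ) ^ n)
    (hn : 0 < n) (hbd : Pr q b d)
    (hg : InL N b d x (-y)) (hx : 0 < x) (hy : 0 < y) (hE : Emp N b d (max x y))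
    (hh : InL N b d z w) (hz : 0 ≤ z) (hw : 0 ≤ w) (hzw : 0 < z + w)
    (hE' : Emp N (b - d) d (max z w)) : x * w + y * z = N := by
  have hN0 : 0 < N := by
    rw [hN]; exact pow_pos (by exact_mod_cast hp.pos) _
  have hX : x ^ 2 - x * y + y ^ 2 ≤ N := qf_le hN0 hg hx hy hE
  have hZ : z ^ 2 - z * w + w ^ 2 ≤ N := by
    rcases le_total w z with h | h
    · have h1 : InL N (b - d) d (z - w) w := inL_up.2 hh
      have h2 : Emp N (b - d) d ((z - w) + w) := by
        rw [max_eq_left h] at hE'
        rw [sub_add_cancel]; exact hE'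
      have := mink hN0 h1 hw (by omega) (by omega) h2
      nlinarith
    · have h1 : InL N (-(b - d) - d) (b - d) z (w - z) := by
        have := inL_neg (inL_rot'.2 (inL_up.2 hh))
        have e1 : -(-(z - w) - w) = z := by ring
        have e2 : -(z - w) = w - z := by ring
        rw [e1, e2] at this; exact this
      have h2 : Emp N (-(b - d) - d) (b - d) (z + (w - z)) := by
        rw [max_eq_right h] at hE'
        rw [add_sub_cancel]; exact emp_rot'.2 hE'
      have := mink hN0 h1 (by omega) hz (by omega) h2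
      nlinarith
  have hD : N ∣ x * w + y * z := by
    have := dvd_det hp hN hbd hg hh
    have e1 : x * w - -y * z = x * w + y * z := by ring
    rw [e1] at this; exact this
  have hDpos : 0 < x * w + y * z := by
    rcases hz.lt_or_eq with h | h
    · have := mul_nonneg hx.le hw
      have := mul_pos hy h
      omega
    · have hw' : 0 < w := by omega
      have := mul_nonneg hy.le hz
      have := mul_pos hx hw'
      omega
  have hsum : 2 * (x * w + y * z) + (x - w) ^ 2 + (y - z) ^ 2 + (x - y) ^ 2 + (z - w) ^ 2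
      = 2 * (x ^ 2 - x * y + y ^ 2) + 2 * (z ^ 2 - z * w + w ^ 2) := by ring
  obtain ⟨k, hk⟩ := hD
  have hk0 : 0 < k := by
    by_contra hh
    have : x * w + y * z ≤ 0 := by rw [hk]; nlinarith
    omega
  have hk2 : k ≤ 2 := by
    by_contra hh
    push Not at hh
    have h3 : N * 3 ≤ N * k := mul_le_mul_of_nonneg_left (by omega) hN0.le
    have s1 := sq_nonneg (x - w)
    have s2 := sq_nonneg (y - z)
    have s3 := sq_nonneg (x - y)
    have s4 := sq_nonneg (z - w)
    linarith
  have : k = 1 ∨ k = 2 := by omega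
  rcases this with h | h
  · rw [hk, h, mul_one]
  · exfalso
    rw [h] at hk
    have s1 := sq_nonneg (x - w)
    have s2 := sq_nonneg (y - z)
    have s3 := sq_nonneg (x - y)
    have s4 := sq_nonneg (z - w)
    have hs : (x - w) ^ 2 + (y - z) ^ 2 + (x - y) ^ 2 + (z - w) ^ 2 ≤ 0 := by linarith
    have e1 : (x - w) ^ 2 = 0 := le_antisymm (by linarith) s1
    have e3 : (x - y) ^ 2 = 0 := le_antisymm (by linarith) s3
    have e4 : (z - w) ^ 2 = 0 := le_antisymm (by linarith) s4
    have hxw : x = w := by
      have := pow_eq_zero_iff (two_ne_zero) |>.1 e1; omega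
    have hxy : x = y := by
      have := pow_eq_zero_iff (two_ne_zero) |>.1 e3; omega
    have hzw' : z = w := by
      have := pow_eq_zero_iff (two_ne_zero) |>.1 e4; omega
    subst hxy
    subst hzw'
    subst hxw
    -- N = x ^ 2
    have hNx : N = x * x := by nlinarith
    have hpx : (q : ℤ) ∣ x := by
      have : (q : ℤ) ∣ x * x := by
        rw [← hNx, hN]; exact dvd_pow_self _ hn.ne'
      rcases (Nat.prime_iff_prime_int.1 hp).dvd_or_dvd this with h | h <;> exact h
    unfold InL at hg hh
    have a1 : x ∣ b + d := by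
      have : x * x ∣ x * (b + d) := by
        rw [← hNx]
        have e : x * (b + d) = x * d - -x * b := by ring
        rw [e]; exact hg
      exact Int.dvd_of_mul_dvd_mul_left hx.ne' this
    have a2 : x ∣ d - b := by
      have : x * x ∣ x * (d - b) := by
        rw [← hNx]
        have e : x * (d - b) = x * d - x * b := by ring
        rw [e]; exact hh
      exact Int.dvd_of_mul_dvd_mul_left hx.ne' this
    have b1 : (q : ℤ) ∣ 2 * b := by
      have := dvd_sub (hpx.trans a1) (hpx.trans a2)
      have e : b + d - (d - b) = 2 * b := by ring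
      rw [e] at this; exact this
    have b2 : (q : ℤ) ∣ 2 * d := by
      have := dvd_add (hpx.trans a1) (hpx.trans a2)
      have e : b + d + (d - b) = 2 * d := by ring
      rw [e] at this; exact this
    have hq2' : ¬ (q : ℤ) ∣ 2 := by
      intro hh
      have : q ∣ 2 := by exact_mod_cast hh
      have := (Nat.prime_dvd_prime_iff_eq hp Nat.prime_two).1 this
      exact hq2 this
    have hq := Nat.prime_iff_prime_int.1 hp
    exact hbd ⟨(hq.dvd_or_dvd b1).resolve_left hq2', (hq.dvd_or_dvd b2).resolve_left hq2'⟩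

end Pool.Agent.Q252.FA
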