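import Pool.Agent.Q252.FA2

/-!
Classes of triangles, admissible pairs, and the covering theorem.
-/

namespace Pool.Agent.Q252.FA

variable {N b d c e x y z w K a f : ℤ} {q n : ℕ}

/-- The triangle of `(b : d)` is fixed by an element of order 3. -/
def Ell (N b d : ℤ) : Prop := N ∣ b * b + b * d + d * d

/-- Two triangles are equivalent. -/
def Cls (N b d c e : ℤ) : Prop :=
  (∀ x y, InL N b d x y ↔ InL N c e x y) ∨
  (∀ x y, InL N b d x y ↔ InL N c e y (-x - y)) ∨
  (∀ x y, InL N b d x y ↔ InL N c e (-x - y) x)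

theorem cls_refl : Cls N b d b d := Or.inl fun _ _ => Iff.rfl

theorem r1 (x y : ℤ) : -y - (-x - y) = x := by ring
theorem r2 (x y : ℤ) : -(-x - y) - x = y := by ring

theorem cls_symm (h : Cls N b d c e) : Cls N c e b d := by
  rcases h with h | h | h
  · exact Or.inl fun x y => (h x y).symm
  · refine Or.inr (Or.inr fun x y => ?_)
    rw [h, r2]
  · refine Or.inr (Or.inl fun x y => ?_)
    rw [h, r1]

theorem cls_trans (h : Cls N b d c e) (h' : Cls N c e a f) : Cls N b d a f := by
  rcases h with h | h | h <;> rcases h' with h' | h' | h'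
  · exact Or.inl fun x y => by rw [h, h']
  · exact Or.inr (Or.inl fun x y => by rw [h, h'])
  · exact Or.inr (Or.inr fun x y => by rw [h, h'])
  · exact Or.inr (Or.inl fun x y => by rw [h, h'])
  · exact Or.inr (Or.inr fun x y => by rw [h, h', r1])
  · exact Or.inl fun x y => by rw [h, h', r1]
  · exact Or.inr (Or.inr fun x y => by rw [h, h'])
  · exact Or.inl fun x y => by rw [h, h', r2]
  · exact Or.inr (Or.inl fun x y => by rw [h, h', r2])

theorem cls_emp1 (h : Cls N b d c e) (hE : Emp N c e K) : Emp N b d K := by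
  intro x y hl hb
  rcases h with h | h | h
  · exact hE x y ((h x y).1 hl) hb
  · have := hE y (-x - y) ((h x y).1 hl) (by unfold Bd at *; omega)
    omega
  · have := hE (-x - y) x ((h x y).1 hl) (by unfold Bd at *; omega)
    omega

theorem cls_emp (h : Cls N b d c e) : Emp N b d K ↔ Emp N c e K :=
  ⟨cls_emp1 (cls_symm h), cls_emp1 h⟩

theorem cls_rot : Cls N b d d (-b - d) := Or.inr (Or.inl fun _ _ => inL_rot.symm)

theorem cls_rot' : Cls N b d (-b - d) b := Or.inr (Or.inr fun _ _ => inL_rot'.symm)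

theorem cls_neg : Cls N b d (-b) (-d) := Or.inl fun _ _ => inL_negb.symm

theorem ell_inv (hp : Nat.Prime q) (hN : N = (q : ℤ) ^ n) (hbd : Pr q b d) (hE : Ell N b d)
    (h : InL N b d x y) : InL N b d y (-x - y) := by
  have hq : Prime (q : ℤ) := Nat.prime_iff_prime_int.1 hp
  unfold InL Ell at *
  by_cases hb : (q : ℤ) ∣ b
  · have hd : ¬ (q : ℤ) ∣ d := fun hd => hbd ⟨hb, hd⟩
    have hc : IsCoprime N d := by
      rw [hN]; exact ((Prime.coprime_iff_not_dvd hq).2 hd).pow_left
    have : N ∣ d * (y * d - (-x - y) * b) := by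
      have e1 : d * (y * d - (-x - y) * b)
        = y * (b * b + b * d + d * d) + b * (x * d - y * b) := by ring
      rw [e1]; exact dvd_add (hE.mul_left _) (h.mul_left _)
    exact hc.dvd_of_dvd_mul_left this
  · have hc : IsCoprime N b := by
      rw [hN]; exact ((Prime.coprime_iff_not_dvd hq).2 hb).pow_left
    have : N ∣ b * (y * d - (-x - y) * b) := by
      have e1 : b * (y * d - (-x - y) * b)
        = x * (b * b + b * d + d * d) - (b + d) * (x * d - y * b) := by ring
      rw [e1]; exact dvd_sub (hE.mul_left _) (h.mul_left _)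
    exact hc.dvd_of_dvd_mul_left this

theorem ell_of_inv (h : InL N b d d (-b - d)) : Ell N b d := by
  unfold InL Ell at *
  have e1 : b * b + b * d + d * d = d * d - (-b - d) * b := by ring
  rw [e1]; exact h

theorem cls_ell1 (hp : Nat.Prime q) (hN : N = (q : ℤ) ^ n) (hce : Pr q c e)
    (h : Cls N b d c e) (hE : Ell N c e) : Ell N b d := by
  apply ell_of_inv
  rcases h with h | h | h
  · rw [h]; exact ell_inv hp hN hce hE ((h _ _).1 inL_self)
  · rw [h]
    exact ell_inv hp hN hce hE ((h _ _).1 inL_self)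
  · rw [h]
    exact ell_inv hp hN hce hE ((h _ _).1 inL_self) |> fun t => by
      have e1 : -d - (-b - d) = b := by ring
      rw [e1]
      have e2 : -(-b - d) - b = d := by ring
      rw [e2] at t; exact t

theorem pr_rot (h : Pr q b d) : Pr q d (-b - d) := by
  intro hh
  apply h
  refine ⟨?_, hh.1⟩
  have := dvd_add hh.1 hh.2
  have e1 : d + (-b - d) = -b := by ring
  rw [e1, dvd_neg] at this; exact this

theorem pr_rot' (h : Pr q b d) : Pr q (-b - d) b := by
  intro hh
  apply h
  refine ⟨hh.2, ?_⟩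
  have := dvd_add hh.1 hh.2
  have e1 : (-b - d) + b = -d := by ring
  rw [e1, dvd_neg] at this; exact this

theorem pr_neg (h : Pr q b d) : Pr q (-b) (-d) := by
  intro hh; exact h ⟨(dvd_neg).1 hh.1, (dvd_neg).1 hh.2⟩

theorem pr_up (h : Pr q b d) : Pr q (b - d) d := by
  intro hh
  apply h
  refine ⟨?_, hh.2⟩
  have := dvd_add hh.1 hh.2
  rw [sub_add_cancel] at this; exact this

theorem pr_coprime (hp : Nat.Prime q) (h : IsCoprime b d) : Pr q b d := by
  intro hh
  have := h.isUnit_of_dvd' hh.1 hh.2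
  exact (Nat.prime_iff_prime_int.1 hp).not_isUnit this

/-- class equality from a lattice membership -/
theorem cls_of_mem (hp : Nat.Prime q) (hN : N = (q : ℤ) ^ n) (hbd : Pr q b d)
    (hce : Pr q c e) (h : InL N b d c e) : Cls N b d c e :=
  Or.inl fun x y => inL_iff hp hN hbd hce h x y

theorem cls_of_mem_rot (hp : Nat.Prime q) (hN : N = (q : ℤ) ^ n) (hbd : Pr q b d)
    (hce : Pr q c e) (h : InL N b d e (-c - e)) : Cls N b d c e :=
  cls_trans (cls_of_mem hp hN hbd (pr_rot hce) h) (cls_symm cls_rot)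

theorem cls_of_mem_rot' (hp : Nat.Prime q) (hN : N = (q : ℤ) ^ n) (hbd : Pr q b d)
    (hce : Pr q c e) (h : InL N b d (-c - e) c) : Cls N b d c e :=
  cls_trans (cls_of_mem hp hN hbd (pr_rot' hce) h) (cls_symm cls_rot')

/-- The admissible pairs. -/
def Adm (N : ℤ) (q : ℕ) (b d : ℤ) : Prop :=
  Emp N b d (b + d) ∨ ∃ x y, 0 < x ∧ 0 < y ∧ (q : ℤ) ∣ x ∧ (q : ℤ) ∣ y ∧ b * y + d * x = N ∧
    Emp N b d (max x y)

theorem adm_bound (hp : Nat.Prime q) (hq2 : q ≠ 2) (hn : 3 ≤ n) (hN : N = (q : ℤ) ^ n)
    (hb : 0 < b) (hd : 0 < d) (h : Adm N q b d) : b + d ≤ (q : ℤ) ^ (n - 1) := by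
  have hq3 : 3 ≤ q := by
    have := hp.two_le
    omega
  have hq3' : (3 : ℤ) ≤ q := by exact_mod_cast hq3
  have hN0 : 0 < N := by rw [hN]; positivity
  have hpow : N = q * (q : ℤ) ^ (n - 1) := by
    rw [hN, ← pow_succ']; congr 1; omega
  set M : ℤ := (q : ℤ) ^ (n - 1) with hM
  have hM9 : (q : ℤ) ^ 2 ≤ M := by
    rw [hM]; exact pow_le_pow_right₀ (by omega) (by omega)
  rcases h with h | ⟨x, y, hx, hy, hqx, hqy, hbx, -⟩
  · have h1 := mink hN0 (inL_self (N := N) (b := b) (d := d)) hd.le hb.le (by omega) h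
    by_contra hh
    push Not at hh
    have h2 : (b + d) ^ 2 * 3 ≤ 4 * N := by nlinarith [sq_nonneg (b - d)]
    have h3 : M * M < (b + d) ^ 2 := by nlinarith
    have h4 : 3 * (M * M) < 4 * (q * M) := by rw [← hpow]; linarith
    have hMpos : 0 < M := by nlinarith
    have h5 : 3 * M < 4 * q := by
      have : (3 * M) * M < (4 * q) * M := by linarith
      exact lt_of_mul_lt_mul_right this hMpos.le
    nlinarith
  · have hx' : (q : ℤ) ≤ x := Int.le_of_dvd hx hqx
    have hy' : (q : ℤ) ≤ y := Int.le_of_dvd hy hqy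
    have : q * (b + d) ≤ q * M := by
      rw [← hpow, ← hbx]
      nlinarith
    exact le_of_mul_le_mul_left this (by omega)

/-- Valid sets of triangles. -/
structure Valid (N : ℤ) (q : ℕ) (S : Finset (ℤ × ℤ)) : Prop where
  pos : ∀ s ∈ S, 0 < s.1 ∧ 0 < s.2
  cop : ∀ s ∈ S, IsCoprime s.1 s.2
  nell : ∀ s ∈ S, ¬ Ell N s.1 s.2
  adm : ∀ s ∈ S, Adm N q s.1 s.2
  par : ∀ s ∈ S, s = (1, 1) ∨ (s.1 - s.2, s.2) ∈ S ∨ (s.1, s.2 - s.1) ∈ S
  inj : ∀ s ∈ S, ∀ t ∈ S, Cls N s.1 s.2 t.1 t.2 → s = t
  root : ∀ s ∈ S, ¬ Cls N s.1 s.2 1 0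

/-- Maximal valid sets. -/
structure MaxV (N : ℤ) (q : ℕ) (S : Finset (ℤ × ℤ)) : Prop extends Valid N q S where
  max : ∀ b d, Valid N q (insert (b, d) S) → (b, d) ∈ S

theorem exists_max (hp : Nat.Prime q) (hq2 : q ≠ 2) (hn : 3 ≤ n) (hN : N = (q : ℤ) ^ n) :
    ∃ S, MaxV N q S := by
  classical
  set B : ℤ := (q : ℤ) ^ (n - 1)
  have hsub : ∀ S, Valid N q S → S ⊆ Finset.Icc 1 B ×ˢ Finset.Icc 1 B := by
    intro S hS s hs
    have h1 := hS.pos s hs
    have h2 := adm_bound hp hq2 hn hN h1.1 h1.2 (hS.adm s hs)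
    simp only [Finset.mem_product, Finset.mem_Icc]
    omega
  have hne : ((Finset.Icc 1 B ×ˢ Finset.Icc 1 B).powerset.filter (Valid N q)).Nonempty := by
    refine ⟨∅, ?_⟩
    rw [Finset.mem_filter]
    refine ⟨by simp, ?_⟩
    constructor <;> simp
  obtain ⟨S, hS, hmax⟩ := Finset.exists_max_image _ Finset.card hne
  rw [Finset.mem_filter] at hS
  refine ⟨S, hS.2, ?_⟩
  intro b d hv
  by_contra hbd
  have := hmax (insert (b, d) S) (by
    rw [Finset.mem_filter, Finset.mem_powerset]
    exact ⟨hsub _ hv, hv⟩)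
  rw [Finset.card_insert_of_notMem hbd] at this
  omega

/-- The class of `(b : d)` is covered by `S` or by the top triangle. -/
def Cov (N : ℤ) (S : Finset (ℤ × ℤ)) (b d : ℤ) : Prop :=
  Cls N b d 1 0 ∨ ∃ s ∈ S, Cls N b d s.1 s.2

theorem cov_cls {S : Finset (ℤ × ℤ)} (h : Cls N b d c e) (h' : Cov N S c e) : Cov N S b d := by
  rcases h' with h' | ⟨s, hs, h'⟩
  · exact Or.inl (cls_trans h h')
  · exact Or.inr ⟨s, hs, cls_trans h h'⟩

theorem ins {S : Finset (ℤ × ℤ)} (hS : MaxV N q S) (hb : 0 < b) (hd : 0 < d)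
    (hco : IsCoprime b d) (hnl : ¬ Ell N b d) (hadm : Adm N q b d)
    (hpar : (b, d) = (1, 1) ∨ (b - d, d) ∈ S ∨ (b, d - b) ∈ S) : Cov N S b d := by
  by_contra hc
  have hc1 : ¬ Cls N b d 1 0 := fun h => hc (Or.inl h)
  have hc2 : ∀ s ∈ S, ¬ Cls N b d s.1 s.2 := fun s hs h => hc (Or.inr ⟨s, hs, h⟩)
  have hv : Valid N q (insert (b, d) S) := by
    constructor
    · intro s hs
      rcases Finset.mem_insert.1 hs with h | h
      · subst h; exact ⟨hb, hd⟩
      · exact hS.pos s h
    · intro s hs
      rcases Finset.mem_insert.1 hs with h | h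
      · subst h; exact hco
      · exact hS.cop s h
    · intro s hs
      rcases Finset.mem_insert.1 hs with h | h
      · subst h; exact hnl
      · exact hS.nell s h
    · intro s hs
      rcases Finset.mem_insert.1 hs with h | h
      · subst h; exact hadm
      · exact hS.adm s h
    · intro s hs
      rcases Finset.mem_insert.1 hs with h | h
      · subst h
        rcases hpar with h | h | h
        · exact Or.inl h
        · exact Or.inr (Or.inl (Finset.mem_insert_of_mem h))
        · exact Or.inr (Or.inr (Finset.mem_insert_of_mem h))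
      · rcases hS.par s h with h | h | h
        · exact Or.inl h
        · exact Or.inr (Or.inl (Finset.mem_insert_of_mem h))
        · exact Or.inr (Or.inr (Finset.mem_insert_of_mem h))
    · intro s hs t ht hst
      rcases Finset.mem_insert.1 hs with h | h <;> rcases Finset.mem_insert.1 ht with h' | h'
      · rw [h, h']
      · subst h; exact absurd hst (hc2 t h')
      · subst h'; exact absurd (cls_symm hst) (hc2 s h)
      · exact hS.inj s h t h' hst
    · intro s hs
      rcases Finset.mem_insert.1 hs with h | h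
      · subst h; exact hc1
      · exact hS.root s h
  exact hc2 _ (hS.max b d hv) cls_refl

/-- `(c, e)` is, up to sign, the only shortest vector of its lattice. -/
structure UniqS (N : ℤ) (q : ℕ) (c e : ℤ) : Prop where
  c0 : 0 < c
  e0 : 0 < e
  pr : Pr q c e
  emp : Emp N c e (c + e)
  un : ∀ z w, InL N c e z w → (z ≠ 0 ∨ w ≠ 0) → Bd z w (c + e) →
    (z = c ∧ w = e) ∨ (z = -c ∧ w = -e)

theorem up1 (hc : 0 < e) (hec : e < c) (hpr : Pr q c e) (hE : Emp N c e (c + e)) :
    UniqS N q (c - e) e := by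
  have key : ∀ z w, InL N (c - e) e z w → (z ≠ 0 ∨ w ≠ 0) → Bd z w c →
      (z = c - e ∧ w = e) ∨ (z = -(c - e) ∧ w = -e) := by
    intro z w h h0 hb
    have h1 : InL N c e (z + w) w := by
      have := inL_up (N := N) (b := c) (d := e) (x := z + w) (y := w)
      rw [add_sub_cancel_right] at this
      exact this.1 h
    have h2 := uniq (inL_self (N := N) (b := c) (d := e)) (by omega) hc hE h1 (by omega)
      (by unfold Bd at hb; omega) (by unfold Bd at hb; omega) (by unfold Bd at hb; omega)
    omega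
  refine ⟨by omega, hc, pr_up hpr, ?_, ?_⟩
  · intro z w h hb
    by_contra h0
    have := key z w h (by omega) (by unfold Bd at *; omega)
    unfold Bd at hb
    omega
  · intro z w h h0 hb
    exact key z w h h0 (by unfold Bd at *; omega)

theorem pr_swap (h : Pr q b d) : Pr q d b := fun hh => h ⟨hh.2, hh.1⟩

theorem uniqS_swap (h : UniqS N q c e) : UniqS N q e c := by
  refine ⟨h.e0, h.c0, pr_swap h.pr, ?_, ?_⟩
  · rw [add_comm]; exact emp_swap.2 h.emp
  · intro z w hz h0 hb
    have := h.un w z (inL_swap.2 hz) (by omega) (by unfold Bd at *; omega)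
    omega

theorem up2 (hc : 0 < c) (hec : c < e) (hpr : Pr q c e) (hE : Emp N c e (c + e)) :
    UniqS N q c (e - c) :=
  uniqS_swap (up1 hc hec (pr_swap hpr) (by rw [add_comm]; exact emp_swap.2 hE))

theorem uniqS_nell (h : UniqS N q c e) : ¬ Ell N c e := by
  intro hh
  have h1 : InL N c e e (-c - e) := by
    unfold InL Ell at *
    have e1 : e * e - (-c - e) * c = c * c + c * e + e * e := by ring
    rw [e1]; exact hh
  have := h.un e (-c - e) h1 (by have := h.e0; omega)
    (by have := h.e0; have := h.c0; unfold Bd; omega)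
  have := h.e0
  have := h.c0
  omega

theorem uniqS_mem {S : Finset (ℤ × ℤ)} (hS : Valid N q S)
    (h : UniqS N q c e) (hc : Cov N S c e) : (c, e) ∈ S := by
  have hc0 := h.c0
  have he0 := h.e0
  rcases hc with hc | ⟨s, hs, hc⟩
  · exfalso
    have h1 : InL N 1 0 1 0 := inL_self
    have h2 := cls_symm hc
    rcases h2 with h2 | h2 | h2
    · have := h.un 1 0 ((h2 _ _).1 h1) (by omega) (by unfold Bd; omega)
      omega
    · have := h.un 0 (-1 - 0) ((h2 _ _).1 h1) (by omega) (by unfold Bd; omega)
      omega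
    · have := h.un (-1 - 0) 1 ((h2 _ _).1 h1) (by omega) (by unfold Bd; omega)
      omega
  · obtain ⟨b, d⟩ := s
    simp only at hc
    have hpos := hS.pos _ hs
    simp only at hpos
    have hEs : Emp N b d (c + e) := (cls_emp hc).1 h.emp
    -- a shortest vector of the lattice of `s`
    rcases hS.adm _ hs with ha | ⟨x, y, hx, hy, hqx, hqy, hbx, ha⟩
    · simp only at ha
      have hle : b + d ≤ c + e := by
        by_contra hh
        push Not at hh
        have hce := inL_self (N := N) (b := c) (d := e)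
        rcases hc with hc | hc | hc
        · have := ha _ _ ((hc _ _).1 hce) (by unfold Bd; omega)
          omega
        · have := ha _ _ ((hc _ _).1 hce) (by unfold Bd; omega)
          omega
        · have := ha _ _ ((hc _ _).1 hce) (by unfold Bd; omega)
          omega
      have hbd := inL_self (N := N) (b := b) (d := d)
      rcases cls_symm hc with hc | hc | hc
      · have := h.un _ _ ((hc _ _).1 hbd) (by omega) (by unfold Bd; omega)
        have h1 : b = c ∧ d = e := by omega
        rw [← h1.1, ← h1.2]; exact hs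
      · have := h.un _ _ ((hc _ _).1 hbd) (by omega) (by unfold Bd; omega)
        omega
      · have := h.un _ _ ((hc _ _).1 hbd) (by omega) (by unfold Bd; omega)
        omega
    · exfalso
      simp only at hbx ha
      have hle : max x y ≤ c + e := by
        by_contra hh
        push Not at hh
        have hce := inL_self (N := N) (b := c) (d := e)
        rcases hc with hc | hc | hc
        · have := ha _ _ ((hc _ _).1 hce) (by unfold Bd; omega)
          omega
        · have := ha _ _ ((hc _ _).1 hce) (by unfold Bd; omega)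
          omega
        · have := ha _ _ ((hc _ _).1 hce) (by unfold Bd; omega)
          omega
      have hg : InL N b d x (-y) := by
        unfold InL
        have e1 : x * d - -y * b = b * y + d * x := by ring
        rw [e1, hbx]
      apply h.pr
      rcases cls_symm hc with hc | hc | hc
      · have := h.un _ _ ((hc _ _).1 hg) (by omega) (by unfold Bd; omega)
        omega
      · have := h.un _ _ ((hc _ _).1 hg) (by omega) (by unfold Bd; omega)
        rcases this with h1 | h1
        · rw [← h1.1, ← h1.2]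
          exact ⟨(dvd_neg).2 hqy, dvd_sub ((dvd_neg).2 hqx) ((dvd_neg).2 hqy)⟩
        · have e1 : c = y := by omega
          have e2 : e = x - y := by omega
          rw [e1, e2]; exact ⟨hqy, dvd_sub hqx hqy⟩
      · have := h.un _ _ ((hc _ _).1 hg) (by omega) (by unfold Bd; omega)
        rcases this with h1 | h1
        · rw [← h1.1, ← h1.2]
          exact ⟨dvd_sub ((dvd_neg).2 hqx) ((dvd_neg).2 hqy), hqx⟩
        · have e1 : e = -x := by omega
          omega

theorem not_ell_one (hp : Nat.Prime q) (hq2 : q ≠ 2) (hn : 2 ≤ n) (hN : N = (q : ℤ) ^ n) :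
    9 ≤ N := by
  have hq3 : 3 ≤ q := by
    have := hp.two_le
    omega
  have hq3' : (3 : ℤ) ≤ q := by exact_mod_cast hq3
  rw [hN]
  calc (9 : ℤ) = 3 ^ 2 := by norm_num
    _ ≤ (q : ℤ) ^ 2 := by nlinarith
    _ ≤ (q : ℤ) ^ n := pow_le_pow_right₀ (by omega) hn

/-- Good classes are covered. -/
theorem cov_good {S : Finset (ℤ × ℤ)} (hS : MaxV N q S) :
    ∀ k : ℕ, ∀ c e : ℤ, (c + e).toNat = k → 0 < c → 0 < e → Pr q c e → ¬ Ell N c e →
      Emp N c e (c + e) → Cov N S c e := by
  intro k
  induction k using Nat.strong_induction_on with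
  | _ k ih =>
    intro c e hk hc he hpr hnl hE
    rcases lt_trichotomy c e with hlt | heq | hgt
    · have hu := up2 hc hlt hpr hE
      have h1 := ih (c + (e - c)).toNat (by omega) c (e - c) rfl hu.c0 hu.e0 hu.pr
        (uniqS_nell hu) hu.emp
      have h2 := uniqS_mem hS.toValid hu h1
      have h3 := hS.cop _ h2
      refine ins hS hc he ?_ hnl (Or.inl hE) (Or.inr (Or.inr h2))
      have h4 : IsCoprime c (e - c + c * 1) := IsCoprime.add_mul_left_right h3 1
      rw [mul_one, sub_add_cancel] at h4; exact h4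
    · subst heq
      have h1 : InL N c c 1 1 := by unfold InL; simp
      have hc1 : c = 1 := by
        by_contra hh
        have := hE 1 1 h1 (by unfold Bd; omega)
        omega
      subst hc1
      exact ins hS hc he (isCoprime_one_left) hnl (Or.inl hE) (Or.inl rfl)
    · have hu := up1 he hgt hpr hE
      have h1 := ih ((c - e) + e).toNat (by omega) (c - e) e rfl hu.c0 hu.e0 hu.pr
        (uniqS_nell hu) hu.emp
      have h2 := uniqS_mem hS.toValid hu h1
      have h3 := hS.cop _ h2
      refine ins hS hc he ?_ hnl (Or.inl hE) (Or.inr (Or.inl h2))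
      have h4 : IsCoprime (c - e + e * 1) e := IsCoprime.add_mul_left_left h3 1
      rw [mul_one, sub_add_cancel] at h4; exact h4

end Pool.Agent.Q252.FA
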