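import Pool.Agent.Q252.FA3

/-!
The covering theorem: every class which is not elliptic is covered by a maximal valid set.
-/

namespace Pool.Agent.Q252.FA

variable {N b d c e x y z w K a f : ℤ} {q n : ℕ}

theorem exists_short (hN : 0 < N) (b d : ℤ) : ∃ K : ℤ, 0 < K ∧ Emp N b d K ∧
    ∃ x y, InL N b d x y ∧ (x ≠ 0 ∨ y ≠ 0) ∧ Bd x y K := by
  classical
  have hex : ∃ k : ℕ, ∃ x y, InL N b d x y ∧ (x ≠ 0 ∨ y ≠ 0) ∧ Bd x y (k : ℤ) := by
    refine ⟨N.toNat, N, 0, ?_, Or.inl hN.ne', ?_⟩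
    · unfold InL
      rw [zero_mul, sub_zero]; exact dvd_mul_right _ _
    · unfold Bd; omega
  obtain ⟨x, y, h1, h2, h3⟩ := Nat.find_spec hex
  have hpos : 0 < Nat.find hex := by
    by_contra hh
    have h0 : Nat.find hex = 0 := by omega
    rw [h0] at h3
    unfold Bd at h3
    omega
  refine ⟨(Nat.find hex : ℕ), by omega, ?_, x, y, h1, h2, h3⟩
  intro z w hz hb
  by_contra h0
  refine Nat.find_min hex (m := Nat.find hex - 1) (by omega) ⟨z, w, hz, by omega, ?_⟩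
  have : ((Nat.find hex - 1 : ℕ) : ℤ) = (Nat.find hex : ℤ) - 1 := by omega
  rw [this]; exact hb

/-- rotate a nonzero vector to a vector with entries of strictly opposite signs -/
theorem rot_opp (hg : InL N b d x y) (h0 : x ≠ 0 ∨ y ≠ 0) (hb : Bd x y K) (hpr : Pr q b d) :
    ∃ b' d' x' y', Pr q b' d' ∧ Cls N b d b' d' ∧ 0 < x' ∧ 0 < y' ∧ InL N b' d' x' (-y') ∧
      max x' y' ≤ K ∧ (((q : ℤ) ∣ x ∧ (q : ℤ) ∣ y) → (q : ℤ) ∣ x' ∧ (q : ℤ) ∣ y') := by
  have hz : (q : ℤ) ∣ x → (q : ℤ) ∣ y → (q : ℤ) ∣ -x - y := fun h h' =>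
    dvd_sub ((dvd_neg).2 h) h'
  have hz' : (q : ℤ) ∣ x → (q : ℤ) ∣ y → (q : ℤ) ∣ x + y := fun h h' => dvd_add h h'
  unfold Bd at hb
  by_cases h1 : 0 < x ∧ y < 0
  · exact ⟨b, d, x, -y, hpr, cls_refl, h1.1, by omega, by rw [neg_neg]; exact hg, by omega,
      fun h => ⟨h.1, (dvd_neg).2 h.2⟩⟩
  by_cases h2 : x < 0 ∧ 0 < y
  · refine ⟨b, d, -x, y, hpr, cls_refl, by omega, h2.2, inL_neg hg, by omega,
      fun h => ⟨(dvd_neg).2 h.1, h.2⟩⟩
  have hr := inL_rot.2 hg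
  by_cases h3 : 0 < y ∧ -x - y < 0
  · refine ⟨d, -b - d, y, x + y, pr_rot hpr, cls_rot, h3.1, by omega, ?_, by omega,
      fun h => ⟨h.2, hz' h.1 h.2⟩⟩
    have e1 : -(x + y) = -x - y := by ring
    rw [e1]; exact hr
  by_cases h4 : y < 0 ∧ 0 < -x - y
  · refine ⟨d, -b - d, -y, -x - y, pr_rot hpr, cls_rot, by omega, by omega, inL_neg hr,
      by omega, fun h => ⟨(dvd_neg).2 h.2, hz h.1 h.2⟩⟩
  have hr' := inL_rot'.2 hg
  by_cases h5 : 0 < -x - y ∧ x < 0
  · refine ⟨-b - d, b, -x - y, -x, pr_rot' hpr, cls_rot', by omega, by omega, ?_,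
      by omega, fun h => ⟨hz h.1 h.2, (dvd_neg).2 h.1⟩⟩
    rw [neg_neg]; exact hr'
  · refine ⟨-b - d, b, x + y, x, pr_rot' hpr, cls_rot', by omega, by omega, ?_,
      by omega, fun h => ⟨hz' h.1 h.2, h.1⟩⟩
    have := inL_neg hr'
    have e1 : -(-x - y) = x + y := by ring
    rw [e1] at this; exact this

/-- rotate a nonzero vector to a vector with nonnegative entries -/
theorem rot_pos (hg : InL N b d x y) (h0 : x ≠ 0 ∨ y ≠ 0) (hb : Bd x y K) (hpr : Pr q b d) :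
    ∃ b' d' x' y', Pr q b' d' ∧ Cls N b d b' d' ∧ 0 ≤ x' ∧ 0 ≤ y' ∧ 0 < x' + y' ∧
      InL N b' d' x' y' ∧
      x' + y' ≤ K ∧ (((q : ℤ) ∣ x' ∧ (q : ℤ) ∣ y') → (q : ℤ) ∣ x ∧ (q : ℤ) ∣ y) := by
  unfold Bd at hb
  by_cases h1 : 0 ≤ x ∧ 0 ≤ y
  · exact ⟨b, d, x, y, hpr, cls_refl, h1.1, h1.2, by omega, hg, by omega, fun h => h⟩
  by_cases h2 : x ≤ 0 ∧ y ≤ 0
  · refine ⟨b, d, -x, -y, hpr, cls_refl, by omega, by omega, by omega, inL_neg hg, by omega,
      fun h => ⟨(dvd_neg).1 h.1, (dvd_neg).1 h.2⟩⟩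
  have hr := inL_rot.2 hg
  by_cases h3 : 0 ≤ y ∧ 0 ≤ -x - y
  · refine ⟨d, -b - d, y, -x - y, pr_rot hpr, cls_rot, h3.1, h3.2, by omega, hr, by omega,
      fun h => ⟨?_, h.1⟩⟩
    have := dvd_add h.1 h.2
    have e1 : y + (-x - y) = -x := by ring
    rw [e1, dvd_neg] at this; exact this
  by_cases h4 : y ≤ 0 ∧ -x - y ≤ 0
  · refine ⟨d, -b - d, -y, -(-x - y), pr_rot hpr, cls_rot, by omega, by omega, by omega,
      inL_neg hr, by omega, fun h => ⟨?_, (dvd_neg).1 h.1⟩⟩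
    have := dvd_add h.1 h.2
    have e1 : -y + -(-x - y) = x := by ring
    rw [e1] at this; exact this
  have hr' := inL_rot'.2 hg
  by_cases h5 : 0 ≤ -x - y ∧ 0 ≤ x
  · refine ⟨-b - d, b, -x - y, x, pr_rot' hpr, cls_rot', by omega, by omega, by omega,
      hr', by omega, fun h => ⟨h.2, ?_⟩⟩
    have := dvd_add h.1 h.2
    have e1 : -x - y + x = -y := by ring
    rw [e1, dvd_neg] at this; exact this
  · refine ⟨-b - d, b, -(-x - y), -x, pr_rot' hpr, cls_rot', by omega, by omega, by omega,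
      inL_neg hr', by omega, fun h => ⟨(dvd_neg).1 h.2, ?_⟩⟩
    have := dvd_add h.1 h.2
    have e1 : -(-x - y) + -x = y := by ring
    rw [e1] at this; exact this

/-- An elliptic lattice with nonnegative shortest vector. -/
theorem ell_norm (hp : Nat.Prime q) (hN : N = (q : ℤ) ^ n) (hpr : Pr q b d)
    (hell : Ell N b d) (hx : 0 ≤ x) (hy : 0 ≤ y) (h0 : 0 < x + y) (hg : InL N b d x y)
    (hE : Emp N b d (x + y)) : x ^ 2 + x * y + y ^ 2 = N := by
  have hN0 : 0 < N := by rw [hN]; exact pow_pos (by exact_mod_cast hp.pos) _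
  have h1 := mink hN0 hg hy hx h0 hE
  have h2 := ell_inv hp hN hpr hell hg
  have h3 := dvd_det hp hN hpr hg h2
  have e1 : x * (-x - y) - y * y = -(x ^ 2 + x * y + y ^ 2) := by ring
  rw [e1, dvd_neg] at h3
  have h4 : 0 < x ^ 2 + x * y + y ^ 2 := by
    rcases hx.lt_or_eq with h | h
    · have := mul_nonneg hx hy
      have := sq_nonneg y
      have : 0 < x ^ 2 := by positivity
      linarith
    · have : 0 < y := by omega
      have := mul_nonneg hx hy
      have := sq_nonneg x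
      have : 0 < y ^ 2 := by positivity
      linarith
  exact le_antisymm h1 (Int.le_of_dvd h4 h3)

theorem sq_dvd (hp : Nat.Prime q) (hn : 0 < n) (h : a ^ 2 = (q : ℤ) ^ n) : (q : ℤ) ∣ a := by
  have : (q : ℤ) ∣ a ^ 2 := by rw [h]; exact dvd_pow_self _ hn.ne'
  exact (Nat.prime_iff_prime_int.1 hp).dvd_of_dvd_pow this

/-- The neighbour `(b - d, d)` of a bad triangle is not elliptic. -/
theorem ell_absurd (hp : Nat.Prime q) (hN : N = (q : ℤ) ^ n) (hn : 0 < n) (hpr : Pr q b d)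
    (hg : InL N b d x (-y)) (hx : 0 < x) (hy : 0 < y) (hqx : (q : ℤ) ∣ x) (hqy : (q : ℤ) ∣ y)
    (hE : Emp N b d (max x y)) : ¬ Ell N (b - d) d := by
  intro hell
  have hN0 : 0 < N := by rw [hN]; exact pow_pos (by exact_mod_cast hp.pos) _
  have hpr' : Pr q (b - d) d := pr_up hpr
  obtain ⟨K, hK, hEK, z, w, hzw, h0, hb⟩ := exists_short hN0 (b - d) d
  -- find a nonnegative shortest vector using invariance
  have hinv : ∀ {z w}, InL N (b - d) d z w → InL N (b - d) d w (-z - w) := fun h =>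
    ell_inv hp hN hpr' hell h
  have hex : ∃ z w, 0 ≤ z ∧ 0 ≤ w ∧ 0 < z + w ∧ z + w ≤ K ∧ InL N (b - d) d z w := by
    unfold Bd at hb
    have i1 := hinv hzw
    have i2 := hinv i1
    rw [r1] at i2
    by_cases h1 : 0 ≤ z ∧ 0 ≤ w
    · exact ⟨z, w, h1.1, h1.2, by omega, by omega, hzw⟩
    by_cases h2 : z ≤ 0 ∧ w ≤ 0
    · exact ⟨-z, -w, by omega, by omega, by omega, by omega, inL_neg hzw⟩
    by_cases h3 : 0 ≤ w ∧ 0 ≤ -z - w
    · exact ⟨w, -z - w, by omega, by omega, by omega, by omega, i1⟩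
    by_cases h4 : w ≤ 0 ∧ -z - w ≤ 0
    · exact ⟨-w, -(-z - w), by omega, by omega, by omega, by omega, inL_neg i1⟩
    by_cases h5 : 0 ≤ -z - w ∧ 0 ≤ z
    · exact ⟨-z - w, z, by omega, by omega, by omega, by omega, i2⟩
    · exact ⟨-(-z - w), -z, by omega, by omega, by omega, by omega, inL_neg i2⟩
  obtain ⟨z, w, hz, hw, hzw0, hzwK, hL⟩ := hex
  have hE' : Emp N (b - d) d (z + w) := by
    intro u v hu hv
    exact hEK u v hu (by unfold Bd at *; omega)
  have hQ := ell_norm hp hN hpr' hell hz hw hzw0 hL hE'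
  have hL1 := hinv hL
  -- it suffices that both are divisible
  have hdiv : (q : ℤ) ∣ z ∧ (q : ℤ) ∣ w := by
    rcases hz.lt_or_eq with hz1 | hz1
    · rcases hw.lt_or_eq with hw1 | hw1
      · -- strictly positive: rotate to the opposite pattern
        have h1 : InL N b d w (-z) := by
          have h2 := inL_neg (hinv hL1)
          rw [r1] at h2
          have h3 := inL_up (N := N) (b := b) (d := d) (x := w) (y := -z)
          have e1 : w - -z = -(-z - w) := by ring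
          rw [e1] at h3
          exact h3.1 h2
        have hEt : Emp N (b - d) d (w + z) := by rw [add_comm]; exact hE'
        have hmax : max x y ≤ max w z := by
          by_contra hh
          push Not at hh
          have := hE w (-z) h1 (by unfold Bd; omega)
          omega
        have h4 := uniq_t h1 hw1 hz1 hEt hg (by omega) (by unfold Bd; omega)
        have h5 : x = w ∧ y = z := by omega
        rw [← h5.1, ← h5.2]
        exact ⟨hqy, hqx⟩
      · have h1 : z ^ 2 = (q : ℤ) ^ n := by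
          rw [← hN, ← hQ, ← hw1]; ring
        exact ⟨sq_dvd hp hn h1, by rw [← hw1]; exact dvd_zero _⟩
    · have h1 : w ^ 2 = (q : ℤ) ^ n := by
        rw [← hN, ← hQ, ← hz1]; ring
      exact ⟨by rw [← hz1]; exact dvd_zero _, sq_dvd hp hn h1⟩
  refine no_div_basis hN0 hpr' hL (inL_neg hL1) ?_ hdiv.1 hdiv.2 ((dvd_neg).2 hdiv.2)
    ((dvd_neg).2 (dvd_sub ((dvd_neg).2 hdiv.1) hdiv.2))
  rw [← hQ]; ring

end Pool.Agent.Q252.FA
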