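import Pool.Agent.Q252.FA4

/-!
The covering theorem, part two.
-/

namespace Pool.Agent.Q252.FA

variable {N b d c e x y z w K a f : ℤ} {q n : ℕ}

/-- The setting: `(x, -y)` is a shortest vector of `L(b, d)`, divisible by `q`. -/
structure Bad (N : ℤ) (q : ℕ) (b d x y : ℤ) : Prop where
  pr : Pr q b d
  g : InL N b d x (-y)
  x0 : 0 < x
  y0 : 0 < y
  qx : (q : ℤ) ∣ x
  qy : (q : ℤ) ∣ y
  emp : Emp N b d (max x y)

theorem bad_same (hp : Nat.Prime q) (hq2 : q ≠ 2) (hN : N = (q : ℤ) ^ n) (hn : 0 < n)
    (h : Bad N q b d x y) (hh : InL N b d z w) (hz : 0 ≤ z) (hw : 0 ≤ w) (h0 : 0 < z + w)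
    (hqz : (q : ℤ) ∣ z) (hqw : (q : ℤ) ∣ w) (hE : Emp N (b - d) d (max z w)) : False := by
  have hN0 : 0 < N := by rw [hN]; exact pow_pos (by exact_mod_cast hp.pos) _
  have h1 := basis hp hq2 hN hn h.pr h.g h.x0 h.y0 h.emp hh hz hw h0 hE
  refine no_div_basis hN0 h.pr h.g hh ?_ h.qx ((dvd_neg).2 h.qy) hqz hqw
  rw [← h1]; ring

theorem bad_opp (h : Bad N q b d x y) (hh : InL N b d z (-w)) (hz : 0 < z) (hw : 0 < w)
    (hE : Emp N (b - d) d (z + w)) : x = z ∧ y = w := by
  have hx := h.x0
  have hy := h.y0
  have hmax : max x y ≤ max z w := by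
    by_contra hc
    push Not at hc
    have := h.emp z (-w) hh (by unfold Bd; omega)
    omega
  have := uniq_t hh hz hw hE h.g (by omega) (by unfold Bd; omega)
  omega

theorem three_le (hp : Nat.Prime q) (hq2 : q ≠ 2) : (3 : ℤ) ≤ q := by
  have := hp.two_le
  have : 3 ≤ q := by omega
  exact_mod_cast this

theorem cov_prim (hp : Nat.Prime q) (hN : N = (q : ℤ) ^ n) {S : Finset (ℤ × ℤ)}
    (hS : MaxV N q S) (hpr : Pr q b d) (hnl : ¬ Ell N b d) (hE : Emp N b d K)
    (hzw : InL N b d z w) (h0 : z ≠ 0 ∨ w ≠ 0) (hb : Bd z w K)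
    (hnd : ¬ ((q : ℤ) ∣ z ∧ (q : ℤ) ∣ w)) : Cov N S b d := by
  obtain ⟨b', d', x', y', hpr', hcls, hx, hy, hxy, hL, hK, hdiv⟩ := rot_pos hzw h0 hb hpr
  have hprx : Pr q x' y' := fun h => hnd (hdiv h)
  refine cov_cls hcls ?_
  have hc2 : Cls N b' d' x' y' := cls_of_mem hp hN hpr' hprx hL
  refine cov_cls hc2 ?_
  have hcc : Cls N b d x' y' := cls_trans hcls hc2
  have hnl' : ¬ Ell N x' y' := fun h => hnl (cls_ell1 hp hN hprx hcc h)
  have hEx : Emp N x' y' (x' + y') := by
    intro u v hu hv
    exact (cls_emp hcc).1 hE u v hu (by unfold Bd at *; omega)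
  have hone : Pr q 1 0 := pr_coprime hp isCoprime_one_left
  rcases hx.lt_or_eq with h1 | h1
  · rcases hy.lt_or_eq with h2 | h2
    · exact cov_good hS _ x' y' rfl h1 h2 hprx hnl' hEx
    · subst h2
      refine Or.inl (cls_of_mem hp hN hprx hone ?_)
      unfold InL; simp
  · subst h1
    refine Or.inl (cls_of_mem_rot hp hN hprx hone ?_)
    unfold InL; simp

theorem cov_step (hp : Nat.Prime q) (hq2 : q ≠ 2) (hN : N = (q : ℤ) ^ n) (hn : 2 ≤ n)
    {S : Finset (ℤ × ℤ)} (hS : MaxV N q S) (hb : Bad N q b d x y) (hnl : ¬ Ell N b d)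
    (hcov : Cov N S (b - d) d) : Cov N S b d := by
  have hq3 := three_le hp hq2
  have hx0 := hb.x0
  have hy0 := hb.y0
  have hx3 : 3 ≤ x := le_trans hq3 (Int.le_of_dvd hb.x0 hb.qx)
  have hn0 : 0 < n := by omega
  rcases hcov with h | ⟨s, hs, h⟩
  · exfalso
    have h1 : InL N 1 0 1 0 := inL_self
    rcases cls_symm h with h | h | h
    · have h2 := (h _ _).1 h1
      have h3 : InL N b d 1 0 := inL_up.1 (by simpa using h2)
      have := hb.emp _ _ h3 (by unfold Bd; omega)
      omega
    · have h2 := (h _ _).1 h1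
      have h3 : InL N b d (-1) (-1) := inL_up.1 (by simpa using h2)
      have := hb.emp _ _ h3 (by unfold Bd; omega)
      omega
    · have h2 := (h _ _).1 h1
      have h3 : InL N b d 0 1 := inL_up.1 (by simpa using h2)
      have := hb.emp _ _ h3 (by unfold Bd; omega)
      omega
  · obtain ⟨c, e⟩ := s
    simp only at h
    have hpos := hS.pos _ hs
    have hco := hS.cop _ hs
    have hadm := hS.adm _ hs
    simp only at hpos hco hadm
    have hprs : Pr q c e := pr_coprime hp hco
    have hEs : ∀ {K}, Emp N c e K → Emp N (b - d) d K := fun hE => (cls_emp h).2 hE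
    -- finishing moves
    have fin1 : Cls N b d (c + e) e → (c + e) * y + e * x = N → Cov N S b d := by
      intro hc hcert
      refine cov_cls hc ?_
      have hprn : Pr q (c + e) e := by
        have h3 : IsCoprime (c + e * 1) e := IsCoprime.add_mul_left_left hco 1
        rw [mul_one] at h3
        exact pr_coprime hp h3
      refine ins hS (by omega) hpos.2 ?_ (fun hh => hnl (cls_ell1 hp hN hprn hc hh)) ?_ ?_
      · have h3 : IsCoprime (c + e * 1) e := IsCoprime.add_mul_left_left hco 1
        rw [mul_one] at h3; exact h3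
      · exact Or.inr ⟨x, y, hx0, hy0, hb.qx, hb.qy, hcert, (cls_emp hc).1 hb.emp⟩
      · right; left
        rw [add_sub_cancel_right]; exact hs
    have fin3 : Cls N b d c (c + e) → c * y + (c + e) * x = N → Cov N S b d := by
      intro hc hcert
      refine cov_cls hc ?_
      have hcop : IsCoprime c (c + e) := by
        have h3 : IsCoprime c (e + c * 1) := IsCoprime.add_mul_left_right hco 1
        rw [mul_one, add_comm] at h3; exact h3
      refine ins hS hpos.1 (by omega) hcop
        (fun hh => hnl (cls_ell1 hp hN (pr_coprime hp hcop) hc hh)) ?_ ?_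
      · exact Or.inr ⟨x, y, hx0, hy0, hb.qx, hb.qy, hcert, (cls_emp hc).1 hb.emp⟩
      · right; right
        rw [add_sub_cancel_left]; exact hs
    -- membership facts, by alternative
    rcases h with h | h | h
    · -- first alternative
      have hcls : Cls N b d (c + e) e := by
        have hcop : IsCoprime (c + e) e := by
          have h3 : IsCoprime (c + e * 1) e := IsCoprime.add_mul_left_left hco 1
          rw [mul_one] at h3; exact h3
        refine cls_of_mem hp hN hb.pr (pr_coprime hp hcop) ?_
        have h2 := (h _ _).2 (inL_self (N := N) (b := c) (d := e))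
        exact inL_up.1 (by rw [add_sub_cancel_right]; exact h2)
      refine fin1 hcls ?_
      rcases hadm with ha | ⟨x', y', hx', hy', hqx', hqy', hcert, ha⟩
      · have hm : InL N b d (c + e) e := by
          have h2 := (h _ _).2 (inL_self (N := N) (b := c) (d := e))
          exact inL_up.1 (by rw [add_sub_cancel_right]; exact h2)
        have := basis hp hq2 hN hn0 hb.pr hb.g hx0 hy0 hb.emp hm (by omega) hpos.2.le
          (by omega) (by
            rw [max_eq_left (by omega)]; exact hEs ha)
        linarith [mul_comm x e, mul_comm y (c + e)]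
      · have hg' : InL N c e x' (-y') := by
          unfold InL
          have e1 : x' * e - -y' * c = c * y' + e * x' := by ring
          rw [e1, hcert]
        have h2 := (h _ _).2 hg'
        have h3 : InL N b d (x' - y') (-y') := by
          refine inL_up.1 ?_
          have e1 : x' - y' - -y' = x' := by ring
          rw [e1]; exact h2
        rcases lt_or_ge y' x' with hlt | hge
        · have h4 := bad_opp hb h3 (by omega) hy' (by
            rw [sub_add_cancel]
            rw [max_eq_left hlt.le] at ha
            exact hEs ha)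
          rw [h4.1, h4.2, ← hcert]; ring
        · exfalso
          have h5 := inL_neg h3
          rw [neg_neg] at h5
          refine bad_same hp hq2 hN hn0 hb h5 (by omega) hy'.le (by omega)
            ((dvd_neg).2 (dvd_sub hqx' hqy')) hqy' ?_
          have e1 : max (-(x' - y')) y' = max x' y' := by omega
          rw [e1]; exact hEs ha
    · -- second alternative
      exfalso
      rcases hadm with ha | ⟨x', y', hx', hy', hqx', hqy', hcert, ha⟩
      · have h2 : InL N (b - d) d (-c - e) c := by
          rw [h]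
          have e1 : -(-c - e) - c = e := by ring
          rw [e1]; exact inL_self
        have h3 : InL N b d (-e) c := by
          refine inL_up.1 ?_
          have e1 : -e - c = -c - e := by ring
          rw [e1]; exact h2
        have h4 := inL_neg h3
        rw [neg_neg] at h4
        have h5 := bad_opp hb h4 hpos.2 hpos.1 (by rw [add_comm]; exact hEs ha)
        apply hprs
        rw [← h5.1, ← h5.2]; exact ⟨hb.qy, hb.qx⟩
      · have hg' : InL N c e x' (-y') := by
          unfold InL
          have e1 : x' * e - -y' * c = c * y' + e * x' := by ring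
          rw [e1, hcert]
        have h2 : InL N (b - d) d (y' - x') x' := by
          rw [h]
          have e1 : -(y' - x') - x' = -y' := by ring
          rw [e1]; exact hg'
        have h3 : InL N b d y' x' := inL_up.1 h2
        refine bad_same hp hq2 hN hn0 hb h3 hy'.le hx'.le (by omega) hqy' hqx' ?_
        rw [max_comm]; exact hEs ha
    · -- third alternative
      have hcop : IsCoprime c (c + e) := by
        have h3 : IsCoprime c (e + c * 1) := IsCoprime.add_mul_left_right hco 1
        rw [mul_one, add_comm] at h3; exact h3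
      have hm : InL N b d c (c + e) := by
        have h2 : InL N (b - d) d e (-c - e) := by
          rw [h]
          have e1 : -e - (-c - e) = c := by ring
          rw [e1]; exact inL_self
        have h3 : InL N b d (-c) (-c - e) := by
          refine inL_up.1 ?_
          have e1 : -c - (-c - e) = e := by ring
          rw [e1]; exact h2
        have h4 := inL_neg h3
        have e1 : -(-c - e) = c + e := by ring
        rw [neg_neg, e1] at h4; exact h4
      refine fin3 (cls_of_mem hp hN hb.pr (pr_coprime hp hcop) hm) ?_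
      rcases hadm with ha | ⟨x', y', hx', hy', hqx', hqy', hcert, ha⟩
      · have := basis hp hq2 hN hn0 hb.pr hb.g hx0 hy0 hb.emp hm hpos.1.le (by omega)
          (by omega) (by
            rw [max_eq_right (by omega)]; exact hEs ha)
        linarith [mul_comm x (c + e), mul_comm y c]
      · have hg' : InL N c e x' (-y') := by
          unfold InL
          have e1 : x' * e - -y' * c = c * y' + e * x' := by ring
          rw [e1, hcert]
        have h2 : InL N (b - d) d (-y') (y' - x') := by
          rw [h]
          have e1 : - -y' - (y' - x') = x' := by ring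
          rw [e1]; exact hg'
        have h3 : InL N b d (-x') (y' - x') := by
          refine inL_up.1 ?_
          have e1 : -x' - (y' - x') = -y' := by ring
          rw [e1]; exact h2
        have h4 := inL_neg h3
        rw [neg_neg] at h4
        rcases lt_or_ge x' y' with hlt | hge
        · have h5 := bad_opp hb h4 hx' (by omega) (by
            rw [add_sub_cancel]
            rw [max_eq_right hlt.le] at ha
            exact hEs ha)
          rw [h5.1, h5.2, ← hcert]; ring
        · exfalso
          refine bad_same hp hq2 hN hn0 hb h4 hx'.le (by omega) (by omega)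
            hqx' ((dvd_neg).2 (dvd_sub hqy' hqx')) ?_
          have e1 : max x' (-(y' - x')) = max x' y' := by omega
          rw [e1]; exact hEs ha

theorem cov_bad (hp : Nat.Prime q) (hq2 : q ≠ 2) (hN : N = (q : ℤ) ^ n) (hn : 2 ≤ n)
    {S : Finset (ℤ × ℤ)} (hS : MaxV N q S) :
    ∀ k : ℕ, ∀ b d x y : ℤ, (2 * N - max x y).toNat = k → Bad N q b d x y → ¬ Ell N b d →
      Cov N S b d := by
  have hN0 : 0 < N := by rw [hN]; exact pow_pos (by exact_mod_cast hp.pos) _
  have hn0 : 0 < n := by omega
  intro k
  induction k using Nat.strong_induction_on with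
  | _ k ih =>
    intro b d x y hk hb hnl
    have hx0 := hb.x0
    have hy0 := hb.y0
    have hmax := max_lt hN0 hb.g hb.x0 hb.y0 hb.emp
    have hnl' : ¬ Ell N (b - d) d :=
      ell_absurd hp hN hn0 hb.pr hb.g hb.x0 hb.y0 hb.qx hb.qy hb.emp
    have hpr' : Pr q (b - d) d := pr_up hb.pr
    refine cov_step hp hq2 hN hn hS hb hnl ?_
    obtain ⟨K, hK, hEK, z, w, hzw, h0, hbd⟩ := exists_short hN0 (b - d) d
    by_cases hdiv : (q : ℤ) ∣ z ∧ (q : ℤ) ∣ w
    swap
    · exact cov_prim hp hN hS hpr' hnl' hEK hzw h0 hbd hdiv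
    have hm : InL N b d (z + w) w := inL_up.1 (by rw [add_sub_cancel_right]; exact hzw)
    have key : ∀ X Y, InL N b d X (-Y) → 0 < X → 0 < Y → X + Y ≤ K → Cov N S (b - d) d := by
      intro X Y hXY hX hY hle
      have h1 := bad_opp hb hXY hX hY (by
        intro u v hu hv
        exact hEK u v hu (by unfold Bd at *; omega))
      refine ih (2 * N - max (x + y) y).toNat (by omega) (b - d) d (x + y) y rfl ?_ hnl'
      refine ⟨hpr', ?_, by omega, hb.y0, dvd_add hb.qx hb.qy, hb.qy, ?_⟩
      · have h2 := inL_up.2 hb.g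
        rw [sub_neg_eq_add] at h2; exact h2
      · intro u v hu hv
        exact hEK u v hu (by unfold Bd at *; omega)
    unfold Bd at hbd
    by_cases h1 : 0 ≤ z + w ∧ 0 ≤ w
    · exfalso
      refine bad_same hp hq2 hN hn0 hb hm h1.1 h1.2 (by omega)
        (dvd_add hdiv.1 hdiv.2) hdiv.2 ?_
      intro u v hu hv
      exact hEK u v hu (by unfold Bd at *; omega)
    by_cases h2 : z + w ≤ 0 ∧ w ≤ 0
    · exfalso
      refine bad_same hp hq2 hN hn0 hb (inL_neg hm) (by omega) (by omega) (by omega)
        ((dvd_neg).2 (dvd_add hdiv.1 hdiv.2)) ((dvd_neg).2 hdiv.2) ?_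
      intro u v hu hv
      exact hEK u v hu (by unfold Bd at *; omega)
    by_cases h3 : 0 < z + w
    · refine key (z + w) (-w) ?_ h3 (by omega) (by omega)
      rw [neg_neg]; exact hm
    · exact key (-(z + w)) w (inL_neg hm) (by omega) (by omega) (by omega)

/-- The covering theorem. -/
theorem cov_all (hp : Nat.Prime q) (hq2 : q ≠ 2) (hN : N = (q : ℤ) ^ n) (hn : 2 ≤ n)
    {S : Finset (ℤ × ℤ)} (hS : MaxV N q S) (hpr : Pr q b d) (hnl : ¬ Ell N b d) :
    Cov N S b d := by
  have hN0 : 0 < N := by rw [hN]; exact pow_pos (by exact_mod_cast hp.pos) _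
  obtain ⟨K, hK, hEK, z, w, hzw, h0, hbd⟩ := exists_short hN0 b d
  by_cases hdiv : (q : ℤ) ∣ z ∧ (q : ℤ) ∣ w
  swap
  · exact cov_prim hp hN hS hpr hnl hEK hzw h0 hbd hdiv
  obtain ⟨b', d', x', y', hpr', hcls, hx, hy, hL, hK', hdiv'⟩ := rot_opp (q := q) hzw h0 hbd hpr
  refine cov_cls hcls ?_
  have hnl' : ¬ Ell N b' d' := fun h => hnl (cls_ell1 hp hN hpr' hcls h)
  refine cov_bad hp hq2 hN hn hS _ b' d' x' y' rfl ?_ hnl'
  refine ⟨hpr', hL, hx, hy, (hdiv' hdiv).1, (hdiv' hdiv).2, ?_⟩
  intro u v hu hv
  exact (cls_emp hcls).1 hEK u v hu (by unfold Bd at *; omega)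

end Pool.Agent.Q252.FA
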