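import Pool.Agent.Q252.FA5

/-!
The boundary edges of the polygon and their partners.
-/

namespace Pool.Agent.Q252.FA

variable {N b d c e x y z w K a f u v : ℤ} {q n : ℕ} {S : Finset (ℤ × ℤ)}

/-- Edges of the tree spanned by `S`. -/
def Node (S : Finset (ℤ × ℤ)) (b d : ℤ) : Prop :=
  (b, d) = (1, 1) ∨ (∃ u v, (u, v) ∈ S ∧ u + v = b ∧ v = d) ∨
    (∃ u v, (u, v) ∈ S ∧ u = b ∧ u + v = d)

/-- Boundary edges. -/
def Lf (S : Finset (ℤ × ℤ)) (b d : ℤ) : Prop := (b, d) ∉ S ∧ Node S b d

theorem node_of_mem (hS : Valid N q S) (h : (b, d) ∈ S) : Node S b d := by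
  rcases hS.par _ h with h1 | h1 | h1
  · exact Or.inl h1
  · exact Or.inr (Or.inl ⟨b - d, d, h1, by ring, rfl⟩)
  · exact Or.inr (Or.inr ⟨b, d - b, h1, rfl, by ring⟩)

theorem node_pos (hS : Valid N q S) (h : Node S b d) : 0 < b ∧ 0 < d := by
  rcases h with h | ⟨u, v, h, rfl, rfl⟩ | ⟨u, v, h, rfl, rfl⟩
  · rw [Prod.mk.injEq] at h; omega
  · have := hS.pos _ h; simp only at this; omega
  · have := hS.pos _ h; simp only at this; omega

theorem node_cop (hS : Valid N q S) (h : Node S b d) : IsCoprime b d := by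
  rcases h with h | ⟨u, v, h, rfl, rfl⟩ | ⟨u, v, h, rfl, rfl⟩
  · rw [Prod.mk.injEq] at h
    rw [h.1]; exact isCoprime_one_left
  · have h1 := hS.cop _ h
    have h3 : IsCoprime (u + v * 1) v := IsCoprime.add_mul_left_left h1 1
    rw [mul_one] at h3; exact h3
  · have h1 := hS.cop _ h
    have h3 : IsCoprime u (v + u * 1) := IsCoprime.add_mul_left_right h1 1
    rw [mul_one, add_comm] at h3; exact h3

theorem node_pr (hp : Nat.Prime q) (hS : Valid N q S) (h : Node S b d) : Pr q b d :=
  pr_coprime hp (node_cop hS h)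

theorem mem_pr (hp : Nat.Prime q) (hS : Valid N q S) (h : (u, v) ∈ S) : Pr q u v :=
  pr_coprime hp (hS.cop _ h)

theorem pr_one (hp : Nat.Prime q) : Pr q 1 0 := pr_coprime hp isCoprime_one_left

/-- Elements of `S` are not equivalent to the top triangle. -/
theorem mem_not (hp : Nat.Prime q) (hN : N = (q : ℤ) ^ n) (hS : Valid N q S)
    (h : (u, v) ∈ S) : ¬ N ∣ u ∧ ¬ N ∣ v ∧ ¬ N ∣ u + v := by
  have hr := hS.root _ h
  have hpr := mem_pr hp hS h
  simp only at hr
  refine ⟨fun hh => hr ?_, fun hh => hr ?_, fun hh => hr ?_⟩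
  · refine cls_of_mem_rot hp hN hpr (pr_one hp) ?_
    unfold InL
    have e1 : 0 * v - (-1 - 0) * u = u := by ring
    rw [e1]; exact hh
  · refine cls_of_mem hp hN hpr (pr_one hp) ?_
    unfold InL
    have e1 : 1 * v - 0 * u = v := by ring
    rw [e1]; exact hh
  · refine cls_of_mem_rot' hp hN hpr (pr_one hp) ?_
    unfold InL
    have e1 : (-1 - 0) * v - 1 * u = -(u + v) := by ring
    rw [e1, dvd_neg]; exact hh

/-- Different edges of the tree are not equivalent. -/
theorem edge_unique (hp : Nat.Prime q) (hN : N = (q : ℤ) ^ n) (hS : Valid N q S)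
    (h : Node S b d) (h' : Node S c e) (hd : N ∣ b * e - d * c) : (b, d) = (c, e) := by
  rcases h with h | ⟨u, v, h, rfl, rfl⟩ | ⟨u, v, h, rfl, rfl⟩ <;>
  rcases h' with h' | ⟨z, w, h', rfl, rfl⟩ | ⟨z, w, h', rfl, rfl⟩
  · rw [h, h']
  · rw [Prod.mk.injEq] at h
    exfalso
    apply (mem_not hp hN hS h').1
    have e1 : b * w - d * (z + w) = -z := by rw [h.1, h.2]; ring
    rw [e1, dvd_neg] at hd; exact hd
  · rw [Prod.mk.injEq] at h
    exfalso
    apply (mem_not hp hN hS h').2.1
    have e1 : b * (z + w) - d * z = w := by rw [h.1, h.2]; ring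
    rw [e1] at hd; exact hd
  · rw [Prod.mk.injEq] at h'
    exfalso
    apply (mem_not hp hN hS h).1
    have e1 : (u + v) * e - v * c = u := by rw [h'.1, h'.2]; ring
    rw [e1] at hd; exact hd
  · have h1 : Cls N u v z w := by
      refine cls_of_mem hp hN (mem_pr hp hS h) (mem_pr hp hS h') ?_
      unfold InL
      have e1 : z * v - w * u = -((u + v) * w - v * (z + w)) := by ring
      rw [e1, dvd_neg]; exact hd
    have h2 := hS.inj _ h _ h' h1
    rw [Prod.mk.injEq] at h2
    rw [h2.1, h2.2]
  · exfalso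
    have h1 : Cls N u v z w := by
      refine cls_of_mem_rot hp hN (mem_pr hp hS h) (mem_pr hp hS h') ?_
      unfold InL
      have e1 : w * v - (-z - w) * u = (u + v) * (z + w) - v * z := by ring
      rw [e1]; exact hd
    have h2 := hS.inj _ h _ h' h1
    rw [Prod.mk.injEq] at h2
    apply hS.nell _ h
    unfold Ell
    simp only
    rw [← h2.1, ← h2.2] at hd
    have e1 : u * u + u * v + v * v = (u + v) * (u + v) - v * u := by ring
    rw [e1]; exact hd
  · rw [Prod.mk.injEq] at h'
    exfalso
    apply (mem_not hp hN hS h).2.1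
    have e1 : u * e - (u + v) * c = -v := by rw [h'.1, h'.2]; ring
    rw [e1, dvd_neg] at hd; exact hd
  · exfalso
    have h1 : Cls N u v z w := by
      refine cls_of_mem_rot' hp hN (mem_pr hp hS h) (mem_pr hp hS h') ?_
      unfold InL
      have e1 : (-z - w) * v - z * u = u * w - (u + v) * (z + w) := by ring
      rw [e1]; exact hd
    have h2 := hS.inj _ h _ h' h1
    rw [Prod.mk.injEq] at h2
    apply hS.nell _ h
    unfold Ell
    simp only
    rw [← h2.1, ← h2.2] at hd
    have e1 : u * u + u * v + v * v = -(u * v - (u + v) * (u + v)) := by ring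
    rw [e1, dvd_neg]; exact hd
  · have h1 : Cls N u v z w := by
      refine cls_of_mem hp hN (mem_pr hp hS h) (mem_pr hp hS h') ?_
      unfold InL
      have e1 : z * v - w * u = -(u * (z + w) - (u + v) * z) := by ring
      rw [e1, dvd_neg]; exact hd
    have h2 := hS.inj _ h _ h' h1
    rw [Prod.mk.injEq] at h2
    rw [h2.1, h2.2]

/-- An edge of the tree whose opposite edge is an element of `S` does not exist. -/
theorem opp_not_mem (hp : Nat.Prime q) (hN : N = (q : ℤ) ^ n) (hS : Valid N q S)
    (h : Node S b d) (h' : (c, e) ∈ S) (hd : N ∣ b * c + d * e) : False := by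
  rcases h with h | ⟨u, v, h, rfl, rfl⟩ | ⟨u, v, h, rfl, rfl⟩
  · rw [Prod.mk.injEq] at h
    apply (mem_not hp hN hS h').2.2
    rw [h.1, h.2] at hd
    simpa using hd
  · have h1 : Cls N c e u v := by
      refine cls_of_mem_rot hp hN (mem_pr hp hS h') (mem_pr hp hS h) ?_
      unfold InL
      have e1 : v * e - (-u - v) * c = (u + v) * c + v * e := by ring
      rw [e1]; exact hd
    have h2 := hS.inj _ h' _ h h1
    rw [Prod.mk.injEq] at h2
    apply hS.nell _ h
    unfold Ell
    simp only
    rw [h2.1, h2.2] at hd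
    have e1 : u * u + u * v + v * v = (u + v) * u + v * v := by ring
    rw [e1]; exact hd
  · have h1 : Cls N c e u v := by
      refine cls_of_mem_rot' hp hN (mem_pr hp hS h') (mem_pr hp hS h) ?_
      unfold InL
      have e1 : (-u - v) * e - u * c = -(u * c + (u + v) * e) := by ring
      rw [e1, dvd_neg]; exact hd
    have h2 := hS.inj _ h' _ h h1
    rw [Prod.mk.injEq] at h2
    apply hS.nell _ h
    unfold Ell
    simp only
    rw [h2.1, h2.2] at hd
    have e1 : u * u + u * v + v * v = u * u + (u + v) * v := by ring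
    rw [e1]; exact hd

/-- Edges of the tree are not equivalent to an edge of the top triangle (seen from inside),
except the lower one. -/
theorem node_not (hp : Nat.Prime q) (hN : N = (q : ℤ) ^ n) (hN1 : ¬ N ∣ 1) (hS : Valid N q S)
    (h : Node S b d) : ¬ N ∣ b ∧ ¬ N ∣ d := by
  rcases h with h | ⟨u, v, h, rfl, rfl⟩ | ⟨u, v, h, rfl, rfl⟩
  · rw [Prod.mk.injEq] at h
    rw [h.1, h.2]; exact ⟨hN1, hN1⟩
  · have := mem_not hp hN hS h
    exact ⟨this.2.2, this.2.1⟩
  · have := mem_not hp hN hS h
    exact ⟨this.1, this.2.2⟩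

/-- Every boundary edge which is not elliptic has a partner. -/
theorem partner (hp : Nat.Prime q) (hq2 : q ≠ 2) (hN : N = (q : ℤ) ^ n) (hn : 2 ≤ n)
    (hS : MaxV N q S) (h : Lf S b d) (hnl : ¬ Ell N b d) :
    ∃ c e, Lf S c e ∧ N ∣ b * c + d * e := by
  have hV := hS.toValid
  have h9 := not_ell_one hp hq2 hn hN
  have hN1 : ¬ N ∣ 1 := by
    intro hh
    have := Int.le_of_dvd one_pos hh
    omega
  have hpr := node_pr hp hV h.2
  -- candidates
  have cand : ∀ c e, Node S c e → N ∣ b * c + d * e → ∃ c e, Lf S c e ∧ N ∣ b * c + d * e := by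
    intro c e hn hd
    refine ⟨c, e, ⟨fun hh => opp_not_mem hp hN hV h.2 hh hd, hn⟩, hd⟩
  rcases cov_all hp hq2 hN hn hS hpr hnl with hc | ⟨⟨c, e⟩, hs, hc⟩
  · have h1 : InL N 1 0 1 0 := inL_self
    rcases hc with hc | hc | hc
    · exfalso
      have h2 := (hc 1 0).2 h1
      apply (node_not hp hN hN1 hV h.2).2
      unfold InL at h2
      have e1 : 1 * d - 0 * b = d := by ring
      rw [e1] at h2; exact h2
    · have h2 := (hc (-1) 1).2 (by simpa using h1)
      refine cand 1 1 (Or.inl rfl) ?_
      unfold InL at h2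
      have e1 : b * 1 + d * 1 = -(-1 * d - 1 * b) := by ring
      rw [e1, dvd_neg]; exact h2
    · exfalso
      have h2 := (hc 0 (-1)).2 (by
        have := inL_neg h1
        simpa using h1)
      apply (node_not hp hN hN1 hV h.2).1
      unfold InL at h2
      have e1 : 0 * d - -1 * b = b := by ring
      rw [e1] at h2; exact h2
  · simp only at hc
    have h1 := inL_self (N := N) (b := c) (d := e)
    rcases hc with hc | hc | hc
    · exfalso
      have h2 := (hc _ _).2 h1
      have h3 := edge_unique hp hN hV h.2 (node_of_mem hV hs) (by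
        unfold InL at h2
        have e1 : b * e - d * c = -(c * d - e * b) := by ring
        rw [e1, dvd_neg]; exact h2)
      apply h.1
      rw [h3]; exact hs
    · have h2 : InL N b d (-c - e) c := by
        rw [hc, r2]; exact h1
      refine cand c (c + e) (Or.inr (Or.inr ⟨c, e, hs, rfl, rfl⟩)) ?_
      unfold InL at h2
      have e1 : b * c + d * (c + e) = -((-c - e) * d - c * b) := by ring
      rw [e1, dvd_neg]; exact h2
    · have h2 : InL N b d e (-c - e) := by
        rw [hc, r1]; exact h1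
      refine cand (c + e) e (Or.inr (Or.inl ⟨c, e, hs, rfl, rfl⟩)) ?_
      unfold InL at h2
      have e1 : b * (c + e) + d * e = e * d - (-c - e) * b := by ring
      rw [e1]; exact h2

/-- The partner of a boundary edge is not elliptic. -/
theorem partner_nell (hp : Nat.Prime q) (hN : N = (q : ℤ) ^ n) (hN1 : ¬ N ∣ 1)
    (hS : Valid N q S) (h : Node S b d) (h' : Node S c e)
    (hd : N ∣ b * c + d * e) : ¬ Ell N c e := by
  intro hell
  have hprc := node_pr hp hS h'
  rcases h with h | ⟨u, v, h, rfl, rfl⟩ | ⟨u, v, h, rfl, rfl⟩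
  · rw [Prod.mk.injEq] at h
    have h1 : Cls N 1 0 c e := by
      refine cls_symm (cls_of_mem_rot' hp hN hprc (pr_one hp) ?_)
      unfold InL
      have e1 : (-1 - 0) * e - 1 * c = -(b * c + d * e) := by rw [h.1, h.2]; ring
      rw [e1, dvd_neg]; exact hd
    have := cls_ell1 hp hN hprc h1 hell
    unfold Ell at this
    apply hN1; simpa using this
  · have h1 : Cls N c e u v := by
      refine cls_of_mem_rot hp hN hprc (mem_pr hp hS h) ?_
      unfold InL
      have e1 : v * e - (-u - v) * c = (u + v) * c + v * e := by ring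
      rw [e1]; exact hd
    exact hS.nell _ h (cls_ell1 hp hN hprc (cls_symm h1) hell)
  · have h1 : Cls N c e u v := by
      refine cls_of_mem_rot' hp hN hprc (mem_pr hp hS h) ?_
      unfold InL
      have e1 : (-u - v) * e - u * c = -(u * c + (u + v) * e) := by ring
      rw [e1, dvd_neg]; exact hd
    exact hS.nell _ h (cls_ell1 hp hN hprc (cls_symm h1) hell)

/-- Partners are unique. -/
theorem partner_unique (hp : Nat.Prime q) (hN : N = (q : ℤ) ^ n) (hS : Valid N q S)
    (h : Node S b d) (h1 : Node S c e) (hd : N ∣ b * c + d * e)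
    (h2 : Node S u v) (hd2 : N ∣ b * u + d * v) : (c, e) = (u, v) := by
  apply edge_unique hp hN hS h1 h2
  have hpr := node_pr hp hS h
  have m1 : InL N (-d) b c e := by
    unfold InL
    have e1 : c * b - e * -d = b * c + d * e := by ring
    rw [e1]; exact hd
  have m2 : InL N (-d) b u v := by
    unfold InL
    have e1 : u * b - v * -d = b * u + d * v := by ring
    rw [e1]; exact hd2
  have hpr' : Pr q (-d) b := fun hh => hpr ⟨hh.2, (dvd_neg).1 hh.1⟩
  exact dvd_det hp hN hpr' m1 m2 |> fun t => by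
    have e1 : c * v - e * u = c * v - e * u := rfl
    exact t

end Pool.Agent.Q252.FA
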