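import Mathlib

/-!
# Farey symbols

The combinatorial data of the special polygons of Kulkarni whose two vertical sides are
`Re z = 0` and `Re z = 1`: the cusps in `[0, 1]` together with the type of each of the
intervals between consecutive cusps.
-/

namespace Pool.Agent.Q252

open Matrix Matrix.SpecialLinearGroup
open scoped MatrixGroups

/-- `z ↦ z + 1`. -/
def matT : SL(2, ℤ) := ⟨!![1, 1; 0, 1], by simp [Matrix.det_fin_two]⟩

/-- `z ↦ -1 / z`, of order two in `PSL(2, ℤ)`, fixes the point `i` of the line from `0` to
infinity and exchanges the two sides of this line. -/
def matS : SL(2, ℤ) := ⟨!![0, -1; 1, 0], by simp [Matrix.det_fin_two]⟩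

/-- `z ↦ (z - 1) / z`, of order three in `PSL(2, ℤ)`, fixes `exp (i π / 3)` and permutes the
vertices of the Farey triangle `0, 1, ∞`. -/
def matR : SL(2, ℤ) := ⟨!![1, -1; 1, 0], by simp [Matrix.det_fin_two]⟩

/-- A Farey symbol. The cusps in `[0, 1]` are `a i / e i`, `0 ≤ i ≤ m`, from `0 / 1` to `1 / 1`
in increasing order and in lowest terms; consecutive ones are Farey neighbours. The interval
between `a i / e i` and `a (i + 1) / e (i + 1)` has the type `mate i`:
* `none`: the boundary of the polygon consists, over this interval, of two odd edges, from the
  two cusps to the centre of the Farey triangle below the even line joining them;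
* `some i`: the boundary is the even line, paired with itself;
* `some j`, `j ≠ i`: the boundary is the even line, paired with the one of the interval `j`. -/
structure FareySymbol where
  /-- the number of intervals -/
  m : ℕ
  /-- the numerators of the cusps -/
  a : ℕ → ℤ
  /-- the denominators of the cusps -/
  e : ℕ → ℤ
  e_pos : ∀ i ≤ m, 0 < e i
  first : a 0 = 0 ∧ e 0 = 1
  last : a m = 1 ∧ e m = 1
  neighbour : ∀ i < m, a (i + 1) * e i - a i * e (i + 1) = 1
  /-- the types of the intervals -/
  mate : Fin m → Option (Fin m)
  mate_symm : ∀ i j, mate i = some j → mate j = some i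

namespace FareySymbol

/-- The matrix which carries `0, ∞` to the two ends `a i / e i`, `a (i + 1) / e (i + 1)` of an
interval and `1` to their mediant. -/
def edge (F : FareySymbol) (i : Fin F.m) : SL(2, ℤ) :=
  ⟨!![F.a (i + 1), F.a i; F.e (i + 1), F.e i], by
    rw [Matrix.det_fin_two_of]; exact F.neighbour i i.2⟩

/-- The side pairings: the translation pairing the vertical sides, for each odd interval the
rotation of order three about the common vertex of the two odd edges, and for an even interval
`i` with mate `j` the element carrying the edge `i` onto the edge `j` and the polygon to the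
other side of the edge `j`. -/
def sidePairings (F : FareySymbol) : Set SL(2, ℤ) :=
  {g | g = matT ∨ (∃ i, F.mate i = none ∧ g = F.edge i * matR * (F.edge i)⁻¹) ∨
    ∃ i j, F.mate i = some j ∧ g = F.edge j * matS * (F.edge i)⁻¹}

/-- The group generated by the side pairings and `-1`, that is the preimage in `SL(2, ℤ)` of
the subgroup of `PSL(2, ℤ)` generated by the side pairings. -/
def group (F : FareySymbol) : Subgroup SL(2, ℤ) :=
  Subgroup.closure (insert (-1) F.sidePairings)

end FareySymbol

end Pool.Agent.Q252
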