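import Pool.Agent.Q252.FA6
import Pool.Agent.Q252.FareySym

/-!
The edge matrices and the path of boundary edges.
-/

namespace Pool.Agent.Q252.FA

open Matrix Matrix.SpecialLinearGroup
open scoped MatrixGroups

variable {N b d c e x y z w K a f u v : ℤ} {q n : ℕ} {S : Finset (ℤ × ℤ)}

/-- the lower edge of the top triangle -/
def matL : SL(2, ℤ) := ⟨!![1, 0; 1, 1], by simp [Matrix.det_fin_two]⟩

/-- The edge of the Farey tree with denominators `b` (right end) and `d` (left end). -/
def mat (b d : ℤ) : SL(2, ℤ) :=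
  if _h : 0 < b ∧ 0 < d then
    if _h1 : d < b then mat (b - d) d * matL
    else if _h2 : b < d then mat b (d - b) * matT
    else matL
  else matL
termination_by (b + d).toNat
decreasing_by all_goals omega

theorem mat_one : mat 1 1 = matL := by
  rw [mat]; simp

theorem mat_left (hb : 0 < b) (hd : 0 < d) : mat (b + d) d = mat b d * matL := by
  rw [mat, dif_pos (by omega), dif_pos (by omega), add_sub_cancel_right]

theorem mat_right (hb : 0 < b) (hd : 0 < d) : mat b (b + d) = mat b d * matT := by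
  rw [mat, dif_pos (by omega), dif_neg (by omega), dif_pos (by omega), add_sub_cancel_left]

theorem ent (g h : SL(2, ℤ)) (i j : Fin 2) :
    (g * h) i j = g i 0 * h 0 j + g i 1 * h 1 j := by
  rw [Matrix.SpecialLinearGroup.coe_mul, Matrix.mul_apply, Fin.sum_univ_two]

theorem mulL (g : SL(2, ℤ)) : (g * matL) 0 0 = g 0 0 + g 0 1 ∧ (g * matL) 0 1 = g 0 1 ∧
    (g * matL) 1 0 = g 1 0 + g 1 1 ∧ (g * matL) 1 1 = g 1 1 := by
  simp only [ent]; simp [matL]

theorem mulT (g : SL(2, ℤ)) : (g * matT) 0 0 = g 0 0 ∧ (g * matT) 0 1 = g 0 0 + g 0 1 ∧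
    (g * matT) 1 0 = g 1 0 ∧ (g * matT) 1 1 = g 1 0 + g 1 1 := by
  simp only [ent]; simp [matT]

theorem mat_row : ∀ k : ℕ, ∀ b d : ℤ, (b + d).toNat = k → 0 < b → 0 < d → IsCoprime b d →
    mat b d 1 0 = b ∧ mat b d 1 1 = d := by
  intro k
  induction k using Nat.strong_induction_on with
  | _ k ih =>
    intro b d hk hb hd hco
    rcases lt_trichotomy b d with h | h | h
    · have hco' : IsCoprime b (d - b) := by
        have h4 : IsCoprime b (d + b * (-1)) := IsCoprime.add_mul_left_right hco (-1)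
        rw [mul_neg_one, ← sub_eq_add_neg] at h4; exact h4
      have h1 := ih (b + (d - b)).toNat (by omega) b (d - b) rfl hb (by omega) hco'
      have h2 := mat_right (b := b) (d := d - b) hb (by omega)
      rw [add_sub_cancel] at h2
      rw [h2, (mulT _).2.2.1, (mulT _).2.2.2, h1.1, h1.2]
      exact ⟨rfl, by ring⟩
    · subst h
      have h1 : b = 1 := by
        have h2 := isCoprime_self.1 hco
        rcases Int.isUnit_iff.1 h2 with h3 | h3 <;> omega
      subst h1
      rw [mat_one]; simp [matL]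
    · have hco' : IsCoprime (b - d) d := by
        have h4 : IsCoprime (b + d * (-1)) d := IsCoprime.add_mul_left_left hco (-1)
        rw [mul_neg_one, ← sub_eq_add_neg] at h4; exact h4
      have h1 := ih ((b - d) + d).toNat (by omega) (b - d) d rfl (by omega) hd hco'
      have h2 := mat_left (b := b - d) (d := d) (by omega) hd
      rw [sub_add_cancel] at h2
      rw [h2, (mulL _).2.2.1, (mulL _).2.2.2, h1.1, h1.2]
      exact ⟨by ring, rfl⟩

theorem row (hb : 0 < b) (hd : 0 < d) (h : IsCoprime b d) :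
    mat b d 1 0 = b ∧ mat b d 1 1 = d := mat_row _ b d rfl hb hd h

/-- left end of an edge -/
def lft (s : ℤ × ℤ) : ℤ × ℤ := (mat s.1 s.2 0 1, mat s.1 s.2 1 1)

/-- right end of an edge -/
def rgt (s : ℤ × ℤ) : ℤ × ℤ := (mat s.1 s.2 0 0, mat s.1 s.2 1 0)

/-- A list of edges forming a path. -/
def IsPath : ℤ × ℤ → List (ℤ × ℤ) → ℤ × ℤ → Prop
  | u, [], v => u = v
  | u, s :: l, v => lft s = u ∧ IsPath (rgt s) l v

theorem isPath_append {l₁ l₂ : List (ℤ × ℤ)} : ∀ {u v : ℤ × ℤ},
    IsPath u (l₁ ++ l₂) v ↔ ∃ w, IsPath u l₁ w ∧ IsPath w l₂ v := by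
  induction l₁ with
  | nil => intro u v; simp [IsPath]
  | cons s l ih =>
    intro u v
    simp only [List.cons_append, IsPath, ih]
    constructor
    · rintro ⟨h, w, h1, h2⟩; exact ⟨w, ⟨h, h1⟩, h2⟩
    · rintro ⟨w, ⟨h, h1⟩, h2⟩; exact ⟨h, w, h1, h2⟩

theorem lft_left (hb : 0 < b) (hd : 0 < d) : lft (b + d, d) = lft (b, d) := by
  simp only [lft, mat_left hb hd, (mulL _).2.1, (mulL _).2.2.2]

theorem rgt_right (hb : 0 < b) (hd : 0 < d) : rgt (b, b + d) = rgt (b, d) := by
  simp only [rgt, mat_right hb hd, (mulT _).1, (mulT _).2.2.1]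

theorem mid (hb : 0 < b) (hd : 0 < d) : rgt (b + d, d) = lft (b, b + d) := by
  simp only [rgt, lft, mat_right hb hd, mat_left hb hd, (mulT _).2.1, (mulT _).2.2.2,
    (mulL _).1, (mulL _).2.2.1]

/-- The boundary edges of a closed set form a path from `0` to `1`. -/
theorem exists_path : ∀ k : ℕ, ∀ S : Finset (ℤ × ℤ), S.card = k →
    (∀ s ∈ S, 0 < s.1 ∧ 0 < s.2) → (∀ s ∈ S, Node S s.1 s.2) →
    ∃ l : List (ℤ × ℤ), IsPath (0, 1) l (1, 1) ∧ l.Nodup ∧ ∀ b d, (b, d) ∈ l ↔ Lf S b d := by
  classical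
  intro k
  induction k with
  | zero =>
    intro S hS _ _
    rw [Finset.card_eq_zero] at hS
    subst hS
    refine ⟨[(1, 1)], ?_, by simp, ?_⟩
    · simp [IsPath, lft, rgt, mat_one, matL]
    · intro b d; simp [Lf, Node]
  | succ k ih =>
    intro S hS hpos hpar
    have hne : S.Nonempty := by
      rw [← Finset.card_pos]; omega
    obtain ⟨s, hs, hmax⟩ := Finset.exists_max_image S (fun s => s.1 + s.2) hne
    obtain ⟨c, e⟩ := s
    simp only at hmax
    have hce := hpos _ hs
    simp only at hce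
    have hpar' : ∀ t ∈ S, Node (S.erase (c, e)) t.1 t.2 := by
      intro t ht
      have hm := hmax t ht
      rcases hpar t ht with h | ⟨u, v, h, h1, h2⟩ | ⟨u, v, h, h1, h2⟩
      · exact Or.inl h
      · refine Or.inr (Or.inl ⟨u, v, ?_, h1, h2⟩)
        rw [Finset.mem_erase]
        refine ⟨?_, h⟩
        intro heq
        rw [Prod.mk.injEq] at heq
        have := hpos _ h
        simp only at this
        omega
      · refine Or.inr (Or.inr ⟨u, v, ?_, h1, h2⟩)
        rw [Finset.mem_erase]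
        refine ⟨?_, h⟩
        intro heq
        rw [Prod.mk.injEq] at heq
        have := hpos _ h
        simp only at this
        omega
    obtain ⟨l', hpath, hnd, hmem⟩ := ih (S.erase (c, e))
      (by rw [Finset.card_erase_of_mem hs]; omega)
      (fun t ht => hpos t (Finset.mem_of_mem_erase ht))
      (fun t ht => hpar' t (Finset.mem_of_mem_erase ht))
    have hin : (c, e) ∈ l' := by
      rw [hmem]
      exact ⟨by simp, hpar' _ hs⟩
    obtain ⟨l₁, l₂, hl⟩ := List.append_of_mem hin
    have hn1 : (c + e, e) ∉ l' := by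
      intro hh
      rw [hmem] at hh
      rcases hh.2 with h | ⟨u, v, h, h1, h2⟩ | ⟨u, v, h, h1, h2⟩
      · rw [Prod.mk.injEq] at h; omega
      · rw [Finset.mem_erase] at h
        apply h.1
        rw [Prod.mk.injEq]; omega
      · have := hpos _ (Finset.mem_of_mem_erase h)
        simp only at this; omega
    have hn2 : (c, c + e) ∉ l' := by
      intro hh
      rw [hmem] at hh
      rcases hh.2 with h | ⟨u, v, h, h1, h2⟩ | ⟨u, v, h, h1, h2⟩
      · rw [Prod.mk.injEq] at h; omega
      · have := hpos _ (Finset.mem_of_mem_erase h)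
        simp only at this; omega
      · rw [Finset.mem_erase] at h
        apply h.1
        rw [Prod.mk.injEq]; omega
    have hnotS : ∀ u v, c + e < u + v → (u, v) ∉ S := by
      intro u v huv hh
      have := hmax _ hh
      simp only at this; omega
    refine ⟨l₁ ++ (c + e, e) :: (c, c + e) :: l₂, ?_, ?_, ?_⟩
    · rw [hl, isPath_append] at hpath
      obtain ⟨w, hw1, hw2⟩ := hpath
      rw [isPath_append]
      refine ⟨w, hw1, ?_⟩
      simp only [IsPath] at hw2 ⊢
      refine ⟨by rw [lft_left hce.1 hce.2]; exact hw2.1, (mid hce.1 hce.2).symm, ?_⟩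
      rw [rgt_right hce.1 hce.2]; exact hw2.2
    · rw [hl] at hnd hn1 hn2
      rw [List.nodup_middle] at hnd
      rw [List.nodup_middle, List.nodup_cons, List.nodup_middle, List.nodup_cons]
      rw [List.nodup_cons] at hnd
      simp only [List.mem_append, List.mem_cons, not_or] at hn1 hn2 ⊢
      refine ⟨⟨hn1.1, ?_, hn1.2.2⟩, ⟨hn2.1, hn2.2.2⟩, hnd.2⟩
      rw [Prod.mk.injEq]; omega
    · intro b d
      have hold : (b, d) ∈ l₁ ++ (c + e, e) :: (c, c + e) :: l₂ ↔
          (b, d) = (c + e, e) ∨ (b, d) = (c, c + e) ∨ ((b, d) ∈ l₁ ∨ (b, d) ∈ l₂) := by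
        simp only [List.mem_append, List.mem_cons]; tauto
      have hnd' := hnd
      rw [hl, List.nodup_middle, List.nodup_cons] at hnd'
      have hold' : ((b, d) ∈ l₁ ∨ (b, d) ∈ l₂) ↔ ((b, d) ∈ l' ∧ (b, d) ≠ (c, e)) := by
        rw [hl]
        simp only [List.mem_append, List.mem_cons]
        constructor
        · intro h
          refine ⟨by tauto, ?_⟩
          intro heq
          rw [heq] at h
          apply hnd'.1
          rw [List.mem_append]; exact h
        · tauto
      rw [hold, hold', hmem]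
      constructor
      · rintro (h | h | ⟨h, h'⟩)
        · rw [Prod.mk.injEq] at h
          rw [h.1, h.2]
          exact ⟨hnotS _ _ (by omega), Or.inr (Or.inl ⟨c, e, hs, rfl, rfl⟩)⟩
        · rw [Prod.mk.injEq] at h
          rw [h.1, h.2]
          exact ⟨hnotS _ _ (by omega), Or.inr (Or.inr ⟨c, e, hs, rfl, rfl⟩)⟩
        · refine ⟨fun hh => h.1 (Finset.mem_erase.2 ⟨h', hh⟩), ?_⟩
          rcases h.2 with h | ⟨u, v, h, h1, h2⟩ | ⟨u, v, h, h1, h2⟩
          · exact Or.inl h
          · exact Or.inr (Or.inl ⟨u, v, Finset.mem_of_mem_erase h, h1, h2⟩)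
          · exact Or.inr (Or.inr ⟨u, v, Finset.mem_of_mem_erase h, h1, h2⟩)
      · rintro ⟨h, h'⟩
        have hne' : (b, d) ≠ (c, e) := fun heq => h (heq ▸ hs)
        have hne2 : (b, d) ∉ S.erase (c, e) := fun hh => h (Finset.mem_of_mem_erase hh)
        rcases h' with h' | ⟨u, v, h', h1, h2⟩ | ⟨u, v, h', h1, h2⟩
        · exact Or.inr (Or.inr ⟨⟨hne2, Or.inl h'⟩, hne'⟩)
        · by_cases huv : (u, v) = (c, e)
          · left
            rw [Prod.mk.injEq] at huv ⊢
            omega
          · right; right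
            exact ⟨⟨hne2, Or.inr (Or.inl ⟨u, v, Finset.mem_erase.2 ⟨huv, h'⟩, h1, h2⟩)⟩, hne'⟩
        · by_cases huv : (u, v) = (c, e)
          · right; left
            rw [Prod.mk.injEq] at huv ⊢
            omega
          · right; right
            exact ⟨⟨hne2, Or.inr (Or.inr ⟨u, v, Finset.mem_erase.2 ⟨huv, h'⟩, h1, h2⟩)⟩, hne'⟩

end Pool.Agent.Q252.FA
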