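import Pool.Agent.Q252.FA7

/-!
The side pairings generate the group.
-/

namespace Pool.Agent.Q252.FA

open Matrix Matrix.SpecialLinearGroup
open scoped MatrixGroups

variable {N b d c e x y z w K a f u v : ℤ} {q n : ℕ} {S : Finset (ℤ × ℤ)}

theorem idR3 : matR ^ 3 = -1 := by decide

theorem idLS : matL * matS = matR ^ 2 := by decide

theorem idTS : matT * matS = matR := by decide

theorem idRS : matR * matS = -matT := by decide

theorem idR2S : matR ^ 2 * matS = -matL := by decide

theorem idSS : matS * matS = -1 := by decide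

/-- the triangles of the polygon (with the elliptic ones) -/
def Tri (N : ℤ) (S : Finset (ℤ × ℤ)) (g : SL(2, ℤ)) : Prop :=
  g = 1 ∨ (∃ b d, (b, d) ∈ S ∧ g = mat b d) ∨ ∃ b d, Lf S b d ∧ Ell N b d ∧ g = mat b d

/-- the hypotheses on the group -/
structure Hyp (N : ℤ) (S : Finset (ℤ × ℤ)) (H : Subgroup SL(2, ℤ)) : Prop where
  pos : ∀ s ∈ S, 0 < s.1 ∧ 0 < s.2
  par : ∀ s ∈ S, Node S s.1 s.2
  neg : -1 ∈ H
  T : matT ∈ H
  el : ∀ b d, Lf S b d → Ell N b d → mat b d * matR * (mat b d)⁻¹ ∈ H
  fr : ∀ b d, Lf S b d → ¬ Ell N b d → ∃ c e, Lf S c e ∧ mat c e * matS * (mat b d)⁻¹ ∈ H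

/-- the covered part of the group -/
def InX (N : ℤ) (S : Finset (ℤ × ℤ)) (H : Subgroup SL(2, ℤ)) (x : SL(2, ℤ)) : Prop :=
  ∃ h ∈ H, ∃ g, Tri N S g ∧ ∃ r : ℕ, x = h * g * matR ^ r

variable {H : Subgroup SL(2, ℤ)} {g h : SL(2, ℤ)}

theorem x_left (hh : h ∈ H) (hg : InX N S H g) : InX N S H (h * g) := by
  obtain ⟨k, hk, t, ht, r, rfl⟩ := hg
  exact ⟨h * k, H.mul_mem hh hk, t, ht, r, by group⟩

theorem x_neg (hH : Hyp N S H) (hg : InX N S H g) : InX N S H (-g) := by
  have := x_left hH.neg hg
  rwa [neg_one_mul] at this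

theorem x_R (hg : InX N S H g) : InX N S H (g * matR) := by
  obtain ⟨k, hk, t, ht, r, rfl⟩ := hg
  exact ⟨k, hk, t, ht, r + 1, by rw [pow_succ]; group⟩

theorem x_base (hg : Tri N S g) : InX N S H g :=
  ⟨1, H.one_mem, g, hg, 0, by simp⟩

theorem x_up (hH : Hyp N S H) (h : Node S b d) : InX N S H (mat b d * matS) := by
  rcases h with h | ⟨u, v, h, rfl, rfl⟩ | ⟨u, v, h, rfl, rfl⟩
  · rw [Prod.mk.injEq] at h
    rw [h.1, h.2, mat_one, idLS]
    exact ⟨1, H.one_mem, 1, Or.inl rfl, 2, by simp⟩
  · have hp := hH.pos _ h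
    rw [mat_left hp.1 hp.2, mul_assoc, idLS]
    exact ⟨1, H.one_mem, mat u v, Or.inr (Or.inl ⟨u, v, h, rfl⟩), 2, by simp⟩
  · have hp := hH.pos _ h
    rw [mat_right hp.1 hp.2, mul_assoc, idTS]
    exact ⟨1, H.one_mem, mat u v, Or.inr (Or.inl ⟨u, v, h, rfl⟩), 1, by simp⟩

theorem x_down (hH : Hyp N S H) (h : Node S b d) : InX N S H (mat b d) := by
  by_cases h1 : (b, d) ∈ S
  · exact x_base (Or.inr (Or.inl ⟨b, d, h1, rfl⟩))
  by_cases h2 : Ell N b d
  · exact x_base (Or.inr (Or.inr ⟨b, d, ⟨h1, h⟩, h2, rfl⟩))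
  obtain ⟨c, e, hce, hmem⟩ := hH.fr b d ⟨h1, h⟩ h2
  have h3 := x_left (H.inv_mem hmem) (x_up hH hce.2)
  have e1 : (mat c e * matS * (mat b d)⁻¹)⁻¹ * (mat c e * matS) = mat b d := by group
  rwa [e1] at h3

theorem x_S (hH : Hyp N S H) (hg : InX N S H g) : InX N S H (g * matS) := by
  obtain ⟨k, hk, t, ht, r, rfl⟩ := hg
  have key : InX N S H (t * matR ^ r * matS) := by
    rcases ht with ht | ⟨b, d, hbd, ht⟩ | ⟨b, d, hbd, hel, ht⟩
    · subst ht
      induction r using Nat.strong_induction_on with
      | _ r ih =>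
        match r with
        | 0 =>
          have e1 : (1 : SL(2, ℤ)) * matR ^ 0 * matS = matT⁻¹ * (1 * matR) := by
            rw [pow_zero, one_mul, one_mul, one_mul, ← idTS]; group
          rw [e1]
          exact x_left (H.inv_mem hH.T) (x_R (x_base (Or.inl rfl)))
        | 1 =>
          have e1 : (1 : SL(2, ℤ)) * matR ^ 1 * matS = -(matT * 1) := by
            rw [pow_one, one_mul, mul_one, idRS]
          rw [e1]
          exact x_neg hH (x_left hH.T (x_base (Or.inl rfl)))
        | 2 =>
          have e1 : (1 : SL(2, ℤ)) * matR ^ 2 * matS = -(mat 1 1) := by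
            rw [one_mul, idR2S, mat_one]
          rw [e1]
          exact x_neg hH (x_down hH (Or.inl rfl))
        | r + 3 =>
          have e1 : (1 : SL(2, ℤ)) * matR ^ (r + 3) * matS = -(1 * matR ^ r * matS) := by
            rw [pow_add, idR3]; simp
          rw [e1]
          exact x_neg hH (ih r (by omega))
    · subst ht
      have hp := hH.pos _ hbd
      simp only at hp
      induction r using Nat.strong_induction_on with
      | _ r ih =>
        match r with
        | 0 =>
          rw [pow_zero, mul_one]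
          exact x_up hH (hH.par _ hbd)
        | 1 =>
          have e1 : mat b d * matR ^ 1 * matS = -(mat b (b + d)) := by
            rw [pow_one, mul_assoc, idRS, mat_right hp.1 hp.2, mul_neg]
          rw [e1]
          exact x_neg hH (x_down hH (Or.inr (Or.inr ⟨b, d, hbd, rfl, rfl⟩)))
        | 2 =>
          have e1 : mat b d * matR ^ 2 * matS = -(mat (b + d) d) := by
            rw [mul_assoc, idR2S, mat_left hp.1 hp.2, mul_neg]
          rw [e1]
          exact x_neg hH (x_down hH (Or.inr (Or.inl ⟨b, d, hbd, rfl, rfl⟩)))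
        | r + 3 =>
          have e1 : mat b d * matR ^ (r + 3) * matS = -(mat b d * matR ^ r * matS) := by
            rw [pow_add, idR3]; simp
          rw [e1]
          exact x_neg hH (ih r (by omega))
    · subst ht
      have e1 : mat b d * matR ^ r * matS
          = (mat b d * matR * (mat b d)⁻¹) ^ r * (mat b d * matS) := by
        rw [conj_pow]; group
      rw [e1]
      exact x_left (H.pow_mem (hH.el b d hbd hel) r) (x_up hH hbd.2)
  have e1 : k * t * matR ^ r * matS = k * (t * matR ^ r * matS) := by group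
  rw [e1]
  exact x_left hk key

theorem x_all (hH : Hyp N S H) (g : SL(2, ℤ)) : InX N S H g := by
  have hg : g ∈ Subgroup.closure {ModularGroup.S, ModularGroup.T} := by
    rw [SpecialLinearGroup.SL2Z_generators]; exact Subgroup.mem_top g
  have eS : ModularGroup.S = matS := rfl
  have eT : ModularGroup.T = matT := rfl
  have hSinv : matS⁻¹ = -matS := by
    rw [inv_eq_iff_mul_eq_one, mul_neg, idSS, neg_neg]
  have hT : matT = -(matR * matS) := by rw [idRS, neg_neg]
  have hR : matR⁻¹ = -(matR ^ 2) := by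
    rw [inv_eq_iff_mul_eq_one, mul_neg, ← pow_succ', idR3, neg_neg]
  induction hg using Subgroup.closure_induction_right with
  | one => exact x_base (Or.inl rfl)
  | mul_right x hx y hy ih =>
    rcases hy with hy | hy
    · rw [hy, eS]; exact x_S hH ih
    · rw [Set.mem_singleton_iff] at hy
      rw [hy, eT, hT, mul_neg, ← mul_assoc]
      exact x_neg hH (x_S hH (x_R ih))
  | mul_inv_cancel x hx y hy ih =>
    rcases hy with hy | hy
    · rw [hy, eS, hSinv, mul_neg]; exact x_neg hH (x_S hH ih)
    · rw [Set.mem_singleton_iff] at hy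
      have e1 : x * matT⁻¹ = -(x * matS * matR * matR) := by
        have h1 : (-(matR * matS))⁻¹ = -(matS * matR * matR) := by
          rw [inv_eq_iff_mul_eq_one]
          have h2 : -(matR * matS) * -(matS * matR * matR)
              = matR * (matS * matS) * matR * matR := by
            rw [neg_mul_neg]; group
          rw [h2, idSS]
          have h3 : matR * -1 * matR * matR = -(matR ^ 3) := by
            simp [pow_succ]
          rw [h3, idR3, neg_neg]
        rw [hT, h1, mul_neg]; group
      rw [hy, eT, e1]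
      exact x_neg hH (x_R (x_R (x_S hH ih)))

end Pool.Agent.Q252.FA
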