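import Pool.Agent.Q252.FA8

/-!
The Farey symbol with small denominators.
-/

namespace Pool.Agent.Q252.FA

open Matrix Matrix.SpecialLinearGroup
open scoped MatrixGroups

variable {N b d c e x y z w K a f u v : ℤ} {q n : ℕ} {S : Finset (ℤ × ℤ)}
variable {H : Subgroup SL(2, ℤ)} {g h : SL(2, ℤ)}

theorem mem_gamma0 : g ∈ CongruenceSubgroup.Gamma0 (q ^ n) ↔ (q : ℤ) ^ n ∣ g 1 0 := by
  rw [CongruenceSubgroup.Gamma0_mem, ZMod.intCast_zmod_eq_zero_iff_dvd]
  push_cast
  rfl

theorem neg_ent (g : SL(2, ℤ)) (i j : Fin 2) : (-g) i j = -(g i j) := rfl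

theorem inv00 (g : SL(2, ℤ)) : (g⁻¹) 0 0 = g 1 1 := by
  rw [Matrix.SpecialLinearGroup.SL2_inv_expl]; rfl

theorem inv10 (g : SL(2, ℤ)) : (g⁻¹) 1 0 = -(g 1 0) := by
  rw [Matrix.SpecialLinearGroup.SL2_inv_expl]; rfl

theorem conjR (g : SL(2, ℤ)) : (g * matR * g⁻¹) 1 0
    = g 1 0 * g 1 0 + g 1 0 * g 1 1 + g 1 1 * g 1 1 := by
  rw [ent, inv00, inv10, ent, ent]
  simp [matR]; ring

theorem conjS (g h : SL(2, ℤ)) : (g * matS * h⁻¹) 1 0
    = g 1 0 * h 1 0 + g 1 1 * h 1 1 := by
  rw [ent, inv00, inv10, ent, ent]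
  simp [matS]; ring

theorem rot_not (h1 : ¬ N ∣ g 1 0) (h2 : ¬ N ∣ g 1 0 + g 1 1) (h3 : ¬ N ∣ g 1 1) :
    ∀ r : ℕ, ¬ N ∣ (g * matR ^ r) 1 0 := by
  intro r
  induction r using Nat.strong_induction_on with
  | _ r ih =>
    match r with
    | 0 => rw [pow_zero, mul_one]; exact h1
    | 1 =>
      have e1 : (g * matR ^ 1) 1 0 = g 1 0 + g 1 1 := by
        rw [pow_one, ent]; simp [matR]
      rw [e1]; exact h2
    | 2 =>
      have e1 : (g * matR ^ 2) 1 0 = g 1 1 := by
        rw [pow_two, ← mul_assoc, ent, ent g, ent g]; simp [matR]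
      rw [e1]; exact h3
    | r + 3 =>
      have e1 : g * matR ^ (r + 3) = -(g * matR ^ r) := by
        rw [pow_add, idR3]; simp
      rw [e1, neg_ent, dvd_neg]
      exact ih r (by omega)

theorem one_rot (hneg : -1 ∈ H) (hN1 : ¬ N ∣ 1) :
    ∀ r : ℕ, N ∣ (matR ^ r) 1 0 → matR ^ r ∈ H := by
  intro r
  induction r using Nat.strong_induction_on with
  | _ r ih =>
    match r with
    | 0 => intro _; rw [pow_zero]; exact H.one_mem
    | 1 =>
      intro hh
      exfalso
      have e1 : (matR ^ 1) 1 0 = 1 := by rw [pow_one]; rfl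
      rw [e1] at hh; exact hN1 hh
    | 2 =>
      intro hh
      exfalso
      have e1 : (matR ^ 2) 1 0 = 1 := by decide
      rw [e1] at hh; exact hN1 hh
    | r + 3 =>
      intro hh
      have e1 : matR ^ (r + 3) = -(matR ^ r) := by
        rw [pow_add, idR3]; simp
      rw [e1, neg_ent, dvd_neg] at hh
      have := H.mul_mem hneg (ih r (by omega) hh)
      rw [e1]
      rwa [neg_one_mul] at this

theorem ell_not (hp : Nat.Prime q) (hn : 0 < n) (hN : N = (q : ℤ) ^ n) (hpr : Pr q b d)
    (hell : Ell N b d) : ¬ N ∣ b ∧ ¬ N ∣ d ∧ ¬ N ∣ b + d := by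
  have hq : Prime (q : ℤ) := Nat.prime_iff_prime_int.1 hp
  have hqN : (q : ℤ) ∣ N := by rw [hN]; exact dvd_pow_self _ hn.ne'
  unfold Ell at hell
  have h0 := hqN.trans hell
  refine ⟨fun hh => ?_, fun hh => ?_, fun hh => ?_⟩
  · have h1 := hqN.trans hh
    have h2 : (q : ℤ) ∣ d * d := by
      have e1 : d * d = (b * b + b * d + d * d) - b * (b + d) := by ring
      rw [e1]; exact dvd_sub h0 (h1.mul_right _)
    exact hpr ⟨h1, by rcases hq.dvd_or_dvd h2 with h | h <;> exact h⟩
  · have h1 := hqN.trans hh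
    have h2 : (q : ℤ) ∣ b * b := by
      have e1 : b * b = (b * b + b * d + d * d) - d * (b + d) := by ring
      rw [e1]; exact dvd_sub h0 (h1.mul_right _)
    exact hpr ⟨by rcases hq.dvd_or_dvd h2 with h | h <;> exact h, h1⟩
  · have h1 := hqN.trans hh
    have h2 : (q : ℤ) ∣ b * d := by
      have e1 : b * d = (b + d) * (b + d) - (b * b + b * d + d * d) := by ring
      rw [e1]; exact dvd_sub (h1.mul_right _) h0
    rcases hq.dvd_or_dvd h2 with h | h
    · refine hpr ⟨h, ?_⟩
      have := dvd_sub h1 h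
      rwa [add_sub_cancel_left] at this
    · refine hpr ⟨?_, h⟩
      have := dvd_sub h1 h
      rwa [add_sub_cancel_right] at this

theorem gamma_le (hp : Nat.Prime q) (hq2 : q ≠ 2) (hN : N = (q : ℤ) ^ n) (hn : 2 ≤ n)
    (hS : Valid N q S) (hH : Hyp N S H) (hle : H ≤ CongruenceSubgroup.Gamma0 (q ^ n)) :
    CongruenceSubgroup.Gamma0 (q ^ n) ≤ H := by
  have h9 := not_ell_one hp hq2 hn hN
  have hN1 : ¬ N ∣ 1 := by
    intro hh
    have := Int.le_of_dvd one_pos hh
    omega
  intro g hg
  obtain ⟨h, hh, t, ht, r, rfl⟩ := x_all hH g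
  have h1 : t * matR ^ r ∈ CongruenceSubgroup.Gamma0 (q ^ n) := by
    have := (CongruenceSubgroup.Gamma0 (q ^ n)).mul_mem
      ((CongruenceSubgroup.Gamma0 (q ^ n)).inv_mem (hle hh)) hg
    have e1 : h⁻¹ * (h * t * matR ^ r) = t * matR ^ r := by group
    rwa [e1] at this
  rw [mem_gamma0, ← hN] at h1
  have key : t * matR ^ r ∈ H := by
    rcases ht with ht | ⟨b, d, hbd, ht⟩ | ⟨b, d, hbd, hel, ht⟩
    · subst ht
      rw [one_mul] at h1 ⊢
      exact one_rot hH.neg hN1 r h1
    · exfalso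
      subst ht
      have hpos := hS.pos _ hbd
      have hrow := row hpos.1 hpos.2 (hS.cop _ hbd)
      have hnot := mem_not hp hN hS hbd
      simp only at hrow
      exact rot_not (by rw [hrow.1]; exact hnot.1) (by rw [hrow.1, hrow.2]; exact hnot.2.2)
        (by rw [hrow.2]; exact hnot.2.1) r h1
    · exfalso
      subst ht
      have hpos := node_pos hS hbd.2
      have hrow := row hpos.1 hpos.2 (node_cop hS hbd.2)
      have hnot := ell_not hp (by omega) hN (node_pr hp hS hbd.2) hel
      exact rot_not (by rw [hrow.1]; exact hnot.1) (by rw [hrow.1, hrow.2]; exact hnot.2.2)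
        (by rw [hrow.2]; exact hnot.2.1) r h1
  have := H.mul_mem hh key
  rwa [← mul_assoc] at this

/-- the vertices of a path -/
def vert (l : List (ℤ × ℤ)) (v : ℤ × ℤ) (i : ℕ) : ℤ × ℤ :=
  if h : i < l.length then lft l[i] else v

theorem vert_spec {v : ℤ × ℤ} : ∀ {l : List (ℤ × ℤ)} {u : ℤ × ℤ}, IsPath u l v →
    vert l v 0 = u ∧ ∀ i (h : i < l.length), rgt l[i] = vert l v (i + 1) := by
  intro l
  induction l with
  | nil => intro u h; simp only [IsPath] at h; simp [vert, h]
  | cons s l ih =>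
    intro u h
    simp only [IsPath] at h
    obtain ⟨h1, h2⟩ := ih h.2
    refine ⟨by simp [vert, h.1], ?_⟩
    intro i hi
    match i with
    | 0 =>
      simp only [List.getElem_cons_zero]
      rw [← h1]
      simp [vert]
    | i + 1 =>
      simp only [List.getElem_cons_succ]
      rw [h2 i (by simpa using hi)]
      simp [vert]

theorem det_mat (b d : ℤ) : mat b d 0 0 * mat b d 1 1 - mat b d 0 1 * mat b d 1 0 = 1 := by
  have := (mat b d).det_coe
  rwa [Matrix.det_fin_two] at this

theorem main (hp : Nat.Prime q) (hq2 : q ≠ 2) (hn : 3 ≤ n) :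
    ∃ F : FareySymbol, F.group = CongruenceSubgroup.Gamma0 (q ^ n) ∧
      ∀ i ≤ F.m, F.e i ≤ (q : ℤ) ^ (n - 1) := by
  classical
  set N : ℤ := (q : ℤ) ^ n with hN
  have hn2 : 2 ≤ n := by omega
  have h9 := not_ell_one hp hq2 hn2 hN
  have hN1 : ¬ N ∣ 1 := by
    intro hh
    have := Int.le_of_dvd one_pos hh
    omega
  obtain ⟨S, hS⟩ := exists_max hp hq2 hn hN
  have hV := hS.toValid
  obtain ⟨l, hpath, hnd, hmem⟩ := exists_path _ S rfl hV.pos (fun s hs => node_of_mem hV hs)
  obtain ⟨hv0, hv⟩ := vert_spec hpath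
  have hlf : ∀ i (h : i < l.length), Lf S l[i].1 l[i].2 := by
    intro i h
    rw [← hmem]; exact List.getElem_mem h
  have hrow : ∀ i (h : i < l.length), mat l[i].1 l[i].2 1 0 = l[i].1 ∧
      mat l[i].1 l[i].2 1 1 = l[i].2 := by
    intro i h
    have hpos := node_pos hV (hlf i h).2
    exact row hpos.1 hpos.2 (node_cop hV (hlf i h).2)
  have hinj : ∀ i j (h : i < l.length) (h' : j < l.length), l[i] = l[j] → i = j := by
    intro i j h h' heq
    exact (List.Nodup.getElem_inj_iff hnd).1 heq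
  have hget : ∀ c e, Lf S c e → ∃ j, ∃ h : j < l.length, l[j] = (c, e) := by
    intro c e h
    rw [← hmem] at h
    exact List.getElem_of_mem h
  -- the pairing
  let Q : Fin l.length → Fin l.length → Prop := fun i j =>
    ¬ Ell N l[i].1 l[i].2 ∧ N ∣ l[i].1 * l[j].1 + l[i].2 * l[j].2
  let mt : Fin l.length → Option (Fin l.length) := fun i =>
    if h : ∃ j, Q i j then some h.choose else none
  have mt_spec : ∀ i j, mt i = some j → Q i j := by
    intro i j hij
    simp only [mt] at hij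
    split_ifs at hij with h
    rw [Option.some.injEq] at hij
    rw [← hij]; exact h.choose_spec
  have Q_symm : ∀ i j, Q i j → Q j i := by
    intro i j hij
    refine ⟨partner_nell hp hN hN1 hV (hlf i i.2).2 (hlf j j.2).2 hij.2, ?_⟩
    have e1 : l[j].1 * l[i].1 + l[j].2 * l[i].2 = l[i].1 * l[j].1 + l[i].2 * l[j].2 := by ring
    rw [e1]; exact hij.2
  have Q_unique : ∀ i j k, Q i j → Q i k → j = k := by
    intro i j k hij hik
    have := partner_unique hp hN hV (hlf i i.2).2 (hlf j j.2).2 hij.2 (hlf k k.2).2 hik.2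
    exact Fin.ext (hinj j k j.2 k.2 this)
  have Q_exists : ∀ i, ¬ Ell N l[i].1 l[i].2 → ∃ j, Q i j := by
    intro i hi
    obtain ⟨c, e, hce, hd⟩ := partner hp hq2 hN hn2 hS (hlf i i.2) hi
    obtain ⟨j, hj, hj2⟩ := hget c e hce
    refine ⟨⟨j, hj⟩, hi, ?_⟩
    have e1 : l[(⟨j, hj⟩ : Fin l.length)] = (c, e) := hj2
    rw [e1]; exact hd
  have mt_symm : ∀ i j, mt i = some j → mt j = some i := by
    intro i j hij
    have h1 := Q_symm i j (mt_spec i j hij)
    have h2 : ∃ k, Q j k := ⟨i, h1⟩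
    simp only [mt]
    rw [dif_pos h2, Option.some.injEq]
    exact Q_unique j _ _ h2.choose_spec h1
  have mt_none : ∀ i, mt i = none ↔ Ell N l[i].1 l[i].2 := by
    intro i
    constructor
    · intro h
      by_contra hh
      have h2 := Q_exists i hh
      simp only [mt] at h
      rw [dif_pos h2] at h
      cases h
    · intro h
      simp only [mt]
      rw [dif_neg]
      rintro ⟨j, hj⟩
      exact hj.1 h
  -- vertices
  have hvl : ∀ i (h : i < l.length), vert l (1, 1) i = lft l[i] := by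
    intro i h; simp [vert, h]
  have hvm : vert l (1, 1) l.length = (1, 1) := by simp [vert]
  have hden : ∀ i (h : i < l.length), (vert l (1, 1) i).2 = l[i].2 := by
    intro i h
    rw [hvl i h]; exact (hrow i h).2
  let F : FareySymbol :=
    { m := l.length
      a := fun i => (vert l (1, 1) i).1
      e := fun i => (vert l (1, 1) i).2
      e_pos := by
        intro i hi
        rcases hi.lt_or_eq with h | h
        · rw [hden i h]; exact (node_pos hV (hlf i h).2).2
        · rw [h, hvm]; norm_num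
      first := by rw [hv0]; exact ⟨rfl, rfl⟩
      last := by rw [hvm]; exact ⟨rfl, rfl⟩
      neighbour := by
        intro i hi
        rw [← hv i hi, hvl i hi]
        have := det_mat l[i].1 l[i].2
        simp only [rgt, lft]
        linarith
      mate := mt
      mate_symm := mt_symm }
  have hedge : ∀ i : Fin F.m, F.edge i = mat l[i.val].1 l[i.val].2 := by
    intro i
    have h1 := hv i.val i.2
    have h2 := hvl i.val i.2
    ext r s
    fin_cases r <;> fin_cases s
    · change (vert l (1, 1) (i.val + 1)).1 = _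
      rw [← h1]; rfl
    · change (vert l (1, 1) i.val).1 = _
      rw [h2]; rfl
    · change (vert l (1, 1) (i.val + 1)).2 = _
      rw [← h1]; rfl
    · change (vert l (1, 1) i.val).2 = _
      rw [h2]; rfl
  refine ⟨F, ?_, ?_⟩
  · have hle : F.group ≤ CongruenceSubgroup.Gamma0 (q ^ n) := by
      unfold FareySymbol.group
      rw [Subgroup.closure_le]
      intro g hg
      rw [SetLike.mem_coe, mem_gamma0]
      rcases hg with hg | hg | ⟨i, hi, hg⟩ | ⟨i, j, hij, hg⟩
      · rw [hg]
        have e1 : (-1 : SL(2, ℤ)) 1 0 = 0 := by decide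
        rw [e1]; exact dvd_zero _
      · rw [hg]
        have e1 : matT 1 0 = 0 := rfl
        rw [e1]; exact dvd_zero _
      · have h1 : Ell N l[i.val].1 l[i.val].2 := (mt_none i).1 hi
        have hr := hrow i.val i.2
        rw [hg, hedge i, conjR, hr.1, hr.2]
        exact h1
      · have h1 := (mt_spec i j hij).2
        rw [hg, hedge i, hedge j, conjS, (hrow i.val i.2).1, (hrow i.val i.2).2,
          (hrow j.val j.2).1, (hrow j.val j.2).2]
        have e1 : l[j.val].1 * l[i.val].1 + l[j.val].2 * l[i.val].2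
            = l[i].1 * l[j].1 + l[i].2 * l[j].2 := by
          simp only [Fin.getElem_fin]; ring
        rw [e1]; exact h1
    refine le_antisymm hle ?_
    refine gamma_le hp hq2 hN hn2 hV ?_ hle
    refine ⟨hV.pos, fun s hs => node_of_mem hV hs, ?_, ?_, ?_, ?_⟩
    · exact Subgroup.subset_closure (Set.mem_insert _ _)
    · exact Subgroup.subset_closure (Set.mem_insert_of_mem _ (Or.inl rfl))
    · intro b d hbd hel
      obtain ⟨i, hi, hi2⟩ := hget b d hbd
      have hbe : l[i].1 = b ∧ l[i].2 = d := by rw [hi2]; exact ⟨rfl, rfl⟩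
      refine Subgroup.subset_closure (Set.mem_insert_of_mem _ (Or.inr (Or.inl ⟨⟨i, hi⟩, ?_, ?_⟩)))
      · refine (mt_none ⟨i, hi⟩).2 ?_
        change Ell N l[i].1 l[i].2
        rw [hbe.1, hbe.2]; exact hel
      · rw [hedge]
        simp only [hbe.1, hbe.2]
    · intro b d hbd hel
      obtain ⟨i, hi, hi2⟩ := hget b d hbd
      have hbe : l[i].1 = b ∧ l[i].2 = d := by rw [hi2]; exact ⟨rfl, rfl⟩
      have hne : ¬ Ell N l[i].1 l[i].2 := by rw [hbe.1, hbe.2]; exact hel
      have hex : ∃ j, Q ⟨i, hi⟩ j := Q_exists ⟨i, hi⟩ hne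
      refine ⟨l[hex.choose.val].1, l[hex.choose.val].2, hlf _ hex.choose.2, ?_⟩
      refine Subgroup.subset_closure (Set.mem_insert_of_mem _
        (Or.inr (Or.inr ⟨⟨i, hi⟩, hex.choose, ?_, ?_⟩)))
      · change mt ⟨i, hi⟩ = _
        simp only [mt]
        rw [dif_pos hex]
      · rw [hedge, hedge]
        simp only [hbe.1, hbe.2]
  · intro i hi
    change (vert l (1, 1) i).2 ≤ _
    have hB1 : (1 : ℤ) ≤ (q : ℤ) ^ (n - 1) := by
      have : (1 : ℤ) ≤ q := by exact_mod_cast hp.one_lt.le
      exact one_le_pow₀ this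
    rcases hi.lt_or_eq with h | h
    · rw [hden i h]
      rcases (hlf i h).2 with h1 | ⟨u, v, h1, h2, h3⟩ | ⟨u, v, h1, h2, h3⟩
      · rw [Prod.mk.injEq] at h1
        rw [h1.2]; exact hB1
      · have hpos := hV.pos _ h1
        have := adm_bound hp hq2 hn hN hpos.1 hpos.2 (hV.adm _ h1)
        simp only at this hpos
        rw [← h3]; omega
      · have hpos := hV.pos _ h1
        have := adm_bound hp hq2 hn hN hpos.1 hpos.2 (hV.adm _ h1)
        simp only at this hpos
        rw [← h3]; omega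
    · rw [h, hvm]; exact hB1

end Pool.Agent.Q252.FA
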