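import Mathlib

set_option autoImplicit false

/-!
# Exponential sums over pieces of the orbit of `2` modulo a prime
-/

namespace Pool.Agent.Q252.FU

open Finset

variable {P : ℕ} [NeZero P]

/-- the standard additive character -/
noncomputable abbrev ps (x : ZMod P) : ℂ := ZMod.stdAddChar x

lemma ps_norm (x : ZMod P) : ‖ps x‖ = 1 := by
  unfold ps
  rw [ZMod.stdAddChar_apply]
  exact Circle.norm_coe _

lemma ps_ne {x : ZMod P} (hx : x ≠ 0) : ps x ≠ 1 := by
  intro h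
  apply hx
  apply ZMod.injective_stdAddChar
  rw [AddChar.map_zero_eq_one]
  exact h

lemma ps_sum (b : ZMod P) : ∑ x : ZMod P, ps (x * b) = if b = 0 then (P : ℂ) else 0 := by
  have h := AddChar.sum_mulShift b (ZMod.isPrimitive_stdAddChar P)
  rw [ZMod.card] at h
  unfold ps
  rw [h]
  split_ifs <;> simp

/-- the sawtooth Fourier sum -/
noncomputable def hh (y : ZMod P) : ℂ := ∑ a ∈ univ.erase (0 : ZMod P), ps (a * y) / (ps (-a) - 1)

lemma hh_sub (y : ZMod P) : hh (y - 1) - hh y = (if y = 0 then (P : ℂ) else 0) - 1 := by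
  unfold hh
  rw [← Finset.sum_sub_distrib]
  have h1 : ∀ a ∈ univ.erase (0 : ZMod P), ps (a * (y - 1)) / (ps (-a) - 1) -
      ps (a * y) / (ps (-a) - 1) = ps (a * y) := by
    intro a ha
    have ha0 : a ≠ 0 := (Finset.mem_erase.mp ha).1
    have h2 : ps (-a) - 1 ≠ 0 := sub_ne_zero.mpr (ps_ne (neg_ne_zero.mpr ha0))
    have h3 : ps (a * (y - 1)) = ps (a * y) * ps (-a) := by
      unfold ps
      rw [← AddChar.map_add_eq_mul]
      congr 1
      ring
    rw [h3]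
    field_simp
  rw [Finset.sum_congr rfl h1]
  have h4 := ps_sum y
  rw [← Finset.add_sum_erase _ _ (Finset.mem_univ (0 : ZMod P))] at h4
  have h5 : ps ((0 : ZMod P) * y) = 1 := by
    unfold ps; rw [zero_mul, AddChar.map_zero_eq_one]
  rw [h5] at h4
  rw [← h4]
  ring

lemma hh_nat (m : ℕ) (hm : m < P) : hh (m : ZMod P) = hh (0 : ZMod P) + m := by
  induction m with
  | zero => simp
  | succ m ih =>
    have h1 := ih (by omega)
    have h2 := hh_sub ((m + 1 : ℕ) : ZMod P)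
    have h3 : ((m + 1 : ℕ) : ZMod P) ≠ 0 := by
      intro h
      rw [ZMod.natCast_eq_zero_iff] at h
      have := Nat.le_of_dvd (by omega) h
      omega
    rw [if_neg h3] at h2
    have h4 : ((m + 1 : ℕ) : ZMod P) - 1 = (m : ZMod P) := by push_cast; ring
    rw [h4, h1] at h2
    push_cast at h2 ⊢
    linear_combination -h2

lemma hh_sum : ∑ y : ZMod P, hh y = 0 := by
  unfold hh
  rw [Finset.sum_comm]
  apply Finset.sum_eq_zero
  intro a ha
  have ha0 : a ≠ 0 := (Finset.mem_erase.mp ha).1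
  rw [← Finset.sum_div]
  have h1 : ∑ y : ZMod P, ps (a * y) = 0 := by
    have h2 := ps_sum a
    rw [if_neg ha0] at h2
    rw [← h2]
    exact Finset.sum_congr rfl fun y _ => by rw [mul_comm]
  rw [h1, zero_div]

lemma sum_zmod_eq {M : Type*} [AddCommMonoid M] (f : ZMod P → M) :
    ∑ y : ZMod P, f y = ∑ m ∈ range P, f (m : ZMod P) := by
  symm
  refine Finset.sum_bij (fun (m : ℕ) (_ : m ∈ range P) => (m : ZMod P)) ?_ ?_ ?_ ?_
  · intro m _; exact Finset.mem_univ _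
  · intro a ha b hb hab
    rw [Finset.mem_range] at ha hb
    rw [ZMod.natCast_eq_natCast_iff'] at hab
    rwa [Nat.mod_eq_of_lt ha, Nat.mod_eq_of_lt hb] at hab
  · intro y _
    exact ⟨y.val, Finset.mem_range.mpr (ZMod.val_lt y), ZMod.natCast_zmod_val y⟩
  · intro m _; rfl

lemma hh_zero : hh (0 : ZMod P) = -((P : ℂ) - 1) / 2 := by
  have hP : (P : ℂ) ≠ 0 := by exact_mod_cast NeZero.ne P
  have h1 := hh_sum (P := P)
  rw [sum_zmod_eq] at h1
  rw [Finset.sum_congr rfl (fun m hm => hh_nat m (Finset.mem_range.mp hm)),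
    Finset.sum_add_distrib, Finset.sum_const, Finset.card_range, nsmul_eq_mul] at h1
  have h2 : ∑ m ∈ range P, (m : ℂ) = P * (P - 1) / 2 := by
    have h3 := Finset.sum_range_id_mul_two P
    have h4 : ((∑ m ∈ range P, m : ℕ) : ℂ) * 2 = (P : ℂ) * ((P - 1 : ℕ) : ℂ) := by exact_mod_cast h3
    have h5 : ((P - 1 : ℕ) : ℂ) = (P : ℂ) - 1 := by
      rw [Nat.cast_sub (Nat.one_le_iff_ne_zero.mpr (NeZero.ne P))]; simp
    rw [h5] at h4
    push_cast at h4
    linear_combination h4 / 2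
  rw [h2] at h1
  have h3 : (P : ℂ) * (hh (0 : ZMod P) + ((P : ℂ) - 1) / 2) = 0 := by linear_combination h1
  rcases mul_eq_zero.mp h3 with h4 | h4
  · exact absurd h4 hP
  · linear_combination h4

/-- the Fourier expansion of the sawtooth -/
lemma saw (m : ℕ) (hm : m < P) :
    (m : ℂ) - ((P : ℂ) - 1) / 2 = ∑ a ∈ univ.erase (0 : ZMod P), ps (a * (m : ZMod P)) / (ps (-a) - 1) := by
  have h1 := hh_nat m hm
  rw [hh_zero] at h1
  have h2 : hh (m : ZMod P) = ∑ a ∈ univ.erase (0 : ZMod P), ps (a * (m : ZMod P)) / (ps (-a) - 1) := rfl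
  rw [← h2, h1]
  ring

/-- the weights -/
noncomputable def ww (a : ZMod P) : ℝ := 1 / ‖ps (-a) - 1‖

lemma ww_nonneg (a : ZMod P) : 0 ≤ ww a := by unfold ww; positivity

lemma saw_sum {ι : Type*} (s : Finset ι) (y : ι → ℕ) (hy : ∀ i ∈ s, y i < P) :
    |∑ i ∈ s, ((y i : ℝ) - ((P : ℝ) - 1) / 2)| ≤
      ∑ a ∈ univ.erase (0 : ZMod P), ww a * ‖∑ i ∈ s, ps (a * (y i : ZMod P))‖ := by
  have h1 : ((∑ i ∈ s, ((y i : ℝ) - ((P : ℝ) - 1) / 2) : ℝ) : ℂ) =
      ∑ a ∈ univ.erase (0 : ZMod P), (∑ i ∈ s, ps (a * (y i : ZMod P))) / (ps (-a) - 1) := by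
    push_cast
    rw [Finset.sum_congr rfl (fun i hi => saw (y i) (hy i hi)), Finset.sum_comm]
    exact Finset.sum_congr rfl fun a _ => by rw [Finset.sum_div]
  have h2 : |∑ i ∈ s, ((y i : ℝ) - ((P : ℝ) - 1) / 2)| =
      ‖((∑ i ∈ s, ((y i : ℝ) - ((P : ℝ) - 1) / 2) : ℝ) : ℂ)‖ := by
    rw [Complex.norm_real, Real.norm_eq_abs]
  rw [h2, h1]
  refine (norm_sum_le _ _).trans (Finset.sum_le_sum fun a _ => ?_)
  rw [norm_div]
  unfold ww
  rw [div_eq_mul_one_div, mul_comm]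

/-- mean square of a character sum over distinct points -/
lemma msq (S : ℕ) (z : ℕ → ZMod P) (hz : ∀ s < S, ∀ t < S, z s = z t → s = t) :
    ∑ u : ZMod P, ‖∑ s ∈ range S, ps (u * z s)‖ ^ 2 = P * S := by
  have h1 : ∀ u : ZMod P, ((‖∑ s ∈ range S, ps (u * z s)‖ ^ 2 : ℝ) : ℂ) =
      ∑ s ∈ range S, ∑ t ∈ range S, ps (u * (z s - z t)) := by
    intro u
    rw [← Complex.normSq_eq_norm_sq, ← Complex.mul_conj, map_sum, Finset.sum_mul_sum]
    refine Finset.sum_congr rfl fun s _ => Finset.sum_congr rfl fun t _ => ?_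
    have h2 : (starRingEnd ℂ) (ps (u * z t)) = ps (-(u * z t)) := by
      unfold ps
      rw [ZMod.stdAddChar_apply, ZMod.stdAddChar_apply, ← Circle.coe_inv_eq_conj]
      rw [AddChar.map_neg_eq_inv]
    rw [h2]
    unfold ps
    rw [← AddChar.map_add_eq_mul]
    congr 1
    ring
  have h2 : ((∑ u : ZMod P, ‖∑ s ∈ range S, ps (u * z s)‖ ^ 2 : ℝ) : ℂ) = (P : ℂ) * S := by
    rw [Complex.ofReal_sum, Finset.sum_congr rfl (fun u _ => h1 u), Finset.sum_comm]
    have h3 : ∀ s ∈ range S, ∑ u : ZMod P, ∑ t ∈ range S, ps (u * (z s - z t)) = (P : ℂ) := by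
      intro s hs
      rw [Finset.sum_comm]
      rw [Finset.sum_eq_single s]
      · rw [ps_sum, if_pos (sub_self _)]
      · intro t ht hts
        rw [ps_sum, if_neg]
        intro h
        rw [Finset.mem_range] at hs ht
        exact hts (hz s hs t ht (sub_eq_zero.mp h)).symm
      · intro h; exact absurd hs h
    rw [Finset.sum_congr rfl h3, Finset.sum_const, Finset.card_range, nsmul_eq_mul, mul_comm]
  exact_mod_cast h2

lemma ww_coe (m : ℕ) (hm0 : 0 < m) (hm : m < P) :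
    ww (-(m : ZMod P)) ≤ (P : ℝ) / 4 * (1 / (m : ℝ) + 1 / ((P : ℝ) - m)) := by
  have hP : (0 : ℝ) < P := by exact_mod_cast NeZero.pos P
  have hmR : (0 : ℝ) < m := by exact_mod_cast hm0
  have hmP : (m : ℝ) < P := by exact_mod_cast hm
  unfold ww
  rw [neg_neg]
  unfold ps
  have h0 : ((m : ℕ) : ZMod P) = ((m : ℤ) : ZMod P) := by push_cast; rfl
  rw [h0, ZMod.stdAddChar_coe]
  have h1 : (2 * (Real.pi : ℂ) * Complex.I * ((m : ℤ) : ℂ) / (P : ℂ)) =
      Complex.I * ((2 * Real.pi * m / P : ℝ) : ℂ) := by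
    push_cast; ring
  rw [h1, Complex.norm_exp_I_mul_ofReal_sub_one]
  have hpi := Real.pi_pos
  set x : ℝ := Real.pi * m / P with hx
  have h2 : 2 * Real.pi * m / P / 2 = x := by rw [hx]; ring
  rw [h2]
  have hx0 : 0 < x := by rw [hx]; positivity
  have hxpi : x < Real.pi := by
    rw [hx, div_lt_iff₀ hP]
    exact mul_lt_mul_of_pos_left hmP hpi
  have hs : 0 < Real.sin x := Real.sin_pos_of_pos_of_lt_pi hx0 hxpi
  rw [Real.norm_eq_abs, abs_of_pos (by linarith : 0 < 2 * Real.sin x)]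
  rcases le_total x (Real.pi / 2) with h3 | h3
  · have h4 := Real.mul_le_sin hx0.le h3
    have h5 : 2 / Real.pi * x = 2 * m / P := by rw [hx]; field_simp
    rw [h5] at h4
    have h6 : 1 / (2 * Real.sin x) ≤ (P : ℝ) / 4 * (1 / m) := by
      rw [div_le_iff₀ (by linarith)]
      have h7 : (P : ℝ) / 4 * (1 / m) * (2 * (2 * m / P)) = 1 := by field_simp; norm_num
      calc (1 : ℝ) = (P : ℝ) / 4 * (1 / m) * (2 * (2 * m / P)) := h7.symm
        _ ≤ (P : ℝ) / 4 * (1 / m) * (2 * Real.sin x) := by gcongr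
    have h8 : 0 ≤ (P : ℝ) / 4 * (1 / ((P : ℝ) - m)) := by
      have : 0 < (P : ℝ) - m := by linarith
      positivity
    calc 1 / (2 * Real.sin x) ≤ (P : ℝ) / 4 * (1 / m) := h6
      _ ≤ (P : ℝ) / 4 * (1 / m) + (P : ℝ) / 4 * (1 / ((P : ℝ) - m)) := by linarith
      _ = _ := by ring
  · have h4 := Real.mul_le_sin (x := Real.pi - x) (by linarith) (by linarith)
    rw [Real.sin_pi_sub] at h4
    have h5 : 2 / Real.pi * (Real.pi - x) = 2 * (P - m) / P := by rw [hx]; field_simp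
    rw [h5] at h4
    have hpm : 0 < (P : ℝ) - m := by linarith
    have h6 : 1 / (2 * Real.sin x) ≤ (P : ℝ) / 4 * (1 / ((P : ℝ) - m)) := by
      rw [div_le_iff₀ (by linarith)]
      have h7 : (P : ℝ) / 4 * (1 / ((P : ℝ) - m)) * (2 * (2 * (P - m) / P)) = 1 := by
        field_simp; norm_num
      calc (1 : ℝ) = (P : ℝ) / 4 * (1 / ((P : ℝ) - m)) * (2 * (2 * (P - m) / P)) := h7.symm
        _ ≤ (P : ℝ) / 4 * (1 / ((P : ℝ) - m)) * (2 * Real.sin x) := by gcongr
    have h8 : 0 ≤ (P : ℝ) / 4 * (1 / (m : ℝ)) := by positivity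
    calc 1 / (2 * Real.sin x) ≤ (P : ℝ) / 4 * (1 / ((P : ℝ) - m)) := h6
      _ ≤ (P : ℝ) / 4 * (1 / m) + (P : ℝ) / 4 * (1 / ((P : ℝ) - m)) := by linarith
      _ = _ := by ring

lemma ww_sum : ∑ a ∈ univ.erase (0 : ZMod P), ww a ≤ (P : ℝ) / 2 * (1 + Real.log P) := by
  have hP1 : 1 ≤ P := NeZero.pos P
  have hP : (0 : ℝ) < P := by exact_mod_cast NeZero.pos P
  have h1 : ∑ a ∈ univ.erase (0 : ZMod P), ww a = ∑ m ∈ Ico 1 P, ww (-(m : ZMod P)) := by
    symm
    refine Finset.sum_bij (fun (m : ℕ) (_ : m ∈ Ico 1 P) => -(m : ZMod P)) ?_ ?_ ?_ ?_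
    · intro m hm
      rw [Finset.mem_Ico] at hm
      rw [Finset.mem_erase]
      refine ⟨?_, Finset.mem_univ _⟩
      rw [neg_ne_zero]
      intro h
      rw [ZMod.natCast_eq_zero_iff] at h
      have := Nat.le_of_dvd (by omega) h
      omega
    · intro a ha b hb hab
      rw [Finset.mem_Ico] at ha hb
      have hab' := neg_injective hab
      rw [ZMod.natCast_eq_natCast_iff'] at hab'
      rwa [Nat.mod_eq_of_lt ha.2, Nat.mod_eq_of_lt hb.2] at hab'
    · intro y hy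
      have hy0 : y ≠ 0 := (Finset.mem_erase.mp hy).1
      refine ⟨(-y).val, ?_, ?_⟩
      · rw [Finset.mem_Ico]
        refine ⟨?_, ZMod.val_lt _⟩
        rw [Nat.one_le_iff_ne_zero, Ne, ZMod.val_eq_zero]
        exact neg_ne_zero.mpr hy0
      · rw [ZMod.natCast_zmod_val, neg_neg]
    · intro m _; rfl
  rw [h1]
  have h2 : ∑ m ∈ Ico 1 P, ww (-(m : ZMod P)) ≤
      ∑ m ∈ Ico 1 P, ((P : ℝ) / 4 * (1 / (m : ℝ) + 1 / ((P : ℝ) - m))) := by
    apply Finset.sum_le_sum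
    intro m hm
    rw [Finset.mem_Ico] at hm
    exact ww_coe m (by omega) hm.2
  refine h2.trans ?_
  rw [← Finset.mul_sum, Finset.sum_add_distrib]
  have h3 : ∑ m ∈ Ico 1 P, 1 / ((P : ℝ) - m) = ∑ m ∈ Ico 1 P, 1 / (m : ℝ) := by
    have h4 := Finset.sum_Ico_reflect (fun m : ℕ => 1 / (m : ℝ)) 1 (m := P) (n := P) (by omega)
    have h5 : ∑ m ∈ Ico 1 P, 1 / (((P - m : ℕ) : ℕ) : ℝ) = ∑ m ∈ Ico 1 P, 1 / ((P : ℝ) - m) := by
      apply Finset.sum_congr rfl
      intro m hm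
      rw [Finset.mem_Ico] at hm
      rw [Nat.cast_sub hm.2.le]
    rw [← h5, h4]
    have h6 : P + 1 - P = 1 := by omega
    have h7 : P + 1 - 1 = P := by omega
    rw [h6, h7]
  have h8 : ∑ m ∈ Ico 1 P, 1 / (m : ℝ) ≤ 1 + Real.log P := by
    have h9 := harmonic_le_one_add_log P
    have h10 : ((harmonic P : ℚ) : ℝ) = ∑ m ∈ range P, 1 / ((m : ℝ) + 1) := by
      rw [harmonic]
      push_cast
      exact Finset.sum_congr rfl fun m _ => by rw [one_div]
    have h11 : ∑ m ∈ Ico 1 P, 1 / (m : ℝ) = ∑ m ∈ range (P - 1), 1 / ((m : ℝ) + 1) := by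
      rw [Finset.sum_Ico_eq_sum_range]
      apply Finset.sum_congr rfl
      intro m _
      push_cast
      rw [add_comm]
    have h12 : ∑ m ∈ range (P - 1), 1 / ((m : ℝ) + 1) ≤ ∑ m ∈ range P, 1 / ((m : ℝ) + 1) := by
      apply Finset.sum_le_sum_of_subset_of_nonneg
      · intro m hm
        rw [Finset.mem_range] at hm ⊢
        omega
      · intro m _ _
        positivity
    rw [h11]
    rw [h10] at h9
    exact h12.trans h9
  rw [h3]
  calc (P : ℝ) / 4 * (∑ m ∈ Ico 1 P, 1 / (m : ℝ) + ∑ m ∈ Ico 1 P, 1 / (m : ℝ)) ≤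
      (P : ℝ) / 4 * ((1 + Real.log P) + (1 + Real.log P)) := by gcongr
    _ = _ := by ring

end Pool.Agent.Q252.FU
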