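import Pool.Agent.Q252.FU1

set_option autoImplicit false

/-!
# Equidistribution of `2^n / i` for `i = P k`, on average over `n`
-/

namespace Pool.Agent.Q252.FU

open Finset

variable {P : ℕ} [NeZero P]

lemma block_le (g w : (ZMod P)ˣ) (F : ZMod P → ℝ) (hF : ∀ u, 0 ≤ F u) (B : ℕ) :
    ∑ n ∈ Ico B (B + orderOf g), F (w * (g : ZMod P) ^ n) ≤ ∑ u : ZMod P, F u := by
  have hinj : Set.InjOn (fun n : ℕ => (w : ZMod P) * (g : ZMod P) ^ n) (Ico B (B + orderOf g)) := by
    intro m hm n hn h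
    rw [Finset.mem_coe, Finset.mem_Ico] at hm hn
    simp only at h
    have h1 : w * g ^ m = w * g ^ n := by
      ext
      push_cast
      exact h
    have h2 : g ^ m = g ^ n := mul_left_cancel h1
    rw [pow_inj_mod] at h2
    have h3 : m ≡ n [MOD orderOf g] := h2
    rcases le_total m n with h4 | h4
    · have h5 := (Nat.modEq_iff_dvd' h4).mp h3
      rcases Nat.eq_zero_or_pos (n - m) with h6 | h6
      · omega
      · have := Nat.le_of_dvd h6 h5
        omega
    · have h5 := (Nat.modEq_iff_dvd' h4).mp h3.symm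
      rcases Nat.eq_zero_or_pos (m - n) with h6 | h6
      · omega
      · have := Nat.le_of_dvd h6 h5
        omega
  rw [← Finset.sum_image (f := F) hinj]
  exact Finset.sum_le_sum_of_subset_of_nonneg (Finset.subset_univ _) (fun u _ _ => hF u)

lemma orbit_le (g w : (ZMod P)ˣ) (F : ZMod P → ℝ) (hF : ∀ u, 0 ≤ F u) (A L : ℕ) :
    ∑ n ∈ Ico A (A + L), F (w * (g : ZMod P) ^ n) ≤ ((L / orderOf g + 1 : ℕ) : ℝ) * ∑ u : ZMod P, F u := by
  have h1 : ∀ J : ℕ, ∑ n ∈ Ico A (A + J * orderOf g), F (w * (g : ZMod P) ^ n) ≤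
      (J : ℝ) * ∑ u : ZMod P, F u := by
    intro J
    induction J with
    | zero => simp
    | succ J ih =>
      have h2 : A + (J + 1) * orderOf g = A + J * orderOf g + orderOf g := by ring
      rw [h2, ← Finset.sum_Ico_consecutive _ (Nat.le_add_right A (J * orderOf g))
        (Nat.le_add_right _ _)]
      have h3 := block_le g w F hF (A + J * orderOf g)
      push_cast
      linarith
  have hd : 0 < orderOf g := orderOf_pos g
  have h4 : L ≤ (L / orderOf g + 1) * orderOf g := by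
    have := Nat.div_add_mod L (orderOf g)
    have := Nat.mod_lt L hd
    nlinarith
  calc ∑ n ∈ Ico A (A + L), F (w * (g : ZMod P) ^ n) ≤
      ∑ n ∈ Ico A (A + (L / orderOf g + 1) * orderOf g), F (w * (g : ZMod P) ^ n) := by
        apply Finset.sum_le_sum_of_subset_of_nonneg
        · exact Finset.Ico_subset_Ico_right (by omega)
        · intro n _ _; exact hF _
    _ ≤ _ := h1 _

lemma shift_le (x : ℕ → ℝ) (hx : ∀ n, |x n| ≤ 1 / 2) (A B m : ℕ) (hAB : A ≤ B) :
    |∑ n ∈ Ico A B, x n - ∑ n ∈ Ico A B, x (n + m)| ≤ m := by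
  have h1 : ∑ n ∈ Ico A B, x (n + m) = ∑ n ∈ Ico (A + m) (B + m), x n := by
    rw [Finset.sum_Ico_add' x A B m]
  have h2 := Finset.sum_Ico_consecutive x hAB (Nat.le_add_right B m)
  have h3 := Finset.sum_Ico_consecutive x (Nat.le_add_right A m) (by omega : A + m ≤ B + m)
  have h4 : ∑ n ∈ Ico A B, x n - ∑ n ∈ Ico A B, x (n + m) =
      ∑ n ∈ Ico A (A + m), x n - ∑ n ∈ Ico B (B + m), x n := by
    rw [h1]; linarith
  rw [h4]
  have h5 : ∀ C : ℕ, |∑ n ∈ Ico C (C + m), x n| ≤ m / 2 := by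
    intro C
    calc |∑ n ∈ Ico C (C + m), x n| ≤ ∑ n ∈ Ico C (C + m), |x n| := Finset.abs_sum_le_sum_abs _ _
      _ ≤ ∑ n ∈ Ico C (C + m), (1 / 2 : ℝ) := Finset.sum_le_sum fun n _ => hx n
      _ = m / 2 := by
          rw [Finset.sum_const, Nat.card_Ico, nsmul_eq_mul]
          have : C + m - C = m := by omega
          rw [this]; ring
  have h6 := h5 A
  have h7 := h5 B
  rw [abs_le] at h6 h7 ⊢
  constructor <;> linarith [h6.1, h6.2, h7.1, h7.2]

lemma avg_shift (x : ℕ → ℝ) (hx : ∀ n, |x n| ≤ 1 / 2) (A B T S : ℕ) (hAB : A ≤ B) (hS : 0 < S) :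
    |∑ n ∈ Ico A B, x n| ≤ T * S + 1 / (S : ℝ) * ∑ n ∈ Ico A B, |∑ s ∈ range S, x (n + T * s)| := by
  have hSR : (0 : ℝ) < S := by exact_mod_cast hS
  have h2 : (S : ℝ) * ∑ n ∈ Ico A B, x n =
      ∑ s ∈ range S, (∑ n ∈ Ico A B, x n - ∑ n ∈ Ico A B, x (n + T * s)) +
      ∑ n ∈ Ico A B, ∑ s ∈ range S, x (n + T * s) := by
    rw [Finset.sum_sub_distrib, Finset.sum_const, Finset.card_range, nsmul_eq_mul, Finset.sum_comm]
    ring
  have h3 : |∑ s ∈ range S, (∑ n ∈ Ico A B, x n - ∑ n ∈ Ico A B, x (n + T * s))| ≤ S * (T * S) := by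
    calc |∑ s ∈ range S, (∑ n ∈ Ico A B, x n - ∑ n ∈ Ico A B, x (n + T * s))| ≤
        ∑ s ∈ range S, |∑ n ∈ Ico A B, x n - ∑ n ∈ Ico A B, x (n + T * s)| :=
          Finset.abs_sum_le_sum_abs _ _
      _ ≤ ∑ s ∈ range S, ((T : ℝ) * S) := by
          apply Finset.sum_le_sum
          intro s hs
          rw [Finset.mem_range] at hs
          refine (shift_le x hx A B (T * s) hAB).trans ?_
          push_cast
          have : (s : ℝ) ≤ S := by exact_mod_cast hs.le
          gcongr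
      _ = S * (T * S) := by rw [Finset.sum_const, Finset.card_range, nsmul_eq_mul]
  have h4 : |∑ n ∈ Ico A B, ∑ s ∈ range S, x (n + T * s)| ≤
      ∑ n ∈ Ico A B, |∑ s ∈ range S, x (n + T * s)| := Finset.abs_sum_le_sum_abs _ _
  have h5 : (S : ℝ) * |∑ n ∈ Ico A B, x n| ≤
      S * (T * S) + ∑ n ∈ Ico A B, |∑ s ∈ range S, x (n + T * s)| := by
    have h6 : (S : ℝ) * |∑ n ∈ Ico A B, x n| = |(S : ℝ) * ∑ n ∈ Ico A B, x n| := by
      rw [abs_mul, abs_of_pos hSR]
    rw [h6, h2]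
    exact (abs_add_le _ _).trans (add_le_add h3 h4)
  have h7 : |∑ n ∈ Ico A B, x n| = 1 / (S : ℝ) * (S * |∑ n ∈ Ico A B, x n|) := by
    field_simp
  rw [h7]
  calc 1 / (S : ℝ) * (S * |∑ n ∈ Ico A B, x n|) ≤
      1 / (S : ℝ) * (S * (T * S) + ∑ n ∈ Ico A B, |∑ s ∈ range S, x (n + T * s)|) := by gcongr
    _ = _ := by field_simp

/-- The average over `n` of the fractional parts `{2^n / i}`, `i = P k`. -/
lemma mean_bound (hP : P.Prime) (hP2 : P ≠ 2) {k T q i N S : ℕ} (hi : i = P * k) (hk : 0 < k)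
    (hPk : ¬ P ∣ k) (hT : ∀ n, i ≤ n → 2 ^ (n + T) % k = 2 ^ n % k) (hq : q.Prime)
    (hqd : q ∣ orderOf (2 : ZMod P)) (hqT : ¬ q ∣ T) (hSq : S ≤ q) (hS : 0 < S) (hiN : i ≤ N) :
    |∑ n ∈ Ico i (N + 1), (((2 ^ n % i : ℕ) : ℝ) / i - 1 / 2)| ≤
      T * S + N / P + N * (1 + Real.log P) * √(P / (S * q)) := by
  have : Fact P.Prime := ⟨hP⟩
  have hPpos : 0 < P := hP.pos
  have hPR : (0 : ℝ) < P := by exact_mod_cast hPpos
  have hkR : (0 : ℝ) < k := by exact_mod_cast hk
  have hSR : (0 : ℝ) < S := by exact_mod_cast hS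
  have hqR : (0 : ℝ) < q := by exact_mod_cast hq.pos
  have hipos : 0 < i := by rw [hi]; positivity
  have hiR : (0 : ℝ) < i := by exact_mod_cast hipos
  have hNR : (0 : ℝ) < N := by exact_mod_cast (by omega : 0 < N)
  have hiR' : (i : ℝ) = P * k := by rw [hi]; push_cast; ring
  have hcop : Nat.Coprime 2 P := by
    rw [Nat.coprime_primes Nat.prime_two hP]; exact fun h => hP2 h.symm
  set g : (ZMod P)ˣ := ZMod.unitOfCoprime 2 hcop with hg
  have hgc : (g : ZMod P) = 2 := by rw [hg, ZMod.coe_unitOfCoprime]; norm_num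
  have hcopk : Nat.Coprime k P := (Nat.coprime_comm.mp ((Nat.Prime.coprime_iff_not_dvd hP).mpr hPk))
  set kk : (ZMod P)ˣ := ZMod.unitOfCoprime k hcopk with hkk
  have hkkc : (kk : ZMod P) = (k : ZMod P) := by rw [hkk, ZMod.coe_unitOfCoprime]
  obtain ⟨kv, hkv⟩ : ∃ kv : ZMod P, kv = ((kk⁻¹ : (ZMod P)ˣ) : ZMod P) := ⟨_, rfl⟩
  have hord : orderOf (2 : ZMod P) = orderOf g := by rw [← hgc, orderOf_units]
  rw [hord] at hqd
  -- the powers of `g ^ T` are distinct
  have hqo : q ∣ orderOf (g ^ T) := by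
    have h1 : orderOf (g ^ T) = orderOf g / Nat.gcd (orderOf g) T := orderOf_pow g
    rw [h1]
    obtain ⟨e, he⟩ := Nat.gcd_dvd_left (orderOf g) T
    have hgp : 0 < Nat.gcd (orderOf g) T := Nat.gcd_pos_of_pos_left _ (orderOf_pos g)
    have h2 : orderOf g / Nat.gcd (orderOf g) T = e := Nat.div_eq_of_eq_mul_right hgp he
    rw [h2]
    rw [he] at hqd
    rcases (Nat.Prime.dvd_mul hq).mp hqd with h3 | h3
    · exact absurd (h3.trans (Nat.gcd_dvd_right _ _)) hqT
    · exact h3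
  have hSo : S ≤ orderOf (g ^ T) := hSq.trans (Nat.le_of_dvd (orderOf_pos _) hqo)
  have hdist : ∀ (c : (ZMod P)ˣ), ∀ s < S, ∀ t < S, (c : ZMod P) * (g : ZMod P) ^ (T * s) =
      (c : ZMod P) * (g : ZMod P) ^ (T * t) → s = t := by
    intro c s hs t ht h
    have h1 : c * g ^ (T * s) = c * g ^ (T * t) := by
      ext; push_cast; exact h
    have h2 : (g ^ T) ^ s = (g ^ T) ^ t := by
      rw [← pow_mul, ← pow_mul]; exact mul_left_cancel h1
    rw [pow_inj_mod, Nat.mod_eq_of_lt (by omega), Nat.mod_eq_of_lt (by omega)] at h2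
    exact h2
  -- the shifted sequence
  set x : ℕ → ℝ := fun n => ((2 ^ n % i : ℕ) : ℝ) / i - 1 / 2 with hx
  have hxb : ∀ n, |x n| ≤ 1 / 2 := by
    intro n
    have h1 : ((2 ^ n % i : ℕ) : ℝ) < i := by exact_mod_cast Nat.mod_lt _ hipos
    have h2 : ((2 ^ n % i : ℕ) : ℝ) / i < 1 := by rw [div_lt_one hiR]; exact h1
    have h3 : 0 ≤ ((2 ^ n % i : ℕ) : ℝ) / i := by positivity
    rw [hx, abs_le]
    constructor <;> simp only <;> linarith
  have hav := avg_shift x hxb i (N + 1) T S (by omega) hS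
  have hperk : ∀ n, i ≤ n → ∀ s : ℕ, 2 ^ (n + T * s) % k = 2 ^ n % k := by
    intro n hn s
    induction s with
    | zero => simp
    | succ s ih =>
      have h1 : n + T * (s + 1) = n + T * s + T := by ring
      rw [h1, hT _ (by omega), ih]
  set y : ℕ → ℕ → ℕ := fun n s => (2 ^ (n + T * s) % i) / k with hy
  have hylt : ∀ n s, y n s < P := by
    intro n s
    rw [hy]
    simp only
    rw [Nat.div_lt_iff_lt_mul hk, ← hi]
    exact Nat.mod_lt _ hipos
  have hysplit : ∀ n, i ≤ n → ∀ s, 2 ^ (n + T * s) % i = k * y n s + 2 ^ n % k := by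
    intro n hn s
    have h1 := Nat.div_add_mod (2 ^ (n + T * s) % i) k
    have h2 : 2 ^ (n + T * s) % i % k = 2 ^ n % k := by
      rw [Nat.mod_mod_of_dvd _ (by rw [hi]; exact Dvd.intro_left _ rfl), hperk n hn s]
    rw [h2] at h1
    exact h1.symm
  have hyz : ∀ n, i ≤ n → ∀ s, ((y n s : ℕ) : ZMod P) =
      kv * (g : ZMod P) ^ n * (g : ZMod P) ^ (T * s) -
        kv * ((2 ^ n % k : ℕ) : ZMod P) := by
    intro n hn s
    have h1 := hysplit n hn s
    have h2 : ((2 ^ (n + T * s) % i : ℕ) : ZMod P) = (g : ZMod P) ^ n * (g : ZMod P) ^ (T * s) := by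
      rw [← pow_add, hgc]
      have h3 : ((2 ^ (n + T * s) % i : ℕ) : ZMod P) = ((2 ^ (n + T * s) : ℕ) : ZMod P) := by
        rw [ZMod.natCast_eq_natCast_iff]
        have h4 := Nat.mod_modEq (2 ^ (n + T * s)) i
        exact h4.of_dvd (by rw [hi]; exact Dvd.intro _ rfl)
      rw [h3]; push_cast; ring
    have h5 : ((2 ^ (n + T * s) % i : ℕ) : ZMod P) =
        (kk : ZMod P) * ((y n s : ℕ) : ZMod P) + ((2 ^ n % k : ℕ) : ZMod P) := by
      rw [h1, hkkc]; push_cast; ring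
    rw [h2] at h5
    have h6 : kv * (kk : ZMod P) = 1 := by rw [hkv]; exact Units.inv_mul kk
    calc ((y n s : ℕ) : ZMod P) = kv * (kk : ZMod P) * ((y n s : ℕ) : ZMod P) := by
          rw [h6, one_mul]
      _ = kv * ((g : ZMod P) ^ n * (g : ZMod P) ^ (T * s) -
            ((2 ^ n % k : ℕ) : ZMod P)) := by rw [h5]; ring
      _ = _ := by ring
  set d := orderOf g with hd
  have hdpos : 0 < d := orderOf_pos g
  have hdR : (0 : ℝ) < d := by exact_mod_cast hdpos
  have hqd' : (q : ℝ) ≤ d := by exact_mod_cast Nat.le_of_dvd hdpos hqd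
  have hdP : d ≤ P - 1 := by
    have h1 : orderOf g ∣ Fintype.card (ZMod P)ˣ := orderOf_dvd_card
    rw [ZMod.card_units] at h1
    exact Nat.le_of_dvd (by have := hP.two_le; omega) h1
  have hPi : P ≤ i := by rw [hi]; exact Nat.le_mul_of_pos_right _ hk
  -- the sum for a single n
  have hsingle : ∀ n, i ≤ n → |∑ s ∈ range S, x (n + T * s)| ≤
      1 / (P : ℝ) * (∑ a ∈ univ.erase (0 : ZMod P), ww a *
        ‖∑ s ∈ range S, ps ((kv * (g : ZMod P) ^ n) * (a * (g : ZMod P) ^ (T * s)))‖) +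
        S / (2 * P) := by
    intro n hn
    have h1 : ∀ s ∈ range S, x (n + T * s) = 1 / (P : ℝ) * ((y n s : ℝ) - ((P : ℝ) - 1) / 2) +
        1 / (P : ℝ) * (((2 ^ n % k : ℕ) : ℝ) / k - 1 / 2) := by
      intro s _
      rw [hx]
      simp only
      rw [hysplit n hn s, hiR']
      push_cast
      field_simp
      ring
    rw [Finset.sum_congr rfl h1, Finset.sum_add_distrib, ← Finset.mul_sum, Finset.sum_const,
      Finset.card_range, nsmul_eq_mul]
    have h2 := saw_sum (P := P) (range S) (fun s => y n s) (fun s _ => hylt n s)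
    have h3 : ∑ a ∈ univ.erase (0 : ZMod P), ww a * ‖∑ s ∈ range S, ps (a * ((y n s : ℕ) : ZMod P))‖ =
        ∑ a ∈ univ.erase (0 : ZMod P), ww a *
        ‖∑ s ∈ range S, ps ((kv * (g : ZMod P) ^ n) * (a * (g : ZMod P) ^ (T * s)))‖ := by
      apply Finset.sum_congr rfl
      intro a _
      congr 1
      have h4 : ∀ s ∈ range S, ps (a * ((y n s : ℕ) : ZMod P)) =
          ps ((kv * (g : ZMod P) ^ n) * (a * (g : ZMod P) ^ (T * s))) *
          ps (-(a * (kv * ((2 ^ n % k : ℕ) : ZMod P)))) := by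
        intro s _
        unfold ps
        rw [← AddChar.map_add_eq_mul, hyz n hn s]
        congr 1
        ring
      rw [Finset.sum_congr rfl h4, ← Finset.sum_mul, norm_mul, ps_norm, mul_one]
    rw [h3] at h2
    have h5 : |((2 ^ n % k : ℕ) : ℝ) / k - 1 / 2| ≤ 1 / 2 := by
      have h6 : ((2 ^ n % k : ℕ) : ℝ) < k := by exact_mod_cast Nat.mod_lt _ hk
      have h7 : ((2 ^ n % k : ℕ) : ℝ) / k < 1 := by rw [div_lt_one hkR]; exact h6
      have h8 : 0 ≤ ((2 ^ n % k : ℕ) : ℝ) / k := by positivity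
      rw [abs_le]
      constructor <;> linarith
    refine (abs_add_le _ _).trans ?_
    rw [abs_mul, abs_mul, abs_mul, abs_of_pos (by positivity : (0 : ℝ) < 1 / P), abs_of_pos hSR]
    apply add_le_add
    · gcongr
    · calc (S : ℝ) * (1 / P * |((2 ^ n % k : ℕ) : ℝ) / k - 1 / 2|) ≤ S * (1 / P * (1 / 2)) := by gcongr
        _ = S / (2 * P) := by field_simp
  -- sum over n
  have hcard : ((N + 1 - i : ℕ) : ℝ) ≤ N := by
    exact_mod_cast (by omega : N + 1 - i ≤ N)
  have hLd : (((N + 1 - i) / d + 1 : ℕ) : ℝ) ≤ 2 * N / d := by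
    have h1 : (((N + 1 - i) / d : ℕ) : ℝ) ≤ ((N + 1 - i : ℕ) : ℝ) / d := Nat.cast_div_le
    have h2 : ((N + 1 - i : ℕ) : ℝ) / d ≤ N / d := by gcongr
    have h3 : (1 : ℝ) ≤ N / d := by
      rw [le_div_iff₀ hdR, one_mul]
      exact_mod_cast (by omega : d ≤ N)
    push_cast
    have h4 : 2 * (N : ℝ) / d = N / d + N / d := by ring
    rw [h4]
    linarith
  have hEa : ∀ a ∈ univ.erase (0 : ZMod P), ∑ n ∈ Ico i (N + 1),
      ‖∑ s ∈ range S, ps ((kv * (g : ZMod P) ^ n) * (a * (g : ZMod P) ^ (T * s)))‖ ≤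
      N * √(2 * P * S / d) := by
    intro a ha
    have ha0 : a ≠ 0 := (Finset.mem_erase.mp ha).1
    set F : ZMod P → ℝ := fun u => ‖∑ s ∈ range S, ps (u * (a * (g : ZMod P) ^ (T * s)))‖ ^ 2 with hF
    have h1 := orbit_le g (kk⁻¹) F (fun u => by rw [hF]; positivity) i (N + 1 - i)
    have h2 : i + (N + 1 - i) = N + 1 := by omega
    rw [h2] at h1
    have h3 : ∑ u : ZMod P, F u = P * S := by
      have h4 := msq S (fun s => a * (g : ZMod P) ^ (T * s)) (by
        intro s hs t ht h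
        have := hdist (Units.mk0 a ha0) s hs t ht (by simpa using h)
        exact this)
      exact h4
    rw [h3, ← hkv] at h1
    have h5 : ∑ n ∈ Ico i (N + 1), F (kv * (g : ZMod P) ^ n) ≤
        2 * N / d * (P * S) := h1.trans (by gcongr)
    have h6 := Finset.sum_mul_sq_le_sq_mul_sq (Ico i (N + 1)) (fun _ => (1 : ℝ))
      (fun n => ‖∑ s ∈ range S, ps ((kv * (g : ZMod P) ^ n) * (a * (g : ZMod P) ^ (T * s)))‖)
    simp only [one_mul, one_pow, Finset.sum_const, Nat.card_Ico, nsmul_eq_mul, mul_one] at h6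
    have h7 : (∑ n ∈ Ico i (N + 1),
      ‖∑ s ∈ range S, ps ((kv * (g : ZMod P) ^ n) * (a * (g : ZMod P) ^ (T * s)))‖) ^ 2 ≤
      N * (2 * N / d * (P * S)) := by
      refine h6.trans ?_
      apply mul_le_mul hcard h5 (Finset.sum_nonneg fun n _ => by positivity) hNR.le
    have h8 : (N : ℝ) * (2 * N / d * (P * S)) = (N * √(2 * P * S / d)) ^ 2 := by
      rw [mul_pow, Real.sq_sqrt (by positivity)]
      field_simp
    rw [h8] at h7
    exact (pow_le_pow_iff_left₀ (Finset.sum_nonneg fun n _ => norm_nonneg _) (by positivity)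
      (by norm_num)).mp h7
  have hsum : ∑ n ∈ Ico i (N + 1), |∑ s ∈ range S, x (n + T * s)| ≤
      1 / (P : ℝ) * ((P : ℝ) / 2 * (1 + Real.log P) * (N * √(2 * P * S / d))) + N * (S / (2 * P)) := by
    calc ∑ n ∈ Ico i (N + 1), |∑ s ∈ range S, x (n + T * s)| ≤
        ∑ n ∈ Ico i (N + 1), (1 / (P : ℝ) * (∑ a ∈ univ.erase (0 : ZMod P), ww a *
        ‖∑ s ∈ range S, ps ((kv * (g : ZMod P) ^ n) * (a * (g : ZMod P) ^ (T * s)))‖) +
        S / (2 * P)) := Finset.sum_le_sum fun n hn => hsingle n (Finset.mem_Ico.mp hn).1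
      _ = 1 / (P : ℝ) * (∑ a ∈ univ.erase (0 : ZMod P), ww a * ∑ n ∈ Ico i (N + 1),
        ‖∑ s ∈ range S, ps ((kv * (g : ZMod P) ^ n) * (a * (g : ZMod P) ^ (T * s)))‖) +
        ((N + 1 - i : ℕ) : ℝ) * (S / (2 * P)) := by
          rw [Finset.sum_add_distrib, ← Finset.mul_sum, Finset.sum_comm, Finset.sum_const,
            Nat.card_Ico, nsmul_eq_mul]
          congr 2
          exact Finset.sum_congr rfl fun a _ => by rw [Finset.mul_sum]
      _ ≤ 1 / (P : ℝ) * (∑ a ∈ univ.erase (0 : ZMod P), ww a * (N * √(2 * P * S / d))) +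
          N * (S / (2 * P)) := by
          apply add_le_add
          · apply mul_le_mul_of_nonneg_left _ (by positivity)
            exact Finset.sum_le_sum fun a ha => mul_le_mul_of_nonneg_left (hEa a ha) (ww_nonneg a)
          · gcongr
      _ ≤ _ := by
          rw [← Finset.sum_mul]
          have := ww_sum (P := P)
          gcongr
  refine hav.trans ?_
  have hfin : 1 / (S : ℝ) * ∑ n ∈ Ico i (N + 1), |∑ s ∈ range S, x (n + T * s)| ≤
      N / P + N * (1 + Real.log P) * √(P / (S * q)) := by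
    have h1 : 1 / (S : ℝ) * ∑ n ∈ Ico i (N + 1), |∑ s ∈ range S, x (n + T * s)| ≤
      1 / (S : ℝ) * (1 / (P : ℝ) * ((P : ℝ) / 2 * (1 + Real.log P) * (N * √(2 * P * S / d))) +
        N * (S / (2 * P))) := mul_le_mul_of_nonneg_left hsum (by positivity)
    refine h1.trans ?_
    have hlog : 0 ≤ Real.log P := Real.log_natCast_nonneg P
    have h2 : √(2 * P * S / d) ≤ 2 * (S * √(P / (S * q))) := by
      rw [Real.sqrt_le_left (by positivity), mul_pow, mul_pow, Real.sq_sqrt (by positivity)]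
      have h3 : 2 * (P : ℝ) * S / d ≤ 2 * P * S / q := by gcongr
      refine h3.trans ?_
      have h4 : (2 : ℝ) ^ 2 * (S ^ 2 * (P / (S * q))) = 4 * P * S / q := by field_simp; ring
      rw [h4]
      have : 0 ≤ (P : ℝ) * S / q := by positivity
      have h5 : 4 * (P : ℝ) * S / q = 2 * P * S / q + 2 * (P * S / q) := by ring
      rw [h5]; linarith
    calc 1 / (S : ℝ) * (1 / (P : ℝ) * ((P : ℝ) / 2 * (1 + Real.log P) * (N * √(2 * P * S / d))) +
        N * (S / (2 * P))) = 1 / (S : ℝ) * (1 / 2 * (1 + Real.log P) * (N * √(2 * P * S / d))) +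
        N / (2 * P) := by field_simp
      _ ≤ 1 / (S : ℝ) * (1 / 2 * (1 + Real.log P) * (N * (2 * (S * √(P / (S * q)))))) +
        N / P := by
          have h6 : (N : ℝ) / (2 * P) ≤ N / P := by
            apply div_le_div_of_nonneg_left hNR.le hPR; linarith
          gcongr
      _ = N / P + N * (1 + Real.log P) * √(P / (S * q)) := by field_simp; ring
  linarith

end Pool.Agent.Q252.FU
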