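import Pool.Agent.TH76.LehP.LemB

set_option autoImplicit false

/-!
# Primes `P` such that the order of `2` has a prime factor beyond `P ^ (1/2 + κ)`
-/

namespace Pool.Agent.Q252.FU

open Finset Filter
open Pool.Agent.TH76.LehP (P1 mem_P1 abel_low harm_low goldA ev_log ev_rpow ev_logpow)

/-- `P` is a prime such that the order of `2` has a large prime factor -/
def GP (κ : ℝ) (P : ℕ) : Prop :=
  P.Prime ∧ ∃ q : ℕ, q.Prime ∧ (P : ℝ) ^ (1 / 2 + κ) < q ∧ q ∣ orderOf (2 : ZMod P)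

/-- the primes up to `t` with a small order of `2` -/
noncomputable def small (t M : ℕ) : Finset ℕ :=
  (Icc 1 t).filter (fun P => P.Prime ∧ P ≠ 2 ∧ orderOf (2 : ZMod P) ≤ M)

lemma order_pos {P : ℕ} (hP : P.Prime) (hP2 : P ≠ 2) : 0 < orderOf (2 : ZMod P) := by
  have : Fact P.Prime := ⟨hP⟩
  rw [orderOf_pos_iff, isOfFinOrder_iff_pow_eq_one]
  have h2 : (2 : ZMod P) ≠ 0 := by
    intro h
    have h3 : ((2 : ℕ) : ZMod P) = 0 := by exact_mod_cast h
    rw [ZMod.natCast_eq_zero_iff] at h3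
    exact hP2 ((Nat.prime_dvd_prime_iff_eq hP Nat.prime_two).mp h3)
  exact ⟨P - 1, by have := hP.two_le; omega, ZMod.pow_card_sub_one_eq_one h2⟩

lemma order_dvd {P : ℕ} (hP : P.Prime) (hP2 : P ≠ 2) : orderOf (2 : ZMod P) ∣ P - 1 := by
  have : Fact P.Prime := ⟨hP⟩
  have h2 : (2 : ZMod P) ≠ 0 := by
    intro h
    have h3 : ((2 : ℕ) : ZMod P) = 0 := by exact_mod_cast h
    rw [ZMod.natCast_eq_zero_iff] at h3
    exact hP2 ((Nat.prime_dvd_prime_iff_eq hP Nat.prime_two).mp h3)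
  exact orderOf_dvd_of_pow_eq_one (ZMod.pow_card_sub_one_eq_one h2)

lemma card_pf_le {n m : ℕ} (hm : n < 2 ^ m) (hn : n ≠ 0) : n.primeFactors.card ≤ m := by
  have h1 : 2 ^ n.primeFactors.card ≤ ∏ p ∈ n.primeFactors, p := by
    apply Finset.pow_card_le_prod
    intro p hp
    exact (Nat.prime_of_mem_primeFactors hp).two_le
  have h2 : ∏ p ∈ n.primeFactors, p ≤ n := Nat.le_of_dvd (Nat.pos_of_ne_zero hn)
    (Nat.prod_primeFactors_dvd n)
  have h3 : 2 ^ n.primeFactors.card < 2 ^ m := by omega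
  exact ((Nat.pow_lt_pow_iff_right (by norm_num)).mp h3).le

lemma pf_pow {m : ℕ} (hm : 1 ≤ m) : (2 ^ m - 1).primeFactors.card ≤ m := by
  have h0 : 2 ≤ 2 ^ m := by
    calc 2 = 2 ^ 1 := by norm_num
      _ ≤ 2 ^ m := Nat.pow_le_pow_right (by norm_num) hm
  obtain ⟨n, hn⟩ : ∃ n, n = 2 ^ m := ⟨_, rfl⟩
  rw [← hn] at h0 ⊢
  exact card_pf_le (n := n - 1) (m := m) (by omega) (by omega)

lemma dvd_pow_order (P : ℕ) : P ∣ 2 ^ orderOf (2 : ZMod P) - 1 := by
  have h2 := pow_orderOf_eq_one (2 : ZMod P)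
  have h3 : ((2 ^ orderOf (2 : ZMod P) - 1 : ℕ) : ZMod P) = 0 := by
    rw [Nat.cast_sub Nat.one_le_two_pow]
    push_cast
    rw [h2, sub_self]
  rwa [ZMod.natCast_eq_zero_iff] at h3

lemma pow_order_ne (P : ℕ) (h0 : 0 < orderOf (2 : ZMod P)) : 2 ^ orderOf (2 : ZMod P) - 1 ≠ 0 := by
  have h4 : 2 ^ 1 ≤ 2 ^ orderOf (2 : ZMod P) := Nat.pow_le_pow_right (by norm_num) h0
  intro h5
  rw [Nat.sub_eq_zero_iff_le] at h5
  exact absurd (h4.trans h5) (by norm_num)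

lemma mem_pf (P : ℕ) (hP1 : P.Prime) (h0 : 0 < orderOf (2 : ZMod P)) :
    P ∈ (2 ^ orderOf (2 : ZMod P) - 1).primeFactors := by
  rw [Nat.mem_primeFactors]
  exact ⟨hP1, dvd_pow_order P, pow_order_ne P h0⟩

lemma small_sub (t M : ℕ) :
    small t M ⊆ (Icc 1 M).biUnion (fun m => (2 ^ m - 1).primeFactors) := by
  intro P hP
  unfold small at hP
  rw [mem_filter] at hP
  obtain ⟨_, hP1, hP2, hP3⟩ := hP
  rw [mem_biUnion]
  exact ⟨orderOf (2 : ZMod P), by rw [mem_Icc]; exact ⟨order_pos hP1 hP2, hP3⟩,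
    mem_pf P hP1 (order_pos hP1 hP2)⟩

lemma sum_const_sq (M : ℕ) : ∑ _m ∈ Icc 1 M, M = M ^ 2 := by
  rw [Finset.sum_const, Nat.card_Icc, smul_eq_mul]
  have : M + 1 - 1 = M := by omega
  rw [this]; ring

lemma sum_pf_le (M : ℕ) : ∑ m ∈ Icc 1 M, ((2 ^ m - 1).primeFactors).card ≤ ∑ _m ∈ Icc 1 M, M := by
  apply Finset.sum_le_sum
  intro m hm
  rw [mem_Icc] at hm
  exact (pf_pow hm.1).trans hm.2

lemma small_card (t M : ℕ) : (small t M).card ≤ M ^ 2 := by
  have h1 := Finset.card_le_card (small_sub t M)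
  have h2 : ((Icc 1 M).biUnion (fun m => (2 ^ m - 1).primeFactors)).card ≤
    ∑ m ∈ Icc 1 M, ((2 ^ m - 1).primeFactors).card := Finset.card_biUnion_le
  have h3 := sum_pf_le M
  rw [sum_const_sq] at h3
  exact h1.trans (h2.trans h3)

open Classical in
/-- the good primes up to `t` -/
noncomputable def GG (κ : ℝ) (t : ℕ) : Finset ℕ := (Icc 1 t).filter (fun P => GP κ P)

open Classical in
lemma count_pairs (y t z : ℕ) (ht : t ≤ y ^ 2) :
    ∑ q ∈ (Ioc y z).filter (fun q => q.Prime), ((P1 t q).card : ℝ) ≤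
      (((Icc 1 t).filter (fun p => p.Prime ∧ ∃ q : ℕ, q.Prime ∧ y < q ∧ q ∣ p - 1)).card : ℝ) := by
  classical
  rw [← Nat.cast_sum, Nat.cast_le, ← Finset.card_sigma]
  apply Finset.card_le_card_of_injOn (fun x : (_ : ℕ) × ℕ => x.2)
  · rintro ⟨q, p⟩ hx
    rw [Finset.mem_coe, mem_sigma, mem_filter, mem_Ioc] at hx
    simp only [mem_P1] at hx
    obtain ⟨⟨⟨hq1, hq2⟩, hqp⟩, hp1, hp2, hp3⟩ := hx
    rw [Finset.mem_coe, mem_filter, mem_Icc]
    exact ⟨⟨hp2.one_lt.le, hp1⟩, hp2, q, hqp, hq1, hp3⟩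
  · rintro ⟨q, p⟩ hx ⟨q', p'⟩ hx' hxx
    rw [Finset.mem_coe, mem_sigma, mem_filter, mem_Ioc] at hx hx'
    simp only [mem_P1] at hx hx'
    simp only [] at hxx
    subst hxx
    obtain ⟨⟨⟨hq1, hq2⟩, hqp⟩, hp1, hp2, hp3⟩ := hx
    obtain ⟨⟨⟨hq1', hq2'⟩, hqp'⟩, _, _, hp3'⟩ := hx'
    have hp2' := hp2.two_le
    by_contra hne
    have hne' : q ≠ q' := by
      intro h; subst h; exact hne rfl
    have hco : Nat.Coprime q q' := (Nat.coprime_primes hqp hqp').mpr hne'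
    have hd := hco.mul_dvd_of_dvd_of_dvd hp3 hp3'
    have h1 := Nat.le_of_dvd (by omega) hd
    have h2 : y ^ 2 < q * q' := by
      rw [pow_two]
      exact Nat.mul_lt_mul'' hq1 hq1'
    omega

/-- There are `≥ c t / log t` good primes up to `t`. -/
lemma GG_card : ∃ c κ : ℝ, 0 < c ∧ 0 < κ ∧ κ ≤ 1 / 4 ∧ ∃ T : ℕ, ∀ t : ℕ, T ≤ t →
    c * (t / Real.log t) ≤ ((GG κ t).card : ℝ) := by
  classical
  obtain ⟨c₀, κ, hc₀, hκ, hκ4, T, hA⟩ := goldA
  have hev : ∀ᶠ t : ℕ in atTop, T ≤ t ∧ 3 ≤ t ∧ (2 : ℝ) ≤ (t : ℝ) ^ κ ∧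
      4 / c₀ * Real.log t ^ 1 ≤ (t : ℝ) ^ κ := by
    have h1 := ev_logpow 1 (κ / 2) (by linarith)
    have h2 := ev_rpow (4 / c₀) (κ / 2) (by linarith)
    filter_upwards [eventually_ge_atTop T, eventually_ge_atTop 3, ev_rpow 2 κ hκ, h1, h2]
      with t h3 h4 h5 h6 h7
    refine ⟨h3, h4, h5, ?_⟩
    have ht0 : (0 : ℝ) < t := by exact_mod_cast (by omega : 0 < t)
    have h8 : (t : ℝ) ^ κ = (t : ℝ) ^ (κ / 2) * (t : ℝ) ^ (κ / 2) := by
      rw [← Real.rpow_add ht0]; congr 1; ring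
    rw [h8]
    have hlog : 0 ≤ Real.log t := Real.log_natCast_nonneg t
    gcongr
  obtain ⟨T', hT'⟩ := eventually_atTop.mp hev
  refine ⟨c₀ / 2, κ, by positivity, hκ, hκ4, T', fun t ht => ?_⟩
  obtain ⟨h1, h2, h3, h4⟩ := hT' t ht
  have ht3 : (3 : ℝ) ≤ t := by exact_mod_cast h2
  have ht0 : (0 : ℝ) < t := by linarith
  have hL : 0 < Real.log t := Real.log_pos (by linarith)
  set y : ℕ := ⌊(t : ℝ) ^ (1 / 2 + κ)⌋₊ with hy
  have hyle : (y : ℝ) ≤ (t : ℝ) ^ (1 / 2 + κ) := Nat.floor_le (by positivity)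
  have hylt : (t : ℝ) ^ (1 / 2 + κ) < y + 1 := Nat.lt_floor_add_one _
  have hsq : (1 : ℝ) ≤ (t : ℝ) ^ (1 / 2 : ℝ) := Real.one_le_rpow (by linarith) (by norm_num)
  have hyge : (t : ℝ) ^ (1 / 2 : ℝ) ≤ y := by
    have h5 : (t : ℝ) ^ (1 / 2 + κ) = (t : ℝ) ^ (1 / 2 : ℝ) * (t : ℝ) ^ κ := Real.rpow_add ht0 _ _
    nlinarith
  have hty : t ≤ y ^ 2 := by
    have h5 : (t : ℝ) = ((t : ℝ) ^ (1 / 2 : ℝ)) ^ 2 := by
      rw [← Real.rpow_natCast, ← Real.rpow_mul ht0.le]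
      norm_num
    have h6 : (t : ℝ) ≤ (y : ℝ) ^ 2 := by
      rw [h5]
      exact pow_le_pow_left₀ (by positivity) hyge 2
    exact_mod_cast h6
  have h5 := (hA t y h1 hty hyle).trans (count_pairs y t _ hty)
  -- compare
  set A := (Icc 1 t).filter (fun p => p.Prime ∧ ∃ q : ℕ, q.Prime ∧ y < q ∧ q ∣ p - 1) with hAdef
  set M : ℕ := ⌊(t : ℝ) ^ (1 / 2 - κ)⌋₊ with hM
  have hsub : A ⊆ GG κ t ∪ (small t M ∪ {2}) := by
    intro p hp
    rw [hAdef, mem_filter, mem_Icc] at hp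
    obtain ⟨⟨hp1, hpt⟩, hpp, q, hqp, hyq, hqd⟩ := hp
    have hptR : (p : ℝ) ≤ t := by exact_mod_cast hpt
    by_cases hp2 : p = 2
    · rw [mem_union, mem_union, mem_singleton]; exact Or.inr (Or.inr hp2)
    · by_cases hqo : q ∣ orderOf (2 : ZMod p)
      · rw [mem_union]
        left
        unfold GG
        rw [mem_filter, mem_Icc]
        refine ⟨⟨hp1, hpt⟩, hpp, q, hqp, ?_, hqo⟩
        have h6 : (y : ℝ) + 1 ≤ q := by exact_mod_cast hyq
        have h7 : (p : ℝ) ^ (1 / 2 + κ) ≤ (t : ℝ) ^ (1 / 2 + κ) :=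
          Real.rpow_le_rpow (by positivity) hptR (by positivity)
        linarith
      · rw [mem_union, mem_union]
        right; left
        unfold small
        rw [mem_filter, mem_Icc]
        refine ⟨⟨hp1, hpt⟩, hpp, hp2, ?_⟩
        apply Nat.le_floor
        have h8 : Nat.Coprime (orderOf (2 : ZMod p)) q :=
          (Nat.coprime_comm.mp ((Nat.Prime.coprime_iff_not_dvd hqp).mpr hqo))
        have h9 := h8.mul_dvd_of_dvd_of_dvd (order_dvd hpp hp2) hqd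
        have h10 := Nat.le_of_dvd (by have := hpp.two_le; omega) h9
        have h11 : ((orderOf (2 : ZMod p) : ℕ) : ℝ) * q ≤ t := by
          have : orderOf (2 : ZMod p) * q ≤ t := by omega
          exact_mod_cast this
        have h6 : (y : ℝ) + 1 ≤ q := by exact_mod_cast hyq
        have h12 : (t : ℝ) = (t : ℝ) ^ (1 / 2 - κ) * (t : ℝ) ^ (1 / 2 + κ) := by
          rw [← Real.rpow_add ht0]
          have : (1 / 2 - κ) + (1 / 2 + κ) = 1 := by ring
          rw [this, Real.rpow_one]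
        have h13 : (t : ℝ) ^ (1 / 2 + κ) ≤ q := by linarith
        have h14 : 0 < (t : ℝ) ^ (1 / 2 + κ) := by positivity
        by_contra hcon
        rw [not_le] at hcon
        have h15 : (t : ℝ) ^ (1 / 2 - κ) * (t : ℝ) ^ (1 / 2 + κ) <
            ((orderOf (2 : ZMod p) : ℕ) : ℝ) * q := by
          calc (t : ℝ) ^ (1 / 2 - κ) * (t : ℝ) ^ (1 / 2 + κ) <
              ((orderOf (2 : ZMod p) : ℕ) : ℝ) * (t : ℝ) ^ (1 / 2 + κ) :=
                mul_lt_mul_of_pos_right hcon h14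
            _ ≤ _ := by gcongr
        rw [← h12] at h15
        linarith
  have h6 : (A.card : ℝ) ≤ ((GG κ t).card : ℝ) + (M : ℝ) ^ 2 + 1 := by
    have h7 := Finset.card_le_card hsub
    have h8 := Finset.card_union_le (GG κ t) (small t M ∪ {2})
    have h9 := Finset.card_union_le (small t M) {2}
    have h10 := small_card t M
    rw [Finset.card_singleton] at h9
    have : A.card ≤ (GG κ t).card + M ^ 2 + 1 := by omega
    exact_mod_cast this
  have hM2 : (M : ℝ) ^ 2 ≤ t / (t : ℝ) ^ κ := by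
    have h7 : (M : ℝ) ≤ (t : ℝ) ^ (1 / 2 - κ) := Nat.floor_le (by positivity)
    calc (M : ℝ) ^ 2 ≤ ((t : ℝ) ^ (1 / 2 - κ)) ^ 2 := pow_le_pow_left₀ (by positivity) h7 2
      _ = (t : ℝ) ^ (1 - 2 * κ) := by
          rw [← Real.rpow_natCast, ← Real.rpow_mul ht0.le]
          congr 1; push_cast; ring
      _ ≤ (t : ℝ) ^ (1 - κ) := Real.rpow_le_rpow_of_exponent_le (by linarith) (by linarith)
      _ = t / (t : ℝ) ^ κ := by rw [Real.rpow_sub ht0, Real.rpow_one]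
  have hone : (1 : ℝ) ≤ t / (t : ℝ) ^ κ := by
    rw [le_div_iff₀ (by positivity), one_mul]
    calc (t : ℝ) ^ κ ≤ (t : ℝ) ^ (1 : ℝ) := Real.rpow_le_rpow_of_exponent_le (by linarith) (by linarith)
      _ = t := Real.rpow_one _
  have h7 : t / (t : ℝ) ^ κ ≤ c₀ / 4 * (t / Real.log t) := by
    rw [pow_one] at h4
    rw [div_le_iff₀ (by positivity)]
    have h8 : (t : ℝ) = c₀ / 4 * (t / Real.log t) * (4 / c₀ * Real.log t) := by field_simp
    calc (t : ℝ) = c₀ / 4 * (t / Real.log t) * (4 / c₀ * Real.log t) := h8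
      _ ≤ c₀ / 4 * (t / Real.log t) * (t : ℝ) ^ κ := by gcongr
  linarith

/-- the reciprocals of the good primes in `(y, y²]` -/
lemma GG_sum : ∃ τ κ : ℝ, 0 < τ ∧ 0 < κ ∧ κ ≤ 1 / 4 ∧ ∃ Y : ℕ, ∀ y : ℕ, Y ≤ y →
    τ ≤ ∑ P ∈ (GG κ (y ^ 2)).filter (fun P => y < P), 1 / (P : ℝ) := by
  classical
  obtain ⟨c, κ, hc, hκ, hκ4, T, hT⟩ := GG_card
  obtain ⟨K, hK⟩ : ∃ K : ℕ, 16 / c ≤ K := exists_nat_ge _
  have hK0 : (0 : ℝ) < K := lt_of_lt_of_le (by positivity) hK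
  have hKpos : 0 < K := by exact_mod_cast hK0
  have hev : ∀ᶠ y : ℕ in atTop, T ≤ y ∧ K ≤ y ∧ 3 ≤ y ∧ 2 * Real.log (K + 1) ≤ Real.log y := by
    filter_upwards [eventually_ge_atTop T, eventually_ge_atTop K, eventually_ge_atTop 3,
      ev_log (2 * Real.log (K + 1))] with y h1 h2 h3 h4
    exact ⟨h1, h2, h3, h4⟩
  obtain ⟨Y, hY⟩ := eventually_atTop.mp hev
  refine ⟨c / 16, κ, by positivity, hκ, hκ4, Y, fun y hy => ?_⟩
  obtain ⟨h1, h2, h3, h4⟩ := hY y hy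
  have hy3 : (3 : ℝ) ≤ y := by exact_mod_cast h3
  have hy0 : (0 : ℝ) < y := by linarith
  have hly : 0 < Real.log y := Real.log_pos (by linarith)
  set E := (GG κ (y ^ 2)).filter (fun P => y < P) with hE
  have hEmem : ∀ q ∈ E, 1 ≤ q ∧ q ≤ y ^ 2 := by
    intro q hq
    rw [hE, mem_filter] at hq
    have := hq.1
    unfold GG at this
    rw [mem_filter, mem_Icc] at this
    exact this.1
  have hab := abel_low E (y ^ 2) (Nat.one_le_pow _ _ (by omega)) hEmem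
  have hKy : K * y ≤ y ^ 2 := by rw [pow_two]; exact Nat.mul_le_mul_right y h2
  have hKy1 : 1 ≤ K * y := Nat.mul_pos hKpos (by omega)
  have hcount : ∀ n ∈ Ico (K * y) (y ^ 2), c * (n / Real.log n) - y ≤
      ((E.filter (fun q => q ≤ n)).card : ℝ) := by
    intro n hn
    rw [mem_Ico] at hn
    have hyn : y ≤ n := le_trans (Nat.le_mul_of_pos_left y hKpos) hn.1
    have h5 := hT n (h1.trans hyn)
    have h6 : (GG κ n).card ≤ (E.filter (fun q => q ≤ n)).card + y := by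
      have h7 : GG κ n ⊆ E.filter (fun q => q ≤ n) ∪ Icc 1 y := by
        intro P hP
        unfold GG at hP
        rw [mem_filter, mem_Icc] at hP
        rw [mem_union]
        by_cases h8 : P ≤ y
        · right; rw [mem_Icc]; exact ⟨hP.1.1, h8⟩
        · left
          rw [mem_filter, hE, mem_filter]
          unfold GG
          rw [mem_filter, mem_Icc]
          refine ⟨⟨⟨⟨hP.1.1, by omega⟩, hP.2⟩, by omega⟩, hP.1.2⟩
      have h8 := (Finset.card_le_card h7).trans (Finset.card_union_le _ _)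
      rw [Nat.card_Icc] at h8
      omega
    have h9 : ((GG κ n).card : ℝ) ≤ ((E.filter (fun q => q ≤ n)).card : ℝ) + y := by
      exact_mod_cast h6
    linarith
  have h5 : ∑ n ∈ Ico (K * y) (y ^ 2), (c * (n / Real.log n) - y) * (1 / ((n : ℝ) * (n + 1))) ≤
      ∑ n ∈ Ico 1 (y ^ 2), ((E.filter (fun q => q ≤ n)).card : ℝ) * (1 / ((n : ℝ) * (n + 1))) := by
    have h6 : ∑ n ∈ Ico (K * y) (y ^ 2), (c * (n / Real.log n) - y) * (1 / ((n : ℝ) * (n + 1))) ≤
      ∑ n ∈ Ico (K * y) (y ^ 2), ((E.filter (fun q => q ≤ n)).card : ℝ) * (1 / ((n : ℝ) * (n + 1))) := by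
      apply Finset.sum_le_sum
      intro n hn
      exact mul_le_mul_of_nonneg_right (hcount n hn) (by positivity)
    refine h6.trans ?_
    apply Finset.sum_le_sum_of_subset_of_nonneg
    · exact Finset.Ico_subset_Ico_left hKy1
    · intro _ _ _; positivity
  have h6 : ∑ n ∈ Ico (K * y) (y ^ 2), (y : ℝ) * (1 / ((n : ℝ) * (n + 1))) ≤ 1 / K := by
    have h7 : ∀ M : ℕ, K * y ≤ M → ∑ n ∈ Ico (K * y) M, (1 / ((n : ℝ) * (n + 1))) =
        1 / ((K * y : ℕ) : ℝ) - 1 / (M : ℝ) := by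
      intro M hM
      induction M, hM using Nat.le_induction with
      | base => simp
      | succ M hM ih =>
        rw [Finset.sum_Ico_succ_top hM, ih]
        have : (0 : ℝ) < M := by exact_mod_cast (by omega : 0 < M)
        push_cast
        field_simp
        ring
    rw [← Finset.mul_sum, h7 _ hKy]
    have h8 : (0 : ℝ) ≤ 1 / ((y ^ 2 : ℕ) : ℝ) := by positivity
    have h9 : (y : ℝ) * (1 / ((K * y : ℕ) : ℝ)) = 1 / K := by push_cast; field_simp
    calc (y : ℝ) * (1 / ((K * y : ℕ) : ℝ) - 1 / ((y ^ 2 : ℕ) : ℝ)) ≤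
        (y : ℝ) * (1 / ((K * y : ℕ) : ℝ)) := by gcongr; linarith
      _ = 1 / K := h9
  have h7 : ∑ n ∈ Ico (K * y) (y ^ 2), (c / (2 * Real.log y)) * (1 / ((n : ℝ) + 1)) ≤
      ∑ n ∈ Ico (K * y) (y ^ 2), (c * (n / Real.log n)) * (1 / ((n : ℝ) * (n + 1))) := by
    apply Finset.sum_le_sum
    intro n hn
    rw [mem_Ico] at hn
    have hyn : y ≤ n := le_trans (Nat.le_mul_of_pos_left y hKpos) hn.1
    have hn3 : (3 : ℝ) ≤ n := by exact_mod_cast (by omega : 3 ≤ n)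
    have hLn : 0 < Real.log n := Real.log_pos (by linarith)
    have hLn2 : Real.log n ≤ 2 * Real.log y := by
      have h11 : (n : ℝ) ≤ (y : ℝ) ^ 2 := by exact_mod_cast hn.2.le
      have := Real.log_le_log (by linarith) h11
      rw [Real.log_pow] at this
      exact_mod_cast this
    calc (c / (2 * Real.log y)) * (1 / ((n : ℝ) + 1))
        = c * (n / (2 * Real.log y)) * (1 / ((n : ℝ) * (n + 1))) := by field_simp
      _ ≤ c * (n / Real.log n) * (1 / ((n : ℝ) * (n + 1))) := by gcongr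
  have h8 := harm_low (K * y) (y ^ 2) hKy
  have h9 : 2 * Real.log y ≤ Real.log (((y ^ 2 : ℕ) : ℝ) + 1) := by
    have : 2 * Real.log y = Real.log ((y : ℝ) ^ 2) := by rw [Real.log_pow]; norm_num
    rw [this]
    apply Real.log_le_log (by positivity)
    push_cast; linarith
  have h10 : Real.log (((K * y : ℕ) : ℝ) + 1) ≤ 3 / 2 * Real.log y := by
    have h11 : ((K * y : ℕ) : ℝ) + 1 ≤ (K + 1) * y := by push_cast; nlinarith
    have h12 := Real.log_le_log (by positivity) h11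
    rw [Real.log_mul (by positivity) (by positivity)] at h12
    linarith
  rw [← Finset.mul_sum] at h7
  have h11 : c / (2 * Real.log y) * (Real.log y / 2) ≤
      c / (2 * Real.log y) * ∑ n ∈ Ico (K * y) (y ^ 2), 1 / ((n : ℝ) + 1) := by
    apply mul_le_mul_of_nonneg_left _ (by positivity)
    linarith
  have h12 : c / (2 * Real.log y) * (Real.log y / 2) = c / 4 := by field_simp; norm_num
  have h13 : ∑ n ∈ Ico (K * y) (y ^ 2), (c * (n / Real.log n) - y) * (1 / ((n : ℝ) * (n + 1))) =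
      ∑ n ∈ Ico (K * y) (y ^ 2), (c * (n / Real.log n)) * (1 / ((n : ℝ) * (n + 1))) -
      ∑ n ∈ Ico (K * y) (y ^ 2), (y : ℝ) * (1 / ((n : ℝ) * (n + 1))) := by
    rw [← Finset.sum_sub_distrib]
    exact Finset.sum_congr rfl fun n _ => by ring
  have h14 : 1 / (K : ℝ) ≤ c / 16 := by
    rw [div_le_div_iff₀ hK0 (by norm_num)]
    rw [div_le_iff₀ hc] at hK
    linarith
  linarith

end Pool.Agent.Q252.FU
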