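import Pool.Agent.Q252.FU2
import Pool.Agent.Q252.FU3

set_option autoImplicit false

/-!
# Good integers `i = P k`
-/

namespace Pool.Agent.Q252.FU

open Finset Filter

/-- periodicity of the powers of `2` modulo `k = 2^a m` -/
lemma pow_period {a m k n : ℕ} (hk : k = 2 ^ a * m) (hm : Odd m) (hn : a ≤ n) :
    2 ^ (n + m.totient) % k = 2 ^ n % k := by
  have h1 : 2 ^ m.totient ≡ 1 [MOD m] := Nat.ModEq.pow_totient (by
    rw [Nat.coprime_comm]; exact Nat.Coprime.symm ((Nat.coprime_two_left).mpr hm))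
  have h2 : 2 ^ (n + m.totient) ≡ 2 ^ n [MOD k] := by
    rw [hk]
    have h3 : 2 ^ (n + m.totient) ≡ 2 ^ n [MOD m] := by
      have := h1.mul_left (2 ^ n)
      rw [← pow_add, mul_one] at this
      exact this
    have h4 : 2 ^ (n + m.totient) ≡ 2 ^ n [MOD 2 ^ a] := by
      have h5 : 2 ^ (n + m.totient) ≡ 0 [MOD 2 ^ a] :=
        (Nat.modEq_zero_iff_dvd).mpr (pow_dvd_pow 2 (by omega))
      have h6 : 2 ^ n ≡ 0 [MOD 2 ^ a] := (Nat.modEq_zero_iff_dvd).mpr (pow_dvd_pow 2 hn)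
      exact h5.trans h6.symm
    have hco : Nat.Coprime (2 ^ a) m := Nat.Coprime.pow_left a ((Nat.coprime_two_left).mpr hm)
    exact (Nat.modEq_and_modEq_iff_modEq_mul hco).mp ⟨h4, h3⟩
  exact h2

lemma eta_small (κ : ℝ) (hκ : 0 < κ) (ε : ℝ) (hε : 0 < ε) : ∃ P0 : ℕ, 4 ≤ P0 ∧ ∀ P : ℕ, P0 ≤ P →
    1 / (P : ℝ) ^ (1 / 2 : ℝ) + 1 / P + (1 + Real.log P) * (2 / (P : ℝ) ^ (κ / 2)) ≤ ε := by
  have h1 : Tendsto (fun P : ℕ => 1 / (P : ℝ) ^ (1 / 2 : ℝ)) atTop (nhds 0) := by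
    have := ((tendsto_rpow_atTop (by norm_num : (0 : ℝ) < 1 / 2)).comp
      tendsto_natCast_atTop_atTop).inv_tendsto_atTop
    refine this.congr fun n => ?_
    simp [Function.comp]
  have h2 : Tendsto (fun P : ℕ => 1 / (P : ℝ)) atTop (nhds 0) :=
    tendsto_one_div_atTop_nhds_zero_nat
  have h3 : Tendsto (fun P : ℕ => (1 + Real.log P) * (2 / (P : ℝ) ^ (κ / 2))) atTop (nhds 0) := by
    have h4 : Tendsto (fun x : ℝ => Real.log x / x ^ (κ / 2)) atTop (nhds 0) :=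
      (isLittleO_log_rpow_atTop (by linarith : 0 < κ / 2)).tendsto_div_nhds_zero
    have h5 := h4.comp (tendsto_natCast_atTop_atTop (R := ℝ))
    have h6 : Tendsto (fun P : ℕ => ((P : ℝ) ^ (κ / 2))⁻¹) atTop (nhds 0) :=
      ((tendsto_rpow_atTop (by linarith : 0 < κ / 2)).comp
      tendsto_natCast_atTop_atTop).inv_tendsto_atTop
    have h7 := (h6.const_mul 2).add (h5.const_mul 2)
    simp only [mul_zero, add_zero] at h7
    refine h7.congr fun P => ?_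
    simp only [Function.comp]
    rw [div_eq_mul_inv, div_eq_mul_inv]
    ring
  have h8 := (h1.add h2).add h3
  simp only [add_zero] at h8
  have h9 := h8.eventually (gt_mem_nhds hε)
  obtain ⟨P0, hP0⟩ := eventually_atTop.mp h9
  exact ⟨max 4 P0, le_max_left _ _, fun P hP => (hP0 P ((le_max_right _ _).trans hP)).le⟩

/-- the mean bound for good integers -/
lemma good_bound (κ : ℝ) (hκ : 0 < κ) (ε : ℝ) (hε : 0 < ε) : ∃ P0 : ℕ, 4 ≤ P0 ∧
    ∀ P q k N : ℕ, P0 ≤ P → P.Prime → q.Prime → (P : ℝ) ^ (1 / 2 + κ) < q →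
      q ∣ orderOf (2 : ZMod P) → 0 < k → ¬ P ∣ k → ¬ q ∣ k.totient → P * k ≤ N →
      |∑ n ∈ Ico (P * k) (N + 1), (((2 ^ n % (P * k) : ℕ) : ℝ) / ((P * k : ℕ) : ℝ) - 1 / 2)| ≤ ε * N := by
  obtain ⟨P0, hP4, hP0⟩ := eta_small κ hκ ε hε
  refine ⟨P0, hP4, fun P q k N hP hPp hq hPq hqo hk hPk hqk hN => ?_⟩
  have hP4' : (4 : ℝ) ≤ P := by exact_mod_cast hP4.trans hP
  have hPR : (0 : ℝ) < P := by linarith
  have hNR : (0 : ℝ) ≤ N := Nat.cast_nonneg N
  have : NeZero P := ⟨hPp.ne_zero⟩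
  obtain ⟨a, m, hm, hkam⟩ := Nat.exists_eq_two_pow_mul_odd hk.ne'
  have hmpos : 0 < m := hm.pos
  have hmk : m ≤ k := by rw [hkam]; exact Nat.le_mul_of_pos_left _ (by positivity)
  have hak : a < k := by
    calc a < 2 ^ a := Nat.lt_two_pow_self
      _ ≤ k := by rw [hkam]; exact Nat.le_mul_of_pos_right _ hmpos
  have hkPk : k ≤ P * k := Nat.le_mul_of_pos_left _ hPp.pos
  have hT : ∀ n, P * k ≤ n → 2 ^ (n + m.totient) % k = 2 ^ n % k :=
    fun n hn => pow_period hkam hm (by omega)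
  have hqT : ¬ q ∣ m.totient := fun h =>
    hqk (h.trans (Nat.totient_dvd_of_dvd (by rw [hkam]; exact Dvd.intro_left _ rfl)))
  have hSpos : 0 < Nat.sqrt P := Nat.sqrt_pos.mpr hPp.pos
  have hsq : ((Nat.sqrt P : ℕ) : ℝ) ≤ (P : ℝ) ^ (1 / 2 : ℝ) := by
    rw [← Real.sqrt_eq_rpow]
    exact Real.nat_sqrt_le_real_sqrt
  have hsq2 : (P : ℝ) ^ (1 / 2 : ℝ) ≤ (Nat.sqrt P : ℕ) + 1 := by
    rw [← Real.sqrt_eq_rpow]
    exact Real.real_sqrt_le_nat_sqrt_succ
  have hexp : (P : ℝ) ^ (1 / 2 + κ) = (P : ℝ) ^ (1 / 2 : ℝ) * (P : ℝ) ^ κ := Real.rpow_add hPR _ _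
  have hPk1 : (1 : ℝ) ≤ (P : ℝ) ^ κ := Real.one_le_rpow (by linarith) hκ.le
  have hSq : Nat.sqrt P ≤ q := by
    have h1 : ((Nat.sqrt P : ℕ) : ℝ) ≤ q := by
      have h2 : (P : ℝ) ^ (1 / 2 : ℝ) ≤ (P : ℝ) ^ (1 / 2 + κ) := by
        rw [hexp]
        exact le_mul_of_one_le_right (by positivity) hPk1
      linarith
    exact_mod_cast h1
  have hmain := mean_bound hPp (by omega) rfl hk hPk hT hq hqo hqT hSq hSpos hN
  refine hmain.trans ?_
  have h1 : ((m.totient : ℕ) : ℝ) * ((Nat.sqrt P : ℕ) : ℝ) ≤ N * (1 / (P : ℝ) ^ (1 / 2 : ℝ)) := by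
    have h2 : ((m.totient : ℕ) : ℝ) ≤ N / P := by
      rw [le_div_iff₀ hPR]
      have h3 : m.totient * P ≤ N := by
        calc m.totient * P ≤ k * P := Nat.mul_le_mul_right _ ((Nat.totient_le m).trans hmk)
          _ = P * k := mul_comm _ _
          _ ≤ N := hN
      exact_mod_cast h3
    calc ((m.totient : ℕ) : ℝ) * ((Nat.sqrt P : ℕ) : ℝ) ≤ N / P * (P : ℝ) ^ (1 / 2 : ℝ) := by gcongr
      _ = N * (1 / (P : ℝ) ^ (1 / 2 : ℝ)) := by
          have h4 : (P : ℝ) = (P : ℝ) ^ (1 / 2 : ℝ) * (P : ℝ) ^ (1 / 2 : ℝ) := by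
            rw [← Real.rpow_add hPR]; norm_num
          have h5 : (0 : ℝ) < (P : ℝ) ^ (1 / 2 : ℝ) := by positivity
          rw [div_mul_eq_mul_div, div_eq_iff hPR.ne']
          rw [mul_one_div, div_mul_eq_mul_div, eq_div_iff h5.ne', mul_assoc, ← h4]
  have h2 : √((P : ℝ) / (((Nat.sqrt P : ℕ) : ℝ) * q)) ≤ 2 / (P : ℝ) ^ (κ / 2) := by
    rw [Real.sqrt_le_left (by positivity)]
    have h3 : (P : ℝ) ^ (1 / 2 : ℝ) / 2 ≤ ((Nat.sqrt P : ℕ) : ℝ) := by
      have h4 : (2 : ℝ) ≤ (P : ℝ) ^ (1 / 2 : ℝ) := by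
        have h5 : (2 : ℝ) = (4 : ℝ) ^ (1 / 2 : ℝ) := by
          rw [← Real.sqrt_eq_rpow, show (4 : ℝ) = 2 ^ 2 by norm_num]
          rw [Real.sqrt_sq (by norm_num)]
        calc (2 : ℝ) = (4 : ℝ) ^ (1 / 2 : ℝ) := h5
          _ ≤ (P : ℝ) ^ (1 / 2 : ℝ) := Real.rpow_le_rpow (by norm_num) hP4' (by norm_num)
      linarith
    have h5 : (P : ℝ) ^ (1 / 2 : ℝ) / 2 * ((P : ℝ) ^ (1 / 2 : ℝ) * (P : ℝ) ^ κ) ≤
        ((Nat.sqrt P : ℕ) : ℝ) * q := by
      rw [← hexp]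
      gcongr
    have h6 : (P : ℝ) ^ (1 / 2 : ℝ) / 2 * ((P : ℝ) ^ (1 / 2 : ℝ) * (P : ℝ) ^ κ) = P * (P : ℝ) ^ κ / 2 := by
      have h4 : (P : ℝ) = (P : ℝ) ^ (1 / 2 : ℝ) * (P : ℝ) ^ (1 / 2 : ℝ) := by
        rw [← Real.rpow_add hPR]; norm_num
      calc (P : ℝ) ^ (1 / 2 : ℝ) / 2 * ((P : ℝ) ^ (1 / 2 : ℝ) * (P : ℝ) ^ κ) =
          ((P : ℝ) ^ (1 / 2 : ℝ) * (P : ℝ) ^ (1 / 2 : ℝ)) * (P : ℝ) ^ κ / 2 := by ring
        _ = P * (P : ℝ) ^ κ / 2 := by rw [← h4]
    rw [h6] at h5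
    have h7 : (2 / (P : ℝ) ^ (κ / 2)) ^ 2 = 4 / (P : ℝ) ^ κ := by
      rw [div_pow, ← Real.rpow_natCast, ← Real.rpow_natCast ((P : ℝ) ^ (κ / 2)),
        ← Real.rpow_mul hPR.le]
      norm_num
    have hsR : (0 : ℝ) < ((Nat.sqrt P : ℕ) : ℝ) := by exact_mod_cast hSpos
    have hqR : (0 : ℝ) < q := by exact_mod_cast hq.pos
    have hPk0 : (0 : ℝ) < (P : ℝ) ^ κ := by positivity
    have hSqR := mul_pos hsR hqR
    rw [h7, div_le_div_iff₀ (mul_pos hsR hqR) hPk0]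
    linarith
  have h3 := hP0 P hP
  have hlog : 0 ≤ Real.log P := Real.log_natCast_nonneg P
  calc ((m.totient : ℕ) : ℝ) * ((Nat.sqrt P : ℕ) : ℝ) + N / P +
      N * (1 + Real.log P) * √((P : ℝ) / (((Nat.sqrt P : ℕ) : ℝ) * q)) ≤
      N * (1 / (P : ℝ) ^ (1 / 2 : ℝ)) + N / P + N * (1 + Real.log P) * (2 / (P : ℝ) ^ (κ / 2)) := by
        gcongr
    _ = N * (1 / (P : ℝ) ^ (1 / 2 : ℝ) + 1 / P + (1 + Real.log P) * (2 / (P : ℝ) ^ (κ / 2))) := by ring
    _ ≤ N * ε := by gcongr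
    _ = ε * N := mul_comm _ _

/-- many good primes -/
lemma GG_tower {τ κ : ℝ} {Y : ℕ} (hY : ∀ y : ℕ, Y ≤ y →
    τ ≤ ∑ P ∈ (GG κ (y ^ 2)).filter (fun P => y < P), 1 / (P : ℝ)) (y : ℕ) (hy : Y ≤ y) (hy1 : 1 ≤ y)
    (J : ℕ) : J * τ ≤ ∑ P ∈ (GG κ (y ^ 2 ^ J)).filter (fun P => y < P), 1 / (P : ℝ) := by
  classical
  induction J with
  | zero =>
    simp only [Nat.cast_zero, zero_mul]
    exact Finset.sum_nonneg fun _ _ => by positivity
  | succ J ih =>
    have hyJ : y ≤ y ^ 2 ^ J := Nat.le_self_pow (by positivity) y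
    have h1 := hY (y ^ 2 ^ J) (hy.trans hyJ)
    have h2 : (y ^ 2 ^ J) ^ 2 = y ^ 2 ^ (J + 1) := by rw [← pow_mul, pow_succ]
    rw [h2] at h1
    have h3 : Disjoint ((GG κ (y ^ 2 ^ J)).filter (fun P => y < P))
        ((GG κ (y ^ 2 ^ (J + 1))).filter (fun P => y ^ 2 ^ J < P)) := by
      rw [Finset.disjoint_left]
      intro P hP hP'
      rw [mem_filter] at hP hP'
      have := hP.1
      unfold GG at this
      rw [mem_filter, mem_Icc] at this
      omega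
    have h4 : (GG κ (y ^ 2 ^ J)).filter (fun P => y < P) ∪
        (GG κ (y ^ 2 ^ (J + 1))).filter (fun P => y ^ 2 ^ J < P) ⊆
        (GG κ (y ^ 2 ^ (J + 1))).filter (fun P => y < P) := by
      intro P hP
      rw [mem_union, mem_filter, mem_filter] at hP
      rw [mem_filter]
      rcases hP with ⟨h5, h6⟩ | ⟨h5, h6⟩
      · refine ⟨?_, h6⟩
        unfold GG at h5 ⊢
        rw [mem_filter, mem_Icc] at h5 ⊢
        refine ⟨⟨h5.1.1, h5.1.2.trans ?_⟩, h5.2⟩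
        exact Nat.pow_le_pow_right hy1 (Nat.pow_le_pow_right (by norm_num) (by omega))
      · exact ⟨h5, by omega⟩
    have h5 := Finset.sum_le_sum_of_subset_of_nonneg h4
      (fun (P : ℕ) _ _ => (by positivity : (0 : ℝ) ≤ 1 / (P : ℝ)))
    rw [Finset.sum_union h3] at h5
    push_cast
    linarith

/-- Turán's inequality -/
lemma turan (A : Finset ℕ) (hA : ∀ p ∈ A, p.Prime) (N : ℕ) (E : ℝ) (hE : E = ∑ p ∈ A, 1 / (p : ℝ))
    (hE0 : 0 < E) (hcard : A.card ≤ N) :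
    (((Icc 1 N).filter (fun i => ∀ p ∈ A, ¬ p ∣ i)).card : ℝ) ≤ 3 * N / E := by
  classical
  set X : ℕ → ℝ := fun i => ∑ p ∈ A, (if p ∣ i then (1 : ℝ) else 0) with hX
  have hcnt : ∀ d : ℕ, 0 < d → ∑ i ∈ Icc 1 N, (if d ∣ i then (1 : ℝ) else 0) = ((N / d : ℕ) : ℝ) := by
    intro d hd
    rw [← Finset.sum_filter, Finset.sum_const, nsmul_eq_mul, mul_one]
    congr 1
    have h1 : (Icc 1 N).filter (fun i => d ∣ i) = (Ioc 0 N).filter (fun i => d ∣ i) := by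
      ext i; simp only [mem_filter, mem_Icc, mem_Ioc]; omega
    rw [h1, Nat.Ioc_filter_dvd_card_eq_div]
  have h1 : ∑ i ∈ Icc 1 N, X i = ∑ p ∈ A, ((N / p : ℕ) : ℝ) := by
    rw [hX, Finset.sum_comm]
    exact Finset.sum_congr rfl fun p hp => hcnt p (hA p hp).pos
  have h1' : N * E - A.card ≤ ∑ i ∈ Icc 1 N, X i := by
    have h2 : (A.card : ℝ) = ∑ p ∈ A, (1 : ℝ) := by simp
    rw [h1, hE, Finset.mul_sum, h2, ← Finset.sum_sub_distrib]
    apply Finset.sum_le_sum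
    intro p hp
    have hp0 : (0 : ℝ) < p := by exact_mod_cast (hA p hp).pos
    have h3 : (N : ℝ) / p < ((N / p : ℕ) : ℝ) + 1 := by
      rw [div_lt_iff₀ hp0]
      have h4 := Nat.lt_mul_div_succ N (hA p hp).pos
      have h5 : (N : ℝ) < p * ((N / p : ℕ) + 1) := by exact_mod_cast h4
      linarith
    have h6 : (N : ℝ) * (1 / p) = N / p := by ring
    rw [h6]; linarith
  have h2 : ∑ i ∈ Icc 1 N, X i ^ 2 ≤ N * E + N * E ^ 2 := by
    have h3 : ∀ i ∈ Icc 1 N, X i ^ 2 = ∑ p ∈ A, ∑ r ∈ A,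
        ((if p ∣ i then (1 : ℝ) else 0) * (if r ∣ i then (1 : ℝ) else 0)) := by
      intro i _
      rw [pow_two, hX]
      simp only
      rw [Finset.sum_mul_sum]
    rw [Finset.sum_congr rfl h3, Finset.sum_comm]
    have h4 : ∀ p ∈ A, ∑ i ∈ Icc 1 N, ∑ r ∈ A,
        ((if p ∣ i then (1 : ℝ) else 0) * (if r ∣ i then (1 : ℝ) else 0)) ≤
        N * (1 / (p : ℝ)) + ∑ r ∈ A, N * (1 / (p : ℝ)) * (1 / (r : ℝ)) := by
      intro p hp
      have hp0 : (0 : ℝ) < p := by exact_mod_cast (hA p hp).pos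
      rw [Finset.sum_comm]
      have h5 : ∀ r ∈ A, ∑ i ∈ Icc 1 N,
          ((if p ∣ i then (1 : ℝ) else 0) * (if r ∣ i then (1 : ℝ) else 0)) ≤
          (if r = p then N * (1 / (p : ℝ)) else 0) + N * (1 / (p : ℝ)) * (1 / (r : ℝ)) := by
        intro r hr
        have hr0 : (0 : ℝ) < r := by exact_mod_cast (hA r hr).pos
        by_cases hrp : r = p
        · rw [if_pos hrp, hrp]
          have h6 : ∑ i ∈ Icc 1 N,
            ((if p ∣ i then (1 : ℝ) else 0) * (if p ∣ i then (1 : ℝ) else 0)) =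
              ∑ i ∈ Icc 1 N, (if p ∣ i then (1 : ℝ) else 0) := by
            apply Finset.sum_congr rfl
            intro i _
            split_ifs <;> simp
          rw [h6, hcnt p (hA p hp).pos]
          have h7 : ((N / p : ℕ) : ℝ) ≤ N / p := Nat.cast_div_le
          have h8 : (N : ℝ) * (1 / p) = N / p := by ring
          have h9 : 0 ≤ (N : ℝ) * (1 / p) * (1 / p) := by positivity
          linarith
        · rw [if_neg hrp, zero_add]
          have hco : Nat.Coprime p r := (Nat.coprime_primes (hA p hp) (hA r hr)).mpr (Ne.symm hrp)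
          have h6 : ∑ i ∈ Icc 1 N,
            ((if p ∣ i then (1 : ℝ) else 0) * (if r ∣ i then (1 : ℝ) else 0)) =
              ∑ i ∈ Icc 1 N, (if p * r ∣ i then (1 : ℝ) else 0) := by
            apply Finset.sum_congr rfl
            intro i _
            by_cases h7 : p * r ∣ i
            · rw [if_pos h7, if_pos ((Dvd.intro _ rfl).trans h7), if_pos ((Dvd.intro_left _ rfl).trans h7)]
              norm_num
            · rw [if_neg h7]
              by_cases h8 : p ∣ i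
              · rw [if_neg (fun h9 : r ∣ i => h7 (hco.mul_dvd_of_dvd_of_dvd h8 h9))]
                norm_num
              · rw [if_neg h8]; norm_num
          rw [h6, hcnt (p * r) (Nat.mul_pos (hA p hp).pos (hA r hr).pos)]
          have h7 : ((N / (p * r) : ℕ) : ℝ) ≤ N / ((p * r : ℕ) : ℝ) := Nat.cast_div_le
          have h8 : (N : ℝ) / ((p * r : ℕ) : ℝ) = N * (1 / (p : ℝ)) * (1 / (r : ℝ)) := by
            push_cast; field_simp
          rw [h8] at h7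
          exact h7
      refine (Finset.sum_le_sum h5).trans ?_
      rw [Finset.sum_add_distrib]
      apply add_le_add _ le_rfl
      rw [Finset.sum_ite_eq' A p]
      rw [if_pos hp]
    refine (Finset.sum_le_sum h4).trans ?_
    rw [Finset.sum_add_distrib, ← Finset.mul_sum, ← hE]
    apply add_le_add le_rfl
    apply le_of_eq
    have h5 : ∀ p ∈ A, ∑ r ∈ A, N * (1 / (p : ℝ)) * (1 / (r : ℝ)) = N * (1 / (p : ℝ)) * E := by
      intro p _
      rw [← Finset.mul_sum, ← hE]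
    rw [Finset.sum_congr rfl h5, ← Finset.sum_mul, ← Finset.mul_sum, ← hE]
    ring
  have h3 : ∑ i ∈ Icc 1 N, (X i - E) ^ 2 ≤ 3 * N * E := by
    have h4 : ∑ i ∈ Icc 1 N, (X i - E) ^ 2 =
        ∑ i ∈ Icc 1 N, X i ^ 2 - 2 * E * ∑ i ∈ Icc 1 N, X i + N * E ^ 2 := by
      have h5 : ∀ i ∈ Icc 1 N, (X i - E) ^ 2 = X i ^ 2 - 2 * E * X i + E ^ 2 := by
        intro i _; ring
      rw [Finset.sum_congr rfl h5, Finset.sum_add_distrib, Finset.sum_sub_distrib, ← Finset.mul_sum,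
        Finset.sum_const, Nat.card_Icc, nsmul_eq_mul]
      have : N + 1 - 1 = N := by omega
      rw [this]
    rw [h4]
    have h5 : 2 * E * (N * E - A.card) ≤ 2 * E * ∑ i ∈ Icc 1 N, X i :=
      mul_le_mul_of_nonneg_left h1' (by positivity)
    have h6 : (A.card : ℝ) ≤ N := by exact_mod_cast hcard
    have h7 : 2 * E * A.card ≤ 2 * E * N := mul_le_mul_of_nonneg_left h6 (by positivity)
    nlinarith
  set B := (Icc 1 N).filter (fun i => ∀ p ∈ A, ¬ p ∣ i) with hB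
  have h4 : ∑ i ∈ B, E ^ 2 ≤ ∑ i ∈ Icc 1 N, (X i - E) ^ 2 := by
    have h5 : ∑ i ∈ B, E ^ 2 = ∑ i ∈ B, (X i - E) ^ 2 := by
      apply Finset.sum_congr rfl
      intro i hi
      rw [hB, mem_filter] at hi
      have h6 : X i = 0 := by
        rw [hX]
        apply Finset.sum_eq_zero
        intro p hp
        rw [if_neg (hi.2 p hp)]
      rw [h6]; ring
    rw [h5]
    apply Finset.sum_le_sum_of_subset_of_nonneg (Finset.filter_subset _ _)
    intro _ _ _; positivity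
  rw [Finset.sum_const, nsmul_eq_mul] at h4
  rw [le_div_iff₀ hE0]
  have h5 := h4.trans h3
  have h6 : (B.card : ℝ) * E * E ≤ 3 * N * E := by
    calc (B.card : ℝ) * E * E = B.card * E ^ 2 := by ring
      _ ≤ _ := h5
  exact le_of_mul_le_mul_right h6 hE0

/-- prime factors of the totient -/
lemma dvd_totient {q k : ℕ} (hq : q.Prime) (hk : 0 < k) (h : q ∣ k.totient) :
    q ^ 2 ∣ k ∨ ∃ p : ℕ, p.Prime ∧ p ∣ k ∧ q ∣ p - 1 := by
  rw [Nat.totient_eq_prod_factorization hk.ne', Finsupp.prod] at h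
  obtain ⟨p, hp, hpd⟩ := (Prime.dvd_finsetProd_iff hq.prime _).mp h
  rw [Nat.support_factorization] at hp
  have hpp := Nat.prime_of_mem_primeFactors hp
  have hpk := Nat.dvd_of_mem_primeFactors hp
  rcases (Nat.Prime.dvd_mul hq).mp hpd with h1 | h1
  · left
    have h2 := hq.dvd_of_dvd_pow h1
    have h3 : q = p := (Nat.prime_dvd_prime_iff_eq hq hpp).mp h2
    have h4 : 2 ≤ k.factorization p := by
      by_contra h5
      have h6 : k.factorization p - 1 = 0 := by omega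
      rw [h6, pow_zero] at h1
      exact hq.one_lt.ne' (Nat.dvd_one.mp h1)
    rw [h3]
    exact (pow_dvd_pow p h4).trans (Nat.ordProj_dvd k p)
  · right
    exact ⟨p, hpp, hpk, h1⟩

lemma harm_le (K : ℕ) : ∑ j ∈ Icc 1 K, 1 / (j : ℝ) ≤ 1 + Real.log K := by
  have h9 := harmonic_le_one_add_log K
  rw [harmonic_eq_sum_Icc] at h9
  push_cast at h9
  simpa [one_div] using h9

/-- few `k` have a totient divisible by a large prime -/
lemma card_totient (q K : ℕ) (hq : q.Prime) :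
    (((Icc 1 K).filter (fun k => q ∣ k.totient)).card : ℝ) ≤ K * (2 + Real.log K) / q := by
  classical
  have hqR : (0 : ℝ) < q := by exact_mod_cast hq.pos
  have hsub : (Icc 1 K).filter (fun k => q ∣ k.totient) ⊆
      (Ioc 0 K).filter (fun k => q ^ 2 ∣ k) ∪
      (Icc 1 K).biUnion (fun j => (Ioc 0 K).filter (fun k => q * j + 1 ∣ k)) := by
    intro k hk
    rw [mem_filter, mem_Icc] at hk
    obtain ⟨⟨hk1, hkK⟩, hkd⟩ := hk
    rw [mem_union, mem_filter, mem_Ioc, mem_biUnion]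
    rcases dvd_totient hq hk1 hkd with h1 | ⟨p, hpp, hpk, hqp⟩
    · left; exact ⟨⟨by omega, hkK⟩, h1⟩
    · right
      obtain ⟨j, hj⟩ := hqp
      have hp2 := hpp.two_le
      have hpk' := Nat.le_of_dvd hk1 hpk
      have hj1 : 1 ≤ j := by
        rcases Nat.eq_zero_or_pos j with h2 | h2
        · rw [h2, mul_zero] at hj; omega
        · exact h2
      have hpj : p = q * j + 1 := by omega
      refine ⟨j, ?_, ?_⟩
      · rw [mem_Icc]
        refine ⟨hj1, ?_⟩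
        have : j ≤ q * j := Nat.le_mul_of_pos_left _ hq.pos
        omega
      · rw [mem_filter, mem_Ioc]
        exact ⟨⟨by omega, hkK⟩, hpj ▸ hpk⟩
  have h1 := (Finset.card_le_card hsub).trans (Finset.card_union_le _ _)
  have h2 : ((Icc 1 K).biUnion (fun j => (Ioc 0 K).filter (fun k => q * j + 1 ∣ k))).card ≤
      ∑ j ∈ Icc 1 K, K / (q * j + 1) := by
    refine Finset.card_biUnion_le.trans (le_of_eq ?_)
    apply Finset.sum_congr rfl
    intro j _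
    rw [Nat.Ioc_filter_dvd_card_eq_div]
  rw [Nat.Ioc_filter_dvd_card_eq_div] at h1
  have h3 : (((Icc 1 K).filter (fun k => q ∣ k.totient)).card : ℝ) ≤
      ((K / q ^ 2 : ℕ) : ℝ) + ∑ j ∈ Icc 1 K, ((K / (q * j + 1) : ℕ) : ℝ) := by
    have : ((Icc 1 K).filter (fun k => q ∣ k.totient)).card ≤ K / q ^ 2 +
      ∑ j ∈ Icc 1 K, K / (q * j + 1) := by omega
    exact_mod_cast this
  have h4 : ((K / q ^ 2 : ℕ) : ℝ) ≤ K / q := by
    have h5 : K / q ^ 2 ≤ K / q := Nat.div_le_div_left (by rw [pow_two]; exact Nat.le_mul_of_pos_left _ hq.pos) hq.pos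
    exact (by exact_mod_cast h5 : ((K / q ^ 2 : ℕ) : ℝ) ≤ ((K / q : ℕ) : ℝ)).trans Nat.cast_div_le
  have h5 : ∑ j ∈ Icc 1 K, ((K / (q * j + 1) : ℕ) : ℝ) ≤ K / q * (1 + Real.log K) := by
    have h6 : ∑ j ∈ Icc 1 K, ((K / (q * j + 1) : ℕ) : ℝ) ≤ ∑ j ∈ Icc 1 K, (K / q : ℝ) * (1 / (j : ℝ)) := by
      apply Finset.sum_le_sum
      intro j hj
      rw [mem_Icc] at hj
      have hj0 : (0 : ℝ) < j := by exact_mod_cast hj.1
      have h7 : ((K / (q * j + 1) : ℕ) : ℝ) ≤ K / ((q * j + 1 : ℕ) : ℝ) := Nat.cast_div_le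
      refine h7.trans ?_
      push_cast
      rw [div_mul_div_comm, mul_one]
      apply div_le_div_of_nonneg_left (Nat.cast_nonneg K) (by positivity)
      linarith
    refine h6.trans ?_
    rw [← Finset.mul_sum]
    apply mul_le_mul_of_nonneg_left (harm_le K) (by positivity)
  calc (((Icc 1 K).filter (fun k => q ∣ k.totient)).card : ℝ) ≤ K / q + K / q * (1 + Real.log K) := by
        linarith
    _ = K * (2 + Real.log K) / q := by ring

end Pool.Agent.Q252.FU
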