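import Pool.Agent.Q252.FU4

set_option autoImplicit false

/-!
# The mean of `S(2^n, n)`
-/

namespace Pool.Agent.Q252.FU

open Finset Filter

/-- Almost all `i ≤ N` are fine. -/
theorem exceptional (ε : ℝ) (hε : 0 < ε) : ∃ N0 : ℕ, ∀ N : ℕ, N0 ≤ N → ∃ F : Finset ℕ,
    F ⊆ Icc 1 N ∧ (F.card : ℝ) ≤ ε * N ∧ ∀ i ∈ Icc 1 N, i ∉ F →
      |∑ n ∈ Ico i (N + 1), (((2 ^ n % i : ℕ) : ℝ) / (i : ℝ) - 1 / 2)| ≤ ε * N := by
  classical
  obtain ⟨τ, κ, hτ, hκ, hκ4, Y, hY⟩ := GG_sum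
  obtain ⟨J, hJ⟩ : ∃ J : ℕ, 6 / (τ * ε) < J := exists_nat_gt _
  have hJ0 : (0 : ℝ) < J := lt_trans (by positivity) hJ
  obtain ⟨P0, hP04, hgood⟩ := good_bound κ hκ ε hε
  -- the condition on `ℓ`
  have hev : ∀ᶠ l : ℕ in atTop, Y ≤ l ∧ P0 ≤ l ∧ 1 ≤ l ∧ l ^ (6 * 2 ^ J) ≤ 2 ^ l ∧ 40 / ε ≤ l := by
    have h1 : ∀ᶠ l : ℕ in atTop, l ^ (6 * 2 ^ J) ≤ 2 ^ l := by
      have h2 := tendsto_pow_const_div_const_pow_of_one_lt (6 * 2 ^ J) (by norm_num : (1 : ℝ) < 2)
      have h3 := h2.eventually (gt_mem_nhds (by norm_num : (0 : ℝ) < 1))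
      filter_upwards [h3] with l hl
      rw [div_lt_one (by positivity)] at hl
      exact_mod_cast hl.le
    have h4 : ∀ᶠ l : ℕ in atTop, 40 / ε ≤ (l : ℝ) :=
      tendsto_natCast_atTop_atTop.eventually_ge_atTop _
    filter_upwards [eventually_ge_atTop Y, eventually_ge_atTop P0, eventually_ge_atTop 1, h1, h4]
      with l h5 h6 h7 h8 h9
    exact ⟨h5, h6, h7, h8, h9⟩
  obtain ⟨L, hL⟩ := eventually_atTop.mp hev
  refine ⟨2 ^ (L + 1), fun N hN => ?_⟩
  set l := Nat.log 2 N with hl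
  have hN0 : N ≠ 0 := by
    have : 0 < 2 ^ (L + 1) := by positivity
    omega
  have hNR : (0 : ℝ) < N := by exact_mod_cast Nat.pos_of_ne_zero hN0
  have hLl : L ≤ l := by
    have h1 : L + 1 ≤ Nat.log 2 N := Nat.le_log_of_pow_le (by norm_num) hN
    omega
  obtain ⟨h1, h2, h3, h4, h5⟩ := hL l hLl
  have hlR : (1 : ℝ) ≤ l := by exact_mod_cast h3
  have hlog : Real.log N ≤ l + 1 := by
    have h6 : N < 2 ^ (l + 1) := Nat.lt_pow_succ_log_self (by norm_num) N
    have h7 : (N : ℝ) ≤ (2 : ℝ) ^ (l + 1) := by exact_mod_cast h6.le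
    have h8 := Real.log_le_log hNR h7
    rw [Real.log_pow] at h8
    have h9 : Real.log 2 ≤ 1 := by
      have := Real.log_le_sub_one_of_pos (show (0 : ℝ) < 2 by norm_num)
      linarith
    calc Real.log N ≤ ((l + 1 : ℕ) : ℝ) * Real.log 2 := h8
      _ ≤ ((l + 1 : ℕ) : ℝ) * 1 := by gcongr
      _ = l + 1 := by push_cast; ring
  have hlog0 : 0 ≤ Real.log N := Real.log_natCast_nonneg N
  set y := l ^ 6 with hy
  have hly : l ≤ y := Nat.le_self_pow (by norm_num) l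
  have hyN : y ^ 2 ^ J ≤ N := by
    rw [hy, ← pow_mul]
    exact h4.trans (Nat.pow_log_le_self 2 hN0)
  set A := (GG κ (y ^ 2 ^ J)).filter (fun P => y < P) with hA
  have hAmem : ∀ P ∈ A, y < P ∧ P ≤ N ∧ GP κ P := by
    intro P hP
    rw [hA, mem_filter] at hP
    have h6 := hP.1
    unfold GG at h6
    rw [mem_filter, mem_Icc] at h6
    exact ⟨hP.2, h6.1.2.trans hyN, h6.2⟩
  set E := ∑ p ∈ A, 1 / (p : ℝ) with hE
  have hEJ : J * τ ≤ E := GG_tower hY y (h1.trans hly) (h3.trans hly) J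
  have hE0 : 0 < E := lt_of_lt_of_le (by positivity) hEJ
  have hElog : E ≤ l + 2 := by
    have h6 : E ≤ ∑ j ∈ Icc 1 N, 1 / (j : ℝ) := by
      apply Finset.sum_le_sum_of_subset_of_nonneg
      · intro P hP
        have h7 := hAmem P hP
        rw [mem_Icc]
        exact ⟨h7.2.2.1.one_lt.le, h7.2.1⟩
      · intro _ _ _; positivity
    have h7 := harm_le N
    linarith
  have hAcard : A.card ≤ N := by
    have h6 : A ⊆ Icc 1 N := by
      intro P hP
      have h7 := hAmem P hP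
      rw [mem_Icc]
      exact ⟨h7.2.2.1.one_lt.le, h7.2.1⟩
    have h7 := Finset.card_le_card h6
    rw [Nat.card_Icc] at h7
    omega
  -- the prime factor `q (P)`
  have hqex : ∀ P : ℕ, ∃ q : ℕ, P ∈ A → q.Prime ∧ (P : ℝ) ^ (1 / 2 + κ) < q ∧
      q ∣ orderOf (2 : ZMod P) := by
    intro P
    by_cases hP : P ∈ A
    · obtain ⟨q, hq⟩ := (hAmem P hP).2.2.2
      exact ⟨q, fun _ => hq⟩
    · exact ⟨0, fun h => absurd h hP⟩
  choose q hq using hqex
  have hqbig : ∀ P ∈ A, (l : ℝ) ^ 3 ≤ q P := by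
    intro P hP
    have h6 := hAmem P hP
    have hPR : (1 : ℝ) ≤ P := by exact_mod_cast h6.2.2.1.one_lt.le
    have h7 : ((l : ℝ) ^ 6) ≤ P := by
      have : l ^ 6 ≤ P := h6.1.le
      exact_mod_cast this
    have h8 : (l : ℝ) ^ 3 = ((l : ℝ) ^ 6) ^ (1 / 2 : ℝ) := by
      rw [← Real.sqrt_eq_rpow, show (l : ℝ) ^ 6 = ((l : ℝ) ^ 3) ^ 2 by ring,
        Real.sqrt_sq (by positivity)]
    calc (l : ℝ) ^ 3 = ((l : ℝ) ^ 6) ^ (1 / 2 : ℝ) := h8
      _ ≤ (P : ℝ) ^ (1 / 2 : ℝ) := Real.rpow_le_rpow (by positivity) h7 (by norm_num)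
      _ ≤ (P : ℝ) ^ (1 / 2 + κ) := Real.rpow_le_rpow_of_exponent_le hPR (by linarith)
      _ ≤ q P := (hq P hP).2.1.le
  -- the exceptional sets
  set F1 := (Icc 1 N).filter (fun i => ∀ p ∈ A, ¬ p ∣ i) with hF1
  set F2 := A.biUnion (fun P => (Ioc 0 N).filter (fun i => P ^ 2 ∣ i)) with hF2
  set F3 := A.biUnion (fun P => (Icc 1 N).filter (fun i => P ∣ i ∧ q P ∣ (i / P).totient)) with hF3
  refine ⟨F1 ∪ F2 ∪ F3, ?_, ?_, ?_⟩
  · intro i hi
    rw [mem_union, mem_union, hF1, hF2, hF3, mem_filter, mem_biUnion, mem_biUnion] at hi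
    rw [mem_Icc]
    rcases hi with (hi | ⟨P, _, hi⟩) | ⟨P, _, hi⟩
    · exact mem_Icc.mp hi.1
    · rw [mem_filter, mem_Ioc] at hi; omega
    · rw [mem_filter, mem_Icc] at hi; exact hi.1
  · have hc1 : (F1.card : ℝ) ≤ ε / 2 * N := by
      refine (turan A (fun p hp => (hAmem p hp).2.2.1) N E hE hE0 hAcard).trans ?_
      rw [div_le_iff₀ hE0]
      have h6 : 3 ≤ ε / 2 * (J * τ) := by
        rw [div_lt_iff₀ (by positivity)] at hJ
        have h7 : ε / 2 * (J * τ) = (J * (τ * ε)) / 2 := by ring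
        rw [h7]; linarith
      calc 3 * (N : ℝ) ≤ ε / 2 * (J * τ) * N := by gcongr
        _ ≤ ε / 2 * E * N := by gcongr
        _ = ε / 2 * N * E := by ring
    have hc2 : (F2.card : ℝ) ≤ 3 / (l : ℝ) * N := by
      have h6 : F2.card ≤ ∑ P ∈ A, N / P ^ 2 := by
        refine Finset.card_biUnion_le.trans (le_of_eq ?_)
        exact Finset.sum_congr rfl fun P _ => by rw [Nat.Ioc_filter_dvd_card_eq_div]
      have h7 : (F2.card : ℝ) ≤ ∑ P ∈ A, ((N / P ^ 2 : ℕ) : ℝ) := by exact_mod_cast h6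
      refine h7.trans ?_
      have h8 : ∀ P ∈ A, ((N / P ^ 2 : ℕ) : ℝ) ≤ N / (l : ℝ) ^ 2 * (1 / (P : ℝ)) := by
        intro P hP
        have h9 := hAmem P hP
        have hPR : (0 : ℝ) < P := by exact_mod_cast h9.2.2.1.pos
        have h10 : ((N / P ^ 2 : ℕ) : ℝ) ≤ N / ((P ^ 2 : ℕ) : ℝ) := Nat.cast_div_le
        refine h10.trans ?_
        push_cast
        rw [div_mul_div_comm, mul_one]
        apply div_le_div_of_nonneg_left hNR.le (by positivity)
        rw [pow_two (P : ℝ)]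
        have h11 : (l : ℝ) ^ 2 ≤ P := by
          have h12 : (l : ℝ) ^ 2 ≤ (l : ℝ) ^ 6 := pow_le_pow_right₀ hlR (by norm_num)
          have h13 : (l : ℝ) ^ 6 ≤ P := by exact_mod_cast h9.1.le
          linarith
        gcongr
      refine (Finset.sum_le_sum h8).trans ?_
      rw [← Finset.mul_sum, ← hE]
      have h14 : E ≤ 3 * l := by linarith
      calc (N : ℝ) / (l : ℝ) ^ 2 * E ≤ (N : ℝ) / (l : ℝ) ^ 2 * (3 * (l : ℝ)) := by gcongr
        _ = 3 / (l : ℝ) * N := by field_simp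
    have hc3 : (F3.card : ℝ) ≤ 12 / (l : ℝ) * N := by
      have h6 : F3.card ≤ ∑ P ∈ A, ((Icc 1 (N / P)).filter (fun k => q P ∣ k.totient)).card := by
        refine Finset.card_biUnion_le.trans ?_
        apply Finset.sum_le_sum
        intro P hP
        have hPp := (hAmem P hP).2.2.1.pos
        apply Finset.card_le_card_of_injOn (fun i => i / P)
        · intro i hi
          rw [mem_coe, mem_filter, mem_Icc] at hi
          obtain ⟨⟨hi1, hiN⟩, hPi, hqi⟩ := hi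
          rw [mem_coe, mem_filter, mem_Icc]
          exact ⟨⟨Nat.div_pos (Nat.le_of_dvd hi1 hPi) hPp, Nat.div_le_div_right hiN⟩, hqi⟩
        · intro i hi j hj hij
          rw [mem_coe, mem_filter, mem_Icc] at hi hj
          simp only at hij
          rw [← Nat.div_mul_cancel hi.2.1, ← Nat.div_mul_cancel hj.2.1, hij]
      have h7 : (F3.card : ℝ) ≤ ∑ P ∈ A,
          (((Icc 1 (N / P)).filter (fun k => q P ∣ k.totient)).card : ℝ) := by exact_mod_cast h6
      refine h7.trans ?_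
      have h8 : ∀ P ∈ A, (((Icc 1 (N / P)).filter (fun k => q P ∣ k.totient)).card : ℝ) ≤
          N * (l + 3) / (l : ℝ) ^ 3 * (1 / (P : ℝ)) := by
        intro P hP
        have h9 := hAmem P hP
        have hPR : (0 : ℝ) < P := by exact_mod_cast h9.2.2.1.pos
        have h10 := card_totient (q P) (N / P) (hq P hP).1
        refine h10.trans ?_
        have h11 : ((N / P : ℕ) : ℝ) ≤ N / P := Nat.cast_div_le
        have h12 : Real.log ((N / P : ℕ) : ℝ) ≤ l + 1 := by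
          rcases Nat.eq_zero_or_pos (N / P) with h13 | h13
          · rw [h13]; simp; positivity
          · have h14 : ((N / P : ℕ) : ℝ) ≤ N := by exact_mod_cast Nat.div_le_self N P
            exact (Real.log_le_log (by exact_mod_cast h13) h14).trans hlog
        have h13 : 0 ≤ Real.log ((N / P : ℕ) : ℝ) := Real.log_natCast_nonneg _
        have h15 := hqbig P hP
        have h16 : (0 : ℝ) < q P := by exact_mod_cast (hq P hP).1.pos
        calc ((N / P : ℕ) : ℝ) * (2 + Real.log ((N / P : ℕ) : ℝ)) / (q P : ℝ) ≤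
            (N / P) * (2 + (l + 1)) / (l : ℝ) ^ 3 := by gcongr
          _ = N * (l + 3) / (l : ℝ) ^ 3 * (1 / (P : ℝ)) := by ring
      refine (Finset.sum_le_sum h8).trans ?_
      rw [← Finset.mul_sum, ← hE]
      have h14 : E ≤ 3 * l := by linarith
      calc (N : ℝ) * (l + 3) / (l : ℝ) ^ 3 * E ≤ (N : ℝ) * (4 * (l : ℝ)) / (l : ℝ) ^ 3 * (3 * (l : ℝ)) := by
            gcongr
            linarith
        _ = 12 / (l : ℝ) * N := by field_simp; norm_num
    have h6 : ((F1 ∪ F2 ∪ F3).card : ℝ) ≤ (F1.card : ℝ) + F2.card + F3.card := by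
      have h7 := Finset.card_union_le (F1 ∪ F2) F3
      have h8 := Finset.card_union_le F1 F2
      have : (F1 ∪ F2 ∪ F3).card ≤ F1.card + F2.card + F3.card := by omega
      exact_mod_cast this
    have h7 : 15 / (l : ℝ) ≤ ε / 2 := by
      rw [div_le_iff₀ (by linarith)]
      rw [div_le_iff₀ hε] at h5
      linarith
    have h8 : 15 / (l : ℝ) * N ≤ ε / 2 * N := by gcongr
    have h9 : 3 / (l : ℝ) * N + 12 / l * N = 15 / l * N := by ring
    linarith
  · intro i hi hiF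
    rw [mem_union, mem_union, not_or, not_or] at hiF
    obtain ⟨⟨hi1, hi2⟩, hi3⟩ := hiF
    have hi' := mem_Icc.mp hi
    have h6 : ∃ p ∈ A, p ∣ i := by
      by_contra h7
      push Not at h7
      exact hi1 (by rw [hF1, mem_filter]; exact ⟨hi, h7⟩)
    obtain ⟨P, hPA, hPi⟩ := h6
    obtain ⟨k, hk⟩ := hPi
    have h7 := hAmem P hPA
    have hPp := h7.2.2.1
    have hkpos : 0 < k := by
      rcases Nat.eq_zero_or_pos k with h8 | h8
      · rw [h8, mul_zero] at hk; omega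
      · exact h8
    have hPk : ¬ P ∣ k := by
      rintro ⟨j, hj⟩
      apply hi2
      rw [hF2, mem_biUnion]
      refine ⟨P, hPA, ?_⟩
      rw [mem_filter, mem_Ioc]
      exact ⟨⟨by omega, hi'.2⟩, ⟨j, by rw [hk, hj]; ring⟩⟩
    have hqk : ¬ q P ∣ k.totient := by
      intro h8
      apply hi3
      rw [hF3, mem_biUnion]
      refine ⟨P, hPA, ?_⟩
      rw [mem_filter]
      refine ⟨hi, ⟨k, hk⟩, ?_⟩
      rw [hk, Nat.mul_div_cancel_left k hPp.pos]
      exact h8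
    have h8 := hgood P (q P) k N (by omega) hPp (hq P hPA).1 (hq P hPA).2.1 (hq P hPA).2.2 hkpos
      hPk hqk (by omega)
    rw [hk]
    exact h8

end Pool.Agent.Q252.FU
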