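import Pool.Agent.Q252.FU5

set_option autoImplicit false

/-!
# The sum of `S(2^n, n)`
-/

namespace Pool.Agent.Q252.FU

open Finset Filter

lemma sum_i (N : ℕ) : ∑ i ∈ Icc 1 N, (i : ℝ) = N * (N + 1) / 2 := by
  induction N with
  | zero => simp
  | succ N ih => rw [Finset.sum_Icc_succ_top (by omega), ih]; push_cast; ring

lemma sum_i2 (N : ℕ) : ∑ i ∈ Icc 1 N, (i : ℝ) ^ 2 = N * (N + 1) * (2 * N + 1) / 6 := by
  induction N with
  | zero => simp
  | succ N ih => rw [Finset.sum_Icc_succ_top (by omega), ih]; push_cast; ring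

lemma swap (N : ℕ) : (∑ n ∈ Icc 1 N, ((∑ i ∈ Icc 1 n, 2 ^ n % i : ℕ) : ℝ)) =
    ∑ i ∈ Icc 1 N, ∑ n ∈ Ico i (N + 1), ((2 ^ n % i : ℕ) : ℝ) := by
  push_cast
  apply Finset.sum_comm'
  intro n i
  simp only [mem_Icc, mem_Ico]
  omega

lemma near (ε : ℝ) (hε : 0 < ε) : ∃ N0 : ℕ, ∀ N : ℕ, N0 ≤ N →
    |(∑ n ∈ Icc 1 N, ((∑ i ∈ Icc 1 n, 2 ^ n % i : ℕ) : ℝ)) - N * (N + 1) * (N + 2) / 12| ≤
      2 * ε * N ^ 3 := by
  classical
  obtain ⟨N0, hN0⟩ := exceptional ε hε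
  refine ⟨N0, fun N hN => ?_⟩
  obtain ⟨F, hF, hFc, hgood⟩ := hN0 N hN
  have hNR : (0 : ℝ) ≤ N := Nat.cast_nonneg N
  set D : ℕ → ℝ := fun i => ∑ n ∈ Ico i (N + 1), (((2 ^ n % i : ℕ) : ℝ) / (i : ℝ) - 1 / 2) with hD
  have h1 : ∀ i ∈ Icc 1 N, ∑ n ∈ Ico i (N + 1), ((2 ^ n % i : ℕ) : ℝ) =
      i * D i + (i * (N + 1) - i ^ 2) / 2 := by
    intro i hi
    rw [mem_Icc] at hi
    have hiR : (i : ℝ) ≠ 0 := by
      have : (0 : ℝ) < i := by exact_mod_cast (by omega : 0 < i)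
      exact this.ne'
    rw [hD]
    simp only
    rw [Finset.sum_sub_distrib, Finset.sum_const, Nat.card_Ico, nsmul_eq_mul, ← Finset.sum_div]
    rw [Nat.cast_sub (by omega : i ≤ N + 1)]
    push_cast
    field_simp
    ring
  rw [swap, Finset.sum_congr rfl h1, Finset.sum_add_distrib, ← Finset.sum_div, Finset.sum_sub_distrib,
    ← Finset.sum_mul, sum_i, sum_i2]
  have h2 : ∑ i ∈ Icc 1 N, (i : ℝ) * D i + (N * (N + 1) / 2 * (N + 1) - N * (N + 1) * (2 * N + 1) / 6) / 2 -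
      N * (N + 1) * (N + 2) / 12 = ∑ i ∈ Icc 1 N, (i : ℝ) * D i := by ring
  rw [h2]
  have hDtriv : ∀ i ∈ Icc 1 N, |D i| ≤ N / 2 := by
    intro i hi
    rw [mem_Icc] at hi
    have hiR : (0 : ℝ) < i := by exact_mod_cast (by omega : 0 < i)
    calc |D i| ≤ ∑ n ∈ Ico i (N + 1), |((2 ^ n % i : ℕ) : ℝ) / (i : ℝ) - 1 / 2| :=
          Finset.abs_sum_le_sum_abs _ _
      _ ≤ ∑ n ∈ Ico i (N + 1), (1 / 2 : ℝ) := by
          apply Finset.sum_le_sum
          intro n _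
          have h3 : ((2 ^ n % i : ℕ) : ℝ) < i := by exact_mod_cast Nat.mod_lt _ (by omega)
          have h4 : ((2 ^ n % i : ℕ) : ℝ) / i < 1 := by rw [div_lt_one hiR]; exact h3
          have h5 : 0 ≤ ((2 ^ n % i : ℕ) : ℝ) / i := by positivity
          rw [abs_le]
          constructor <;> linarith
      _ = ((N + 1 - i : ℕ) : ℝ) * (1 / 2) := by rw [Finset.sum_const, Nat.card_Ico, nsmul_eq_mul]
      _ ≤ N * (1 / 2) := by
          have : ((N + 1 - i : ℕ) : ℝ) ≤ N := by exact_mod_cast (by omega : N + 1 - i ≤ N)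
          gcongr
      _ = N / 2 := by ring
  have h3 : ∀ i ∈ Icc 1 N, |(i : ℝ) * D i| ≤ ε * N ^ 2 + (if i ∈ F then (N : ℝ) ^ 2 / 2 else 0) := by
    intro i hi
    have hi' := mem_Icc.mp hi
    have hiN : (i : ℝ) ≤ N := by exact_mod_cast hi'.2
    rw [abs_mul, abs_of_nonneg (Nat.cast_nonneg i)]
    by_cases hiF : i ∈ F
    · rw [if_pos hiF]
      have h4 := hDtriv i hi
      have h5 : (i : ℝ) * |D i| ≤ N * (N / 2) := mul_le_mul hiN h4 (abs_nonneg _) hNR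
      have h6 : 0 ≤ ε * (N : ℝ) ^ 2 := by positivity
      calc (i : ℝ) * |D i| ≤ N * (N / 2) := h5
        _ = (N : ℝ) ^ 2 / 2 := by ring
        _ ≤ ε * N ^ 2 + (N : ℝ) ^ 2 / 2 := by linarith
    · rw [if_neg hiF, add_zero]
      have h4 := hgood i hi hiF
      calc (i : ℝ) * |D i| ≤ N * (ε * N) := mul_le_mul hiN h4 (abs_nonneg _) hNR
        _ = ε * N ^ 2 := by ring
  calc |∑ i ∈ Icc 1 N, (i : ℝ) * D i| ≤ ∑ i ∈ Icc 1 N, |(i : ℝ) * D i| :=
        Finset.abs_sum_le_sum_abs _ _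
    _ ≤ ∑ i ∈ Icc 1 N, (ε * N ^ 2 + (if i ∈ F then (N : ℝ) ^ 2 / 2 else 0)) := Finset.sum_le_sum h3
    _ = N * (ε * N ^ 2) + F.card * (N ^ 2 / 2) := by
        rw [Finset.sum_add_distrib, Finset.sum_const, Nat.card_Icc, nsmul_eq_mul,
          ← Finset.sum_filter, Finset.sum_const, nsmul_eq_mul]
        have h5 : (Icc 1 N).filter (fun i => i ∈ F) = F := by
          ext i
          rw [mem_filter]
          exact ⟨fun h => h.2, fun h => ⟨hF h, h⟩⟩
        rw [h5]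
        have : N + 1 - 1 = N := by omega
        rw [this]
    _ ≤ N * (ε * N ^ 2) + (ε * N) * (N ^ 2 / 2) := by gcongr
    _ ≤ 2 * ε * N ^ 3 := by
        have : 0 ≤ ε * (N : ℝ) ^ 3 := by positivity
        nlinarith

/-- `∑_{n ≤ N} S(2^n, n) ~ N³ / 12` -/
theorem sum_lim : Tendsto (fun N : ℕ => (∑ n ∈ Icc 1 N, ((∑ i ∈ Icc 1 n, 2 ^ n % i : ℕ) : ℝ)) /
    (N : ℝ) ^ 3) atTop (nhds (1 / 12)) := by
  have hlim : Tendsto (fun N : ℕ => ((N : ℝ) * (N + 1) * (N + 2) / 12) / (N : ℝ) ^ 3) atTop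
      (nhds (1 / 12)) := by
    have h1 : Tendsto (fun N : ℕ => 1 / (N : ℝ)) atTop (nhds 0) := tendsto_one_div_atTop_nhds_zero_nat
    have h2 : Tendsto (fun N : ℕ => (1 + 1 / (N : ℝ)) * (1 + 2 * (1 / (N : ℝ))) / 12) atTop
        (nhds ((1 + 0) * (1 + 2 * 0) / 12)) :=
      ((h1.const_add 1).mul ((h1.const_mul 2).const_add 1)).div_const 12
    have h3 : ((1 : ℝ) + 0) * (1 + 2 * 0) / 12 = 1 / 12 := by norm_num
    rw [h3] at h2
    refine h2.congr' ?_
    filter_upwards [eventually_ge_atTop 1] with N hN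
    have hNR : (N : ℝ) ≠ 0 := by
      have : (0 : ℝ) < N := by exact_mod_cast (by omega : 0 < N)
      exact this.ne'
    field_simp
  have hdiff : Tendsto (fun N : ℕ => (∑ n ∈ Icc 1 N, ((∑ i ∈ Icc 1 n, 2 ^ n % i : ℕ) : ℝ)) /
    (N : ℝ) ^ 3 - ((N : ℝ) * (N + 1) * (N + 2) / 12) / (N : ℝ) ^ 3) atTop (nhds 0) := by
    rw [Metric.tendsto_atTop]
    intro ε hε
    obtain ⟨N0, hN0⟩ := near (ε / 4) (by positivity)
    refine ⟨max N0 1, fun N hN => ?_⟩
    have h1 := hN0 N (le_trans (le_max_left _ _) hN)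
    have hN1 : 1 ≤ N := le_trans (le_max_right _ _) hN
    have hNR : (0 : ℝ) < N := by exact_mod_cast (by omega : 0 < N)
    rw [Real.dist_eq, sub_zero, ← sub_div, abs_div, abs_of_pos (by positivity : (0 : ℝ) < (N : ℝ) ^ 3),
      div_lt_iff₀ (by positivity)]
    have h2 : 0 < ε * (N : ℝ) ^ 3 := by positivity
    calc _ ≤ 2 * (ε / 4) * (N : ℝ) ^ 3 := h1
      _ < ε * (N : ℝ) ^ 3 := by linarith
  have h := hdiff.add hlim
  simp only [zero_add, sub_add_cancel] at h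
  exact h

/-- The only possible limit is `1/4`. -/
theorem only_quarter (L : ℝ)
    (hL : Tendsto (fun n : ℕ => ((∑ i ∈ Icc 1 n, 2 ^ n % i : ℕ) : ℝ) / (n : ℝ) ^ 2) atTop (nhds L)) :
    L = 1 / 4 := by
  set s : ℕ → ℝ := fun n => ((∑ i ∈ Icc 1 n, 2 ^ n % i : ℕ) : ℝ) with hs
  have h1 : (fun n : ℕ => s n - L * (n : ℝ) ^ 2) =o[atTop] (fun n : ℕ => (n : ℝ) ^ 2) := by
    rw [Asymptotics.isLittleO_iff_tendsto']
    · have h2 := hL.sub_const L
      rw [sub_self] at h2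
      refine h2.congr' ?_
      filter_upwards [eventually_ge_atTop 1] with n hn
      have hnR : (n : ℝ) ≠ 0 := by
        have : (0 : ℝ) < n := by exact_mod_cast (by omega : 0 < n)
        exact this.ne'
      simp only [hs]
      field_simp
    · filter_upwards [eventually_ge_atTop 1] with n hn h3
      have : (0 : ℝ) < n := by exact_mod_cast (by omega : 0 < n)
      have : (0 : ℝ) < (n : ℝ) ^ 2 := by positivity
      linarith
  have hsum2 : ∀ N : ℕ, ∑ i ∈ range (N + 1), (i : ℝ) ^ 2 = N * (N + 1) * (2 * N + 1) / 6 := by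
    intro N
    induction N with
    | zero => simp
    | succ N ih => rw [Finset.sum_range_succ, ih]; push_cast; ring
  have h4 : Tendsto (fun n : ℕ => ∑ i ∈ range n, (i : ℝ) ^ 2) atTop atTop := by
    rw [← tendsto_add_atTop_iff_nat 1]
    have h5 : Tendsto (fun N : ℕ => (N : ℝ)) atTop atTop := tendsto_natCast_atTop_atTop
    refine tendsto_atTop_mono (fun N => ?_) (h5.atTop_div_const (by norm_num : (0 : ℝ) < 6))
    rw [hsum2]
    have hN : (0 : ℝ) ≤ N := Nat.cast_nonneg N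
    apply div_le_div_of_nonneg_right _ (by norm_num)
    nlinarith [mul_nonneg hN hN, mul_nonneg (mul_nonneg hN hN) hN]
  have h6 := h1.sum_range (fun n => by positivity) h4
  have h7 : (fun N : ℕ => ∑ i ∈ range (N + 1), (s i - L * (i : ℝ) ^ 2)) =o[atTop]
      (fun N : ℕ => ∑ i ∈ range (N + 1), (i : ℝ) ^ 2) := h6.comp_tendsto (tendsto_add_atTop_nat 1)
  have h8 : (fun N : ℕ => ∑ i ∈ range (N + 1), (i : ℝ) ^ 2) =O[atTop] (fun N : ℕ => (N : ℝ) ^ 3) := by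
    apply Asymptotics.IsBigO.of_bound 1
    filter_upwards [eventually_ge_atTop 1] with N hN
    rw [hsum2, one_mul, Real.norm_eq_abs, Real.norm_eq_abs, abs_of_nonneg (by positivity),
      abs_of_nonneg (by positivity)]
    have hNR : (1 : ℝ) ≤ N := by exact_mod_cast hN
    rw [div_le_iff₀ (by norm_num)]
    nlinarith [mul_nonneg (sub_nonneg.mpr hNR) (by positivity : (0 : ℝ) ≤ N),
      mul_nonneg (mul_nonneg (sub_nonneg.mpr hNR) (by positivity : (0 : ℝ) ≤ N)) (by positivity : (0 : ℝ) ≤ N)]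
  have h9 := (h7.trans_isBigO h8).tendsto_div_nhds_zero
  have h10 : ∀ N : ℕ, ∑ i ∈ range (N + 1), (s i - L * (i : ℝ) ^ 2) =
      ∑ n ∈ Icc 1 N, s n - L * (N * (N + 1) * (2 * N + 1) / 6) := by
    intro N
    rw [Finset.sum_sub_distrib, ← Finset.mul_sum, hsum2, Finset.sum_range_succ']
    have h11 : s 0 = 0 := by rw [hs]; simp
    rw [h11, add_zero]
    congr 1
    rw [Finset.range_eq_Ico, Finset.sum_Ico_add' s 0 N 1]
    have h12 : Ico (0 + 1) (N + 1) = Icc 1 N := by ext i; simp only [mem_Ico, mem_Icc]; omega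
    rw [h12]
  have h11 : Tendsto (fun N : ℕ => L * ((N : ℝ) * (N + 1) * (2 * N + 1) / 6) / (N : ℝ) ^ 3) atTop
      (nhds (L / 3)) := by
    have h1 : Tendsto (fun N : ℕ => 1 / (N : ℝ)) atTop (nhds 0) := tendsto_one_div_atTop_nhds_zero_nat
    have h2 : Tendsto (fun N : ℕ => L * ((1 + 1 / (N : ℝ)) * (2 + 1 / (N : ℝ)) / 6)) atTop
        (nhds (L * ((1 + 0) * (2 + 0) / 6))) :=
      (((h1.const_add 1).mul (h1.const_add 2)).div_const 6).const_mul L
    have h3 : L * (((1 : ℝ) + 0) * (2 + 0) / 6) = L / 3 := by ring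
    rw [h3] at h2
    refine h2.congr' ?_
    filter_upwards [eventually_ge_atTop 1] with N hN
    have hNR : (N : ℝ) ≠ 0 := by
      have : (0 : ℝ) < N := by exact_mod_cast (by omega : 0 < N)
      exact this.ne'
    field_simp
  have h12 := h9.add h11
  rw [zero_add] at h12
  have h13 : Tendsto (fun N : ℕ => (∑ n ∈ Icc 1 N, s n) / (N : ℝ) ^ 3) atTop (nhds (L / 3)) := by
    refine h12.congr fun N => ?_
    rw [h10]
    ring
  have h14 := tendsto_nhds_unique h13 sum_lim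
  linarith

end Pool.Agent.Q252.FU
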