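import Pool.Agent.TH375.KL.Sieve

/-!
# Small solutions of `x y ≡ 1` for almost all moduli: the large sieve
-/

set_option autoImplicit false

namespace Pool.Agent.Q252.IV

open Finset Real

/-- the primes in `(Q, 4 Q]` -/
def PP (Q : ℕ) : Finset ℕ := (Ioc Q (4 * Q)).filter Nat.Prime

theorem mem_PP {Q p : ℕ} : p ∈ PP Q ↔ (Q < p ∧ p ≤ 4 * Q) ∧ p.Prime := by
  unfold PP
  rw [mem_filter, mem_Ioc]

theorem theta_diff : ∃ Q0 : ℕ, 2 ≤ Q0 ∧ ∀ Q : ℕ, Q0 ≤ Q →
    (Q : ℝ) * Real.log 2 ≤ Chebyshev.theta ((4 * Q : ℕ) : ℝ) - Chebyshev.theta (Q : ℝ) := by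
  have h1 : ∀ᶠ Q : ℕ in Filter.atTop, Real.log ((4 * Q : ℕ) + 1) + 4 * √(Q : ℝ) * Real.log ((4 * Q : ℕ) : ℝ) ≤
      (Q : ℝ) * Real.log 2 := by
    have ht : Filter.Tendsto (fun Q : ℕ => (Q : ℝ)) Filter.atTop Filter.atTop :=
      tendsto_natCast_atTop_atTop
    have h2 : (fun x : ℝ => Real.log (4 * x + 1) + 4 * √x * Real.log (4 * x)) =o[Filter.atTop]
        fun x : ℝ => x := by
      have hl1 : (fun x : ℝ => Real.log (4 * x + 1)) =o[Filter.atTop] fun x : ℝ => x := by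
        have := (Real.isLittleO_log_id_atTop).comp_tendsto
          (Filter.tendsto_atTop_add_const_right _ (1 : ℝ)
            (Filter.tendsto_id.const_mul_atTop (by norm_num : (0 : ℝ) < 4)))
        refine this.trans_isBigO ?_
        simp only [Function.comp_def, id]
        refine Asymptotics.IsBigO.of_bound 5 ?_
        filter_upwards [Filter.eventually_ge_atTop (1 : ℝ)] with x hx
        rw [Real.norm_of_nonneg (by linarith), Real.norm_of_nonneg (by linarith)]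
        linarith
      have hl2 : (fun x : ℝ => 4 * √x * Real.log (4 * x)) =o[Filter.atTop] fun x : ℝ => x := by
        have h3 : (fun x : ℝ => Real.log (4 * x)) =o[Filter.atTop] fun x : ℝ => x ^ (1 / 2 : ℝ) := by
          have := (isLittleO_log_rpow_atTop (by norm_num : (0 : ℝ) < 1 / 2)).comp_tendsto
            (Filter.tendsto_id.const_mul_atTop (by norm_num : (0 : ℝ) < 4))
          refine this.trans_isBigO ?_
          simp only [Function.comp_def, id]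
          refine Asymptotics.IsBigO.of_bound ((4 : ℝ) ^ (1 / 2 : ℝ)) ?_
          filter_upwards [Filter.eventually_ge_atTop (1 : ℝ)] with x hx
          rw [Real.mul_rpow (by norm_num) (by linarith), norm_mul, Real.norm_of_nonneg (by positivity)]
        have h4 : (fun x : ℝ => 4 * √x) =O[Filter.atTop] fun x : ℝ => x ^ (1 / 2 : ℝ) := by
          refine Asymptotics.IsBigO.of_bound 4 ?_
          filter_upwards [Filter.eventually_ge_atTop (1 : ℝ)] with x hx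
          rw [Real.sqrt_eq_rpow, norm_mul, Real.norm_of_nonneg (by norm_num : (0 : ℝ) ≤ 4)]
        have h5 := h4.mul_isLittleO h3
        refine h5.congr' (Filter.Eventually.of_forall fun x => rfl) ?_
        filter_upwards [Filter.eventually_ge_atTop (1 : ℝ)] with x hx
        rw [← Real.rpow_add (by linarith)]
        norm_num
      exact hl1.add hl2
    have h6 := (h2.comp_tendsto ht).bound (show (0 : ℝ) < Real.log 2 from Real.log_pos (by norm_num))
    filter_upwards [h6] with Q hQ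
    simp only [Function.comp_def] at hQ
    rw [Real.norm_of_nonneg (Nat.cast_nonneg Q)] at hQ
    have h7 := (le_abs_self _).trans hQ
    push_cast
    linarith
  obtain ⟨Q0, hQ0⟩ := Filter.eventually_atTop.1 h1
  refine ⟨max Q0 2, le_max_right _ _, fun Q hQ => ?_⟩
  have h2 := hQ0 Q ((le_max_left _ _).trans hQ)
  have h3 := Chebyshev.theta_ge (4 * Q)
  have h4 := Chebyshev.theta_le_log4_mul_x (x := (Q : ℝ)) (Nat.cast_nonneg _)
  have h5 : Real.log 4 = 2 * Real.log 2 := by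
    rw [show (4 : ℝ) = 2 ^ 2 by norm_num, Real.log_pow]; norm_num
  have h6 : √((4 * Q : ℕ) : ℝ) = 2 * √(Q : ℝ) := by
    push_cast
    rw [Real.sqrt_mul (by norm_num), show (4 : ℝ) = 2 ^ 2 by norm_num, Real.sqrt_sq (by norm_num)]
  rw [h5] at h4
  rw [h6] at h3
  push_cast at h2 h3 ⊢
  linarith

theorem sum_inv_PP : ∃ Q0 : ℕ, 2 ≤ Q0 ∧ ∀ Q : ℕ, Q0 ≤ Q →
    Real.log 2 / (4 * Real.log (4 * Q)) ≤ ∑ p ∈ PP Q, 1 / (p : ℝ) := by
  obtain ⟨Q0, h2, h⟩ := theta_diff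
  refine ⟨Q0, h2, fun Q hQ => ?_⟩
  have h1 := h Q hQ
  have hQ2 : 2 ≤ Q := h2.trans hQ
  have hQr : (2 : ℝ) ≤ Q := by exact_mod_cast hQ2
  have hl : 0 < Real.log (4 * (Q : ℝ)) := Real.log_pos (by linarith)
  have hs : Chebyshev.theta ((4 * Q : ℕ) : ℝ) - Chebyshev.theta (Q : ℝ) = ∑ p ∈ PP Q, Real.log p := by
    rw [Chebyshev.theta_eq_sum_Icc, Chebyshev.theta_eq_sum_Icc, Nat.floor_natCast, Nat.floor_natCast,
      sub_eq_iff_eq_add]
    have hd : Disjoint (PP Q) ((Icc 0 Q).filter Nat.Prime) := by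
      rw [Finset.disjoint_left]
      intro p hp hp'
      rw [mem_PP] at hp
      rw [mem_filter, mem_Icc] at hp'
      omega
    rw [← sum_union hd]
    refine sum_congr ?_ fun _ _ => rfl
    ext p
    rw [mem_union, mem_PP, mem_filter, mem_filter, mem_Icc, mem_Icc]
    constructor
    · rintro ⟨⟨_, h3⟩, h4⟩
      by_cases h5 : p ≤ Q
      · right; exact ⟨⟨Nat.zero_le _, h5⟩, h4⟩
      · left; exact ⟨⟨by omega, h3⟩, h4⟩
    · rintro (⟨⟨_, h3⟩, h4⟩ | ⟨⟨_, h3⟩, h4⟩)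
      · exact ⟨⟨Nat.zero_le _, h3⟩, h4⟩
      · exact ⟨⟨Nat.zero_le _, by omega⟩, h4⟩
  rw [hs] at h1
  have h3 : ∑ p ∈ PP Q, Real.log p ≤ ∑ p ∈ PP Q, (4 * Q * Real.log (4 * Q)) * (1 / (p : ℝ)) := by
    refine sum_le_sum fun p hp => ?_
    rw [mem_PP] at hp
    obtain ⟨⟨h4, h5⟩, h6⟩ := hp
    have h7 : (p : ℝ) ≤ 4 * Q := by exact_mod_cast h5
    have h8 : (0 : ℝ) < p := by exact_mod_cast h6.pos
    have h9 : Real.log p ≤ Real.log (4 * Q) := Real.log_le_log h8 h7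
    rw [mul_one_div, le_div_iff₀ h8]
    have h10 : 0 ≤ Real.log p := Real.log_natCast_nonneg p
    nlinarith
  rw [← mul_sum] at h3
  have h4 : (Q : ℝ) * Real.log 2 ≤ (4 * Q * Real.log (4 * Q)) * ∑ p ∈ PP Q, 1 / (p : ℝ) := h1.trans h3
  rw [div_le_iff₀ (by positivity)]
  have h5 : (0 : ℝ) < Q := by linarith
  nlinarith

/-- the residue classes of the `n` with `p ∣ k n + 1` for some `1 ≤ k ≤ K` -/
def RR (K p : ℕ) : Finset (ZMod p) := (Icc 1 K).image fun k : ℕ => -((k : ZMod p)⁻¹)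

theorem card_RR {K p : ℕ} (hp : p.Prime) (hK : K < p) : (RR K p).card = K := by
  have : Fact p.Prime := ⟨hp⟩
  unfold RR
  rw [card_image_of_injOn, Nat.card_Icc, Nat.add_sub_cancel]
  intro a ha b hb hab
  rw [mem_coe, mem_Icc] at ha hb
  simp only [neg_inj] at hab
  have h1 : (a : ZMod p) = (b : ZMod p) := inv_injective hab
  rw [ZMod.natCast_eq_natCast_iff] at h1
  exact Nat.ModEq.eq_of_lt_of_lt h1 (by omega) (by omega)

theorem mem_RR {K p n : ℕ} (hp : p.Prime) (hK : K < p) (h : (n : ZMod p) ∈ RR K p) :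
    ∃ k, 1 ≤ k ∧ k ≤ K ∧ p ∣ k * n + 1 := by
  have : Fact p.Prime := ⟨hp⟩
  unfold RR at h
  rw [mem_image] at h
  obtain ⟨k, hk, hkn⟩ := h
  rw [mem_Icc] at hk
  refine ⟨k, hk.1, hk.2, ?_⟩
  rw [← ZMod.natCast_eq_zero_iff]
  push_cast
  rw [← hkn]
  have hk0 : (k : ZMod p) ≠ 0 := by
    rw [Ne, ZMod.natCast_eq_zero_iff]
    intro hd
    have := Nat.le_of_dvd (by omega) hd
    omega
  rw [mul_neg, mul_inv_cancel₀ hk0]
  ring

open Classical in
/-- the test functions -/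
noncomputable def gg (K : ℕ) (p : ℕ) (a : ZMod p) : ℝ :=
  (if a ∈ RR K p then (1 : ℝ) else 0) - K / p

theorem sum_gg {K p : ℕ} (hp : p.Prime) (hK : K < p) :
    ∑ a ∈ range p, gg K p (a : ZMod p) = 0 := by
  have : Fact p.Prime := ⟨hp⟩
  rw [Pool.Agent.TH375.KL.sum_range_zmod (p := p) (f := fun a => gg K p a)]
  unfold gg
  rw [sum_sub_distrib, sum_const, card_univ, ZMod.card, nsmul_eq_mul, sum_boole]
  have h1 : (univ.filter fun a : ZMod p => a ∈ RR K p) = RR K p := by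
    ext a; simp
  rw [h1, card_RR hp hK]
  have hp0 : (p : ℝ) ≠ 0 := by exact_mod_cast hp.ne_zero
  field_simp
  ring

theorem sum_gg_sq {K p : ℕ} (hp : p.Prime) (hK : K < p) :
    ∑ a ∈ range p, gg K p (a : ZMod p) ^ 2 ≤ K := by
  have : Fact p.Prime := ⟨hp⟩
  rw [Pool.Agent.TH375.KL.sum_range_zmod (p := p) (f := fun a => gg K p a ^ 2)]
  have h1 : (univ.filter fun a : ZMod p => a ∈ RR K p) = RR K p := by
    ext a; simp
  have hp0 : (0 : ℝ) < p := by exact_mod_cast hp.pos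
  have h2 : ∀ a : ZMod p, gg K p a ^ 2 =
      (1 - 2 * (K / p)) * (if a ∈ RR K p then (1 : ℝ) else 0) + (K / p) ^ 2 := by
    intro a
    unfold gg
    split_ifs <;> ring
  simp only [h2]
  rw [sum_add_distrib, ← mul_sum, sum_const, card_univ, ZMod.card, nsmul_eq_mul, sum_boole, h1,
    card_RR hp hK]
  have h3 : (1 - 2 * ((K : ℝ) / p)) * K + p * (K / p) ^ 2 = K - K ^ 2 / p := by
    field_simp
    ring
  rw [h3]
  have : (0 : ℝ) ≤ (K : ℝ) ^ 2 / p := by positivity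
  linarith

/-- **the large sieve bound** for the `n ≤ N` such that no `k n + 1`, `k ≤ K`, has a prime divisor in `(Q, 4 Q]` -/
theorem bad_bound (N Q K : ℕ) (hK : K ≤ Q) (hK1 : 1 ≤ K) (hne : (PP Q).Nonempty) :
    (((Icc 1 N).filter fun n : ℕ => ∀ p ∈ PP Q, ∀ k ∈ Icc 1 K, ¬ p ∣ k * n + 1).card : ℝ) *
      (K * ∑ p ∈ PP Q, 1 / (p : ℝ)) ≤ 6 * (N + ((4 * Q : ℕ) : ℝ) ^ 2) := by
  have hP : ∀ p ∈ PP Q, p.Prime ∧ p ≤ 4 * Q := fun p hp => ⟨(mem_PP.1 hp).2, (mem_PP.1 hp).1.2⟩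
  have hKp : ∀ p ∈ PP Q, K < p := fun p hp => by
    have := (mem_PP.1 hp).1.1
    omega
  have hd := Pool.Agent.TH375.KL.dual (4 * Q) N (PP Q) hP 0 (gg K)
    (fun p hp => sum_gg (hP p hp).1 (hKp p hp))
  set S := ∑ p ∈ PP Q, 1 / (p : ℝ) with hS
  have hS0 : 0 < S := by
    rw [hS]
    apply sum_pos _ hne
    intro p hp
    have : (0 : ℝ) < p := by exact_mod_cast (hP p hp).1.pos
    positivity
  have hK0 : (0 : ℝ) < K := by exact_mod_cast hK1
  have h1 : ∑ p ∈ PP Q, (∑ a ∈ range p, gg K p (a : ZMod p) ^ 2) / p ≤ K * S := by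
    rw [hS, mul_sum]
    refine sum_le_sum fun p hp => ?_
    have hp0 : (0 : ℝ) < p := by exact_mod_cast (hP p hp).1.pos
    rw [mul_one_div]
    gcongr
    exact sum_gg_sq (hP p hp).1 (hKp p hp)
  set B := (Icc 1 N).filter fun n : ℕ => ∀ p ∈ PP Q, ∀ k ∈ Icc 1 K, ¬ p ∣ k * n + 1 with hB
  have h2 : (B.card : ℝ) * (K * S) ^ 2 ≤
      ∑ n ∈ Icc 1 N, (∑ p ∈ PP Q, gg K p (((0 : ℤ) + (n : ℤ) : ℤ) : ZMod p)) ^ 2 := by
    calc (B.card : ℝ) * (K * S) ^ 2 = ∑ n ∈ B, (K * S) ^ 2 := by rw [sum_const, nsmul_eq_mul]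
      _ = ∑ n ∈ B, (∑ p ∈ PP Q, gg K p (((0 : ℤ) + (n : ℤ) : ℤ) : ZMod p)) ^ 2 := by
          refine sum_congr rfl fun n hn => ?_
          rw [hB, mem_filter] at hn
          have h3 : ∀ p ∈ PP Q, gg K p (((0 : ℤ) + (n : ℤ) : ℤ) : ZMod p) = -(K * (1 / (p : ℝ))) := by
            intro p hp
            unfold gg
            rw [if_neg]
            · ring
            · intro hmem
              rw [zero_add, Int.cast_natCast] at hmem
              obtain ⟨k, hk1, hk2, hk3⟩ := mem_RR (hP p hp).1 (hKp p hp) hmem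
              exact hn.2 p hp k (mem_Icc.2 ⟨hk1, hk2⟩) hk3
          rw [sum_congr rfl h3, sum_neg_distrib, ← mul_sum, ← hS]
          ring
      _ ≤ _ := sum_le_sum_of_subset_of_nonneg (filter_subset _ _) fun _ _ _ => sq_nonneg _
  have h3 : (B.card : ℝ) * (K * S) ^ 2 ≤ 6 * (N + ((4 * Q : ℕ) : ℝ) ^ 2) * (K * S) :=
    h2.trans (hd.trans (mul_le_mul_of_nonneg_left h1 (by positivity)))
  have h4 : 0 < K * S := by positivity
  have h5 : ((B.card : ℝ) * (K * S)) * (K * S) ≤ (6 * (N + ((4 * Q : ℕ) : ℝ) ^ 2)) * (K * S) := by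
    calc ((B.card : ℝ) * (K * S)) * (K * S) = (B.card : ℝ) * (K * S) ^ 2 := by ring
      _ ≤ _ := h3
  exact le_of_mul_le_mul_right h5 h4

end Pool.Agent.Q252.IV
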