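import Pool.Agent.Q252.IV1

/-!
# Small solutions of `x y ≡ 1` for almost all moduli
-/

set_option autoImplicit false

namespace Pool.Agent.Q252.IV

open Finset Real

/-- the least `m` such that `x y ≡ 1 (mod n)` for some integers `2 ≤ x, y ≤ m` -/
noncomputable def M (n : ℕ) : ℕ :=
  sInf {m : ℕ | ∃ x y : ℕ, 2 ≤ x ∧ x ≤ m ∧ 2 ≤ y ∧ y ≤ m ∧ x * y ≡ 1 [MOD n]}

theorem M_le {n m x y : ℕ} (h1 : 2 ≤ x) (h2 : x ≤ m) (h3 : 2 ≤ y) (h4 : y ≤ m)
    (h : x * y ≡ 1 [MOD n]) : M n ≤ m := Nat.sInf_le ⟨x, y, h1, h2, h3, h4, h⟩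

theorem M_triv {n : ℕ} (hn : 1 ≤ n) : M n ≤ n + 1 := by
  refine M_le (x := n + 1) (y := n + 1) (by omega) le_rfl (by omega) le_rfl ?_
  have h : (n + 1) * (n + 1) = 1 + n * (n + 2) := by ring
  rw [h]
  exact (Nat.modEq_zero_iff_dvd.2 (dvd_mul_right n (n + 2))).add_left 1

theorem M_good {N Q K n p k : ℕ} (hQ : N < Q ^ 2) (hn : n ≤ N) (hn4 : 4 * Q < n)
    (hp : Q < p) (hp4 : p ≤ 4 * Q) (hpp : p.Prime) (hk1 : 1 ≤ k) (hk : k ≤ K) (hd : p ∣ k * n + 1) :
    M n ≤ 4 * K * Q := by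
  obtain ⟨y, hy⟩ := hd
  have hK : 1 ≤ K := hk1.trans hk
  have h1 : k * n + 1 ≤ K * Q ^ 2 := by
    have h2 : k * n ≤ K * N := Nat.mul_le_mul hk hn
    have h3 : K * N + K ≤ K * Q ^ 2 := by
      have : N + 1 ≤ Q ^ 2 := hQ
      calc K * N + K = K * (N + 1) := by ring
        _ ≤ K * Q ^ 2 := Nat.mul_le_mul le_rfl this
    omega
  have hyK : y ≤ K * Q := by
    by_contra hcon
    push Not at hcon
    have h2 : Q * (K * Q) < p * y := Nat.mul_lt_mul'' hp hcon
    have h3 : Q * (K * Q) = K * Q ^ 2 := by ring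
    omega
  have hy2 : 2 ≤ y := by
    by_contra hcon
    push Not at hcon
    have h2 : n ≤ k * n := Nat.le_mul_of_pos_left n hk1
    interval_cases y
    · omega
    · omega
  refine M_le (x := p) (y := y) hpp.two_le ?_ hy2 ?_ ?_
  · calc p ≤ 4 * Q := hp4
      _ ≤ 4 * K * Q := Nat.mul_le_mul (by omega) le_rfl
  · calc y ≤ K * Q := hyK
      _ ≤ 4 * K * Q := Nat.mul_le_mul (by omega) le_rfl
  · rw [← hy, add_comm]
    exact (Nat.modEq_zero_iff_dvd.2 (dvd_mul_left n k)).add_left 1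

theorem main_nat : ∃ C : ℝ, 0 < C ∧ ∀ N : ℕ, 2 ≤ N → ∀ K : ℕ, 1 ≤ K →
    (((Icc 1 N).filter fun n : ℕ => 8 * (K : ℝ) * √(N : ℝ) < M n).card : ℝ) ≤
      C * N * Real.log N / K := by
  obtain ⟨Q0, hQ02, hQ0⟩ := sum_inv_PP
  refine ⟨8050 + 2 * Q0, by positivity, fun N hN K hK => ?_⟩
  obtain ⟨Q, hQdef⟩ : ∃ Q : ℕ, Q = Nat.sqrt N + 1 := ⟨_, rfl⟩
  have hNr : (2 : ℝ) ≤ N := by exact_mod_cast hN
  have hN0 : (0 : ℝ) < N := by linarith
  have hQN : N < Q ^ 2 := by rw [hQdef]; exact Nat.lt_succ_sqrt' N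
  have hs1 : 1 ≤ Nat.sqrt N := Nat.le_sqrt'.2 (by omega)
  have hsr : ((Nat.sqrt N : ℕ) : ℝ) ≤ √(N : ℝ) := Real.nat_sqrt_le_real_sqrt
  have hQr : (Q : ℝ) ≤ 2 * √(N : ℝ) := by
    rw [hQdef]
    push_cast
    have : (1 : ℝ) ≤ ((Nat.sqrt N : ℕ) : ℝ) := by exact_mod_cast hs1
    linarith
  have hQl : √(N : ℝ) ≤ Q := by
    rw [Real.sqrt_le_left (by positivity)]
    exact_mod_cast hQN.le
  have hsq : √(N : ℝ) * √(N : ℝ) = N := Real.mul_self_sqrt hN0.le
  have hs0 : 1 ≤ √(N : ℝ) := by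
    have : (1 : ℝ) ≤ ((Nat.sqrt N : ℕ) : ℝ) := by exact_mod_cast hs1
    linarith
  have hKr : (1 : ℝ) ≤ K := by exact_mod_cast hK
  have hK0 : (0 : ℝ) < K := by linarith
  have hlogN : Real.log 2 ≤ Real.log N := Real.log_le_log (by norm_num) hNr
  have hlog2 : (1 / 2 : ℝ) < Real.log 2 := by linarith [Real.log_two_gt_d9]
  have hlog0 : 0 < Real.log N := by linarith
  have hQ00 : (0 : ℝ) ≤ Q0 := Nat.cast_nonneg _
  by_cases hKQ : K ≤ Q
  · by_cases hQ : Q0 ≤ Q
    · -- the main case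
      have hS := hQ0 Q hQ
      have hQ2 : (2 : ℝ) ≤ Q := by exact_mod_cast hQ02.trans hQ
      have hlQ : 0 < Real.log (4 * (Q : ℝ)) := Real.log_pos (by linarith)
      have hSpos : 0 < ∑ p ∈ PP Q, 1 / (p : ℝ) := lt_of_lt_of_le (by positivity) hS
      have hne : (PP Q).Nonempty := by
        by_contra hcon
        rw [not_nonempty_iff_eq_empty] at hcon
        rw [hcon, sum_empty] at hSpos
        exact lt_irrefl _ hSpos
      have hb := bad_bound N Q K hKQ hK hne
      set B := (Icc 1 N).filter fun n : ℕ => ∀ p ∈ PP Q, ∀ k ∈ Icc 1 K, ¬ p ∣ k * n + 1 with hB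
      have hsub : ((Icc 1 N).filter fun n : ℕ => 8 * (K : ℝ) * √(N : ℝ) < M n) ⊆ Icc 1 (4 * Q) ∪ B := by
        intro n hn
        rw [mem_filter, mem_Icc] at hn
        obtain ⟨⟨hn1, hn2⟩, hn3⟩ := hn
        rw [mem_union]
        by_cases h4 : n ≤ 4 * Q
        · left; exact mem_Icc.2 ⟨hn1, h4⟩
        · right
          rw [hB, mem_filter]
          refine ⟨mem_Icc.2 ⟨hn1, hn2⟩, fun p hp k hk hd => ?_⟩
          rw [mem_PP] at hp
          rw [mem_Icc] at hk
          have h5 := M_good (K := K) hQN hn2 (by omega) hp.1.1 hp.1.2 hp.2 hk.1 hk.2 hd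
          have h6 : (M n : ℝ) ≤ 4 * K * Q := by exact_mod_cast h5
          have h7 : (4 : ℝ) * K * Q ≤ 4 * K * (2 * √(N : ℝ)) :=
            mul_le_mul_of_nonneg_left hQr (by positivity)
          linarith
      have hcard : (((Icc 1 N).filter fun n : ℕ => 8 * (K : ℝ) * √(N : ℝ) < M n).card : ℝ) ≤
          4 * Q + B.card := by
        have h1 := (card_le_card hsub).trans (card_union_le _ _)
        rw [Nat.card_Icc, Nat.add_sub_cancel] at h1
        exact_mod_cast h1
      -- bound of B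
      have hlQ' : Real.log (4 * (Q : ℝ)) ≤ 7 / 2 * Real.log N := by
        have h1 : (4 : ℝ) * Q ≤ 8 * √(N : ℝ) := by linarith
        have h2 : Real.log (4 * (Q : ℝ)) ≤ Real.log (8 * √(N : ℝ)) :=
          Real.log_le_log (by linarith) h1
        have h2' : Real.log (8 * √(N : ℝ)) = Real.log 8 + Real.log N / 2 := by
          rw [Real.log_mul (by norm_num) (by positivity), Real.log_sqrt hN0.le]
        rw [h2'] at h2
        have h3 : Real.log 8 = 3 * Real.log 2 := by
          rw [show (8 : ℝ) = 2 ^ 3 by norm_num, Real.log_pow]; norm_num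
        rw [h3] at h2
        linarith
      have hBb : (B.card : ℝ) ≤ 8000 * (N * Real.log N / K) := by
        have h1 : (B.card : ℝ) * (K * (Real.log 2 / (4 * Real.log (4 * Q)))) ≤ 390 * N := by
          have h2 : (B.card : ℝ) * (K * (Real.log 2 / (4 * Real.log (4 * Q)))) ≤
              (B.card : ℝ) * (K * ∑ p ∈ PP Q, 1 / (p : ℝ)) := by gcongr
          have h3 : 6 * (N + ((4 * Q : ℕ) : ℝ) ^ 2) ≤ 390 * (N : ℝ) := by
            push_cast
            have h4 : (Q : ℝ) * Q ≤ (2 * √(N : ℝ)) * (2 * √(N : ℝ)) :=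
              mul_le_mul hQr hQr (by positivity) (by positivity)
            nlinarith
          linarith
        have h5 : (B.card : ℝ) * (K * Real.log 2) ≤ 390 * N * (4 * Real.log (4 * Q)) := by
          have h6 : (B.card : ℝ) * (K * (Real.log 2 / (4 * Real.log (4 * Q)))) =
              (B.card : ℝ) * (K * Real.log 2) / (4 * Real.log (4 * Q)) := by ring
          rw [h6, div_le_iff₀ (by positivity)] at h1
          exact h1
        have h7 : 390 * N * (4 * Real.log (4 * Q)) ≤ 5460 * (N * Real.log N) := by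
          have h8 : 390 * (N : ℝ) * (4 * Real.log (4 * Q)) ≤ 390 * N * (4 * (7 / 2 * Real.log N)) := by
            gcongr
          linarith
        have hl2 : (0.693 : ℝ) ≤ Real.log 2 := by linarith [Real.log_two_gt_d9]
        have h8 : (B.card : ℝ) * K * 0.693 ≤ (B.card : ℝ) * (K * Real.log 2) := by
          rw [← mul_assoc]
          exact mul_le_mul_of_nonneg_left hl2 (by positivity)
        have h9 : (B.card : ℝ) * K ≤ 8000 * (N * Real.log N) := by
          have h10 : 0 ≤ (N : ℝ) * Real.log N := by positivity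
          linarith
        rw [mul_div_assoc', le_div_iff₀ hK0]
        exact h9
      have hQb : 4 * (Q : ℝ) ≤ 50 * (N * Real.log N / K) := by
        rw [mul_div_assoc', le_div_iff₀ hK0]
        have h1 : (K : ℝ) ≤ Q := by exact_mod_cast hKQ
        have h2 : (Q : ℝ) * K ≤ (2 * √(N : ℝ)) * (2 * √(N : ℝ)) :=
          mul_le_mul hQr (h1.trans hQr) (by positivity) (by positivity)
        have h3 : (Q : ℝ) * K ≤ 4 * N := by nlinarith
        have h4 : (N : ℝ) * (1 / 2) ≤ N * Real.log N :=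
          mul_le_mul_of_nonneg_left (by linarith) hN0.le
        nlinarith
      have hfin : (8050 : ℝ) * (N * Real.log N / K) ≤ (8050 + 2 * Q0) * N * Real.log N / K := by
        have h1 : (8050 + 2 * (Q0 : ℝ)) * N * Real.log N / K =
            8050 * (N * Real.log N / K) + 2 * Q0 * (N * Real.log N / K) := by ring
        rw [h1]
        have h2 : 0 ≤ 2 * (Q0 : ℝ) * (N * Real.log N / K) := by positivity
        linarith
      linarith
    · -- small `N`
      push Not at hQ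
      have h1 : (((Icc 1 N).filter fun n : ℕ => 8 * (K : ℝ) * √(N : ℝ) < M n).card : ℝ) ≤ N := by
        have := card_filter_le (Icc 1 N) fun n : ℕ => 8 * (K : ℝ) * √(N : ℝ) < M n
        rw [Nat.card_Icc, Nat.add_sub_cancel] at this
        exact_mod_cast this
      refine h1.trans ?_
      rw [le_div_iff₀ hK0]
      have h2 : (K : ℝ) ≤ Q0 := by exact_mod_cast (hKQ.trans hQ.le)
      have h3 : (K : ℝ) ≤ 2 * Q0 * Real.log N := by nlinarith
      have h4 : 0 ≤ 8050 * Real.log N := by positivity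
      have h5 : (K : ℝ) ≤ (8050 + 2 * Q0) * Real.log N := by nlinarith
      calc (N : ℝ) * K ≤ N * ((8050 + 2 * Q0) * Real.log N) := mul_le_mul_of_nonneg_left h5 hN0.le
        _ = (8050 + 2 * Q0) * N * Real.log N := by ring
  · -- large `K`
    push Not at hKQ
    have hempty : ((Icc 1 N).filter fun n : ℕ => 8 * (K : ℝ) * √(N : ℝ) < M n) = ∅ := by
      rw [filter_eq_empty_iff]
      intro n hn
      rw [mem_Icc] at hn
      push Not
      have h1 : (M n : ℝ) ≤ n + 1 := by exact_mod_cast M_triv hn.1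
      have h2 : (n : ℝ) ≤ N := by exact_mod_cast hn.2
      have h3 : √(N : ℝ) ≤ K := hQl.trans (by exact_mod_cast hKQ.le)
      have h4 : √(N : ℝ) * √(N : ℝ) ≤ K * √(N : ℝ) := mul_le_mul_of_nonneg_right h3 (by positivity)
      nlinarith
    rw [hempty, card_empty, Nat.cast_zero]
    positivity

/-- the same with a real parameter -/
theorem main_real : ∃ C : ℝ, 0 < C ∧ ∀ N : ℕ, 2 ≤ N → ∀ κ : ℝ, 0 < κ →
    (((Icc 1 N).filter fun n : ℕ => κ * √(N : ℝ) < M n).card : ℝ) ≤
      C * N * Real.log N / κ := by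
  obtain ⟨C, hC, h⟩ := main_nat
  refine ⟨16 * C + 16, by positivity, fun N hN κ hκ => ?_⟩
  have hNr : (2 : ℝ) ≤ N := by exact_mod_cast hN
  have hN0 : (0 : ℝ) < N := by linarith
  have hlogN : Real.log 2 ≤ Real.log N := Real.log_le_log (by norm_num) hNr
  have hlog2 : (1 / 2 : ℝ) < Real.log 2 := by linarith [Real.log_two_gt_d9]
  have hlog0 : 0 < Real.log N := by linarith
  by_cases h8 : 8 ≤ κ
  · obtain ⟨K, hK⟩ : ∃ K : ℕ, K = ⌊κ / 8⌋₊ := ⟨_, rfl⟩
    have hK1 : 1 ≤ K := by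
      rw [hK]
      exact Nat.le_floor (by push_cast; linarith)
    have hKle : (K : ℝ) ≤ κ / 8 := by rw [hK]; exact Nat.floor_le (by positivity)
    have hKge : κ / 16 ≤ K := by
      have h1 : κ / 8 < K + 1 := by rw [hK]; exact Nat.lt_floor_add_one _
      have h2 : (1 : ℝ) ≤ K := by exact_mod_cast hK1
      linarith
    have hK0 : (0 : ℝ) < K := by exact_mod_cast hK1
    have h1 := h N hN K hK1
    have hsub : ((Icc 1 N).filter fun n : ℕ => κ * √(N : ℝ) < M n) ⊆
        ((Icc 1 N).filter fun n : ℕ => 8 * (K : ℝ) * √(N : ℝ) < M n) := by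
      intro n hn
      rw [mem_filter] at hn ⊢
      refine ⟨hn.1, lt_of_le_of_lt ?_ hn.2⟩
      apply mul_le_mul_of_nonneg_right _ (Real.sqrt_nonneg _)
      linarith
    have h2 : (((Icc 1 N).filter fun n : ℕ => κ * √(N : ℝ) < M n).card : ℝ) ≤
        (((Icc 1 N).filter fun n : ℕ => 8 * (K : ℝ) * √(N : ℝ) < M n).card : ℝ) := by
      exact_mod_cast card_le_card hsub
    refine h2.trans (h1.trans ?_)
    rw [div_le_div_iff₀ hK0 hκ]
    have h3 : 0 ≤ C * N * Real.log N := by positivity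
    have h4 : C * N * Real.log N * κ ≤ C * N * Real.log N * (16 * K) :=
      mul_le_mul_of_nonneg_left (by linarith) h3
    have h5 : 0 ≤ 16 * (N : ℝ) * Real.log N * K := by positivity
    nlinarith
  · push Not at h8
    have h1 : (((Icc 1 N).filter fun n : ℕ => κ * √(N : ℝ) < M n).card : ℝ) ≤ N := by
      have := card_filter_le (Icc 1 N) fun n : ℕ => κ * √(N : ℝ) < M n
      rw [Nat.card_Icc, Nat.add_sub_cancel] at this
      exact_mod_cast this
    refine h1.trans ?_
    rw [le_div_iff₀ hκ]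
    have h2 : κ ≤ (16 * C + 16) * Real.log N := by
      have : 0 ≤ 16 * C * Real.log N := by positivity
      nlinarith
    calc (N : ℝ) * κ ≤ N * ((16 * C + 16) * Real.log N) := mul_le_mul_of_nonneg_left h2 hN0.le
      _ = (16 * C + 16) * N * Real.log N := by ring

end Pool.Agent.Q252.IV
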