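import Pool.Agent.Q252.IV2

/-!
# Power saving and primes
-/

set_option autoImplicit false

namespace Pool.Agent.Q252.IV

open Finset Real

/-- the exceptional integers up to `N` -/
noncomputable def EE (ε : ℝ) (N : ℕ) : Finset ℕ :=
  (Icc 1 N).filter fun n : ℕ => (n : ℝ) ^ (1 / 2 + ε) < M n

theorem EE_step {ε : ℝ} (h0 : 0 < ε) (h1 : ε < 1) : ∃ C : ℝ, 0 < C ∧ ∀ N : ℕ, 2 ≤ N →
    ((EE ε N).card : ℝ) ≤ (EE ε (N / 2)).card + C * (N : ℝ) ^ (1 - ε) * Real.log N := by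
  obtain ⟨C, hC, h⟩ := main_real
  refine ⟨C * 4, by positivity, fun N hN => ?_⟩
  have hNr : (2 : ℝ) ≤ N := by exact_mod_cast hN
  have hN0 : (0 : ℝ) < N := by linarith
  have hlog0 : 0 < Real.log N := Real.log_pos (by linarith)
  have hNe : 0 < (N : ℝ) ^ ε := by positivity
  have h2 := h N hN ((N : ℝ) ^ ε / 4) (by positivity)
  have hsub : EE ε N ⊆ EE ε (N / 2) ∪
      (Icc 1 N).filter fun n : ℕ => (N : ℝ) ^ ε / 4 * √(N : ℝ) < M n := by
    intro n hn
    unfold EE at hn ⊢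
    rw [mem_filter, mem_Icc] at hn
    obtain ⟨⟨hn1, hn2⟩, hn3⟩ := hn
    rw [mem_union]
    by_cases h4 : n ≤ N / 2
    · left
      rw [mem_filter, mem_Icc]
      exact ⟨⟨hn1, h4⟩, hn3⟩
    · right
      rw [mem_filter, mem_Icc]
      refine ⟨⟨hn1, hn2⟩, lt_of_le_of_lt ?_ hn3⟩
      have h5 : (N : ℝ) / 2 ≤ n := by
        have h6 : N ≤ 2 * n := by omega
        have h7 : (N : ℝ) ≤ 2 * n := by exact_mod_cast h6
        linarith
      have h6 : ((N : ℝ) / 2) ^ (1 / 2 + ε) ≤ (n : ℝ) ^ (1 / 2 + ε) :=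
        Real.rpow_le_rpow (by positivity) h5 (by linarith)
      refine le_trans ?_ h6
      rw [Real.div_rpow hN0.le (by norm_num), Real.rpow_add hN0, Real.sqrt_eq_rpow]
      have h7 : (2 : ℝ) ^ (1 / 2 + ε) ≤ 4 := by
        calc (2 : ℝ) ^ (1 / 2 + ε) ≤ 2 ^ (2 : ℝ) :=
              Real.rpow_le_rpow_of_exponent_le (by norm_num) (by linarith)
          _ = 4 := by norm_num
      have h8 : 0 < (2 : ℝ) ^ (1 / 2 + ε) := by positivity
      have h9 : 0 ≤ (N : ℝ) ^ (1 / 2 : ℝ) * (N : ℝ) ^ ε := by positivity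
      calc (N : ℝ) ^ ε / 4 * (N : ℝ) ^ (1 / 2 : ℝ) = (N : ℝ) ^ (1 / 2 : ℝ) * (N : ℝ) ^ ε / 4 := by ring
        _ ≤ (N : ℝ) ^ (1 / 2 : ℝ) * (N : ℝ) ^ ε / 2 ^ (1 / 2 + ε) :=
            div_le_div_of_nonneg_left h9 h8 h7
  have h3 : ((EE ε N).card : ℝ) ≤ (EE ε (N / 2)).card +
      ((Icc 1 N).filter fun n : ℕ => (N : ℝ) ^ ε / 4 * √(N : ℝ) < M n).card := by
    exact_mod_cast (card_le_card hsub).trans (card_union_le _ _)
  have h4 : C * N * Real.log N / ((N : ℝ) ^ ε / 4) = C * 4 * (N : ℝ) ^ (1 - ε) * Real.log N := by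
    rw [Real.rpow_sub hN0, Real.rpow_one]
    field_simp
  rw [h4] at h2
  linarith

/-- **power saving**: all but `O(N ^ (1 - ε) log N)` integers `n ≤ N` have `M n ≤ n ^ (1/2 + ε)` -/
theorem power {ε : ℝ} (h0 : 0 < ε) (h1 : ε < 1) : ∃ C : ℝ, 0 < C ∧ ∀ N : ℕ, 2 ≤ N →
    ((EE ε N).card : ℝ) ≤ C * (N : ℝ) ^ (1 - ε) * Real.log N := by
  obtain ⟨C, hC, h⟩ := EE_step h0 h1
  obtain ⟨ρ, hρ⟩ : ∃ ρ : ℝ, ρ = (2 : ℝ) ^ (-(1 - ε)) := ⟨_, rfl⟩
  have hρ0 : 0 < ρ := by rw [hρ]; positivity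
  have hρ1 : ρ < 1 := by
    rw [hρ]
    exact Real.rpow_lt_one_of_one_lt_of_neg (by norm_num) (by linarith)
  obtain ⟨D, hD⟩ : ∃ D : ℝ, D = C / (1 - ρ) := ⟨_, rfl⟩
  have h1ρ : 0 < 1 - ρ := by linarith
  have hD0 : 0 < D := by rw [hD]; positivity
  have hDe : D * ρ + C = D := by
    rw [hD]
    field_simp
    ring
  have key : ∀ N : ℕ, ((EE ε N).card : ℝ) ≤ 1 + D * (N : ℝ) ^ (1 - ε) * Real.log N := by
    intro N
    induction N using Nat.strong_induction_on with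
    | _ N ih =>
      by_cases hN : 2 ≤ N
      · have hNr : (2 : ℝ) ≤ N := by exact_mod_cast hN
        have hN0 : (0 : ℝ) < N := by linarith
        have hlog0 : 0 < Real.log N := Real.log_pos (by linarith)
        have h2 := h N hN
        have h3 := ih (N / 2) (by omega)
        have hh : (((N / 2 : ℕ) : ℝ)) ≤ (N : ℝ) / 2 := Nat.cast_div_le
        have hh1 : (1 : ℝ) ≤ ((N / 2 : ℕ) : ℝ) := by
          have : 1 ≤ N / 2 := by omega
          exact_mod_cast this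
        have h4 : ((N / 2 : ℕ) : ℝ) ^ (1 - ε) ≤ ρ * (N : ℝ) ^ (1 - ε) := by
          refine (Real.rpow_le_rpow (by positivity) hh (by linarith)).trans (le_of_eq ?_)
          rw [Real.div_rpow hN0.le (by norm_num), hρ, Real.rpow_neg (by norm_num)]
          field_simp
        have h5 : Real.log ((N / 2 : ℕ) : ℝ) ≤ Real.log N :=
          Real.log_le_log (by linarith) (by linarith)
        have h6 : 0 ≤ Real.log ((N / 2 : ℕ) : ℝ) := Real.log_nonneg hh1
        have h7 : D * ((N / 2 : ℕ) : ℝ) ^ (1 - ε) * Real.log ((N / 2 : ℕ) : ℝ) ≤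
            D * (ρ * (N : ℝ) ^ (1 - ε)) * Real.log N := by gcongr
        calc ((EE ε N).card : ℝ) ≤ (EE ε (N / 2)).card + C * (N : ℝ) ^ (1 - ε) * Real.log N := h2
          _ ≤ 1 + D * (ρ * (N : ℝ) ^ (1 - ε)) * Real.log N + C * (N : ℝ) ^ (1 - ε) * Real.log N := by
              linarith
          _ = 1 + (D * ρ + C) * (N : ℝ) ^ (1 - ε) * Real.log N := by ring
          _ = _ := by rw [hDe]
      · have hN1 : N ≤ 1 := by omega
        have h2 : (EE ε N).card ≤ 1 := by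
          have := card_filter_le (Icc 1 N) fun n : ℕ => (n : ℝ) ^ (1 / 2 + ε) < M n
          rw [Nat.card_Icc, Nat.add_sub_cancel] at this
          exact this.trans hN1
        have h3 : ((EE ε N).card : ℝ) ≤ 1 := by exact_mod_cast h2
        have h4 : Real.log (N : ℝ) = 0 := by
          interval_cases N <;> simp
        rw [h4, mul_zero, add_zero]
        exact h3
  refine ⟨D + 2, by positivity, fun N hN => (key N).trans ?_⟩
  have hNr : (2 : ℝ) ≤ N := by exact_mod_cast hN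
  have hN0 : (0 : ℝ) < N := by linarith
  have hlogN : Real.log 2 ≤ Real.log N := Real.log_le_log (by norm_num) hNr
  have hlog2 : (1 / 2 : ℝ) < Real.log 2 := by linarith [Real.log_two_gt_d9]
  have h3 : 1 ≤ (N : ℝ) ^ (1 - ε) := Real.one_le_rpow (by linarith) (by linarith)
  have h4 : 1 ≤ 2 * (N : ℝ) ^ (1 - ε) * Real.log N := by nlinarith
  calc 1 + D * (N : ℝ) ^ (1 - ε) * Real.log N
      ≤ 2 * (N : ℝ) ^ (1 - ε) * Real.log N + D * (N : ℝ) ^ (1 - ε) * Real.log N := by linarith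
    _ = _ := by ring

/-- almost all primes: `M p ≤ L √N (log N) ^ 2` for all but at most `C N / (L log N)` primes `p ≤ N` -/
theorem primes_log : ∃ C : ℝ, 0 < C ∧ ∀ N : ℕ, 2 ≤ N → ∀ L : ℝ, 0 < L →
    (((Icc 1 N).filter fun n : ℕ => n.Prime ∧ L * √(N : ℝ) * Real.log N ^ 2 < M n).card : ℝ) ≤
      C * N / (L * Real.log N) := by
  obtain ⟨C, hC, h⟩ := main_real
  refine ⟨C, hC, fun N hN L hL => ?_⟩
  have hNr : (2 : ℝ) ≤ N := by exact_mod_cast hN
  have hN0 : (0 : ℝ) < N := by linarith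
  have hlog0 : 0 < Real.log N := Real.log_pos (by linarith)
  have h1 := h N hN (L * Real.log N ^ 2) (by positivity)
  have hsub : ((Icc 1 N).filter fun n : ℕ => n.Prime ∧ L * √(N : ℝ) * Real.log N ^ 2 < M n) ⊆
      ((Icc 1 N).filter fun n : ℕ => L * Real.log N ^ 2 * √(N : ℝ) < M n) := by
    intro n hn
    rw [mem_filter] at hn ⊢
    refine ⟨hn.1, ?_⟩
    have := hn.2.2
    linarith
  have h2 : (((Icc 1 N).filter fun n : ℕ => n.Prime ∧ L * √(N : ℝ) * Real.log N ^ 2 < M n).card : ℝ) ≤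
      ((Icc 1 N).filter fun n : ℕ => L * Real.log N ^ 2 * √(N : ℝ) < M n).card := by
    exact_mod_cast card_le_card hsub
  refine h2.trans (h1.trans (le_of_eq ?_))
  field_simp

end Pool.Agent.Q252.IV
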