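import Pool.Agent.Q252.IV3

/-!
# The form of the problem for primes
-/

set_option autoImplicit false

namespace Pool.Agent.Q252.IV

open Finset Real

/-- the statement of the problem for the prime `p` with the bound `T` -/
def Has (p : ℕ) (T : ℝ) : Prop :=
  ∃ x y : ℕ, 2 ≤ x ∧ x < p ∧ 1 ≤ y ∧ y < p ∧ (x * y) % p = 1 ∧ ((max x y : ℕ) : ℝ) ≤ T

theorem M_le_pred {p : ℕ} (hp : 3 ≤ p) : M p ≤ p - 1 := by
  refine M_le (x := p - 1) (y := p - 1) (by omega) le_rfl (by omega) le_rfl ?_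
  obtain ⟨q, rfl⟩ : ∃ q, p = q + 3 := ⟨p - 3, by omega⟩
  have h : (q + 3 - 1) * (q + 3 - 1) = 1 + (q + 3) * (q + 1) := by
    have : q + 3 - 1 = q + 2 := by omega
    rw [this]; ring
  rw [h]
  exact (Nat.modEq_zero_iff_dvd.2 (dvd_mul_right (q + 3) (q + 1))).add_left 1

theorem has_of_M {p : ℕ} (hp : 3 ≤ p) {T : ℝ} (h : (M p : ℝ) ≤ T) : Has p T := by
  have hne : {m : ℕ | ∃ x y : ℕ, 2 ≤ x ∧ x ≤ m ∧ 2 ≤ y ∧ y ≤ m ∧ x * y ≡ 1 [MOD p]}.Nonempty := by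
    refine ⟨p - 1, p - 1, p - 1, by omega, le_rfl, by omega, le_rfl, ?_⟩
    obtain ⟨q, rfl⟩ : ∃ q, p = q + 3 := ⟨p - 3, by omega⟩
    have h : (q + 3 - 1) * (q + 3 - 1) = 1 + (q + 3) * (q + 1) := by
      have : q + 3 - 1 = q + 2 := by omega
      rw [this]; ring
    rw [h]
    exact (Nat.modEq_zero_iff_dvd.2 (dvd_mul_right (q + 3) (q + 1))).add_left 1
  obtain ⟨x, y, hx, hxM, hy, hyM, hxy⟩ := Nat.sInf_mem hne
  change x ≤ M p at hxM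
  change y ≤ M p at hyM
  have hM := M_le_pred hp
  refine ⟨x, y, hx, by omega, by omega, by omega, ?_, ?_⟩
  · unfold Nat.ModEq at hxy
    rw [hxy, Nat.mod_eq_of_lt (by omega)]
  · have : ((max x y : ℕ) : ℝ) ≤ M p := by exact_mod_cast max_le hxM hyM
    exact this.trans h

theorem primes_power {ε : ℝ} (h0 : 0 < ε) (h1 : ε < 1) : ∃ C : ℝ, 0 < C ∧ ∀ N : ℕ, 2 ≤ N →
    (Set.ncard {p : ℕ | p.Prime ∧ p ≤ N ∧ ¬ Has p ((p : ℝ) ^ (1 / 2 + ε))} : ℝ) ≤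
      C * (N : ℝ) ^ (1 - ε) * Real.log N := by
  obtain ⟨C, hC, h⟩ := power h0 h1
  refine ⟨C + 2, by positivity, fun N hN => ?_⟩
  have hsub : {p : ℕ | p.Prime ∧ p ≤ N ∧ ¬ Has p ((p : ℝ) ^ (1 / 2 + ε))} ⊆
      ((insert 2 (EE ε N) : Finset ℕ) : Set ℕ) := by
    intro p hp
    obtain ⟨hp1, hp2, hp3⟩ := hp
    rw [mem_coe, mem_insert]
    by_cases h2 : p = 2
    · left; exact h2
    · right
      have h3 : 3 ≤ p := by
        have := hp1.two_le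
        omega
      unfold EE
      rw [mem_filter, mem_Icc]
      refine ⟨⟨hp1.one_le, hp2⟩, ?_⟩
      by_contra hcon
      push Not at hcon
      exact hp3 (has_of_M h3 hcon)
  have h2 : Set.ncard {p : ℕ | p.Prime ∧ p ≤ N ∧ ¬ Has p ((p : ℝ) ^ (1 / 2 + ε))} ≤
      (EE ε N).card + 1 := by
    refine (Set.ncard_le_ncard hsub (Finset.finite_toSet _)).trans ?_
    rw [Set.ncard_coe_finset]
    exact card_insert_le _ _
  have h3 : (Set.ncard {p : ℕ | p.Prime ∧ p ≤ N ∧ ¬ Has p ((p : ℝ) ^ (1 / 2 + ε))} : ℝ) ≤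
      (EE ε N).card + 1 := by exact_mod_cast h2
  have h4 := h N hN
  have hNr : (2 : ℝ) ≤ N := by exact_mod_cast hN
  have hlogN : Real.log 2 ≤ Real.log N := Real.log_le_log (by norm_num) hNr
  have hlog2 : (1 / 2 : ℝ) < Real.log 2 := by linarith [Real.log_two_gt_d9]
  have h5 : 1 ≤ (N : ℝ) ^ (1 - ε) := Real.one_le_rpow (by linarith) (by linarith)
  have h6 : 1 ≤ 2 * (N : ℝ) ^ (1 - ε) * Real.log N := by nlinarith
  calc (Set.ncard {p : ℕ | p.Prime ∧ p ≤ N ∧ ¬ Has p ((p : ℝ) ^ (1 / 2 + ε))} : ℝ)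
      ≤ C * (N : ℝ) ^ (1 - ε) * Real.log N + 2 * (N : ℝ) ^ (1 - ε) * Real.log N := by linarith
    _ = _ := by ring

theorem primes_log' : ∃ C : ℝ, 0 < C ∧ ∀ N : ℕ, 2 ≤ N → ∀ L : ℝ, 1 ≤ L →
    (Set.ncard {p : ℕ | p.Prime ∧ p ≤ N ∧ ¬ Has p (L * √(N : ℝ) * Real.log N ^ 2)} : ℝ) ≤
      1 + C * N / (L * Real.log N) := by
  obtain ⟨C, hC, h⟩ := primes_log
  refine ⟨C, by positivity, fun N hN L hL => ?_⟩
  obtain ⟨S, hS⟩ : ∃ S : Finset ℕ, S = (Icc 1 N).filter fun n : ℕ =>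
    n.Prime ∧ L * √(N : ℝ) * Real.log N ^ 2 < M n := ⟨_, rfl⟩
  have h4 := h N hN L (by linarith)
  rw [← hS] at h4
  have hsub : {p : ℕ | p.Prime ∧ p ≤ N ∧ ¬ Has p (L * √(N : ℝ) * Real.log N ^ 2)} ⊆
      ((insert 2 S : Finset ℕ) : Set ℕ) := by
    intro p hp
    obtain ⟨hp1, hp2, hp3⟩ := hp
    rw [mem_coe, mem_insert]
    by_cases h2 : p = 2
    · left; exact h2
    · right
      have h3 : 3 ≤ p := by
        have := hp1.two_le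
        omega
      rw [hS, mem_filter, mem_Icc]
      refine ⟨⟨hp1.one_le, hp2⟩, hp1, ?_⟩
      by_contra hcon
      push Not at hcon
      exact hp3 (has_of_M h3 hcon)
  have h2 : Set.ncard {p : ℕ | p.Prime ∧ p ≤ N ∧ ¬ Has p (L * √(N : ℝ) * Real.log N ^ 2)} ≤
      S.card + 1 := by
    refine (Set.ncard_le_ncard hsub (Finset.finite_toSet _)).trans ?_
    rw [Set.ncard_coe_finset]
    exact card_insert_le _ _
  have h3 : (Set.ncard {p : ℕ | p.Prime ∧ p ≤ N ∧ ¬ Has p (L * √(N : ℝ) * Real.log N ^ 2)} : ℝ) ≤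
      S.card + 1 := by exact_mod_cast h2
  linarith

/-- all integers -/
theorem all_real : ∃ C : ℝ, 0 < C ∧ ∀ N : ℕ, 2 ≤ N → ∀ κ : ℝ, 0 < κ →
    (Set.ncard {n : ℕ | 1 ≤ n ∧ n ≤ N ∧ κ * √(N : ℝ) < M n} : ℝ) ≤ C * N * Real.log N / κ := by
  obtain ⟨C, hC, h⟩ := main_real
  refine ⟨C, hC, fun N hN κ hκ => ?_⟩
  have e : {n : ℕ | 1 ≤ n ∧ n ≤ N ∧ κ * √(N : ℝ) < M n} =
      (((Icc 1 N).filter fun n : ℕ => κ * √(N : ℝ) < M n : Finset ℕ) : Set ℕ) := by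
    ext n
    simp only [Set.mem_setOf_eq, coe_filter, mem_Icc]
    tauto
  rw [e, Set.ncard_coe_finset]
  exact h N hN κ hκ

theorem all_power {ε : ℝ} (h0 : 0 < ε) (h1 : ε < 1) : ∃ C : ℝ, 0 < C ∧ ∀ N : ℕ, 2 ≤ N →
    (Set.ncard {n : ℕ | 1 ≤ n ∧ n ≤ N ∧ (n : ℝ) ^ (1 / 2 + ε) < M n} : ℝ) ≤
      C * (N : ℝ) ^ (1 - ε) * Real.log N := by
  obtain ⟨C, hC, h⟩ := power h0 h1
  refine ⟨C, hC, fun N hN => ?_⟩
  have e : {n : ℕ | 1 ≤ n ∧ n ≤ N ∧ (n : ℝ) ^ (1 / 2 + ε) < M n} = ((EE ε N : Finset ℕ) : Set ℕ) := by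
    ext n
    unfold EE
    simp only [Set.mem_setOf_eq, coe_filter, mem_Icc]
    tauto
  rw [e, Set.ncard_coe_finset]
  exact h N hN

end Pool.Agent.Q252.IV
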