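import Mathlib

/-!
# Restricted-multiplicity partitions with parts `k ^ k`

`A = {k ^ k : k ≥ 1}`.  There is an infinite set `M` of positive integers such that every natural
number has an `(A, M)`-partition, while the number of `(A, M)`-partitions of `n` is at most `n ^ 16`
for all `n ≥ 4`.  One can take `M = {a * 2 ^ i : 1 ≤ a ≤ 6 * (i + 3)}`.
-/

set_option autoImplicit false

namespace Pool.Agent.Results.MP_e81424_nt.PolynomialGrowth

open Filter Finset

/-- The set of parts `k ^ k`, `k ≥ 1`. -/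
def A : Set ℕ := {a | ∃ k : ℕ, 1 ≤ k ∧ a = k ^ k}

/-- The `(A, M)`-partitions of `n`: the multiplicity vectors `m`, with finitely many non-zero entries,
such that every `a` with `m a ≠ 0` is in `A` and has `m a ∈ M`, and `∑ m a * a = n`. -/
def partitions (A M : Set ℕ) (n : ℕ) : Set (ℕ →₀ ℕ) :=
  {m | (∀ a, m a ≠ 0 → a ∈ A ∧ m a ∈ M) ∧ (m.sum fun a c => c * a) = n}

/-- The number of `(A, M)`-partitions of `n`. -/
noncomputable def p (A M : Set ℕ) (n : ℕ) : ℕ := (partitions A M n).ncard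

/-- The set of multiplicities. -/
def M : Set ℕ := {m | ∃ i a : ℕ, 1 ≤ a ∧ a ≤ 6 * (i + 3) ∧ m = a * 2 ^ i}

lemma M_infinite : M.Infinite := by
  apply Set.infinite_of_injective_forall_mem (f := fun i : ℕ => 1 * 2 ^ i)
  · intro a b h
    simpa using h
  · intro i
    exact ⟨i, 1, le_rfl, by omega, rfl⟩

lemma M_pos {m : ℕ} (h : m ∈ M) : 0 < m := by
  obtain ⟨i, a, ha, -, rfl⟩ := h
  positivity

lemma pow_succ_le (k : ℕ) : (k + 2) ^ (k + 2) ≤ 3 * (k + 2) * (k + 1) ^ (k + 1) := by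
  have h1 : ((k : ℝ) + 2) ^ (k + 1) ≤ 3 * ((k : ℝ) + 1) ^ (k + 1) := by
    have hk : (0 : ℝ) < (k : ℝ) + 1 := by positivity
    have h2 : (1 + 1 / ((k : ℝ) + 1)) ^ (k + 1) ≤ 3 := by
      have h3 : 1 + 1 / ((k : ℝ) + 1) ≤ Real.exp (1 / ((k : ℝ) + 1)) := by
        have := Real.add_one_le_exp (1 / ((k : ℝ) + 1))
        linarith
      have h4 : (1 + 1 / ((k : ℝ) + 1)) ^ (k + 1) ≤ (Real.exp (1 / ((k : ℝ) + 1))) ^ (k + 1) :=
        pow_le_pow_left₀ (by positivity) h3 _
      have h5 : (Real.exp (1 / ((k : ℝ) + 1))) ^ (k + 1) = Real.exp 1 := by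
        rw [← Real.exp_nat_mul]
        congr 1
        push_cast
        field_simp
      have h6 := Real.exp_one_lt_d9
      linarith
    have h7 : (k : ℝ) + 2 = (1 + 1 / ((k : ℝ) + 1)) * ((k : ℝ) + 1) := by
      field_simp
      ring
    rw [h7, mul_pow]
    exact mul_le_mul_of_nonneg_right h2 (by positivity)
  have h8 : (k + 2) ^ (k + 1) ≤ 3 * (k + 1) ^ (k + 1) := by exact_mod_cast h1
  calc (k + 2) ^ (k + 2) = (k + 2) ^ (k + 1) * (k + 2) := by ring
    _ ≤ 3 * (k + 1) ^ (k + 1) * (k + 2) := Nat.mul_le_mul_right _ h8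
    _ = 3 * (k + 2) * (k + 1) ^ (k + 1) := by ring

lemma self_pow_lt {j k : ℕ} (hj : 1 ≤ j) (h : j < k) : j ^ j < k ^ k :=
  calc j ^ j < k ^ j := Nat.pow_lt_pow_left h (by omega)
    _ ≤ k ^ k := Nat.pow_le_pow_right (by omega) h.le

/-- every `n < 2 ^ k * (k + 1) ^ (k + 1)` is represented by parts `j ^ j` with `j ≤ k` -/
lemma exists_partition (k : ℕ) : ∀ n : ℕ, n < 2 ^ k * (k + 1) ^ (k + 1) →
    ∃ m : ℕ →₀ ℕ, (∀ a, m a ≠ 0 → (∃ j : ℕ, 1 ≤ j ∧ j ≤ k ∧ a = j ^ j) ∧ m a ∈ M) ∧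
      (m.sum fun a c => c * a) = n := by
  induction k with
  | zero =>
    intro n hn
    have : n = 0 := by simpa using hn
    subst this
    exact ⟨0, by simp, by simp⟩
  | succ k ih =>
    intro n hn
    set P := (k + 1) ^ (k + 1) with hP
    have hP0 : 0 < P := by positivity
    have hD : 0 < 2 ^ k * P := by positivity
    set a := n / (2 ^ k * P) with ha
    set r := n % (2 ^ k * P) with hr
    have hr1 : r < 2 ^ k * P := Nat.mod_lt _ hD
    have hn1 : 2 ^ k * P * a + r = n := Nat.div_add_mod _ _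
    have ha1 : a ≤ 6 * (k + 3) := by
      have h1 := pow_succ_le k
      rw [← hP] at h1
      have h2 : n < 2 ^ k * P * (6 * (k + 2)) := by
        calc n < 2 ^ (k + 1) * (k + 1 + 1) ^ (k + 1 + 1) := hn
          _ = 2 ^ (k + 1) * (k + 2) ^ (k + 2) := by ring
          _ ≤ 2 ^ (k + 1) * (3 * (k + 2) * P) := Nat.mul_le_mul_left _ h1
          _ = 2 ^ k * P * (6 * (k + 2)) := by ring
      have h3 : a < 6 * (k + 2) := by
        rw [ha, Nat.div_lt_iff_lt_mul hD, mul_comm]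
        exact h2
      omega
    obtain ⟨m, hm, hs⟩ := ih r hr1
    have hmP : m P = 0 := by
      by_contra hne
      obtain ⟨⟨j, hj1, hjk, hje⟩, -⟩ := hm P hne
      have := self_pow_lt hj1 (show j < k + 1 by omega)
      omega
    refine ⟨m + Finsupp.single P (a * 2 ^ k), ?_, ?_⟩
    · intro b hb
      by_cases hbP : b = P
      · subst hbP
        rw [Finsupp.add_apply, hmP, zero_add, Finsupp.single_eq_same] at hb ⊢
        refine ⟨⟨k + 1, by omega, le_rfl, hP⟩, k, a, ?_, ha1, rfl⟩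
        exact Nat.one_le_iff_ne_zero.2 (left_ne_zero_of_mul hb)
      · rw [Finsupp.add_apply, Finsupp.single_eq_of_ne hbP, add_zero] at hb ⊢
        obtain ⟨⟨j, hj1, hjk, hje⟩, h2⟩ := hm b hb
        exact ⟨⟨j, hj1, by omega, hje⟩, h2⟩
    · rw [Finsupp.sum_add_index' (by simp) (by intros; ring), hs,
        Finsupp.sum_single_index (by simp), ← hn1]
      ring

lemma le_of_mem {m : ℕ →₀ ℕ} {n : ℕ} (hs : (m.sum fun a c => c * a) = n) {a : ℕ}
    (ha : m a ≠ 0) : m a * a ≤ n := by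
  rw [← hs, Finsupp.sum]
  exact Finset.single_le_sum (f := fun a => m a * a) (fun _ _ => Nat.zero_le _)
    (Finsupp.mem_support_iff.2 ha)

/-- the finite set of the possible multiplicities up to `n`, with `0` -/
def S (ℓ : ℕ) : Finset ℕ :=
  insert 0 (((range (ℓ + 1)) ×ˢ (range (6 * (ℓ + 3) + 1))).image fun q => q.2 * 2 ^ q.1)

lemma S_card (ℓ : ℕ) : (S ℓ).card ≤ (ℓ + 3) ^ 4 := by
  have h1 : (S ℓ).card ≤ (ℓ + 1) * (6 * (ℓ + 3) + 1) + 1 := by
    refine (Finset.card_insert_le _ _).trans ?_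
    refine Nat.add_le_add_right (Finset.card_image_le.trans ?_) 1
    rw [card_product, card_range, card_range]
  refine h1.trans ?_
  have : (ℓ + 3) ^ 4 = (ℓ + 3) ^ 2 * (ℓ + 3) ^ 2 := by ring
  rw [this]
  nlinarith [Nat.zero_le ℓ, Nat.zero_le (ℓ ^ 2)]

lemma mem_S {ℓ n m : ℕ} (hn : n < 2 ^ (ℓ + 1)) (hm : m ∈ M) (hmn : m ≤ n) : m ∈ S ℓ := by
  obtain ⟨i, a, ha, ha2, rfl⟩ := hm
  have hi : i ≤ ℓ := by
    by_contra hcon
    have h1 : 2 ^ (ℓ + 1) ≤ 2 ^ i := Nat.pow_le_pow_right (by norm_num) (by omega)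
    have h2 : 2 ^ i ≤ a * 2 ^ i := Nat.le_mul_of_pos_left _ ha
    omega
  refine Finset.mem_insert_of_mem (Finset.mem_image.2 ⟨(i, a), ?_, rfl⟩)
  rw [mem_product, mem_range, mem_range]
  constructor
  · simp only; omega
  · simp only; omega

lemma exists_K {n : ℕ} (hn : 4 ≤ n) : ∃ K : ℕ, 2 ≤ K ∧ K ^ K ≤ n ∧ n < (K + 1) ^ (K + 1) := by
  have hex : ∃ j : ℕ, n < (j + 1) ^ (j + 1) := ⟨n, by
    calc n < n + 1 := by omega
      _ ≤ (n + 1) ^ (n + 1) := Nat.le_self_pow (by omega) _⟩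
  classical
  refine ⟨Nat.find hex, ?_, ?_, Nat.find_spec hex⟩
  · by_contra hcon
    have h1 : Nat.find hex ≤ 1 := by omega
    have h2 := Nat.find_spec hex
    interval_cases h : Nat.find hex <;> simp at h2 <;> omega
  · by_contra hcon
    push Not at hcon
    have h0 : Nat.find hex ≠ 0 := by
      intro h
      rw [h] at hcon
      simp at hcon
      omega
    obtain ⟨j, hj⟩ := Nat.exists_eq_succ_of_ne_zero h0
    have h3 := Nat.find_min hex (m := j) (by omega)
    apply h3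
    rw [hj] at hcon
    exact hcon

/-- The number of partitions of `n` is at most `n ^ 16`, for `n ≥ 4`. -/
lemma count {n : ℕ} (hn : 4 ≤ n) :
    (partitions A M n).Finite ∧ (partitions A M n).ncard ≤ n ^ 16 := by
  classical
  obtain ⟨K, hK2, hK, hK'⟩ := exists_K hn
  set ℓ := Nat.log 2 n with hℓ
  have hℓ1 : 2 ^ ℓ ≤ n := Nat.pow_log_le_self 2 (by omega)
  have hℓ2 : n < 2 ^ (ℓ + 1) := Nat.lt_pow_succ_log_self (by norm_num) n
  let T : Finset (Fin K → ℕ) := Fintype.piFinset fun _ => S ℓ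
  let g : (ℕ →₀ ℕ) → (Fin K → ℕ) := fun m i => m (((i : ℕ) + 1) ^ ((i : ℕ) + 1))
  have hmaps : Set.MapsTo g (partitions A M n) (T : Set (Fin K → ℕ)) := by
    intro m hm
    rw [Finset.mem_coe, Fintype.mem_piFinset]
    intro i
    by_cases h0 : m (((i : ℕ) + 1) ^ ((i : ℕ) + 1)) = 0
    · simp only [g, h0]
      exact Finset.mem_insert_self _ _
    · have h1 := le_of_mem hm.2 h0
      refine mem_S hℓ2 (hm.1 _ h0).2 (le_trans ?_ h1)
      exact Nat.le_mul_of_pos_right _ (by positivity)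
  have hinj : Set.InjOn g (partitions A M n) := by
    intro m hm m' hm' he
    ext a
    by_cases hA : ∃ i : Fin K, a = ((i : ℕ) + 1) ^ ((i : ℕ) + 1)
    · obtain ⟨i, rfl⟩ := hA
      exact congrFun he i
    · have key : ∀ m ∈ partitions A M n, m a = 0 := by
        intro m hm
        by_contra h0
        obtain ⟨⟨k, hk1, hk⟩, hM⟩ := hm.1 a h0
        apply hA
        have h1 := le_of_mem hm.2 h0
        have h2 : a ≤ n := le_trans (Nat.le_mul_of_pos_left _ (M_pos hM)) h1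
        have h3 : k < K + 1 := by
          by_contra hcon
          have h4 : (K + 1) ^ (K + 1) ≤ k ^ k := by
            rcases Nat.lt_or_ge (K + 1) k with h | h
            · exact (self_pow_lt (by omega) h).le
            · have : k = K + 1 := by omega
              rw [this]
          omega
        refine ⟨⟨k - 1, by omega⟩, ?_⟩
        simp only
        rw [Nat.sub_add_cancel hk1]
        exact hk
      rw [key m hm, key m' hm']
  have hfin : (partitions A M n).Finite :=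
    Set.Finite.of_finite_image (T.finite_toSet.subset hmaps.image_subset) hinj
  refine ⟨hfin, ?_⟩
  have h1 : (partitions A M n).ncard ≤ T.card := by
    rw [← hinj.ncard_image, ← Set.ncard_coe_finset]
    exact Set.ncard_le_ncard hmaps.image_subset T.finite_toSet
  refine h1.trans ?_
  have h2 : T.card = (S ℓ).card ^ K := by
    simp [T]
  rw [h2]
  have hL : ℓ + 3 ≤ K ^ 4 := by
    have h3 : 2 ^ ℓ < 2 ^ ((K + 1) * (K + 1)) := by
      calc 2 ^ ℓ ≤ n := hℓ1
        _ < (K + 1) ^ (K + 1) := hK'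
        _ ≤ (2 ^ (K + 1)) ^ (K + 1) :=
          Nat.pow_le_pow_left (Nat.lt_two_pow_self).le _
        _ = 2 ^ ((K + 1) * (K + 1)) := by rw [← pow_mul]
    have h4 : ℓ < (K + 1) * (K + 1) := (Nat.pow_lt_pow_iff_right (by norm_num)).1 h3
    have h5 : (K + 1) * (K + 1) + 2 ≤ K ^ 4 := by
      obtain ⟨t, rfl⟩ := Nat.exists_eq_add_of_le hK2
      ring_nf
      nlinarith [Nat.zero_le t, Nat.zero_le (t ^ 2), Nat.zero_le (t ^ 3), Nat.zero_le (t ^ 4)]
    omega
  calc (S ℓ).card ^ K ≤ ((ℓ + 3) ^ 4) ^ K := Nat.pow_le_pow_left (S_card ℓ) _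
    _ ≤ ((K ^ 4) ^ 4) ^ K := Nat.pow_le_pow_left (Nat.pow_le_pow_left hL _) _
    _ = (K ^ K) ^ 16 := by
      rw [← pow_mul, ← pow_mul, ← pow_mul]
      congr 1
      ring
    _ ≤ n ^ 16 := Nat.pow_le_pow_left hK _

lemma nonempty (n : ℕ) : (partitions A M n).Nonempty := by
  obtain ⟨m, hm, hs⟩ := exists_partition n n (by
    calc n < 2 ^ n := Nat.lt_two_pow_self
      _ ≤ 2 ^ n * (n + 1) ^ (n + 1) := Nat.le_mul_of_pos_right _ (by positivity))
  exact ⟨m, fun a ha => ⟨⟨(hm a ha).1.choose, (hm a ha).1.choose_spec.1,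
    (hm a ha).1.choose_spec.2.2⟩, (hm a ha).2⟩, hs⟩

/-- There is an infinite set `M` of positive integers for which `p_{A,M}(n) ≥ 1` for all sufficiently
large `n` and `p_{A,M}` has polynomial growth, where `A = {k ^ k : k ≥ 1}`. -/
theorem result : ∃ M : Set ℕ, M.Infinite ∧ (∀ m ∈ M, 0 < m) ∧
    (∀ᶠ n : ℕ in atTop, 1 ≤ p A M n) ∧
    (∃ k : ℕ, 0 < k ∧ ∀ᶠ n : ℕ in atTop, p A M n ≤ n ^ k) := by
  refine ⟨M, M_infinite, fun m hm => M_pos hm, ?_, 16, by norm_num, ?_⟩
  · filter_upwards [eventually_ge_atTop 4] with n hn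
    rw [p, Nat.one_le_iff_ne_zero, ← Nat.pos_iff_ne_zero, Set.ncard_pos (count hn).1]
    exact nonempty n
  · filter_upwards [eventually_ge_atTop 4] with n hn
    exact (count hn).2

end Pool.Agent.Results.MP_e81424_nt.PolynomialGrowth
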