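import Pool.Agent.Q88.MD.Stm

/-!
# Project MD (helper88), job BCA (helper252)
-/

set_option autoImplicit false

open MeasureTheory Set Filter Topology
open scoped ENNReal NNReal

namespace Pool.Agent.Q252.MD

open Pool.Agent.Q88.MD

lemma dk_succ_div (m : ℕ) (x : ℝ) : dk (m + 1) x / 2 = dk m x := by
  unfold dk
  have h1 := Nat.floor_div_natCast ((2 : ℝ) ^ (m + 1) * x) 2
  rw [← h1]
  congr 1
  push_cast
  rw [pow_succ]
  ring

lemma dk_lt {m : ℕ} {x : ℝ} (hx : x ∈ Ico (0 : ℝ) 1) : dk m x < 2 ^ m := by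
  unfold dk
  rw [Nat.floor_lt (mul_nonneg (by positivity) hx.1)]
  push_cast
  calc (2 : ℝ) ^ m * x < 2 ^ m * 1 := mul_lt_mul_of_pos_left hx.2 (by positivity)
    _ = 2 ^ m := mul_one _

lemma mem_dy {m : ℕ} {x : ℝ} (hx : 0 ≤ x) : x ∈ dy m (dk m x) := by
  unfold dy dk
  have h2 : (0 : ℝ) < 2 ^ m := by positivity
  constructor
  · rw [div_le_iff₀ h2]
    have := Nat.floor_le (mul_nonneg h2.le hx)
    linarith
  · rw [lt_div_iff₀ h2]
    have := Nat.lt_floor_add_one ((2 : ℝ) ^ m * x)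
    linarith

lemma dy_subset (m k : ℕ) : dy (m + 1) k ⊆ dy m (k / 2) := by
  intro x hx
  unfold dy at hx ⊢
  have h2 : (0 : ℝ) < 2 ^ m := by positivity
  have h3 : (0 : ℝ) < 2 ^ (m + 1) := by positivity
  obtain ⟨h4, h5⟩ := hx
  rw [div_le_iff₀ h3] at h4
  rw [lt_div_iff₀ h3] at h5
  have h6 : 2 * (k / 2) ≤ k := Nat.mul_div_le k 2
  have h7 : k + 1 ≤ 2 * (k / 2 + 1) := by omega
  have h6' : (2 : ℝ) * ((k / 2 : ℕ) : ℝ) ≤ k := by exact_mod_cast h6
  have h7' : (k : ℝ) + 1 ≤ 2 * (((k / 2 : ℕ) : ℝ) + 1) := by exact_mod_cast h7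
  rw [pow_succ] at h4 h5
  constructor
  · rw [div_le_iff₀ h2]
    nlinarith
  · rw [lt_div_iff₀ h2]
    nlinarith

lemma dy_sub_even (m : ℕ) (x : ℝ) : dy m (dk m x) ⊆ dy (2 * (m / 2)) (dk (2 * (m / 2)) x) := by
  rcases Nat.even_or_odd m with h | h
  · have : 2 * (m / 2) = m := Nat.two_mul_div_two_of_even h
    rw [this]
  · have h1 : 2 * (m / 2) + 1 = m := Nat.two_mul_div_two_add_one_of_odd h
    obtain ⟨j, hj⟩ : ∃ j, j = 2 * (m / 2) := ⟨_, rfl⟩
    rw [← hj] at h1 ⊢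
    have h2 := dy_subset j (dk (j + 1) x)
    rw [dk_succ_div] at h2
    rwa [← h1]

/-- **JOB BCA** -/
theorem bca (h : S_spos) (h1 : S_mas) (h2 : S_mom) : S_bca := by
  intro lam gam q hl hg hq f μ hf hμ hne
  have : IsProbabilityMeasure μ := hμ.1
  obtain ⟨g, hgg⟩ : ∃ g, g = gam - 1 := ⟨_, rfl⟩
  have hg0 : 0 < g := by rw [hgg]; linarith
  have hgq : g < q := by rw [hgg]; exact hq
  have hne' : ¬ (g / (lam - 1) = q - g ∧ Real.binEntropy (1 / lam) ≤ Real.binEntropy (1 / (1 + g))) := by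
    rw [hgg, show 1 + (gam - 1) = gam by ring]
    exact hne
  obtain ⟨δ, hδ, t, ht, hM⟩ := h2 g lam q hg0 hl hgq hne'
  rw [← hgg]
  obtain ⟨a, ha⟩ : ∃ a, a = th g lam q + δ / 2 := ⟨_, rfl⟩
  obtain ⟨s, hs⟩ : ∃ s : ℕ → Set ℝ, s = fun n => ⋃ k ∈ (Finset.range (2 ^ (2 * n))).filter
    (fun k => Real.exp (-(2 * n : ℕ) * a) < ms g lam q (2 * n) k), dy (2 * n) k := ⟨_, rfl⟩
  have hsn : ∀ n, μ (s n) ≤ ENNReal.ofReal (Real.exp (-(t * δ)) ^ n) := by
    intro n
    rw [hs]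
    refine (measure_biUnion_finset_le _ _).trans ?_
    have h3 : ∀ k ∈ (Finset.range (2 ^ (2 * n))).filter (fun k => Real.exp (-(2 * n : ℕ) * a) < ms g lam q (2 * n) k),
        μ (dy (2 * n) k) ≤ ENNReal.ofReal (ms g lam q (2 * n) k ^ (1 + t) * Real.exp ((2 * n : ℕ) * a) ^ t) := by
      intro k hk
      rw [Finset.mem_filter, Finset.mem_range] at hk
      rw [h1 lam gam q hl.le hg hq.le f μ hf hμ (2 * n) k hk.1, ← hgg]
      apply ENNReal.ofReal_le_ofReal
      have hm := ((h g lam q hg0 hl.le hgq.le (2 * n)).1 k).2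
      rw [Real.rpow_add hm, Real.rpow_one, mul_assoc, ← Real.mul_rpow hm.le (Real.exp_pos _).le]
      have h4 : 1 ≤ ms g lam q (2 * n) k * Real.exp ((2 * n : ℕ) * a) := by
        have h5 := mul_le_mul_of_nonneg_right hk.2.le (Real.exp_pos ((2 * n : ℕ) * a)).le
        rw [← Real.exp_add] at h5
        have h6 : -((2 * n : ℕ) : ℝ) * a + ((2 * n : ℕ) : ℝ) * a = 0 := by ring
        rwa [h6, Real.exp_zero] at h5
      have h7 := Real.one_le_rpow h4 ht.le
      nlinarith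
    refine (Finset.sum_le_sum h3).trans ?_
    rw [← ENNReal.ofReal_sum_of_nonneg]
    · apply ENNReal.ofReal_le_ofReal
      rw [← Finset.sum_mul]
      have h4 : ∑ k ∈ (Finset.range (2 ^ (2 * n))).filter (fun k => Real.exp (-(2 * n : ℕ) * a) < ms g lam q (2 * n) k),
          ms g lam q (2 * n) k ^ (1 + t) ≤ Real.exp (-2 * t * (th g lam q + δ) * n) := by
        refine le_trans ?_ (hM n)
        refine Finset.sum_le_sum_of_subset_of_nonneg (Finset.filter_subset _ _) fun k _ _ => ?_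
        exact Real.rpow_nonneg ((h g lam q hg0 hl.le hgq.le (2 * n)).1 k).2.le _
      have h5 := mul_le_mul_of_nonneg_right h4 (Real.rpow_nonneg (Real.exp_pos ((2 * n : ℕ) * a)).le t)
      refine h5.trans (le_of_eq ?_)
      rw [← Real.exp_mul, ← Real.exp_add, ← Real.exp_nat_mul]
      congr 1
      rw [ha]
      push_cast
      ring
    · intro k _
      exact mul_nonneg (Real.rpow_nonneg ((h g lam q hg0 hl.le hgq.le (2 * n)).1 k).2.le _)
        (Real.rpow_nonneg (Real.exp_pos _).le _)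
  have hsum : ∑' n, μ (s n) ≠ ⊤ := by
    refine ne_top_of_le_ne_top ?_ (ENNReal.tsum_le_tsum hsn)
    have hr : Real.exp (-(t * δ)) < 1 := by
      rw [Real.exp_lt_one_iff]
      have := mul_pos ht hδ
      linarith
    have hsm : Summable (fun n : ℕ => Real.exp (-(t * δ)) ^ n) := summable_geometric_of_lt_one (Real.exp_pos _).le hr
    rw [← ENNReal.ofReal_tsum_of_nonneg (fun n => pow_nonneg (Real.exp_pos _).le n) hsm]
    exact ENNReal.ofReal_ne_top
  have hBC := ae_eventually_notMem hsum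
  refine ⟨δ / 2, by positivity, Real.exp |a|, Real.exp_pos _, ?_⟩
  have h3 : ∀ᵐ x ∂(μ.restrict (Ico (0 : ℝ) 1)), x ∈ Ico (0 : ℝ) 1 := ae_restrict_mem measurableSet_Ico
  filter_upwards [h3, ae_restrict_of_ae hBC] with x hx hev
  obtain ⟨N, hN⟩ := eventually_atTop.1 hev
  refine eventually_atTop.2 ⟨2 * N, fun m hm => ?_⟩
  have hmN : N ≤ m / 2 := by omega
  obtain ⟨n, hn⟩ : ∃ n, n = m / 2 := ⟨_, rfl⟩
  rw [← hn] at hmN
  have h4 := hN n hmN
  rw [hs] at h4
  simp only [Finset.mem_filter, Finset.mem_range, mem_iUnion, not_exists] at h4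
  have h5 : ms g lam q (2 * n) (dk (2 * n) x) ≤ Real.exp (-(2 * n : ℕ) * a) := by
    by_contra hlt
    push Not at hlt
    exact h4 _ ⟨dk_lt hx, hlt⟩ (mem_dy hx.1)
  calc μ (dy m (dk m x)) ≤ μ (dy (2 * n) (dk (2 * n) x)) := measure_mono (hn ▸ dy_sub_even m x)
    _ = ENNReal.ofReal (ms g lam q (2 * n) (dk (2 * n) x)) := by
        rw [h1 lam gam q hl.le hg hq.le f μ hf hμ (2 * n) _ (dk_lt hx), ← hgg]
    _ ≤ ENNReal.ofReal (Real.exp |a| * Real.exp (-(m : ℝ) * (th g lam q + δ / 2))) := by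
        apply ENNReal.ofReal_le_ofReal
        refine h5.trans ?_
        rw [← ha, ← Real.exp_add]
        apply Real.exp_le_exp.2
        have h6 : m = 2 * n ∨ m = 2 * n + 1 := by omega
        rcases h6 with h6 | h6
        · rw [← h6]
          linarith [abs_nonneg a]
        · have h7 : (m : ℝ) = ((2 * n : ℕ) : ℝ) + 1 := by
            rw [h6]
            push_cast
            ring
          rw [h7]
          linarith [le_abs_self a]

end Pool.Agent.Q252.MD
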