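import Pool.Agent.Q88.MD.Stm

/-!
# Project MD (helper88), job MOM (helper252)
-/

set_option autoImplicit false

open MeasureTheory Set Filter Topology
open scoped ENNReal NNReal

namespace Pool.Agent.Q252.MD

open Pool.Agent.Q88.MD

lemma pz_pos' {g z : ℝ} (hg : 0 < g) (hz : 0 < z) : 0 < pz g z := by
  unfold pz
  positivity

lemma pz_lt' {g z : ℝ} (hg : 0 < g) (hz : 0 < z) : 0 < 1 - pz g z := by
  unfold pz
  have : z / (z + g) < 1 := by
    rw [div_lt_one (by positivity)]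
    linarith
  linarith

lemma sum_two_steps (g lam q t : ℝ) (hg : 0 < g) (hl : 1 ≤ lam) (hq : g ≤ q) (h : S_spos) (m : ℕ) :
    ∑ k ∈ Finset.range (2 ^ (m + 2)), ms g lam q (m + 2) k ^ (1 + t) =
      ∑ k ∈ Finset.range (2 ^ m), ms g lam q m k ^ (1 + t) * B2 g lam q t (st g lam q m k) := by
  rw [show m + 2 = m + 1 + 1 from rfl, sum_dy, sum_dy]
  refine Finset.sum_congr rfl fun k _ => ?_
  have hz := ((h g lam q hg hl hq m).1 k).1
  have hm := ((h g lam q hg hl hq m).1 k).2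
  have hG0 : 0 < G0 g lam (st g lam q m k) := by
    rw [← st_even]
    exact ((h g lam q hg hl hq (m + 1)).1 (2 * k)).1
  have hG1 : 0 < G1 g q (st g lam q m k) := by
    rw [← st_odd]
    exact ((h g lam q hg hl hq (m + 1)).1 (2 * k + 1)).1
  rw [ms_even g lam q (m + 1) (2 * k), ms_odd g lam q (m + 1) (2 * k), ms_even g lam q (m + 1) (2 * k + 1),
    ms_odd g lam q (m + 1) (2 * k + 1), ms_even, ms_odd, st_even, st_odd]
  obtain ⟨z, hzz⟩ : ∃ z, z = st g lam q m k := ⟨_, rfl⟩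
  rw [← hzz] at hz hG0 hG1 ⊢
  have a0 := (pz_pos' hg hz).le
  have a1 := (pz_lt' hg hz).le
  have b0 := (pz_pos' hg hG0).le
  have b1 := (pz_lt' hg hG0).le
  have c0 := (pz_pos' hg hG1).le
  have c1 := (pz_lt' hg hG1).le
  unfold B2
  rw [Real.mul_rpow (mul_nonneg hm.le a0) b0, Real.mul_rpow (mul_nonneg hm.le a0) b1,
    Real.mul_rpow (mul_nonneg hm.le a1) c0, Real.mul_rpow (mul_nonneg hm.le a1) c1,
    Real.mul_rpow hm.le a0, Real.mul_rpow hm.le a1]
  ring

/-- **JOB MOM** -/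
theorem mom (h : S_spos) (h0 : S_inv) (h1 : S_htw) (h2 : S_tay) : S_mom := by
  intro g lam q hg hl hq hne
  obtain ⟨δ, hδ, hH⟩ := h1 g lam q hg hl hq hne
  refine ⟨δ, hδ, δ, hδ, ?_⟩
  have hB : ∀ m k, B2 g lam q δ (st g lam q m k) ≤ Real.exp (-2 * δ * (th g lam q + δ)) := by
    intro m k
    have h3 := h2 g lam q (st g lam q m k) δ hg hl hq ((h g lam q hg hl.le hq.le m).1 k).1 hδ
    refine h3.trans ?_
    apply Real.exp_le_exp.2
    have h4 := hH _ ((h0 g lam q hg hl hq).2.2 m k)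
    nlinarith [mul_pos hδ hδ]
  intro n
  induction n with
  | zero => simp [ms]
  | succ n ih =>
    rw [show 2 * (n + 1) = 2 * n + 2 by ring, sum_two_steps g lam q δ hg hl.le hq.le h]
    calc ∑ k ∈ Finset.range (2 ^ (2 * n)), ms g lam q (2 * n) k ^ (1 + δ) * B2 g lam q δ (st g lam q (2 * n) k)
        ≤ ∑ k ∈ Finset.range (2 ^ (2 * n)), ms g lam q (2 * n) k ^ (1 + δ) * Real.exp (-2 * δ * (th g lam q + δ)) := by
          refine Finset.sum_le_sum fun k _ => ?_
          exact mul_le_mul_of_nonneg_left (hB _ _)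
            (Real.rpow_nonneg ((h g lam q hg hl.le hq.le (2 * n)).1 k).2.le _)
      _ = (∑ k ∈ Finset.range (2 ^ (2 * n)), ms g lam q (2 * n) k ^ (1 + δ)) * Real.exp (-2 * δ * (th g lam q + δ)) := by
          rw [Finset.sum_mul]
      _ ≤ Real.exp (-2 * δ * (th g lam q + δ) * n) * Real.exp (-2 * δ * (th g lam q + δ)) :=
          mul_le_mul_of_nonneg_right ih (Real.exp_pos _).le
      _ = _ := by
          rw [← Real.exp_add]
          congr 1
          push_cast
          ring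

end Pool.Agent.Q252.MD
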