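import Pool.Agent.Q88.MD.Stm

/-!
# Project MD (helper88), job TAY (helper252)
-/

set_option autoImplicit false

open MeasureTheory Set Filter Topology
open scoped ENNReal NNReal

namespace Pool.Agent.Q252.MD

open Pool.Agent.Q88.MD

lemma exp_neg_le {u : ℝ} (hu : 0 ≤ u) : Real.exp (-u) ≤ 1 - u + u ^ 2 / 2 := by
  have h1 := Real.quadratic_le_exp_of_nonneg hu
  have h2 : 0 < 1 + u + u ^ 2 / 2 := by positivity
  rw [Real.exp_neg]
  have h3 : (Real.exp u)⁻¹ ≤ (1 + u + u ^ 2 / 2)⁻¹ := inv_anti₀ h2 h1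
  refine h3.trans ?_
  rw [inv_le_iff_one_le_mul₀ h2]
  nlinarith [pow_nonneg hu 4]

lemma sq_le_exp {L : ℝ} (hL : 0 ≤ L) : L ^ 2 ≤ 3 / 4 * Real.exp L := by
  have h1 : L / 2 ≤ Real.exp (L / 2 - 1) := by
    have := Real.add_one_le_exp (L / 2 - 1)
    linarith
  have h2 : Real.exp (L / 2) = Real.exp (L / 2 - 1) * Real.exp 1 := by
    rw [← Real.exp_add]
    congr 1
    ring
  have h3 : (2.7182818283 : ℝ) < Real.exp 1 := Real.exp_one_gt_d9
  have h4 : Real.exp L = Real.exp (L / 2) ^ 2 := by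
    rw [← Real.exp_nat_mul]
    congr 1
    push_cast
    ring
  have h5 : L / 2 * 2.7 ≤ Real.exp (L / 2) := by
    rw [h2]
    exact mul_le_mul h1 (by linarith) (by norm_num) (Real.exp_pos _).le
  rw [h4]
  have h6 : (L / 2 * 2.7) ^ 2 ≤ Real.exp (L / 2) ^ 2 := pow_le_pow_left₀ (by positivity) h5 2
  nlinarith [sq_nonneg L]

lemma term_le {x t : ℝ} (hx : 0 < x) (hx1 : x ≤ 1) (ht : 0 < t) :
    x ^ (1 + t) ≤ x - t * (x * Real.log x⁻¹) + 3 / 8 * t ^ 2 := by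
  obtain ⟨L, hL⟩ : ∃ L, L = Real.log x⁻¹ := ⟨_, rfl⟩
  have hL0 : 0 ≤ L := by
    rw [hL]
    exact Real.log_nonneg (one_le_inv₀ hx |>.2 hx1)
  have hxL : Real.exp L * x = 1 := by
    rw [hL, Real.exp_log (inv_pos.2 hx), inv_mul_cancel₀ hx.ne']
  have h1 : x ^ (1 + t) = x * Real.exp (-(t * L)) := by
    rw [Real.rpow_add hx, Real.rpow_one, Real.rpow_def_of_pos hx, hL, Real.log_inv]
    congr 2
    ring
  have h2 := exp_neg_le (mul_nonneg ht.le hL0)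
  have h3 := sq_le_exp hL0
  have h4 : x * L ^ 2 ≤ 3 / 4 := by
    have := mul_le_mul_of_nonneg_left h3 hx.le
    nlinarith
  rw [h1, ← hL]
  have h5 := mul_le_mul_of_nonneg_left h2 hx.le
  nlinarith [mul_le_mul_of_nonneg_left h4 (sq_nonneg t)]

lemma pz_pos {g z : ℝ} (hg : 0 < g) (hz : 0 < z) : 0 < pz g z := by
  unfold pz
  positivity

lemma pz_lt {g z : ℝ} (hg : 0 < g) (hz : 0 < z) : pz g z < 1 := by
  unfold pz
  rw [div_lt_one (by positivity)]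
  linarith

/-- **JOB TAY** -/
theorem tay : S_tay := by
  intro g lam q z t hg hl hq hz ht
  have hG0 : 0 < G0 g lam z := by
    unfold G0
    positivity
  have hG1 : 0 < G1 g q z := by
    unfold G1
    have : 0 < q := hg.trans hq
    positivity
  unfold B2 H2
  obtain ⟨a, ha⟩ : ∃ a, a = pz g z := ⟨_, rfl⟩
  obtain ⟨b, hb⟩ : ∃ b, b = pz g (G0 g lam z) := ⟨_, rfl⟩
  obtain ⟨c, hc⟩ : ∃ c, c = pz g (G1 g q z) := ⟨_, rfl⟩
  have ha0 : 0 < a := ha ▸ pz_pos hg hz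
  have ha1 : 0 < 1 - a := by rw [ha]; linarith [pz_lt hg hz]
  have hb0 : 0 < b := hb ▸ pz_pos hg hG0
  have hb1 : 0 < 1 - b := by rw [hb]; linarith [pz_lt hg hG0]
  have hc0 : 0 < c := hc ▸ pz_pos hg hG1
  have hc1 : 0 < 1 - c := by rw [hc]; linarith [pz_lt hg hG1]
  rw [← ha, ← hb, ← hc]
  have e1 : a ^ (1 + t) * (b ^ (1 + t) + (1 - b) ^ (1 + t)) + (1 - a) ^ (1 + t) * (c ^ (1 + t) + (1 - c) ^ (1 + t)) =
      (a * b) ^ (1 + t) + (a * (1 - b)) ^ (1 + t) + ((1 - a) * c) ^ (1 + t) + ((1 - a) * (1 - c)) ^ (1 + t) := by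
    rw [Real.mul_rpow ha0.le hb0.le, Real.mul_rpow ha0.le hb1.le, Real.mul_rpow ha1.le hc0.le,
      Real.mul_rpow ha1.le hc1.le]
    ring
  rw [e1]
  have t1 := term_le (mul_pos ha0 hb0) (by nlinarith) ht
  have t2 := term_le (mul_pos ha0 hb1) (by nlinarith) ht
  have t3 := term_le (mul_pos ha1 hc0) (by nlinarith) ht
  have t4 := term_le (mul_pos ha1 hc1) (by nlinarith) ht
  have hlog : ∀ x y : ℝ, 0 < x → 0 < y → Real.log (x * y)⁻¹ = Real.log x⁻¹ + Real.log y⁻¹ := by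
    intro x y hx hy
    rw [mul_inv, Real.log_mul (inv_pos.2 hx).ne' (inv_pos.2 hy).ne']
  rw [hlog _ _ ha0 hb0] at t1
  rw [hlog _ _ ha0 hb1] at t2
  rw [hlog _ _ ha1 hc0] at t3
  rw [hlog _ _ ha1 hc1] at t4
  have h5 := Real.add_one_le_exp (-t * (Real.binEntropy a + a * Real.binEntropy b + (1 - a) * Real.binEntropy c - 3 / 2 * t))
  refine le_trans ?_ h5
  unfold Real.binEntropy
  nlinarith

end Pool.Agent.Q252.MD
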