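import Pool.Agent.Q61.MH.Stm

/-!
# Job OFF1 of project MH (MP_499f6d_pr)
-/

set_option autoImplicit false

open Real

namespace Pool.Agent.Q252.MH

open Pool.Agent.Q61.MH

lemma pw {a b t : ℝ} (ha : 0 ≤ a) (hb : 0 ≤ b) (hab : a ≤ b ^ 2) (ht : 0 ≤ t) (ht2 : t ≤ 1 / 2) :
    a ^ t ≤ 1 + 2 * t * (b - 1) := by
  have e : (b ^ 2) ^ t = (1 + (b - 1)) ^ (2 * t) := by
    rw [← Real.rpow_natCast b 2, ← Real.rpow_mul hb]
    have : (1 + (b - 1)) = b := by ring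
    rw [this]
    norm_num
  calc a ^ t ≤ (b ^ 2) ^ t := Real.rpow_le_rpow ha hab ht
    _ = (1 + (b - 1)) ^ (2 * t) := e
    _ ≤ 1 + (2 * t) * (b - 1) :=
      rpow_one_add_le_one_add_mul_self (by linarith) (by linarith) (by linarith)

lemma num {r : ℝ} (h1 : 1 ≤ r) (h2 : r ≤ 3 / 2) :
    (r + 1) * ((2 / 5) * (6 / 5 : ℝ) ^ r) * (1 + 2 ^ r) ≤ 0.985 * 3 ^ r := by
  have e1 : (6 / 5 : ℝ) ^ r = 3 ^ r * (2 / 5) ^ r := by
    rw [← Real.mul_rpow (by norm_num) (by norm_num)]; norm_num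
  have e2 : (6 / 5 : ℝ) ^ r * 2 ^ r = 3 ^ r * (4 / 5) ^ r := by
    rw [← Real.mul_rpow (by norm_num) (by norm_num), ← Real.mul_rpow (by norm_num) (by norm_num)]
    norm_num
  have b1 : (2 / 5 : ℝ) ^ r ≤ 2 / 5 * (1 - 0.73 * (r - 1)) := by
    have e : (2 / 5 : ℝ) ^ r = 2 / 5 * (2 / 5) ^ (r - 1) := by
      rw [Real.rpow_sub_one (by norm_num)]; field_simp
    have := pw (a := 2 / 5) (b := 0.635) (t := r - 1) (by norm_num) (by norm_num) (by norm_num)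
      (by linarith) (by linarith)
    rw [e]
    nlinarith
  have b2 : (4 / 5 : ℝ) ^ r ≤ 4 / 5 * (1 - 0.21 * (r - 1)) := by
    have e : (4 / 5 : ℝ) ^ r = 4 / 5 * (4 / 5) ^ (r - 1) := by
      rw [Real.rpow_sub_one (by norm_num)]; field_simp
    have := pw (a := 4 / 5) (b := 0.895) (t := r - 1) (by norm_num) (by norm_num) (by norm_num)
      (by linarith) (by linarith)
    rw [e]
    nlinarith
  have h3 : (0 : ℝ) < 3 ^ r := Real.rpow_pos_of_pos (by norm_num) r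
  have key : (r + 1) * (2 / 5) * ((2 / 5 : ℝ) ^ r + (4 / 5) ^ r) ≤ 0.985 := by
    have : (r + 1) * (2 / 5) * ((2 / 5 : ℝ) ^ r + (4 / 5) ^ r) ≤
        (r + 1) * (2 / 5) * (2 / 5 * (1 - 0.73 * (r - 1)) + 4 / 5 * (1 - 0.21 * (r - 1))) :=
      mul_le_mul_of_nonneg_left (add_le_add b1 b2) (by positivity)
    refine this.trans ?_
    nlinarith [sq_nonneg (r - 1.3)]
  calc (r + 1) * ((2 / 5) * (6 / 5 : ℝ) ^ r) * (1 + 2 ^ r)
      = (r + 1) * (2 / 5) * ((6 / 5 : ℝ) ^ r + (6 / 5 : ℝ) ^ r * 2 ^ r) := by ring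
    _ = (r + 1) * (2 / 5) * ((2 / 5 : ℝ) ^ r + (4 / 5) ^ r) * 3 ^ r := by rw [e2, e1]; ring
    _ ≤ 0.985 * 3 ^ r := mul_le_mul_of_nonneg_right key h3.le

lemma mono {r θ : ℝ} (h1 : 1 ≤ r) (h2 : r ≤ 3 / 2) (hθ : θ ≤ 2 / 5) :
    θ * (2 - 2 * θ) ^ r ≤ (2 / 5) * (6 / 5 : ℝ) ^ r := by
  have e : (2 - 2 * θ) ^ r = (5 * (1 - θ) / 3) ^ r * (6 / 5 : ℝ) ^ r := by
    rw [← Real.mul_rpow (by linarith) (by norm_num)]; congr 1; ring
  have hb : (5 * (1 - θ) / 3) ^ r ≤ exp ((5 * (1 - θ) / 3 - 1) * r) := by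
    rw [Real.exp_mul]
    exact Real.rpow_le_rpow (by linarith) (by linarith [Real.add_one_le_exp (5 * (1 - θ) / 3 - 1)])
      (by linarith)
  have ha : 5 * θ / 2 ≤ exp (5 * θ / 2 - 1) := by linarith [Real.add_one_le_exp (5 * θ / 2 - 1)]
  have hab : 5 * θ / 2 * (5 * (1 - θ) / 3) ^ r ≤ 1 := by
    calc 5 * θ / 2 * (5 * (1 - θ) / 3) ^ r
        ≤ exp (5 * θ / 2 - 1) * exp ((5 * (1 - θ) / 3 - 1) * r) :=
          mul_le_mul ha hb (Real.rpow_nonneg (by linarith) r) (exp_pos _).le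
      _ = exp (5 * θ / 2 - 1 + (5 * (1 - θ) / 3 - 1) * r) := by rw [Real.exp_add]
      _ ≤ 1 := by
        rw [Real.exp_le_one_iff]
        nlinarith
  have hp : (0 : ℝ) < (6 / 5 : ℝ) ^ r := Real.rpow_pos_of_pos (by norm_num) r
  rw [e]
  calc θ * ((5 * (1 - θ) / 3) ^ r * (6 / 5 : ℝ) ^ r)
      = (2 / 5) * (5 * θ / 2 * (5 * (1 - θ) / 3) ^ r) * (6 / 5 : ℝ) ^ r := by ring
    _ ≤ (2 / 5) * 1 * (6 / 5 : ℝ) ^ r := by gcongr
    _ = _ := by ring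

theorem off1 (h : S_sum12) : S_off1 := by
  intro r y k h1 h2 hyk hmy
  have hmy' : 3 * k < 5 * y + 1 := by
    have : (3 * k : ℝ) < 5 * y + 1 := by linarith
    exact_mod_cast this
  have hk5 : 5 ≤ k := by omega
  have hyk' : (y : ℝ) + 2 ≤ k := by exact_mod_cast hyk
  have hk5' : (5 : ℝ) ≤ k := by exact_mod_cast hk5
  obtain ⟨N, hN⟩ : ∃ N : ℝ, N = (k : ℝ) + 1 / 2 := ⟨_, rfl⟩
  obtain ⟨m, hm⟩ : ∃ m : ℝ, m = (k : ℝ) - y := ⟨_, rfl⟩
  have hN5 : 11 / 2 ≤ N := by linarith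
  have hN0 : 0 < N := by linarith
  have hm2 : 2 ≤ m := by linarith
  have hmN : m < 2 / 5 * N := by linarith
  have hs := h r k h1 (by linarith) (by omega)
  rw [← hN] at hs
  have hNr : 0 < N ^ (r + 1) := Real.rpow_pos_of_pos hN0 _
  have hN2 : N ^ (r - 1) * N ^ 2 = N ^ (r + 1) := by
    rw [← Real.rpow_natCast N 2, ← Real.rpow_add hN0]; congr 1; push_cast; ring
  have hNr2 : (11 / 2 : ℝ) ^ 2 ≤ N ^ (r + 1) := by
    calc (11 / 2 : ℝ) ^ 2 ≤ N ^ 2 := by gcongr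
      _ = N ^ (2 : ℝ) := by norm_num
      _ ≤ N ^ (r + 1) := Real.rpow_le_rpow_of_exponent_le (by linarith) (by linarith)
  have hNm : N ^ (r - 1) ≤ N ^ (r + 1) / (11 / 2) ^ 2 := by
    rw [le_div_iff₀ (by norm_num), ← hN2]
    have : 0 ≤ N ^ (r - 1) := Real.rpow_nonneg hN0.le _
    gcongr
  -- lower bound for the power sum
  have hr1 : 0 < r + 1 := by linarith
  have hS : N ^ (r + 1) / (r + 1) * 0.985 ≤ S k r := by
    refine le_trans ?_ hs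
    have e : N ^ (r + 1) / (r + 1) - r * N ^ (r - 1) / 24 - 1 / 12 =
        (N ^ (r + 1) - r * (r + 1) * N ^ (r - 1) / 24 - (r + 1) / 12) / (r + 1) := by
      field_simp
    rw [e, div_mul_eq_mul_div]
    apply div_le_div_of_nonneg_right _ hr1.le
    have hQ : 0 ≤ N ^ (r - 1) := Real.rpow_nonneg hN0.le _
    have h4 : r * (r + 1) * N ^ (r - 1) ≤ 15 / 4 * (N ^ (r + 1) / (11 / 2) ^ 2) :=
      mul_le_mul (by nlinarith) hNm hQ (by norm_num)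
    norm_num at h4 hNr2 ⊢
    linarith
  have hSpos : 0 < S k r := lt_of_lt_of_le (by positivity) hS
  have hY : (2 * (y : ℝ) + 1) = N * (2 - 2 * (m / N)) := by
    field_simp
    rw [hN, hm]; ring
  have hg : g 2 r = 3 ^ r / (1 + 2 ^ r) := by
    simp only [g, S, Finset.sum_range_succ, Finset.sum_range_zero]
    norm_num
  have h2r : (0 : ℝ) < 1 + 2 ^ r := by positivity
  have hθ : m / N ≤ 2 / 5 := by
    rw [div_le_iff₀ hN0]; linarith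
  rw [hg, G, div_le_div_iff₀ hSpos h2r, ← hm, hY, Real.mul_rpow hN0.le (by linarith)]
  have hmono := mono h1 h2 hθ
  have hnum := num h1 h2
  have hm' : m = m / N * N := by field_simp
  have hNN : N ^ r * N = N ^ (r + 1) := by rw [Real.rpow_add_one hN0.ne']
  calc N ^ r * (2 - 2 * (m / N)) ^ r * m * (1 + 2 ^ r)
      = N ^ r * (2 - 2 * (m / N)) ^ r * (m / N * N) * (1 + 2 ^ r) := by rw [← hm']
    _ = N ^ (r + 1) / (r + 1) * ((r + 1) * (m / N * (2 - 2 * (m / N)) ^ r) * (1 + 2 ^ r)) := by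
        rw [← hNN]; field_simp
    _ ≤ N ^ (r + 1) / (r + 1) * ((r + 1) * ((2 / 5) * (6 / 5 : ℝ) ^ r) * (1 + 2 ^ r)) := by
        gcongr
    _ ≤ N ^ (r + 1) / (r + 1) * (0.985 * 3 ^ r) := by gcongr
    _ = 3 ^ r * (N ^ (r + 1) / (r + 1) * 0.985) := by ring
    _ ≤ 3 ^ r * S k r := by gcongr

end Pool.Agent.Q252.MH
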