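import Mathlib

/-!
Binomial coefficients modulo a prime at digit positions, and Hasse derivatives of powers.
-/

namespace Pool.Agent.Q252.MV

open Polynomial

section Binom

variable {p : ℕ} [Fact p.Prime]

theorem choose_pow_mul (a t c : ℕ) :
    (a.choose (p ^ t * c)) ≡ ((a / p ^ t).choose c) [MOD p] := by
  have hp : 0 < p := (Fact.out : p.Prime).pos
  induction t generalizing a with
  | zero => simpa using Nat.ModEq.refl _
  | succ t ih =>
    have h1 := Choose.choose_modEq_choose_mod_mul_choose_div_nat (n := a) (k := p ^ (t + 1) * c)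
      (p := p)
    have h2 : p ^ (t + 1) * c = p * (p ^ t * c) := by ring
    rw [h2, Nat.mul_mod_right, Nat.mul_div_cancel_left _ hp, Nat.choose_zero_right, one_mul,
      ← h2] at h1
    refine h1.trans ((ih (a / p)).trans ?_)
    rw [Nat.div_div_eq_div_mul, pow_succ, Nat.mul_comm p]

theorem choose_small (a c : ℕ) (hc : c < p) :
    (a.choose c) ≡ ((a % p).choose c) [MOD p] := by
  have h1 := Choose.choose_modEq_choose_mod_mul_choose_div_nat (n := a) (k := c) (p := p)
  rw [Nat.mod_eq_of_lt hc, Nat.div_eq_of_lt hc, Nat.choose_zero_right, mul_one] at h1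
  exact h1

theorem choose_pow_left (M A j : ℕ) (hj : ¬ p ^ M ∣ j) :
    ((p ^ M * A).choose j) ≡ 0 [MOD p] := by
  have hp : 0 < p := (Fact.out : p.Prime).pos
  induction M generalizing A j with
  | zero => exact absurd (by simp) hj
  | succ M ih =>
    have h1 := Choose.choose_modEq_choose_mod_mul_choose_div_nat (n := p ^ (M + 1) * A) (k := j)
      (p := p)
    have h2 : p ^ (M + 1) * A = p * (p ^ M * A) := by ring
    rw [h2, Nat.mul_mod_right, Nat.mul_div_cancel_left _ hp, ← h2] at h1
    by_cases h3 : j % p = 0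
    · obtain ⟨i, rfl⟩ := Nat.dvd_of_mod_eq_zero h3
      rw [Nat.mul_mod_right, Nat.mul_div_cancel_left _ hp, Nat.choose_self, one_mul] at h1
      refine h1.trans (ih A i ?_)
      intro h4
      exact hj (by rw [pow_succ, Nat.mul_comm (p ^ M)]; exact Nat.mul_dvd_mul_left _ h4)
    · rw [Nat.choose_eq_zero_of_lt (Nat.pos_of_ne_zero h3), zero_mul] at h1
      exact h1

theorem choose_pow_both (M A B : ℕ) :
    ((p ^ M * A).choose (p ^ M * B)) ≡ (A.choose B) [MOD p] := by
  have hp : 0 < p := (Fact.out : p.Prime).pos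
  have := choose_pow_mul (p := p) (p ^ M * A) M B
  rwa [Nat.mul_div_cancel_left _ (pow_pos hp M)] at this

end Binom

section Hasse

variable {κ : Type*} [Field κ] (p : ℕ) [Fact p.Prime] [CharP κ p]

theorem castPow (c M : ℕ) : (c : κ) ^ p ^ M = c := by
  have : ExpChar κ p := ExpChar.prime Fact.out
  have := map_natCast (iterateFrobenius κ p M) c
  rwa [iterateFrobenius_def] at this

theorem coeff_pow_char (f : κ[X]) (M i : ℕ) :
    (f ^ p ^ M).coeff i = if p ^ M ∣ i then (f.coeff (i / p ^ M)) ^ p ^ M else 0 := by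
  have : ExpChar κ p := ExpChar.prime Fact.out
  have hp : 0 < p := (Fact.out : p.Prime).pos
  rw [← map_iterateFrobenius_expand p f M, coeff_map, coeff_expand (pow_pos hp M)]
  split_ifs
  · rw [iterateFrobenius_def]
  · simp

omit [Fact p.Prime] in
theorem cast_eq_of_modEq {a b : ℕ} (h : a ≡ b [MOD p]) : (a : κ) = b :=
  (CharP.natCast_eq_natCast κ p).2 h

theorem hasse_pow_char (f : κ[X]) (M j : ℕ) :
    hasseDeriv j (f ^ p ^ M) =
      if p ^ M ∣ j then (hasseDeriv (j / p ^ M) f) ^ p ^ M else 0 := by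
  have : ExpChar κ p := ExpChar.prime Fact.out
  have hp : 0 < p := (Fact.out : p.Prime).pos
  have hpM : 0 < p ^ M := pow_pos hp M
  ext i
  rw [hasseDeriv_coeff, coeff_pow_char p]
  by_cases hj : p ^ M ∣ j
  · rw [if_pos hj]
    obtain ⟨j', rfl⟩ := hj
    rw [Nat.mul_div_cancel_left _ hpM, coeff_pow_char p]
    by_cases hi : p ^ M ∣ i
    · obtain ⟨i', rfl⟩ := hi
      rw [if_pos (Dvd.intro _ rfl), ← Nat.mul_add, if_pos (Dvd.intro _ rfl),
        Nat.mul_div_cancel_left _ hpM, Nat.mul_div_cancel_left _ hpM, hasseDeriv_coeff, mul_pow,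
        castPow p, cast_eq_of_modEq (κ := κ) p (choose_pow_both M (i' + j') j')]
    · rw [if_neg hi, if_neg, mul_zero]
      intro h
      exact hi ((Nat.dvd_add_left (Dvd.intro _ rfl)).1 h)
  · rw [if_neg hj, coeff_zero]
    by_cases hij : p ^ M ∣ i + j
    · obtain ⟨A, hA⟩ := hij
      rw [hA, cast_eq_of_modEq (κ := κ) p (choose_pow_left M A j hj), Nat.cast_zero, zero_mul]
    · rw [if_neg hij, mul_zero]

theorem hasse_mul_const (A B : κ[X]) (M j : ℕ) (hj : j < p ^ M) :
    hasseDeriv j (A ^ p ^ M * B) = A ^ p ^ M * hasseDeriv j B := by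
  rw [hasseDeriv_mul, Finset.sum_eq_single (0, j)]
  · simp
  · rintro ⟨a, b⟩ hab hne
    have h1 : a + b = j := Finset.HasAntidiagonal.mem_antidiagonal.1 hab
    have h2 : a ≠ 0 := by
      rintro rfl
      exact hne (by simp at h1; simp [h1])
    have h3 : ¬ p ^ M ∣ a := by
      intro h
      have := Nat.le_of_dvd (Nat.pos_of_ne_zero h2) h
      omega
    simp only
    rw [hasse_pow_char p, if_neg h3, zero_mul]
  · intro h
    exact absurd (Finset.HasAntidiagonal.mem_antidiagonal.2 (by simp)) h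

end Hasse

section Order

variable {κ : Type*} [Field κ]

theorem dvd_iff_hasse (f : κ[X]) (r : κ) (a : ℕ) :
    (X - C r) ^ a ∣ f ↔ ∀ b < a, (hasseDeriv b f).eval r = 0 := by
  rw [X_sub_C_pow_dvd_iff, ← taylor_apply, X_pow_dvd_iff]
  simp only [taylor_coeff]

theorem hasse_hasse (f : κ[X]) (i j : ℕ) :
    hasseDeriv i (hasseDeriv j f) = ((i + j).choose i : κ[X]) * hasseDeriv (i + j) f := by
  have h := hasseDeriv_comp (R := κ) i j
  have h2 := LinearMap.congr_fun h f
  rw [LinearMap.comp_apply, LinearMap.smul_apply, nsmul_eq_mul] at h2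
  exact h2

theorem dvd_hasse (f : κ[X]) (r : κ) (a j : ℕ) (h : (X - C r) ^ a ∣ f) :
    (X - C r) ^ (a - j) ∣ hasseDeriv j f := by
  rw [dvd_iff_hasse] at h ⊢
  intro b hb
  rw [hasse_hasse, eval_mul, h (b + j) (by omega), mul_zero]

theorem choose_eq_zero (f : κ[X]) (hf : f ≠ 0) (r : κ) (j : ℕ) (h : hasseDeriv j f = 0) :
    (((rootMultiplicity r f).choose j : ℕ) : κ) = 0 := by
  set a := rootMultiplicity r f with ha
  by_cases hj : j ≤ a
  · have h1 : ¬ (X - C r) ^ (a + 1) ∣ f := by
      intro h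
      have := (le_rootMultiplicity_iff hf).2 h
      omega
    have h2 : (X - C r) ^ a ∣ f := pow_rootMultiplicity_dvd f r
    rw [dvd_iff_hasse] at h1 h2
    push Not at h1
    obtain ⟨b, hb, hne⟩ := h1
    have hba : b = a := by
      by_contra hba
      exact hne (h2 b (by omega))
    rw [hba] at hne
    have h3 := hasse_hasse f (a - j) j
    rw [h, map_zero, Nat.sub_add_cancel hj] at h3
    have h4 := congrArg (eval r) h3
    rw [eval_zero, eval_mul, eval_natCast] at h4
    rcases mul_eq_zero.1 h4.symm with h5 | h5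
    · rwa [Nat.choose_symm hj] at h5
    · exact absurd h5 hne
  · rw [Nat.choose_eq_zero_of_lt (by omega), Nat.cast_zero]

end Order

end Pool.Agent.Q252.MV
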