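import Pool.Agent.Q252.MV9

/-!
The classification of the minimal value set polynomials with value set `U ^ v`.
-/

namespace Pool.Agent.Q252.MV

open Polynomial

section Classify

variable {K : Type*} [Field K] [Finite K] {p k v : ℕ} [Fact p.Prime] [CharP K p]

theorem card_submodule (L : Subfield K) (hk : 0 < k) (hL : Nat.card L = p ^ k)
    (U : Submodule L K) (hv0 : 0 < v) (hv : v ∣ p ^ k - 1) :
    Nat.card U = v * ((powSet (U : Set K) v).ncard - 1) + 1 := by
  obtain ⟨ζ, hζ⟩ := exists_primitive L hv0 (by rw [hL]; exact hv)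
  have hpp : p.Prime := Fact.out
  refine ncard_powSet hv0 hζ (U : Set K) U.zero_mem ?_
  intro z hz u hu
  have hzP : z ^ p ^ k = z := by
    obtain ⟨j, hj⟩ := hv
    have h2 : p ^ k = v * j + 1 := by
      have : 0 < p ^ k := pow_pos hpp.pos k
      omega
    rw [h2, pow_succ, pow_mul, hz, one_pow, one_mul]
  obtain ⟨c, hc⟩ := mem_of_pow_eq (κ := K) L hk hL z hzP
  have hc' : (c : K) = z := hc
  rw [← hc']
  exact U.smul_mem c hu

theorem classification (L : Subfield K) (hk : 0 < k) (hL : Nat.card L = p ^ k)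
    (U : Submodule L K) (hv0 : 0 < v) (hv : v ∣ p ^ k - 1)
    (hr2 : 2 ≤ (Nat.card U - 1) / v)
    (star : ∀ i, 1 ≤ i → i < k → p ^ i + v % p ^ i ≤ (v % p ^ i) * ((Nat.card U - 1) / v)) :
    MVSPs (powSet (U : Set K) v) = (fun f => f ^ v) '' MVSPs (U : Set K) := by
  set r := (Nat.card U - 1) / v with hr
  have hcU := card_submodule L hk hL U hv0 hv
  have hcr : Nat.card U = v * r + 1 := by
    rw [hr]
    have : (Nat.card U - 1) / v = (powSet (U : Set K) v).ncard - 1 := by
      rw [hcU, Nat.add_sub_cancel, Nat.mul_div_cancel_left _ hv0]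
    rw [this]
    exact hcU
  have hUn : (U : Set K).ncard = Nat.card U := rfl
  have hpow : (powSet (U : Set K) v).ncard = r + 1 := by
    have h1 : v * r = v * ((powSet (U : Set K) v).ncard - 1) := by omega
    have h2 := Nat.eq_of_mul_eq_mul_left hv0 h1
    omega
  ext F
  constructor
  · rintro ⟨⟨hF, hFc⟩, hFv⟩
    have h1 : (Nat.card K - 1) / F.natDegree = r := by
      rw [hFv, hpow] at hFc
      omega
    have hq : 0 < Nat.card K := Nat.card_pos
    have hdeg : r * F.natDegree < Nat.card K := by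
      have h2 := Nat.div_mul_le_self (Nat.card K - 1) F.natDegree
      rw [h1] at h2
      omega
    have hval : ∀ x, ∃ u ∈ U, F.eval x = u ^ v := by
      intro x
      have h2 : F.eval x ∈ values F := ⟨x, rfl⟩
      rw [hFv] at h2
      obtain ⟨u, hu, hux⟩ := h2
      exact ⟨u, hu, hux.symm⟩
    obtain ⟨f, hf, hfU⟩ := root_of_values L hk hL U hv0 hv hr hr2 star F hF hdeg hval
    refine ⟨f, ?_, hf.symm⟩
    have hfd : F.natDegree = v * f.natDegree := by rw [hf, natDegree_pow]
    have hf0 : 0 < f.natDegree := by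
      rcases Nat.eq_zero_or_pos f.natDegree with h | h
      · rw [h, mul_zero] at hfd
        omega
      · exact h
    have hsub : values f ⊆ (U : Set K) := by
      rintro _ ⟨x, rfl⟩
      exact hfU x
    have h3 : (values f).ncard ≤ (U : Set K).ncard :=
      Set.ncard_le_ncard hsub (Set.toFinite _)
    have h4 := values_ncard_ge f hf0
    have h5 : (Nat.card U - 1) ≤ (Nat.card K - 1) / f.natDegree := by
      rw [Nat.le_div_iff_mul_le hf0, hcr, Nat.add_sub_cancel]
      rw [hfd] at hdeg
      have h6 : v * r * f.natDegree = r * (v * f.natDegree) := by ring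
      omega
    rw [hUn] at h3
    refine ⟨⟨hf0, by omega⟩, ?_⟩
    apply Set.eq_of_subset_of_ncard_le hsub _ (Set.toFinite _)
    rw [hUn]
    omega
  · rintro ⟨f, ⟨⟨hf0, hfc⟩, hfv⟩, rfl⟩
    refine ⟨⟨?_, ?_⟩, ?_⟩
    · simp only [natDegree_pow]
      exact Nat.mul_pos hv0 hf0
    · simp only [natDegree_pow]
      rw [values_pow, hfv, hpow]
      rw [hfv, hUn, hcr] at hfc
      rw [mul_comm v, ← Nat.div_div_eq_div_mul]
      have h1 : (Nat.card K - 1) / f.natDegree = v * r := by omega
      rw [h1, Nat.mul_div_cancel_left _ hv0]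
    · simp only
      rw [values_pow, hfv]

/-- The digit condition holds in dimension at least two. -/
theorem star_of_two_le (L : Subfield K) (hk : 0 < k) (hL : Nat.card L = p ^ k)
    (U : Submodule L K) (hv0 : 0 < v) (hv : v ∣ p ^ k - 1)
    (hm : 2 ≤ Module.finrank L U) :
    ∀ i, 1 ≤ i → i < k → p ^ i + v % p ^ i ≤ (v % p ^ i) * ((Nat.card U - 1) / v) := by
  intro i hi hik
  have hpp : p.Prime := Fact.out
  have hUcard : Nat.card U = (p ^ k) ^ Module.finrank L U := by
    have h1 : Nat.card U = Nat.card L ^ Module.finrank L U := Module.natCard_eq_pow_finrank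
    rw [h1, hL]
  have hP : 2 ≤ p ^ k := le_trans hpp.two_le (Nat.le_self_pow hk.ne' p)
  have h1 : p ^ k * p ^ k ≤ Nat.card U := by
    rw [hUcard]
    calc p ^ k * p ^ k = (p ^ k) ^ 2 := by ring
      _ ≤ _ := Nat.pow_le_pow_right (by omega) hm
  have hvP : v ≤ p ^ k - 1 := Nat.le_of_dvd (by omega) hv
  have h2 : p ^ k + 1 ≤ (Nat.card U - 1) / v := by
    rw [Nat.le_div_iff_mul_le hv0]
    calc (p ^ k + 1) * v ≤ (p ^ k + 1) * (p ^ k - 1) := Nat.mul_le_mul_left _ hvP
      _ = p ^ k * p ^ k - 1 := by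
        obtain ⟨j, hj⟩ : ∃ j, p ^ k = j + 1 := ⟨p ^ k - 1, by omega⟩
        rw [hj, Nat.add_sub_cancel]
        have : (j + 1) * (j + 1) = (j + 1 + 1) * j + 1 := by ring
        omega
      _ ≤ _ := by omega
  have hc : 1 ≤ v % p ^ i := by
    rw [Nat.one_le_iff_ne_zero]
    intro h
    have h3 : p ∣ v := (dvd_pow_self p (by omega)).trans (Nat.dvd_of_mod_eq_zero h)
    have h4 : p ∣ p ^ k - 1 := h3.trans hv
    have h5 : p ∣ p ^ k := dvd_pow_self p hk.ne'
    have h6 : p ∣ 1 := by
      have := Nat.dvd_sub h5 h4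
      rwa [Nat.sub_sub_self (by omega)] at this
    exact hpp.one_lt.ne' (Nat.dvd_one.1 h6)
  have h3 : p ^ i ≤ p ^ k := Nat.pow_le_pow_right hpp.pos hik.le
  calc p ^ i + v % p ^ i ≤ (v % p ^ i) * p ^ k + v % p ^ i := by
        have : p ^ k ≤ (v % p ^ i) * p ^ k := Nat.le_mul_of_pos_left _ hc
        omega
    _ = (v % p ^ i) * (p ^ k + 1) := by ring
    _ ≤ _ := Nat.mul_le_mul_left _ h2

/-- A space of dimension one which contains `1` is the field itself. -/
theorem eq_of_finrank_one (L : Subfield K) (U : Submodule L K) (h1 : (1 : K) ∈ U)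
    (hm : Module.finrank L U ≤ 1) : ((L : Set K)) = (U : Set K) := by
  have hsub : (L : Set K) ⊆ (U : Set K) := by
    intro c hc
    have h2 := U.smul_mem (⟨c, hc⟩ : L) h1
    rw [Subfield.smul_def, smul_eq_mul, mul_one] at h2
    exact h2
  apply Set.eq_of_subset_of_ncard_le hsub _ (Set.toFinite _)
  have h2 : Nat.card U = Nat.card L ^ Module.finrank L U := Module.natCard_eq_pow_finrank
  have h3 : Nat.card U ≤ Nat.card L := by
    rw [h2]
    calc Nat.card L ^ Module.finrank L U ≤ Nat.card L ^ 1 :=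
          Nat.pow_le_pow_right Nat.card_pos hm
      _ = _ := pow_one _
  exact h3

end Classify

end Pool.Agent.Q252.MV
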