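import Pool.Agent.Q252.MV10

/-!
The case of a subfield, and the complete classification.
-/

namespace Pool.Agent.Q252.MV

open Polynomial

section FieldCase

variable {K : Type*} [Field K] [Finite K] {p k v : ℕ} [Fact p.Prime] [CharP K p]

/-- The elements with `x ^ (p ^ i) = x`. -/
noncomputable def fixedField (K : Type*) [Field K] (p : ℕ) [Fact p.Prime] [CharP K p] (i : ℕ) :
    Subfield K where
  carrier := {x | x ^ p ^ i = x}
  zero_mem' := zero_pow (pow_pos (Fact.out : p.Prime).pos i).ne'
  one_mem' := one_pow _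
  add_mem' := by
    intro a b ha hb
    simp only [Set.mem_ofPred_eq] at ha hb ⊢
    rw [add_pow_char_pow, ha, hb]
  mul_mem' := by
    intro a b ha hb
    simp only [Set.mem_ofPred_eq] at ha hb ⊢
    rw [mul_pow, ha, hb]
  neg_mem' := by
    intro a ha
    simp only [Set.mem_ofPred_eq] at ha ⊢
    have h1 : (0 : K) ^ p ^ i = 0 := zero_pow (pow_pos (Fact.out : p.Prime).pos i).ne'
    have h2 : (0 - a) ^ p ^ i = 0 - a := by
      rw [sub_pow_char_pow, ha, h1]
    rwa [zero_sub] at h2
  inv_mem' := by
    intro a ha
    simp only [Set.mem_ofPred_eq] at ha ⊢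
    rw [inv_pow, ha]

theorem card_fixedField_le (i : ℕ) (hi : 0 < i) :
    Nat.card (fixedField K p i) ≤ p ^ i := by
  classical
  have hpp : p.Prime := Fact.out
  have : Fintype K := Fintype.ofFinite K
  set A : K[X] := X ^ p ^ i - X with hA
  have hdeg : A.natDegree = p ^ i :=
    FiniteField.X_pow_card_sub_X_natDegree_eq K (Nat.one_lt_pow hi.ne' hpp.one_lt)
  have hA0 : A ≠ 0 := by
    intro h
    rw [h] at hdeg
    simp only [natDegree_zero] at hdeg
    exact (pow_pos hpp.pos i).ne hdeg
  have h1 : ((fixedField K p i : Subfield K) : Set K) ⊆ (A.roots.toFinset : Set K) := by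
    intro x hx
    have hx' : x ^ p ^ i = x := hx
    rw [Finset.mem_coe, Multiset.mem_toFinset, mem_roots hA0, IsRoot.def, hA]
    simp only [eval_sub, eval_pow, eval_X]
    rw [hx', sub_self]
  have h2 : Nat.card (fixedField K p i) ≤ (A.roots.toFinset : Set K).ncard :=
    Set.ncard_le_ncard h1 (Set.toFinite _)
  rw [Set.ncard_coe_finset] at h2
  refine h2.trans ((Multiset.toFinset_card_le _).trans ?_)
  rw [← hdeg]
  exact card_roots' A

/-- The cardinality of a subfield. -/
theorem card_subfield (E : Subfield K) : ∃ e : ℕ, 0 < e ∧ Nat.card E = p ^ e := by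
  have : Fintype E := Fintype.ofFinite E
  obtain ⟨e, -, he⟩ := FiniteField.card E p
  exact ⟨e, e.pos, by rw [Nat.card_eq_fintype_card, he]⟩

/-- A subfield as a space over itself. -/
noncomputable def selfSub (E : Subfield K) : Submodule E K where
  carrier := (E : Set K)
  add_mem' ha hb := E.add_mem ha hb
  zero_mem' := E.zero_mem
  smul_mem' c x hx := by
    rw [Subfield.smul_def, smul_eq_mul]
    exact E.mul_mem c.2 hx

/-- Two subsets made of `0` and all `r`-th roots of unity agree. -/
theorem powSet_sub {K : Type*} [Field K] [Finite K] {r v : ℕ} (M : Subfield K) (hv0 : 0 < v)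
    (hM : Nat.card M - 1 = v * r) :
    powSet (M : Set K) v ⊆ {x | x = 0 ∨ x ^ r = 1} := by
  rintro _ ⟨x, hx, rfl⟩
  by_cases h0 : x = 0
  · left
    simp only
    rw [h0, zero_pow hv0.ne']
  · right
    simp only
    have : Fintype M := Fintype.ofFinite M
    have h1 : (⟨x, hx⟩ : M) ^ (Fintype.card M - 1) = 1 := by
      apply FiniteField.pow_card_sub_one_eq_one
      intro h
      exact h0 (congrArg Subtype.val h)
    have h2 : x ^ (Fintype.card M - 1) = 1 := congrArg Subtype.val h1
    rw [← Nat.card_eq_fintype_card, hM, pow_mul] at h2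
    exact h2

theorem powSet_eq {K : Type*} [Field K] [Finite K] (p : ℕ) [Fact p.Prime] [CharP K p]
    {r v : ℕ} (M : Subfield K) (hv0 : 0 < v) (hr0 : 0 < r)
    (hM : Nat.card M - 1 = v * r) :
    powSet (M : Set K) v = {x | x = 0 ∨ x ^ r = 1} := by
  classical
  obtain ⟨ζ, hζ⟩ := exists_primitive M hv0 (hM ▸ dvd_mul_right v r)
  obtain ⟨e, he0, he⟩ := card_subfield (p := p) M
  have hpp : p.Prime := Fact.out
  have hv : v ∣ p ^ e - 1 := by
    rw [← he, hM]
    exact dvd_mul_right v r
  have hc := card_submodule M he0 he (selfSub M) hv0 hv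
  have hc' : Nat.card M = v * ((powSet (M : Set K) v).ncard - 1) + 1 := hc
  have h1 : (powSet (M : Set K) v).ncard - 1 = r := by
    have h2 : v * r = v * ((powSet (M : Set K) v).ncard - 1) := by omega
    exact (Nat.eq_of_mul_eq_mul_left hv0 h2).symm
  have h2 : (powSet (M : Set K) v).ncard = r + 1 := by omega
  apply Set.eq_of_subset_of_ncard_le (powSet_sub M hv0 hM) _ (Set.toFinite _)
  rw [h2]
  have h3 : ({x | x = 0 ∨ x ^ r = 1} : Set K) ⊆ ((insert 0 (nthRootsFinset r (1 : K))) : Finset K) := by
    intro x hx
    rw [Finset.coe_insert]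
    rcases hx with hx | hx
    · left
      exact hx
    · right
      rw [Finset.mem_coe, mem_nthRootsFinset hr0]
      exact hx
  have h4 := Set.ncard_le_ncard h3 (Set.toFinite _)
  rw [Set.ncard_coe_finset] at h4
  refine h4.trans ((Finset.card_insert_le _ _).trans ?_)
  have h5 : (nthRootsFinset r (1 : K)).card ≤ r := by
    rw [nthRootsFinset]
    refine (Multiset.toFinset_card_le _).trans (card_nthRoots r 1)
  omega

theorem field_case {K : Type*} [Field K] [Finite K] (p : ℕ) [Fact p.Prime] [CharP K p]
    {v : ℕ} (M : Subfield K) (hv0 : 0 < v) (hv : v ∣ Nat.card M - 1)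
    (hU : 2 < (powSet (M : Set K) v).ncard) :
    MVSPs (powSet (M : Set K) v)
      = (fun f => f ^ ((Nat.card (Subfield.closure (powSet (M : Set K) v)) - 1) * v
          / (Nat.card M - 1)))
        '' MVSPs ((Subfield.closure (powSet (M : Set K) v) : Subfield K) : Set K) := by
  have hpp : p.Prime := Fact.out
  obtain ⟨r, hr⟩ := hv
  obtain ⟨k, hk0, hk⟩ := card_subfield (p := p) M
  have hMc : Nat.card M = v * ((powSet (M : Set K) v).ncard - 1) + 1 :=
    card_submodule M hk0 hk (selfSub M) hv0 (by rw [← hk, hr]; exact dvd_mul_right v r)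
  have hSr : (powSet (M : Set K) v).ncard - 1 = r := by
    have h2 : v * ((powSet (M : Set K) v).ncard - 1) = v * r := by omega
    exact Nat.eq_of_mul_eq_mul_left hv0 h2
  have hr2 : 2 ≤ r := by omega
  set S := powSet (M : Set K) v with hS
  set E := Subfield.closure S with hE
  obtain ⟨e, he0, he⟩ := card_subfield (p := p) E
  have hSE : S ⊆ (E : Set K) := Subfield.subset_closure
  have hSeq : S = {x | x = 0 ∨ x ^ r = 1} := powSet_eq p M hv0 (by omega) hr
  -- `r` divides `#E - 1`
  obtain ⟨ζ, hζ⟩ := exists_primitive M (v := r) (by omega) (hr ▸ dvd_mul_left r v)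
  have hζE : ζ ∈ E := by
    apply hSE
    rw [hSeq]
    right
    exact hζ.pow_eq_one
  have hrE : r ∣ Nat.card E - 1 := by
    apply hζ.dvd_of_pow_eq_one
    have : Fintype E := Fintype.ofFinite E
    have h1 : (⟨ζ, hζE⟩ : E) ^ (Fintype.card E - 1) = 1 := by
      apply FiniteField.pow_card_sub_one_eq_one
      intro h
      exact hζ.ne_zero (by omega) (congrArg Subtype.val h)
    have h2 : ζ ^ (Fintype.card E - 1) = 1 := congrArg Subtype.val h1
    rw [Nat.card_eq_fintype_card]
    exact h2
  obtain ⟨t, ht⟩ := hrE
  have hEt : Nat.card E - 1 = t * r := by rw [ht, mul_comm]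
  have hE1 : 1 < Nat.card E := Finite.one_lt_card
  have ht0 : 0 < t := by
    rcases Nat.eq_zero_or_pos t with h | h
    · rw [h, mul_zero] at ht
      omega
    · exact h
  have hexp : (Nat.card E - 1) * v / (Nat.card M - 1) = t := by
    rw [ht, hr, show r * t * v = t * (v * r) by ring]
    exact Nat.mul_div_cancel _ (Nat.mul_pos hv0 (by omega))
  rw [hexp]
  have hSE2 : S = powSet (E : Set K) t := by
    rw [hSeq, powSet_eq p E ht0 (by omega) hEt]
  have hcE : (Nat.card (selfSub E) - 1) / t = r := by
    have : Nat.card (selfSub E) = Nat.card E := rfl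
    rw [this, hEt, Nat.mul_div_cancel_left _ ht0]
  have hmain := classification (p := p) (k := e) (v := t) E he0 he (selfSub E) ht0
    (by rw [← he, hEt]; exact dvd_mul_right t r) (by rw [hcE]; exact hr2) (by
      intro i hi hie
      rw [hcE]
      -- `r` does not divide `p ^ i - 1`
      have hnd : ¬ r ∣ p ^ i - 1 := by
        intro hd
        have h1 : S ⊆ (fixedField K p i : Set K) := by
          intro x hx
          rw [hSeq] at hx
          change x ^ p ^ i = x
          rcases hx with hx | hx
          · rw [hx, zero_pow (pow_pos hpp.pos i).ne']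
          · obtain ⟨j, hj⟩ := hd
            have h2 : p ^ i = r * j + 1 := by
              have : 0 < p ^ i := pow_pos hpp.pos i
              omega
            rw [h2, pow_succ, pow_mul, hx, one_pow, one_mul]
        have h2 : E ≤ fixedField K p i := by
          rw [hE]
          exact Subfield.closure_le.2 h1
        have h3 : Nat.card E ≤ Nat.card (fixedField K p i) :=
          Set.ncard_le_ncard (s := (E : Set K)) h2 (Set.toFinite _)
        have h4 := h3.trans (card_fixedField_le (K := K) i (by omega))
        rw [he] at h4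
        exact absurd (Nat.pow_lt_pow_right hpp.one_lt hie) (not_lt.2 h4)
      set c := t % p ^ i with hc
      have hpi : 0 < p ^ i := pow_pos hpp.pos i
      have hclt : c < p ^ i := Nat.mod_lt _ hpi
      -- `p ^ i` divides `c * r + 1`
      have h1 : p ^ i ∣ c * r + 1 := by
        have h2 : p ^ i ∣ t * r + 1 := by
          have h3 : t * r + 1 = p ^ e := by omega
          rw [h3]
          exact pow_dvd_pow p hie.le
        have h3 : t * r + 1 = p ^ i * (t / p ^ i * r) + (c * r + 1) := by
          have h4 := Nat.div_add_mod t (p ^ i)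
          rw [← hc] at h4
          calc t * r + 1 = (p ^ i * (t / p ^ i) + c) * r + 1 := by rw [h4]
            _ = _ := by ring
        rw [h3] at h2
        exact (Nat.dvd_add_right (dvd_mul_right _ _)).1 h2
      obtain ⟨ρ, hρ⟩ := h1
      have hρ2 : 2 ≤ ρ := by
        by_contra hlt
        have h5 : ρ = 0 ∨ ρ = 1 := by omega
        rcases h5 with h5 | h5
        · rw [h5, mul_zero] at hρ
          omega
        · rw [h5, mul_one] at hρ
          apply hnd
          refine ⟨c, ?_⟩
          rw [mul_comm r c]
          omega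
      have h6 : p ^ i * 2 ≤ p ^ i * ρ := Nat.mul_le_mul_left _ hρ2
      omega)
  have h7 : ((selfSub E : Submodule E K) : Set K) = (E : Set K) := rfl
  rw [h7, ← hSE2] at hmain
  exact hmain

end FieldCase

section Final

variable {K : Type*} [Field K] [Finite K]

/-- **Complete classification.** -/
theorem full (L : Subfield K) (v : ℕ) (hv0 : 0 < v) (hv : v ∣ Nat.card L - 1)
    (U : Submodule L K) (h1 : (1 : K) ∈ U) (hU : 2 < (powSet (U : Set K) v).ncard) :
    ((¬ ∃ M : Subfield K, (M : Set K) = (U : Set K)) →
      MVSPs (powSet (U : Set K) v) = (fun f => f ^ v) '' MVSPs (U : Set K)) ∧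
    ((∃ M : Subfield K, (M : Set K) = (U : Set K)) →
      MVSPs (powSet (U : Set K) v)
        = (fun f => f ^ ((Nat.card (Subfield.closure (powSet (U : Set K) v)) - 1) * v
            / (Nat.card U - 1)))
          '' MVSPs ((Subfield.closure (powSet (U : Set K) v) : Subfield K) : Set K)) := by
  obtain ⟨p, hchar⟩ := CharP.exists K
  have hpp : p.Prime := CharP.char_is_prime K p
  have : Fact p.Prime := ⟨hpp⟩
  obtain ⟨k, hk0, hk⟩ := card_subfield (p := p) L
  have hv' : v ∣ p ^ k - 1 := by rw [← hk]; exact hv
  have hcU := card_submodule L hk0 hk U hv0 hv'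
  constructor
  · intro hnf
    have hm : 2 ≤ Module.finrank L U := by
      by_contra hlt
      exact hnf ⟨L, eq_of_finrank_one L U h1 (by omega)⟩
    apply classification (p := p) L hk0 hk U hv0 hv'
    · rw [hcU, Nat.add_sub_cancel, Nat.mul_div_cancel_left _ hv0]
      omega
    · exact star_of_two_le L hk0 hk U hv0 hv' hm
  · rintro ⟨M, hM⟩
    have hcard : Nat.card U = Nat.card M := by
      have h2 : (U : Set K).ncard = (M : Set K).ncard := by rw [hM]
      exact h2
    have hv2 : v ∣ Nat.card M - 1 := by
      rw [← hcard, hcU, Nat.add_sub_cancel]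
      exact dvd_mul_right _ _
    rw [hcard, ← hM]
    rw [← hM] at hU
    exact field_case p M hv0 hv2 hU

end Final

end Pool.Agent.Q252.MV
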