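import Pool.Agent.Q252.MV1

/-!
Exponents `w M` with `v * w M = 1 + (v - 1) * P ^ M`, and base `p` digits which are zero or one.
-/

namespace Pool.Agent.Q252.MV

open Polynomial

/-- The exponent `w`. -/
def ww (p k v M : ℕ) : ℕ := (1 + (v - 1) * (p ^ k) ^ M) / v

theorem dvd_pow_sub_one {p k v : ℕ} (hv : v ∣ p ^ k - 1) (M : ℕ) : v ∣ (p ^ k) ^ M - 1 := by
  refine hv.trans ?_
  simpa using Nat.sub_dvd_pow_sub_pow (p ^ k) 1 M

theorem ww_mul {p k v : ℕ} (hp : 0 < p) (hv0 : 0 < v) (hv : v ∣ p ^ k - 1) (M : ℕ) :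
    v * ww p k v M = 1 + (v - 1) * (p ^ k) ^ M := by
  rw [ww]
  refine Nat.mul_div_cancel' ?_
  obtain ⟨c, hc⟩ := dvd_pow_sub_one hv M
  have h1 : 1 ≤ (p ^ k) ^ M := Nat.one_le_pow _ _ (pow_pos hp k)
  have h2 : (p ^ k) ^ M = v * c + 1 := by omega
  obtain ⟨u, rfl⟩ : ∃ u, v = u + 1 := ⟨v - 1, by omega⟩
  rw [h2, Nat.add_sub_cancel]
  exact ⟨u * c + 1, by ring⟩

theorem ww_step {p k v : ℕ} (hp : 0 < p) (hv0 : 0 < v) (hv : v ∣ p ^ k - 1) (N i : ℕ)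
    (hi : i ≤ N) :
    (p ^ k) ^ i * ww p k v (N - i) = ww p k v N + ((p ^ k) ^ i - 1) / v := by
  have h1 : 1 ≤ (p ^ k) ^ i := Nat.one_le_pow _ _ (pow_pos hp k)
  have h2 := ww_mul hp hv0 hv N
  have h3 := ww_mul hp hv0 hv (N - i)
  have h4 : v * (((p ^ k) ^ i - 1) / v) = (p ^ k) ^ i - 1 :=
    Nat.mul_div_cancel' (dvd_pow_sub_one hv i)
  apply Nat.eq_of_mul_eq_mul_left hv0
  calc v * ((p ^ k) ^ i * ww p k v (N - i)) = (p ^ k) ^ i * (v * ww p k v (N - i)) := by ring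
    _ = (p ^ k) ^ i * (1 + (v - 1) * (p ^ k) ^ (N - i)) := by rw [h3]
    _ = (p ^ k) ^ i + (v - 1) * ((p ^ k) ^ i * (p ^ k) ^ (N - i)) := by ring
    _ = (p ^ k) ^ i + (v - 1) * (p ^ k) ^ N := by
        rw [← pow_add, Nat.add_sub_cancel' hi]
    _ = (1 + (v - 1) * (p ^ k) ^ N) + ((p ^ k) ^ i - 1) := by omega
    _ = v * (ww p k v N + ((p ^ k) ^ i - 1) / v) := by rw [Nat.mul_add, h2, h4]

theorem ww_diff {p k v : ℕ} (hp : 0 < p) (hv0 : 0 < v) (hv : v ∣ p ^ k - 1) (M M' : ℕ)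
    (h : M ≤ M') : ∃ c, ww p k v M' = (p ^ k) ^ M * c + ww p k v M := by
  obtain ⟨d, rfl⟩ := Nat.exists_eq_add_of_le h
  have h2 := ww_mul hp hv0 hv (M + d)
  have h3 := ww_mul hp hv0 hv M
  obtain ⟨c, hc⟩ := dvd_pow_sub_one hv d
  have h1 : 1 ≤ (p ^ k) ^ d := Nat.one_le_pow _ _ (pow_pos hp k)
  have h4 : (p ^ k) ^ d = v * c + 1 := by omega
  refine ⟨(v - 1) * c, ?_⟩
  apply Nat.eq_of_mul_eq_mul_left hv0
  rw [h2, Nat.mul_add, h3, pow_add, h4]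
  ring

/-- The digits of `a` below position `T` are zero, and at most one at multiples of `k`. -/
def Dig (p k a T : ℕ) : Prop :=
  ∀ t < T, (¬ k ∣ t → (a / p ^ t) % p = 0) ∧ (k ∣ t → (a / p ^ t) % p ≤ 1)

theorem mod_add_digit (a b c : ℕ) : a % (b * c) = a % b + b * (a / b % c) := Nat.mod_mul

theorem dig_small {p k a T l i : ℕ} (hk : 0 < k) (hi : i ≤ k) (hT : k * l + i ≤ T)
    (h : Dig p k a T) :
    (a / (p ^ k) ^ l) % p ^ i ≤ 1 := by
  induction i with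
  | zero => simp [Nat.mod_one]
  | succ i ih =>
    have h1 := ih (by omega) (by omega)
    rw [pow_succ, mod_add_digit]
    have h2 : a / (p ^ k) ^ l / p ^ i = a / p ^ (k * l + i) := by
      rw [Nat.div_div_eq_div_mul, pow_add, pow_mul]
    rw [h2]
    have h3 := h (k * l + i) (by omega)
    rcases Nat.eq_zero_or_pos i with rfl | hipos
    · have h4 := h3.2 (by simp)
      simp only [pow_zero, Nat.mod_one, zero_add, one_mul]
      exact h4
    · have h4 : ¬ k ∣ k * l + i := by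
        intro h5
        have h6 : k ∣ i := (Nat.dvd_add_right (Dvd.intro _ rfl)).1 h5
        have := Nat.le_of_dvd hipos h6
        omega
      rw [h3.1 h4, mul_zero, add_zero]
      exact h1

theorem dig_full {p k a T l : ℕ} (hp : 0 < p) (hk : 0 < k) (hT : k * l ≤ T) (h : Dig p k a T) :
    (p ^ k - 1) * (a % (p ^ k) ^ l) ≤ (p ^ k) ^ l - 1 := by
  have hP : 1 ≤ p ^ k := Nat.one_le_pow _ _ hp
  induction l with
  | zero => simp [Nat.mod_one]
  | succ l ih =>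
    have h1 := ih (by nlinarith)
    have h2 := dig_small (p := p) (l := l) hk le_rfl (by nlinarith) h
    rw [pow_succ, mod_add_digit]
    have h3 : 1 ≤ (p ^ k) ^ l := Nat.one_le_pow _ _ hP
    obtain ⟨P, hPP⟩ : ∃ P, p ^ k = P + 1 := ⟨p ^ k - 1, by omega⟩
    rw [hPP] at h1 h2 h3 ⊢
    rw [Nat.add_sub_cancel] at h1 ⊢
    have h4 : P * ((P + 1) ^ l * (a / (P + 1) ^ l % (P + 1))) ≤ P * ((P + 1) ^ l * 1) :=
      Nat.mul_le_mul_left _ (Nat.mul_le_mul_left _ h2)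
    have h5 : (P + 1) ^ l * (P + 1) = P * (P + 1) ^ l + (P + 1) ^ l := by ring
    rw [Nat.mul_add, h5]
    rw [mul_one] at h4
    omega

end Pool.Agent.Q252.MV
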