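import Pool.Agent.Q252.MV2

/-!
Bounds for the multiplicities of the roots of Hasse derivatives of powers of a polynomial.
-/

namespace Pool.Agent.Q252.MV

open Polynomial

section

variable {κ : Type*} [Field κ]

theorem rm_pow (F : κ[X]) (r : κ) (w : ℕ) :
    rootMultiplicity r (F ^ w) = w * rootMultiplicity r F := by
  classical
  rw [← count_roots, ← count_roots, roots_pow, Multiset.count_nsmul]

theorem rm_general (F H : κ[X]) (r : κ) (w j : ℕ) (hH : H = hasseDeriv j (F ^ w))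
    (hH0 : H ≠ 0) :
    w * rootMultiplicity r F ≤ rootMultiplicity r H + j := by
  have h1 : (X - C r) ^ (w * rootMultiplicity r F) ∣ F ^ w := by
    rw [← rm_pow]
    exact pow_rootMultiplicity_dvd _ _
  have h2 := dvd_hasse (F ^ w) r _ j h1
  rw [← hH] at h2
  have h3 := (le_rootMultiplicity_iff hH0).2 h2
  omega

variable (p : ℕ) [Fact p.Prime] [CharP κ p]

theorem rm_good (F H : κ[X]) (r : κ) (k v N j e : ℕ) (hv0 : 0 < v) (hv : v ∣ p ^ k - 1)
    (hH : H = hasseDeriv j (F ^ ww p k v N)) (hj : j < (p ^ k) ^ N)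
    (hH0 : H ≠ 0) (hm : rootMultiplicity r F = v * e) :
    ww p k v N * rootMultiplicity r F ≤ rootMultiplicity r H + e := by
  have hp : 0 < p := (Fact.out : p.Prime).pos
  set w := ww p k v N with hw
  obtain ⟨U, hU⟩ := pow_rootMultiplicity_dvd F r
  have h1 : w * (v * e) = (v - 1) * e * (p ^ k) ^ N + e := by
    calc w * (v * e) = (v * w) * e := by ring
      _ = (1 + (v - 1) * (p ^ k) ^ N) * e := by rw [hw, ww_mul hp hv0 hv]
      _ = _ := by ring
  have h2 : F ^ w = ((X - C r) ^ ((v - 1) * e)) ^ p ^ (k * N) * ((X - C r) ^ e * U ^ w) := by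
    conv_lhs => rw [hU, mul_pow, ← pow_mul, hm, Nat.mul_comm _ w, h1]
    rw [pow_add, pow_mul, ← pow_mul p k N, mul_assoc]
  have h3 : (X - C r) ^ ((v - 1) * e * (p ^ k) ^ N) ∣ H := by
    rw [hH, h2, hasse_mul_const p _ _ (k * N) j (by rwa [pow_mul]), pow_mul, ← pow_mul p k N]
    exact Dvd.intro _ rfl
  have h4 := (le_rootMultiplicity_iff hH0).2 h3
  rw [hm, h1]
  omega

theorem digits_of_zero (G : κ[X]) (hG : G ≠ 0) (r : κ) (t : ℕ)
    (h : hasseDeriv (p ^ t) G = 0) : (rootMultiplicity r G / p ^ t) % p = 0 := by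
  have h1 := choose_eq_zero G hG r _ h
  rw [CharP.cast_eq_zero_iff κ p] at h1
  have h2 := choose_pow_mul (p := p) (rootMultiplicity r G) t 1
  rw [mul_one, Nat.choose_one_right] at h2
  exact (h2.symm.trans ((Nat.modEq_zero_iff_dvd).2 h1))

theorem digits_of_zero_two (G : κ[X]) (hG : G ≠ 0) (r : κ) (t : ℕ) (hp2 : p ≠ 2)
    (h : hasseDeriv (2 * p ^ t) G = 0) : (rootMultiplicity r G / p ^ t) % p ≤ 1 := by
  have hpp : p.Prime := Fact.out
  have h1 := choose_eq_zero G hG r _ h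
  rw [CharP.cast_eq_zero_iff κ p, Nat.mul_comm] at h1
  have h2 := choose_pow_mul (p := p) (rootMultiplicity r G) t 2
  have h3 := choose_small (p := p) (rootMultiplicity r G / p ^ t) 2
    (lt_of_le_of_ne hpp.two_le (Ne.symm hp2))
  have h4 : p ∣ ((rootMultiplicity r G / p ^ t) % p).choose 2 :=
    (Nat.modEq_zero_iff_dvd).1 (h3.symm.trans (h2.symm.trans ((Nat.modEq_zero_iff_dvd).2 h1)))
  by_contra h5
  set d := (rootMultiplicity r G / p ^ t) % p with hd
  have hdp : d < p := Nat.mod_lt _ hpp.pos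
  have h6 : d.choose 2 * 2 = d * (d - 1) := by
    have := Nat.triangle_succ (d - 1)
    rw [Nat.choose_two_right]
    exact Nat.div_mul_cancel (Nat.even_mul_pred_self d).two_dvd
  have h7 : p ∣ d * (d - 1) := h6 ▸ (h4.mul_right 2)
  rcases (Nat.Prime.dvd_mul hpp).1 h7 with h8 | h8
  · have := Nat.le_of_dvd (by omega) h8
    omega
  · have := Nat.le_of_dvd (by omega) h8
    omega

end

section Res

theorem m_res {p k v N m T : ℕ} (hp : 0 < p) (hv0 : 0 < v) (hv : v ∣ p ^ k - 1)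
    (hT : T ≤ k * N) (hm : m < p ^ T) :
    m = (v * (ww p k v N * m % p ^ T)) % p ^ T := by
  have h1 : v * (ww p k v N * m) = m + p ^ T * ((v - 1) * p ^ (k * N - T) * m) := by
    calc v * (ww p k v N * m) = (v * ww p k v N) * m := by ring
      _ = (1 + (v - 1) * (p ^ k) ^ N) * m := by rw [ww_mul hp hv0 hv]
      _ = (1 + (v - 1) * (p ^ T * p ^ (k * N - T))) * m := by
          rw [← pow_mul, ← pow_add, Nat.add_sub_cancel' hT]
      _ = _ := by ring
  rw [Nat.mul_mod, Nat.mod_mod, ← Nat.mul_mod, h1, Nat.add_mul_mod_self_left,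
    Nat.mod_eq_of_lt hm]

theorem v_le {p k v : ℕ} (hp : 1 < p) (hk : 0 < k) (hv : v ∣ p ^ k - 1) : v ≤ p ^ k - 1 := by
  refine Nat.le_of_dvd ?_ hv
  have := Nat.one_lt_pow hk.ne' hp
  omega

theorem m_full {p k v N m l : ℕ} (hp : 1 < p) (hk : 0 < k) (hv0 : 0 < v) (hv : v ∣ p ^ k - 1)
    (hT : l ≤ N) (hm : m < p ^ (k * l)) (hd : Dig p k (ww p k v N * m) (k * l)) :
    m = v * (ww p k v N * m % p ^ (k * l)) := by
  have h1 := m_res (T := k * l) (by omega) hv0 hv (Nat.mul_le_mul_left _ hT) hm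
  have h2 := dig_full (by omega) hk le_rfl hd
  rw [← pow_mul] at h2
  have h3 : v * (ww p k v N * m % p ^ (k * l)) < p ^ (k * l) := by
    have h4 := Nat.mul_le_mul_right (ww p k v N * m % p ^ (k * l)) (v_le hp hk hv)
    have h5 : 0 < p ^ (k * l) := pow_pos (by omega) _
    omega
  rwa [Nat.mod_eq_of_lt h3] at h1

theorem m_part {p k v N m l i : ℕ} (hp : 1 < p) (hk : 0 < k) (hv0 : 0 < v) (hv : v ∣ p ^ k - 1)
    (hik : i < k) (hT : k * l + i ≤ k * N) (hm : m < p ^ (k * l + i))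
    (hd : Dig p k (ww p k v N * m) (k * l + i)) :
    (∃ e, m = v * e) ∨ p ^ (k * l) * (v % p ^ i) ≤ m := by
  have h1 := m_res (by omega) hv0 hv hT hm
  set a := ww p k v N * m with ha
  have h2 := dig_full (l := l) (by omega) hk (by omega) hd
  have h3 := dig_small (l := l) (i := i) hk hik.le le_rfl hd
  rw [← pow_mul] at h2 h3
  have h6 : 0 < p ^ (k * l) := pow_pos (by omega) _
  have h7 : v * (a % p ^ (k * l)) < p ^ (k * l) := by
    have h4 := Nat.mul_le_mul_right (a % p ^ (k * l)) (v_le hp hk hv)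
    omega
  rw [pow_add, mod_add_digit a] at h1
  rcases Nat.lt_or_ge 0 (a / p ^ (k * l) % p ^ i) with h8 | h8
  · right
    have h9 : a / p ^ (k * l) % p ^ i = 1 := by omega
    rw [h9, mul_one, Nat.mul_add, mod_add_digit, Nat.mul_comm v (p ^ (k * l)),
      Nat.add_mul_div_left _ _ h6, Nat.div_eq_of_lt h7, zero_add] at h1
    rw [h1]
    exact Nat.le_add_left _ _
  · left
    have h9 : a / p ^ (k * l) % p ^ i = 0 := Nat.le_zero.1 h8
    rw [h9, mul_zero, add_zero] at h1
    refine ⟨a % p ^ (k * l), ?_⟩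
    rw [h1]
    refine Nat.mod_eq_of_lt ?_
    exact lt_of_lt_of_le h7 (Nat.le_mul_of_pos_right _ (pow_pos (by omega) _))

end Res

end Pool.Agent.Q252.MV
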