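import Pool.Agent.Q252.MV3

/-!
The differential equation, its Hasse derivatives, and the counting of roots.
-/

namespace Pool.Agent.Q252.MV

open Polynomial

section

variable {κ : Type*} [Field κ]

theorem hasse_X_mul (G : κ[X]) (j : ℕ) (hj : 1 ≤ j) :
    hasseDeriv j (X * G) = X * hasseDeriv j G + hasseDeriv (j - 1) G := by
  obtain ⟨j, rfl⟩ : ∃ i, j = i + 1 := ⟨j - 1, by omega⟩
  rw [Nat.add_sub_cancel]
  ext i
  rw [coeff_add]
  rcases i with _ | i
  · simp only [hasseDeriv_coeff, mul_coeff_zero, coeff_X_zero, zero_mul, zero_add,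
      coeff_X_mul, Nat.choose_self, Nat.cast_one, one_mul]
  · rw [coeff_X_mul, hasseDeriv_coeff, hasseDeriv_coeff, hasseDeriv_coeff,
      show i + 1 + (j + 1) = (i + j + 1) + 1 by ring, coeff_X_mul,
      show i + (j + 1) = i + j + 1 by ring, show i + 1 + j = i + j + 1 by ring,
      Nat.choose_succ_succ (i + j + 1) j]
    push_cast
    ring

theorem sum_rm_le (H F : κ[X]) (hH : H ≠ 0) (Z : Finset κ) [DecidableEq κ]
    (hZ : ∀ x ∈ Z, H.IsRoot x) :
    ∑ x ∈ F.roots.toFinset, rootMultiplicity x H + (Z \ F.roots.toFinset).card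
      ≤ H.natDegree := by
  set S := F.roots.toFinset with hS
  have h1 : ∑ x ∈ S ∪ Z, rootMultiplicity x H ≤ H.natDegree := by
    calc ∑ x ∈ S ∪ Z, rootMultiplicity x H = ∑ x ∈ S ∪ Z, H.roots.count x := by
          simp only [count_roots]
      _ ≤ ∑ x ∈ (S ∪ Z) ∪ H.roots.toFinset, H.roots.count x :=
          Finset.sum_le_sum_of_subset Finset.subset_union_left
      _ = ∑ x ∈ H.roots.toFinset, H.roots.count x := by
          symm
          apply Finset.sum_subset Finset.subset_union_right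
          intro x _ hx
          rw [Multiset.mem_toFinset] at hx
          exact Multiset.count_eq_zero_of_notMem hx
      _ = Multiset.card H.roots := Multiset.toFinset_sum_count_eq _
      _ ≤ H.natDegree := card_roots' H
  have h2 : S ∪ Z = S ∪ (Z \ S) := by simp
  rw [h2, Finset.sum_union Finset.disjoint_sdiff] at h1
  refine le_trans (Nat.add_le_add_left ?_ _) h1
  rw [Finset.card_eq_sum_ones]
  apply Finset.sum_le_sum
  intro x hx
  exact (rootMultiplicity_pos hH).2 (hZ x (Finset.mem_sdiff.1 hx).1)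

variable (p : ℕ) [Fact p.Prime] [CharP κ p]

theorem hasse_z_mul (G : κ[X]) (n j : ℕ) (hj : 1 ≤ j) (hjn : j < p ^ n) :
    hasseDeriv j ((X - X ^ p ^ n) * G)
      = (X - X ^ p ^ n) * hasseDeriv j G + hasseDeriv (j - 1) G := by
  rw [sub_mul, map_sub, hasse_X_mul G j hj, hasse_mul_const p X G n j hjn]
  ring

variable {p}

/-- The differential equation of `F`. -/
def ODE (p k n v m : ℕ) (a : ℕ → κ) (F : κ[X]) : Prop :=
  (v : κ[X]) * (F * ∑ i ∈ Finset.range (m + 1), C (a i) * F ^ (((p ^ k) ^ i - 1) / v))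
    = C (a 0) * (X - X ^ p ^ n) * derivative F

theorem v_ne_zero {k v : ℕ} (hk : 0 < k) (hv : v ∣ p ^ k - 1) : (v : κ) ≠ 0 := by
  intro h
  rw [CharP.cast_eq_zero_iff κ p] at h
  have hp : p.Prime := Fact.out
  have h1 : p ∣ p ^ k - 1 := h.trans hv
  have h2 : p ∣ p ^ k := dvd_pow_self p hk.ne'
  have h3 : 1 ≤ p ^ k := Nat.one_le_pow _ _ hp.pos
  have h4 := (Nat.dvd_sub_iff_right h3 h2).1 h1
  exact hp.one_lt.ne' (Nat.dvd_one.1 h4)

theorem odeG {k n v m : ℕ} (hk : 0 < k) (hv0 : 0 < v) (hv : v ∣ p ^ k - 1) {a : ℕ → κ}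
    {F : κ[X]} (h : ODE p k n v m a F) (N : ℕ) (hN : m ≤ N) (hN1 : 1 ≤ N) :
    ∑ i ∈ Finset.range (m + 1), C (a i) * (F ^ ww p k v (N - i)) ^ p ^ (k * i)
      = C (a 0) * ((X - X ^ p ^ n) * derivative (F ^ ww p k v N)) := by
  have hp : 0 < p := (Fact.out : p.Prime).pos
  have hvκ : (v : κ) ≠ 0 := v_ne_zero (κ := κ) hk hv
  have hvX : (v : κ[X]) ≠ 0 := by
    rw [← C_eq_natCast]
    exact C_ne_zero.2 hvκ
  have hw := ww_mul hp hv0 hv N
  set W := ww p k v N with hW
  have hWpos : 0 < W := by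
    rcases Nat.eq_zero_or_pos W with h0 | h0
    · rw [h0] at hw
      omega
    · exact h0
  have h1 : (v : κ) * (W : κ) = 1 := by
    have h2 := congrArg (Nat.cast : ℕ → κ) hw
    push_cast at h2
    rw [h2, CharP.cast_eq_zero κ p, zero_pow hk.ne', zero_pow (by omega), mul_zero, add_zero]
  have hw1 : (v : κ[X]) * C (W : κ) = 1 := by
    rw [← C_eq_natCast, ← C_mul, h1, C_1]
  have h3 : ∑ i ∈ Finset.range (m + 1), C (a i) * (F ^ ww p k v (N - i)) ^ p ^ (k * i)
      = F ^ (W - 1) * (F * ∑ i ∈ Finset.range (m + 1),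
          C (a i) * F ^ (((p ^ k) ^ i - 1) / v)) := by
    rw [← mul_assoc, ← pow_succ, Nat.sub_add_cancel hWpos, Finset.mul_sum]
    apply Finset.sum_congr rfl
    intro i hi
    have hi' : i ≤ N := by
      have := Finset.mem_range.1 hi
      omega
    have h4 := ww_step hp hv0 hv N i hi'
    rw [← pow_mul F, pow_mul p k i, Nat.mul_comm (ww p k v (N - i)), h4, pow_add]
    ring
  rw [h3, derivative_pow]
  apply mul_left_cancel₀ hvX
  have h5 := h
  rw [ODE] at h5
  calc (v : κ[X]) * (F ^ (W - 1) * (F * ∑ i ∈ Finset.range (m + 1),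
          C (a i) * F ^ (((p ^ k) ^ i - 1) / v)))
      = F ^ (W - 1) * ((v : κ[X]) * (F * ∑ i ∈ Finset.range (m + 1),
          C (a i) * F ^ (((p ^ k) ^ i - 1) / v))) := by ring
    _ = F ^ (W - 1) * (C (a 0) * (X - X ^ p ^ n) * derivative F) := by rw [h5]
    _ = ((v : κ[X]) * C (W : κ)) * (F ^ (W - 1) * (C (a 0) * (X - X ^ p ^ n) * derivative F)) := by
        rw [hw1, one_mul]
    _ = _ := by ring

/-- Divisibility of the Hasse derivative by `X - X ^ q`. -/
theorem z_dvd {k n v m : ℕ} (hk : 0 < k) (hv0 : 0 < v) (hv : v ∣ p ^ k - 1)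
    {a : ℕ → κ} (ha : a 0 ≠ 0) {F : κ[X]} (h : ODE p k n v m a F) (N : ℕ) (hN : m ≤ N)
    (hN1 : 1 ≤ N) (j : ℕ) (hj : 1 ≤ j) (hjn : j < p ^ n) (hjp : p ∣ j)
    (hz : ∀ i, 1 ≤ i → i ≤ m →
      hasseDeriv j ((F ^ ww p k v (N - i)) ^ p ^ (k * i)) = 0) :
    (X - X ^ p ^ n) ∣ hasseDeriv j (F ^ ww p k v N) := by
  have h1 := odeG hk hv0 hv h N hN hN1
  have h2 := congrArg (hasseDeriv j) h1
  rw [map_sum, Finset.sum_range_succ', Finset.sum_eq_zero] at h2
  · rw [zero_add, Nat.mul_zero, pow_zero, pow_one, Nat.sub_zero, ← smul_eq_C_mul, map_smul,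
      ← smul_eq_C_mul, map_smul, hasse_z_mul p _ n j hj hjn, ← hasseDeriv_one',
      hasse_hasse _ (j - 1) 1, Nat.sub_add_cancel hj, Nat.choose_symm hj, Nat.choose_one_right,
      ← C_eq_natCast, (CharP.cast_eq_zero_iff κ p j).2 hjp, C_0, zero_mul, add_zero] at h2
    have h3 : (a 0) • hasseDeriv j (F ^ ww p k v N)
        = (a 0) • ((X - X ^ p ^ n) * hasseDeriv j (hasseDeriv 1 (F ^ ww p k v N))) := h2
    have h4 := smul_right_injective (κ[X]) ha h3
    exact Dvd.intro _ h4.symm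
  · intro i hi
    have hi' := Finset.mem_range.1 hi
    rw [← smul_eq_C_mul, map_smul, hz (i + 1) (by omega) (by omega), smul_zero]

theorem second {k n v m : ℕ} (hk : 0 < k) (hn : 0 < n) (hv0 : 0 < v) (hv : v ∣ p ^ k - 1)
    (hp2 : p ≠ 2)
    {a : ℕ → κ} (ha : a 0 ≠ 0) {F : κ[X]} (h : ODE p k n v m a F) (N : ℕ) (hN : m ≤ N)
    (hN1 : 1 ≤ N) :
    hasseDeriv 2 (F ^ ww p k v N) = 0 := by
  have hpp : p.Prime := Fact.out
  have h1 := odeG hk hv0 hv h N hN hN1
  have h2 := congrArg (hasseDeriv 1) h1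
  have hn1 : 1 < p ^ n := Nat.one_lt_pow hn.ne' hpp.one_lt
  rw [map_sum, Finset.sum_range_succ', Finset.sum_eq_zero] at h2
  · rw [zero_add, Nat.mul_zero, pow_zero, pow_one, Nat.sub_zero, ← smul_eq_C_mul, map_smul,
      ← smul_eq_C_mul, map_smul, hasse_z_mul p _ n 1 le_rfl hn1, ← hasseDeriv_one',
      hasse_hasse _ 1 1, Nat.sub_self, hasseDeriv_zero'] at h2
    have h4 := smul_right_injective (κ[X]) ha h2
    have h5 : (X - X ^ p ^ n : κ[X]) *
        (((1 + 1).choose 1 : ℕ) * hasseDeriv (1 + 1) (F ^ ww p k v N)) = 0 := by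
      linear_combination (-1 : κ[X]) * h4
    have hz : (X - X ^ p ^ n : κ[X]) ≠ 0 := by
      intro h6
      have h7 := congrArg (fun f => coeff f 1) h6
      simp only [coeff_sub, coeff_X_one, coeff_X_pow, coeff_zero] at h7
      rw [if_neg (by omega), sub_zero] at h7
      exact one_ne_zero h7
    rcases mul_eq_zero.1 h5 with h6 | h6
    · exact absurd h6 hz
    · rcases mul_eq_zero.1 h6 with h7 | h7
      · exfalso
        rw [← C_eq_natCast, C_eq_zero, CharP.cast_eq_zero_iff κ p] at h7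
        have h8 : p ∣ 2 := by simpa using h7
        exact hp2 ((Nat.prime_dvd_prime_iff_eq hpp Nat.prime_two).1 h8)
      · exact h7
  · intro i hi
    rw [← smul_eq_C_mul, map_smul, hasse_pow_char p, if_neg, smul_zero]
    intro h3
    have h4 := Nat.dvd_one.1 h3
    rw [Nat.pow_eq_one] at h4
    rcases h4 with h4 | h4
    · exact hpp.one_lt.ne' h4
    · have : 0 < k * (i + 1) := Nat.mul_pos hk (Nat.succ_pos i)
      omega

/-- Multiplicities at the roots of `X - X ^ q` are prime to `p`. -/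
theorem not_dvd_rm {k n v m : ℕ} (hk : 0 < k) (hv0 : 0 < v) (hv : v ∣ p ^ k - 1)
    {a : ℕ → κ} (ha : a 0 ≠ 0) {F : κ[X]} (hF : F ≠ 0) (h : ODE p k n v m a F) (x : κ)
    (hx : (X - X ^ p ^ n : κ[X]).IsRoot x) (hFx : F.IsRoot x) :
    ¬ p ∣ rootMultiplicity x F := by
  intro hpd
  have hpp : p.Prime := Fact.out
  set M := rootMultiplicity x F with hM
  obtain ⟨U, hU⟩ := pow_rootMultiplicity_dvd F x
  rw [← hM] at hU
  have h1 : (X - C x) ^ M ∣ derivative F := by
    rw [hU, derivative_mul, derivative_X_sub_C_pow, (CharP.cast_eq_zero_iff κ p M).2 hpd]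
    simp
  have h2 : (X - C x) ∣ (X - X ^ p ^ n : κ[X]) := dvd_iff_isRoot.2 hx
  have h3 : (X - C x) ^ (M + 1) ∣
      (v : κ[X]) * (F * ∑ i ∈ Finset.range (m + 1), C (a i) * F ^ (((p ^ k) ^ i - 1) / v)) := by
    rw [h, pow_succ', mul_assoc]
    exact (mul_dvd_mul h2 h1).mul_left _
  have h4 : ¬ (X - C x) ∣
      (v : κ[X]) * ∑ i ∈ Finset.range (m + 1), C (a i) * F ^ (((p ^ k) ^ i - 1) / v) := by
    intro h5
    rw [dvd_iff_isRoot, IsRoot.def, eval_mul, eval_natCast, eval_finsetSum,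
      Finset.sum_range_succ', Finset.sum_eq_zero] at h5
    · simp only [pow_zero, Nat.sub_self, Nat.zero_div, mul_one, eval_C, zero_add] at h5
      rcases mul_eq_zero.1 h5 with h6 | h6
      · exact v_ne_zero (κ := κ) hk hv h6
      · exact ha h6
    · intro i _
      rw [eval_mul, eval_pow, hFx, zero_pow, mul_zero]
      have h6 : v ≤ p ^ k - 1 := v_le hpp.one_lt hk hv
      have h7 : p ^ k ≤ (p ^ k) ^ (i + 1) := Nat.le_self_pow (Nat.succ_ne_zero i) _
      have h8 : 0 < ((p ^ k) ^ (i + 1) - 1) / v := Nat.div_pos (by omega) hv0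
      exact h8.ne'
  have h5 : (X - C x) ^ (M + 1) ∣ F := by
    have h6 : (v : κ[X]) * (F * ∑ i ∈ Finset.range (m + 1),
        C (a i) * F ^ (((p ^ k) ^ i - 1) / v))
        = F * ((v : κ[X]) * ∑ i ∈ Finset.range (m + 1),
          C (a i) * F ^ (((p ^ k) ^ i - 1) / v)) := by ring
    rw [h6] at h3
    exact (prime_X_sub_C x).pow_dvd_of_dvd_mul_right (M + 1) h4 h3
  have h6 := (le_rootMultiplicity_iff hF).2 h5
  omega

end

end Pool.Agent.Q252.MV
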