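import Pool.Agent.Q252.MV4

/-!
The multiplicities of the roots of a solution of the differential equation are divisible by `v`.
-/

namespace Pool.Agent.Q252.MV

open Polynomial

section

variable {κ : Type*} [Field κ] {p : ℕ} [Fact p.Prime] [CharP κ p]

theorem card_Z [IsAlgClosed κ] [DecidableEq κ] {n : ℕ} (hn : 0 < n) :
    ((X - X ^ p ^ n : κ[X]).roots.toFinset).card = p ^ n := by
  have hpp : p.Prime := Fact.out
  have h1 : (X - X ^ p ^ n : κ[X]) = -(X ^ p ^ n - X) := by ring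
  rw [h1, roots_neg, Multiset.toFinset_card_of_nodup, IsAlgClosed.card_roots_eq_natDegree,
    FiniteField.X_pow_card_sub_X_natDegree_eq κ (Nat.one_lt_pow hn.ne' hpp.one_lt)]
  exact nodup_roots (galois_poly_separable p (p ^ n) (dvd_pow_self p hn.ne'))

/-- The vanishing of the Hasse derivatives belonging to the digit at position `t`. -/
def Cnd (p k v : ℕ) (F : κ[X]) (t N : ℕ) : Prop :=
  (¬ k ∣ t → hasseDeriv (p ^ t) (F ^ ww p k v N) = 0) ∧
    (k ∣ t → p ≠ 2 → hasseDeriv (2 * p ^ t) (F ^ ww p k v N) = 0)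

theorem transfer {k v : ℕ} (hv0 : 0 < v) (hv : v ∣ p ^ k - 1) {F : κ[X]} (hF : F ≠ 0)
    {j M M' : ℕ} (hj : j < (p ^ k) ^ M) (hM : M ≤ M') :
    hasseDeriv j (F ^ ww p k v M') = 0 ↔ hasseDeriv j (F ^ ww p k v M) = 0 := by
  have hp : 0 < p := (Fact.out : p.Prime).pos
  obtain ⟨c, hc⟩ := ww_diff hp hv0 hv M M' hM
  rw [hc, pow_add, Nat.mul_comm, pow_mul, ← pow_mul p k M,
    hasse_mul_const p _ _ (k * M) j (by rwa [pow_mul])]
  constructor
  · intro h
    rcases mul_eq_zero.1 h with h1 | h1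
    · exact absurd h1 (pow_ne_zero _ (pow_ne_zero _ hF))
    · exact h1
  · intro h
    rw [h, mul_zero]

theorem two_mul_lt {t n : ℕ} (hp2 : p ≠ 2) (ht : t < n) : 2 * p ^ t < p ^ n := by
  have hpp : p.Prime := Fact.out
  have h2 := hpp.two_le
  have h1 : p ^ (t + 1) ≤ p ^ n := Nat.pow_le_pow_right hpp.pos ht
  have h3 : 0 < p ^ t := pow_pos hpp.pos t
  have h4 : 3 * p ^ t ≤ p ^ (t + 1) := by
    rw [pow_succ, Nat.mul_comm]
    exact Nat.mul_le_mul_left _ (by omega)
  omega

theorem one_mul_lt {t n : ℕ} (ht : t < n) : p ^ t < p ^ n :=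
  Nat.pow_lt_pow_right (Fact.out : p.Prime).one_lt ht

theorem le_kpow {k n N : ℕ} (hk : 0 < k) (h : n ≤ N) : p ^ n ≤ (p ^ k) ^ N := by
  rw [← pow_mul]
  exact Nat.pow_le_pow_right (Fact.out : p.Prime).pos (le_trans h (Nat.le_mul_of_pos_left N hk))

theorem cnd_transfer {k v n t N N' : ℕ} (hk : 0 < k) (hv0 : 0 < v) (hv : v ∣ p ^ k - 1)
    {F : κ[X]} (hF : F ≠ 0) (ht : t < n) (hN : n ≤ N) (hN' : n ≤ N')
    (h : Cnd p k v F t N) : Cnd p k v F t N' := by
  have key : ∀ j, j < p ^ n → hasseDeriv j (F ^ ww p k v N) = 0 →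
      hasseDeriv j (F ^ ww p k v N') = 0 := by
    intro j hj h0
    rcases le_total N N' with hNN | hNN
    · exact (transfer hv0 hv hF (lt_of_lt_of_le hj (le_kpow hk hN)) hNN).2 h0
    · exact (transfer hv0 hv hF (lt_of_lt_of_le hj (le_kpow hk hN')) hNN).1 h0
  exact ⟨fun h1 => key _ (one_mul_lt ht) (h.1 h1),
    fun h1 h2 => key _ (two_mul_lt h2 ht) (h.2 h1 h2)⟩

theorem dig_of_cnd {k v N T : ℕ} {F : κ[X]} (hF : F ≠ 0)
    (h : ∀ t < T, Cnd p k v F t N) (x : κ) :
    Dig p k (ww p k v N * rootMultiplicity x F) T := by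
  intro t ht
  have hG : F ^ ww p k v N ≠ 0 := pow_ne_zero _ hF
  rw [← rm_pow]
  refine ⟨fun h1 => digits_of_zero p _ hG x t ((h t ht).1 h1), fun h1 => ?_⟩
  by_cases hp2 : p = 2
  · have := Nat.mod_lt (rootMultiplicity x (F ^ ww p k v N) / p ^ t) (y := p)
      (Fact.out : p.Prime).pos
    omega
  · exact digits_of_zero_two p _ hG x t hp2 ((h t ht).2 h1 hp2)

variable [IsAlgClosed κ]

theorem sum_rm_self [DecidableEq κ] (F : κ[X]) :
    ∑ x ∈ F.roots.toFinset, rootMultiplicity x F = F.natDegree := by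
  simp only [← count_roots]
  rw [Multiset.toFinset_sum_count_eq, IsAlgClosed.card_roots_eq_natDegree]

/-- Counting, first form. -/
theorem countA {n w : ℕ} (hn : 0 < n) (F H : κ[X]) (hH0 : H ≠ 0)
    (hHdeg : H.natDegree ≤ w * F.natDegree) (hz : (X - X ^ p ^ n) ∣ H)
    (hF : F ≠ 0)
    (h1 : ∀ x, F.IsRoot x →
      w * rootMultiplicity x F ≤ rootMultiplicity x H + 2 * rootMultiplicity x F)
    (h2 : ∀ x, F.IsRoot x → (X - X ^ p ^ n : κ[X]).IsRoot x →
      w * rootMultiplicity x F + 1 ≤ rootMultiplicity x H + 2 * rootMultiplicity x F) :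
    p ^ n ≤ 2 * F.natDegree := by
  classical
  set Z := (X - X ^ p ^ n : κ[X]).roots.toFinset with hZ
  set R := F.roots.toFinset with hR
  have hZroot : ∀ x ∈ Z, (X - X ^ p ^ n : κ[X]).IsRoot x := by
    intro x hx
    rw [hZ, Multiset.mem_toFinset] at hx
    exact isRoot_of_mem_roots hx
  have hcount := sum_rm_le H F hH0 Z (fun x hx => (hZroot x hx).dvd hz)
  rw [← hR] at hcount
  have hcard : Z.card = p ^ n := card_Z hn
  have hRroot : ∀ x ∈ R, F.IsRoot x := by
    intro x hx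
    rw [hR, Multiset.mem_toFinset] at hx
    exact isRoot_of_mem_roots hx
  have h3 : ∑ x ∈ R, (w * rootMultiplicity x F + if x ∈ Z then 1 else 0)
      ≤ ∑ x ∈ R, (rootMultiplicity x H + 2 * rootMultiplicity x F) := by
    apply Finset.sum_le_sum
    intro x hx
    split_ifs with h4
    · exact h2 x (hRroot x hx) (hZroot x h4)
    · rw [add_zero]
      exact h1 x (hRroot x hx)
  rw [Finset.sum_add_distrib, Finset.sum_add_distrib, ← Finset.mul_sum, ← Finset.mul_sum,
    sum_rm_self, Finset.sum_ite_mem, Finset.sum_const, smul_eq_mul, mul_one] at h3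
  have h5 : (R ∩ Z).card + (Z \ R).card = Z.card := by
    rw [Finset.inter_comm]
    exact Finset.card_inter_add_card_sdiff Z R
  omega

/-- Counting, second form. -/
theorem countB {n w c d : ℕ} (hn : 0 < n) (F H : κ[X]) (hH0 : H ≠ 0)
    (hHdeg : H.natDegree ≤ w * F.natDegree) (hz : (X - X ^ p ^ n) ∣ H)
    (h1 : ∀ x, F.IsRoot x →
      c * (w * rootMultiplicity x F) ≤ c * rootMultiplicity x H + d * rootMultiplicity x F) :
    c * p ^ n ≤ (d + c) * F.natDegree := by
  classical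
  set Z := (X - X ^ p ^ n : κ[X]).roots.toFinset with hZ
  set R := F.roots.toFinset with hR
  have hZroot : ∀ x ∈ Z, (X - X ^ p ^ n : κ[X]).IsRoot x := by
    intro x hx
    rw [hZ, Multiset.mem_toFinset] at hx
    exact isRoot_of_mem_roots hx
  have hcount := sum_rm_le H F hH0 Z (fun x hx => (hZroot x hx).dvd hz)
  rw [← hR] at hcount
  have hcard : Z.card = p ^ n := card_Z hn
  have hRroot : ∀ x ∈ R, F.IsRoot x := by
    intro x hx
    rw [hR, Multiset.mem_toFinset] at hx
    exact isRoot_of_mem_roots hx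
  have h3 : ∑ x ∈ R, c * (w * rootMultiplicity x F)
      ≤ ∑ x ∈ R, (c * rootMultiplicity x H + d * rootMultiplicity x F) :=
    Finset.sum_le_sum (fun x hx => h1 x (hRroot x hx))
  rw [Finset.sum_add_distrib, ← Finset.mul_sum, ← Finset.mul_sum, ← Finset.mul_sum,
    ← Finset.mul_sum, sum_rm_self] at h3
  have h5 : Z.card ≤ (Z \ R).card + R.card := Finset.card_le_card_sdiff_add_card
  have h6 : R.card ≤ F.natDegree := by
    calc R.card ≤ Multiset.card F.roots := Multiset.toFinset_card_le _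
      _ ≤ F.natDegree := card_roots' F
  have h7 : c * (∑ x ∈ R, rootMultiplicity x H + (Z \ R).card)
      ≤ c * (w * F.natDegree) := Nat.mul_le_mul_left _ (hcount.trans hHdeg)
  have h8 : c * p ^ n ≤ c * (Z \ R).card + c * F.natDegree := by
    rw [← Nat.mul_add]
    exact Nat.mul_le_mul_left _ (by omega)
  rw [Nat.mul_add] at h7
  rw [Nat.add_mul]
  omega

end

end Pool.Agent.Q252.MV
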