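import Pool.Agent.Q252.MV5

/-!
The multiplicities of the roots of a solution of the differential equation are divisible by `v`:
the induction on the position of the digit.
-/

namespace Pool.Agent.Q252.MV

open Polynomial

section

variable {κ : Type*} [Field κ] {p : ℕ} [Fact p.Prime] [CharP κ p] [IsAlgClosed κ]

theorem step_part {k n v m r : ℕ} (hk : 0 < k) (hn : 0 < n) (hv0 : 0 < v)
    (hv : v ∣ p ^ k - 1) {a : ℕ → κ} (ha : a 0 ≠ 0) {F : κ[X]} (hF : F ≠ 0)
    (h : ODE p k n v m a F) (hdeg : r * F.natDegree < p ^ n)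
    (star : ∀ i, 1 ≤ i → i < k → p ^ i + v % p ^ i ≤ (v % p ^ i) * r)
    (t : ℕ) (ht : t < n) (hkt : ¬ k ∣ t)
    (ih : ∀ t' < t, ∀ N, n ≤ N → Cnd p k v F t' N) :
    hasseDeriv (p ^ t) (F ^ ww p k v (n + m)) = 0 := by
  have hpp : p.Prime := Fact.out
  set N := n + m with hN
  by_contra hH0
  set H := hasseDeriv (p ^ t) (F ^ ww p k v N) with hH
  have ht0 : 0 < t := by
    rcases Nat.eq_zero_or_pos t with h0 | h0
    · exact absurd (by simp [h0]) hkt
    · exact h0
  have hz : (X - X ^ p ^ n) ∣ H := by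
    refine z_dvd hk hv0 hv ha h N (by omega) (by omega) (p ^ t) (Nat.one_le_pow _ _ hpp.pos)
      (one_mul_lt ht) (dvd_pow_self p ht0.ne') ?_
    intro i hi1 him
    rw [hasse_pow_char p]
    split_ifs with h1
    · have h2 : k * i ≤ t := (Nat.pow_dvd_pow_iff_le_right hpp.one_lt).1 h1
      have h3 : 0 < k * i := Nat.mul_pos hk hi1
      rw [Nat.pow_div h2 hpp.pos, (ih (t - k * i) (by omega) (N - i) (by omega)).1, zero_pow
        (pow_pos hpp.pos _).ne']
      intro h4
      apply hkt
      have h5 := Nat.dvd_add h4 (Dvd.intro i rfl : k ∣ k * i)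
      rwa [Nat.sub_add_cancel h2] at h5
    · rfl
  set l := t / k with hl
  set i := t % k with hi
  have hti : k * l + i = t := Nat.div_add_mod t k
  have hik : i < k := Nat.mod_lt _ hk
  have hi1 : 1 ≤ i := by
    rcases Nat.eq_zero_or_pos i with h0 | h0
    · exact absurd (Nat.dvd_of_mod_eq_zero h0) hkt
    · exact h0
  have hstar := star i hi1 hik
  have hHdeg : H.natDegree ≤ ww p k v N * F.natDegree := by
    have h1 := natDegree_hasseDeriv_le (F ^ ww p k v N) (p ^ t)
    rw [natDegree_pow] at h1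
    rw [hH]
    omega
  have hkN : t ≤ k * N := le_trans (by omega) (Nat.le_mul_of_pos_left N hk)
  have hPN : p ^ t < (p ^ k) ^ N := lt_of_lt_of_le (one_mul_lt ht) (le_kpow hk (by omega))
  have hcount := countB (p := p) (c := v % p ^ i) (d := p ^ i) hn F H hH0 hHdeg hz (by
    intro x hx
    set M := rootMultiplicity x F with hM
    have hgen := rm_general F H x (ww p k v N) (p ^ t) hH hH0
    rw [← hM] at hgen
    have hvi : v % p ^ i ≤ p ^ i := (Nat.mod_lt _ (pow_pos hpp.pos i)).le
    by_cases h1 : p ^ t ≤ M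
    · calc v % p ^ i * (ww p k v N * M) ≤ v % p ^ i * (rootMultiplicity x H + p ^ t) :=
            Nat.mul_le_mul_left _ hgen
        _ = v % p ^ i * rootMultiplicity x H + v % p ^ i * p ^ t := Nat.mul_add _ _ _
        _ ≤ v % p ^ i * rootMultiplicity x H + p ^ i * M :=
            Nat.add_le_add_left (Nat.mul_le_mul hvi h1) _
    · have hdig : Dig p k (ww p k v N * M) (k * l + i) := by
        rw [hti]
        exact dig_of_cnd hF (fun t' ht' => ih t' ht' N (by omega)) x
      rcases m_part hpp.one_lt hk hv0 hv hik (by rw [hti]; exact hkN)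
        (by rw [hti]; omega) hdig with ⟨e, he⟩ | h2
      · have hgood := rm_good p F H x k v N (p ^ t) e hv0 hv hH hPN hH0 he
        rw [← hM] at hgood
        have heM : e ≤ M := by
          rw [he]
          exact Nat.le_mul_of_pos_left e hv0
        calc v % p ^ i * (ww p k v N * M) ≤ v % p ^ i * (rootMultiplicity x H + e) :=
              Nat.mul_le_mul_left _ hgood
          _ = v % p ^ i * rootMultiplicity x H + v % p ^ i * e := Nat.mul_add _ _ _
          _ ≤ v % p ^ i * rootMultiplicity x H + p ^ i * M :=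
              Nat.add_le_add_left (Nat.mul_le_mul hvi heM) _
      · have h3 : v % p ^ i * p ^ t ≤ p ^ i * M := by
          calc v % p ^ i * p ^ t = p ^ i * (p ^ (k * l) * (v % p ^ i)) := by
                rw [← hti, pow_add]
                ring
            _ ≤ p ^ i * M := Nat.mul_le_mul_left _ h2
        calc v % p ^ i * (ww p k v N * M) ≤ v % p ^ i * (rootMultiplicity x H + p ^ t) :=
              Nat.mul_le_mul_left _ hgen
          _ = v % p ^ i * rootMultiplicity x H + v % p ^ i * p ^ t := Nat.mul_add _ _ _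
          _ ≤ _ := Nat.add_le_add_left h3 _)
  have hvpos : 0 < v % p ^ i := by
    rcases Nat.eq_zero_or_pos (v % p ^ i) with h0 | h0
    · rw [h0] at hstar
      have := pow_pos hpp.pos i
      omega
    · exact h0
  have h5 : (p ^ i + v % p ^ i) * F.natDegree ≤ (v % p ^ i * r) * F.natDegree :=
    Nat.mul_le_mul_right _ hstar
  have h6 : (v % p ^ i * r) * F.natDegree < v % p ^ i * p ^ n := by
    rw [Nat.mul_assoc]
    exact Nat.mul_lt_mul_of_pos_left hdeg hvpos
  omega

theorem step_full {k n v m r : ℕ} (hk : 0 < k) (hn : 0 < n) (hv0 : 0 < v)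
    (hv : v ∣ p ^ k - 1) {a : ℕ → κ} (ha : a 0 ≠ 0) {F : κ[X]} (hF : F ≠ 0)
    (h : ODE p k n v m a F) (hr : 2 ≤ r) (hdeg : r * F.natDegree < p ^ n)
    (t : ℕ) (ht : t < n) (ht0 : 0 < t) (hkt : k ∣ t) (hp2 : p ≠ 2)
    (ih : ∀ t' < t, ∀ N, n ≤ N → Cnd p k v F t' N) :
    hasseDeriv (2 * p ^ t) (F ^ ww p k v (n + m)) = 0 := by
  have hpp : p.Prime := Fact.out
  set N := n + m with hN
  by_contra hH0
  set H := hasseDeriv (2 * p ^ t) (F ^ ww p k v N) with hH
  have hz : (X - X ^ p ^ n) ∣ H := by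
    refine z_dvd hk hv0 hv ha h N (by omega) (by omega) (2 * p ^ t) ?_
      (two_mul_lt hp2 ht) ((dvd_pow_self p ht0.ne').mul_left 2) ?_
    · have := pow_pos hpp.pos t
      omega
    intro i hi1 him
    rw [hasse_pow_char p]
    split_ifs with h1
    · have hcop : Nat.Coprime (p ^ (k * i)) 2 :=
        Nat.Coprime.pow_left _ ((Nat.coprime_primes hpp Nat.prime_two).2 hp2)
      have h2 : k * i ≤ t :=
        (Nat.pow_dvd_pow_iff_le_right hpp.one_lt).1 (hcop.dvd_of_dvd_mul_left h1)
      have h3 : 0 < k * i := Nat.mul_pos hk hi1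
      have h6 : 2 * p ^ t / p ^ (k * i) = 2 * p ^ (t - k * i) := by
        rw [Nat.mul_div_assoc _ ((Nat.pow_dvd_pow_iff_le_right hpp.one_lt).2 h2),
          Nat.pow_div h2 hpp.pos]
      have h7 : k ∣ t - k * i := Nat.dvd_sub hkt (Dvd.intro i rfl)
      rw [h6, (ih (t - k * i) (by omega) (N - i) (by omega)).2 h7 hp2, zero_pow
        (pow_pos hpp.pos _).ne']
    · rfl
  obtain ⟨l, hl⟩ := hkt
  have hHdeg : H.natDegree ≤ ww p k v N * F.natDegree := by
    have h1 := natDegree_hasseDeriv_le (F ^ ww p k v N) (2 * p ^ t)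
    rw [natDegree_pow] at h1
    rw [hH]
    omega
  have hlN : l ≤ N := by
    have : l ≤ k * l := Nat.le_mul_of_pos_left l hk
    omega
  have hPN : 2 * p ^ t < (p ^ k) ^ N :=
    lt_of_lt_of_le (two_mul_lt hp2 ht) (le_kpow hk (by omega))
  have hgood : ∀ x, F.IsRoot x → rootMultiplicity x F < p ^ t →
      ww p k v N * rootMultiplicity x F + 1 ≤
        rootMultiplicity x H + 2 * rootMultiplicity x F := by
    intro x hx hlt
    have hMpos : 0 < rootMultiplicity x F := (rootMultiplicity_pos hF).2 hx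
    have hdig : Dig p k (ww p k v N * rootMultiplicity x F) (k * l) := by
      rw [← hl]
      exact dig_of_cnd hF (fun t' ht' => ih t' ht' N (by omega)) x
    have he := m_full hpp.one_lt hk hv0 hv hlN (by rw [← hl]; exact hlt) hdig
    set e := ww p k v N * rootMultiplicity x F % p ^ (k * l) with hedef
    have hg := rm_good p F H x k v N (2 * p ^ t) e hv0 hv hH hPN hH0 he
    have heM : e ≤ rootMultiplicity x F := by
      rw [he]
      exact Nat.le_mul_of_pos_left e hv0
    omega
  have hcount := countA (p := p) (w := ww p k v N) hn F H hH0 hHdeg hz hF (by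
    intro x hx
    have hgen := rm_general F H x (ww p k v N) (2 * p ^ t) hH hH0
    by_cases h1 : p ^ t ≤ rootMultiplicity x F
    · omega
    · have := hgood x hx (by omega)
      omega) (by
    intro x hx hxz
    have hgen := rm_general F H x (ww p k v N) (2 * p ^ t) hH hH0
    by_cases h1 : p ^ t ≤ rootMultiplicity x F
    · have h2 : ¬ p ∣ rootMultiplicity x F := not_dvd_rm hk hv0 hv ha hF h x hxz hx
      have h3 : rootMultiplicity x F ≠ p ^ t := by
        intro h4
        exact h2 (h4 ▸ dvd_pow_self p ht0.ne')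
      omega
    · exact hgood x hx (by omega))
  have h5 : 2 * F.natDegree ≤ r * F.natDegree := Nat.mul_le_mul_right _ hr
  omega

theorem all_cnd {k n v m r : ℕ} (hk : 0 < k) (hn : 0 < n) (hv0 : 0 < v)
    (hv : v ∣ p ^ k - 1) {a : ℕ → κ} (ha : a 0 ≠ 0) {F : κ[X]} (hF : F ≠ 0)
    (h : ODE p k n v m a F) (hr : 2 ≤ r) (hdeg : r * F.natDegree < p ^ n)
    (star : ∀ i, 1 ≤ i → i < k → p ^ i + v % p ^ i ≤ (v % p ^ i) * r) (t : ℕ) :
    t < n → ∀ N, n ≤ N → Cnd p k v F t N := by
  induction t using Nat.strong_induction_on with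
  | _ t ih =>
    intro ht N hN
    have ih' : ∀ t' < t, ∀ N, n ≤ N → Cnd p k v F t' N :=
      fun t' ht' => ih t' ht' (by omega)
    refine cnd_transfer hk hv0 hv hF ht (N := n + m) (by omega) hN ⟨fun hkt => ?_, fun hkt hp2 => ?_⟩
    · exact step_part hk hn hv0 hv ha hF h hdeg star t ht hkt ih'
    · rcases Nat.eq_zero_or_pos t with h0 | h0
      · subst h0
        rw [pow_zero, mul_one]
        exact second hk hn hv0 hv hp2 ha h (n + m) (by omega) (by omega)
      · exact step_full hk hn hv0 hv ha hF h hr hdeg t ht h0 hkt hp2 ih'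

/-- **Main divisibility.** -/
theorem engine {k n v m r : ℕ} (hk : 0 < k) (hn : 0 < n) (hkn : k ∣ n) (hv0 : 0 < v)
    (hv : v ∣ p ^ k - 1) {a : ℕ → κ} (ha : a 0 ≠ 0) {F : κ[X]} (hF : F ≠ 0)
    (h : ODE p k n v m a F) (hr : 2 ≤ r) (hdeg : r * F.natDegree < p ^ n)
    (star : ∀ i, 1 ≤ i → i < k → p ^ i + v % p ^ i ≤ (v % p ^ i) * r) (x : κ) :
    v ∣ rootMultiplicity x F := by
  have hpp : p.Prime := Fact.out
  have hall := all_cnd hk hn hv0 hv ha hF h hr hdeg star
  obtain ⟨l, rfl⟩ := hkn
  have hdig := dig_of_cnd (k := k) (v := v) (N := k * l) (T := k * l) hF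
    (fun t ht => hall t ht (k * l) le_rfl) x
  have h1 : rootMultiplicity x F ≤ F.natDegree := by
    classical
    rw [← count_roots]
    exact (Multiset.count_le_card _ _).trans (card_roots' F)
  have h2 : F.natDegree ≤ r * F.natDegree := Nat.le_mul_of_pos_left _ (by omega)
  have h3 := m_full hpp.one_lt hk hv0 hv (Nat.le_mul_of_pos_left l hk) (by omega) hdig
  exact ⟨_, h3⟩

end

end Pool.Agent.Q252.MV
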