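import Pool.Agent.Q252.MV6

/-!
Linearized polynomials which vanish on a subspace, and the differential equation.
-/

namespace Pool.Agent.Q252.MV

open Polynomial

section Lin

variable {K : Type*} [Field K] [Finite K] {p k : ℕ} [Fact p.Prime] [CharP K p]

theorem pow_card_eq (L : Subfield K) (hL : Nat.card L = p ^ k) (c : L) :
    c ^ (p ^ k) = c := by
  have : Fintype L := Fintype.ofFinite L
  rw [← hL, Nat.card_eq_fintype_card]
  exact FiniteField.pow_card c

theorem pow_card_pow_eq (L : Subfield K) (hL : Nat.card L = p ^ k) (c : L) (i : ℕ) :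
    c ^ ((p ^ k) ^ i) = c := by
  induction i with
  | zero => simp
  | succ i ih => rw [pow_succ, pow_mul, ih, pow_card_eq L hL]

/-- The map `u ↦ u ^ (P ^ i)`. -/
noncomputable def frobMap (L : Subfield K) (hL : Nat.card L = p ^ k) (U : Submodule L K)
    (i : ℕ) : U →ₗ[L] K where
  toFun u := (u : K) ^ ((p ^ k) ^ i)
  map_add' x y := by
    simp only [Submodule.coe_add]
    rw [← pow_mul, add_pow_char_pow]
  map_smul' c x := by
    have h := congrArg (Subtype.val : L → K) (pow_card_pow_eq L hL c i)
    have h2 : (c : K) ^ ((p ^ k) ^ i) = c := by exact_mod_cast h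
    simp only [Submodule.coe_smul, RingHom.id_apply, Subfield.smul_def, smul_eq_mul, mul_pow]
    rw [h2]

theorem exists_coeff (L : Subfield K) (hL : Nat.card L = p ^ k) (U : Submodule L K) :
    ∃ a : ℕ → K, a 0 ≠ 0 ∧ ∀ u ∈ U,
      ∑ i ∈ Finset.range (Module.finrank L U + 1), a i * u ^ ((p ^ k) ^ i) = 0 := by
  have hp : 0 < p := (Fact.out : p.Prime).pos
  set m := Module.finrank L U with hm
  have h1 : ¬ LinearIndependent K (fun i : Fin (m + 1) => frobMap L hL U (i : ℕ)) := by
    intro h
    have h2 := h.fintype_card_le_finrank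
    rw [Fintype.card_fin, Module.finrank_linearMap_self] at h2
    omega
  rw [Fintype.not_linearIndependent_iff] at h1
  obtain ⟨g, hg, i1, hi1⟩ := h1
  classical
  set b : ℕ → K := fun i => if h : i < m + 1 then g ⟨i, h⟩ else 0 with hb
  have hbex : ∃ i, b i ≠ 0 := ⟨i1, by
    rw [hb]
    simp only
    rw [dif_pos i1.2]
    exact hi1⟩
  set i0 := Nat.find hbex with hi0
  have hbi0 : b i0 ≠ 0 := Nat.find_spec hbex
  have hbmin : ∀ j < i0, b j = 0 := fun j hj => by
    by_contra h
    exact Nat.find_min hbex hj h
  have hbbig : ∀ j, m + 1 ≤ j → b j = 0 := fun j hj => by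
    simp only [hb]
    rw [dif_neg (by omega)]
  have hzero : ∀ u ∈ U, ∑ j ∈ Finset.range (m + 1), b j * u ^ ((p ^ k) ^ j) = 0 := by
    intro u hu
    have h2 := LinearMap.congr_fun hg ⟨u, hu⟩
    rw [LinearMap.sum_apply, LinearMap.zero_apply] at h2
    rw [Finset.sum_range, ← h2]
    apply Finset.sum_congr rfl
    intro i _
    rw [hb]
    simp only
    rw [dif_pos i.2]
    rfl
  have hsurj : Function.Surjective (fun x : K => x ^ ((p ^ k) ^ i0)) := by
    apply Finite.surjective_of_injective
    intro x y hxy
    simp only at hxy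
    rw [← pow_mul] at hxy
    have h3 : (x - y) ^ p ^ (k * i0) = 0 := by
      rw [sub_pow_char_pow, hxy, sub_self]
    exact sub_eq_zero.1 (pow_eq_zero_iff (pow_pos hp _).ne' |>.1 h3)
  choose r hr using hsurj
  refine ⟨fun i => r (b (i + i0)), ?_, ?_⟩
  · intro h
    have h3 := hr (b (0 + i0))
    simp only at h3 h
    rw [h, zero_pow (pow_pos (pow_pos hp _) _).ne', zero_add] at h3
    exact hbi0 h3.symm
  · intro u hu
    have h4 : (∑ i ∈ Finset.range (m + 1), r (b (i + i0)) * u ^ ((p ^ k) ^ i))
        ^ p ^ (k * i0) = 0 := by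
      rw [sum_pow_char_pow]
      have h5 : ∀ i ∈ Finset.range (m + 1),
          (r (b (i + i0)) * u ^ ((p ^ k) ^ i)) ^ p ^ (k * i0)
            = b (i0 + i) * u ^ ((p ^ k) ^ (i0 + i)) := by
        intro i _
        have h6 := hr (b (i + i0))
        simp only at h6
        rw [mul_pow, pow_mul p k i0, h6, ← pow_mul u, ← pow_add, Nat.add_comm i i0]
      rw [Finset.sum_congr rfl h5]
      have h7 := Finset.sum_range_add (fun j => b j * u ^ ((p ^ k) ^ j)) i0 (m + 1)
      have h8 := Finset.sum_range_add (fun j => b j * u ^ ((p ^ k) ^ j)) (m + 1) i0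
      rw [Nat.add_comm] at h8
      rw [h8, hzero u hu, zero_add] at h7
      have h9 : ∑ x ∈ Finset.range i0, b x * u ^ ((p ^ k) ^ x) = 0 :=
        Finset.sum_eq_zero (fun j hj => by rw [hbmin j (Finset.mem_range.1 hj), zero_mul])
      have h10 : ∑ x ∈ Finset.range i0, b (m + 1 + x) * u ^ ((p ^ k) ^ (m + 1 + x)) = 0 :=
        Finset.sum_eq_zero (fun j hj => by rw [hbbig _ (by omega), zero_mul])
      rw [h9, h10, zero_add] at h7
      exact h7.symm
    exact pow_eq_zero_iff (pow_pos hp _).ne' |>.1 h4

end Lin

section OdeSec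

variable {K : Type*} [Field K] [Finite K] {p k n v m r : ℕ} [Fact p.Prime] [CharP K p]

theorem z_dvd_of_eval (hq : Nat.card K = p ^ n) (A : K[X]) (hA : ∀ x, A.eval x = 0) :
    (X - X ^ p ^ n) ∣ A := by
  classical
  have : Fintype K := Fintype.ofFinite K
  by_cases hA0 : A = 0
  · rw [hA0]
    exact dvd_zero _
  have hq' : Fintype.card K = p ^ n := by rw [← hq, Nat.card_eq_fintype_card]
  have h1 : (X ^ p ^ n - X : K[X]) ∣ A := by
    have h2 : (X ^ Fintype.card K - X : K[X]).roots = Finset.univ.val :=
      FiniteField.roots_X_pow_card_sub_X K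
    have hmon : (X ^ Fintype.card K - X : K[X]).Monic := by
      apply monic_X_pow_sub
      rw [degree_X]
      exact_mod_cast Fintype.one_lt_card
    have h3 := prod_multiset_X_sub_C_of_monic_of_roots_card_eq hmon (by
      rw [h2, FiniteField.X_pow_card_sub_X_natDegree_eq K Fintype.one_lt_card]
      simp)
    rw [h2] at h3
    rw [← hq', ← h3, Multiset.prod_X_sub_C_dvd_iff_le_roots hA0,
      Multiset.le_iff_subset Finset.univ.nodup]
    intro x _
    exact (mem_roots hA0).2 (hA x)
  have h4 : (X - X ^ p ^ n : K[X]) = -(X ^ p ^ n - X) := by ring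
  rw [h4, neg_dvd]
  exact h1

theorem v_mul_e (hv : v ∣ p ^ k - 1) (i : ℕ) :
    v * (((p ^ k) ^ i - 1) / v) = (p ^ k) ^ i - 1 := by
  have hp : 0 < p := (Fact.out : p.Prime).pos
  exact Nat.mul_div_cancel' (dvd_pow_sub_one hv i)

theorem ode_of_values (hq : Nat.card K = p ^ n) (hk : 0 < k) (hn : 0 < n) (hv0 : 0 < v)
    (hv : v ∣ p ^ k - 1) (a : ℕ → K) (S : Set K)
    (hS : ∀ γ ∈ S, γ ≠ 0 →
      ∑ i ∈ Finset.range (m + 1), a i * γ ^ (((p ^ k) ^ i - 1) / v) = 0)
    (hr : r = ((p ^ k) ^ m - 1) / v) (hr2 : 2 ≤ r) (F : K[X]) (hF : 0 < F.natDegree)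
    (hdeg : r * F.natDegree < p ^ n) (hval : ∀ x, F.eval x ∈ S) :
    ODE p k n v m a F := by
  classical
  have : Fintype K := Fintype.ofFinite K
  have hpp : p.Prime := Fact.out
  have hq' : Fintype.card K = p ^ n := by rw [← hq, Nat.card_eq_fintype_card]
  set h := ∑ i ∈ Finset.range (m + 1), C (a i) * F ^ (((p ^ k) ^ i - 1) / v) with hh
  have heval : ∀ x, h.eval x
      = ∑ i ∈ Finset.range (m + 1), a i * (F.eval x) ^ (((p ^ k) ^ i - 1) / v) := by
    intro x
    rw [hh, eval_finsetSum]
    simp only [eval_mul, eval_C, eval_pow]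
  have hA : ∀ x, (F * h).eval x = 0 := by
    intro x
    rw [eval_mul]
    by_cases h0 : F.eval x = 0
    · rw [h0, zero_mul]
    · rw [heval, hS _ (hval x) h0, mul_zero]
  obtain ⟨N, hN⟩ := z_dvd_of_eval hq (F * h) hA
  have hF0 : F ≠ 0 := by
    rintro rfl
    simp at hF
  have hhdeg : h.natDegree ≤ r * F.natDegree := by
    rw [hh]
    apply natDegree_sum_le_of_forall_le
    intro i hi
    have hi' : i ≤ m := by
      have := Finset.mem_range.1 hi
      omega
    refine (natDegree_C_mul_le _ _).trans ?_
    rw [natDegree_pow, hr]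
    apply Nat.mul_le_mul_right
    apply Nat.div_le_div_right
    have h1 : (p ^ k) ^ i ≤ (p ^ k) ^ m := Nat.pow_le_pow_right (pow_pos hpp.pos k) hi'
    omega
  have hNdeg : N.natDegree < F.natDegree := by
    by_cases hN0 : N = 0
    · rw [hN0, natDegree_zero]
      exact hF
    have hz0 : (X - X ^ p ^ n : K[X]) = -(X ^ p ^ n - X) := by ring
    have hz : (X - X ^ p ^ n : K[X]).natDegree = p ^ n := by
      rw [hz0, natDegree_neg, FiniteField.X_pow_card_sub_X_natDegree_eq K
        (Nat.one_lt_pow hn.ne' hpp.one_lt)]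
    have hzne : (X - X ^ p ^ n : K[X]) ≠ 0 := by
      intro h0
      rw [h0, natDegree_zero] at hz
      exact (pow_pos hpp.pos n).ne hz
    have h1 : (F * h).natDegree ≤ F.natDegree + r * F.natDegree :=
      natDegree_mul_le.trans (Nat.add_le_add_left hhdeg _)
    rw [hN, natDegree_mul hzne hN0, hz] at h1
    omega
  have hG : (v : K[X]) * N - C (a 0) * derivative F = 0 := by
    set s : Finset K := Finset.univ.filter (fun x => F.eval x ≠ 0) with hs
    apply eq_zero_of_natDegree_lt_card_of_eval_eq_zero' _ s
    · intro x hx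
      have hx0 : F.eval x ≠ 0 := (Finset.mem_filter.1 hx).2
      have hd := congrArg (fun f => (derivative f).eval x) hN
      simp only [derivative_mul, derivative_sub, derivative_X, derivative_X_pow, eval_add,
        eval_mul, eval_sub, eval_one, eval_pow, eval_X, eval_C] at hd
      have hx1 : x ^ p ^ n = x := by
        rw [← hq']
        exact FiniteField.pow_card x
      have hpn0 : ((p ^ n : ℕ) : K) = 0 := by
        rw [CharP.cast_eq_zero_iff K p]
        exact dvd_pow_self p hn.ne'
      rw [heval x, hS _ (hval x) hx0, mul_zero, zero_add, hx1, hpn0, zero_mul, sub_zero,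
        one_mul, sub_self, zero_mul, add_zero] at hd
      have hder : (derivative h).eval x = (∑ i ∈ Finset.range (m + 1),
          a i * ((((p ^ k) ^ i - 1) / v : ℕ) : K)
            * (F.eval x) ^ (((p ^ k) ^ i - 1) / v - 1)) * (derivative F).eval x := by
        rw [hh, derivative_sum, eval_finsetSum, Finset.sum_mul]
        apply Finset.sum_congr rfl
        intro i _
        rw [derivative_C_mul, derivative_pow]
        simp only [eval_mul, eval_C, eval_pow]
        ring
      have hkey : (v : K) * (F.eval x * ∑ i ∈ Finset.range (m + 1),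
          a i * ((((p ^ k) ^ i - 1) / v : ℕ) : K)
            * (F.eval x) ^ (((p ^ k) ^ i - 1) / v - 1)) = a 0 := by
        have h5 := hS _ (hval x) hx0
        have h6 : (v : K) * (F.eval x * ∑ i ∈ Finset.range (m + 1),
          a i * ((((p ^ k) ^ i - 1) / v : ℕ) : K)
            * (F.eval x) ^ (((p ^ k) ^ i - 1) / v - 1))
            + ∑ i ∈ Finset.range (m + 1), a i * (F.eval x) ^ (((p ^ k) ^ i - 1) / v)
            = ∑ i ∈ Finset.range (m + 1), (if i = 0 then a 0 else 0) := by
          rw [Finset.mul_sum, Finset.mul_sum, ← Finset.sum_add_distrib]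
          apply Finset.sum_congr rfl
          intro i _
          set e := ((p ^ k) ^ i - 1) / v with he
          have hve : (v : K) * (e : K) = (((p ^ k) ^ i - 1 : ℕ) : K) := by
            rw [← v_mul_e hv i]
            push_cast
            rfl
          have hpow : (e : K) * (F.eval x * (F.eval x) ^ (e - 1)) = e * (F.eval x) ^ e := by
            rcases Nat.eq_zero_or_pos e with h0 | h0
            · rw [h0, Nat.cast_zero, zero_mul, zero_mul]
            · rw [← pow_succ', Nat.sub_add_cancel h0]
          have h7 : (v : K) * (F.eval x * (a i * (e : K) * (F.eval x) ^ (e - 1)))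
              = a i * ((v : K) * e) * (F.eval x) ^ e := by
            calc (v : K) * (F.eval x * (a i * (e : K) * (F.eval x) ^ (e - 1)))
                = a i * v * ((e : K) * (F.eval x * (F.eval x) ^ (e - 1))) := by ring
              _ = _ := by rw [hpow]; ring
          rw [h7, hve]
          split_ifs with h8
          · subst h8
            have he0 : e = 0 := by rw [he]; simp
            rw [he0]
            simp
          · have h9 : 1 ≤ (p ^ k) ^ i := Nat.one_le_pow _ _ (pow_pos hpp.pos k)
            have h10 : (((p ^ k) ^ i : ℕ) : K) = 0 := by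
              rw [CharP.cast_eq_zero_iff K p, ← pow_mul]
              exact dvd_pow_self p (Nat.mul_pos hk (Nat.pos_of_ne_zero h8)).ne'
            rw [Nat.cast_sub h9, h10]
            push_cast
            ring
        rw [h5, add_zero] at h6
        rw [h6, Finset.sum_ite_eq' (Finset.range (m + 1)) 0 (fun _ => a 0)]
        simp
      rw [eval_sub, eval_mul, eval_natCast, eval_mul, eval_C, ← hd, hder, ← hkey]
      ring
    · have hdeg2 : ((v : K[X]) * N - C (a 0) * derivative F).natDegree < F.natDegree := by
        refine lt_of_le_of_lt (natDegree_sub_le _ _) (max_lt ?_ ?_)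
        · refine lt_of_le_of_lt ?_ hNdeg
          rw [← C_eq_natCast]
          exact natDegree_C_mul_le _ _
        · refine lt_of_le_of_lt (natDegree_C_mul_le _ _) ?_
          exact natDegree_derivative_lt hF.ne'
      have hcard : Fintype.card K ≤ s.card + F.natDegree := by
        have h1 : (Finset.univ.filter (fun x => ¬ F.eval x ≠ 0)).card ≤ F.natDegree := by
          have h2 : (Finset.univ.filter (fun x => ¬ F.eval x ≠ 0)) ⊆ F.roots.toFinset := by
            intro x hx
            rw [Multiset.mem_toFinset, mem_roots hF0]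
            simpa using hx
          exact (Finset.card_le_card h2).trans
            ((Multiset.toFinset_card_le _).trans (card_roots' F))
        have h3 := Finset.card_filter_add_card_filter_not (s := (Finset.univ : Finset K))
          (fun x => F.eval x ≠ 0)
        rw [Finset.card_univ] at h3
        rw [hs]
        rw [← h3]
        exact Nat.add_le_add_left h1 _
      have h2d : 2 * F.natDegree ≤ r * F.natDegree := Nat.mul_le_mul_right _ hr2
      rw [hq'] at hcard
      omega
  rw [ODE, ← hh, hN]
  have hG' : (v : K[X]) * N = C (a 0) * derivative F := sub_eq_zero.1 hG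
  calc (v : K[X]) * ((X - X ^ p ^ n) * N) = (X - X ^ p ^ n) * ((v : K[X]) * N) := by ring
    _ = (X - X ^ p ^ n) * (C (a 0) * derivative F) := by rw [hG']
    _ = _ := by ring

end OdeSec

end Pool.Agent.Q252.MV
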