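import Pool.Agent.Q252.MV7

/-!
A polynomial whose values are `v`-th powers of elements of `U` is a `v`-th power.
-/

namespace Pool.Agent.Q252.MV

open Polynomial

section Descend

variable {K : Type*} [Field K] [Finite K] {p k n v m r : ℕ} [Fact p.Prime] [CharP K p]

theorem ode_map {κ : Type*} [Field κ] [Algebra K κ] {a : ℕ → K} {F : K[X]}
    (h : ODE p k n v m a F) :
    ODE p k n v m (fun i => algebraMap K κ (a i)) (F.map (algebraMap K κ)) := by
  unfold ODE at h ⊢
  have h1 := congrArg (Polynomial.map (algebraMap K κ)) h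
  simp only [Polynomial.map_mul, Polynomial.map_natCast, Polynomial.map_sum, Polynomial.map_pow,
    Polynomial.map_C, Polynomial.map_sub, Polynomial.map_X, ← derivative_map] at h1
  exact h1

theorem mem_of_pow_eq {κ : Type*} [Field κ] [Algebra K κ] (L : Subfield K)
    (hk : 0 < k) (hL : Nat.card L = p ^ k) (z : κ) (hz : z ^ p ^ k = z) :
    ∃ c : L, algebraMap K κ c = z := by
  classical
  have hpp : p.Prime := Fact.out
  have : Fintype L := Fintype.ofFinite L
  have hL' : Fintype.card L = p ^ k := by rw [← hL, Nat.card_eq_fintype_card]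
  set A : κ[X] := X ^ p ^ k - X with hA
  have hdeg : A.natDegree = p ^ k :=
    FiniteField.X_pow_card_sub_X_natDegree_eq κ (Nat.one_lt_pow hk.ne' hpp.one_lt)
  have hA0 : A ≠ 0 := by
    intro h
    rw [h] at hdeg
    simp only [natDegree_zero] at hdeg
    exact (pow_pos hpp.pos k).ne hdeg
  set T : Finset κ := Finset.univ.image (fun c : L => algebraMap K κ (c : K)) with hT
  have hTcard : T.card = p ^ k := by
    rw [hT, Finset.card_image_of_injective, Finset.card_univ, hL']
    intro x y hxy
    exact Subtype.ext ((algebraMap K κ).injective hxy)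
  have hTsub : T ⊆ A.roots.toFinset := by
    intro y hy
    rw [hT, Finset.mem_image] at hy
    obtain ⟨c, -, rfl⟩ := hy
    rw [Multiset.mem_toFinset, mem_roots hA0, IsRoot.def, hA]
    simp only [eval_sub, eval_pow, eval_X]
    have h1 := congrArg (Subtype.val : L → K) (pow_card_eq L hL c)
    have h2 : (c : K) ^ p ^ k = c := by exact_mod_cast h1
    rw [← map_pow, h2, sub_self]
  have hRcard : A.roots.toFinset.card ≤ p ^ k := by
    rw [← hdeg]
    exact (Multiset.toFinset_card_le _).trans (card_roots' A)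
  have heq : T = A.roots.toFinset := Finset.eq_of_subset_of_card_le hTsub (by rw [hTcard]; exact hRcard)
  have hzT : z ∈ T := by
    rw [heq, Multiset.mem_toFinset, mem_roots hA0, IsRoot.def, hA]
    simp only [eval_sub, eval_pow, eval_X]
    rw [hz, sub_self]
  rw [hT, Finset.mem_image] at hzT
  obtain ⟨c, -, hc⟩ := hzT
  exact ⟨c, hc⟩

theorem exists_root_poly {κ : Type*} [Field κ] [IsAlgClosed κ] {G : κ[X]} (hv0 : 0 < v)
    (h : ∀ x, v ∣ rootMultiplicity x G) : ∃ g : κ[X], g ^ v = G := by
  classical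
  obtain ⟨c, hc⟩ := IsAlgClosed.exists_pow_nat_eq G.leadingCoeff hv0
  refine ⟨C c * ∏ x ∈ G.roots.toFinset, (X - C x) ^ (rootMultiplicity x G / v), ?_⟩
  rw [mul_pow, ← C_pow, hc, ← Finset.prod_pow]
  have h1 : ∏ x ∈ G.roots.toFinset, ((X - C x) ^ (rootMultiplicity x G / v)) ^ v
      = ∏ x ∈ G.roots.toFinset, (X - C x) ^ (rootMultiplicity x G) := by
    apply Finset.prod_congr rfl
    intro x _
    rw [← pow_mul, Nat.div_mul_cancel (h x)]
  rw [h1, ← prod_multiset_root_eq_finset_root]
  exact (IsAlgClosed.splits G).eq_prod_roots.symm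

theorem root_of_values (L : Subfield K) (hk : 0 < k) (hL : Nat.card L = p ^ k)
    (U : Submodule L K) (hv0 : 0 < v) (hv : v ∣ p ^ k - 1)
    (hr : r = (Nat.card U - 1) / v) (hr2 : 2 ≤ r)
    (star : ∀ i, 1 ≤ i → i < k → p ^ i + v % p ^ i ≤ (v % p ^ i) * r)
    (F : K[X]) (hF : 0 < F.natDegree) (hdeg : r * F.natDegree < Nat.card K)
    (hval : ∀ x, ∃ u ∈ U, F.eval x = u ^ v) :
    ∃ f : K[X], F = f ^ v ∧ ∀ x, f.eval x ∈ U := by
  classical
  have hpp : p.Prime := Fact.out
  have : Fintype K := Fintype.ofFinite K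
  obtain ⟨n, hpn, hn⟩ := FiniteField.card K p
  have hq : Nat.card K = p ^ (n : ℕ) := by rw [Nat.card_eq_fintype_card, hn]
  have hkn : k ∣ (n : ℕ) := by
    have h1 : Nat.card K = Nat.card L ^ Module.finrank L K := Module.natCard_eq_pow_finrank
    rw [hL, hq, ← pow_mul] at h1
    exact ⟨_, Nat.pow_right_injective hpp.two_le h1⟩
  set m := Module.finrank L U with hm
  have hUcard : Nat.card U = (p ^ k) ^ m := by
    have h1 : Nat.card U = Nat.card L ^ Module.finrank L U := Module.natCard_eq_pow_finrank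
    rw [h1, hL]
  obtain ⟨a, ha0, ha⟩ := exists_coeff L hL U
  rw [← hm] at ha
  rw [hUcard] at hr
  have hode : ODE p k n v m a F := by
    refine ode_of_values hq hk n.pos hv0 hv a {γ | ∃ u ∈ U, γ = u ^ v} ?_ hr hr2 F hF
      (by rw [← hq]; exact hdeg) hval
    rintro γ ⟨u, hu, rfl⟩ hγ
    have hu0 : u ≠ 0 := by
      rintro rfl
      exact hγ (zero_pow hv0.ne')
    have h1 : u * ∑ i ∈ Finset.range (m + 1), a i * (u ^ v) ^ (((p ^ k) ^ i - 1) / v) = 0 := by
      rw [← ha u hu, Finset.mul_sum]
      apply Finset.sum_congr rfl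
      intro i _
      rw [← pow_mul, v_mul_e hv i]
      have h2 : 1 ≤ (p ^ k) ^ i := Nat.one_le_pow _ _ (pow_pos hpp.pos k)
      calc u * (a i * u ^ ((p ^ k) ^ i - 1)) = a i * (u ^ ((p ^ k) ^ i - 1) * u) := by ring
        _ = _ := by rw [← pow_succ, Nat.sub_add_cancel h2]
    rcases mul_eq_zero.1 h1 with h2 | h2
    · exact absurd h2 hu0
    · exact h2
  let κ := AlgebraicClosure K
  have : CharP κ p := charP_of_injective_algebraMap (algebraMap K κ).injective p
  have hF0 : F ≠ 0 := by
    rintro rfl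
    simp at hF
  have hG0 : F.map (algebraMap K κ) ≠ 0 := by
    rw [Ne, Polynomial.map_eq_zero]
    exact hF0
  have ha0' : algebraMap K κ (a 0) ≠ 0 := by
    rw [Ne, map_eq_zero]
    exact ha0
  have heng := engine (κ := κ) hk n.pos hkn hv0 hv ha0' hG0 (ode_map hode) hr2
    (by rw [natDegree_map]; rw [← hq]; exact hdeg) star
  obtain ⟨g, hg⟩ := exists_root_poly hv0 heng
  have hgval : ∀ x : K, ∃ w ∈ U, g.eval (algebraMap K κ x) = algebraMap K κ w := by
    intro x
    obtain ⟨u, hu, hux⟩ := hval x
    have h1 : (g.eval (algebraMap K κ x)) ^ v = (algebraMap K κ u) ^ v := by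
      rw [← eval_pow, hg, eval_map_algebraMap, aeval_algebraMap_apply, coe_aeval_eq_eval, hux,
        map_pow]
    by_cases hu0 : u = 0
    · refine ⟨0, U.zero_mem, ?_⟩
      rw [hu0, map_zero, zero_pow hv0.ne'] at h1
      rw [map_zero]
      exact pow_eq_zero_iff hv0.ne' |>.1 h1
    · have hu1 : algebraMap K κ u ≠ 0 := by
        rw [Ne, map_eq_zero]
        exact hu0
      set z := g.eval (algebraMap K κ x) / algebraMap K κ u with hz
      have hzv : z ^ v = 1 := by
        rw [hz, div_pow, h1, div_self (pow_ne_zero _ hu1)]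
      have hzP : z ^ p ^ k = z := by
        obtain ⟨j, hj⟩ := hv
        have h2 : p ^ k = v * j + 1 := by
          have : 0 < p ^ k := pow_pos hpp.pos k
          omega
        rw [h2, pow_succ, pow_mul, hzv, one_pow, one_mul]
      obtain ⟨c, hc⟩ := mem_of_pow_eq L hk hL z hzP
      refine ⟨c • u, U.smul_mem c hu, ?_⟩
      rw [Subfield.smul_def, smul_eq_mul, map_mul, hc, hz, div_mul_cancel₀ _ hu1]
  choose w hwU hw using hgval
  have hgdeg : g.natDegree * v = F.natDegree := by
    have h1 := congrArg natDegree hg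
    rw [natDegree_pow, natDegree_map] at h1
    rw [← h1, mul_comm]
  have hgq : g.natDegree < Fintype.card K := by
    have h1 : g.natDegree ≤ g.natDegree * v := Nat.le_mul_of_pos_right _ hv0
    have h2 : F.natDegree ≤ r * F.natDegree := Nat.le_mul_of_pos_left _ (by omega)
    rw [Nat.card_eq_fintype_card] at hdeg
    omega
  set f := Lagrange.interpolate (Finset.univ : Finset K) id w with hf
  have hfval : ∀ x, f.eval x = w x := by
    intro x
    exact Lagrange.eval_interpolate_at_node w (Set.injOn_id _) (Finset.mem_univ x)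
  have hfdeg : f.degree < (Finset.univ : Finset K).card :=
    Lagrange.degree_interpolate_lt w (Set.injOn_id _)
  have hfg : f.map (algebraMap K κ) = g := by
    refine eq_of_degrees_lt_of_eval_index_eq (s := (Finset.univ : Finset K))
      (v := algebraMap K κ) ?_ ?_ ?_ ?_
    · exact (algebraMap K κ).injective.injOn
    · rw [degree_map]
      exact hfdeg
    · refine lt_of_le_of_lt degree_le_natDegree ?_
      rw [Finset.card_univ]
      exact_mod_cast hgq
    · intro x _
      rw [eval_map_algebraMap, aeval_algebraMap_apply, coe_aeval_eq_eval, hfval, hw]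
  refine ⟨f, ?_, fun x => by rw [hfval]; exact hwU x⟩
  apply Polynomial.map_injective _ (algebraMap K κ).injective
  rw [Polynomial.map_pow, hfg, hg]

end Descend

end Pool.Agent.Q252.MV
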