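import Pool.Agent.Q252.MV8

/-!
Minimal value set polynomials: definitions, counting, and the classification under the digit
condition.
-/

namespace Pool.Agent.Q252.MV

open Polynomial

section Defs

variable {K : Type*} [Field K]

/-- The value set `V_F = {F(a) : a ∈ K}`. -/
def values (F : K[X]) : Set K := Set.range (fun x => F.eval x)

/-- `F` is a minimal value set polynomial: it is not constant and
`#V_F = ⌊(q - 1) / deg F⌋ + 1`, where `q = #K`. -/
def IsMVSP (F : K[X]) : Prop :=
  0 < F.natDegree ∧ (values F).ncard = (Nat.card K - 1) / F.natDegree + 1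

/-- The set of all minimal value set polynomials with value set `S`. -/
def MVSPs (S : Set K) : Set K[X] := {F | IsMVSP F ∧ values F = S}

/-- `S ^ v = {s ^ v : s ∈ S}`. -/
def powSet (S : Set K) (v : ℕ) : Set K := (fun s => s ^ v) '' S

end Defs

section Count

variable {K : Type*} [Field K] [Finite K]

theorem values_ncard_ge (F : K[X]) (hF : 0 < F.natDegree) :
    (Nat.card K - 1) / F.natDegree + 1 ≤ (values F).ncard := by
  classical
  have : Fintype K := Fintype.ofFinite K
  have h1 : (Finset.univ : Finset K).card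
      ≤ F.natDegree * ((Finset.univ : Finset K).image (fun x => F.eval x)).card := by
    apply Finset.card_le_mul_card_image
    intro b _
    have hne : F - C b ≠ 0 := by
      intro h
      have h2 : F = C b := sub_eq_zero.1 h
      rw [h2, natDegree_C] at hF
      exact absurd hF (lt_irrefl 0)
    have h2 : (Finset.univ.filter (fun x => F.eval x = b)) ⊆ (F - C b).roots.toFinset := by
      intro x hx
      rw [Multiset.mem_toFinset, mem_roots hne, IsRoot.def, eval_sub, eval_C]
      rw [Finset.mem_filter] at hx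
      rw [hx.2, sub_self]
    refine (Finset.card_le_card h2).trans ((Multiset.toFinset_card_le _).trans ?_)
    refine (card_roots' _).trans ?_
    rw [natDegree_sub_C]
  have h2 : (values F).ncard = ((Finset.univ : Finset K).image (fun x => F.eval x)).card := by
    rw [values, ← Set.ncard_coe_finset, Finset.coe_image, Finset.coe_univ, Set.image_univ]
  rw [h2, Nat.card_eq_fintype_card, Nat.succ_le_iff, Nat.div_lt_iff_lt_mul hF, mul_comm]
  rw [Finset.card_univ] at h1
  have h3 : 0 < Fintype.card K := Fintype.card_pos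
  omega

theorem values_pow (f : K[X]) (v : ℕ) : values (f ^ v) = powSet (values f) v := by
  ext y
  simp only [values, powSet, Set.mem_range, Set.mem_image, eval_pow]
  constructor
  · rintro ⟨x, hx⟩
    exact ⟨_, ⟨x, rfl⟩, hx⟩
  · rintro ⟨_, ⟨x, rfl⟩, hx⟩
    exact ⟨x, hx⟩

/-- The number of `v`-th powers of elements of a set that is stable under the `v`-th roots of
unity, all of which are in `K`. -/
theorem ncard_powSet {v : ℕ} (hv0 : 0 < v) {ζ : K} (hζ : IsPrimitiveRoot ζ v) (S : Set K)
    (h0 : (0 : K) ∈ S) (hS : ∀ z : K, z ^ v = 1 → ∀ u ∈ S, z * u ∈ S) :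
    S.ncard = v * ((powSet S v).ncard - 1) + 1 := by
  classical
  have : Fintype K := Fintype.ofFinite K
  set A : Finset K := Finset.univ.filter (fun x => x ∈ S ∧ x ≠ 0) with hA
  set B : Finset K := A.image (fun x => x ^ v) with hB
  have hAc : S.ncard = A.card + 1 := by
    have h1 : S = insert 0 (A : Set K) := by
      ext x
      simp only [hA, Set.mem_insert_iff, Finset.coe_filter, Finset.mem_univ, true_and,
        Set.mem_ofPred_eq]
      by_cases hx : x = 0
      · simp [hx, h0]
      · simp [hx]
    rw [h1, Set.ncard_insert_of_notMem (by simp [hA]), Set.ncard_coe_finset]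
  have hBc : (powSet S v).ncard = B.card + 1 := by
    have h1 : powSet S v = insert 0 (B : Set K) := by
      ext y
      simp only [powSet, hB, hA, Set.mem_image, Set.mem_insert_iff, Finset.coe_image,
        Finset.coe_filter, Finset.mem_univ, true_and, Set.mem_ofPred_eq]
      constructor
      · rintro ⟨x, hx, rfl⟩
        by_cases hx0 : x = 0
        · left
          rw [hx0, zero_pow hv0.ne']
        · right
          exact ⟨x, ⟨hx, hx0⟩, rfl⟩
      · rintro (rfl | ⟨x, ⟨hx, _⟩, rfl⟩)
        · exact ⟨0, h0, zero_pow hv0.ne'⟩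
        · exact ⟨x, hx, rfl⟩
    rw [h1, Set.ncard_insert_of_notMem, Set.ncard_coe_finset]
    intro h
    rw [Finset.mem_coe, hB, Finset.mem_image] at h
    obtain ⟨x, hx, hx2⟩ := h
    rw [hA, Finset.mem_filter] at hx
    exact hx.2.2 (pow_eq_zero_iff hv0.ne' |>.1 hx2)
  have hfib : ∀ b ∈ B, (A.filter (fun x => x ^ v = b)).card = v := by
    intro b hb
    rw [hB, Finset.mem_image] at hb
    obtain ⟨x, hx, rfl⟩ := hb
    rw [hA, Finset.mem_filter] at hx
    obtain ⟨-, hxS, hx0⟩ := hx
    have h1 : A.filter (fun y => y ^ v = x ^ v)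
        = (nthRootsFinset v (1 : K)).image (fun z => z * x) := by
      ext y
      rw [Finset.mem_filter, Finset.mem_image, hA, Finset.mem_filter]
      constructor
      · rintro ⟨⟨-, hyS, hy0⟩, hy⟩
        refine ⟨y / x, ?_, div_mul_cancel₀ _ hx0⟩
        rw [mem_nthRootsFinset hv0, div_pow, hy, div_self (pow_ne_zero _ hx0)]
      · rintro ⟨z, hz, rfl⟩
        rw [mem_nthRootsFinset hv0] at hz
        have hz0 : z ≠ 0 := by
          rintro rfl
          rw [zero_pow hv0.ne'] at hz
          exact zero_ne_one hz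
        exact ⟨⟨Finset.mem_univ _, hS z hz x hxS, mul_ne_zero hz0 hx0⟩, by
          rw [mul_pow, hz, one_mul]⟩
    rw [h1, Finset.card_image_of_injective _ (mul_left_injective₀ hx0), hζ.card_nthRootsFinset]
  have h1 := Finset.card_eq_sum_card_image (fun x : K => x ^ v) A
  rw [← hB, Finset.sum_congr rfl hfib, Finset.sum_const, smul_eq_mul] at h1
  rw [hAc, hBc, h1, Nat.add_sub_cancel, mul_comm]

theorem exists_primitive (L : Subfield K) {v : ℕ} (hv0 : 0 < v) (hv : v ∣ Nat.card L - 1) :
    ∃ ζ : K, IsPrimitiveRoot ζ v := by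
  obtain ⟨g, hg⟩ := IsCyclic.exists_ofOrder_eq_natCard (α := Lˣ)
  have h1 : IsPrimitiveRoot g (Nat.card L - 1) := by
    rw [← Nat.card_units, ← hg]
    exact IsPrimitiveRoot.orderOf g
  obtain ⟨j, hj⟩ := hv
  have hL : 1 < Nat.card L := Finite.one_lt_card
  have h2 : IsPrimitiveRoot (g ^ j) v := h1.pow (by omega) (by rw [hj, mul_comm])
  have h3 : IsPrimitiveRoot ((g ^ j : Lˣ) : L) v := IsPrimitiveRoot.coe_units_iff.2 h2
  exact ⟨_, h3.map_of_injective (f := L.subtype) L.subtype_injective⟩

end Count

end Pool.Agent.Q252.MV
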