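import Mathlib

/-!
# Pfaffian sums

`pfs A = ∑ σ, sgn σ ∏ i, A (σ (i,0)) (σ (i,1))` for a matrix indexed by `ι × Fin 2`, its
behaviour under congruence, its value for bipartite matrices, and the transfer to `Fin (2 n)`.
-/

namespace Q252.PF

open Equiv Finset Matrix

variable {R : Type*} [CommRing R]

section general

variable {ι : Type*} [Fintype ι] [DecidableEq ι]

/-- The signed sum over all permutations which is `2^n n!` times the Pfaffian. -/
def pfs (A : Matrix (ι × Fin 2) (ι × Fin 2) R) : R :=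
  ∑ σ : Perm (ι × Fin 2), ((Perm.sign σ : ℤ) : R) * ∏ i : ι, A (σ (i, 0)) (σ (i, 1))

omit [DecidableEq ι] in
/-- A product over `ι × Fin 2`, pair by pair. -/
theorem prod_pairs {M : Type*} [CommMonoid M] (g : ι × Fin 2 → M) :
    ∏ x, g x = ∏ i : ι, g (i, 0) * g (i, 1) := by
  rw [Fintype.prod_prod_type]
  refine Finset.prod_congr rfl fun i _ => ?_
  rw [Fin.prod_univ_two]

/-- Congruence. -/
theorem pfs_conj (B A : Matrix (ι × Fin 2) (ι × Fin 2) R) :
    pfs (B * A * Bᵀ) = B.det * pfs A := by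
  classical
  have h1 : ∀ σ : Perm (ι × Fin 2),
      ∏ i : ι, (B * A * Bᵀ) (σ (i, 0)) (σ (i, 1)) =
        ∑ f : ι × Fin 2 → ι × Fin 2, (∏ i : ι, A (f (i, 0)) (f (i, 1))) *
          ∏ x, B (σ x) (f x) := by
    intro σ
    have h2 : ∀ i : ι, (B * A * Bᵀ) (σ (i, 0)) (σ (i, 1)) =
        ∑ kl : (ι × Fin 2) × (ι × Fin 2),
          B (σ (i, 0)) kl.1 * A kl.1 kl.2 * B (σ (i, 1)) kl.2 := by
      intro i
      rw [Matrix.mul_apply]
      have h5 : ∑ kl : (ι × Fin 2) × (ι × Fin 2),
          B (σ (i, 0)) kl.1 * A kl.1 kl.2 * B (σ (i, 1)) kl.2 =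
          ∑ l : ι × Fin 2, ∑ k : ι × Fin 2,
            B (σ (i, 0)) k * A k l * B (σ (i, 1)) l :=
        Fintype.sum_prod_type_right _
      rw [h5]
      refine Finset.sum_congr rfl fun l _ => ?_
      rw [Matrix.mul_apply, Finset.sum_mul]
      rfl
    rw [Finset.prod_congr rfl fun i _ => h2 i]
    rw [Finset.prod_univ_sum]
    rw [Fintype.piFinset_univ]
    let E : (ι → (ι × Fin 2) × (ι × Fin 2)) ≃ (ι × Fin 2 → ι × Fin 2) :=
      { toFun := fun g x => if x.2 = 0 then (g x.1).1 else (g x.1).2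
        invFun := fun f i => (f (i, 0), f (i, 1))
        left_inv := by
          intro g
          funext i
          simp
        right_inv := by
          intro f
          funext ⟨i, b⟩
          fin_cases b <;> simp }
    rw [← Equiv.sum_comp E]
    refine Finset.sum_congr rfl fun g _ => ?_
    rw [prod_pairs, ← Finset.prod_mul_distrib]
    refine Finset.prod_congr rfl fun i _ => ?_
    have e0 : E g (i, 0) = (g i).1 := by simp [E]
    have e1 : E g (i, 1) = (g i).2 := by simp [E]
    rw [e0, e1]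
    ring
  unfold pfs
  rw [Finset.sum_congr rfl fun σ _ => by rw [h1 σ]]
  rw [Finset.sum_congr rfl fun σ _ => by rw [Finset.mul_sum]]
  rw [Finset.sum_comm]
  have h3 : ∀ f : ι × Fin 2 → ι × Fin 2,
      ∑ σ : Perm (ι × Fin 2), ((Perm.sign σ : ℤ) : R) *
        ((∏ i : ι, A (f (i, 0)) (f (i, 1))) * ∏ x, B (σ x) (f x)) =
      (∏ i : ι, A (f (i, 0)) (f (i, 1))) * (B.submatrix id f).det := by
    intro f
    rw [Matrix.det_apply', Finset.mul_sum]
    refine Finset.sum_congr rfl fun σ _ => ?_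
    simp only [Matrix.submatrix_apply, id]
    ring
  rw [Finset.sum_congr rfl fun f _ => h3 f]
  -- only permutations contribute
  have h4 : ∑ f : ι × Fin 2 → ι × Fin 2,
      (∏ i : ι, A (f (i, 0)) (f (i, 1))) * (B.submatrix id f).det =
      ∑ f ∈ Finset.univ.image (fun τ : Perm (ι × Fin 2) => (τ : ι × Fin 2 → ι × Fin 2)),
      (∏ i : ι, A (f (i, 0)) (f (i, 1))) * (B.submatrix id f).det := by
    symm
    apply Finset.sum_subset (Finset.subset_univ _)
    intro f _ hf
    have hni : ¬ Function.Injective f := by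
      intro hinj
      apply hf
      rw [Finset.mem_image]
      exact ⟨Equiv.ofBijective f (Finite.injective_iff_bijective.1 hinj), Finset.mem_univ _, rfl⟩
    rw [Function.Injective] at hni
    push Not at hni
    obtain ⟨x, y, hxy, hne⟩ := hni
    rw [Matrix.det_zero_of_column_eq hne, mul_zero]
    intro k
    simp [hxy]
  rw [h4, Finset.sum_image]
  · rw [Finset.mul_sum]
    refine Finset.sum_congr rfl fun τ _ => ?_
    rw [Matrix.det_permute']
    ring
  · intro a _ b _ hab
    exact DFunLike.coe_injective hab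

/-- The standard symplectic matrix. -/
def J : Matrix (ι × Fin 2) (ι × Fin 2) R := fun x y =>
  if x.1 = y.1 then (if x.2 = 0 ∧ y.2 = 1 then 1 else if x.2 = 1 ∧ y.2 = 0 then -1 else 0) else 0

/-- Signed permutations. -/
def hyp (π : Perm ι) (ε : ι → Perm (Fin 2)) : Perm (ι × Fin 2) :=
  (Equiv.prodCongrRight ε).trans (Equiv.prodCongrLeft fun _ => π)

omit [Fintype ι] [DecidableEq ι] in
theorem hyp_apply (π : Perm ι) (ε : ι → Perm (Fin 2)) (i : ι) (b : Fin 2) :
    hyp π ε (i, b) = (π i, ε i b) := rfl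

theorem sign_hyp (π : Perm ι) (ε : ι → Perm (Fin 2)) :
    Perm.sign (hyp π ε) = ∏ i, Perm.sign (ε i) := by
  unfold hyp
  have : Perm.sign ((Equiv.prodCongrRight ε).trans
      (Equiv.prodCongrLeft fun _ : Fin 2 => π) : Perm (ι × Fin 2)) =
      Perm.sign ((Equiv.prodCongrLeft fun _ : Fin 2 => π) * (Equiv.prodCongrRight ε)) := rfl
  rw [this, Perm.sign_mul, Perm.sign_prodCongrLeft, Perm.sign_prodCongrRight]
  rw [Fin.prod_univ_two, Int.units_mul_self, one_mul]

omit [Fintype ι] in
theorem J_hyp (π : Perm ι) (ε : ι → Perm (Fin 2)) (i : ι) :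
    (J : Matrix (ι × Fin 2) (ι × Fin 2) R) (hyp π ε (i, 0)) (hyp π ε (i, 1)) =
      ((Perm.sign (ε i) : ℤ) : R) := by
  rw [hyp_apply, hyp_apply]
  generalize ε i = e
  unfold J
  have : e = 1 ∨ e = Equiv.swap 0 1 := by
    revert e
    decide
  rcases this with h | h
  · subst h
    simp
  · subst h
    rw [Perm.sign_swap (by decide)]
    simp

theorem pfs_J : pfs (J : Matrix (ι × Fin 2) (ι × Fin 2) R) =
    2 ^ (Fintype.card ι) * ((Fintype.card ι).factorial : R) := by
  classical
  unfold pfs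
  have h1 : ∑ σ : Perm (ι × Fin 2), ((Perm.sign σ : ℤ) : R) *
      ∏ i : ι, (J : Matrix (ι × Fin 2) (ι × Fin 2) R) (σ (i, 0)) (σ (i, 1)) =
      ∑ σ ∈ Finset.univ.image (fun p : Perm ι × (ι → Perm (Fin 2)) => hyp p.1 p.2),
        ((Perm.sign σ : ℤ) : R) *
        ∏ i : ι, (J : Matrix (ι × Fin 2) (ι × Fin 2) R) (σ (i, 0)) (σ (i, 1)) := by
    symm
    apply Finset.sum_subset (Finset.subset_univ _)
    intro σ _ hσ
    by_contra hne
    apply hσ
    have hprod : ∀ i : ι, (σ (i, 0)).1 = (σ (i, 1)).1 := by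
      intro i
      by_contra hi
      apply hne
      rw [Finset.prod_eq_zero (Finset.mem_univ i), mul_zero]
      unfold J
      rw [if_neg hi]
    have hb : ∀ i : ι, ∀ b : Fin 2, (σ (i, b)).1 = (σ (i, 0)).1 := by
      intro i b
      fin_cases b
      · rfl
      · exact (hprod i).symm
    have hsurj : Function.Surjective (fun i => (σ (i, 0)).1) := by
      intro r
      obtain ⟨⟨i, b⟩, hib⟩ := σ.surjective (r, 0)
      refine ⟨i, ?_⟩
      show (σ (i, 0)).1 = r
      rw [← hb i b, hib]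
    have hbij : Function.Bijective (fun i => (σ (i, 0)).1) :=
      Finite.surjective_iff_bijective.1 hsurj
    have hinj : ∀ i : ι, Function.Injective (fun b : Fin 2 => (σ (i, b)).2) := by
      intro i b b' hbb
      have : σ (i, b) = σ (i, b') := Prod.ext (by rw [hb i b, hb i b']) hbb
      have := σ.injective this
      exact (Prod.ext_iff.1 this).2
    rw [Finset.mem_image]
    refine ⟨(Equiv.ofBijective _ hbij,
      fun i => Equiv.ofBijective _ (Finite.injective_iff_bijective.1 (hinj i))),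
      Finset.mem_univ _, ?_⟩
    apply Equiv.ext
    rintro ⟨i, b⟩
    rw [hyp_apply]
    apply Prod.ext
    · show (σ (i, 0)).1 = (σ (i, b)).1
      rw [hb i b]
    · rfl
  rw [h1, Finset.sum_image]
  · have h2 : ∀ p : Perm ι × (ι → Perm (Fin 2)),
        ((Perm.sign (hyp p.1 p.2) : ℤ) : R) *
        ∏ i : ι, (J : Matrix (ι × Fin 2) (ι × Fin 2) R) (hyp p.1 p.2 (i, 0))
          (hyp p.1 p.2 (i, 1)) = 1 := by
      intro p
      rw [Finset.prod_congr rfl fun i _ => J_hyp p.1 p.2 i, sign_hyp]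
      rw [← Int.cast_prod, ← Int.cast_mul, ← Units.coe_prod, ← Units.val_mul,
        Int.units_mul_self]
      simp
    rw [Finset.sum_congr rfl fun p _ => h2 p]
    simp [Fintype.card_perm, mul_comm]
  · rintro ⟨π, ε⟩ _ ⟨π', ε'⟩ _ h
    have h' : ∀ i b, (π i, ε i b) = (π' i, ε' i b) := by
      intro i b
      have := congrArg (fun s : Perm (ι × Fin 2) => s (i, b)) h
      simpa [hyp_apply] using this
    refine Prod.ext ?_ ?_
    · apply Equiv.ext
      intro i
      exact (Prod.ext_iff.1 (h' i 0)).1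
    · funext i
      apply Equiv.ext
      intro b
      exact (Prod.ext_iff.1 (h' i b)).2

/-- The matrix with `m` on the even rows and the identity on the odd rows. -/
def half (m : Matrix ι ι R) : Matrix (ι × Fin 2) (ι × Fin 2) R := fun x y =>
  if x.2 = y.2 then (if x.2 = 0 then m x.1 y.1 else if x.1 = y.1 then 1 else 0) else 0

theorem det_half (m : Matrix ι ι R) : (half m).det = m.det := by
  have h : half m = Matrix.blockDiagonal (fun b : Fin 2 => if b = 0 then m else 1) := by
    ext x y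
    obtain ⟨i, b⟩ := x
    obtain ⟨j, c⟩ := y
    rw [Matrix.blockDiagonal_apply]
    unfold half
    by_cases hbc : b = c
    · subst hbc
      by_cases hb : b = 0
      · simp [hb]
      · simp [hb, Matrix.one_apply]
    · simp [hbc]
  rw [h, Matrix.det_blockDiagonal, Fin.prod_univ_two]
  simp

/-- Bipartite matrices. -/
theorem pfs_bip (m : Matrix ι ι R) (A : Matrix (ι × Fin 2) (ι × Fin 2) R)
    (h01 : ∀ i j, A (i, 0) (j, 1) = m i j) (h10 : ∀ i j, A (i, 1) (j, 0) = - m j i)
    (h00 : ∀ i j, A (i, 0) (j, 0) = 0) (h11 : ∀ i j, A (i, 1) (j, 1) = 0) :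
    pfs A = 2 ^ (Fintype.card ι) * ((Fintype.card ι).factorial : R) * m.det := by
  have hA : A = half m * (J : Matrix (ι × Fin 2) (ι × Fin 2) R) * (half m)ᵀ := by
    have hJ : ∀ (x : ι × Fin 2) (j : ι), (half m * (J : Matrix (ι × Fin 2) (ι × Fin 2) R)) x (j, 0) =
        - half m x (j, 1) := by
      intro x j
      rw [Matrix.mul_apply, Fintype.sum_prod_type]
      rw [Finset.sum_eq_single j]
      · rw [Fin.sum_univ_two]
        simp [J]
      · intro i _ hi
        rw [Fin.sum_univ_two]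
        simp [J, hi]
      · intro h
        exact absurd (Finset.mem_univ _) h
    have hJ' : ∀ (x : ι × Fin 2) (j : ι), (half m * (J : Matrix (ι × Fin 2) (ι × Fin 2) R)) x (j, 1) =
        half m x (j, 0) := by
      intro x j
      rw [Matrix.mul_apply, Fintype.sum_prod_type]
      rw [Finset.sum_eq_single j]
      · rw [Fin.sum_univ_two]
        simp [J]
      · intro i _ hi
        rw [Fin.sum_univ_two]
        simp [J, hi]
      · intro h
        exact absurd (Finset.mem_univ _) h
    have hgen : ∀ x y : ι × Fin 2,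
        (half m * (J : Matrix (ι × Fin 2) (ι × Fin 2) R) * (half m)ᵀ) x y =
        ∑ j : ι, (half m x (j, 0) * half m y (j, 1) - half m x (j, 1) * half m y (j, 0)) := by
      intro x y
      rw [Matrix.mul_apply, Fintype.sum_prod_type]
      refine Finset.sum_congr rfl fun j _ => ?_
      rw [Fin.sum_univ_two, hJ, hJ', Matrix.transpose_apply, Matrix.transpose_apply]
      ring
    ext ⟨i, b⟩ ⟨j, c⟩
    rw [hgen]
    fin_cases b <;> fin_cases c
    · show A (i, 0) (j, 0) = _
      rw [h00]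
      simp [half]
    · show A (i, 0) (j, 1) = _
      rw [h01]
      simp [half]
    · show A (i, 1) (j, 0) = _
      rw [h10]
      simp [half]
    · show A (i, 1) (j, 1) = _
      rw [h11]
      simp [half]
  rw [hA, pfs_conj, pfs_J, det_half]
  ring

end general

/-! ### Matrices indexed by `Fin (2 n)` -/

/-- The index `2 i`. -/
def ev {n : ℕ} (i : Fin n) : Fin (2 * n) := ⟨2 * i.1, by have := i.2; omega⟩

/-- The index `2 i + 1`. -/
def od {n : ℕ} (i : Fin n) : Fin (2 * n) := ⟨2 * i.1 + 1, by have := i.2; omega⟩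

/-- `2^n n!` times the Pfaffian of a `2n × 2n` matrix. -/
def pfSum {n : ℕ} (A : Matrix (Fin (2 * n)) (Fin (2 * n)) R) : R :=
  ∑ σ : Perm (Fin (2 * n)), ((Perm.sign σ : ℤ) : R) * ∏ i : Fin n, A (σ (ev i)) (σ (od i))

/-- The pairing of indices. -/
def pairE (n : ℕ) : Fin n × Fin 2 ≃ Fin (2 * n) where
  toFun x := ⟨2 * x.1.1 + x.2.1, by have := x.1.2; have := x.2.2; omega⟩
  invFun y := (⟨y.1 / 2, by have := y.2; omega⟩, ⟨y.1 % 2, by omega⟩)
  left_inv := by
    rintro ⟨⟨i, hi⟩, ⟨b, hb⟩⟩
    refine Prod.ext ?_ ?_ <;> apply Fin.ext <;> simp only [] <;> omega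
  right_inv := by
    rintro ⟨y, hy⟩
    apply Fin.ext
    simp only []
    omega

theorem pairE_zero {n : ℕ} (i : Fin n) : pairE n (i, 0) = ev i := by
  apply Fin.ext
  simp [pairE, ev]

theorem pairE_one {n : ℕ} (i : Fin n) : pairE n (i, 1) = od i := by
  apply Fin.ext
  simp [pairE, od]

theorem pfSum_eq {n : ℕ} (A : Matrix (Fin (2 * n)) (Fin (2 * n)) R) :
    pfSum A = pfs (A.submatrix (pairE n) (pairE n)) := by
  unfold pfSum pfs
  rw [← Equiv.sum_comp (Equiv.permCongr (pairE n))]
  refine Finset.sum_congr rfl fun σ _ => ?_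
  rw [Perm.sign_permCongr]
  congr 1
  refine Finset.prod_congr rfl fun i _ => ?_
  rw [Matrix.submatrix_apply, ← pairE_zero, ← pairE_one]
  simp [Equiv.permCongr_apply]

theorem pfSum_conj {n : ℕ} (B A : Matrix (Fin (2 * n)) (Fin (2 * n)) R) :
    pfSum (B * A * Bᵀ) = B.det * pfSum A := by
  rw [pfSum_eq, pfSum_eq, ← Matrix.det_submatrix_equiv_self (pairE n) B, ← pfs_conj]
  congr 1
  rw [Matrix.transpose_submatrix, Matrix.submatrix_mul_equiv, Matrix.submatrix_mul_equiv]

theorem pfSum_smul {n : ℕ} (c : R) (A : Matrix (Fin (2 * n)) (Fin (2 * n)) R) :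
    pfSum (c • A) = c ^ n * pfSum A := by
  unfold pfSum
  rw [Finset.mul_sum]
  refine Finset.sum_congr rfl fun σ _ => ?_
  simp only [Matrix.smul_apply, smul_eq_mul]
  rw [Finset.prod_mul_distrib, Finset.prod_const, Finset.card_univ, Fintype.card_fin]
  ring

theorem pfSum_bip {n : ℕ} (m : Matrix (Fin n) (Fin n) R)
    (A : Matrix (Fin (2 * n)) (Fin (2 * n)) R)
    (h01 : ∀ i j, A (ev i) (od j) = m i j) (h10 : ∀ i j, A (od i) (ev j) = - m j i)
    (h00 : ∀ i j, A (ev i) (ev j) = 0) (h11 : ∀ i j, A (od i) (od j) = 0) :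
    pfSum A = 2 ^ n * (n.factorial : R) * m.det := by
  rw [pfSum_eq, pfs_bip m]
  · rw [Fintype.card_fin]
  · intro i j
    rw [Matrix.submatrix_apply, pairE_zero, pairE_one, h01]
  · intro i j
    rw [Matrix.submatrix_apply, pairE_zero, pairE_one, h10]
  · intro i j
    rw [Matrix.submatrix_apply, pairE_zero, pairE_zero, h00]
  · intro i j
    rw [Matrix.submatrix_apply, pairE_one, pairE_one, h11]

end Q252.PF
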