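import Pool.Agent.Q252.PF1

/-!
# The skew form `W(f,g) = L(f g' - f' g)` and changes of monic bases
-/

namespace Q252.PF

open Equiv Finset Matrix Polynomial

variable {R : Type*} [CommRing R]

/-- The skew form. -/
noncomputable def W (L : R[X] →ₗ[R] R) (f g : R[X]) : R :=
  L (f * derivative g - derivative f * g)

theorem W_antisymm (L : R[X] →ₗ[R] R) (f g : R[X]) : W L f g = - W L g f := by
  unfold W
  rw [← map_neg]
  congr 1
  ring

theorem W_sum_left (L : R[X] →ₗ[R] R) {α : Type*} (s : Finset α) (c : α → R) (f : α → R[X])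
    (g : R[X]) : W L (∑ x ∈ s, C (c x) * f x) g = ∑ x ∈ s, c x * W L (f x) g := by
  unfold W
  rw [derivative_sum, Finset.sum_mul, Finset.sum_mul, ← Finset.sum_sub_distrib, map_sum]
  refine Finset.sum_congr rfl fun x _ => ?_
  rw [derivative_C_mul]
  have : C (c x) * f x * derivative g - C (c x) * derivative (f x) * g =
      (c x) • (f x * derivative g - derivative (f x) * g) := by
    rw [smul_eq_C_mul]
    ring
  rw [this, map_smul, smul_eq_mul]

theorem W_sum_right (L : R[X] →ₗ[R] R) {α : Type*} (s : Finset α) (c : α → R) (f : α → R[X])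
    (g : R[X]) : W L g (∑ x ∈ s, C (c x) * f x) = ∑ x ∈ s, c x * W L g (f x) := by
  rw [W_antisymm, W_sum_left, ← Finset.sum_neg_distrib]
  refine Finset.sum_congr rfl fun x _ => ?_
  rw [W_antisymm L g (f x)]
  ring

/-- The Gram matrix of a family. -/
noncomputable def gram (L : R[X] →ₗ[R] R) (p : ℕ → R[X]) (n : ℕ) :
    Matrix (Fin (2 * n)) (Fin (2 * n)) R :=
  fun i j => W L (p i) (p j)

theorem expand (p : R[X]) (N : ℕ) (h : p.natDegree < N) :
    p = ∑ k : Fin N, C (p.coeff k) * X ^ (k : ℕ) := by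
  conv_lhs => rw [p.as_sum_range' N h]
  rw [Finset.sum_range]
  refine Finset.sum_congr rfl fun k _ => ?_
  rw [C_mul_X_pow_eq_monomial]

theorem gram_monic [Nontrivial R] (L : R[X] →ₗ[R] R) (p : ℕ → R[X]) (hm : ∀ i, (p i).Monic)
    (hd : ∀ i, (p i).natDegree = i) (n : ℕ) :
    pfSum (gram L p n) = pfSum (gram L (fun i => X ^ i) n) := by
  classical
  let P : Matrix (Fin (2 * n)) (Fin (2 * n)) R := fun i k => (p i).coeff k
  have h1 : gram L p n = P * gram L (fun i => X ^ i) n * Pᵀ := by
    ext i j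
    have hi : (p i) = ∑ k : Fin (2 * n), C ((p i).coeff k) * X ^ (k : ℕ) :=
      expand _ _ (by rw [hd]; exact i.2)
    have hj : (p j) = ∑ k : Fin (2 * n), C ((p j).coeff k) * X ^ (k : ℕ) :=
      expand _ _ (by rw [hd]; exact j.2)
    have h2 : gram L p n i j = ∑ l : Fin (2 * n), ∑ k : Fin (2 * n),
        (p i).coeff k * W L (X ^ (k : ℕ)) (X ^ (l : ℕ)) * (p j).coeff l := by
      show W L (p i) (p j) = _
      rw [hj]
      rw [W_sum_right]
      refine Finset.sum_congr rfl fun l _ => ?_
      rw [← hj]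
      conv_lhs => rw [hi]
      rw [W_sum_left, Finset.mul_sum]
      refine Finset.sum_congr rfl fun k _ => ?_
      ring
    rw [h2, Matrix.mul_apply]
    refine Finset.sum_congr rfl fun l _ => ?_
    rw [Matrix.mul_apply, Finset.sum_mul]
    rfl
  have h3 : P.det = 1 := by
    have := Matrix.det_matrixOfPolynomials (fun i : Fin (2 * n) => p i)
      (fun i => hd i) (fun i => hm i)
    rw [← this, ← Matrix.det_transpose]
    rfl
  rw [h1, pfSum_conj, h3, one_mul]

/-- Any two monic families have the same Pfaffian. -/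
theorem gram_change [Nontrivial R] (L : R[X] →ₗ[R] R) (p q : ℕ → R[X])
    (hm : ∀ i, (p i).Monic) (hd : ∀ i, (p i).natDegree = i)
    (hm' : ∀ i, (q i).Monic) (hd' : ∀ i, (q i).natDegree = i) (n : ℕ) :
    pfSum (gram L p n) = pfSum (gram L q n) := by
  rw [gram_monic L p hm hd, gram_monic L q hm' hd']

theorem W_shift (L : R[X] →ₗ[R] R) (c : R) (i j : ℕ) :
    W L ((X + C c) ^ i) ((X + C c) ^ j) =
      ((j : R) - (i : R)) * L ((X + C c) ^ (i + j - 1)) := by
  unfold W
  have hd : ∀ m : ℕ, derivative ((X + C c) ^ m) = C (m : R) * (X + C c) ^ (m - 1) := by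
    intro m
    rw [derivative_X_add_C_pow]
  rw [hd, hd]
  rcases Nat.eq_zero_or_pos i with hi | hi
  · subst hi
    rcases Nat.eq_zero_or_pos j with hj | hj
    · subst hj
      simp
    · rw [Nat.cast_zero, map_zero, zero_mul, zero_mul, sub_zero, pow_zero, one_mul, sub_zero,
        ← smul_eq_C_mul, map_smul, smul_eq_mul, zero_add]
  · rcases Nat.eq_zero_or_pos j with hj | hj
    · subst hj
      rw [Nat.cast_zero, map_zero, zero_mul, mul_zero, zero_sub, pow_zero, mul_one, zero_sub,
        map_neg, ← smul_eq_C_mul, map_smul, smul_eq_mul, add_zero, neg_mul]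
    · have e1 : (X + C c) ^ i * (C (j : R) * (X + C c) ^ (j - 1)) -
          C (i : R) * (X + C c) ^ (i - 1) * (X + C c) ^ j =
          ((j : R) - (i : R)) • (X + C c) ^ (i + j - 1) := by
        rw [smul_eq_C_mul, map_sub]
        have e2 : (X + C c) ^ i * (X + C c) ^ (j - 1) = (X + C c) ^ (i + j - 1) := by
          rw [← pow_add]
          congr 1
          omega
        have e3 : (X + C c) ^ (i - 1) * (X + C c) ^ j = (X + C c) ^ (i + j - 1) := by
          rw [← pow_add]
          congr 1
          omega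
        rw [sub_mul, ← e2]
        rw [show C (i : R) * ((X + C c) ^ i * (X + C c) ^ (j - 1)) =
          C (i : R) * ((X + C c) ^ (i - 1) * (X + C c) ^ j) by rw [e2, e3]]
        ring
      rw [e1, map_smul, smul_eq_mul]

/-- The Pfaffian of a shifted Hankel-type matrix equals that of the Gram matrix of any monic
family. -/
theorem hankel_eq_gram [Nontrivial R] (L : R[X] →ₗ[R] R) (c : R) (μ : ℕ → R)
    (hμ : ∀ m, L ((X + C c) ^ m) = μ m) (p : ℕ → R[X])
    (hm : ∀ i, (p i).Monic) (hd : ∀ i, (p i).natDegree = i) (n : ℕ) :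
    pfSum (fun i j : Fin (2 * n) => (((j : ℕ) : R) - ((i : ℕ) : R)) * μ (i + j - 1)) =
      pfSum (gram L p n) := by
  rw [gram_change L p (fun i => (X + C c) ^ i) hm hd (fun i => (monic_X_add_C c).pow i)
    (fun i => by rw [(monic_X_add_C c).natDegree_pow, natDegree_X_add_C, mul_one])]
  congr 1
  ext i j
  show _ = W L ((X + C c) ^ (i : ℕ)) ((X + C c) ^ (j : ℕ))
  rw [W_shift, hμ]

/-- Binomial expansion of the shifted moments for a symmetric functional. -/
theorem shifted_moment (L : R[X] →ₗ[R] R) (c : R) (e : ℕ → R)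
    (h0 : ∀ k, L (X ^ (2 * k)) = e k) (h1 : ∀ k, L (X ^ (2 * k + 1)) = 0) (m : ℕ) :
    L ((X + C c) ^ m) =
      ∑ k ∈ range (m + 1), (m.choose (2 * k) : R) * c ^ (m - 2 * k) * e k := by
  rw [add_pow, map_sum]
  have h2 : ∀ j ∈ range (m + 1), L (X ^ j * C c ^ (m - j) * ((m.choose j : ℕ) : R[X])) =
      (m.choose j : R) * c ^ (m - j) * L (X ^ j) := by
    intro j _
    have : (X : R[X]) ^ j * C c ^ (m - j) * ((m.choose j : ℕ) : R[X]) =
        ((m.choose j : R) * c ^ (m - j)) • X ^ j := by
      rw [smul_eq_C_mul, map_mul, map_pow, map_natCast]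
      ring
    rw [this, map_smul, smul_eq_mul]
  rw [Finset.sum_congr rfl h2]
  have h3 : ∑ j ∈ range (m + 1), (m.choose j : R) * c ^ (m - j) * L (X ^ j) =
      ∑ j ∈ range (2 * (m + 1)), (m.choose j : R) * c ^ (m - j) * L (X ^ j) := by
    apply Finset.sum_subset
    · intro x hx
      rw [Finset.mem_range] at *
      omega
    · intro x _ hx
      rw [Finset.mem_range] at *
      rw [Nat.choose_eq_zero_of_lt (by omega)]
      simp
  rw [h3]
  have h4 : ∀ N : ℕ, ∑ j ∈ range (2 * N), (m.choose j : R) * c ^ (m - j) * L (X ^ j) =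
      ∑ k ∈ range N, (m.choose (2 * k) : R) * c ^ (m - 2 * k) * e k := by
    intro N
    induction N with
    | zero => simp
    | succ N ih =>
      rw [show 2 * (N + 1) = 2 * N + 1 + 1 by ring, Finset.sum_range_succ, Finset.sum_range_succ,
        ih, Finset.sum_range_succ, h0, h1]
      ring
  exact h4 _

end Q252.PF
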