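import Pool.Agent.Q252.PF2

/-!
# Laurent polynomials: the semicircle and arcsine functionals in a Chebyshev basis
-/

namespace Q252.PF

open Equiv Finset Matrix Polynomial LaurentPolynomial

variable {R : Type*} [CommRing R]

/-- The coefficient of `T^m`. -/
noncomputable def co (m : ℤ) : R[T;T⁻¹] →ₗ[R] R :=
  (Finsupp.lapply m).comp (AddMonoidAlgebra.coeffLinearEquiv R).toLinearMap

theorem co_eq (m : ℤ) (f : R[T;T⁻¹]) : co m f = f.coeff m := rfl

theorem co_CT (m k : ℤ) (r : R) :
    co m (LaurentPolynomial.C r * T k) = if k = m then r else 0 := by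
  rw [← LaurentPolynomial.smul_eq_C_mul, map_smul, co_eq, T_apply, smul_eq_mul]
  split_ifs <;> simp

theorem co_T (m k : ℤ) : co m (T k : R[T;T⁻¹]) = if k = m then 1 else 0 := by
  rw [co_eq, T_apply]

/-- The variable `x = z + a / z`. -/
noncomputable def xz (a : R) : R[T;T⁻¹] := T 1 + LaurentPolynomial.C a * T (-1)

/-- The factor `z - a / z`. -/
noncomputable def sz (a : R) : R[T;T⁻¹] := T 1 - LaurentPolynomial.C a * T (-1)

/-- Substitution. -/
noncomputable def phi (a : R) : R[X] →ₐ[R] R[T;T⁻¹] := aeval (xz a)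

/-- The semicircle functional. -/
noncomputable def Ls (a : R) : R[X] →ₗ[R] R :=
  (co 1).comp ((LinearMap.mulRight R (sz a)).comp (phi a).toLinearMap)

/-- The arcsine functional. -/
noncomputable def La (a : R) : R[X] →ₗ[R] R :=
  (co 0).comp (phi a).toLinearMap

theorem Ls_apply (a : R) (f : R[X]) : Ls a f = co 1 (phi a f * sz a) := rfl

theorem La_apply (a : R) (f : R[X]) : La a f = co 0 (phi a f) := rfl

/-! ### Moments -/

theorem xz_pow (a : R) (m : ℕ) : (xz a) ^ m =
    ∑ l ∈ range (m + 1), LaurentPolynomial.C ((m.choose l : R) * a ^ l) * T ((m : ℤ) - 2 * l) := by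
  unfold xz
  rw [add_comm, add_pow]
  refine Finset.sum_congr rfl fun l hl => ?_
  rw [Finset.mem_range] at hl
  rw [mul_pow, T_pow, T_pow, ← map_pow]
  have h1 : (T ((m : ℤ) - 2 * l) : R[T;T⁻¹]) = T ((l : ℤ) * -1) * T (((m - l : ℕ) : ℤ) * 1) := by
    rw [← T_add]
    congr 1
    rw [Nat.cast_sub (by omega)]
    ring
  rw [h1, map_mul, map_natCast]
  ring

theorem co_xz_pow (a : R) (m : ℕ) (r : ℤ) : co r ((xz a) ^ m) =
    ∑ l ∈ range (m + 1), if (m : ℤ) - 2 * l = r then (m.choose l : R) * a ^ l else 0 := by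
  rw [xz_pow, map_sum]
  refine Finset.sum_congr rfl fun l _ => ?_
  rw [co_CT]

theorem co_zero_even (a : R) (k : ℕ) :
    co 0 ((xz a) ^ (2 * k)) = ((2 * k).choose k : R) * a ^ k := by
  rw [co_xz_pow, Finset.sum_eq_single k]
  · rw [if_pos (by push_cast; ring)]
  · intro l _ hl
    rw [if_neg]
    push_cast
    omega
  · intro h
    exact absurd (Finset.mem_range.2 (by omega)) h

theorem co_even_odd (a : R) (k : ℕ) (r : ℤ) :
    co (2 * r) ((xz a) ^ (2 * k + 1)) = 0 := by
  rw [co_xz_pow]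
  apply Finset.sum_eq_zero
  intro l _
  rw [if_neg]
  push_cast
  omega

theorem co_two_even (a : R) (k : ℕ) :
    co 2 ((xz a) ^ (2 * (k + 1))) = ((2 * (k + 1)).choose k : R) * a ^ k := by
  rw [co_xz_pow, Finset.sum_eq_single k]
  · rw [if_pos (by push_cast; ring)]
  · intro l _ hl
    rw [if_neg]
    push_cast
    omega
  · intro h
    exact absurd (Finset.mem_range.2 (by omega)) h

theorem phi_X_pow (a : R) (m : ℕ) : phi a (X ^ m) = (xz a) ^ m := by
  unfold phi
  rw [map_pow, aeval_X]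

theorem co_mul_T (m k : ℤ) (f : R[T;T⁻¹]) : co m (f * T k) = co (m - k) f := by
  induction f using LaurentPolynomial.induction_on' with
  | add p q hp hq => rw [add_mul, map_add, map_add, hp, hq]
  | C_mul_T n r =>
    rw [mul_assoc, ← T_add, co_CT, co_CT]
    congr 1
    apply propext
    constructor <;> intro h <;> omega

theorem co_mul_CT (m k : ℤ) (r : R) (f : R[T;T⁻¹]) :
    co m (f * (LaurentPolynomial.C r * T k)) = r * co (m - k) f := by
  rw [show f * (LaurentPolynomial.C r * T k) = LaurentPolynomial.C r * (f * T k) by ring,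
    ← LaurentPolynomial.smul_eq_C_mul, map_smul, co_mul_T, smul_eq_mul]

theorem Ls_pow (a : R) (m : ℕ) : Ls a (X ^ m) = co 0 ((xz a) ^ m) - a * co 2 ((xz a) ^ m) := by
  rw [Ls_apply, phi_X_pow]
  unfold sz
  rw [mul_sub, map_sub, co_mul_T, co_mul_CT]
  norm_num

theorem catalan_choose (k : ℕ) :
    ((2 * (k + 1)).choose k : ℤ) + (catalan (k + 1) : ℤ) = ((2 * (k + 1)).choose (k + 1) : ℤ) := by
  have h1 := succ_mul_catalan_eq_centralBinom (k + 1)
  have h2 := Nat.choose_succ_right_eq (2 * (k + 1)) k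
  have h3 : 2 * (k + 1) - k = k + 2 := by omega
  rw [h3] at h2
  rw [Nat.centralBinom_eq_two_mul_choose] at h1
  have h4 : ((2 * (k + 1)).choose (k + 1) : ℤ) * (k + 1) = (2 * (k + 1)).choose k * (k + 2) := by
    exact_mod_cast h2
  have h5 : ((k : ℤ) + 1 + 1) * (catalan (k + 1) : ℤ) = ((2 * (k + 1)).choose (k + 1) : ℤ) := by
    exact_mod_cast h1
  have h6 : ((k : ℤ) + 2) ≠ 0 := by positivity
  apply mul_left_cancel₀ h6
  linear_combination (-1 : ℤ) * h4 + h5

theorem Ls_even (a : R) (k : ℕ) : Ls a (X ^ (2 * k)) = (catalan k : R) * a ^ k := by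
  rw [Ls_pow, co_zero_even]
  cases k with
  | zero =>
    have h0 : co 2 ((xz a) ^ (2 * 0)) = 0 := by
      rw [co_xz_pow]
      simp
    rw [h0]
    simp
  | succ k =>
    rw [co_two_even]
    have h1 := catalan_choose k
    have h2 : ((2 * (k + 1)).choose k : R) + (catalan (k + 1) : R) =
        ((2 * (k + 1)).choose (k + 1) : R) := by
      have := congrArg (Int.cast : ℤ → R) h1
      push_cast at this
      exact_mod_cast this
    rw [← h2, pow_succ]
    ring

theorem Ls_odd (a : R) (k : ℕ) : Ls a (X ^ (2 * k + 1)) = 0 := by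
  rw [Ls_pow]
  have h0 := co_even_odd a k 0
  have h2 := co_even_odd a k 1
  rw [mul_zero] at h0
  rw [mul_one] at h2
  rw [h0, h2]
  ring

theorem La_even (a : R) (k : ℕ) : La a (X ^ (2 * k)) = ((2 * k).choose k : R) * a ^ k := by
  rw [La_apply, phi_X_pow, co_zero_even]

theorem La_odd (a : R) (k : ℕ) : La a (X ^ (2 * k + 1)) = 0 := by
  rw [La_apply, phi_X_pow]
  have h0 := co_even_odd a k 0
  rwa [mul_zero] at h0

/-! ### The Chebyshev basis -/

/-- Dickson polynomials: `tau k (z + a/z) = z^k + a^k / z^k`. -/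
noncomputable def tau (a : R) : ℕ → R[X]
  | 0 => 2
  | 1 => X
  | (k + 2) => X * tau a (k + 1) - Polynomial.C a * tau a k

theorem tau_step (a : R) (k : ℕ) :
    tau a (k + 2) = X * tau a (k + 1) - Polynomial.C a * tau a k := rfl

theorem xz_sz_aux (a : R) (k : ℕ) (f : R) :
    xz a * (T ((k : ℤ) + 1) + LaurentPolynomial.C (f * a) * T (-((k : ℤ) + 1))) -
      LaurentPolynomial.C a * (T (k : ℤ) + LaurentPolynomial.C f * T (-(k : ℤ))) =
      T ((k : ℤ) + 2) + LaurentPolynomial.C (f * a * a) * T (-((k : ℤ) + 2)) := by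
  unfold xz
  have e1 : (T 1 : R[T;T⁻¹]) * T ((k : ℤ) + 1) = T ((k : ℤ) + 2) := by
    rw [← T_add]; congr 1; ring
  have e2 : (T 1 : R[T;T⁻¹]) * T (-((k : ℤ) + 1)) = T (-(k : ℤ)) := by
    rw [← T_add]; congr 1; ring
  have e3 : (T (-1) : R[T;T⁻¹]) * T ((k : ℤ) + 1) = T (k : ℤ) := by
    rw [← T_add]; congr 1; ring
  have e4 : (T (-1) : R[T;T⁻¹]) * T (-((k : ℤ) + 1)) = T (-((k : ℤ) + 2)) := by
    rw [← T_add]; congr 1; ring
  simp only [map_mul]
  linear_combination e1 + LaurentPolynomial.C f * LaurentPolynomial.C a * e2 +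
    LaurentPolynomial.C a * e3 +
    LaurentPolynomial.C a * LaurentPolynomial.C f * LaurentPolynomial.C a * e4

theorem phi_tau (a : R) : ∀ k : ℕ,
    phi a (tau a k) = T (k : ℤ) + LaurentPolynomial.C (a ^ k) * T (-(k : ℤ))
  | 0 => by
    simp only [tau]
    rw [map_ofNat]
    simp
    norm_num
  | 1 => by
    simp only [tau]
    unfold phi
    rw [aeval_X]
    simp [xz]
  | (k + 2) => by
    rw [tau_step, map_sub, map_mul, map_mul, phi_tau a (k + 1), phi_tau a k]
    have hX : phi a X = xz a := by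
      unfold phi
      rw [aeval_X]
    have hC : phi a (Polynomial.C a) = LaurentPolynomial.C a := by
      unfold phi
      rw [aeval_C]
      rfl
    rw [hX, hC]
    have := xz_sz_aux a k (a ^ k)
    push_cast
    rw [show a ^ (k + 1) = a ^ k * a from pow_succ a k,
      show a ^ (k + 2) = a ^ k * a * a by ring]
    exact this

/-- `(z - a/z) tau_k'(x) = k (z^k - a^k / z^k)`. -/
theorem phi_dtau (a : R) : ∀ k : ℕ,
    phi a (derivative (tau a k)) * sz a =
      (k : R[T;T⁻¹]) * (T (k : ℤ) - LaurentPolynomial.C (a ^ k) * T (-(k : ℤ)))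
  | 0 => by
    simp only [tau]
    have : derivative (2 : R[X]) = 0 := by
      simpa using derivative_natCast (R := R) (n := 2)
    rw [this]
    simp
  | 1 => by
    simp only [tau]
    rw [derivative_X]
    simp [sz]
  | (k + 2) => by
    rw [tau_step, derivative_sub, derivative_mul, derivative_X, one_mul, derivative_C_mul]
    rw [map_sub, map_add, map_mul, map_mul]
    have hX : phi a X = xz a := by
      unfold phi
      rw [aeval_X]
    have hC : phi a (Polynomial.C a) = LaurentPolynomial.C a := by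
      unfold phi
      rw [aeval_C]
      rfl
    rw [hX, hC]
    have h1 := phi_dtau a (k + 1)
    have h0 := phi_dtau a k
    have h2 : (phi a (tau a (k + 1)) + xz a * phi a (derivative (tau a (k + 1))) -
        LaurentPolynomial.C a * phi a (derivative (tau a k))) * sz a =
        phi a (tau a (k + 1)) * sz a + xz a * (phi a (derivative (tau a (k + 1))) * sz a) -
        LaurentPolynomial.C a * (phi a (derivative (tau a k)) * sz a) := by ring
    rw [h2, h1, h0, phi_tau]
    unfold xz sz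
    have e1 : (T 1 : R[T;T⁻¹]) * T ((k : ℤ) + 1) = T ((k : ℤ) + 2) := by
      rw [← T_add]; congr 1; ring
    have e2 : (T 1 : R[T;T⁻¹]) * T (-((k : ℤ) + 1)) = T (-(k : ℤ)) := by
      rw [← T_add]; congr 1; ring
    have e3 : (T (-1) : R[T;T⁻¹]) * T ((k : ℤ) + 1) = T (k : ℤ) := by
      rw [← T_add]; congr 1; ring
    have e4 : (T (-1) : R[T;T⁻¹]) * T (-((k : ℤ) + 1)) = T (-((k : ℤ) + 2)) := by
      rw [← T_add]; congr 1; ring
    push_cast
    rw [show a ^ (k + 1) = a ^ k * a from pow_succ a k,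
      show a ^ (k + 2) = a ^ k * a * a by ring]
    simp only [map_mul]
    set A := LaurentPolynomial.C (R := R) a
    set F := LaurentPolynomial.C (R := R) (a ^ k)
    set K : R[T;T⁻¹] := (k : R[T;T⁻¹])
    linear_combination (K + 2) * e1 + (-K) * F * A * e2 + K * A * e3 -
      (K + 2) * F * A * A * e4

end Q252.PF
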