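import Pool.Agent.Q252.PF3

/-!
# Gram matrices in the Chebyshev basis and their determinants
-/

namespace Q252.PF

open Equiv Finset Matrix Polynomial LaurentPolynomial

variable {R : Type*} [CommRing R]

/-- The monic Chebyshev basis. -/
noncomputable def tt (a : R) : ℕ → R[X]
  | 0 => 1
  | (k + 1) => tau a (k + 1)

theorem tau_prop [Nontrivial R] (a : R) : ∀ k : ℕ,
    (tau a (k + 1)).Monic ∧ (tau a (k + 1)).natDegree = k + 1
  | 0 => by
    simp only [tau]
    exact ⟨monic_X, natDegree_X⟩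
  | 1 => by
    have h : tau a (1 + 1) = X ^ 2 + Polynomial.C (- (a * 2)) := by
      simp only [tau]
      rw [map_neg, map_mul]
      have : (Polynomial.C (2 : R)) = 2 := map_ofNat _ 2
      rw [this]
      ring
    rw [h]
    refine ⟨monic_X_pow_add_C _ (by norm_num), ?_⟩
    rw [natDegree_X_pow_add_C]
  | (k + 2) => by
    have h1 := tau_prop a (k + 1)
    have h0 := tau_prop a k
    have hstep : tau a (k + 2 + 1) = X * tau a (k + 2) - Polynomial.C a * tau a (k + 1) :=
      tau_step a (k + 1)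
    have hX : (X * tau a (k + 2)).Monic := monic_X.mul h1.1
    have hXd : (X * tau a (k + 2)).natDegree = k + 2 + 1 := by
      rw [Monic.natDegree_mul monic_X h1.1, natDegree_X, h1.2]
      ring
    have hlt : (Polynomial.C a * tau a (k + 1)).degree < (X * tau a (k + 2)).degree := by
      have hle : (Polynomial.C a * tau a (k + 1)).degree ≤ (tau a (k + 1)).degree := by
        rw [← Polynomial.smul_eq_C_mul]
        exact degree_smul_le a _
      refine lt_of_le_of_lt hle ?_
      rw [degree_eq_natDegree h0.1.ne_zero, degree_eq_natDegree hX.ne_zero, hXd, h0.2]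
      exact_mod_cast (by omega : k + 1 < k + 2 + 1)
    rw [hstep]
    refine ⟨hX.sub_of_left hlt, ?_⟩
    rw [natDegree_sub_eq_left_of_natDegree_lt, hXd]
    rw [hXd]
    have := natDegree_C_mul_le a (tau a (k + 1))
    rw [h0.2] at this
    omega

theorem tt_monic [Nontrivial R] (a : R) (i : ℕ) : (tt a i).Monic := by
  cases i with
  | zero => exact monic_one
  | succ k => exact (tau_prop a k).1

theorem tt_deg [Nontrivial R] (a : R) (i : ℕ) : (tt a i).natDegree = i := by
  cases i with
  | zero => exact natDegree_one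
  | succ k => exact (tau_prop a k).2

/-! ### The semicircle Gram matrix -/

theorem W_Ls (a : R) (f g : R[X]) : W (Ls a) f g =
    co 1 (phi a f * (phi a (derivative g) * sz a) - (phi a (derivative f) * sz a) * phi a g) := by
  unfold W
  rw [Ls_apply]
  congr 1
  rw [map_sub, map_mul, map_mul]
  ring

theorem W_Ls_tau (a : R) (j k : ℕ) : W (Ls a) (tau a j) (tau a k) =
    ((k : R) - j) * (if (j : ℤ) + k = 1 then 1 else 0) -
      ((k : R) + j) * (if (j : ℤ) - k = 1 then a ^ k else 0) +
      ((k : R) + j) * (if (k : ℤ) - j = 1 then a ^ j else 0) -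
      ((k : R) - j) * (if (-(j : ℤ) - k = 1) then a ^ (j + k) else 0) := by
  rw [W_Ls, phi_dtau, phi_dtau, phi_tau, phi_tau]
  have e1 : (T (j : ℤ) : R[T;T⁻¹]) * T (k : ℤ) = T ((j : ℤ) + k) := by rw [← T_add]
  have e2 : (T (j : ℤ) : R[T;T⁻¹]) * T (-(k : ℤ)) = T ((j : ℤ) - k) := by
    rw [← T_add]; congr 1
  have e3 : (T (-(j : ℤ)) : R[T;T⁻¹]) * T (k : ℤ) = T ((k : ℤ) - j) := by
    rw [← T_add]; congr 1; ring
  have e4 : (T (-(j : ℤ)) : R[T;T⁻¹]) * T (-(k : ℤ)) = T (-(j : ℤ) - k) := by
    rw [← T_add]; congr 1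
  have h : (T (j : ℤ) + LaurentPolynomial.C (a ^ j) * T (-(j : ℤ))) *
        ((k : R[T;T⁻¹]) * (T (k : ℤ) - LaurentPolynomial.C (a ^ k) * T (-(k : ℤ)))) -
      (j : R[T;T⁻¹]) * (T (j : ℤ) - LaurentPolynomial.C (a ^ j) * T (-(j : ℤ))) *
        (T (k : ℤ) + LaurentPolynomial.C (a ^ k) * T (-(k : ℤ))) =
      LaurentPolynomial.C ((k : R) - j) * T ((j : ℤ) + k) -
      LaurentPolynomial.C (((k : R) + j) * a ^ k) * T ((j : ℤ) - k) +
      LaurentPolynomial.C (((k : R) + j) * a ^ j) * T ((k : ℤ) - j) -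
      LaurentPolynomial.C (((k : R) - j) * a ^ (j + k)) * T (-(j : ℤ) - k) := by
    rw [← e1, ← e2, ← e3, ← e4, pow_add]
    simp only [map_mul, map_sub, map_add, map_natCast]
    ring
  rw [h, map_sub, map_add, map_sub, co_CT, co_CT, co_CT, co_CT]
  split_ifs <;> ring

theorem W_Ls_one (a : R) (k : ℕ) : W (Ls a) 1 (tau a k) =
    (if k = 1 then 1 else 0) := by
  rw [W_Ls, phi_dtau]
  simp only [map_one, one_mul, derivative_one, map_zero, zero_mul, sub_zero]
  rw [mul_sub, map_sub]
  have h1 : co 1 ((k : R[T;T⁻¹]) * T (k : ℤ)) = if (k : ℤ) = 1 then (k : R) else 0 := by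
    rw [show (k : R[T;T⁻¹]) = LaurentPolynomial.C (k : R) by rw [map_natCast]]
    exact co_CT _ _ _
  have h2 : co 1 ((k : R[T;T⁻¹]) * (LaurentPolynomial.C (a ^ k) * T (-(k : ℤ)))) = 0 := by
    rw [show (k : R[T;T⁻¹]) = LaurentPolynomial.C (k : R) by rw [map_natCast]]
    rw [← mul_assoc, ← map_mul, co_CT, if_neg (by omega)]
  rw [h1, h2, sub_zero]
  by_cases hk : k = 1
  · subst hk
    simp
  · rw [if_neg (by omega), if_neg hk]

theorem W_self (L : R[X] →ₗ[R] R) (f : R[X]) : W L f f = 0 := by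
  unfold W
  rw [show f * derivative f - derivative f * f = 0 by ring, map_zero]

/-- The semicircle Gram matrix vanishes for equal parities. -/
theorem W_Ls_tt (a : R) (j k : ℕ) : W (Ls a) (tt a j) (tt a k) =
    (if k = j + 1 then ((2 * j + 1 : ℕ) : R) * a ^ j else 0) -
      (if j = k + 1 then ((2 * k + 1 : ℕ) : R) * a ^ k else 0) := by
  cases j with
  | zero =>
    cases k with
    | zero =>
      show W (Ls a) 1 1 = _
      rw [W_self]
      simp
    | succ k =>
      show W (Ls a) 1 (tau a (k + 1)) = _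
      rw [W_Ls_one]
      by_cases hk : k = 0
      · subst hk
        simp
      · simp [hk]
  | succ j =>
    cases k with
    | zero =>
      show W (Ls a) (tau a (j + 1)) 1 = _
      rw [W_antisymm, W_Ls_one]
      by_cases hj : j = 0
      · subst hj
        simp
      · simp [hj]
    | succ k =>
      show W (Ls a) (tau a (j + 1)) (tau a (k + 1)) = _
      rw [W_Ls_tau]
      have n1 : ¬ (((j + 1 : ℕ) : ℤ) + ((k + 1 : ℕ) : ℤ) = 1) := by push_cast; omega
      have n4 : ¬ (-((j + 1 : ℕ) : ℤ) - ((k + 1 : ℕ) : ℤ) = 1) := by push_cast; omega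
      rw [if_neg n1, if_neg n4]
      by_cases h1 : k = j + 1
      · subst h1
        have c1 : ¬ (((j + 1 : ℕ) : ℤ) - ((j + 1 + 1 : ℕ) : ℤ) = 1) := by push_cast; omega
        have c2 : (((j + 1 + 1 : ℕ) : ℤ) - ((j + 1 : ℕ) : ℤ) = 1) := by push_cast; omega
        rw [if_neg c1, if_pos c2, if_pos rfl, if_neg (by omega)]
        push_cast
        ring
      · by_cases h2 : j = k + 1
        · subst h2
          have c1 : (((k + 1 + 1 : ℕ) : ℤ) - ((k + 1 : ℕ) : ℤ) = 1) := by push_cast; omega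
          have c2 : ¬ (((k + 1 : ℕ) : ℤ) - ((k + 1 + 1 : ℕ) : ℤ) = 1) := by push_cast; omega
          rw [if_pos c1, if_neg c2, if_neg (by omega), if_pos rfl]
          push_cast
          ring
        · have c1 : ¬ (((j + 1 : ℕ) : ℤ) - ((k + 1 : ℕ) : ℤ) = 1) := by push_cast; omega
          have c2 : ¬ (((k + 1 : ℕ) : ℤ) - ((j + 1 : ℕ) : ℤ) = 1) := by push_cast; omega
          rw [if_neg c1, if_neg c2, if_neg (by omega), if_neg (by omega)]
          ring

theorem pow_prod (a : R) (n : ℕ) : ∏ i ∈ range n, a ^ (2 * i) = a ^ (n * (n - 1)) := by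
  rw [Finset.prod_pow_eq_pow_sum, ← Finset.mul_sum, mul_comm 2, Finset.sum_range_id_mul_two]

/-- The semicircle Pfaffian. -/
theorem pf_semicircle (a : R) (n : ℕ) : pfSum (gram (Ls a) (tt a) n) =
    2 ^ n * (n.factorial : R) * (a ^ (n * (n - 1)) * ∏ k ∈ range n, (4 * (k : R) + 1)) := by
  rw [pfSum_bip (Matrix.of fun i j : Fin n => W (Ls a) (tt a (2 * i)) (tt a (2 * j + 1)))]
  · congr 1
    rw [Matrix.det_of_isLowerTriangular]
    · rw [← pow_prod, ← Finset.prod_mul_distrib, Finset.prod_range]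
      refine Finset.prod_congr rfl fun i _ => ?_
      rw [Matrix.of_apply, W_Ls_tt, if_pos rfl, if_neg (by omega)]
      push_cast
      ring
    · intro i j hij
      have hij' : i < j := hij
      have : (i : ℕ) < j := hij'
      show W (Ls a) (tt a (2 * i)) (tt a (2 * j + 1)) = 0
      rw [W_Ls_tt, if_neg (by omega), if_neg (by omega), sub_zero]
  · intro i j
    rfl
  · intro i j
    exact W_antisymm _ _ _
  · intro i j
    show W (Ls a) (tt a (2 * i)) (tt a (2 * j)) = 0
    rw [W_Ls_tt, if_neg (by omega), if_neg (by omega), sub_zero]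
  · intro i j
    show W (Ls a) (tt a (2 * i + 1)) (tt a (2 * j + 1)) = 0
    rw [W_Ls_tt, if_neg (by omega), if_neg (by omega), sub_zero]

/-! ### The arcsine Gram matrix -/

/-- `V_k = (z^k - a^k z^{-k}) / (z - a/z)`. -/
noncomputable def V (a : R) (k : ℕ) : R[T;T⁻¹] :=
  ∑ l ∈ range k, LaurentPolynomial.C (a ^ l) * T ((k : ℤ) - 1 - 2 * l)

theorem V_mul_sz (a : R) (k : ℕ) :
    V a k * sz a = T (k : ℤ) - LaurentPolynomial.C (a ^ k) * T (-(k : ℤ)) := by
  unfold V
  rw [Finset.sum_mul]
  have h : ∀ l ∈ range k, LaurentPolynomial.C (a ^ l) * T ((k : ℤ) - 1 - 2 * l) * sz a =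
      LaurentPolynomial.C (a ^ l) * T ((k : ℤ) - 2 * l) -
        LaurentPolynomial.C (a ^ (l + 1)) * T ((k : ℤ) - 2 * ((l + 1 : ℕ) : ℤ)) := by
    intro l _
    unfold sz
    have e1 : (T ((k : ℤ) - 2 * l) : R[T;T⁻¹]) = T ((k : ℤ) - 1 - 2 * l) * T 1 := by
      rw [← T_add]; congr 1; ring
    have e2 : (T ((k : ℤ) - 2 * ((l + 1 : ℕ) : ℤ)) : R[T;T⁻¹]) =
        T ((k : ℤ) - 1 - 2 * l) * T (-1) := by
      rw [← T_add]; congr 1; push_cast; ring
    rw [e1, e2, pow_succ, map_mul]
    ring
  rw [Finset.sum_congr rfl h]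
  rw [Finset.sum_range_sub' (fun l : ℕ => LaurentPolynomial.C (a ^ l) * T ((k : ℤ) - 2 * l))]
  congr 1
  · simp
  · congr 2
    ring

theorem sz_ne [Nontrivial R] (a : R) : sz a ≠ 0 := by
  intro h
  have h1 := congrArg (co 1) h
  unfold sz at h1
  rw [map_sub, co_T, co_CT, map_zero] at h1
  norm_num at h1

theorem phi_dtau' [IsDomain R] (a : R) (k : ℕ) :
    phi a (derivative (tau a k)) = (k : R[T;T⁻¹]) * V a k := by
  apply mul_right_cancel₀ (sz_ne a)
  rw [phi_dtau, mul_assoc, V_mul_sz]

theorem co_V_hit (a : R) (k l : ℕ) (hl : l < k) (r : ℤ) (hr : r = (k : ℤ) - 1 - 2 * l) :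
    co r (V a k) = a ^ l := by
  unfold V
  rw [map_sum, Finset.sum_eq_single l]
  · rw [co_CT, if_pos hr.symm]
  · intro l' _ hne
    rw [co_CT, if_neg]
    omega
  · intro h
    exact absurd (Finset.mem_range.2 hl) h

theorem co_V_miss (a : R) (k : ℕ) (r : ℤ) (hr : ∀ l : ℕ, l < k → (k : ℤ) - 1 - 2 * l ≠ r) :
    co r (V a k) = 0 := by
  unfold V
  rw [map_sum]
  apply Finset.sum_eq_zero
  intro l hl
  rw [co_CT, if_neg (hr l (Finset.mem_range.1 hl))]

theorem W_La_tau [IsDomain R] (a : R) (j k : ℕ) : W (La a) (tau a j) (tau a k) =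
    (k : R) * (co (-(j : ℤ)) (V a k) + a ^ j * co (j : ℤ) (V a k)) -
      (j : R) * (co (-(k : ℤ)) (V a j) + a ^ k * co (k : ℤ) (V a j)) := by
  unfold W
  rw [La_apply, map_sub, map_mul, map_mul, phi_dtau', phi_dtau', phi_tau, phi_tau, map_sub]
  have h : ∀ (j k : ℕ), co 0 ((T (j : ℤ) + LaurentPolynomial.C (a ^ j) * T (-(j : ℤ))) *
      ((k : R[T;T⁻¹]) * V a k)) =
      (k : R) * (co (-(j : ℤ)) (V a k) + a ^ j * co (j : ℤ) (V a k)) := by
    intro j k
    rw [show (T (j : ℤ) + LaurentPolynomial.C (a ^ j) * T (-(j : ℤ))) *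
      ((k : R[T;T⁻¹]) * V a k) =
      LaurentPolynomial.C (k : R) * (V a k * T (j : ℤ) +
        V a k * (LaurentPolynomial.C (a ^ j) * T (-(j : ℤ)))) by rw [map_natCast]; ring]
    rw [← LaurentPolynomial.smul_eq_C_mul, map_smul, smul_eq_mul, map_add, co_mul_T, co_mul_CT]
    rw [zero_sub, zero_sub, neg_neg]
  rw [h, show (j : R[T;T⁻¹]) * V a j * (T (k : ℤ) + LaurentPolynomial.C (a ^ k) * T (-(k : ℤ))) =
    (T (k : ℤ) + LaurentPolynomial.C (a ^ k) * T (-(k : ℤ))) * ((j : R[T;T⁻¹]) * V a j) by ring,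
    h]

theorem W_La_one [IsDomain R] (a : R) (k : ℕ) : W (La a) 1 (tau a k) =
    (k : R) * co 0 (V a k) := by
  unfold W
  rw [derivative_one, zero_mul, sub_zero, one_mul, La_apply, phi_dtau']
  rw [show (k : R[T;T⁻¹]) * V a k = LaurentPolynomial.C (k : R) * V a k by rw [map_natCast]]
  rw [← LaurentPolynomial.smul_eq_C_mul, map_smul, smul_eq_mul]

theorem W_La_even [IsDomain R] (a : R) (j k : ℕ) (h : j % 2 = k % 2) :
    W (La a) (tt a j) (tt a k) = 0 := by
  have key : ∀ k : ℕ, (k + 1) % 2 = 0 → W (La a) 1 (tau a (k + 1)) = 0 := by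
    intro k hk
    rw [W_La_one, co_V_miss, mul_zero]
    intro l _ hc
    push_cast at hc
    omega
  cases j with
  | zero =>
    cases k with
    | zero => exact W_self _ _
    | succ k => exact key k (by omega)
  | succ j =>
    cases k with
    | zero =>
      show W (La a) (tau a (j + 1)) 1 = 0
      rw [W_antisymm, key j (by omega), neg_zero]
    | succ k =>
      show W (La a) (tau a (j + 1)) (tau a (k + 1)) = 0
      rw [W_La_tau, co_V_miss, co_V_miss, co_V_miss, co_V_miss]
      · ring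
      all_goals
        intro l _ hc
        push_cast at hc
        omega

/-- The reduced arcsine matrix. -/
def mA (R : Type*) [CommRing R] (p q : ℕ) : R :=
  if p = 0 then 2 * (q : R) + 1 else if p ≤ q then 2 * (2 * (q : R) + 1) else - (4 * (p : R))

theorem W_La_odd [IsDomain R] (a : R) (p q : ℕ) :
    W (La a) (tt a (2 * p)) (tt a (2 * q + 1)) = a ^ p * (a ^ q * mA R p q) := by
  cases p with
  | zero =>
    show W (La a) 1 (tau a (2 * q + 1)) = _
    rw [W_La_one, co_V_hit a (2 * q + 1) q (by omega) 0 (by push_cast; ring)]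
    unfold mA
    rw [if_pos rfl]
    push_cast
    ring
  | succ p =>
    show W (La a) (tau a (2 * p + 1 + 1)) (tau a (2 * q + 1)) = _
    rw [W_La_tau]
    unfold mA
    rw [if_neg (by omega)]
    by_cases hpq : p + 1 ≤ q
    · rw [if_pos hpq]
      rw [co_V_hit a (2 * q + 1) (p + 1 + q) (by omega) (-((2 * p + 1 + 1 : ℕ) : ℤ))
        (by push_cast; ring)]
      rw [co_V_hit a (2 * q + 1) (q - (p + 1)) (by omega) ((2 * p + 1 + 1 : ℕ) : ℤ)
        (by rw [Nat.cast_sub hpq]; push_cast; ring)]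
      rw [co_V_miss a (2 * p + 1 + 1) (-((2 * q + 1 : ℕ) : ℤ)), co_V_miss a (2 * p + 1 + 1)
        (((2 * q + 1 : ℕ) : ℤ))]
      · have e : a ^ (2 * p + 1 + 1) * a ^ (q - (p + 1)) = a ^ (p + 1 + q) := by
          rw [← pow_add]
          congr 1
          omega
        rw [e, pow_add a (p + 1) q]
        push_cast
        ring
      · intro l hl hc
        push_cast at hc
        omega
      · intro l hl hc
        push_cast at hc
        omega
    · rw [if_neg hpq]
      rw [co_V_hit a (2 * p + 1 + 1) (p + 1 + q) (by omega) (-((2 * q + 1 : ℕ) : ℤ))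
        (by push_cast; ring)]
      rw [co_V_hit a (2 * p + 1 + 1) (p - q) (by omega) (((2 * q + 1 : ℕ) : ℤ))
        (by rw [Nat.cast_sub (by omega)]; push_cast; ring)]
      rw [co_V_miss a (2 * q + 1) (-((2 * p + 1 + 1 : ℕ) : ℤ)), co_V_miss a (2 * q + 1)
        (((2 * p + 1 + 1 : ℕ) : ℤ))]
      · have e : a ^ (2 * q + 1) * a ^ (p - q) = a ^ (p + 1 + q) := by
          rw [← pow_add]
          congr 1
          omega
        rw [e, pow_add a (p + 1) q]
        push_cast
        ring
      · intro l hl hc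
        push_cast at hc
        omega
      · intro l hl hc
        push_cast at hc
        omega

/-- The reduced arcsine matrix after the row operations. -/
def mB (R : Type*) [CommRing R] (p q : ℕ) : R :=
  if p = 0 then 2 * (q : R) + 1 else if p ≤ q then 0 else - (4 * (p : R) + 4 * q + 2)

theorem det_mA (N : ℕ) :
    (Matrix.of fun p q : Fin (N + 1) => mA R p q).det =
      2 ^ N * (2 * (N : R) + 1) * ∏ i ∈ range N, (4 * (i : R) + 3) := by
  have h1 : (Matrix.of fun p q : Fin (N + 1) => mA R p q).det =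
      (Matrix.of fun p q : Fin (N + 1) => mB R p q).det := by
    apply Matrix.det_eq_of_forall_row_eq_smul_add_const (fun p : Fin (N + 1) =>
      if (p : ℕ) = 0 then 0 else 2) 0
    · simp
    · intro p q
      show mA R p q = mB R p q + (if (p : ℕ) = 0 then 0 else 2) * mB R ((0 : Fin (N + 1)) : ℕ) q
      unfold mA mB
      by_cases hp : (p : ℕ) = 0
      · simp [hp]
      · by_cases hpq : (p : ℕ) ≤ q
        · simp [hp, hpq]
        · simp only [hp, hpq, if_false, Fin.val_zero, if_true]
          ring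
  rw [h1, Matrix.det_succ_column _ (Fin.last N)]
  rw [Finset.sum_eq_single 0]
  · have h2 : (Matrix.of fun p q : Fin (N + 1) => mB R p q) 0 (Fin.last N) = 2 * (N : R) + 1 := by
      simp [mB]
    rw [h2]
    have h3 : ((Matrix.of fun p q : Fin (N + 1) => mB R p q).submatrix
        (Fin.succAbove 0) (Fin.succAbove (Fin.last N))).det =
        (-2) ^ N * ∏ i ∈ range N, (4 * (i : R) + 3) := by
      rw [Matrix.det_of_isLowerTriangular]
      · rw [← Finset.card_range N, ← Finset.prod_const, Finset.card_range,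
          ← Finset.prod_mul_distrib, Finset.prod_range]
        refine Finset.prod_congr rfl fun i _ => ?_
        rw [Matrix.submatrix_apply, Fin.succAbove_zero, Fin.succAbove_last, Matrix.of_apply,
          Fin.val_succ, Fin.val_castSucc]
        unfold mB
        rw [if_neg (by omega), if_neg (by omega)]
        push_cast
        ring
      · intro i j hij
        have hij' : i < j := hij
        have hlt : (i : ℕ) < j := hij'
        rw [Matrix.submatrix_apply, Fin.succAbove_zero, Fin.succAbove_last, Matrix.of_apply,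
          Fin.val_succ, Fin.val_castSucc]
        unfold mB
        rw [if_neg (by omega), if_pos (by omega)]
    rw [h3]
    have h4 : ((-1 : R)) ^ (((0 : Fin (N + 1)) : ℕ) + ((Fin.last N : Fin (N + 1)) : ℕ)) *
        (-2) ^ N = 2 ^ N := by
      rw [Fin.val_zero, zero_add, Fin.val_last, ← mul_pow]
      congr 1
      ring
    calc _ = ((-1 : R)) ^ (((0 : Fin (N + 1)) : ℕ) + ((Fin.last N : Fin (N + 1)) : ℕ)) *
        (-2) ^ N * (2 * (N : R) + 1) * ∏ i ∈ range N, (4 * (i : R) + 3) := by ring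
      _ = _ := by rw [h4]
  · intro p _ hp
    have hp' : (p : ℕ) ≠ 0 := fun h => hp (Fin.ext (by simpa using h))
    have : (Matrix.of fun p q : Fin (N + 1) => mB R p q) p (Fin.last N) = 0 := by
      rw [Matrix.of_apply]
      unfold mB
      rw [if_neg hp', if_pos (by rw [Fin.val_last]; omega)]
    rw [this]
    ring
  · intro h
    exact absurd (Finset.mem_univ _) h

/-- The arcsine Pfaffian. -/
theorem pf_arcsine [IsDomain R] (a : R) (N : ℕ) :
    pfSum (gram (La a) (tt a) (N + 1)) =
    2 ^ (N + 1) * ((N + 1).factorial : R) * (a ^ ((N + 1) * N) *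
      (2 ^ N * (2 * (N : R) + 1) * ∏ i ∈ range N, (4 * (i : R) + 3))) := by
  rw [pfSum_bip (Matrix.of fun i j : Fin (N + 1) =>
    W (La a) (tt a (2 * i)) (tt a (2 * j + 1)))]
  · congr 1
    have h1 : (Matrix.of fun i j : Fin (N + 1) =>
        W (La a) (tt a (2 * i)) (tt a (2 * j + 1))) =
        (Matrix.of fun i j : Fin (N + 1) => a ^ (i : ℕ) *
          (Matrix.of fun i j : Fin (N + 1) => a ^ (j : ℕ) *
            (Matrix.of fun p q : Fin (N + 1) => mA R p q) i j) i j) := by
      ext i j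
      exact W_La_odd a i j
    rw [h1, Matrix.det_mul_column, Matrix.det_mul_row, det_mA]
    have h2 : (∏ i : Fin (N + 1), a ^ (i : ℕ)) * (∏ i : Fin (N + 1), a ^ (i : ℕ)) =
        a ^ ((N + 1) * N) := by
      rw [← Finset.prod_mul_distrib]
      have := pow_prod a (N + 1)
      rw [Nat.add_sub_cancel] at this
      rw [← this, Finset.prod_range]
      refine Finset.prod_congr rfl fun i _ => ?_
      rw [← pow_add, two_mul]
    rw [← mul_assoc, h2]
  · intro i j
    rfl
  · intro i j
    exact W_antisymm _ _ _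
  · intro i j
    exact W_La_even a _ _ (by simp [ev])
  · intro i j
    exact W_La_even a _ _ (by simp [od])

end Q252.PF
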