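import Pool.Agent.Q252.PF4

/-!
# Motzkin, Delannoy, Schröder and Narayana numbers as moments
-/

namespace Q252.PF

open Equiv Finset Matrix Polynomial LaurentPolynomial

variable {R : Type*} [CommRing R]

theorem co_toLaurent (P : R[X]) (k : ℕ) : co (k : ℤ) (toLaurent P) = P.coeff k := by
  induction P using Polynomial.induction_on' with
  | add p q hp hq => rw [map_add, map_add, hp, hq, coeff_add]
  | monomial n r =>
    rw [Polynomial.toLaurent_C_mul_T, co_CT, coeff_monomial]
    congr 1
    apply propext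
    exact Nat.cast_inj

/-- The quadratic polynomial `(1+z)(a+z)`. -/
noncomputable def gz (a : R) : R[X] := (X + Polynomial.C 1) * (X + Polynomial.C a)

theorem xz_gz (a : R) : xz a + LaurentPolynomial.C (1 + a) = T (-1) * toLaurent (gz a) := by
  unfold xz gz
  rw [map_mul toLaurent, map_add toLaurent, map_add toLaurent, Polynomial.toLaurent_X,
    Polynomial.toLaurent_C, Polynomial.toLaurent_C, map_add, map_one]
  have e1 : (T (-1) : R[T;T⁻¹]) * T 1 = 1 := by
    rw [← T_add]; simp
  linear_combination (-(T 1 : R[T;T⁻¹]) - 1 - LaurentPolynomial.C a) * e1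

theorem phi_shift (a : R) (m : ℕ) :
    phi a ((X + Polynomial.C (1 + a)) ^ m) = toLaurent (gz a ^ m) * T (-(m : ℤ)) := by
  rw [map_pow, map_add]
  have hX : phi a X = xz a := by
    unfold phi
    rw [aeval_X]
  have hC : phi a (Polynomial.C (1 + a)) = LaurentPolynomial.C (1 + a) := by
    unfold phi
    rw [aeval_C]
    rfl
  rw [hX, hC, xz_gz, mul_pow, T_pow, map_pow]
  rw [show ((m : ℤ) * -1) = -(m : ℤ) by ring]
  ring

theorem La_shift (a : R) (m : ℕ) :
    La a ((X + Polynomial.C (1 + a)) ^ m) = (gz a ^ m).coeff m := by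
  rw [La_apply, phi_shift, co_mul_T, zero_sub, neg_neg, co_toLaurent]

theorem Ls_shift (a : R) (m : ℕ) :
    Ls a ((X + Polynomial.C (1 + a)) ^ m) =
      (gz a ^ m).coeff m - a * (gz a ^ m).coeff (m + 2) := by
  rw [Ls_apply, phi_shift]
  unfold sz
  have e1 : toLaurent (gz a ^ m) * T (-(m : ℤ)) * (T 1 - LaurentPolynomial.C a * T (-1)) =
      toLaurent (gz a ^ m) * T (-(m : ℤ) + 1) -
        toLaurent (gz a ^ m) * (LaurentPolynomial.C a * T (-(m : ℤ) + -1)) := by
    rw [T_add, T_add]
    ring
  rw [e1, map_sub, co_mul_T, co_mul_CT]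
  rw [show (1 : ℤ) - (-(m : ℤ) + 1) = (m : ℤ) by ring,
    show (1 : ℤ) - (-(m : ℤ) + -1) = ((m + 2 : ℕ) : ℤ) by push_cast; ring,
    co_toLaurent, co_toLaurent]

/-- The derivative trick. -/
theorem gz_key (a : R) (m : ℕ) :
    (gz a ^ (m + 1)).coeff (m + 2) =
      ((m : R) + 1) * ((gz a ^ m).coeff m - a * (gz a ^ m).coeff (m + 2)) := by
  have h1 : X * derivative (gz a ^ (m + 1)) - Polynomial.C ((m : R) + 1) * gz a ^ (m + 1) =
      Polynomial.C ((m : R) + 1) * (gz a ^ m * X ^ 2 - Polynomial.C a * gz a ^ m) := by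
    have hd : derivative (gz a) = 2 * X + Polynomial.C (1 + a) := by
      unfold gz
      rw [derivative_mul, derivative_add, derivative_add, derivative_X, derivative_C, derivative_C,
        map_add]
      ring
    have hg : gz a = X ^ 2 + Polynomial.C (1 + a) * X + Polynomial.C a := by
      unfold gz
      rw [map_add, map_one]
      ring
    rw [derivative_pow, hd, Nat.add_sub_cancel, pow_succ]
    have hc : Polynomial.C (((m + 1 : ℕ) : R)) = Polynomial.C ((m : R) + 1) := by push_cast; rfl
    rw [hc]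
    have : X * (Polynomial.C ((m : R) + 1) * gz a ^ m * (2 * X + Polynomial.C (1 + a))) -
        Polynomial.C ((m : R) + 1) * (gz a ^ m * gz a) =
        Polynomial.C ((m : R) + 1) * (gz a ^ m * (2 * X ^ 2 + Polynomial.C (1 + a) * X - gz a)) := by
      ring
    rw [this]
    conv_lhs => rw [show 2 * X ^ 2 + Polynomial.C (1 + a) * X - gz a = X ^ 2 - Polynomial.C a by
      rw [hg]; ring]
    ring
  have h2 := congrArg (fun P : R[X] => P.coeff (m + 2)) h1
  simp only [coeff_sub, coeff_C_mul] at h2
  rw [show m + 2 = m + 1 + 1 by ring, coeff_X_mul, coeff_derivative] at h2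
  rw [show m + 1 + 1 = m + 2 by ring, coeff_mul_X_pow] at h2
  rw [← h2]
  push_cast
  ring

/-- The right-hand coefficient. -/
theorem gz_coeff (a : R) (n : ℕ) :
    a * (gz a ^ n).coeff (n + 1) =
      ∑ r ∈ range n, ((n.choose (r + 1) : R) * (n.choose r : R)) * a ^ (r + 1) := by
  unfold gz
  rw [mul_pow, coeff_mul, Finset.Nat.sum_antidiagonal_eq_sum_range_succ_mk,
    Finset.sum_range_succ, Finset.sum_range_succ']
  simp only [coeff_X_add_C_pow]
  rw [Nat.choose_succ_self]
  simp only [Nat.sub_zero, Nat.choose_succ_self, Nat.cast_zero, mul_zero, zero_mul, add_zero,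
    one_pow, one_mul]
  rw [Finset.mul_sum]
  refine Finset.sum_congr rfl fun r hr => ?_
  rw [Finset.mem_range] at hr
  rw [show n + 1 - (r + 1) = n - r by omega, show n - (n - r) = r by omega,
    Nat.choose_symm (by omega)]
  ring

/-- The left-hand coefficient. -/
theorem gz_coeff' (a : R) (n : ℕ) :
    (gz a ^ (n + 1)).coeff n =
      ∑ r ∈ range (n + 1), (((n + 1).choose (r + 1) : R) * ((n + 1).choose r : R)) *
        a ^ (r + 1) := by
  unfold gz
  rw [mul_pow, coeff_mul, Finset.Nat.sum_antidiagonal_eq_sum_range_succ_mk]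
  simp only [coeff_X_add_C_pow]
  refine Finset.sum_congr rfl fun r hr => ?_
  rw [Finset.mem_range] at hr
  rw [show n + 1 - (n - r) = r + 1 by omega]
  rw [show (n + 1).choose (n - r) = (n + 1).choose (r + 1) from by
    rw [← Nat.choose_symm (show r + 1 ≤ n + 1 by omega)]
    congr 1
    omega]
  rw [one_pow, one_mul]
  ring

/-- Expansion at `a = 2`. -/
theorem gz_two (n r : ℕ) : (gz (2 : R) ^ n).coeff r =
    ∑ k ∈ range (n + 1), (n.choose k : R) * ((n + k).choose r : R) := by
  have h1 : gz (2 : R) ^ n =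
      ∑ k ∈ range (n + 1), Polynomial.C (n.choose k : R) * (X + Polynomial.C 1) ^ (n + k) := by
    unfold gz
    rw [mul_pow]
    have h2 : (X + Polynomial.C (2 : R)) = (X + Polynomial.C 1) + 1 := by
      rw [show (2 : R) = 1 + 1 by norm_num, map_add, map_one]
      ring
    rw [h2, add_pow (X + Polynomial.C (1 : R)) 1 n, Finset.mul_sum]
    refine Finset.sum_congr rfl fun k _ => ?_
    rw [one_pow, mul_one, map_natCast, pow_add]
    ring
  rw [h1, finsetSum_coeff]
  refine Finset.sum_congr rfl fun k _ => ?_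
  rw [coeff_C_mul, coeff_X_add_C_pow, one_pow, one_mul]

/-- Moment identity. -/
theorem moment_key (a : R) (m : ℕ) :
    ((m : R) + 1) * (a * Ls a ((X + Polynomial.C (1 + a)) ^ m)) =
      ∑ r ∈ range (m + 1), (((m + 1).choose (r + 1) : R) * ((m + 1).choose r : R)) *
        a ^ (r + 1) := by
  rw [Ls_shift, ← gz_coeff, gz_key]
  ring

end Q252.PF
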