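import Mathlib

/-!
# Functional equations for the numerators of a `[4k+1]`-sum and a `[3k+1]`-sum

For elements `q, a, b` of a commutative ring the numerators `PL`, `PR` of the two sums satisfy
first order `q ^ 2`-difference equations in `b` (telescoping).
-/

open Finset

namespace Q252.QC

variable {R : Type*} [CommRing R]

/-- `(1 - q^(2i+1)) (1 - a q^(2i+1)) (a - q^(2i+1))`. -/
def nm (q a : R) (i : ℕ) : R :=
  (1 - q ^ (2 * i + 1)) * (1 - a * q ^ (2 * i + 1)) * (a - q ^ (2 * i + 1))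

/-- `(1 - q^(2i+2)) (1 - a q^(2i+2)) (a - q^(2i+2))`. -/
def dL (q a : R) (i : ℕ) : R :=
  (1 - q ^ (2 * i + 2)) * (1 - a * q ^ (2 * i + 2)) * (a - q ^ (2 * i + 2))

/-- `q^(i+1) (1 - q^(i+1)) (1 - a q^(i+1)) (a - q^(i+1))`. -/
def dR (q a : R) (i : ℕ) : R :=
  q ^ (i + 1) * ((1 - q ^ (i + 1)) * (1 - a * q ^ (i + 1)) * (a - q ^ (i + 1)))

/-- numerator of the first sum with `m + 1` terms. -/
def PL (q a b : R) : ℕ → R
  | 0 => 1
  | m + 1 => dL q a m * (1 - b * q ^ (2 * m + 2)) * PL q a b m +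
      (∑ i ∈ range (4 * (m + 1) + 1), q ^ i) * (∏ i ∈ range (m + 1), nm q a i) *
        ∏ i ∈ range (m + 1), (b - q ^ (2 * i + 1))

/-- numerator of the second sum with `m + 1` terms. -/
def PR (q a b : R) : ℕ → R
  | 0 => 1
  | m + 1 => dR q a m * (1 - b * q ^ (2 * m + 2)) * PR q a b m +
      (∑ i ∈ range (3 * (m + 1) + 1), q ^ i) * (∏ i ∈ range (m + 1), nm q a i) *
        ∏ i ∈ range (m + 1), (b - q ^ (i + 1))

theorem geo (q : R) (k : ℕ) : (1 - q) * ∑ i ∈ range k, q ^ i = 1 - q ^ k := mul_neg_geom_sum q k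

theorem prod_shiftL (q b : R) (m : ℕ) :
    ∏ i ∈ range (m + 1), (q ^ 2 * b - q ^ (2 * i + 1)) =
      q ^ (2 * m + 1) * (q * b - 1) * ∏ i ∈ range m, (b - q ^ (2 * i + 1)) := by
  rw [prod_range_succ']
  have : ∀ i ∈ range m, (q ^ 2 * b - q ^ (2 * (i + 1) + 1)) = q ^ 2 * (b - q ^ (2 * i + 1)) := by
    intro i _
    ring
  rw [prod_congr rfl this, prod_mul_distrib, prod_const, card_range]
  ring

theorem prod_shiftR (q b : R) (m : ℕ) :
    ∏ i ∈ range (m + 1), (q ^ 2 * b - q ^ (i + 1)) =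
      q ^ (2 * m + 1) * (q * b - 1) * ∏ i ∈ range m, (b - q ^ i) := by
  rw [prod_range_succ']
  have : ∀ i ∈ range m, (q ^ 2 * b - q ^ ((i + 1) + 1)) = q ^ 2 * (b - q ^ i) := by
    intro i _
    ring
  rw [prod_congr rfl this, prod_mul_distrib, prod_const, card_range]
  ring

theorem prod_R' (q b : R) (m : ℕ) :
    (b - 1) * ∏ i ∈ range (m + 1), (b - q ^ (i + 1)) =
      (∏ i ∈ range m, (b - q ^ i)) * (b - q ^ m) * (b - q ^ (m + 1)) := by
  have h := prod_range_succ' (fun i => b - q ^ i) (m + 1)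
  rw [prod_range_succ, prod_range_succ] at h
  simp only [pow_zero] at h
  linear_combination -h

theorem FE_L (q a b : R) (m : ℕ) :
    (1 - q) * (a * (1 - b) * (1 - b * q ^ (2 * m + 2)) * PL q a b m -
      (a - q * b) * (1 - q * a * b) * PL q a (q ^ 2 * b) m) =
      - b * (∏ i ∈ range (m + 1), nm q a i) * ∏ i ∈ range m, (b - q ^ (2 * i + 1)) := by
  induction m with
  | zero =>
    simp [PL, nm]
    ring
  | succ m ih =>
    have h1 := prod_shiftL q b m
    have h2 := geo q (4 * (m + 1) + 1)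
    simp only [PL]
    rw [h1, prod_range_succ (fun i => nm q a i) (m + 1),
      prod_range_succ (fun i => b - q ^ (2 * i + 1)) m]
    have h3 : nm q a (m + 1) =
      (1 - q ^ (2 * (m + 1) + 1)) * (1 - a * q ^ (2 * (m + 1) + 1)) * (a - q ^ (2 * (m + 1) + 1)) := rfl
    have h4 : dL q a m = (1 - q ^ (2 * m + 2)) * (1 - a * q ^ (2 * m + 2)) * (a - q ^ (2 * m + 2)) := rfl
    rw [h3, h4]
    generalize (∏ i ∈ range (m + 1), nm q a i) = A at *
    generalize (∏ i ∈ range m, (b - q ^ (2 * i + 1))) = B at *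
    generalize (∑ i ∈ range (4 * (m + 1) + 1), q ^ i) = G at *
    generalize PL q a b m = P at *
    generalize PL q a (q ^ 2 * b) m = P' at *
    have e1 : q ^ (2 * m + 2) = q ^ (2 * m) * q ^ 2 := by ring
    have e2 : q ^ (2 * (m + 1) + 2) = q ^ (2 * m) * q ^ 4 := by ring
    have e3 : q ^ (2 * (m + 1) + 1) = q ^ (2 * m) * q ^ 3 := by ring
    have e4 : q ^ (2 * m + 1) = q ^ (2 * m) * q := by ring
    have e5 : q ^ (4 * (m + 1) + 1) = q ^ (2 * m) * q ^ (2 * m) * q ^ 5 := by ring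
    rw [e1] at ih
    rw [e5] at h2
    rw [e1, e2, e3, e4]
    generalize q ^ (2 * m) = Y at *
    linear_combination ((1 - Y * q ^ 2) * (1 - a * (Y * q ^ 2)) * (a - Y * q ^ 2)) *
      (1 - b * (Y * q ^ 4)) * ih + (a * (1 - b) * (1 - b * (Y * q ^ 4)) * A * B * (b - Y * q) -
        (a - q * b) * (1 - q * a * b) * A * (Y * q * (q * b - 1) * B)) * h2

theorem FE_R (q a b : R) (m : ℕ) :
    (1 - q) * (a * (1 - b) * (1 - b * q ^ (2 * m + 2)) * PR q a b m -
      (a - q * b) * (1 - q * a * b) * PR q a (q ^ 2 * b) m) =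
      - b * (∏ i ∈ range (m + 1), nm q a i) * ∏ i ∈ range m, (b - q ^ i) := by
  induction m with
  | zero =>
    simp [PR, nm]
    ring
  | succ m ih =>
    have h1 := prod_shiftR q b m
    have h1' := prod_R' q b m
    have h2 := geo q (3 * (m + 1) + 1)
    simp only [PR]
    rw [h1, prod_range_succ (fun i => nm q a i) (m + 1),
      prod_range_succ (fun i => b - q ^ i) m]
    have h3 : nm q a (m + 1) =
      (1 - q ^ (2 * (m + 1) + 1)) * (1 - a * q ^ (2 * (m + 1) + 1)) * (a - q ^ (2 * (m + 1) + 1)) := rfl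
    have h4 : dR q a m = q ^ (m + 1) * ((1 - q ^ (m + 1)) * (1 - a * q ^ (m + 1)) * (a - q ^ (m + 1))) := rfl
    rw [h3, h4]
    generalize (∏ i ∈ range (m + 1), nm q a i) = A at *
    generalize (∏ i ∈ range (m + 1), (b - q ^ (i + 1))) = C at *
    generalize (∏ i ∈ range m, (b - q ^ i)) = B at *
    generalize (∑ i ∈ range (3 * (m + 1) + 1), q ^ i) = G at *
    generalize PR q a b m = P at *
    generalize PR q a (q ^ 2 * b) m = P' at *
    have e1 : q ^ (2 * m + 2) = q ^ m * q ^ m * q ^ 2 := by ring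
    have e2 : q ^ (2 * (m + 1) + 2) = q ^ m * q ^ m * q ^ 4 := by ring
    have e3 : q ^ (2 * (m + 1) + 1) = q ^ m * q ^ m * q ^ 3 := by ring
    have e4 : q ^ (2 * m + 1) = q ^ m * q ^ m * q := by ring
    have e5 : q ^ (3 * (m + 1) + 1) = q ^ m * q ^ m * q ^ m * q ^ 4 := by ring
    have e6 : q ^ (m + 1) = q ^ m * q := by ring
    rw [e1] at ih
    rw [e5] at h2
    rw [e6] at h1'
    rw [e1, e2, e3, e4, e6]
    generalize q ^ m = Z at *
    linear_combination (Z * q * ((1 - Z * q) * (1 - a * (Z * q)) * (a - Z * q))) *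
      (1 - b * (Z * Z * q ^ 4)) * ih + (a * (1 - b) * (1 - b * (Z * Z * q ^ 4)) * A * C -
        (a - q * b) * (1 - q * a * b) * A * (Z * Z * q * (q * b - 1) * B)) * h2 -
        (1 - Z * Z * Z * q ^ 4) * a * (1 - b * (Z * Z * q ^ 4)) * A * h1'

/-! ### naturality -/

variable {S : Type*} [CommRing S] (f : R →+* S)

theorem map_nm (q a : R) (i : ℕ) : f (nm q a i) = nm (f q) (f a) i := by simp [nm]

theorem map_dL (q a : R) (i : ℕ) : f (dL q a i) = dL (f q) (f a) i := by simp [dL]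

theorem map_dR (q a : R) (i : ℕ) : f (dR q a i) = dR (f q) (f a) i := by simp [dR]

theorem map_PL (q a b : R) (m : ℕ) : f (PL q a b m) = PL (f q) (f a) (f b) m := by
  induction m with
  | zero => simp [PL]
  | succ m ih => simp [PL, ih, map_nm, map_dL, map_prod, map_sum]

theorem map_PR (q a b : R) (m : ℕ) : f (PR q a b m) = PR (f q) (f a) (f b) m := by
  induction m with
  | zero => simp [PR]
  | succ m ih => simp [PR, ih, map_nm, map_dR, map_prod, map_sum]

end Q252.QC
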