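import Pool.Agent.Q252.QC1

/-!
# The numerator of the difference of the two sums, its functional equation and its zeros
-/

open Finset

namespace Q252.QC

variable {R : Type*} [CommRing R]

def sL (q a : R) (m : ℕ) : R := ∏ i ∈ range m, dL q a i
def sR (q a : R) (m : ℕ) : R := ∏ i ∈ range (2 * m), dR q a i
def E1 (q b : R) (m : ℕ) : R := ∏ i ∈ range m, (1 - b * q ^ (2 * (m + i) + 2))
def Dn (q b : R) (k : ℕ) : R := ∏ i ∈ range k, (1 - b * q ^ (2 * i + 2))

/-- the common numerator of the difference of the two sums, `n = 2 m + 1`. -/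
def NN (q a b : R) (m : ℕ) : R :=
  sR q a m * (PL q a b m * E1 q b m) - sL q a m * PR q a b (2 * m)

/-- the boundary terms. -/
def W (q a b : R) (m : ℕ) : R :=
  (∏ i ∈ range (m + 1), nm q a i) *
    (sR q a m * ((∏ i ∈ range m, (b - q ^ (2 * i + 1))) * E1 q (q ^ 2 * b) m) -
      sL q a m * (∏ i ∈ range m, nm q a (m + 1 + i)) * ∏ i ∈ range (2 * m), (b - q ^ i))

theorem E1_shift (q b : R) (m : ℕ) :
    E1 q b m * (1 - b * q ^ (4 * m + 2)) = (1 - b * q ^ (2 * m + 2)) * E1 q (q ^ 2 * b) m := by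
  have h := prod_range_succ (fun i => 1 - b * q ^ (2 * (m + i) + 2)) m
  have h' := prod_range_succ' (fun i => 1 - b * q ^ (2 * (m + i) + 2)) m
  rw [h] at h'
  unfold E1
  have e1 : 1 - b * q ^ (4 * m + 2) = 1 - b * q ^ (2 * (m + m) + 2) := by
    congr 3; ring
  have e2 : ∀ i ∈ range m, (1 - q ^ 2 * b * q ^ (2 * (m + i) + 2)) =
      1 - b * q ^ (2 * (m + (i + 1)) + 2) := by
    intro i _
    ring
  rw [e1, prod_congr rfl e2, h']
  simp only [add_zero]
  ring

theorem FE (q a b : R) (m : ℕ) :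
    (1 - q) * (a * (1 - b) * (1 - b * q ^ (4 * m + 2)) * NN q a b m -
      (a - q * b) * (1 - q * a * b) * NN q a (q ^ 2 * b) m) = - b * W q a b m := by
  have hL := FE_L q a b m
  have hR := FE_R q a b (2 * m)
  have hE := E1_shift q b m
  have e : 2 * (2 * m) + 2 = 4 * m + 2 := by ring
  rw [e] at hR
  have hp : ∏ i ∈ range (2 * m + 1), nm q a i =
      (∏ i ∈ range (m + 1), nm q a i) * ∏ i ∈ range m, nm q a (m + 1 + i) := by
    have : 2 * m + 1 = (m + 1) + m := by ring
    rw [this, prod_range_add]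
  rw [hp] at hR
  unfold NN W
  generalize (∏ i ∈ range (m + 1), nm q a i) = A at *
  generalize (∏ i ∈ range m, nm q a (m + 1 + i)) = A' at *
  generalize (∏ i ∈ range m, (b - q ^ (2 * i + 1))) = B at *
  generalize (∏ i ∈ range (2 * m), (b - q ^ i)) = B' at *
  generalize sR q a m = r at *
  generalize sL q a m = l at *
  generalize E1 q b m = x at *
  generalize E1 q (q ^ 2 * b) m = x' at *
  generalize PL q a b m = P at *
  generalize PL q a (q ^ 2 * b) m = P' at *
  generalize PR q a b (2 * m) = Q at *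
  generalize PR q a (q ^ 2 * b) (2 * m) = Q' at *
  linear_combination r * x' * hL - l * hR + (1 - q) * a * (1 - b) * r * P * hE

theorem PL_at_q (q a : R) (m : ℕ) :
    PL q a q m = sL q a m * ∏ i ∈ range m, (1 - q ^ (2 * i + 3)) := by
  induction m with
  | zero => simp [PL, sL]
  | succ m ih =>
    have h0 : ∏ i ∈ range (m + 1), (q - q ^ (2 * i + 1)) = 0 :=
      prod_eq_zero (mem_range.2 (Nat.succ_pos m)) (by simp)
    simp only [PL, h0, ih, sL, prod_range_succ]
    ring

theorem PR_at_q (q a : R) (k : ℕ) :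
    PR q a q k = (∏ i ∈ range k, dR q a i) * ∏ i ∈ range k, (1 - q ^ (2 * i + 3)) := by
  induction k with
  | zero => simp [PR]
  | succ m ih =>
    have h0 : ∏ i ∈ range (m + 1), (q - q ^ (i + 1)) = 0 :=
      prod_eq_zero (mem_range.2 (Nat.succ_pos m)) (by simp)
    simp only [PR, h0, ih, prod_range_succ]
    ring

theorem NN_at_q (q a : R) (m : ℕ) : NN q a q m = 0 := by
  unfold NN
  rw [PL_at_q, PR_at_q]
  have h : ∏ i ∈ range (2 * m), (1 - q ^ (2 * i + 3)) =
      (∏ i ∈ range m, (1 - q ^ (2 * i + 3))) * E1 q q m := by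
    rw [two_mul, prod_range_add]
    congr 1
    unfold E1
    apply prod_congr rfl
    intro i _
    ring
  rw [h]
  unfold sR
  ring

theorem W_zero_of_lt (q a : R) (m k : ℕ) (hk : k < m) : W q a (q ^ (2 * k + 1)) m = 0 := by
  unfold W
  have h1 : ∏ i ∈ range m, (q ^ (2 * k + 1) - q ^ (2 * i + 1)) = 0 :=
    prod_eq_zero (mem_range.2 hk) (by simp)
  have h2 : ∏ i ∈ range (2 * m), (q ^ (2 * k + 1) - q ^ i) = 0 :=
    prod_eq_zero (mem_range.2 (show 2 * k + 1 < 2 * m by omega)) (by simp)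
  rw [h1, h2]
  ring

theorem W_zero_of_a (q a b : R) (m : ℕ) (h : (1 - a * q ^ (2 * m + 1)) * (a - q ^ (2 * m + 1)) = 0) :
    W q a b m = 0 := by
  unfold W
  rw [prod_range_succ]
  have : nm q a m = 0 := by
    unfold nm
    rw [mul_assoc, h, mul_zero]
  rw [this]
  ring

theorem NN_zero [IsDomain R] (q a : R) (m K : ℕ) (hq : 1 - q ≠ 0)
    (h1 : ∀ k < K, a - q ^ (2 * k + 2) ≠ 0) (h2 : ∀ k < K, 1 - a * q ^ (2 * k + 2) ≠ 0)
    (hW : ∀ k < K, W q a (q ^ (2 * k + 1)) m = 0) : NN q a (q ^ (2 * K + 1)) m = 0 := by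
  induction K with
  | zero => simpa using NN_at_q q a m
  | succ K ih =>
    have ih' := ih (fun k hk => h1 k (by omega)) (fun k hk => h2 k (by omega))
      (fun k hk => hW k (by omega))
    have hF := FE q a (q ^ (2 * K + 1)) m
    rw [ih', hW K (by omega), mul_zero, mul_zero, zero_sub] at hF
    have e : q ^ 2 * q ^ (2 * K + 1) = q ^ (2 * (K + 1) + 1) := by ring
    rw [e] at hF
    have h3 := h1 K (by omega)
    have h4 := h2 K (by omega)
    have e2 : a - q * q ^ (2 * K + 1) = a - q ^ (2 * K + 2) := by ring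
    have e3 : 1 - q * a * q ^ (2 * K + 1) = 1 - a * q ^ (2 * K + 2) := by ring
    rw [e2, e3] at hF
    by_contra hne
    exact (mul_ne_zero hq (neg_ne_zero.2 (mul_ne_zero (mul_ne_zero h3 h4) hne))) hF

/-! ### naturality -/

variable {S : Type*} [CommRing S] (f : R →+* S)

theorem map_sL (q a : R) (m : ℕ) : f (sL q a m) = sL (f q) (f a) m := by
  simp [sL, map_dL, map_prod]

theorem map_sR (q a : R) (m : ℕ) : f (sR q a m) = sR (f q) (f a) m := by
  simp [sR, map_dR, map_prod]

theorem map_E1 (q b : R) (m : ℕ) : f (E1 q b m) = E1 (f q) (f b) m := by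
  simp [E1, map_prod]

theorem map_Dn (q b : R) (m : ℕ) : f (Dn q b m) = Dn (f q) (f b) m := by
  simp [Dn, map_prod]

theorem map_NN (q a b : R) (m : ℕ) : f (NN q a b m) = NN (f q) (f a) (f b) m := by
  simp [NN, map_sL, map_sR, map_E1, map_PL, map_PR]

theorem map_W (q a b : R) (m : ℕ) : f (W q a b m) = W (f q) (f a) (f b) m := by
  simp [W, map_sL, map_sR, map_E1, map_nm, map_prod]

end Q252.QC
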