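import Pool.Agent.Q252.QC2

/-!
# The two sums in a field and their numerators
-/

open Finset

namespace Q252.QC

variable {K : Type*} [Field K]

/-- The `q`-shifted factorial `(x; q)_j`. -/
def poch (x q : K) (j : ℕ) : K := ∏ i ∈ range j, (1 - x * q ^ i)

/-- `[k] = (1 - q^k)/(1 - q)`. -/
def qn (q : K) (k : ℕ) : K := (1 - q ^ k) / (1 - q)

/-- the `j`-th term of `L_n`. -/
def tL (q a b : K) (j : ℕ) : K :=
  b ^ j * qn q (4 * j + 1) *
    (poch q (q ^ 2) j * poch (a * q) (q ^ 2) j * poch (q / a) (q ^ 2) j * poch (q / b) (q ^ 2) j) /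
    (poch (q ^ 2) (q ^ 2) j * poch (a * q ^ 2) (q ^ 2) j * poch (q ^ 2 / a) (q ^ 2) j *
      poch (b * q ^ 2) (q ^ 2) j)

/-- the `j`-th term of `R_n`. -/
def tR (q a b : K) (j : ℕ) : K :=
  b ^ j * (q ^ (j * (j + 1) / 2))⁻¹ * qn q (3 * j + 1) *
    (poch q (q ^ 2) j * poch (a * q) (q ^ 2) j * poch (q / a) (q ^ 2) j * poch (q / b) q j) /
    (poch q q j * poch (a * q) q j * poch (q / a) q j * poch (b * q ^ 2) (q ^ 2) j)

variable {q a b : K}

theorem qn_eq (hq : 1 - q ≠ 0) (k : ℕ) : qn q k = ∑ i ∈ range k, q ^ i := by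
  unfold qn
  rw [div_eq_iff hq, mul_comm]
  exact (geo q k).symm

theorem poch_b (hb : b ≠ 0) (j : ℕ) :
    b ^ j * poch (q / b) (q ^ 2) j = ∏ i ∈ range j, (b - q ^ (2 * i + 1)) := by
  unfold poch
  rw [← card_range j, ← prod_const, card_range, ← prod_mul_distrib]
  apply prod_congr rfl
  intro i _
  field_simp
  ring

theorem poch_b' (hb : b ≠ 0) (j : ℕ) :
    b ^ j * poch (q / b) q j = ∏ i ∈ range j, (b - q ^ (i + 1)) := by
  unfold poch
  rw [← card_range j, ← prod_const, card_range, ← prod_mul_distrib]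
  apply prod_congr rfl
  intro i _
  field_simp
  ring

theorem poch_num (ha : a ≠ 0) (j : ℕ) :
    poch q (q ^ 2) j * poch (a * q) (q ^ 2) j * poch (q / a) (q ^ 2) j * a ^ j =
      ∏ i ∈ range j, nm q a i := by
  unfold poch nm
  rw [← card_range j, ← prod_const, card_range, ← prod_mul_distrib, ← prod_mul_distrib,
    ← prod_mul_distrib]
  apply prod_congr rfl
  intro i _
  field_simp
  ring

theorem poch_denL (ha : a ≠ 0) (j : ℕ) :
    poch (q ^ 2) (q ^ 2) j * poch (a * q ^ 2) (q ^ 2) j * poch (q ^ 2 / a) (q ^ 2) j * a ^ j =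
      sL q a j := by
  unfold poch sL dL
  rw [← card_range j, ← prod_const, card_range, ← prod_mul_distrib, ← prod_mul_distrib,
    ← prod_mul_distrib]
  apply prod_congr rfl
  intro i _
  field_simp
  ring

theorem prod_q (j : ℕ) : ∏ i ∈ range j, q ^ (i + 1) = q ^ (j * (j + 1) / 2) := by
  rw [prod_pow_eq_pow_sum]
  congr 1
  have h := sum_range_id_mul_two (j + 1)
  rw [sum_range_succ'] at h
  simp only [add_zero, Nat.add_sub_cancel] at h
  have : j * (j + 1) = (∑ i ∈ range j, (i + 1)) * 2 := by rw [h]; ring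
  rw [this, Nat.mul_div_cancel _ (by norm_num)]

theorem poch_denR (ha : a ≠ 0) (j : ℕ) :
    q ^ (j * (j + 1) / 2) * (poch q q j * poch (a * q) q j * poch (q / a) q j) * a ^ j =
      ∏ i ∈ range j, dR q a i := by
  rw [← prod_q]
  unfold poch dR
  rw [← card_range j, ← prod_const, card_range, ← prod_mul_distrib, ← prod_mul_distrib,
    ← prod_mul_distrib, ← prod_mul_distrib]
  apply prod_congr rfl
  intro i _
  field_simp
  ring

theorem poch_Dn (j : ℕ) : poch (b * q ^ 2) (q ^ 2) j = Dn q b j := by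
  unfold poch Dn
  apply prod_congr rfl
  intro i _
  ring

/-- Nonvanishing conditions. -/
structure Good (q a b : K) : Prop where
  q0 : q ≠ 0
  a0 : a ≠ 0
  b0 : b ≠ 0
  q1 : ∀ i : ℕ, 1 - q ^ (i + 1) ≠ 0
  a1 : ∀ i : ℕ, 1 - a * q ^ i ≠ 0
  a2 : ∀ i : ℕ, a - q ^ i ≠ 0
  b1 : ∀ i : ℕ, 1 - b * q ^ i ≠ 0

theorem Good.sL (h : Good q a b) (j : ℕ) : QC.sL q a j ≠ 0 :=
  prod_ne_zero_iff.2 fun _ _ => mul_ne_zero (mul_ne_zero (h.q1 _) (h.a1 _)) (h.a2 _)

theorem Good.dR (h : Good q a b) (j : ℕ) : ∏ i ∈ range j, QC.dR q a i ≠ 0 :=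
  prod_ne_zero_iff.2 fun _ _ => mul_ne_zero (pow_ne_zero _ h.q0)
    (mul_ne_zero (mul_ne_zero (h.q1 _) (h.a1 _)) (h.a2 _))

theorem Good.Dn (h : Good q a b) (j : ℕ) : QC.Dn q b j ≠ 0 :=
  prod_ne_zero_iff.2 fun _ _ => h.b1 _

theorem Good.one (h : Good q a b) : 1 - q ≠ 0 := by simpa using h.q1 0

theorem tL_mul (h : Good q a b) (j : ℕ) :
    tL q a b j * (sL q a j * Dn q b j) =
      (∑ i ∈ range (4 * j + 1), q ^ i) * (∏ i ∈ range j, nm q a i) *
        ∏ i ∈ range j, (b - q ^ (2 * i + 1)) := by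
  have h1 := h.sL j
  have h2 := h.Dn j
  unfold tL
  rw [qn_eq h.one, ← poch_num h.a0, ← poch_b h.b0, poch_Dn (b := b) j, ← poch_denL h.a0]
  rw [← poch_denL h.a0] at h1
  have h3 : poch (q ^ 2) (q ^ 2) j * poch (a * q ^ 2) (q ^ 2) j * poch (q ^ 2 / a) (q ^ 2) j ≠ 0 :=
    left_ne_zero_of_mul h1
  generalize poch (q ^ 2) (q ^ 2) j * poch (a * q ^ 2) (q ^ 2) j * poch (q ^ 2 / a) (q ^ 2) j = X at *
  field_simp

theorem tR_mul (h : Good q a b) (j : ℕ) :
    tR q a b j * ((∏ i ∈ range j, dR q a i) * Dn q b j) =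
      (∑ i ∈ range (3 * j + 1), q ^ i) * (∏ i ∈ range j, nm q a i) *
        ∏ i ∈ range j, (b - q ^ (i + 1)) := by
  have h1 := h.dR j
  have h2 := h.Dn j
  unfold tR
  rw [qn_eq h.one, ← poch_num h.a0, ← poch_b' h.b0, poch_Dn (b := b) j, ← poch_denR h.a0]
  rw [← poch_denR h.a0] at h1
  have h3 : q ^ (j * (j + 1) / 2) * (poch q q j * poch (a * q) q j * poch (q / a) q j) ≠ 0 :=
    left_ne_zero_of_mul h1
  have h4 : poch q q j * poch (a * q) q j * poch (q / a) q j ≠ 0 := right_ne_zero_of_mul h3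
  have h5 := left_ne_zero_of_mul h3
  generalize poch q q j * poch (a * q) q j * poch (q / a) q j = X at *
  generalize q ^ (j * (j + 1) / 2) = Y at *
  field_simp

theorem sumL (h : Good q a b) (m : ℕ) :
    (∑ j ∈ range (m + 1), tL q a b j) * (sL q a m * Dn q b m) = PL q a b m := by
  induction m with
  | zero =>
    have := tL_mul h 0
    simp [sL, Dn] at this
    simp [this, PL, sL, Dn]
  | succ m ih =>
    rw [sum_range_succ, add_mul, tL_mul h (m + 1)]
    simp only [PL, ← ih]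
    have e1 : sL q a (m + 1) = sL q a m * dL q a m := prod_range_succ _ _
    have e2 : Dn q b (m + 1) = Dn q b m * (1 - b * q ^ (2 * m + 2)) := prod_range_succ _ _
    rw [e1, e2]
    ring

theorem sumR (h : Good q a b) (m : ℕ) :
    (∑ j ∈ range (m + 1), tR q a b j) * ((∏ i ∈ range m, dR q a i) * Dn q b m) = PR q a b m := by
  induction m with
  | zero =>
    have := tR_mul h 0
    simp [Dn] at this
    simp [this, PR, Dn]
  | succ m ih =>
    rw [sum_range_succ, add_mul, tR_mul h (m + 1)]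
    simp only [PR, ← ih]
    have e1 : (∏ i ∈ range (m + 1), dR q a i) = (∏ i ∈ range m, dR q a i) * dR q a m :=
      prod_range_succ _ _
    have e2 : Dn q b (m + 1) = Dn q b m * (1 - b * q ^ (2 * m + 2)) := prod_range_succ _ _
    rw [e1, e2]
    ring

theorem Dn_split {R : Type*} [CommRing R] (q b : R) (m : ℕ) :
    Dn q b (2 * m) = Dn q b m * E1 q b m := by
  unfold Dn E1
  rw [two_mul, prod_range_add]

theorem diff_eq (h : Good q a b) (m : ℕ) :
    (∑ j ∈ range (m + 1), tL q a b j - ∑ j ∈ range (2 * m + 1), tR q a b j) *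
      (sL q a m * sR q a m * Dn q b (2 * m)) = NN q a b m := by
  unfold NN
  rw [← sumL h m, ← sumR h (2 * m)]
  have e : sR q a m = ∏ i ∈ range (2 * m), dR q a i := rfl
  rw [← e, Dn_split]
  ring

end Q252.QC
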