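import Pool.Agent.Q252.QC3

/-!
# The boundary terms modulo `Φ_n`
-/

open Finset

namespace Q252.QC

variable {R : Type*} [CommRing R]

theorem prod_pairs (g : ℕ → R) (m : ℕ) :
    ∏ i ∈ range (2 * m), g i = ∏ i ∈ range m, (g (2 * i) * g (2 * i + 1)) := by
  induction m with
  | zero => simp
  | succ m ih =>
    rw [show 2 * (m + 1) = 2 * m + 1 + 1 by ring, prod_range_succ, prod_range_succ, ih,
      prod_range_succ]
    ring

theorem nm_eq_dL (q a : R) (m i : ℕ) (hq : q ^ (2 * m + 1) = 1) :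
    nm q a (m + 1 + i) = dL q a i := by
  unfold nm dL
  have e : q ^ (2 * (m + 1 + i) + 1) = q ^ (2 * i + 2) := by
    rw [show 2 * (m + 1 + i) + 1 = (2 * m + 1) + (2 * i + 2) by ring, pow_add, hq, one_mul]
  rw [e]

theorem prod_nm_shift (q a : R) (m : ℕ) (hq : q ^ (2 * m + 1) = 1) :
    ∏ i ∈ range m, nm q a (m + 1 + i) = sL q a m :=
  prod_congr rfl fun i _ => nm_eq_dL q a m i hq

theorem sR_root (q a : R) (m : ℕ) (hq : q ^ (2 * m + 1) = 1) :
    sR q a m = (∏ i ∈ range m, nm q a i) * sL q a m := by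
  unfold sR sL
  have h1 : ∏ i ∈ range (2 * m), dR q a i =
      (∏ i ∈ range (2 * m), q ^ (i + 1)) * ∏ i ∈ range (2 * m),
        ((1 - q ^ (i + 1)) * (1 - a * q ^ (i + 1)) * (a - q ^ (i + 1))) := by
    rw [← prod_mul_distrib]
    rfl
  have h2 : ∏ i ∈ range (2 * m), q ^ (i + 1) = 1 := by
    rw [prod_pow_eq_pow_sum]
    have h := sum_range_id_mul_two (2 * m + 1)
    rw [sum_range_succ'] at h
    simp only [add_zero, Nat.add_sub_cancel] at h
    have : ∑ i ∈ range (2 * m), (i + 1) = (2 * m + 1) * m := by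
      have : (∑ i ∈ range (2 * m), (i + 1)) * 2 = ((2 * m + 1) * m) * 2 := by rw [h]; ring
      omega
    rw [this, pow_mul, hq, one_pow]
  rw [h1, h2, one_mul, prod_pairs, ← prod_mul_distrib]
  apply prod_congr rfl
  intro i _
  unfold nm dL
  ring

theorem E1_root (q b : R) (m : ℕ) (hq : q ^ (2 * m + 1) = 1) :
    E1 q (q ^ 2 * b) m = ∏ i ∈ range m, (1 - b * q ^ (2 * i + 3)) := by
  unfold E1
  apply prod_congr rfl
  intro i _
  have e : q ^ 2 * b * q ^ (2 * (m + i) + 2) = b * (q ^ (2 * m + 1) * q ^ (2 * i + 3)) := by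
    rw [← pow_add]
    ring
  rw [e, hq, one_mul]

theorem term_root (q a b : R) (m i : ℕ) (hi : i < m) (hq : q ^ (2 * m + 1) = 1) :
    nm q a i * (1 - b * q ^ (2 * i + 3)) =
      q ^ (8 * i + 6) * (dL q a (m - 1 - i) * (b - q ^ (2 * (m - 1 - i)))) := by
  obtain ⟨k, hk⟩ : ∃ k, m = i + 1 + k := ⟨m - (i + 1), by omega⟩
  have e : m - 1 - i = k := by omega
  rw [e]
  unfold nm dL
  have h1 : q ^ (2 * i + 1) * q ^ (2 * k + 2) = 1 := by
    rw [← pow_add, ← hq]; congr 1; omega
  have h2 : q ^ (2 * i + 3) * q ^ (2 * k) = 1 := by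
    rw [← pow_add, ← hq]; congr 1; omega
  have h3 : q ^ (8 * i + 6) = (q ^ (2 * i + 1)) ^ 3 * q ^ (2 * i + 3) := by
    rw [← pow_mul, ← pow_add]; congr 1; ring
  rw [h3]
  generalize q ^ (2 * i + 1) = x at *
  generalize q ^ (2 * k + 2) = y at *
  generalize q ^ (2 * i + 3) = z at *
  generalize q ^ (2 * k) = w at *
  have h4 : x ^ 3 * ((1 - y) * (1 - a * y) * (a - y)) = -((1 - x) * (1 - a * x) * (a - x)) := by
    have e1 : x ^ 3 * ((1 - y) * (1 - a * y) * (a - y)) =
      (x - x * y) * (x - a * (x * y)) * (a * x - x * y) := by ring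
    rw [e1, h1]; ring
  have h5 : z * (b - w) = -(1 - b * z) := by
    have e1 : z * (b - w) = b * z - z * w := by ring
    rw [e1, h2]; ring
  calc _ = (-((1 - x) * (1 - a * x) * (a - x))) * (-(1 - b * z)) := by ring
    _ = _ := by rw [← h4, ← h5]; ring

theorem bracket_root (q a b : R) (m : ℕ) (hq : q ^ (2 * m + 1) = 1) :
    sR q a m * ((∏ i ∈ range m, (b - q ^ (2 * i + 1))) * E1 q (q ^ 2 * b) m) =
      sL q a m * (∏ i ∈ range m, nm q a (m + 1 + i)) * ∏ i ∈ range (2 * m), (b - q ^ i) := by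
  rw [prod_nm_shift q a m hq, sR_root q a m hq, E1_root q b m hq, prod_pairs, prod_mul_distrib]
  have h := prod_congr (rfl : range m = range m) fun i hi =>
    term_root q a b m i (mem_range.1 hi) hq
  rw [prod_mul_distrib, prod_mul_distrib] at h
  have h1 : ∏ i ∈ range m, q ^ (8 * i + 6) = 1 := by
    rw [prod_pow_eq_pow_sum]
    have h := sum_range_id_mul_two m
    have : ∑ i ∈ range m, (8 * i + 6) = (2 * m + 1) * (2 * m) := by
      rw [sum_add_distrib, ← mul_sum]
      simp only [sum_const, card_range, smul_eq_mul]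
      rcases m with _ | m
      · simp
      · simp only [Nat.add_sub_cancel] at h
        nlinarith [h]
    rw [this, pow_mul, hq, one_pow]
  rw [h1, one_mul, prod_mul_distrib,
    prod_range_reflect (fun i => dL q a i) m,
    prod_range_reflect (fun i => b - q ^ (2 * i)) m] at h
  have h' : (∏ i ∈ range m, nm q a i) * ∏ i ∈ range m, (1 - b * q ^ (2 * i + 3)) =
      sL q a m * ∏ i ∈ range m, (b - q ^ (2 * i)) := h
  linear_combination sL q a m * (∏ i ∈ range m, (b - q ^ (2 * i + 1))) * h'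

end Q252.QC
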