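import Pool.Agent.Q252.QC4

/-!
# Divisibility by cyclotomic polynomials
-/

open Finset Polynomial

namespace Q252.QC

theorem iter_rel {R : Type*} [CommRing R] (c : R) (u v p : R[X])
    (h : u * p = v * p.comp (C c * X)) (k : ℕ) :
    (∏ j ∈ range k, u.comp (C (c ^ j) * X)) * p =
      (∏ j ∈ range k, v.comp (C (c ^ j) * X)) * p.comp (C (c ^ k) * X) := by
  induction k with
  | zero => simp
  | succ k ih =>
    have h2 := congrArg (fun r => r.comp (C (c ^ k) * X)) h
    simp only [mul_comp, comp_assoc, C_comp, X_comp] at h2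
    have e : C c * (C (c ^ k) * X) = C (c ^ (k + 1)) * X := by
      rw [pow_succ', C_mul, mul_assoc]
    rw [e] at h2
    rw [prod_range_succ, prod_range_succ]
    linear_combination (u.comp (C (c ^ k) * X)) * ih +
      (∏ j ∈ range k, v.comp (C (c ^ j) * X)) * h2

theorem residue_zero {R : Type*} [CommRing R] [IsDomain R] (c : R) (d : ℕ) (hd : 0 < d)
    (hc : c ^ d = 1) (u v p : R[X]) (h : u * p = v * p.comp (C c * X))
    (hu : u.eval 1 = 0) (hv : ∀ j : ℕ, v.eval (c ^ j) ≠ 0) : p = 0 := by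
  have h1 := iter_rel c u v p h d
  rw [hc, C_1, one_mul, comp_X] at h1
  by_contra hp
  have h2 := mul_right_cancel₀ hp h1
  have h3 := congrArg (eval 1) h2
  rw [eval_prod, eval_prod] at h3
  have h4 : ∏ j ∈ range d, eval 1 (u.comp (C (c ^ j) * X)) = 0 := by
    apply prod_eq_zero (mem_range.2 hd)
    simp [hu]
  rw [h4] at h3
  have h5 : ∏ j ∈ range d, eval 1 (v.comp (C (c ^ j) * X)) ≠ 0 := by
    apply prod_ne_zero_iff.2
    intro j _
    simpa [eval_comp] using hv j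
  exact h5 h3.symm

/-- `ℚ[q][a][b]`. -/
abbrev P3 : Type := Polynomial (Polynomial (Polynomial ℚ))

noncomputable def vq : P3 := C (C X)
noncomputable def va : P3 := C X
noncomputable def vb : P3 := X

/-- evaluation of `q` at `ζ`. -/
noncomputable def phi (ζ : ℂ) : P3 →+* ℂ[X][X] :=
  mapRingHom (mapRingHom (aeval ζ : ℚ[X] →ₐ[ℚ] ℂ).toRingHom)

@[simp] theorem phi_q (ζ : ℂ) : phi ζ vq = C (C ζ) := by simp [phi, vq]
@[simp] theorem phi_a (ζ : ℂ) : phi ζ va = C X := by simp [phi, va]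
@[simp] theorem phi_b (ζ : ℂ) : phi ζ vb = X := by simp [phi, vb]

theorem phi_sub (ζ : ℂ) (x y : P3) : phi ζ (x - y) = phi ζ x - phi ζ y := map_sub (phi ζ) _ _
theorem phi_mul (ζ : ℂ) (x y : P3) : phi ζ (x * y) = phi ζ x * phi ζ y := map_mul (phi ζ) _ _
theorem phi_pow (ζ : ℂ) (x : P3) (k : ℕ) : phi ζ (x ^ k) = phi ζ x ^ k := map_pow (phi ζ) _ _
theorem phi_one (ζ : ℂ) : phi ζ 1 = 1 := map_one (phi ζ)

theorem ker_phi {ζ : ℂ} {d : ℕ} (hζ : IsPrimitiveRoot ζ d) (hd : 0 < d) (P : P3)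
    (h : phi ζ P = 0) : (C (C (cyclotomic d ℚ)) : P3) ∣ P := by
  rw [C_dvd_iff_dvd_coeff]
  intro i
  rw [C_dvd_iff_dvd_coeff]
  intro j
  have h1 : aeval ζ ((P.coeff i).coeff j) = 0 := by
    have := congrArg (fun r => (r.coeff i).coeff j) h
    simpa [phi] using this
  rw [cyclotomic_eq_minpoly_rat hζ hd]
  exact minpoly.dvd ℚ ζ h1

/-- the substitution `b ↦ q ^ 2 b`. -/
noncomputable def sg : P3 →+* P3 := compRingHom (vq ^ 2 * X)

@[simp] theorem sg_q : sg vq = vq := by simp [sg, vq]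
@[simp] theorem sg_a : sg va = va := by simp [sg, va]
@[simp] theorem sg_b : sg vb = vq ^ 2 * vb := by simp [sg, vb]
@[simp] theorem sg_C (x : ℚ[X][X]) : sg (C x) = C x := by simp [sg]

theorem phi_sg (ζ : ℂ) (P : P3) : phi ζ (sg P) = (phi ζ P).comp (C (C ζ ^ 2) * X) := by
  unfold sg phi
  simp only [coe_compRingHom_apply, coe_mapRingHom]
  rw [Polynomial.map_comp]
  congr 1
  simp [vq]

theorem descend {ζ : ℂ} {d : ℕ} (m : ℕ) (hζ : IsPrimitiveRoot ζ d) (hd : 1 < d) (k : ℕ) :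
    ∀ P : P3, (C (C (cyclotomic d ℚ)) : P3) ^ k ∣
      (1 - vq) * (va * (1 - vb) * (1 - vb * vq ^ (4 * m + 2)) * P -
        (va - vq * vb) * (1 - vq * va * vb) * sg P) →
      (C (C (cyclotomic d ℚ)) : P3) ^ k ∣ P := by
  induction k with
  | zero => intro P _; simp
  | succ k ih =>
    intro P h
    obtain ⟨P', hP'⟩ := ih P ((pow_dvd_pow _ (Nat.le_succ k)).trans h)
    have hΦ : (C (C (cyclotomic d ℚ)) : P3) ≠ 0 := by
      simp [cyclotomic_ne_zero]
    have h1 : (C (C (cyclotomic d ℚ)) : P3) ∣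
        (1 - vq) * (va * (1 - vb) * (1 - vb * vq ^ (4 * m + 2)) * P' -
        (va - vq * vb) * (1 - vq * va * vb) * sg P') := by
      have e : (1 - vq) * (va * (1 - vb) * (1 - vb * vq ^ (4 * m + 2)) * P -
        (va - vq * vb) * (1 - vq * va * vb) * sg P) =
        (C (C (cyclotomic d ℚ)) : P3) ^ k *
        ((1 - vq) * (va * (1 - vb) * (1 - vb * vq ^ (4 * m + 2)) * P' -
        (va - vq * vb) * (1 - vq * va * vb) * sg P')) := by
        rw [hP', map_mul, map_pow, sg_C]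
        ring
      rw [e, pow_succ] at h
      exact (mul_dvd_mul_iff_left (pow_ne_zero k hΦ)).1 h
    obtain ⟨Z, hZ⟩ := h1
    have h2 := congrArg (phi ζ) hZ
    have h3 : phi ζ (C (C (cyclotomic d ℚ)) : P3) = 0 := by
      have hz : aeval ζ (cyclotomic d ℚ) = 0 := by
        rw [cyclotomic_eq_minpoly_rat hζ (by omega)]
        exact minpoly.aeval ℚ ζ
      simp [phi, hz]
    simp only [phi_mul, h3, zero_mul, phi_sub, phi_one, phi_q, phi_a, phi_b, phi_pow, phi_sg] at h2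
    have hζ1 : ζ ≠ 1 := fun h => by
      have := hζ.eq_orderOf
      rw [h, orderOf_one] at this
      omega
    have h4 : (1 - C (C ζ) : ℂ[X][X]) ≠ 0 := by
      intro h
      have : (C (C (1 - ζ)) : ℂ[X][X]) = 0 := by simpa using h
      rw [C_eq_zero, C_eq_zero] at this
      exact hζ1 (by linear_combination -this)
    have h5 := (mul_eq_zero.1 h2).resolve_left h4
    have h6 : phi ζ P' = 0 := by
      refine residue_zero (C ζ ^ 2 : ℂ[X]) d (by omega) ?_
        (C X * (1 - X) * (1 - X * C (C ζ) ^ (4 * m + 2)))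
        ((C X - C (C ζ) * X) * (1 - C (C ζ) * C X * X)) (phi ζ P') (sub_eq_zero.1 h5) ?_ ?_
      · rw [← C_pow, ← C_pow, ← pow_mul, mul_comm, pow_mul, hζ.pow_eq_one, one_pow, C_1]
      · simp
      · intro j
        simp only [eval_mul, eval_sub, eval_C, eval_X, eval_one]
        apply mul_ne_zero
        · have e : (X : ℂ[X]) - C ζ * (C ζ ^ 2) ^ j = X - C (ζ * (ζ ^ 2) ^ j) := by simp
          rw [e]
          exact X_sub_C_ne_zero _
        · intro h
          have := congrArg (eval 0) h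
          simp at this
    obtain ⟨Y, hY⟩ := ker_phi hζ (by omega) P' h6
    refine ⟨Y, ?_⟩
    rw [hP', hY]
    ring

theorem one_sub_pow {ζ : ℂ} {d : ℕ} (hζ : IsPrimitiveRoot ζ d) (hd : 0 < d) (e : ℕ)
    (he : 0 < e) : ∃ r : ℚ[X], (1 - X ^ e : ℚ[X]) =
      (cyclotomic d ℚ) ^ (if d ∣ e then 1 else 0) * r ∧ aeval ζ r ≠ 0 := by
  by_cases hde : d ∣ e
  · have h1 : cyclotomic d ℚ ∣ (1 - X ^ e : ℚ[X]) := by
      obtain ⟨k, rfl⟩ := hde
      have h1 := cyclotomic.dvd_X_pow_sub_one d ℚ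
      have h2 : (X ^ d - 1 : ℚ[X]) ∣ X ^ (d * k) - 1 := by
        have := sub_dvd_pow_sub_pow (X ^ d : ℚ[X]) 1 k
        rwa [one_pow, ← pow_mul] at this
      have h3 := (h1.trans h2)
      rw [← dvd_neg]
      simpa using h3
    obtain ⟨r, hr⟩ := h1
    refine ⟨r, by rw [if_pos hde, pow_one, hr], ?_⟩
    intro h0
    have h2 := congrArg (fun p => aeval ζ (derivative p)) hr
    have hz : aeval ζ (cyclotomic d ℚ) = 0 := by
      rw [cyclotomic_eq_minpoly_rat hζ hd]
      exact minpoly.aeval ℚ ζ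
    have hL : derivative (1 - X ^ e : ℚ[X]) = -(C (e : ℚ) * X ^ (e - 1)) := by
      rw [derivative_sub, derivative_one, derivative_X_pow, zero_sub]
    simp only [hL, derivative_mul, map_add, map_mul, map_neg, map_pow, aeval_X, hz, h0, mul_zero,
      zero_mul, add_zero, aeval_C] at h2
    have h3 := neg_eq_zero.1 h2
    rcases mul_eq_zero.1 h3 with h4 | h4
    · have h5 : e = 0 := by simpa using h4
      omega
    · exact (hζ.ne_zero (by omega)) (eq_zero_of_pow_eq_zero h4)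
  · refine ⟨1 - X ^ e, by rw [if_neg hde, pow_zero, one_mul], ?_⟩
    simp only [map_sub, map_one, map_pow, aeval_X]
    intro h
    apply hde
    rw [← hζ.pow_eq_one_iff_dvd]
    linear_combination -h

/-- number of the `i < k` with `d ∣ f i`. -/
def cnt (d : ℕ) (f : ℕ → ℕ) (k : ℕ) : ℕ := ∑ i ∈ range k, if d ∣ f i then 1 else 0

theorem prod_cyc {ζ : ℂ} {d : ℕ} (hζ : IsPrimitiveRoot ζ d) (hd : 0 < d) (f : ℕ → ℕ)
    (hf : ∀ i, 0 < f i) (k : ℕ) :
    ∃ r : ℚ[X], ∏ i ∈ range k, (1 - X ^ f i : ℚ[X]) = (cyclotomic d ℚ) ^ (cnt d f k) * r ∧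
      aeval ζ r ≠ 0 := by
  induction k with
  | zero => exact ⟨1, by simp [cnt], by simp⟩
  | succ k ih =>
    obtain ⟨r, hr, hr'⟩ := ih
    obtain ⟨s, hs, hs'⟩ := one_sub_pow hζ hd (f k) (hf k)
    refine ⟨r * s, ?_, by rw [map_mul]; exact mul_ne_zero hr' hs'⟩
    rw [prod_range_succ, hr, hs]
    have : cnt d f (k + 1) = cnt d f k + if d ∣ f k then 1 else 0 := sum_range_succ _ _
    rw [this, pow_add]
    ring

end Q252.QC
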