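import Pool.Agent.Q252.QC5

/-!
# Exact powers of cyclotomic polynomials in the denominators and in the boundary terms
-/

open Finset Polynomial

namespace Q252.QC

theorem W_dvd {R : Type*} [CommRing R] (p q a b : R) (m x y z w : ℕ)
    (h1 : p ^ x ∣ ∏ i ∈ range (m + 1), nm q a i) (h2 : p ^ y ∣ sR q a m)
    (h3 : p ^ z ∣ sL q a m) (h4 : p ^ w ∣ ∏ i ∈ range m, nm q a (m + 1 + i)) (hy : y = z + w) :
    p ^ (x + y) ∣ W q a b m := by
  unfold W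
  rw [pow_add]
  apply mul_dvd_mul h1
  apply dvd_sub
  · exact dvd_mul_of_dvd_left h2 _
  · apply dvd_mul_of_dvd_left
    rw [hy, pow_add]
    exact mul_dvd_mul h3 h4

theorem W_dvd' {R : Type*} [CommRing R] (p q a b : R) (m : ℕ)
    (h1 : p ∣ ∏ i ∈ range (m + 1), nm q a i)
    (h2 : p ∣ sR q a m * ((∏ i ∈ range m, (b - q ^ (2 * i + 1))) * E1 q (q ^ 2 * b) m) -
      sL q a m * (∏ i ∈ range m, nm q a (m + 1 + i)) * ∏ i ∈ range (2 * m), (b - q ^ i)) :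
    p ^ 2 ∣ W q a b m := by
  unfold W
  rw [pow_two]
  exact mul_dvd_mul h1 h2

theorem dvd_neg_mul {R : Type*} [CommRing R] (p x y : R) (h : p ∣ y) : p ∣ -x * y :=
  dvd_mul_of_dvd_right h _

theorem dvd_of_eq {R : Type*} [CommRing R] (p x y : R) (h : y = p * x) : p ∣ y := ⟨x, h⟩

/-- `Φ_d(q)` in `ℚ[q][a][b]`. -/
noncomputable def Ph (d : ℕ) : P3 := C (C (cyclotomic d ℚ))

theorem CC_prod (f : ℕ → ℕ) (k : ℕ) :
    ∏ i ∈ range k, (1 - vq ^ f i) = (C (C (∏ i ∈ range k, (1 - X ^ f i : ℚ[X]))) : P3) := by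
  rw [map_prod, map_prod]
  apply prod_congr rfl
  intro i _
  simp [vq]

theorem prod_vq {ζ : ℂ} {d : ℕ} (hζ : IsPrimitiveRoot ζ d) (hd : 0 < d) (f : ℕ → ℕ)
    (hf : ∀ i, 0 < f i) (k : ℕ) :
    ∃ r : P3, ∏ i ∈ range k, (1 - vq ^ f i) = Ph d ^ (cnt d f k) * r ∧ phi ζ r ≠ 0 := by
  obtain ⟨r, hr, hr'⟩ := prod_cyc hζ hd f hf k
  refine ⟨C (C r), ?_, ?_⟩
  · rw [CC_prod, hr, C_mul, C_mul, C_pow, C_pow]
    rfl
  · intro h
    apply hr'
    have : phi ζ (C (C r) : P3) = C (C (aeval ζ r)) := by simp [phi]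
    rw [this] at h
    simpa using h

theorem phi_u1 {ζ : ℂ} (e : ℕ) : phi ζ (1 - va * vq ^ e) ≠ 0 := by
  rw [phi_sub, phi_one, phi_mul, phi_pow, phi_a, phi_q]
  intro h
  have := congrArg (fun p => eval 0 (eval 0 p)) h
  simp at this

theorem phi_u2 {ζ : ℂ} (e : ℕ) : phi ζ (va - vq ^ e) ≠ 0 := by
  rw [phi_sub, phi_pow, phi_a, phi_q]
  intro h
  have e1 : (C X - C (C ζ) ^ e : ℂ[X][X]) = C (X - C (ζ ^ e)) := by simp
  rw [e1, C_eq_zero] at h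
  exact X_sub_C_ne_zero _ h

theorem phi_u3 {ζ : ℂ} (e : ℕ) : phi ζ (1 - vb * vq ^ e) ≠ 0 := by
  rw [phi_sub, phi_one, phi_mul, phi_pow, phi_b, phi_q]
  intro h
  have := congrArg (fun p => eval 0 (eval 0 p)) h
  simp at this

theorem phi_u4 {ζ : ℂ} (hζ : ζ ≠ 0) (e : ℕ) : phi ζ (vq ^ e) ≠ 0 := by
  rw [phi_pow, phi_q]
  simp [hζ]

theorem phi_prod (ζ : ℂ) (g : ℕ → P3) (k : ℕ) :
    phi ζ (∏ i ∈ range k, g i) = ∏ i ∈ range k, phi ζ (g i) := map_prod (phi ζ) _ _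

theorem sL_val {ζ : ℂ} {d : ℕ} (hζ : IsPrimitiveRoot ζ d) (hd : 0 < d) (m : ℕ) :
    ∃ r : P3, sL vq va m = Ph d ^ (cnt d (fun i => 2 * i + 2) m) * r ∧ phi ζ r ≠ 0 := by
  obtain ⟨r, hr, hr'⟩ := prod_vq hζ hd (fun i => 2 * i + 2) (fun i => by positivity) m
  refine ⟨r * ∏ i ∈ range m, ((1 - va * vq ^ (2 * i + 2)) * (va - vq ^ (2 * i + 2))), ?_, ?_⟩
  · rw [← mul_assoc, ← hr, ← prod_mul_distrib]
    unfold sL dL
    apply prod_congr rfl
    intro i _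
    ring
  · rw [phi_mul, phi_prod]
    apply mul_ne_zero hr'
    apply prod_ne_zero_iff.2
    intro i _
    rw [phi_mul]
    exact mul_ne_zero (phi_u1 _) (phi_u2 _)

theorem sR_val {ζ : ℂ} {d : ℕ} (hζ : IsPrimitiveRoot ζ d) (hd : 0 < d) (m : ℕ) :
    ∃ r : P3, sR vq va m = Ph d ^ (cnt d (fun i => i + 1) (2 * m)) * r ∧ phi ζ r ≠ 0 := by
  obtain ⟨r, hr, hr'⟩ := prod_vq hζ hd (fun i => i + 1) (fun i => by positivity) (2 * m)
  refine ⟨r * ∏ i ∈ range (2 * m), (vq ^ (i + 1) * ((1 - va * vq ^ (i + 1)) *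
    (va - vq ^ (i + 1)))), ?_, ?_⟩
  · rw [← mul_assoc, ← hr, ← prod_mul_distrib]
    unfold sR dR
    apply prod_congr rfl
    intro i _
    ring
  · rw [phi_mul, phi_prod]
    apply mul_ne_zero hr'
    apply prod_ne_zero_iff.2
    intro i _
    rw [phi_mul, phi_mul]
    exact mul_ne_zero (phi_u4 (hζ.ne_zero (by omega)) _) (mul_ne_zero (phi_u1 _) (phi_u2 _))

theorem Dn_phi {ζ : ℂ} (k : ℕ) : phi ζ (Dn vq vb k) ≠ 0 := by
  unfold Dn
  rw [phi_prod]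
  exact prod_ne_zero_iff.2 fun i _ => phi_u3 _

theorem nm_dvd {ζ : ℂ} {d : ℕ} (hζ : IsPrimitiveRoot ζ d) (hd : 0 < d) (g : ℕ → ℕ) (k : ℕ) :
    Ph d ^ (cnt d (fun i => 2 * g i + 1) k) ∣ ∏ i ∈ range k, nm vq va (g i) := by
  obtain ⟨r, hr, hr'⟩ := prod_vq hζ hd (fun i => 2 * g i + 1) (fun i => by positivity) k
  have : (∏ i ∈ range k, nm vq va (g i)) = (∏ i ∈ range k, (1 - vq ^ (2 * g i + 1))) *
      ∏ i ∈ range k, ((1 - va * vq ^ (2 * g i + 1)) * (va - vq ^ (2 * g i + 1))) := by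
    rw [← prod_mul_distrib]
    apply prod_congr rfl
    intro i _
    unfold nm
    ring
  rw [this, hr, mul_assoc]
  exact dvd_mul_right _ _

theorem cnt_reflect (d m : ℕ) (hd : d ∣ 2 * m + 1) :
    cnt d (fun i => 2 * i + 1) m = cnt d (fun i => 2 * i + 2) m := by
  unfold cnt
  rw [← sum_range_reflect]
  apply sum_congr rfl
  intro i hi
  have hi := mem_range.1 hi
  have e : 2 * (m - 1 - i) + 1 + (2 * i + 2) = 2 * m + 1 := by omega
  have : d ∣ 2 * (m - 1 - i) + 1 ↔ d ∣ 2 * i + 2 := by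
    rw [← e] at hd
    constructor
    · intro h; exact (Nat.dvd_add_right h).1 hd
    · intro h; exact (Nat.dvd_add_left h).1 hd
  simp only [this]

theorem cnt_pairs (d m : ℕ) :
    cnt d (fun i => i + 1) (2 * m) = cnt d (fun i => 2 * i + 1) m + cnt d (fun i => 2 * i + 2) m := by
  induction m with
  | zero => simp [cnt]
  | succ m ih =>
    have e1 : cnt d (fun i => i + 1) (2 * (m + 1)) = cnt d (fun i => i + 1) (2 * m) +
      (if d ∣ 2 * m + 1 then 1 else 0) + (if d ∣ 2 * m + 1 + 1 then 1 else 0) := by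
      unfold cnt
      rw [show 2 * (m + 1) = 2 * m + 1 + 1 by ring, sum_range_succ, sum_range_succ]
    have e2 : cnt d (fun i => 2 * i + 1) (m + 1) = cnt d (fun i => 2 * i + 1) m +
      (if d ∣ 2 * m + 1 then 1 else 0) := sum_range_succ _ _
    have e3 : cnt d (fun i => 2 * i + 2) (m + 1) = cnt d (fun i => 2 * i + 2) m +
      (if d ∣ 2 * m + 2 then 1 else 0) := sum_range_succ _ _
    rw [e1, e2, e3, ih]
    ring

theorem cnt_shift (d m : ℕ) (hd : d ∣ 2 * m + 1) :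
    cnt d (fun i => 2 * (m + 1 + i) + 1) m = cnt d (fun i => 2 * i + 2) m := by
  unfold cnt
  apply sum_congr rfl
  intro i _
  have e : 2 * (m + 1 + i) + 1 = (2 * m + 1) + (2 * i + 2) := by ring
  have : d ∣ 2 * (m + 1 + i) + 1 ↔ d ∣ 2 * i + 2 := by
    rw [e]
    exact Nat.dvd_add_right hd
  simp only [this]

/-- the denominator of the difference of the two sums. -/
noncomputable def SD (m : ℕ) : P3 := sL vq va m * sR vq va m * Dn vq vb (2 * m)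

theorem SD_val {ζ : ℂ} {d : ℕ} (hζ : IsPrimitiveRoot ζ d) (hd : 0 < d) (m : ℕ)
    (hdn : d ∣ 2 * m + 1) :
    ∃ r : P3, SD m = Ph d ^ (3 * cnt d (fun i => 2 * i + 2) m) * r ∧ phi ζ r ≠ 0 := by
  obtain ⟨r1, h1, h1'⟩ := sL_val hζ hd m
  obtain ⟨r2, h2, h2'⟩ := sR_val hζ hd m
  rw [cnt_pairs, cnt_reflect d m hdn] at h2
  refine ⟨r1 * r2 * Dn vq vb (2 * m), ?_, ?_⟩
  · unfold SD
    rw [h1, h2]
    ring
  · rw [phi_mul, phi_mul]
    exact mul_ne_zero (mul_ne_zero h1' h2') (Dn_phi _)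

theorem W_val {ζ : ℂ} {d : ℕ} (hζ : IsPrimitiveRoot ζ d) (hd : 0 < d) (m : ℕ)
    (hdn : d ∣ 2 * m + 1) :
    Ph d ^ (3 * cnt d (fun i => 2 * i + 2) m + 1) ∣ W vq va vb m := by
  have h1 := nm_dvd hζ hd (fun i => i) (m + 1)
  have e1 : cnt d (fun i => 2 * i + 1) (m + 1) = cnt d (fun i => 2 * i + 2) m + 1 := by
    rw [← cnt_reflect d m hdn]
    unfold cnt
    rw [sum_range_succ, if_pos hdn]
  rw [e1] at h1
  obtain ⟨r2, h2, _⟩ := sR_val hζ hd m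
  rw [cnt_pairs, cnt_reflect d m hdn] at h2
  obtain ⟨r3, h3, _⟩ := sL_val hζ hd m
  have h4 := nm_dvd hζ hd (fun i => m + 1 + i) m
  rw [cnt_shift d m hdn] at h4
  have e2 : 3 * cnt d (fun i => 2 * i + 2) m + 1 = (cnt d (fun i => 2 * i + 2) m + 1) +
    (cnt d (fun i => 2 * i + 2) m + cnt d (fun i => 2 * i + 2) m) := by ring
  rw [e2]
  exact W_dvd (Ph d) vq va vb m _ _ _ _ h1 (dvd_of_eq _ _ _ h2) (dvd_of_eq _ _ _ h3) h4 rfl

theorem cnt_self (m : ℕ) (hm : 0 < m) : cnt (2 * m + 1) (fun i => 2 * i + 2) m = 0 := by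
  unfold cnt
  apply sum_eq_zero
  intro i hi
  have hi := mem_range.1 hi
  rw [if_neg]
  rintro ⟨k, hk⟩
  simp only at hk
  rcases k with _ | _ | k
  · omega
  · omega
  · nlinarith

theorem W_val2 {ζ : ℂ} (m : ℕ) (hm : 0 < m) (hζ : IsPrimitiveRoot ζ (2 * m + 1)) :
    Ph (2 * m + 1) ^ 2 ∣ W vq va vb m := by
  have h1 := nm_dvd hζ (by omega) (fun i => i) (m + 1)
  have e1 : cnt (2 * m + 1) (fun i => 2 * i + 1) (m + 1) = 1 := by
    have : cnt (2 * m + 1) (fun i => 2 * i + 1) (m + 1) =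
      cnt (2 * m + 1) (fun i => 2 * i + 1) m + (if 2 * m + 1 ∣ 2 * m + 1 then 1 else 0) :=
      sum_range_succ _ _
    rw [this, cnt_reflect _ m dvd_rfl, cnt_self m hm, if_pos dvd_rfl]
  rw [e1, pow_one] at h1
  refine W_dvd' (Ph (2 * m + 1)) vq va vb m h1 ?_
  apply ker_phi hζ (by omega)
  rw [phi_sub, sub_eq_zero]
  have hb := bracket_root (C (C ζ) : ℂ[X][X]) (C X) X m (by
    rw [← C_pow, ← C_pow, hζ.pow_eq_one, C_1, C_1])
  have m1 := map_sR (phi ζ) vq va m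
  have m2 := map_sL (phi ζ) vq va m
  have m3 := map_E1 (phi ζ) vq (vq ^ 2 * vb) m
  have m4 : phi ζ (∏ i ∈ range m, (vb - vq ^ (2 * i + 1))) =
      ∏ i ∈ range m, (X - C (C ζ) ^ (2 * i + 1)) := by
    rw [phi_prod]
    apply prod_congr rfl
    intro i _
    rw [phi_sub, phi_pow, phi_b, phi_q]
  have m5 : phi ζ (∏ i ∈ range (2 * m), (vb - vq ^ i)) =
      ∏ i ∈ range (2 * m), (X - C (C ζ) ^ i) := by
    rw [phi_prod]
    apply prod_congr rfl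
    intro i _
    rw [phi_sub, phi_pow, phi_b, phi_q]
  have m6 : phi ζ (∏ i ∈ range m, nm vq va (m + 1 + i)) =
      ∏ i ∈ range m, nm (C (C ζ)) (C X) (m + 1 + i) := by
    rw [phi_prod]
    apply prod_congr rfl
    intro i _
    have h := map_nm (phi ζ) vq va (m + 1 + i)
    rw [phi_q, phi_a] at h
    exact h
  rw [phi_q, phi_a] at m1 m2
  rw [phi_mul, phi_pow, phi_q, phi_b] at m3
  rw [phi_mul, phi_mul, phi_mul, phi_mul, m1, m2, m3, m4, m5, m6]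
  exact hb

theorem FE3 (m : ℕ) :
    (1 - vq) * (va * (1 - vb) * (1 - vb * vq ^ (4 * m + 2)) * NN vq va vb m -
        (va - vq * vb) * (1 - vq * va * vb) * sg (NN vq va vb m)) = - vb * W vq va vb m := by
  have h := map_NN (R := P3) (S := P3) sg vq va vb m
  rw [sg_q, sg_a, sg_b] at h
  rw [h]
  exact FE vq va vb m

theorem NN_val {ζ : ℂ} {d : ℕ} (hζ : IsPrimitiveRoot ζ d) (hd : 1 < d) (m : ℕ)
    (hdn : d ∣ 2 * m + 1) :
    Ph d ^ (3 * cnt d (fun i => 2 * i + 2) m + 1) ∣ NN vq va vb m := by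
  refine descend m hζ hd _ _ ?_
  rw [FE3]
  exact dvd_neg_mul _ _ _ (W_val hζ (by omega) m hdn)

theorem NN_val2 {ζ : ℂ} (m : ℕ) (hm : 0 < m) (hζ : IsPrimitiveRoot ζ (2 * m + 1)) :
    Ph (2 * m + 1) ^ 2 ∣ NN vq va vb m := by
  refine descend m hζ (by omega) _ _ ?_
  rw [FE3]
  exact dvd_neg_mul _ _ _ (W_val2 m hm hζ)

end Q252.QC
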