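import Pool.Agent.Q252.QC6

/-!
# The factors `1 - a q^n`, `a - q^n`, `b - q^n`
-/

open Finset Polynomial

namespace Q252.QC

section nonzero

variable {R : Type*} [CommRing R] [IsDomain R]

theorem sL_ne (q a : R) (m : ℕ) (h1 : ∀ i < m, 1 - q ^ (2 * i + 2) ≠ 0)
    (h2 : ∀ i < m, 1 - a * q ^ (2 * i + 2) ≠ 0) (h3 : ∀ i < m, a - q ^ (2 * i + 2) ≠ 0) :
    sL q a m ≠ 0 :=
  prod_ne_zero_iff.2 fun i hi => mul_ne_zero (mul_ne_zero (h1 i (mem_range.1 hi))
    (h2 i (mem_range.1 hi))) (h3 i (mem_range.1 hi))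

theorem sR_ne (q a : R) (m : ℕ) (h0 : q ≠ 0) (h1 : ∀ i < 2 * m, 1 - q ^ (i + 1) ≠ 0)
    (h2 : ∀ i < 2 * m, 1 - a * q ^ (i + 1) ≠ 0) (h3 : ∀ i < 2 * m, a - q ^ (i + 1) ≠ 0) :
    sR q a m ≠ 0 :=
  prod_ne_zero_iff.2 fun i hi => mul_ne_zero (pow_ne_zero _ h0)
    (mul_ne_zero (mul_ne_zero (h1 i (mem_range.1 hi))
    (h2 i (mem_range.1 hi))) (h3 i (mem_range.1 hi)))

theorem Dn_ne (q b : R) (k : ℕ) (h1 : ∀ i < k, 1 - b * q ^ (2 * i + 2) ≠ 0) :
    Dn q b k ≠ 0 :=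
  prod_ne_zero_iff.2 fun i hi => h1 i (mem_range.1 hi)

theorem SD_ne (q a b : R) (m : ℕ) (h0 : q ≠ 0) (h1 : ∀ i, 1 - q ^ (i + 1) ≠ 0)
    (h2 : ∀ i < 2 * m, 1 - a * q ^ (i + 1) ≠ 0) (h3 : ∀ i < 2 * m, a - q ^ (i + 1) ≠ 0)
    (h4 : ∀ i, 1 - b * q ^ (2 * i + 2) ≠ 0) :
    sL q a m * sR q a m * Dn q b (2 * m) ≠ 0 := by
  apply mul_ne_zero (mul_ne_zero _ _) _
  · exact sL_ne q a m (fun i _ => h1 _) (fun i hi => h2 (2 * i + 1) (by omega))
      (fun i hi => h3 (2 * i + 1) (by omega))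
  · exact sR_ne q a m h0 (fun i _ => h1 _) h2 h3
  · exact Dn_ne q b _ (fun i _ => h4 i)

theorem NN_poly_zero (t θ : R) (m : ℕ) (ht : 1 - t ≠ 0)
    (hinj : Function.Injective fun k : ℕ => t ^ (2 * k + 1))
    (h1 : ∀ k : ℕ, θ - t ^ (2 * k + 2) ≠ 0) (h2 : ∀ k : ℕ, 1 - θ * t ^ (2 * k + 2) ≠ 0)
    (h3 : (1 - θ * t ^ (2 * m + 1)) * (θ - t ^ (2 * m + 1)) = 0) :
    NN (C t) (C θ) X m = 0 := by
  have hroot : ∀ k : ℕ, (NN (C t) (C θ) X m).eval (t ^ (2 * k + 1)) = 0 := by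
    intro k
    have h := map_NN (evalRingHom (t ^ (2 * k + 1))) (C t) (C θ) X m
    simp only [coe_evalRingHom, eval_C, eval_X] at h
    rw [h]
    exact NN_zero t θ m k ht (fun j _ => h1 j) (fun j _ => h2 j)
      (fun j _ => W_zero_of_a t θ _ m h3)
  apply eq_zero_of_infinite_isRoot
  refine Set.Infinite.mono ?_ (Set.infinite_range_of_injective hinj)
  rintro _ ⟨k, rfl⟩
  exact hroot k

end nonzero

section pseudo

variable {R : Type*} [CommRing R]

theorem pseudo (c : R) (p : R[X]) :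
    (1 - C c * X) ∣ C (c ^ p.natDegree) * p -
      C (∑ i ∈ range (p.natDegree + 1), p.coeff i * c ^ (p.natDegree - i)) := by
  have e : C (c ^ p.natDegree) * p =
      ∑ i ∈ range (p.natDegree + 1), C (p.coeff i * c ^ (p.natDegree - i)) * (C c * X) ^ i := by
    conv_lhs => rw [p.as_sum_range_C_mul_X_pow, mul_sum]
    apply sum_congr rfl
    intro i hi
    have hi := mem_range.1 hi
    have e2 : c ^ p.natDegree = c ^ (p.natDegree - i) * c ^ i := by
      rw [← pow_add]; congr 1; omega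
    rw [← p.as_sum_range_C_mul_X_pow, e2]
    simp only [C_mul, C_pow]
    ring
  rw [e, map_sum, ← sum_sub_distrib]
  apply dvd_sum
  intro i _
  have : C (p.coeff i * c ^ (p.natDegree - i)) * (C c * X) ^ i -
      C (p.coeff i * c ^ (p.natDegree - i)) =
      - C (p.coeff i * c ^ (p.natDegree - i)) * (1 - (C c * X) ^ i) := by ring
  rw [this]
  apply dvd_mul_of_dvd_right
  have := sub_dvd_pow_sub_pow (1 : R[X]) (C c * X) i
  rwa [one_pow] at this

end pseudo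

/-! ### the three specialisations -/

noncomputable def h1 (n : ℕ) : P3 →+* ℚ[X][X] := mapRingHom (evalRingHom (X ^ n : ℚ[X]))

noncomputable def h3 (n : ℕ) : P3 →+* ℚ[X][X] := evalRingHom ((C X) ^ n : ℚ[X][X])

/-- The field `ℚ(q)`. -/
abbrev K1 : Type := FractionRing ℚ[X]

noncomputable def tt : K1 := algebraMap ℚ[X] K1 X

noncomputable def h2 (n : ℕ) : P3 →+* K1[X] :=
  mapRingHom (eval₂RingHom (algebraMap ℚ[X] K1) ((tt ^ n)⁻¹))

@[simp] theorem h1_q (n : ℕ) : h1 n vq = C X := by simp [h1, vq]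
@[simp] theorem h1_a (n : ℕ) : h1 n va = C (X ^ n) := by simp [h1, va]
@[simp] theorem h1_b (n : ℕ) : h1 n vb = X := by simp [h1, vb]
@[simp] theorem h2_q (n : ℕ) : h2 n vq = C tt := by simp [h2, vq, tt]
@[simp] theorem h2_a (n : ℕ) : h2 n va = C ((tt ^ n)⁻¹) := by simp [h2, va]
@[simp] theorem h2_b (n : ℕ) : h2 n vb = X := by simp [h2, vb]
@[simp] theorem h3_q (n : ℕ) : h3 n vq = C X := by simp [h3, vq]
@[simp] theorem h3_a (n : ℕ) : h3 n va = X := by simp [h3, va]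
@[simp] theorem h3_b (n : ℕ) : h3 n vb = (C X) ^ n := by simp [h3, vb]

/-- `a - q^n`, `1 - a q^n`, `b - q^n`. -/
noncomputable def p1 (n : ℕ) : P3 := C (X - C (X ^ n))
noncomputable def p2 (n : ℕ) : P3 := C (1 - C (X ^ n) * X)
noncomputable def p3 (n : ℕ) : P3 := X - C ((C X) ^ n)

theorem p1_eq (n : ℕ) : p1 n = va - vq ^ n := by simp [p1, va, vq]
theorem p2_eq (n : ℕ) : p2 n = 1 - va * vq ^ n := by
  have : p2 n = 1 - vq ^ n * va := by simp [p2, va, vq]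
  rw [this]
  ring
theorem p3_eq (n : ℕ) : p3 n = vb - vq ^ n := by simp [p3, vb, vq]

theorem prime_p1 (n : ℕ) : Prime (p1 n) := Polynomial.prime_C_iff.2 (prime_X_sub_C _)
theorem prime_p3 (n : ℕ) : Prime (p3 n) := prime_X_sub_C _
theorem prime_p2 (n : ℕ) : Prime (p2 n) := by
  apply Polynomial.prime_C_iff.2
  have h : Irreducible (C (-X ^ n : ℚ[X]) * X + C 1) :=
    irreducible_C_mul_X_add_C (by simp) isRelPrime_one_right
  have e : (C (-X ^ n : ℚ[X]) * X + C 1 : ℚ[X][X]) = 1 - C (X ^ n) * X := by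
    simp only [C_neg, C_1]
    ring
  rw [e] at h
  exact h.prime

theorem ker_h1 (n : ℕ) (P : P3) (h : h1 n P = 0) : p1 n ∣ P := by
  unfold p1
  rw [C_dvd_iff_dvd_coeff]
  intro i
  rw [dvd_iff_isRoot]
  have := congrArg (fun r => r.coeff i) h
  simpa [h1] using this

theorem ker_h3 (n : ℕ) (P : P3) (h : h3 n P = 0) : p3 n ∣ P := by
  unfold p3
  rw [dvd_iff_isRoot]
  exact h

theorem tt_ne : tt ≠ 0 := by
  unfold tt
  rw [Ne, FaithfulSMul.algebraMap_eq_zero_iff]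
  exact X_ne_zero

theorem ker_h2 (n : ℕ) (P : P3) (h : h2 n P = 0) : p2 n ∣ P := by
  unfold p2
  rw [C_dvd_iff_dvd_coeff]
  intro i
  set p := P.coeff i with hp
  have h0 : eval₂ (algebraMap ℚ[X] K1) ((tt ^ n)⁻¹) p = 0 := by
    have := congrArg (fun r => r.coeff i) h
    simpa [h2] using this
  have h1 := pseudo (X ^ n : ℚ[X]) p
  have h2 : (∑ i ∈ range (p.natDegree + 1), p.coeff i * (X ^ n : ℚ[X]) ^ (p.natDegree - i)) = 0 := by
    apply FaithfulSMul.algebraMap_injective ℚ[X] K1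
    rw [map_zero, map_sum]
    have e : ∀ i ∈ range (p.natDegree + 1),
        algebraMap ℚ[X] K1 (p.coeff i * (X ^ n : ℚ[X]) ^ (p.natDegree - i)) =
        (tt ^ n) ^ p.natDegree * (algebraMap ℚ[X] K1 (p.coeff i) * ((tt ^ n)⁻¹) ^ i) := by
      intro i hi
      have hi := mem_range.1 hi
      rw [map_mul, map_pow, map_pow]
      have e3 : algebraMap ℚ[X] K1 X = tt := rfl
      rw [e3]
      have ht : tt ^ n ≠ 0 := pow_ne_zero _ tt_ne
      have e2 : (tt ^ n) ^ p.natDegree = (tt ^ n) ^ (p.natDegree - i) * (tt ^ n) ^ i := by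
        rw [← pow_add]; congr 1; omega
      rw [e2, inv_pow]
      field_simp
    rw [sum_congr rfl e, ← mul_sum, ← eval₂_eq_sum_range, h0, mul_zero]
  rw [h2, C_0, sub_zero] at h1
  have hpr : Prime (1 - C (X ^ n) * X : ℚ[X][X]) := Polynomial.prime_C_iff.1 (prime_p2 n)
  rcases hpr.dvd_or_dvd h1 with h3 | h3
  · exfalso
    have h4 : (1 - C (X ^ n) * X : ℚ[X][X]).natDegree ≤ 0 := by
      have := natDegree_le_of_dvd h3 (by simp)
      simpa using this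
    have h5 : (1 - C (X ^ n) * X : ℚ[X][X]).coeff 1 = 0 :=
      coeff_eq_zero_of_natDegree_lt (by omega)
    rw [coeff_sub, coeff_C_mul, coeff_X_one, coeff_one] at h5
    simp at h5
  · exact h3

theorem X_pow_sub_ne {i j : ℕ} (h : i ≠ j) : (X ^ i - X ^ j : ℚ[X]) ≠ 0 := by
  intro h'
  have h2 : (X ^ i : ℚ[X]) = X ^ j := sub_eq_zero.1 h'
  have := congrArg natDegree h2
  simp at this
  exact h this

theorem one_sub_X_pow_ne (i : ℕ) : (1 - X ^ (i + 1) : ℚ[X]) ≠ 0 := by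
  have := X_pow_sub_ne (i := 0) (j := i + 1) (by omega)
  simpa using this

theorem one_sub_X_ne : (1 - X : ℚ[X]) ≠ 0 := by simpa using one_sub_X_pow_ne 0

theorem h1_NN (m : ℕ) : h1 (2 * m + 1) (NN vq va vb m) = 0 := by
  have h := map_NN (h1 (2 * m + 1)) vq va vb m
  rw [h1_q, h1_a, h1_b] at h
  rw [h]
  apply NN_poly_zero _ _ _ one_sub_X_ne
  · intro i j hij
    have := congrArg natDegree hij
    simp at this
    exact this
  · intro k
    exact X_pow_sub_ne (by omega)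
  · intro k
    rw [← pow_add]
    exact one_sub_X_pow_ne _
  · simp

theorem tt_pow_ne (i : ℕ) : 1 - tt ^ (i + 1) ≠ 0 := by
  unfold tt
  rw [← map_pow, ← map_one (algebraMap ℚ[X] K1), ← map_sub, Ne,
    FaithfulSMul.algebraMap_eq_zero_iff]
  exact one_sub_X_pow_ne i

theorem tt_pow_sub_ne {i j : ℕ} (h : i ≠ j) : tt ^ i - tt ^ j ≠ 0 := by
  unfold tt
  rw [← map_pow, ← map_pow, ← map_sub, Ne, FaithfulSMul.algebraMap_eq_zero_iff]
  exact X_pow_sub_ne h

theorem tt_inj : Function.Injective fun k : ℕ => tt ^ (2 * k + 1) := by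
  intro i j hij
  by_contra h
  exact tt_pow_sub_ne (i := 2 * i + 1) (j := 2 * j + 1) (by omega) (sub_eq_zero.2 hij)

theorem theta1 (n k : ℕ) : (tt ^ n)⁻¹ - tt ^ (k + 1) ≠ 0 := by
  have ht : tt ^ n ≠ 0 := pow_ne_zero _ tt_ne
  intro h
  have h2 : 1 - tt ^ (n + k + 1) = 0 := by
    have := congrArg (fun x => tt ^ n * x) h
    simp only [mul_sub, mul_inv_cancel₀ ht, mul_zero, ← pow_add] at this
    rw [← add_assoc] at this
    exact this
  exact tt_pow_ne _ h2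

theorem theta2 (n k : ℕ) (hk : n ≠ k) : 1 - (tt ^ n)⁻¹ * tt ^ k ≠ 0 := by
  have ht : tt ^ n ≠ 0 := pow_ne_zero _ tt_ne
  intro h
  have h2 : tt ^ n - tt ^ k = 0 := by
    have := congrArg (fun x => tt ^ n * x) h
    simp only [mul_sub, mul_one, ← mul_assoc, mul_inv_cancel₀ ht, mul_zero, one_mul] at this
    exact this
  exact tt_pow_sub_ne hk h2

theorem h2_NN (m : ℕ) : h2 (2 * m + 1) (NN vq va vb m) = 0 := by
  have h := map_NN (h2 (2 * m + 1)) vq va vb m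
  rw [h2_q, h2_a, h2_b] at h
  rw [h]
  apply NN_poly_zero
  · simpa using tt_pow_ne 0
  · exact tt_inj
  · intro k
    exact theta1 _ _
  · intro k
    exact theta2 _ _ (by omega)
  · rw [inv_mul_cancel₀ (pow_ne_zero _ tt_ne)]
    simp

theorem CX_ne (k : ℕ) : (X - (C X) ^ k : ℚ[X][X]) ≠ 0 := by
  rw [← C_pow]
  exact X_sub_C_ne_zero _

theorem CX_ne2 (k : ℕ) : (1 - X * (C X) ^ k : ℚ[X][X]) ≠ 0 := by
  intro h
  have := congrArg (eval 0) h
  simp at this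

theorem one_sub_CX_pow_ne (i : ℕ) : (1 - (C X) ^ (i + 1) : ℚ[X][X]) ≠ 0 := by
  have : (1 - (C X) ^ (i + 1) : ℚ[X][X]) = C (1 - X ^ (i + 1)) := by simp
  rw [this, Ne, C_eq_zero]
  exact one_sub_X_pow_ne i

theorem h3_NN (m : ℕ) : h3 (2 * m + 1) (NN vq va vb m) = 0 := by
  have h := map_NN (h3 (2 * m + 1)) vq va vb m
  rw [h3_q, h3_a, h3_b] at h
  rw [h]
  apply NN_zero
  · simpa using one_sub_CX_pow_ne 0
  · intro k _
    exact CX_ne _
  · intro k _
    exact CX_ne2 _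
  · intro k hk
    exact W_zero_of_lt _ _ _ _ hk

/-! ### the denominators -/

theorem map_SD {S : Type*} [CommRing S] (f : P3 →+* S) (m : ℕ) :
    f (SD m) = sL (f vq) (f va) m * sR (f vq) (f va) m * Dn (f vq) (f vb) (2 * m) := by
  unfold SD
  have e1 := map_mul f (sL vq va m * sR vq va m) (Dn vq vb (2 * m))
  have e2 := map_mul f (sL vq va m) (sR vq va m)
  rw [e1, e2, map_sL f vq va m, map_sR f vq va m, map_Dn f vq vb (2 * m)]

theorem h1_SD (m : ℕ) : h1 (2 * m + 1) (SD m) ≠ 0 := by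
  rw [map_SD, h1_q, h1_a, h1_b]
  apply SD_ne
  · simp
  · exact one_sub_CX_pow_ne
  · intro i _
    rw [← C_pow, ← C_mul, ← C_1, ← C_sub, Ne, C_eq_zero, ← pow_add]
    exact one_sub_X_pow_ne _
  · intro i hi
    rw [← C_pow, ← C_sub, Ne, C_eq_zero]
    exact X_pow_sub_ne (by omega)
  · intro i
    exact CX_ne2 _

theorem h2_SD (m : ℕ) : h2 (2 * m + 1) (SD m) ≠ 0 := by
  rw [map_SD, h2_q, h2_a, h2_b]
  apply SD_ne
  · rw [Ne, C_eq_zero]
    exact tt_ne
  · intro i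
    rw [← C_pow, ← C_1, ← C_sub, Ne, C_eq_zero]
    exact tt_pow_ne i
  · intro i _
    rw [← C_pow, ← C_mul, ← C_1, ← C_sub, Ne, C_eq_zero]
    exact theta2 _ _ (by omega)
  · intro i hi
    rw [← C_pow, ← C_sub, Ne, C_eq_zero]
    exact theta1 _ _
  · intro i h
    have := congrArg (eval 0) h
    simp at this

theorem h3_SD (m : ℕ) : h3 (2 * m + 1) (SD m) ≠ 0 := by
  rw [map_SD, h3_q, h3_a, h3_b]
  apply SD_ne
  · simp
  · exact one_sub_CX_pow_ne
  · intro i _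
    exact CX_ne2 _
  · intro i _
    exact CX_ne _
  · intro i
    rw [← pow_add]
    exact one_sub_CX_pow_ne _

end Q252.QC
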