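import Pool.Agent.Q252.QC7

/-!
# Divisibility of the reduced numerator by the modulus
-/

open Finset Polynomial

namespace Q252.QC

section generic

variable {R : Type*} [CommRing R] [IsDomain R]

theorem cancel_val (π p r s S N Y : R) (e k : ℕ) (hπ : Prime π) (hS : S = π ^ e * s)
    (hN : N = π ^ (e + k) * Y) (hs : ¬ π ∣ s) (h : p * S = r * N) : π ^ k ∣ p := by
  have h1 : π ^ e * (p * s) = π ^ e * (π ^ k * (r * Y)) := by
    rw [hS, hN, pow_add] at h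
    linear_combination h
  have h2 : p * s = π ^ k * (r * Y) := mul_left_cancel₀ (pow_ne_zero e hπ.ne_zero) h1
  exact hπ.pow_dvd_of_dvd_mul_right k hs ⟨r * Y, h2⟩

omit [IsDomain R] in
theorem cancel_one (π p r S N : R) (hπ : Prime π) (hS : ¬ π ∣ S) (hN : π ∣ N)
    (h : p * S = r * N) : π ∣ p := by
  have : π ∣ p * S := by rw [h]; exact dvd_mul_of_dvd_right hN _
  exact (hπ.dvd_or_dvd this).resolve_right hS

omit [IsDomain R] in
theorem prime_step (π x p : R) (hπ : Prime π) (hx : x ∣ p) (hp : π ∣ p) (hn : ¬ π ∣ x) :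
    x * π ∣ p := by
  obtain ⟨y, rfl⟩ := hx
  exact mul_dvd_mul_left x ((hπ.dvd_or_dvd hp).resolve_left hn)

end generic

theorem phi_Ph {ζ : ℂ} {d : ℕ} (hζ : IsPrimitiveRoot ζ d) (hd : 0 < d) : phi ζ (Ph d) = 0 := by
  have hz : aeval ζ (cyclotomic d ℚ) = 0 := by
    rw [cyclotomic_eq_minpoly_rat hζ hd]
    exact minpoly.aeval ℚ ζ
  simp [phi, Ph, hz]

theorem not_dvd_of_phi {ζ : ℂ} (x y : P3) (hx : phi ζ x = 0) (hy : phi ζ y ≠ 0) : ¬ x ∣ y := by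
  rintro ⟨z, rfl⟩
  exact hy (by rw [phi_mul, hx, zero_mul])

theorem prime_Ph {d : ℕ} (hd : 0 < d) : Prime (Ph d) :=
  Polynomial.prime_C_iff.2 (Polynomial.prime_C_iff.2 (cyclotomic.irreducible_rat hd).prime)

theorem Ph_dvd (m : ℕ) (p r : P3) (h : p * SD m = r * NN vq va vb m) {d : ℕ} (hd : 1 < d)
    (hdn : d ∣ 2 * m + 1) : Ph d ∣ p := by
  have hζ := Complex.isPrimitiveRoot_exp d (by omega)
  obtain ⟨s, hs, hs'⟩ := SD_val hζ (by omega) m hdn
  obtain ⟨Y, hY⟩ := NN_val hζ hd m hdn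
  have := cancel_val (Ph d) p r s (SD m) (NN vq va vb m) Y _ 1 (prime_Ph (by omega)) hs hY
    (not_dvd_of_phi _ _ (phi_Ph hζ (by omega)) hs') h
  simpa using this

theorem Ph_dvd2 (m : ℕ) (hm : 0 < m) (p r : P3) (h : p * SD m = r * NN vq va vb m) :
    Ph (2 * m + 1) ^ 2 ∣ p := by
  have hζ := Complex.isPrimitiveRoot_exp (2 * m + 1) (by omega)
  obtain ⟨s, hs, hs'⟩ := SD_val hζ (by omega) m dvd_rfl
  rw [cnt_self m hm] at hs
  obtain ⟨Y, hY⟩ := NN_val2 m hm hζ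
  exact cancel_val (Ph (2 * m + 1)) p r s (SD m) (NN vq va vb m) Y 0 2 (prime_Ph (by omega))
    hs (by rw [zero_add]; exact hY) (not_dvd_of_phi _ _ (phi_Ph hζ (by omega)) hs') h

/-- `[n] Φ_n(q)` as a polynomial in `q`. -/
noncomputable def Y0 (n : ℕ) : ℚ[X] := (∑ i ∈ range n, X ^ i) * cyclotomic n ℚ

theorem Y0_dvd (m : ℕ) (hm : 0 < m) (f : ℚ[X])
    (h1 : ∀ d : ℕ, 1 < d → d ∣ 2 * m + 1 → cyclotomic d ℚ ∣ f)
    (h2 : cyclotomic (2 * m + 1) ℚ ^ 2 ∣ f) : Y0 (2 * m + 1) ∣ f := by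
  have hmem : 2 * m + 1 ∈ (2 * m + 1).divisors.erase 1 := by
    rw [Finset.mem_erase]
    exact ⟨by omega, Nat.mem_divisors_self _ (by omega)⟩
  have e : Y0 (2 * m + 1) = ∏ d ∈ (2 * m + 1).divisors.erase 1,
      cyclotomic d ℚ ^ (if d = 2 * m + 1 then 2 else 1) := by
    unfold Y0
    rw [← prod_cyclotomic_eq_geom_sum (by omega) ℚ]
    rw [← Finset.mul_prod_erase _ _ hmem, ← Finset.mul_prod_erase _ (fun d =>
      cyclotomic d ℚ ^ (if d = 2 * m + 1 then 2 else 1)) hmem, if_pos rfl]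
    have : ∏ d ∈ ((2 * m + 1).divisors.erase 1).erase (2 * m + 1),
        cyclotomic d ℚ ^ (if d = 2 * m + 1 then 2 else 1) =
        ∏ d ∈ ((2 * m + 1).divisors.erase 1).erase (2 * m + 1), cyclotomic d ℚ := by
      apply prod_congr rfl
      intro d hd
      rw [Finset.mem_erase] at hd
      rw [if_neg hd.1, pow_one]
    rw [this]
    ring
  rw [e]
  apply Finset.prod_dvd_of_coprime
  · intro i _ j _ hij
    exact (cyclotomic.isCoprime_rat hij).pow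
  · intro d hd
    rw [Finset.mem_erase, Nat.mem_divisors] at hd
    have hd0 : 0 < d := Nat.pos_of_dvd_of_pos hd.2.1 (by omega)
    split_ifs with hdd
    · rw [hdd]; exact h2
    · rw [pow_one]
      exact h1 d (by omega) hd.2.1

theorem CC_dvd (m : ℕ) (hm : 0 < m) (p r : P3) (h : p * SD m = r * NN vq va vb m) :
    (C (C (Y0 (2 * m + 1))) : P3) ∣ p := by
  rw [C_dvd_iff_dvd_coeff]
  intro i
  rw [C_dvd_iff_dvd_coeff]
  intro j
  apply Y0_dvd m hm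
  · intro d hd hdn
    have h1 := Ph_dvd m p r h hd hdn
    unfold Ph at h1
    rw [C_dvd_iff_dvd_coeff] at h1
    have h2 := h1 i
    rw [C_dvd_iff_dvd_coeff] at h2
    exact h2 j
  · have h1 := Ph_dvd2 m hm p r h
    have e : Ph (2 * m + 1) ^ 2 = (C (C (cyclotomic (2 * m + 1) ℚ ^ 2)) : P3) := by
      simp [Ph]
    rw [e, C_dvd_iff_dvd_coeff] at h1
    have h2 := h1 i
    rw [C_dvd_iff_dvd_coeff] at h2
    exact h2 j

theorem Y0_ne (n : ℕ) (hn : 0 < n) : Y0 n ≠ 0 := by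
  unfold Y0
  apply mul_ne_zero _ (cyclotomic_ne_zero _ _)
  intro h
  have := congrArg (eval 1) h
  simp [eval_finsetSum] at this
  omega

theorem h1_p1 (n : ℕ) : h1 n (p1 n) = 0 := by simp [h1, p1]
theorem h2_p2 (n : ℕ) : h2 n (p2 n) = 0 := by
  have : h2 n (p2 n) = 1 - C tt ^ n * C ((tt ^ n)⁻¹) := by simp [h2, p2, tt]
  rw [this, ← C_pow, ← C_mul, mul_inv_cancel₀ (pow_ne_zero _ tt_ne), C_1, sub_self]
theorem h3_p3 (n : ℕ) : h3 n (p3 n) = 0 := by simp [h3, p3]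

theorem not_dvd_of_map {S : Type*} [CommRing S] (f : P3 →+* S) (x y : P3) (hx : f x = 0)
    (hy : f y ≠ 0) : ¬ x ∣ y := by
  rintro ⟨z, rfl⟩
  exact hy (by rw [map_mul f x z, hx, zero_mul])

/-- the modulus `[n] Φ_n(q) (1 - a q^n) (a - q^n) (b - q^n)`. -/
noncomputable def MM (n : ℕ) : P3 := C (C (Y0 n)) * p2 n * p1 n * p3 n

theorem MM_dvd (m : ℕ) (hm : 0 < m) (p r : P3) (h : p * SD m = r * NN vq va vb m) :
    MM (2 * m + 1) ∣ p := by
  have hY : Y0 (2 * m + 1) ≠ 0 := Y0_ne _ (by omega)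
  have s1 := CC_dvd m hm p r h
  have d2 : p2 (2 * m + 1) ∣ p := cancel_one _ p r (SD m) (NN vq va vb m) (prime_p2 _)
    (not_dvd_of_map (h2 (2 * m + 1)) _ _ (h2_p2 _) (h2_SD m)) (ker_h2 _ _ (h2_NN m)) h
  have d1 : p1 (2 * m + 1) ∣ p := cancel_one _ p r (SD m) (NN vq va vb m) (prime_p1 _)
    (not_dvd_of_map (h1 (2 * m + 1)) _ _ (h1_p1 _) (h1_SD m)) (ker_h1 _ _ (h1_NN m)) h
  have d3 : p3 (2 * m + 1) ∣ p := cancel_one _ p r (SD m) (NN vq va vb m) (prime_p3 _)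
    (not_dvd_of_map (h3 (2 * m + 1)) _ _ (h3_p3 _) (h3_SD m)) (ker_h3 _ _ (h3_NN m)) h
  have s2 := prime_step _ _ _ (prime_p2 _) s1 d2 (by
    apply not_dvd_of_map (h2 (2 * m + 1)) _ _ (h2_p2 _)
    simp [h2, hY])
  have s3 := prime_step _ _ _ (prime_p1 _) s2 d1 (by
    apply not_dvd_of_map (h1 (2 * m + 1)) _ _ (h1_p1 _)
    have e : h1 (2 * m + 1) (C (C (Y0 (2 * m + 1))) * p2 (2 * m + 1)) =
      C (Y0 (2 * m + 1) * (1 - X ^ (2 * m + 1) * X ^ (2 * m + 1))) := by simp [h1, p2]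
    rw [e, Ne, C_eq_zero, ← pow_add]
    exact mul_ne_zero hY (one_sub_X_pow_ne (2 * m + 1 + (2 * m))))
  have s4 := prime_step _ _ _ (prime_p3 _) s3 d3 (by
    apply not_dvd_of_map (h3 (2 * m + 1)) _ _ (h3_p3 _)
    have e : h3 (2 * m + 1) (C (C (Y0 (2 * m + 1))) * p2 (2 * m + 1) * p1 (2 * m + 1)) =
      C (Y0 (2 * m + 1)) * (1 - C (X ^ (2 * m + 1)) * X) * (X - C (X ^ (2 * m + 1))) := by
      simp [h3, p2, p1]
    rw [e]
    apply mul_ne_zero (mul_ne_zero _ _) (X_sub_C_ne_zero _)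
    · simpa using hY
    · intro h
      have := congrArg (eval 0) h
      simp at this)
  exact s4

end Q252.QC
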