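import Pool.Agent.Q252.QC8

/-!
# Transfer to polynomials in three variables
-/

open Finset

namespace Q252.QC

/-- The polynomial ring `ℚ[b, a, q]` in three variables. -/
abbrev P : Type := MvPolynomial (Fin 3) ℚ

noncomputable def e3 : P ≃+* P3 :=
  ((MvPolynomial.finSuccEquiv ℚ 2).toRingEquiv).trans
    ((Polynomial.mapEquiv (MvPolynomial.finSuccEquiv ℚ 1).toRingEquiv).trans
      ((Polynomial.mapEquiv (Polynomial.mapEquiv (MvPolynomial.finSuccEquiv ℚ 0).toRingEquiv)).trans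
        (Polynomial.mapEquiv (Polynomial.mapEquiv (Polynomial.mapEquiv
          (MvPolynomial.isEmptyAlgEquiv ℚ (Fin 0)).toRingEquiv)))))

theorem e3_b : e3 (MvPolynomial.X 0) = vb := by
  simp [e3, vb, MvPolynomial.finSuccEquiv_X_zero]

theorem e3_a : e3 (MvPolynomial.X 1) = va := by
  have h : (MvPolynomial.finSuccEquiv ℚ 2) (MvPolynomial.X 1) = Polynomial.C (MvPolynomial.X 0) :=
    MvPolynomial.finSuccEquiv_X_succ (R := ℚ) (n := 2) (j := 0)
  simp [e3, va, MvPolynomial.finSuccEquiv_X_zero, h]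

theorem e3_q : e3 (MvPolynomial.X 2) = vq := by
  have h : (MvPolynomial.finSuccEquiv ℚ 2) (MvPolynomial.X 2) = Polynomial.C (MvPolynomial.X 1) :=
    MvPolynomial.finSuccEquiv_X_succ (R := ℚ) (n := 2) (j := 1)
  have h' : (MvPolynomial.finSuccEquiv ℚ 1) (MvPolynomial.X 1) = Polynomial.C (MvPolynomial.X 0) :=
    MvPolynomial.finSuccEquiv_X_succ (R := ℚ) (n := 1) (j := 0)
  simp [e3, vq, MvPolynomial.finSuccEquiv_X_zero, h, h']

noncomputable def f3 : P →+* P3 := e3.toRingHom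

theorem f3_inj : Function.Injective f3 := e3.injective

theorem f3_surj : Function.Surjective f3 := e3.surjective

theorem f3_q : f3 (MvPolynomial.X 2) = vq := e3_q
theorem f3_a : f3 (MvPolynomial.X 1) = va := e3_a
theorem f3_b : f3 (MvPolynomial.X 0) = vb := e3_b

noncomputable def q' : P := MvPolynomial.X 2
noncomputable def a' : P := MvPolynomial.X 1
noncomputable def b' : P := MvPolynomial.X 0

/-- the denominator of the difference of the two sums. -/
noncomputable def SD' (m : ℕ) : P := sL q' a' m * sR q' a' m * Dn q' b' (2 * m)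

theorem f3_SD (m : ℕ) : f3 (SD' m) = SD m := by
  unfold SD' SD
  have e1 := map_mul f3 (sL q' a' m * sR q' a' m) (Dn q' b' (2 * m))
  have e2 := map_mul f3 (sL q' a' m) (sR q' a' m)
  have e3 : f3 (sL q' a' m) = sL vq va m := by
    rw [← f3_q, ← f3_a]; exact map_sL (R := P) (S := P3) f3 q' a' m
  have e4 : f3 (sR q' a' m) = sR vq va m := by
    rw [← f3_q, ← f3_a]; exact map_sR (R := P) (S := P3) f3 q' a' m
  have e5 : f3 (Dn q' b' (2 * m)) = Dn vq vb (2 * m) := by
    rw [← f3_q, ← f3_b]; exact map_Dn (R := P) (S := P3) f3 q' b' (2 * m)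
  rw [e1, e2, e3, e4, e5]

theorem f3_NN (m : ℕ) : f3 (NN q' a' b' m) = NN vq va vb m := by
  rw [← f3_q, ← f3_a, ← f3_b]
  exact map_NN (R := P) (S := P3) f3 q' a' b' m

/-- the modulus. -/
noncomputable def M' (n : ℕ) : P :=
  (∑ i ∈ range n, q' ^ i) * Polynomial.aeval q' (Polynomial.cyclotomic n ℚ) *
    (1 - a' * q' ^ n) * (a' - q' ^ n) * (b' - q' ^ n)

theorem f3_aeval (f : Polynomial ℚ) :
    f3 (Polynomial.aeval q' f) = Polynomial.C (Polynomial.C f) := by
  have h : (f3.comp (Polynomial.aeval q' : Polynomial ℚ →ₐ[ℚ] P).toRingHom) =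
      (Polynomial.C.comp Polynomial.C : Polynomial ℚ →+* P3) := by
    apply Polynomial.ringHom_ext
    · intro x
      exact congrArg (fun g : ℚ →+* P3 => g x) (Subsingleton.elim
        ((f3.comp (Polynomial.aeval q' : Polynomial ℚ →ₐ[ℚ] P).toRingHom).comp Polynomial.C)
        ((Polynomial.C.comp Polynomial.C : Polynomial ℚ →+* P3).comp Polynomial.C))
    · have h1 : (Polynomial.aeval q' : Polynomial ℚ →ₐ[ℚ] P) Polynomial.X = q' :=
        Polynomial.aeval_X _
      show f3 ((Polynomial.aeval q' : Polynomial ℚ →ₐ[ℚ] P) Polynomial.X) = _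
      rw [h1]
      exact f3_q
  exact congrArg (fun g : Polynomial ℚ →+* P3 => g f) h

theorem f3_M (n : ℕ) : f3 (M' n) = MM n := by
  unfold M' MM
  rw [p1_eq, p2_eq, p3_eq]
  have e0 : (Polynomial.C (Polynomial.C (Y0 n)) : P3) =
      (∑ i ∈ range n, vq ^ i) * Polynomial.C (Polynomial.C (Polynomial.cyclotomic n ℚ)) := by
    unfold Y0 vq
    simp [map_sum]
  rw [e0]
  have m1 := map_mul f3 ((∑ i ∈ range n, q' ^ i) *
    Polynomial.aeval q' (Polynomial.cyclotomic n ℚ) * (1 - a' * q' ^ n) * (a' - q' ^ n))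
    (b' - q' ^ n)
  have m2 := map_mul f3 ((∑ i ∈ range n, q' ^ i) *
    Polynomial.aeval q' (Polynomial.cyclotomic n ℚ) * (1 - a' * q' ^ n)) (a' - q' ^ n)
  have m3 := map_mul f3 ((∑ i ∈ range n, q' ^ i) *
    Polynomial.aeval q' (Polynomial.cyclotomic n ℚ)) (1 - a' * q' ^ n)
  have m4 := map_mul f3 (∑ i ∈ range n, q' ^ i) (Polynomial.aeval q' (Polynomial.cyclotomic n ℚ))
  have q1 : ∀ k : ℕ, f3 (q' ^ k) = vq ^ k := fun k => by
    have := map_pow f3 q' k
    rw [this]
    exact congrArg (fun x => x ^ k) f3_q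
  have m5 : f3 (∑ i ∈ range n, q' ^ i) = ∑ i ∈ range n, vq ^ i := by
    rw [map_sum]
    exact sum_congr rfl fun i _ => q1 i
  have m6 : f3 (1 - a' * q' ^ n) = 1 - va * vq ^ n := by
    have h1 := map_sub f3 1 (a' * q' ^ n)
    have h2 := map_mul f3 a' (q' ^ n)
    have h3 := map_one f3
    rw [h1, h2, h3, q1]
    exact congrArg (fun x => 1 - x * vq ^ n) f3_a
  have m7 : f3 (a' - q' ^ n) = va - vq ^ n := by
    have h1 := map_sub f3 a' (q' ^ n)
    rw [h1, q1]
    exact congrArg (fun x => x - vq ^ n) f3_a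
  have m8 : f3 (b' - q' ^ n) = vb - vq ^ n := by
    have h1 := map_sub f3 b' (q' ^ n)
    rw [h1, q1]
    exact congrArg (fun x => x - vq ^ n) f3_b
  rw [m1, m2, m3, m4, m5, m6, m7, m8, f3_aeval]

theorem M'_dvd (m : ℕ) (hm : 0 < m) (p r : P) (h : p * SD' m = r * NN q' a' b' m) :
    M' (2 * m + 1) ∣ p := by
  have h1 : f3 p * SD m = f3 r * NN vq va vb m := by
    have e1 := map_mul f3 p (SD' m)
    have e2 := map_mul f3 r (NN q' a' b' m)
    rw [← f3_SD, ← f3_NN, ← e1, ← e2, h]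
  obtain ⟨z, hz⟩ := MM_dvd m hm _ _ h1
  obtain ⟨y, rfl⟩ := f3_surj z
  refine ⟨y, ?_⟩
  apply f3_inj
  have e1 := map_mul f3 (M' (2 * m + 1)) y
  rw [e1, f3_M, hz]

end Q252.QC
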