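import Mathlib
import Pool.Agent.Q82.QD.Stm

/-!
# Project QD (helper82), job LOP: elementary properties of the inverse of the radial Laplacian
-/

set_option autoImplicit false

open MeasureTheory Filter Topology Real Set

namespace Pool.Agent.Q82.QD

/-- the inner integral is continuous -/
theorem lop_inner_cont {f : ℝ → ℝ} (hf : Continuous f) :
    Continuous fun t : ℝ => ∫ θ in (0 : ℝ)..1, θ / 4 * f (θ * t) := by
  apply intervalIntegral.continuous_parametric_intervalIntegral_of_continuous'
  fun_prop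

theorem lop_deriv {f : ℝ → ℝ} (hf : Continuous f) (s : ℝ) :
    HasDerivAt (Lop f) (∫ θ in (0 : ℝ)..1, θ / 4 * f (θ * s)) s :=
  ((lop_inner_cont hf).integral_hasStrictDerivAt 0 s).hasDerivAt

theorem lop_subst (f : ℝ → ℝ) {s : ℝ} (hs : 0 < s) :
    ∫ θ in (0 : ℝ)..1, θ / 4 * f (θ * s) = (s ^ 2)⁻¹ * ∫ t in (0 : ℝ)..s, t / 4 * f t := by
  have h1 := intervalIntegral.integral_comp_mul_right (a := 0) (b := 1)
    (fun t : ℝ => t / 4 * f t) hs.ne'
  rw [zero_mul, one_mul, smul_eq_mul] at h1
  have h2 : ∫ θ in (0 : ℝ)..1, θ / 4 * f (θ * s) =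
      s⁻¹ * ∫ θ in (0 : ℝ)..1, θ * s / 4 * f (θ * s) := by
    rw [← intervalIntegral.integral_const_mul]
    apply intervalIntegral.integral_congr
    intro θ _
    simp only
    field_simp
  rw [h2, h1, ← mul_assoc]
  congr 1
  rw [sq, mul_inv]

/-- LOP -/
theorem lop : S_LOP := by
  intro f hf
  refine ⟨continuous_iff_continuousAt.2 fun s => (lop_deriv hf s).continuousAt, lop_deriv hf,
    fun s hs => lop_subst f hs, fun g hg s hs hfg => ?_⟩
  unfold Lop
  refine intervalIntegral.integral_mono_on hs ((lop_inner_cont hf).intervalIntegrable _ _)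
    ((lop_inner_cont hg).intervalIntegrable _ _) fun t ht => ?_
  refine intervalIntegral.integral_mono_on zero_le_one ?_ ?_ fun θ hθ => ?_
  · apply Continuous.intervalIntegrable
    fun_prop
  · apply Continuous.intervalIntegrable
    fun_prop
  · have h1 : 0 ≤ θ * t := mul_nonneg hθ.1 ht.1
    have h2 : θ * t ≤ s := by
      have := mul_le_mul_of_nonneg_right hθ.2 ht.1
      linarith [ht.2]
    have h3 := hfg _ h1 h2
    have h4 : 0 ≤ θ / 4 := by linarith [hθ.1]
    exact mul_le_mul_of_nonneg_left h3 h4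

end Pool.Agent.Q82.QD
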