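import Mathlib
import Pool.Agent.Helper112.LS

/-!
# Reversed primes: the digit product

`rv b n m` is the reverse of the `n`-digit block `m`; `FF b n α θ` is the exponential sum
`∑ e(α b rv(m) + θ m)` over the `n`-digit blocks, written as a product over the digits.
-/

set_option autoImplicit false

namespace Pool.Agent.Q252.RP

open Finset
open Pool.Agent.Helper112 (ee ls_ee_zero ls_ee_add ls_ee_int ls_ee_nat ls_norm_ee)

/-- the reverse of an `n`-digit block -/
def rv (b : ℕ) : ℕ → ℕ → ℕ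
  | 0, _ => 0
  | n + 1, m => (m % b) * b ^ n + rv b n (m / b)

/-- the sum over one digit -/
noncomputable def ph (b : ℕ) (x : ℝ) : ℂ := ∑ j ∈ range b, ee (j * x)

/-- the digit product -/
noncomputable def FF (b : ℕ) : ℕ → ℝ → ℝ → ℂ
  | 0, _, _ => 1
  | n + 1, α, θ => ph b (α * (b : ℝ) ^ (n + 1) + θ) * FF b n α (b * θ)

lemma rv_lt {b : ℕ} (hb : 0 < b) (n m : ℕ) : rv b n m < b ^ n := by
  induction n generalizing m with
  | zero => simp [rv]
  | succ n ih =>
    rw [rv, pow_succ]
    have h1 := ih (m / b)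
    have h2 := Nat.mod_lt m hb
    calc m % b * b ^ n + rv b n (m / b) < m % b * b ^ n + b ^ n := by omega
      _ = (m % b + 1) * b ^ n := by ring
      _ ≤ b * b ^ n := Nat.mul_le_mul_right _ h2
      _ = b ^ n * b := by ring

/-- sums over blocks of `n + 1` digits -/
lemma sum_blocks {M : Type*} [AddCommMonoid M] {b : ℕ} (hb : 0 < b) (n : ℕ) (f : ℕ → M) :
    ∑ m ∈ range (b ^ (n + 1)), f m = ∑ j ∈ range b, ∑ m ∈ range (b ^ n), f (j + b * m) := by
  rw [← Finset.sum_product']
  symm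
  refine Finset.sum_nbij' (fun x => x.1 + b * x.2) (fun m => (m % b, m / b)) ?_ ?_ ?_ ?_ ?_
  · rintro ⟨j, m⟩ h
    rw [mem_product, mem_range, mem_range] at h
    simp only at h
    rw [mem_range, pow_succ]
    calc j + b * m < b + b * m := by omega
      _ = b * (m + 1) := by ring
      _ ≤ b * b ^ n := Nat.mul_le_mul_left _ h.2
      _ = b ^ n * b := by ring
  · intro m h
    rw [mem_range, pow_succ] at h
    rw [mem_product, mem_range, mem_range]
    exact ⟨Nat.mod_lt _ hb, Nat.div_lt_of_lt_mul (by rwa [mul_comm])⟩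
  · rintro ⟨j, m⟩ h
    rw [mem_product, mem_range, mem_range] at h
    simp only at h
    simp only [Prod.mk.injEq]
    constructor
    · rw [Nat.add_mul_mod_self_left, Nat.mod_eq_of_lt h.1]
    · rw [Nat.add_mul_div_left _ _ hb, Nat.div_eq_of_lt h.1, zero_add]
  · intro m _
    exact Nat.mod_add_div m b
  · rintro ⟨j, m⟩ _
    rfl

lemma rv_add {b : ℕ} (hb : 0 < b) (n : ℕ) {j : ℕ} (hj : j < b) (m : ℕ) :
    rv b (n + 1) (j + b * m) = j * b ^ n + rv b n m := by
  rw [rv, Nat.add_mul_mod_self_left, Nat.mod_eq_of_lt hj, Nat.add_mul_div_left _ _ hb,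
    Nat.div_eq_of_lt hj, zero_add]

/-- the exponential sum is the digit product -/
lemma sum_rv {b : ℕ} (hb : 0 < b) (n : ℕ) (α θ : ℝ) :
    ∑ m ∈ range (b ^ n), ee (α * (b * (rv b n m : ℝ)) + θ * m) = FF b n α θ := by
  induction n generalizing θ with
  | zero => simp [rv, FF, ls_ee_zero]
  | succ n ih =>
    rw [sum_blocks hb, FF, ← ih, ph, Finset.sum_mul_sum]
    refine Finset.sum_congr rfl fun j hj => Finset.sum_congr rfl fun m _ => ?_
    rw [mem_range] at hj
    rw [← ls_ee_add, rv_add hb n hj]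
    congr 1
    push_cast
    ring

lemma ph_add_int (b : ℕ) (x : ℝ) (k : ℤ) : ph b (x + k) = ph b x := by
  unfold ph
  refine Finset.sum_congr rfl fun j _ => ?_
  have : (j : ℝ) * (x + k) = j * x + ((j * k : ℤ) : ℝ) := by push_cast; ring
  rw [this, ls_ee_add, ls_ee_int, mul_one]

lemma FF_add_int (b n : ℕ) (α θ : ℝ) (k : ℤ) : FF b n (α + k) θ = FF b n α θ := by
  induction n generalizing θ with
  | zero => rfl
  | succ n ih =>
    rw [FF, FF, ih]
    have : (α + k) * (b : ℝ) ^ (n + 1) + θ = α * (b : ℝ) ^ (n + 1) + θ + ((k * b ^ (n + 1) : ℤ) : ℝ) := by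
      push_cast; ring
    rw [this, ph_add_int]

lemma norm_ph_le (b : ℕ) (x : ℝ) : ‖ph b x‖ ≤ b := by
  unfold ph
  refine (norm_sum_le _ _).trans ?_
  simp [ls_norm_ee]

lemma norm_FF_le (b n : ℕ) (α θ : ℝ) : ‖FF b n α θ‖ ≤ (b : ℝ) ^ n := by
  induction n generalizing θ with
  | zero => simp [FF]
  | succ n ih =>
    rw [FF, norm_mul, pow_succ']
    exact mul_le_mul (norm_ph_le _ _) (ih _) (norm_nonneg _) (Nat.cast_nonneg _)

/-- splitting the digits -/
lemma FF_split (b n1 n2 : ℕ) (α θ : ℝ) :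
    FF b (n1 + n2) α θ = FF b n1 (α * (b : ℝ) ^ n2) θ * FF b n2 α ((b : ℝ) ^ n1 * θ) := by
  induction n1 generalizing θ with
  | zero => simp [FF]
  | succ n ih =>
    have e : n + 1 + n2 = (n + n2) + 1 := by ring
    rw [e, FF, ih, FF, ← mul_assoc]
    congr 2
    · congr 2
      ring
    · ring

end Pool.Agent.Q252.RP
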