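import Pool.Agent.Q252.RP5

/-!
# Reversed primes: additive energy and sumsets of sets with a pseudorandom majorant
-/

set_option autoImplicit false

namespace Pool.Agent.Q252.RP

open Finset
open Pool.Agent.Helper112 (ee ls_ee_zero ls_ee_add ls_ee_int ls_ee_nat ls_norm_ee ls_conj_ee)
open scoped Combinatorics.Additive Pointwise

/-- exponential sum over a set -/
noncomputable def SA (A : Finset ℕ) (θ : ℝ) : ℂ := ∑ a ∈ A, ee (θ * a)

lemma norm_SA_le (A : Finset ℕ) (θ : ℝ) : ‖SA A θ‖ ≤ A.card := by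
  unfold SA
  refine (norm_sum_le _ _).trans ?_
  simp [ls_norm_ee]

lemma SA_neg (A : Finset ℕ) (θ : ℝ) : SA A (-θ) = (starRingEnd ℂ) (SA A θ) := by
  unfold SA
  rw [map_sum]
  refine Finset.sum_congr rfl fun a _ => ?_
  rw [ls_conj_ee]
  congr 1
  ring

lemma detect' {N : ℕ} (hN : 0 < N) {k : ℤ} (hk : |k| < N) :
    (if k = 0 then (1 : ℂ) else 0) = (1 / (N : ℂ)) * ∑ j ∈ range N, ee ((j : ℝ) / N * k) := by
  have h := detect hN k
  have h1 : ((N : ℤ) ∣ k) ↔ k = 0 :=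
    ⟨fun h => Int.eq_zero_of_abs_lt_dvd h hk, fun h => h ▸ dvd_zero _⟩
  simp only [h1] at h
  rw [h]
  congr 1
  refine Finset.sum_congr rfl fun j _ => ?_
  congr 1
  ring

lemma parseval {A : Finset ℕ} {X N : ℕ} (hA : A ⊆ range X) (hN : X ≤ N) (hN0 : 0 < N) :
    ∑ j ∈ range N, ‖SA A ((j : ℝ) / N)‖ ^ 2 = N * A.card := by
  have hNC : (N : ℂ) ≠ 0 := by exact_mod_cast hN0.ne'
  have key : ((∑ j ∈ range N, ‖SA A ((j : ℝ) / N)‖ ^ 2 : ℝ) : ℂ) = (N : ℂ) * A.card := by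
    push_cast
    have e1 : ∀ j ∈ range N, ((‖SA A ((j : ℝ) / N)‖ : ℂ)) ^ 2 =
        ∑ a ∈ A, ∑ a' ∈ A, ee ((j : ℝ) / N * ((a : ℤ) - (a' : ℤ) : ℤ)) := by
      intro j _
      rw [← Complex.mul_conj', ← SA_neg]
      unfold SA
      rw [Finset.sum_mul_sum]
      refine Finset.sum_congr rfl fun a _ => Finset.sum_congr rfl fun a' _ => ?_
      rw [← ls_ee_add]
      congr 1
      push_cast
      ring
    rw [Finset.sum_congr rfl e1, Finset.sum_comm]
    have e2 : ∀ a ∈ A, ∑ j ∈ range N, ∑ a' ∈ A, ee ((j : ℝ) / N * ((a : ℤ) - (a' : ℤ) : ℤ)) = (N : ℂ) := by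
      intro a ha
      rw [Finset.sum_comm]
      have e3 : ∀ a' ∈ A, ∑ j ∈ range N, ee ((j : ℝ) / N * ((a : ℤ) - (a' : ℤ) : ℤ)) =
          if a' = a then (N : ℂ) else 0 := by
        intro a' ha'
        have h1 := mem_range.1 (hA ha)
        have h2 := mem_range.1 (hA ha')
        have h3 : |((a : ℤ) - (a' : ℤ))| < N := by
          rw [abs_lt]; constructor <;> omega
        have h4 := detect' hN0 h3
        have h5 : ∑ j ∈ range N, ee ((j : ℝ) / N * ((a : ℤ) - (a' : ℤ) : ℤ)) =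
            N * (if (a : ℤ) - (a' : ℤ) = 0 then (1 : ℂ) else 0) := by
          rw [h4, ← mul_assoc, mul_one_div_cancel hNC, one_mul]
        rw [h5]
        by_cases h : a' = a
        · subst h; simp
        · rw [if_neg h, if_neg, mul_zero]
          omega
      rw [Finset.sum_congr rfl e3, Finset.sum_ite_eq' A a, if_pos ha]
    rw [Finset.sum_congr rfl e2]
    simp [mul_comm]
  exact_mod_cast key

/-- counting with a weight -/
noncomputable def SW (A : Finset ℕ) (X : ℕ) (f : ℕ → ℝ) : ℝ :=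
  ∑ a ∈ A, ∑ a' ∈ A, ∑ a'' ∈ A, ∑ m ∈ range X, if a + a' = a'' + m then f m else 0

lemma SW_bound {A : Finset ℕ} {X : ℕ} (hX : 0 < X) (hA : A ⊆ range X) (f : ℕ → ℝ) {E : ℝ}
    (hE : ∀ θ : ℝ, ‖∑ m ∈ range X, (f m : ℂ) * ee (θ * m)‖ ≤ E) :
    |SW A X f| ≤ E * (A.card : ℝ) ^ 2 := by
  set N := 2 * X with hNdef
  have hN0 : 0 < N := by omega
  have hNC : (N : ℂ) ≠ 0 := by exact_mod_cast hN0.ne'
  have hNR : (0 : ℝ) < N := by exact_mod_cast hN0
  have hE0 : 0 ≤ E := (norm_nonneg _).trans (hE 0)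
  have key : ((SW A X f : ℝ) : ℂ) = (1 / (N : ℂ)) * ∑ j ∈ range N,
      (SA A (-((j : ℝ) / N)) * SA A (-((j : ℝ) / N)) * SA A ((j : ℝ) / N) *
        ∑ m ∈ range X, (f m : ℂ) * ee ((j : ℝ) / N * m)) := by
    unfold SW
    push_cast
    have e1 : ∀ j ∈ range N, (SA A (-((j : ℝ) / N)) * SA A (-((j : ℝ) / N)) * SA A ((j : ℝ) / N) *
        ∑ m ∈ range X, (f m : ℂ) * ee ((j : ℝ) / N * m)) =
        ∑ a ∈ A, ∑ a' ∈ A, ∑ a'' ∈ A, ∑ m ∈ range X,
          (f m : ℂ) * ee ((j : ℝ) / N * (((a'' : ℤ) + m - a - a' : ℤ) : ℝ)) := by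
      intro j _
      unfold SA
      rw [Finset.sum_mul_sum, Finset.sum_mul, Finset.sum_mul]
      refine Finset.sum_congr rfl fun a _ => ?_
      rw [Finset.sum_mul, Finset.sum_mul]
      refine Finset.sum_congr rfl fun a' _ => ?_
      rw [mul_assoc, Finset.sum_mul_sum, Finset.mul_sum]
      refine Finset.sum_congr rfl fun a'' _ => ?_
      rw [Finset.mul_sum]
      refine Finset.sum_congr rfl fun m _ => ?_
      rw [← ls_ee_add, mul_left_comm (ee ((j : ℝ) / N * a'')), mul_left_comm, ← ls_ee_add,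
        ← ls_ee_add]
      congr 2
      push_cast
      ring
    rw [Finset.sum_congr rfl e1]
    symm
    conv_lhs => rw [Finset.sum_comm, Finset.mul_sum]
    refine Finset.sum_congr rfl fun a ha => ?_
    conv_lhs => rw [Finset.sum_comm, Finset.mul_sum]
    refine Finset.sum_congr rfl fun a' ha' => ?_
    conv_lhs => rw [Finset.sum_comm, Finset.mul_sum]
    refine Finset.sum_congr rfl fun a'' ha'' => ?_
    conv_lhs => rw [Finset.sum_comm, Finset.mul_sum]
    refine Finset.sum_congr rfl fun m hm => ?_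
    rw [← Finset.mul_sum]
    have h1 := mem_range.1 (hA ha)
    have h2 := mem_range.1 (hA ha')
    have h3 := mem_range.1 (hA ha'')
    have h4 := mem_range.1 hm
    have h5 : |((a'' : ℤ) + m - a - a')| < N := by
      rw [abs_lt]; constructor <;> omega
    have h6 := detect' hN0 h5
    rw [mul_left_comm, ← h6]
    by_cases h : a + a' = a'' + m
    · rw [if_pos h, if_pos (by omega), mul_one]
    · rw [if_neg h, if_neg (by omega), mul_zero]
      simp
  have hnorm : ‖((SW A X f : ℝ) : ℂ)‖ ≤ (1 / (N : ℝ)) * ∑ j ∈ range N,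
      (A.card * ‖SA A ((j : ℝ) / N)‖ ^ 2 * E) := by
    rw [key, norm_mul]
    have h1 : ‖(1 / (N : ℂ))‖ = 1 / (N : ℝ) := by simp
    rw [h1]
    apply mul_le_mul_of_nonneg_left _ (by positivity)
    refine (norm_sum_le _ _).trans (Finset.sum_le_sum fun j _ => ?_)
    rw [norm_mul, norm_mul, norm_mul]
    have h2 : ‖SA A (-((j : ℝ) / N))‖ = ‖SA A ((j : ℝ) / N)‖ := by
      rw [SA_neg, Complex.norm_conj]
    rw [h2]
    have h3 := norm_SA_le A ((j : ℝ) / N)
    have h4 := hE ((j : ℝ) / N)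
    have h5 : ‖SA A ((j : ℝ) / N)‖ * ‖SA A ((j : ℝ) / N)‖ * ‖SA A ((j : ℝ) / N)‖ ≤
        A.card * ‖SA A ((j : ℝ) / N)‖ ^ 2 := by
      have : 0 ≤ ‖SA A ((j : ℝ) / N)‖ ^ 2 := by positivity
      nlinarith
    exact mul_le_mul h5 h4 (norm_nonneg _) (by positivity)
  rw [Complex.norm_real, Real.norm_eq_abs] at hnorm
  refine hnorm.trans (le_of_eq ?_)
  rw [← Finset.sum_mul, ← Finset.mul_sum, parseval hA (by omega : X ≤ N) hN0]
  field_simp

lemma SW_one_le {A : Finset ℕ} {X : ℕ} : SW A X (fun _ => 1) ≤ (A.card : ℝ) ^ 3 := by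
  unfold SW
  have h : ∀ a ∈ A, ∀ a' ∈ A, ∀ a'' ∈ A,
      ∑ m ∈ range X, (if a + a' = a'' + m then (1 : ℝ) else 0) ≤ 1 := by
    intro a _ a' _ a'' _
    rw [← Finset.sum_filter, Finset.sum_const, nsmul_eq_mul, mul_one]
    have h1 : ((range X).filter (fun m => a + a' = a'' + m)).card ≤ 1 := by
      rw [Finset.card_le_one]
      intro x hx y hy
      rw [mem_filter] at hx hy
      omega
    exact_mod_cast h1
  calc _ ≤ ∑ a ∈ A, ∑ a' ∈ A, ∑ a'' ∈ A, (1 : ℝ) :=
        Finset.sum_le_sum fun a ha => Finset.sum_le_sum fun a' ha' => Finset.sum_le_sum fun a'' ha'' =>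
          h a ha a' ha' a'' ha''
    _ = (A.card : ℝ) ^ 3 := by
        simp only [Finset.sum_const, nsmul_eq_mul, mul_one]
        ring

/-- The energy of a set with a pseudorandom majorant. -/
lemma energy_le {A : Finset ℕ} {X : ℕ} (hX : 0 < X) (hA : A ⊆ range X) (w : ℕ → ℝ)
    (hw : ∀ m, 0 ≤ w m) (hwA : ∀ a ∈ A, 1 ≤ w a) {V E : ℝ} (hV : 0 ≤ V)
    (hE : ∀ θ : ℝ, ‖∑ m ∈ range X, ((w m : ℂ) - (V : ℝ)) * ee (θ * m)‖ ≤ E) :
    (E[A, A] : ℝ) ≤ V * (A.card : ℝ) ^ 3 + E * (A.card : ℝ) ^ 2 := by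
  have h1 : (E[A, A] : ℝ) ≤ SW A X w := by
    unfold Finset.addEnergy SW
    rw [Finset.card_filter]
    push_cast
    rw [Finset.sum_product]
    have h2 : ∀ x ∈ A ×ˢ A, (∑ y ∈ A ×ˢ A, if x.1 + y.1 = x.2 + y.2 then (1 : ℝ) else 0) ≤
        ∑ a' ∈ A, ∑ m ∈ range X, if x.1 + a' = x.2 + m then w m else 0 := by
      intro x _
      rw [Finset.sum_product]
      refine Finset.sum_le_sum fun a' _ => ?_
      simp only
      calc ∑ y ∈ A, (if x.1 + a' = x.2 + y then (1 : ℝ) else 0)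
          ≤ ∑ y ∈ A, (if x.1 + a' = x.2 + y then w y else 0) := by
            refine Finset.sum_le_sum fun y hy => ?_
            split_ifs
            · exact hwA y hy
            · exact le_rfl
        _ ≤ _ := by
            apply Finset.sum_le_sum_of_subset_of_nonneg hA
            intro m _ _
            split_ifs
            · exact hw m
            · exact le_rfl
    refine (Finset.sum_le_sum h2).trans (le_of_eq ?_)
    rw [Finset.sum_product]
    refine Finset.sum_congr rfl fun a _ => ?_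
    rw [Finset.sum_comm]
  have h3 : SW A X w = V * SW A X (fun _ => 1) + SW A X (fun m => w m - V) := by
    unfold SW
    rw [Finset.mul_sum, ← Finset.sum_add_distrib]
    refine Finset.sum_congr rfl fun a _ => ?_
    rw [Finset.mul_sum, ← Finset.sum_add_distrib]
    refine Finset.sum_congr rfl fun a' _ => ?_
    rw [Finset.mul_sum, ← Finset.sum_add_distrib]
    refine Finset.sum_congr rfl fun a'' _ => ?_
    rw [Finset.mul_sum, ← Finset.sum_add_distrib]
    refine Finset.sum_congr rfl fun m _ => ?_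
    split_ifs
    · ring
    · ring
  have h4 : |SW A X (fun m => w m - V)| ≤ E * (A.card : ℝ) ^ 2 := by
    apply SW_bound hX hA
    intro θ
    refine le_trans (le_of_eq ?_) (hE θ)
    congr 1
    refine Finset.sum_congr rfl fun m _ => ?_
    push_cast
    rfl
  have h5 := SW_one_le (A := A) (X := X)
  have h6 := (abs_le.1 h4).2
  rw [h3] at h1
  have h7 := mul_le_mul_of_nonneg_left h5 hV
  linarith

/-- A lower bound for the sumset. -/
lemma card_add_ge {A : Finset ℕ} {X : ℕ} (hX : 0 < X) (hA : A ⊆ range X) (hne : A.Nonempty)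
    (w : ℕ → ℝ) (hw : ∀ m, 0 ≤ w m) (hwA : ∀ a ∈ A, 1 ≤ w a) {V V' E : ℝ} (hV : 0 ≤ V)
    (hVV : V ≤ V') (hV' : 0 < V') (hEV : E ≤ V' * A.card)
    (hE : ∀ θ : ℝ, ‖∑ m ∈ range X, ((w m : ℂ) - (V : ℝ)) * ee (θ * m)‖ ≤ E) :
    (A.card : ℝ) / (2 * V') ≤ ((A + A).card : ℝ) := by
  have h1 := energy_le hX hA w hw hwA hV hE
  have h2 : ((A.card ^ 2 * A.card ^ 2 : ℕ) : ℝ) ≤ (((A + A).card * E[A, A] : ℕ) : ℝ) := by
    exact_mod_cast Finset.le_card_add_mul_addEnergy A A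
  push_cast at h2
  have hA0 : (0 : ℝ) < A.card := by exact_mod_cast hne.card_pos
  have h3 : (E[A, A] : ℝ) ≤ 2 * V' * (A.card : ℝ) ^ 3 := by
    have h4 : V * (A.card : ℝ) ^ 3 ≤ V' * (A.card : ℝ) ^ 3 :=
      mul_le_mul_of_nonneg_right hVV (by positivity)
    have h5 : E * (A.card : ℝ) ^ 2 ≤ V' * A.card * (A.card : ℝ) ^ 2 :=
      mul_le_mul_of_nonneg_right hEV (by positivity)
    nlinarith
  have h6 : (A.card : ℝ) ^ 2 * (A.card : ℝ) ^ 2 ≤ ((A + A).card : ℝ) * (2 * V' * (A.card : ℝ) ^ 3) :=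
    h2.trans (mul_le_mul_of_nonneg_left h3 (Nat.cast_nonneg _))
  rw [div_le_iff₀ (by positivity)]
  have h7 : 0 < (A.card : ℝ) ^ 3 := by positivity
  have h8 : (A.card : ℝ) * (A.card : ℝ) ^ 3 ≤ (((A + A).card : ℝ) * (2 * V')) * (A.card : ℝ) ^ 3 := by
    nlinarith
  exact le_of_mul_le_mul_right h8 h7

end Pool.Agent.Q252.RP
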