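import Pool.Agent.Q252.RP8
import Pool.Agent.Q252.RP9
import Pool.Agent.TH423.SH.PAIP

/-!
# Reversed primes: the sumset of the reversed primes with leading digit one
-/

set_option autoImplicit false

namespace Pool.Agent.Q252.RP

open Finset Filter
open Pool.Agent.Helper112 (ee ls_norm_ee)
open scoped Pointwise

/-- primes in a residue class, between two powers of the base -/
lemma primes_lower {b : ℕ} (hb : 2 ≤ b) : ∃ n0 : ℕ, ∀ n : ℕ, n0 ≤ n → ∀ d : ℕ, d.Coprime b → d < b →
    (b : ℝ) ^ (n + 1) / (4 * (Nat.totient b : ℝ) * (n + 1) * Real.log b) ≤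
      (((Ioo (b ^ n) (b ^ (n + 1))).filter (fun q => q.Prime ∧ q % b = d)).card : ℝ) := by
  obtain ⟨x0, hx0⟩ := Pool.Agent.TH423.SH.pai b (by omega) (1 / 4) (1 / 3) (by norm_num) (by norm_num)
  have hb' : (2 : ℝ) ≤ b := by exact_mod_cast hb
  have hb0 : (0 : ℝ) < b := by linarith
  have hlog : 0 < Real.log b := Real.log_pos (by linarith)
  have hφ : (0 : ℝ) < (Nat.totient b : ℝ) := by exact_mod_cast Nat.totient_pos.2 (by omega : 0 < b)
  obtain ⟨n1, hn1⟩ : ∃ n1 : ℕ, ∀ n : ℕ, n1 ≤ n → x0 ≤ (b : ℝ) ^ (n + 1) := by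
    have h1 := (tendsto_pow_atTop_atTop_of_one_lt (show (1 : ℝ) < b by linarith)).eventually_ge_atTop x0
    obtain ⟨n1, h⟩ := eventually_atTop.1 h1
    exact ⟨n1, fun n hn => h (n + 1) (by omega)⟩
  refine ⟨n1 + 2, fun n hn d hd hdb => ?_⟩
  set X := b ^ (n + 1) with hX
  have hXR : ((X : ℕ) : ℝ) = (b : ℝ) ^ (n + 1) := by rw [hX]; push_cast; rfl
  have hX8 : 8 ≤ X := by
    calc 8 = 2 ^ 3 := by norm_num
      _ ≤ b ^ 3 := Nat.pow_le_pow_left hb 3
      _ ≤ b ^ (n + 1) := Nat.pow_le_pow_right (by omega) (by omega)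
  set u := X - X / 2 with hu
  have hu1 : (X : ℝ) / 2 ≤ u := by
    have : X ≤ 2 * u := by omega
    have : (X : ℝ) ≤ 2 * u := by exact_mod_cast this
    linarith
  have hu2 : (u : ℝ) + 1 / 3 * X ≤ X := by
    have : 3 * u + X ≤ 3 * X := by omega
    have : 3 * (u : ℝ) + X ≤ 3 * X := by exact_mod_cast this
    linarith
  have h1 := hx0 (X : ℝ) (by rw [hXR]; exact hn1 n (by omega)) u X d hu1 (by
    have : (0 : ℝ) ≤ X := Nat.cast_nonneg _
    linarith) hu2 hd
  have hlogX : Real.log (X : ℝ) = ((n : ℝ) + 1) * Real.log b := by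
    rw [hXR, Real.log_pow]
    push_cast
    rfl
  set D : ℝ := ((X : ℝ) - u) / (Nat.totient b * Real.log X) with hD
  have hlogX0 : 0 < Real.log (X : ℝ) := by
    rw [hlogX]
    positivity
  have h2 : (3 / 4) * D ≤
      (((Ioc u X).filter (fun q => q.Prime ∧ q % b = d % b)).card : ℝ) := by
    have := (abs_le.1 h1).1
    linarith
  have h3 : (X : ℝ) / 3 / (Nat.totient b * Real.log X) ≤ D := by
    rw [hD]
    apply div_le_div_of_nonneg_right _ (by positivity)
    linarith
  have h4 : ((Ioc u X).filter (fun q => q.Prime ∧ q % b = d % b)) ⊆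
      ((Ioo (b ^ n) (b ^ (n + 1))).filter (fun q => q.Prime ∧ q % b = d)) := by
    intro q hq
    rw [mem_filter, mem_Ioc] at hq
    rw [mem_filter, mem_Ioo]
    have h5 : b ^ n ≤ u := by
      have h6 : 2 * b ^ n ≤ X := by
        rw [hX, pow_succ, mul_comm]
        exact Nat.mul_le_mul_left _ hb
      omega
    refine ⟨⟨by omega, ?_⟩, hq.2.1, by rw [hq.2.2, Nat.mod_eq_of_lt hdb]⟩
    refine lt_of_le_of_ne hq.1.2 ?_
    intro h6
    have h7 := hq.2.1
    rw [h6] at h7
    exact Nat.Prime.not_prime_pow (by omega : 2 ≤ n + 1) h7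
  have h5 := Finset.card_le_card h4
  have h6 : (((Ioc u X).filter (fun q => q.Prime ∧ q % b = d % b)).card : ℝ) ≤
      (((Ioo (b ^ n) (b ^ (n + 1))).filter (fun q => q.Prime ∧ q % b = d)).card : ℝ) := by
    exact_mod_cast h5
  refine le_trans ?_ h6
  refine le_trans ?_ h2
  have h7 : (b : ℝ) ^ (n + 1) / (4 * (Nat.totient b : ℝ) * (n + 1) * Real.log b) =
      3 / 4 * ((X : ℝ) / 3 / (Nat.totient b * Real.log X)) := by
    rw [hlogX, hXR]
    field_simp
  rw [h7]
  exact mul_le_mul_of_nonneg_left h3 (by norm_num)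

/-- the reversed primes with leading digit one, without that digit -/
def AA (b n : ℕ) : Finset ℕ :=
  (range (b ^ n)).filter (fun m => b ^ (n - 1) ≤ rv b n m ∧ (1 + b * rv b n m).Prime)

lemma rv_image {b : ℕ} (hb : 0 < b) (n : ℕ) : (range (b ^ n)).image (rv b n) = range (b ^ n) := by
  apply Finset.eq_of_subset_of_card_le
  · intro x hx
    rw [mem_image] at hx
    obtain ⟨m, _, rfl⟩ := hx
    exact mem_range.2 (rv_lt hb n m)
  · rw [Finset.card_image_of_injOn (rv_inj hb n)]

lemma AA_lower {b : ℕ} (hb : 2 ≤ b) : ∃ n0 : ℕ, ∀ n : ℕ, n0 ≤ n →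
    (b : ℝ) ^ (n + 1) / (4 * (Nat.totient b : ℝ) * (n + 1) * Real.log b) ≤ ((AA b n).card : ℝ) := by
  obtain ⟨n0, h⟩ := primes_lower hb
  refine ⟨n0 + 1, fun n hn => ?_⟩
  refine (h n (by omega) 1 (by simp) (by omega)).trans ?_
  have h1 : ((Ioo (b ^ n) (b ^ (n + 1))).filter (fun q => q.Prime ∧ q % b = 1)).card ≤ (AA b n).card := by
    calc ((Ioo (b ^ n) (b ^ (n + 1))).filter (fun q => q.Prime ∧ q % b = 1)).card
        ≤ ((AA b n).image (fun m => 1 + b * rv b n m)).card := by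
          apply Finset.card_le_card
          intro q hq
          rw [mem_filter, mem_Ioo] at hq
          obtain ⟨⟨h1, h2⟩, h3, h4⟩ := hq
          have h5 : q = 1 + b * (q / b) := by
            have := Nat.mod_add_div q b
            omega
          have h6 : q / b < b ^ n := by
            apply Nat.div_lt_of_lt_mul
            rw [← pow_succ']
            exact h2
          have h7 : q / b ∈ (range (b ^ n)).image (rv b n) := by
            rw [rv_image (by omega)]
            exact mem_range.2 h6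
          rw [mem_image] at h7
          obtain ⟨m, hm, hm2⟩ := h7
          rw [mem_image]
          refine ⟨m, ?_, ?_⟩
          · rw [AA, mem_filter]
            refine ⟨hm, ?_, ?_⟩
            · rw [hm2, Nat.le_div_iff_mul_le (by omega), ← pow_succ]
              have : n - 1 + 1 = n := by omega
              rw [this]
              exact h1.le
            · rw [hm2, ← h5]
              exact h3
          · rw [hm2, ← h5]
      _ ≤ _ := Finset.card_image_le
  exact_mod_cast h1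

/-- the constant of the sumset bound -/
noncomputable def cc (b : ℕ) : ℝ := (Nat.totient (b ^ 2 - 1) : ℝ) / (512 * ((b ^ 2 - 1 : ℕ) : ℝ))

lemma cc_pos {b : ℕ} (hb : 2 ≤ b) : 0 < cc b := by
  unfold cc
  have h1 : 4 ≤ b ^ 2 := by nlinarith
  have h2 : 0 < b ^ 2 - 1 := by omega
  have h3 : 0 < Nat.totient (b ^ 2 - 1) := Nat.totient_pos.2 h2
  have h4 : (0 : ℝ) < ((b ^ 2 - 1 : ℕ) : ℝ) := by exact_mod_cast h2
  have h5 : (0 : ℝ) < (Nat.totient (b ^ 2 - 1) : ℝ) := by exact_mod_cast h3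
  positivity

/-- the sumset has positive density -/
theorem sumset_lower {b : ℕ} (hb : 2 ≤ b) : ∃ n0 : ℕ, ∀ n : ℕ, n0 ≤ n →
    cc b * (b : ℝ) ^ n ≤ ((AA b n + AA b n).card : ℝ) := by
  have hb' : (2 : ℝ) ≤ b := by exact_mod_cast hb
  have hb0 : (0 : ℝ) < b := by linarith
  have hlog : 0 < Real.log b := Real.log_pos (by linarith)
  have hφ : (0 : ℝ) < (Nat.totient b : ℝ) := by exact_mod_cast Nat.totient_pos.2 (by omega : 0 < b)
  have hφb : (Nat.totient b : ℝ) ≤ b := by exact_mod_cast Nat.totient_le b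
  set M := b * (b ^ 2 - 1) with hM
  have hb2 : 0 < b ^ 2 - 1 := by
    have h1 : 4 ≤ b ^ 2 := by nlinarith
    omega
  have hM0 : 0 < M := Nat.mul_pos (by omega) hb2
  have hφM : (0 : ℝ) < (Nat.totient M : ℝ) := by exact_mod_cast Nat.totient_pos.2 hM0
  have hφM' : (Nat.totient M : ℝ) ≤ M := by exact_mod_cast Nat.totient_le M
  have hMR : (0 : ℝ) < M := by exact_mod_cast hM0
  obtain ⟨n1, h1⟩ := err_small hb (ε := 4 / (Real.log b) ^ 2) (by positivity)
  obtain ⟨n2, h2⟩ := AA_lower hb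
  refine ⟨n1 + n2 + 16, fun n hn => ?_⟩
  have hn0 : 0 < n := by omega
  have hnR : (16 : ℝ) ≤ n := by exact_mod_cast (by omega : 16 ≤ n)
  have hA := h2 n (by omega)
  have hA2 : (b : ℝ) ^ (n + 1) / (8 * (Nat.totient b : ℝ) * n * Real.log b) ≤ ((AA b n).card : ℝ) := by
    refine le_trans ?_ hA
    apply div_le_div_of_nonneg_left (by positivity) (by positivity)
    have : (n : ℝ) + 1 ≤ 2 * n := by linarith
    have h3 : 0 < 4 * (Nat.totient b : ℝ) * Real.log b := by positivity
    nlinarith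
  set D := b ^ (n / 8) with hD
  have hD1 : 1 ≤ D := Nat.one_le_pow _ _ (by omega)
  set V' : ℝ := 32 * ((M : ℝ) / (Nat.totient M : ℝ)) / (n * Real.log b) with hV'
  have hV'0 : 0 < V' := by rw [hV']; positivity
  have hVV : VV M D ≤ V' := by
    refine (VV_le hM0.ne' hD1).trans ?_
    have h3 : (n : ℝ) / 16 * Real.log b ≤ Real.log ((D : ℝ) + 1) := by
      have h4 : (n : ℝ) / 16 ≤ ((n / 8 : ℕ) : ℝ) := by
        have : n ≤ 16 * (n / 8) := by omega
        have : (n : ℝ) ≤ 16 * ((n / 8 : ℕ) : ℝ) := by exact_mod_cast this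
        linarith
      have h5 : Real.log (D : ℝ) = ((n / 8 : ℕ) : ℝ) * Real.log b := by
        rw [hD]; push_cast; rw [Real.log_pow]
      have h6 : Real.log (D : ℝ) ≤ Real.log ((D : ℝ) + 1) := by
        apply Real.log_le_log
        · exact_mod_cast hD1
        · linarith
      calc (n : ℝ) / 16 * Real.log b ≤ ((n / 8 : ℕ) : ℝ) * Real.log b :=
            mul_le_mul_of_nonneg_right h4 hlog.le
        _ = Real.log (D : ℝ) := h5.symm
        _ ≤ _ := h6
    calc 2 * ((M : ℝ) / (Nat.totient M : ℝ)) / Real.log ((D : ℝ) + 1)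
        ≤ 2 * ((M : ℝ) / (Nat.totient M : ℝ)) / ((n : ℝ) / 16 * Real.log b) := by
          apply div_le_div_of_nonneg_left (by positivity) (by positivity) h3
      _ = V' := by
          rw [hV']
          field_simp
          norm_num
  have hne : (AA b n).Nonempty := by
    rw [← Finset.card_pos]
    have h3 : 0 < (b : ℝ) ^ (n + 1) / (8 * (Nat.totient b : ℝ) * n * Real.log b) := by positivity
    exact_mod_cast lt_of_lt_of_le h3 hA2
  have hEV : 4 / (Real.log b) ^ 2 * (b : ℝ) ^ n / (n : ℝ) ^ 2 ≤ V' * (AA b n).card := by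
    have h3 : V' * ((b : ℝ) ^ (n + 1) / (8 * (Nat.totient b : ℝ) * n * Real.log b)) ≤
        V' * (AA b n).card := mul_le_mul_of_nonneg_left hA2 hV'0.le
    refine le_trans ?_ h3
    have h4 : V' * ((b : ℝ) ^ (n + 1) / (8 * (Nat.totient b : ℝ) * n * Real.log b)) =
        (4 / (Real.log b) ^ 2 * (b : ℝ) ^ n / (n : ℝ) ^ 2) *
          (((M : ℝ) / (Nat.totient M : ℝ)) * ((b : ℝ) / (Nat.totient b : ℝ))) := by
      rw [hV', pow_succ]
      field_simp
      norm_num
    rw [h4]
    have h5 : 1 ≤ (M : ℝ) / (Nat.totient M : ℝ) := by rw [one_le_div hφM]; exact hφM'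
    have h6 : 1 ≤ (b : ℝ) / (Nat.totient b : ℝ) := by rw [one_le_div hφ]; exact hφb
    apply le_mul_of_one_le_right (by positivity)
    exact one_le_mul_of_one_le_of_one_le h5 h6
  have hmain := card_add_ge (A := AA b n) (X := b ^ n) (pow_pos (by omega) n)
    (Finset.filter_subset _ _) hne (fun m => maj M D (NN b n m)) (fun m => maj_nonneg _ _ _)
    (by
      intro a ha
      rw [AA, mem_filter] at ha
      obtain ⟨h3, h4, h5⟩ := ha
      have h6 : D < NN b n a := by
        unfold NN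
        have h7 : D ≤ b ^ (n - 1) := Nat.pow_le_pow_right (by omega) (by omega)
        calc D ≤ b ^ (n - 1) := h7
          _ ≤ rv b n a := h4
          _ = 1 * rv b n a := (one_mul _).symm
          _ ≤ b * rv b n a := Nat.mul_le_mul_right _ (by omega)
          _ < 1 + b * rv b n a := by omega
      rw [maj_prime hD1 (show (NN b n a).Prime from h5) h6])
    (V := VV M D) (V' := V') (E := 4 / (Real.log b) ^ 2 * (b : ℝ) ^ n / (n : ℝ) ^ 2)
    (VV_pos hD1).le hVV hV'0 hEV (h1 n (by omega))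
  refine le_trans ?_ hmain
  have h3 : ((b : ℝ) ^ (n + 1) / (8 * (Nat.totient b : ℝ) * n * Real.log b)) / (2 * V') ≤
      ((AA b n).card : ℝ) / (2 * V') := div_le_div_of_nonneg_right hA2 (by positivity)
  refine le_trans (le_of_eq ?_) h3
  have hcop : Nat.Coprime b (b ^ 2 - 1) := by
    have h4 : Nat.Coprime b (b ^ 2 - 1 + 1 - 1) := by
      rw [Nat.add_sub_cancel]
      have h5 : b ^ 2 - 1 + 1 = b * b := by
        have : 1 ≤ b ^ 2 := Nat.one_le_pow _ _ (by omega)
        rw [Nat.sub_add_cancel this]; ring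
      rw [Nat.coprime_iff_gcd_eq_one]
      have h6 : Nat.gcd b (b ^ 2 - 1) ∣ 1 := by
        have h7 : Nat.gcd b (b ^ 2 - 1) ∣ b * b := (Nat.gcd_dvd_left _ _).trans (dvd_mul_right _ _)
        have h8 : Nat.gcd b (b ^ 2 - 1) ∣ b ^ 2 - 1 := Nat.gcd_dvd_right _ _
        rw [← h5] at h7
        exact (Nat.dvd_add_right h8).1 h7
      exact Nat.dvd_one.1 h6
    simpa using h4
  have htot : (Nat.totient M : ℝ) = (Nat.totient b : ℝ) * (Nat.totient (b ^ 2 - 1) : ℝ) := by
    rw [hM, Nat.totient_mul hcop]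
    push_cast
    rfl
  have hMc : (M : ℝ) = b * ((b ^ 2 - 1 : ℕ) : ℝ) := by rw [hM]; push_cast; rfl
  have h5 : (0 : ℝ) < ((b ^ 2 - 1 : ℕ) : ℝ) := by exact_mod_cast hb2
  have h6 : (0 : ℝ) < (Nat.totient (b ^ 2 - 1) : ℝ) := by exact_mod_cast Nat.totient_pos.2 hb2
  rw [hV', cc, htot, hMc, pow_succ (b : ℝ) n]
  field_simp
  norm_num

end Pool.Agent.Q252.RP
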