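import Mathlib

/-!
# Reversed primes: a finite form of the theorem of Schnirelmann
-/

set_option autoImplicit false

namespace Pool.Agent.Q252.RP

open Finset
open scoped Pointwise

open Classical in
/-- the number of elements of `S` in `[1, y]` -/
noncomputable def cnt (S : Set ℕ) (y : ℕ) : ℕ := ((Icc 1 y).filter (fun x => x ∈ S)).card

lemma cnt_le (S : Set ℕ) (y : ℕ) : cnt S y ≤ y := by
  classical
  unfold cnt
  have := Finset.card_filter_le (Icc 1 y) (fun x => x ∈ S)
  rwa [Nat.card_Icc, Nat.add_sub_cancel] at this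

lemma cnt_mono {S T : Set ℕ} (h : S ⊆ T) (y : ℕ) : cnt S y ≤ cnt T y := by
  classical
  unfold cnt
  apply Finset.card_le_card
  intro x hx
  rw [mem_filter] at hx ⊢
  exact ⟨hx.1, h hx.2⟩

lemma cnt_eq_self {S : Set ℕ} {y : ℕ} (h : ∀ x, 1 ≤ x → x ≤ y → x ∈ S) : cnt S y = y := by
  classical
  unfold cnt
  rw [Finset.filter_true_of_mem, Nat.card_Icc, Nat.add_sub_cancel]
  intro x hx
  rw [mem_Icc] at hx
  exact h x hx.1 hx.2

lemma card_le_cnt {S : Set ℕ} {y : ℕ} (T : Finset ℕ) (h : ∀ x ∈ T, 1 ≤ x ∧ x ≤ y ∧ x ∈ S) :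
    T.card ≤ cnt S y := by
  classical
  unfold cnt
  apply Finset.card_le_card
  intro x hx
  rw [mem_filter, mem_Icc]
  obtain ⟨h1, h2, h3⟩ := h x hx
  exact ⟨⟨h1, h2⟩, h3⟩

/-- the inequality of Schnirelmann -/
lemma cnt_add {S T : Set ℕ} (hS : (0 : ℕ) ∈ S) (hT : (0 : ℕ) ∈ T) {β : ℝ} {Z : ℕ}
    (h : ∀ y ≤ Z, β * y ≤ cnt T y) (y : ℕ) (hy : y ≤ Z) :
    (cnt S y : ℝ) + β * (y - cnt S y) ≤ cnt (S + T) y := by
  classical
  induction y using Nat.strong_induction_on with
  | _ y ih =>
    by_cases hne : ((Icc 1 y).filter (fun x => x ∈ S)).Nonempty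
    · set a := ((Icc 1 y).filter (fun x => x ∈ S)).max' hne with ha
      have hmem := Finset.max'_mem _ hne
      rw [← ha, mem_filter, mem_Icc] at hmem
      obtain ⟨⟨ha1, hay⟩, haS⟩ := hmem
      -- splitting of `cnt S y`
      have e1 : cnt S y = cnt S (a - 1) + 1 := by
        unfold cnt
        have : (Icc 1 y).filter (fun x => x ∈ S) =
            insert a ((Icc 1 (a - 1)).filter (fun x => x ∈ S)) := by
          ext x
          rw [mem_insert, mem_filter, mem_filter, mem_Icc, mem_Icc]
          constructor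
          · rintro ⟨⟨h1, h2⟩, h3⟩
            have h4 : x ≤ a := Finset.le_max' _ x (by rw [mem_filter, mem_Icc]; exact ⟨⟨h1, h2⟩, h3⟩)
            by_cases h5 : x = a
            · exact Or.inl h5
            · exact Or.inr ⟨⟨h1, by omega⟩, h3⟩
          · rintro (h | ⟨⟨h1, h2⟩, h3⟩)
            · rw [h]; exact ⟨⟨ha1, hay⟩, haS⟩
            · exact ⟨⟨h1, by omega⟩, h3⟩
        rw [this, Finset.card_insert_of_notMem]
        rw [mem_filter, mem_Icc]
        omega
      -- lower bound of `cnt (S + T) y`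
      have e2 : cnt (S + T) (a - 1) + (1 + cnt T (y - a)) ≤ cnt (S + T) y := by
        unfold cnt
        have hinj : Set.InjOn (fun t => a + t) ((Icc 1 (y - a)).filter (fun x => x ∈ T) : Finset ℕ) :=
          fun x _ y _ h => by simpa using h
        have hsub : ((Icc 1 (a - 1)).filter (fun x => x ∈ S + T)) ∪
            (insert a (((Icc 1 (y - a)).filter (fun x => x ∈ T)).image (fun t => a + t))) ⊆
            (Icc 1 y).filter (fun x => x ∈ S + T) := by
          intro x hx
          rw [mem_union, mem_insert, mem_image, mem_filter, mem_Icc] at hx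
          rw [mem_filter, mem_Icc]
          rcases hx with ⟨⟨h1, h2⟩, h3⟩ | h1 | ⟨t, h1, h2⟩
          · exact ⟨⟨h1, by omega⟩, h3⟩
          · rw [h1]
            exact ⟨⟨ha1, hay⟩, Set.mem_add.2 ⟨a, haS, 0, hT, add_zero a⟩⟩
          · rw [mem_filter, mem_Icc] at h1
            refine ⟨⟨by omega, by omega⟩, ?_⟩
            rw [← h2]
            exact Set.mem_add.2 ⟨a, haS, t, h1.2, rfl⟩
        have hcard := Finset.card_le_card hsub
        rw [Finset.card_union_of_disjoint, Finset.card_insert_of_notMem,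
          Finset.card_image_of_injOn hinj] at hcard
        · omega
        · rw [mem_image]
          rintro ⟨t, h1, h2⟩
          rw [mem_filter, mem_Icc] at h1
          omega
        · rw [Finset.disjoint_left]
          intro x hx hx2
          rw [mem_filter, mem_Icc] at hx
          rw [mem_insert, mem_image] at hx2
          rcases hx2 with h1 | ⟨t, h1, h2⟩
          · omega
          · omega
      have h3 := ih (a - 1) (by omega) (by omega)
      have h4 := h (y - a) (by omega)
      have e3 : ((a - 1 : ℕ) : ℝ) = (a : ℝ) - 1 := by rw [Nat.cast_sub ha1]; simp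
      have e4 : ((y - a : ℕ) : ℝ) = (y : ℝ) - a := by rw [Nat.cast_sub hay]
      have e5 : (cnt S y : ℝ) = cnt S (a - 1) + 1 := by exact_mod_cast e1
      have e6 : (cnt (S + T) (a - 1) : ℝ) + (1 + cnt T (y - a)) ≤ cnt (S + T) y := by exact_mod_cast e2
      rw [e3] at h3
      rw [e4] at h4
      rw [e5]
      nlinarith
    · have h1 : cnt S y = 0 := by
        unfold cnt
        rw [Finset.card_eq_zero]
        exact Finset.not_nonempty_iff_eq_empty.1 hne
      have h2 : cnt T y ≤ cnt (S + T) y := by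
        apply cnt_mono
        intro x hx
        exact Set.mem_add.2 ⟨0, hS, x, hx, zero_add x⟩
      rw [h1]
      have h3 := h y hy
      have h4 : (cnt T y : ℝ) ≤ cnt (S + T) y := by exact_mod_cast h2
      push_cast
      linarith

/-- iterated sumsets -/
def SS (S : Set ℕ) : ℕ → Set ℕ
  | 0 => {0}
  | h + 1 => SS S h + S

lemma zero_mem_SS {S : Set ℕ} (hS : (0 : ℕ) ∈ S) (h : ℕ) : (0 : ℕ) ∈ SS S h := by
  induction h with
  | zero => exact Set.mem_singleton 0
  | succ h ih => exact Set.mem_add.2 ⟨0, ih, 0, hS, rfl⟩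

lemma SS_add (S : Set ℕ) (h k : ℕ) : SS S h + SS S k = SS S (h + k) := by
  induction k with
  | zero => simp [SS]
  | succ k ih => rw [← add_assoc, SS, SS, ← ih, add_assoc]

lemma cnt_SS {S : Set ℕ} (hS : (0 : ℕ) ∈ S) {α : ℝ} (hα1 : α ≤ 1) {Z : ℕ}
    (h : ∀ y ≤ Z, α * y ≤ cnt S y) (k : ℕ) : ∀ y ≤ Z, (1 - (1 - α) ^ k) * y ≤ cnt (SS S k) y := by
  induction k with
  | zero =>
    intro y _
    simp
  | succ k ih =>
    intro y hy
    have h1 := cnt_add (zero_mem_SS hS k) hS h y hy
    have h2 := ih y hy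
    have h3 : (1 - (1 - α) ^ (k + 1)) * y ≤ (cnt (SS S k) y : ℝ) + α * (y - cnt (SS S k) y) := by
      have : (1 - (1 - α) ^ (k + 1)) * y = (1 - α) * ((1 - (1 - α) ^ k) * y) + α * y := by
        rw [pow_succ]; ring
      rw [this]
      have h4 := mul_le_mul_of_nonneg_left h2 (by linarith : 0 ≤ 1 - α)
      linarith
    exact h3.trans h1

lemma half_add {S : Set ℕ} (hS : (0 : ℕ) ∈ S) {Z : ℕ} (h : ∀ y ≤ Z, (1 / 2 : ℝ) * y ≤ cnt S y)
    (y : ℕ) (hy : y ≤ Z) : y ∈ S + S := by
  classical
  by_contra hcon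
  have hyS : y ∉ S := fun h1 => hcon (Set.mem_add.2 ⟨0, hS, y, h1, zero_add y⟩)
  have hy0 : 0 < y := by
    rcases Nat.eq_zero_or_pos y with h0 | h0
    · rw [h0] at hyS; exact absurd hS hyS
    · exact h0
  have h1 := h y hy
  set P := (Icc 1 (y - 1)).filter (fun x => x ∈ S) with hP
  have h2 : cnt S y = P.card := by
    unfold cnt
    congr 1
    ext x
    rw [hP, mem_filter, mem_filter, mem_Icc, mem_Icc]
    constructor
    · rintro ⟨⟨h3, h4⟩, h5⟩
      refine ⟨⟨h3, ?_⟩, h5⟩
      have : x ≠ y := fun h6 => hyS (h6 ▸ h5)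
      omega
    · rintro ⟨⟨h3, h4⟩, h5⟩
      exact ⟨⟨h3, by omega⟩, h5⟩
  have h3 : (P.image (fun x => y - x)).card = P.card := by
    apply Finset.card_image_of_injOn
    intro u hu v hv huv
    rw [mem_coe, hP, mem_filter, mem_Icc] at hu hv
    simp only at huv
    omega
  have h4 : P ∪ P.image (fun x => y - x) ⊆ Icc 1 (y - 1) := by
    intro x hx
    rw [mem_union, mem_image] at hx
    rcases hx with h5 | ⟨u, hu, h5⟩
    · rw [hP, mem_filter] at h5
      exact h5.1
    · rw [hP, mem_filter, mem_Icc] at hu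
      rw [mem_Icc]
      omega
  have h5 : Disjoint P (P.image (fun x => y - x)) := by
    rw [Finset.disjoint_left]
    intro x hx hx2
    rw [mem_image] at hx2
    obtain ⟨u, hu, h6⟩ := hx2
    rw [hP, mem_filter, mem_Icc] at hx hu
    apply hcon
    exact Set.mem_add.2 ⟨x, hx.2, u, hu.2, by omega⟩
  have h6 := Finset.card_le_card h4
  rw [Finset.card_union_of_disjoint h5, h3, Nat.card_Icc] at h6
  have h7 : (P.card : ℝ) + P.card ≤ y - 1 := by
    have : P.card + P.card + 1 ≤ y := by omega
    have : (P.card : ℝ) + P.card + 1 ≤ y := by exact_mod_cast this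
    linarith
  rw [h2] at h1
  linarith

/-- the finite form of Schnirelmann's theorem -/
lemma schnirelmann {S : Set ℕ} (hS : (0 : ℕ) ∈ S) {α : ℝ} (hα0 : 0 < α) (hα1 : α ≤ 1) {Z J : ℕ}
    (hJ : 1 / α ≤ J) (h : ∀ y ≤ Z, α * y ≤ cnt S y) (y : ℕ) (hy : y ≤ Z) : y ∈ SS S (2 * J) := by
  rw [two_mul, ← SS_add]
  apply half_add (zero_mem_SS hS J) _ y hy
  intro x hx
  have h1 := cnt_SS hS hα1 h J x hx
  refine le_trans ?_ h1
  apply mul_le_mul_of_nonneg_right _ (Nat.cast_nonneg _)
  have h2 : (1 - α) ^ J ≤ Real.exp (-1) := by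
    have h3 : 1 - α ≤ Real.exp (-α) := by
      have := Real.add_one_le_exp (-α)
      linarith
    calc (1 - α) ^ J ≤ Real.exp (-α) ^ J := pow_le_pow_left₀ (by linarith) h3 J
      _ = Real.exp (-(α * J)) := by
          rw [← Real.exp_nat_mul]
          congr 1
          ring
      _ ≤ Real.exp (-1) := by
          apply Real.exp_le_exp.2
          rw [div_le_iff₀ hα0] at hJ
          linarith
  have h4 : Real.exp (-1) ≤ 1 / 2 := by
    rw [Real.exp_neg, inv_eq_one_div]
    apply one_div_le_one_div_of_le (by norm_num)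
    have := Real.add_one_le_exp (1 : ℝ)
    linarith
  linarith

/-- a dense set has a translate with large lower density -/
lemma good_start {B : Finset ℕ} {Y Z J : ℕ} {σ : ℝ} (hσ : 0 < σ) (hB : B ⊆ range Y)
    (hcard : σ * Y ≤ B.card) (hJ : 4 / σ ≤ J) (hZ : Z < Y) :
    ∃ t ∈ B, ∀ y, J ≤ y → y ≤ Z → σ / 4 * y ≤ ((B ∩ Ioc t (t + y)).card : ℝ) := by
  classical
  by_contra hcon
  push Not at hcon
  have key : ∀ k : ℕ, k ≤ Y → ((B.filter (fun x => Y - k ≤ x)).card : ℝ) ≤ σ / 2 * (k + Z) := by
    intro k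
    induction k using Nat.strong_induction_on with
    | _ k ih =>
      intro hk
      by_cases hne : (B.filter (fun x => Y - k ≤ x)).Nonempty
      · set t := (B.filter (fun x => Y - k ≤ x)).min' hne with ht
        have hmem := Finset.min'_mem _ hne
        rw [← ht, mem_filter] at hmem
        obtain ⟨htB, htk⟩ := hmem
        have htY := mem_range.1 (hB htB)
        obtain ⟨y, hyJ, hyZ, hy⟩ := hcon t htB
        have hJ1 : 1 ≤ σ / 4 * y := by
          rw [div_le_iff₀ hσ] at hJ
          have : (J : ℝ) ≤ y := by exact_mod_cast hyJ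
          nlinarith
        have hsub : B.filter (fun x => Y - k ≤ x) ⊆
            insert t ((B ∩ Ioc t (t + y)) ∪ B.filter (fun x => t + y + 1 ≤ x)) := by
          intro x hx
          have h1 := Finset.min'_le _ x hx
          rw [← ht] at h1
          rw [mem_filter] at hx
          rw [mem_insert, mem_union, mem_inter, mem_filter, mem_Ioc]
          by_cases h2 : x = t
          · exact Or.inl h2
          · right
            by_cases h3 : x ≤ t + y
            · left
              exact ⟨hx.1, by omega, h3⟩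
            · right
              exact ⟨hx.1, by omega⟩
        have hc := (Finset.card_le_card hsub).trans ((Finset.card_insert_le _ _).trans
          (Nat.add_le_add_right (Finset.card_union_le _ _) 1))
        have hcR : ((B.filter (fun x => Y - k ≤ x)).card : ℝ) ≤
            ((B ∩ Ioc t (t + y)).card : ℝ) + ((B.filter (fun x => t + y + 1 ≤ x)).card : ℝ) + 1 := by
          exact_mod_cast hc
        by_cases hbig : Y ≤ t + y + 1
        · have h4 : B.filter (fun x => t + y + 1 ≤ x) = ∅ := by
            apply Finset.filter_false_of_mem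
            intro x hx
            have := mem_range.1 (hB hx)
            omega
          rw [h4, Finset.card_empty] at hcR
          have h5 : (y : ℝ) ≤ Z := by exact_mod_cast hyZ
          have h6 : (0 : ℝ) ≤ k := Nat.cast_nonneg k
          push_cast at hcR
          nlinarith
        · have h4 := ih (Y - (t + y + 1)) (by omega) (by omega)
          have e : Y - (Y - (t + y + 1)) = t + y + 1 := by omega
          rw [e] at h4
          have h5 : ((Y - (t + y + 1) : ℕ) : ℝ) ≤ (k : ℝ) - y := by
            have h6 : (Y - (t + y + 1)) + y ≤ k := by omega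
            have h7 : ((Y - (t + y + 1) : ℕ) : ℝ) + y ≤ k := by exact_mod_cast h6
            linarith
          nlinarith
      · rw [Finset.not_nonempty_iff_eq_empty.1 hne, Finset.card_empty]
        push_cast
        positivity
  have h1 := key Y le_rfl
  have h2 : B.filter (fun x => Y - Y ≤ x) = B := by
    apply Finset.filter_true_of_mem
    intro x _
    omega
  rw [h2] at h1
  have h3 : (Z : ℝ) < Y := by exact_mod_cast hZ
  nlinarith

end Pool.Agent.Q252.RP
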