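import Pool.Agent.Q252.RP10
import Pool.Agent.Q252.RP11

/-!
# Reversed primes: digits, and sums of reversed primes
-/

set_option autoImplicit false

namespace Pool.Agent.Q252.RP

open Finset
open scoped Pointwise

/-- the digital reverse in base `b` -/
def rev (b n : ℕ) : ℕ := Nat.ofDigits b (Nat.digits b n).reverse

/-- the reversed primes -/
def IsRP (b m : ℕ) : Prop := ∃ p : ℕ, p.Prime ∧ m = rev b p

/-- sums of at most `K` reversed primes -/
def Rep (b K N : ℕ) : Prop := ∃ l : List ℕ, l.length ≤ K ∧ (∀ x ∈ l, IsRP b x) ∧ l.sum = N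

lemma Rep.zero (b : ℕ) : Rep b 0 0 := ⟨[], le_rfl, by simp, rfl⟩

lemma Rep.one {b m : ℕ} (h : IsRP b m) : Rep b 1 m := ⟨[m], by simp, by simpa using h, by simp⟩

lemma Rep.add {b K N K' N' : ℕ} (h : Rep b K N) (h' : Rep b K' N') : Rep b (K + K') (N + N') := by
  obtain ⟨l, h1, h2, h3⟩ := h
  obtain ⟨l', h1', h2', h3'⟩ := h'
  refine ⟨l ++ l', ?_, ?_, ?_⟩
  · rw [List.length_append]; omega
  · intro x hx
    rw [List.mem_append] at hx
    rcases hx with hx | hx
    · exact h2 x hx
    · exact h2' x hx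
  · rw [List.sum_append, h3, h3']

lemma Rep.mono {b K K' N : ℕ} (h : Rep b K N) (hK : K ≤ K') : Rep b K' N := by
  obtain ⟨l, h1, h2, h3⟩ := h
  exact ⟨l, h1.trans hK, h2, h3⟩

lemma Rep.mul {b K N : ℕ} (h : Rep b K N) (i : ℕ) : Rep b (i * K) (i * N) := by
  induction i with
  | zero => simpa using Rep.zero b
  | succ i ih =>
    rw [add_mul, add_mul, one_mul, one_mul]
    exact ih.add h

/-- small numbers -/
lemma rep_small {b : ℕ} (hb : 2 ≤ b) (s : ℕ) : Rep b (s + 2) (s + 2) := by
  by_cases h4 : 4 ≤ b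
  · have h2 : IsRP b 2 := ⟨2, Nat.prime_two, by
      rw [rev, Nat.digits_of_lt b 2 (by norm_num) (by omega)]; simp⟩
    have h3 : IsRP b 3 := ⟨3, Nat.prime_three, by
      rw [rev, Nat.digits_of_lt b 3 (by norm_num) (by omega)]; simp⟩
    induction s using Nat.strong_induction_on with
    | _ s ih =>
      rcases Nat.lt_or_ge s 2 with hs | hs
      · interval_cases s
        · exact (Rep.one h2).mono (by norm_num)
        · exact (Rep.one h3).mono (by norm_num)
      · obtain ⟨r, rfl⟩ := Nat.exists_eq_add_of_le hs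
        have := (ih r (by omega)).add (Rep.one h2)
        have e : 2 + r + 2 = r + 2 + 2 := by ring
        rw [e]
        exact this.mono (by omega)
  · have h1 : IsRP b 1 := by
      have : b = 2 ∨ b = 3 := by omega
      rcases this with rfl | rfl
      · exact ⟨2, Nat.prime_two, by simp [rev, Nat.ofDigits]⟩
      · exact ⟨3, Nat.prime_three, by simp [rev, Nat.ofDigits]⟩
    have := (Rep.one h1).mul (s + 2)
    simpa using this

/-- the top digit of the reverse -/
lemma rv_top {b : ℕ} (hb : 0 < b) (n : ℕ) : ∀ j r : ℕ, j < b → r < b ^ n →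
    rv b (n + 1) (j * b ^ n + r) = b * rv b n r + j := by
  induction n with
  | zero =>
    intro j r hj hr
    have : r = 0 := by simpa using hr
    subst this
    simp [rv, Nat.mod_eq_of_lt hj]
  | succ n ih =>
    intro j r hj hr
    have h1 : j * b ^ (n + 1) + r = r + b * (j * b ^ n) := by ring
    rw [rv, h1, Nat.add_mul_mod_self_left, Nat.add_mul_div_left _ _ hb, add_comm (r / b)]
    have h2 : r / b < b ^ n := Nat.div_lt_of_lt_mul (by rwa [← pow_succ'])
    rw [ih j (r / b) hj h2]
    conv_rhs => rw [rv]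
    ring

lemma rv_rv {b : ℕ} (hb : 0 < b) (n : ℕ) : ∀ m : ℕ, m < b ^ n → rv b n (rv b n m) = m := by
  induction n with
  | zero =>
    intro m hm
    have : m = 0 := by simpa using hm
    subst this
    rfl
  | succ n ih =>
    intro m hm
    have h1 : rv b (n + 1) m = (m % b) * b ^ n + rv b n (m / b) := rfl
    rw [h1, rv_top hb n _ _ (Nat.mod_lt _ hb) (rv_lt hb _ _),
      ih (m / b) (Nat.div_lt_of_lt_mul (by rwa [← pow_succ']))]
    exact Nat.div_add_mod m b

/-- the reverse of a number with exactly `n` digits -/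
lemma rev_eq_rv {b : ℕ} (hb : 2 ≤ b) (n : ℕ) : ∀ t : ℕ, b ^ n ≤ t → t < b ^ (n + 1) →
    (Nat.digits b t).length = n + 1 ∧ rev b t = rv b (n + 1) t := by
  induction n with
  | zero =>
    intro t h1 h2
    simp only [pow_zero, zero_add, pow_one] at h1 h2
    have hd : Nat.digits b t = [t] := Nat.digits_of_lt b t (by omega) h2
    refine ⟨by rw [hd]; rfl, ?_⟩
    rw [rev, hd]
    simp [rv, Nat.mod_eq_of_lt h2]
  | succ n ih =>
    intro t h1 h2
    have ht : 0 < t := lt_of_lt_of_le (pow_pos (by omega) _) h1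
    have h3 : b ^ n ≤ t / b := by
      rw [Nat.le_div_iff_mul_le (by omega), ← pow_succ]
      exact h1
    have h4 : t / b < b ^ (n + 1) := Nat.div_lt_of_lt_mul (by rwa [← pow_succ'])
    obtain ⟨h5, h6⟩ := ih (t / b) h3 h4
    have hd : Nat.digits b t = (t % b) :: Nat.digits b (t / b) := Nat.digits_def' (by omega) ht
    refine ⟨by rw [hd, List.length_cons, h5], ?_⟩
    have h7 : rev b (t / b) = Nat.ofDigits b (Nat.digits b (t / b)).reverse := rfl
    rw [rev, hd, List.reverse_cons, Nat.ofDigits_append, List.length_reverse, h5, ← h7, h6]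
    conv_rhs => rw [rv]
    rw [Nat.ofDigits_singleton]
    ring

/-- the reverse of `d + b t` -/
lemma rev_add {b : ℕ} (hb : 2 ≤ b) {n d t : ℕ} (hn : 1 ≤ n) (hd : d < b) (h1 : b ^ (n - 1) ≤ t)
    (h2 : t < b ^ n) : rev b (d + b * t) = d * b ^ n + rv b n t := by
  have e : n - 1 + 1 = n := by omega
  have h3 : b ^ n ≤ d + b * t := by
    calc b ^ n = b * b ^ (n - 1) := by rw [← pow_succ', e]
      _ ≤ b * t := Nat.mul_le_mul_left _ h1
      _ ≤ d + b * t := by omega
  have h4 : d + b * t < b ^ (n + 1) := by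
    calc d + b * t < b + b * t := by omega
      _ = b * (t + 1) := by ring
      _ ≤ b * b ^ n := Nat.mul_le_mul_left _ h2
      _ = b ^ (n + 1) := by rw [← pow_succ']
  rw [(rev_eq_rv hb n _ h3 h4).2, rv_add (by omega) n hd]

/-- the elements of the set `AA` give reversed primes -/
lemma AA_rp {b : ℕ} (hb : 2 ≤ b) {n : ℕ} (hn : 1 ≤ n) {m : ℕ} (hm : m ∈ AA b n) :
    IsRP b (b ^ n + m) := by
  rw [AA, mem_filter, mem_range] at hm
  obtain ⟨h1, h2, h3⟩ := hm
  refine ⟨1 + b * rv b n m, h3, ?_⟩
  rw [rev_add hb hn (by omega) h2 (rv_lt (by omega) n m), rv_rv (by omega) n m h1, one_mul]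

/-- the main lemma: all integers in a long interval are sums of few reversed primes -/
theorem interval {b : ℕ} (hb : 2 ≤ b) {J : ℕ} (hJ : 8 / cc b ≤ J) : ∃ n0 : ℕ, ∀ n : ℕ, n0 ≤ n →
    ∃ W : ℕ, W ≤ 2 * J * (4 * b ^ n + 2) ∧ ∀ z ≤ b ^ n, Rep b (2 * J * (J + 4)) (W + z) := by
  classical
  obtain ⟨n1, hn1⟩ := sumset_lower hb
  refine ⟨n1 + 1, fun n hn => ?_⟩
  have hs := hn1 n (by omega)
  have hc := cc_pos hb
  set X := b ^ n with hX
  have hX1 : 1 ≤ X := Nat.one_le_pow _ _ (by omega)
  have hXR : (X : ℝ) = (b : ℝ) ^ n := by rw [hX]; push_cast; rfl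
  set B := AA b n + AA b n with hB
  have hBsub : B ⊆ range (2 * X) := by
    intro x hx
    rw [hB, Finset.mem_add] at hx
    obtain ⟨a, ha, a', ha', rfl⟩ := hx
    rw [AA, mem_filter, mem_range] at ha ha'
    rw [mem_range]
    omega
  have hBrep : ∀ x ∈ B, Rep b 2 (2 * X + x) := by
    intro x hx
    rw [hB, Finset.mem_add] at hx
    obtain ⟨a, ha, a', ha', rfl⟩ := hx
    have h1 := (Rep.one (AA_rp hb (by omega) ha)).add (Rep.one (AA_rp hb (by omega) ha'))
    have e : 2 * X + (a + a') = b ^ n + a + (b ^ n + a') := by rw [hX]; ring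
    rw [e]
    exact h1
  have hcc1 : cc b ≤ 2 := by
    unfold cc
    have h1 : (Nat.totient (b ^ 2 - 1) : ℝ) ≤ ((b ^ 2 - 1 : ℕ) : ℝ) := by
      exact_mod_cast Nat.totient_le _
    have h2 : 4 ≤ b ^ 2 := by nlinarith
    have h3 : (0 : ℝ) < ((b ^ 2 - 1 : ℕ) : ℝ) := by exact_mod_cast (by omega : 0 < b ^ 2 - 1)
    rw [div_le_iff₀ (by positivity)]
    linarith
  obtain ⟨t, htB, ht⟩ := good_start (B := B) (Y := 2 * X) (Z := X) (J := J) (σ := cc b / 2)
    (by positivity) hBsub (by
      push_cast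
      rw [hXR]
      linarith) (by
      have : 4 / (cc b / 2) = 8 / cc b := by field_simp; norm_num
      rw [this]; exact hJ) (by omega)
  set G : Set ℕ := {g | g ≤ J ∨ t + g ∈ B} with hG
  have hG0 : (0 : ℕ) ∈ G := Or.inl (Nat.zero_le _)
  set α : ℝ := cc b / 8 with hα
  have hα0 : 0 < α := by rw [hα]; positivity
  have hcnt : ∀ y ≤ X, α * y ≤ cnt G y := by
    intro y hy
    rcases Nat.lt_or_ge y J with h1 | h1
    · have h2 : cnt G y = y := cnt_eq_self fun x _ hx => Or.inl (by omega)
      rw [h2]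
      have h3 : α ≤ 1 := by rw [hα]; linarith
      have h4 : (0 : ℝ) ≤ y := Nat.cast_nonneg y
      nlinarith
    · have h2 := ht y h1 hy
      have h3 : (B ∩ Ioc t (t + y)).card ≤ cnt G y := by
        have hi : ((B ∩ Ioc t (t + y)).image (fun x => x - t)).card = (B ∩ Ioc t (t + y)).card := by
          apply Finset.card_image_of_injOn
          intro x hx y hy hxy
          rw [mem_coe, mem_inter, mem_Ioc] at hx hy
          simp only at hxy
          omega
        rw [← hi]
        apply card_le_cnt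
        intro x hx
        rw [mem_image] at hx
        obtain ⟨u, hu, rfl⟩ := hx
        rw [mem_inter, mem_Ioc] at hu
        refine ⟨by omega, by omega, Or.inr ?_⟩
        have : t + (u - t) = u := by omega
        rw [this]
        exact hu.1
      have h4 : ((B ∩ Ioc t (t + y)).card : ℝ) ≤ cnt G y := by exact_mod_cast h3
      refine le_trans ?_ h4
      refine le_trans (le_of_eq ?_) h2
      rw [hα]; ring
  have hsch := schnirelmann (S := G) hG0 hα0 (by rw [hα]; linarith) (Z := X) (J := J) (by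
    rw [hα, one_div_div]
    exact hJ) hcnt
  set T := t + 2 * X + 2 with hT
  have hstep : ∀ g ∈ G, Rep b (J + 4) (g + T) := by
    intro g hg
    rcases hg with h1 | h1
    · have h2 := (hBrep t htB).add (rep_small hb g)
      have e : g + T = 2 * X + t + (g + 2) := by rw [hT]; ring
      rw [e]
      exact h2.mono (by omega)
    · have h2 := (hBrep (t + g) h1).add (rep_small hb 0)
      have e : g + T = 2 * X + (t + g) + (0 + 2) := by rw [hT]; ring
      rw [e]
      exact h2.mono (by omega)
  have hall : ∀ h : ℕ, ∀ z ∈ SS G h, Rep b (h * (J + 4)) (z + h * T) := by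
    intro h
    induction h with
    | zero =>
      intro z hz
      have : z = 0 := hz
      subst this
      simpa using Rep.zero b
    | succ h ih =>
      intro z hz
      rw [SS, Set.mem_add] at hz
      obtain ⟨z', hz', g, hg, rfl⟩ := hz
      have h1 := (ih z' hz').add (hstep g hg)
      have e1 : z' + g + (h + 1) * T = z' + h * T + (g + T) := by ring
      have e2 : (h + 1) * (J + 4) = h * (J + 4) + (J + 4) := by ring
      rw [e1, e2]
      exact h1
  refine ⟨2 * J * T, ?_, ?_⟩
  · apply Nat.mul_le_mul_left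
    have := mem_range.1 (hBsub htB)
    omega
  · intro z hz
    have h1 := hall (2 * J) z (hsch z hz)
    have e : 2 * J * T + z = z + 2 * J * T := add_comm _ _
    rw [e]
    exact h1

end Pool.Agent.Q252.RP
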