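import Pool.Agent.Q252.RP12

/-!
# Reversed primes: every base
-/

set_option autoImplicit false

namespace Pool.Agent.Q252.RP

open Finset

lemma AA_nonempty {b : ℕ} (hb : 2 ≤ b) : ∃ n0 : ℕ, ∀ n : ℕ, n0 ≤ n → (AA b n).Nonempty := by
  obtain ⟨n0, h⟩ := AA_lower hb
  have hb' : (2 : ℝ) ≤ b := by exact_mod_cast hb
  have hlog : 0 < Real.log b := Real.log_pos (by linarith)
  have hφ : (0 : ℝ) < (Nat.totient b : ℝ) := by exact_mod_cast Nat.totient_pos.2 (by omega : 0 < b)
  refine ⟨n0, fun n hn => ?_⟩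
  rw [← Finset.card_pos]
  have h1 := h n hn
  have h2 : 0 < (b : ℝ) ^ (n + 1) / (4 * (Nat.totient b : ℝ) * (n + 1) * Real.log b) := by positivity
  exact_mod_cast lt_of_lt_of_le h2 h1

/-- for every base, all large integers are sums of boundedly many reversed primes -/
theorem fixed_base {b : ℕ} (hb : 2 ≤ b) : ∃ K N0 : ℕ, 2 ≤ K ∧ ∀ N : ℕ, N0 ≤ N → Rep b K N := by
  have hc := cc_pos hb
  obtain ⟨J, hJ⟩ := exists_nat_ge (8 / cc b)
  have hJ1 : 1 ≤ J := by
    have h1 : 0 < 8 / cc b := by positivity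
    have h2 : (0 : ℝ) < J := lt_of_lt_of_le h1 hJ
    exact_mod_cast h2
  obtain ⟨n0, hn0⟩ := interval hb hJ
  obtain ⟨n1, hn1⟩ := AA_nonempty hb
  refine ⟨2 * J * (J + 4) + 10 * J * b ^ 2, 10 * J * b ^ (n0 + n1 + 2), ?_, fun N hN => ?_⟩
  · have : 1 ≤ J * (J + 4) := Nat.mul_pos hJ1 (by omega)
    nlinarith
  · set Q := N / (10 * J) with hQ
    have hQ1 : b ^ (n0 + n1 + 2) ≤ Q := by
      rw [hQ, Nat.le_div_iff_mul_le (by omega), mul_comm]
      exact hN
    have hQ0 : Q ≠ 0 := by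
      have := Nat.one_le_pow (n0 + n1 + 2) b (by omega)
      omega
    set n := Nat.log b Q with hn
    have h1 : b ^ n ≤ Q := Nat.pow_log_le_self b hQ0
    have h2 : Q < b ^ (n + 1) := Nat.lt_pow_succ_log_self (by omega) Q
    have h3 : n0 + n1 + 2 ≤ n := by
      have h4 : b ^ (n0 + n1 + 2) < b ^ (n + 1) := lt_of_le_of_lt hQ1 h2
      have := (Nat.pow_lt_pow_iff_right (by omega : 1 < b)).1 h4
      omega
    obtain ⟨W, hW, hrep⟩ := hn0 n (by omega)
    obtain ⟨a, ha⟩ := hn1 (n - 1) (by omega)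
    have hu := AA_rp hb (by omega) ha
    set u := b ^ (n - 1) + a with hudef
    have ha2 : a < b ^ (n - 1) := by
      rw [AA, mem_filter, mem_range] at ha
      exact ha.1
    have e1 : b ^ n = b * b ^ (n - 1) := by
      rw [← pow_succ']
      congr 1
      omega
    have hp : 1 ≤ b ^ (n - 1) := Nat.one_le_pow _ _ (by omega)
    have hu1 : b ^ (n - 1) ≤ u := by omega
    have hu2 : u ≤ b ^ n := by
      rw [e1]
      nlinarith
    have hb2 : 2 ≤ b ^ n := by
      rw [e1]
      nlinarith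
    have hN1 : 10 * J * b ^ n ≤ N := by
      calc 10 * J * b ^ n ≤ 10 * J * Q := Nat.mul_le_mul_left _ h1
        _ ≤ N := Nat.mul_div_le N (10 * J)
    have hN2 : N < 10 * J * b ^ (n + 1) := by
      have : N < 10 * J * (Q + 1) := Nat.lt_mul_div_succ N (by omega)
      exact lt_of_lt_of_le this (Nat.mul_le_mul_left _ h2)
    have hWN : W ≤ N := by
      refine hW.trans (le_trans ?_ hN1)
      nlinarith
    obtain ⟨i, hi⟩ : ∃ i, i = (N - W) / u := ⟨_, rfl⟩
    have hzu : (N - W) % u < u := Nat.mod_lt _ (by omega)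
    have hdm := Nat.div_add_mod (N - W) u
    rw [← hi] at hdm
    have hi2 : i ≤ 10 * J * b ^ 2 := by
      by_contra hcon
      push Not at hcon
      have h5 : 10 * J * b ^ 2 * b ^ (n - 1) ≤ i * u :=
        Nat.mul_le_mul hcon.le hu1
      have h6 : 10 * J * b ^ 2 * b ^ (n - 1) = 10 * J * b ^ (n + 1) := by
        have : n + 1 = 2 + (n - 1) := by omega
        rw [this, pow_add]
        ring
      rw [h6] at h5
      have h7 : u * i ≤ N := by omega
      rw [mul_comm] at h7
      omega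
    have h5 := (hrep ((N - W) % u) (by omega)).add ((Rep.one hu).mul i)
    have e2 : W + (N - W) % u + i * u = N := by
      rw [mul_comm i u]
      omega
    rw [e2] at h5
    exact h5.mono (by omega)

end Pool.Agent.Q252.RP
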