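import Mathlib
import Pool.Agent.Helper923.PNT

/-!
# Reversed primes: elementary estimates for the uniform bound
-/

set_option autoImplicit false

namespace Pool.Agent.Q252.RP

open Finset Filter

/-- a product over odd numbers is at most the product over the smallest ones -/
lemma prod_odd (k : ℕ) : ∀ S : Finset ℕ, S.card = k → (∀ p ∈ S, Odd p ∧ 3 ≤ p) →
    ∏ p ∈ S, ((p : ℝ) / (p - 1)) ≤ ∏ j ∈ Icc 1 k, (1 + 1 / (2 * (j : ℝ))) := by
  induction k with
  | zero =>
    intro S hS _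
    rw [Finset.card_eq_zero] at hS
    subst hS
    simp
  | succ k ih =>
    intro S hS h
    have hne : S.Nonempty := by rw [← Finset.card_pos]; omega
    set M := S.max' hne with hM
    have hMS : M ∈ S := Finset.max'_mem _ hne
    obtain ⟨hMo, hM3⟩ := h M hMS
    -- the maximum is large
    have hbig : 2 * (k + 1) + 1 ≤ M := by
      obtain ⟨r, hr⟩ := hMo
      have hsub : S ⊆ (Icc 1 r).image (fun i => 2 * i + 1) := by
        intro x hx
        obtain ⟨⟨i, hi⟩, hx3⟩ := h x hx
        have hxM : x ≤ M := Finset.le_max' _ x hx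
        rw [mem_image]
        refine ⟨i, ?_, hi.symm⟩
        rw [mem_Icc]
        omega
      have h1 := Finset.card_le_card hsub
      have h2 := h1.trans Finset.card_image_le
      rw [Nat.card_Icc, hS] at h2
      omega
    have h1 := ih (S.erase M) (by rw [Finset.card_erase_of_mem hMS, hS]; rfl)
      (fun p hp => h p (Finset.mem_of_mem_erase hp))
    rw [← Finset.mul_prod_erase S _ hMS, Finset.prod_Icc_succ_top (by omega), mul_comm]
    have hMR : (2 * ((k : ℝ) + 1) + 1) ≤ M := by exact_mod_cast hbig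
    have hk : (0 : ℝ) ≤ k := Nat.cast_nonneg k
    apply mul_le_mul h1
    · have hM1 : (0 : ℝ) < (M : ℝ) - 1 := by linarith
      have e : (M : ℝ) / (M - 1) = 1 + 1 / (M - 1) := by field_simp; ring
      rw [e]
      push_cast
      gcongr
      linarith
    · have hM1 : (0 : ℝ) < (M : ℝ) - 1 := by linarith
      positivity
    · exact Finset.prod_nonneg fun j _ => by positivity

lemma prod_half_sq (k : ℕ) : (∏ j ∈ Icc 1 k, (1 + 1 / (2 * (j : ℝ)))) ^ 2 ≤ 9 / 4 * (k + 1) := by
  have h : ∀ k : ℕ, 1 ≤ k → (∏ j ∈ Icc 1 k, (1 + 1 / (2 * (j : ℝ)))) ^ 2 ≤ 9 / 4 * k := by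
    intro k hk
    induction k, hk using Nat.le_induction with
    | base => norm_num
    | succ k hk ih =>
      rw [Finset.prod_Icc_succ_top (by omega), mul_pow]
      have hk' : (1 : ℝ) ≤ k := by exact_mod_cast hk
      push_cast
      calc _ ≤ 9 / 4 * (k : ℝ) * (1 + 1 / (2 * ((k : ℝ) + 1))) ^ 2 := by gcongr
        _ ≤ 9 / 4 * ((k : ℝ) + 1) := by
            have e : (1 + 1 / (2 * ((k : ℝ) + 1))) ^ 2 = (2 * k + 3) ^ 2 / (4 * (k + 1) ^ 2) := by
              field_simp
              ring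
            rw [e, mul_assoc, mul_div_assoc']
            apply mul_le_mul_of_nonneg_left _ (by norm_num)
            rw [div_le_iff₀ (by positivity)]
            nlinarith
  rcases Nat.eq_zero_or_pos k with h0 | h0
  · subst h0; norm_num
  · have := h k h0
    linarith

/-- the bound for `m / φ(m)` -/
lemma ratio_sq {m : ℕ} (hm : 0 < m) :
    ((m : ℝ) / (Nat.totient m : ℝ)) ^ 2 ≤ 9 * (Real.log m + 1) := by
  have hmR : (0 : ℝ) < m := by exact_mod_cast hm
  set S := m.primeFactors.erase 2 with hS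
  have hSodd : ∀ p ∈ S, Odd p ∧ 3 ≤ p := by
    intro p hp
    rw [hS, Finset.mem_erase] at hp
    have hpp := Nat.prime_of_mem_primeFactors hp.2
    have h2 := hpp.two_le
    exact ⟨hpp.odd_of_ne_two hp.1, by omega⟩
  have h1 : (m : ℝ) / (Nat.totient m : ℝ) = ∏ p ∈ m.primeFactors, ((p : ℝ) / (p - 1)) := by
    have h2 := Nat.totient_eq_mul_prod_factors m
    have h3 : (Nat.totient m : ℝ) = m * ∏ p ∈ m.primeFactors, (1 - (p : ℝ)⁻¹) := by
      have := congrArg (fun q : ℚ => (q : ℝ)) h2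
      push_cast at this
      exact this
    rw [h3, div_mul_eq_div_div, div_self hmR.ne', one_div, ← Finset.prod_inv_distrib]
    refine Finset.prod_congr rfl fun p hp => ?_
    have hp1 : (1 : ℝ) < p := by exact_mod_cast (Nat.prime_of_mem_primeFactors hp).one_lt
    have h4 : (p : ℝ) - 1 ≠ 0 := by linarith
    have h5 : (p : ℝ) ≠ 0 := by linarith
    have h6 : 1 - (p : ℝ)⁻¹ = (p - 1) / p := by field_simp
    rw [h6, inv_div]
  have h2 : (m : ℝ) / (Nat.totient m : ℝ) ≤ 2 * ∏ p ∈ S, ((p : ℝ) / (p - 1)) := by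
    rw [h1]
    have hnn : 0 ≤ ∏ p ∈ S, ((p : ℝ) / (p - 1)) := by
      apply Finset.prod_nonneg
      intro p hp
      have : (3 : ℝ) ≤ p := by exact_mod_cast (hSodd p hp).2
      have : (0 : ℝ) < (p : ℝ) - 1 := by linarith
      positivity
    by_cases h2 : 2 ∈ m.primeFactors
    · rw [← Finset.mul_prod_erase _ _ h2, ← hS]
      apply le_of_eq
      congr 1
      norm_num
    · rw [hS, Finset.erase_eq_of_notMem h2] at *
      linarith
  have h3 := prod_odd S.card S rfl hSodd
  have h4 := prod_half_sq S.card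
  have h5 : (S.card : ℝ) ≤ Real.log m := by
    have h6 : 3 ^ S.card ≤ m := by
      calc 3 ^ S.card = ∏ _p ∈ S, 3 := by rw [Finset.prod_const]
        _ ≤ ∏ p ∈ S, p := Finset.prod_le_prod' fun p hp => (hSodd p hp).2
        _ ≤ ∏ p ∈ m.primeFactors, p := by
            apply Finset.prod_le_prod_of_subset_of_one_le' (Finset.erase_subset _ _)
            intro p hp _
            exact (Nat.prime_of_mem_primeFactors hp).one_lt.le
        _ ≤ m := Nat.le_of_dvd hm (Nat.prod_primeFactors_dvd m)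
    have h7 : ((3 : ℝ)) ^ S.card ≤ m := by exact_mod_cast h6
    have h8 := Real.log_le_log (by positivity) h7
    rw [Real.log_pow] at h8
    have h9 : (1 : ℝ) ≤ Real.log 3 := by
      rw [Real.le_log_iff_exp_le (by norm_num)]
      have := Real.exp_one_lt_d9
      linarith
    have h10 : (0 : ℝ) ≤ S.card := Nat.cast_nonneg _
    nlinarith
  have hnn : 0 ≤ (m : ℝ) / (Nat.totient m : ℝ) := by positivity
  have h6 : (m : ℝ) / (Nat.totient m : ℝ) ≤ 2 * ∏ j ∈ Icc 1 S.card, (1 + 1 / (2 * (j : ℝ))) := by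
    linarith
  calc ((m : ℝ) / (Nat.totient m : ℝ)) ^ 2
      ≤ (2 * ∏ j ∈ Icc 1 S.card, (1 + 1 / (2 * (j : ℝ)))) ^ 2 := pow_le_pow_left₀ hnn h6 2
    _ = 4 * (∏ j ∈ Icc 1 S.card, (1 + 1 / (2 * (j : ℝ)))) ^ 2 := by ring
    _ ≤ 4 * (9 / 4 * (S.card + 1)) := by gcongr
    _ ≤ 9 * (Real.log m + 1) := by linarith

/-- a prime in `(h, 2h]` that does not divide `b` -/
lemma exists_prime_not_dvd : ∃ h0 : ℕ, ∀ h : ℕ, h0 ≤ h → ∀ b : ℕ, 0 < b → 2 * Real.log b < h →
    ∃ p : ℕ, p.Prime ∧ h < p ∧ p ≤ 2 * h ∧ ¬ p ∣ b := by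
  have h1 := Pool.Agent.Helper923.PNT.theta_div_tendsto
  have hup := h1.eventually_lt_const (show (1 : ℝ) < 9 / 8 by norm_num)
  have hlo := h1.eventually_const_lt (show (7 / 8 : ℝ) < 1 by norm_num)
  obtain ⟨x0, hx0⟩ := eventually_atTop.1 (hup.and (hlo.and (eventually_gt_atTop (0 : ℝ))))
  obtain ⟨h0, hh0⟩ := exists_nat_ge x0
  refine ⟨h0, fun h hh b hb hlog => ?_⟩
  have e1 : x0 ≤ (h : ℝ) := hh0.trans (by exact_mod_cast hh)
  have hpos : (0 : ℝ) < h := (hx0 (h : ℝ) e1).2.2
  have e2 : x0 ≤ ((2 * h : ℕ) : ℝ) := by push_cast; linarith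
  have a1 := (hx0 (h : ℝ) e1).1
  have a2 := (hx0 ((2 * h : ℕ) : ℝ) e2).2.1
  rw [div_lt_iff₀ hpos] at a1
  rw [lt_div_iff₀ (by push_cast; linarith)] at a2
  push_cast at a2
  have hdiff : (1 / 2 : ℝ) * h < Chebyshev.theta (2 * (h : ℝ)) - Chebyshev.theta h := by linarith
  by_contra hcon
  push Not at hcon
  -- all primes in the interval divide `b`
  have hsum : Chebyshev.theta (2 * (h : ℝ)) - Chebyshev.theta h =
      ∑ p ∈ (Ioc h (2 * h)).filter Nat.Prime, Real.log p := by
    have h2 : Chebyshev.theta (2 * (h : ℝ)) = ∑ p ∈ (Ioc 0 (2 * h)).filter Nat.Prime, Real.log p := by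
      have : (2 * (h : ℝ)) = ((2 * h : ℕ) : ℝ) := by push_cast; rfl
      rw [this, Chebyshev.theta, Nat.floor_natCast]
    have h3 : Chebyshev.theta (h : ℝ) = ∑ p ∈ (Ioc 0 h).filter Nat.Prime, Real.log p := by
      rw [Chebyshev.theta, Nat.floor_natCast]
    rw [h2, h3, Finset.sum_filter, Finset.sum_filter, Finset.sum_filter,
      ← Finset.sum_Ioc_consecutive _ (Nat.zero_le h) (by omega : h ≤ 2 * h)]
    ring
  have hprod : ∑ p ∈ (Ioc h (2 * h)).filter Nat.Prime, Real.log p ≤ Real.log b := by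
    have h2 : ∏ p ∈ (Ioc h (2 * h)).filter Nat.Prime, p ≤ b := by
      apply Nat.le_of_dvd hb
      apply Finset.prod_primes_dvd
      · intro p hp
        exact (Finset.mem_filter.1 hp).2.prime
      · intro p hp
        rw [Finset.mem_filter, Finset.mem_Ioc] at hp
        exact hcon p hp.2 hp.1.1 hp.1.2
    have h3 : ∑ p ∈ (Ioc h (2 * h)).filter Nat.Prime, Real.log p =
        Real.log ((∏ p ∈ (Ioc h (2 * h)).filter Nat.Prime, p : ℕ) : ℝ) := by
      push_cast
      rw [Real.log_prod]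
      intro p hp
      have := (Finset.mem_filter.1 hp).2.pos
      positivity
    rw [h3]
    apply Real.log_le_log
    · have : 0 < ∏ p ∈ (Ioc h (2 * h)).filter Nat.Prime, p := by
        apply Finset.prod_pos
        intro p hp
        exact (Finset.mem_filter.1 hp).2.pos
      exact_mod_cast this
    · exact_mod_cast h2
  rw [hsum] at hdiff
  linarith

end Pool.Agent.Q252.RP
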