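import Pool.Agent.Q252.RP13
import Pool.Agent.Q252.RP14

/-!
# Reversed primes: the uniform bound
-/

set_option autoImplicit false

namespace Pool.Agent.Q252.RP

open Finset

/-- numbers below `Y` can be reduced to numbers below `Y'` with at most `K` reversed primes -/
def Red (b K Y Y' : ℕ) : Prop := ∀ y < Y, ∃ v y', y = v + y' ∧ y' < Y' ∧ Rep b K v

lemma Red.trans {b K K' Y Y' Y'' : ℕ} (h : Red b K Y Y') (h' : Red b K' Y' Y'') :
    Red b (K + K') Y Y'' := by
  intro y hy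
  obtain ⟨v, y', e, h1, h2⟩ := h y hy
  obtain ⟨v', y'', e', h1', h2'⟩ := h' y' h1
  exact ⟨v + v', y'', by omega, h1', h2.add h2'⟩

lemma red_linear {b u U : ℕ} (hu : IsRP b u) (h1 : U ≤ u) (h2 : u ≤ 2 * U) (A : ℕ) :
    Red b A (A * U) (2 * U) := by
  induction A with
  | zero => intro y hy; simp at hy
  | succ A ih =>
    intro y hy
    by_cases h : y < 2 * U
    · exact ⟨0, y, by simp, h, (Rep.zero b).mono (Nat.zero_le _)⟩
    · have e : (A + 1) * U = A * U + U := by ring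
      obtain ⟨v, y', e1, h3, h4⟩ := ih (y - u) (by omega)
      exact ⟨v + u, y', by omega, h3, h4.add (Rep.one hu)⟩

/-- reversed primes with a prescribed leading digit -/
lemma exists_rp {b : ℕ} (hb : 2 ≤ b) : ∃ n0 : ℕ, ∀ n : ℕ, n0 ≤ n → ∀ d : ℕ, d.Coprime b → d < b →
    ∃ u, IsRP b u ∧ d * b ^ n ≤ u ∧ u < (d + 1) * b ^ n := by
  obtain ⟨n0, h⟩ := primes_lower hb
  have hb' : (2 : ℝ) ≤ b := by exact_mod_cast hb
  have hlog : 0 < Real.log b := Real.log_pos (by linarith)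
  have hφ : (0 : ℝ) < (Nat.totient b : ℝ) := by exact_mod_cast Nat.totient_pos.2 (by omega : 0 < b)
  refine ⟨n0 + 1, fun n hn d hd hdb => ?_⟩
  have h1 := h n (by omega) d hd hdb
  have h2 : 0 < (b : ℝ) ^ (n + 1) / (4 * (Nat.totient b : ℝ) * (n + 1) * Real.log b) := by positivity
  have h3 : 0 < ((Ioo (b ^ n) (b ^ (n + 1))).filter (fun q => q.Prime ∧ q % b = d)).card := by
    exact_mod_cast lt_of_lt_of_le h2 h1
  rw [Finset.card_pos] at h3
  obtain ⟨q, hq⟩ := h3
  rw [mem_filter, mem_Ioo] at hq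
  obtain ⟨⟨h4, h5⟩, h6, h7⟩ := hq
  have e : q = d + b * (q / b) := by
    have := Nat.mod_add_div q b
    omega
  have h8 : q / b < b ^ n := by
    apply Nat.div_lt_of_lt_mul
    rw [← pow_succ']
    exact h5
  have h9 : b ^ (n - 1) ≤ q / b := by
    rw [Nat.le_div_iff_mul_le (by omega), ← pow_succ]
    have : n - 1 + 1 = n := by omega
    rw [this]
    exact h4.le
  have h10 := rev_add hb (by omega : 1 ≤ n) hdb h9 h8
  rw [← e] at h10
  refine ⟨rev b q, ⟨q, h6, rfl⟩, ?_, ?_⟩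
  · rw [h10]; exact Nat.le_add_right _ _
  · rw [h10, add_mul, one_mul]
    have := rv_lt (by omega : 0 < b) n (q / b)
    omega

/-- the halving step -/
lemma red_half {b h0 T k n : ℕ} (hb : 2 ≤ b)
    (hp : ∀ h : ℕ, h0 ≤ h → ∀ b : ℕ, 0 < b → 2 * Real.log b < h →
      ∃ p : ℕ, p.Prime ∧ h < p ∧ p ≤ 2 * h ∧ ¬ p ∣ b)
    (hU : ∀ d : ℕ, d.Coprime b → d < b → ∃ u, IsRP b u ∧ d * b ^ n ≤ u ∧ u < (d + 1) * b ^ n)
    (hT0 : 1 ≤ T / 4) (hT1 : h0 ≤ T / 4) (hT2 : 2 * Real.log b < (T / 4 : ℕ))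
    (hk : 3 ^ k * (2 * b) ≤ 4 ^ k) : Red b k (2 * b * b ^ n) (T * b ^ n) := by
  set X := b ^ n with hX
  have hX0 : 0 < X := pow_pos (by omega) n
  have key : ∀ k : ℕ, ∀ y < 2 * b * X, ∃ v y', y = v + y' ∧ Rep b k v ∧
      (y' < T * X ∨ 4 ^ k * y' ≤ 3 ^ k * y) := by
    intro k
    induction k with
    | zero =>
      intro y _
      exact ⟨0, y, by simp, Rep.zero b, Or.inr (by simp)⟩
    | succ k ih =>
      intro y hy
      obtain ⟨v, y', e, h1, h2⟩ := ih y hy
      by_cases hy' : y' < T * X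
      · exact ⟨v, y', e, h1.mono (by omega), Or.inl hy'⟩
      · have h3 : 4 ^ k * y' ≤ 3 ^ k * y := by
          rcases h2 with h2 | h2
          · exact absurd h2 hy'
          · exact h2
        set s := y' / X with hs
        have hsT : T ≤ s := by
          rw [hs, Nat.le_div_iff_mul_le hX0]
          omega
        have hsb : s < 2 * b := by
          rw [hs, Nat.div_lt_iff_lt_mul hX0]
          omega
        set h := s / 4 with hh
        have hhT : T / 4 ≤ h := Nat.div_le_div_right hsT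
        obtain ⟨p, hp1, hp2, hp3, hp4⟩ := hp h (by omega) b (by omega) (by
          refine lt_of_lt_of_le hT2 ?_
          exact_mod_cast hhT)
        have hpb : p < b := by omega
        obtain ⟨u, hu1, hu2, hu3⟩ := hU p ((Nat.Prime.coprime_iff_not_dvd hp1).2 hp4) hpb
        have hdm := Nat.div_add_mod y' X
        have hml := Nat.mod_lt y' hX0
        rw [← hs] at hdm
        -- `u ≤ y'`
        have hu4 : u ≤ y' := by
          have h5 : (p + 1) * X ≤ s * X := Nat.mul_le_mul_right _ (by omega)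
          have h6 : X * s = s * X := mul_comm _ _
          omega
        -- `y' ≤ 4 u`
        have hu5 : y' ≤ 4 * u := by
          have h5 : (h + 1) * X ≤ p * X := Nat.mul_le_mul_right _ (by omega)
          have h6 : (s + 1) * X ≤ (4 * (h + 1)) * X := Nat.mul_le_mul_right _ (by omega)
          have h7 : (s + 1) * X = X * s + X := by ring
          have h8 : (4 * (h + 1)) * X = 4 * ((h + 1) * X) := by ring
          omega
        refine ⟨v + u, y' - u, by omega, h1.add (Rep.one hu1), Or.inr ?_⟩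
        have h5 : 4 * (y' - u) ≤ 3 * y' := by omega
        calc 4 ^ (k + 1) * (y' - u) = 4 ^ k * (4 * (y' - u)) := by rw [pow_succ]; ring
          _ ≤ 4 ^ k * (3 * y') := Nat.mul_le_mul_left _ h5
          _ = 3 * (4 ^ k * y') := by ring
          _ ≤ 3 * (3 ^ k * y) := Nat.mul_le_mul_left _ h3
          _ = 3 ^ (k + 1) * y := by rw [pow_succ]; ring
  intro y hy
  obtain ⟨v, y', e, h1, h2⟩ := key k y hy
  refine ⟨v, y', e, ?_, h1⟩
  rcases h2 with h2 | h2
  · exact h2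
  · have h3 : 3 ^ k * y < 3 ^ k * (2 * b * X) := Nat.mul_lt_mul_of_pos_left hy (pow_pos (by norm_num) k)
    have h4 : 3 ^ k * (2 * b * X) ≤ 4 ^ k * X := by
      calc 3 ^ k * (2 * b * X) = 3 ^ k * (2 * b) * X := by ring
        _ ≤ 4 ^ k * X := Nat.mul_le_mul_right _ hk
    have h5 : 4 ^ k * y' < 4 ^ k * X := by omega
    have h6 : y' < X := Nat.lt_of_mul_lt_mul_left h5
    have h7 : X ≤ T * X := Nat.le_mul_of_pos_left X (by omega)
    omega

/-- the number of reversed primes for a large base -/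
lemma large_base {b h0 T k J : ℕ} (hb : 2 ≤ b) (hJ : 8 / cc b ≤ J)
    (hp : ∀ h : ℕ, h0 ≤ h → ∀ b : ℕ, 0 < b → 2 * Real.log b < h →
      ∃ p : ℕ, p.Prime ∧ h < p ∧ p ≤ 2 * h ∧ ¬ p ∣ b)
    (hT0 : 1 ≤ T / 4) (hT1 : h0 ≤ T / 4) (hT2 : 2 * Real.log b < (T / 4 : ℕ)) (hTb : T ≤ b)
    (hk : 3 ^ k * (2 * b) ≤ 4 ^ k) :
    ∃ N0 : ℕ, ∀ N : ℕ, N0 ≤ N → Rep b (2 * J * (J + 4) + (10 * J + k + T + k)) N := by
  have hc := cc_pos hb
  have hJ1 : 1 ≤ J := by
    have h1 : 0 < 8 / cc b := by positivity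
    have h2 : (0 : ℝ) < J := lt_of_lt_of_le h1 hJ
    exact_mod_cast h2
  obtain ⟨n0, hn0⟩ := interval hb hJ
  obtain ⟨n1, hn1⟩ := exists_rp hb
  refine ⟨10 * J * b ^ (n0 + n1 + 2), fun N hN => ?_⟩
  set Q := N / (10 * J) with hQ
  have hQ1 : b ^ (n0 + n1 + 2) ≤ Q := by
    rw [hQ, Nat.le_div_iff_mul_le (by omega), mul_comm]
    exact hN
  have hQ0 : Q ≠ 0 := by
    have := Nat.one_le_pow (n0 + n1 + 2) b (by omega)
    omega
  set n := Nat.log b Q with hn
  have h1 : b ^ n ≤ Q := Nat.pow_log_le_self b hQ0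
  have h2 : Q < b ^ (n + 1) := Nat.lt_pow_succ_log_self (by omega) Q
  have h3 : n0 + n1 + 2 ≤ n := by
    have h4 : b ^ (n0 + n1 + 2) < b ^ (n + 1) := lt_of_le_of_lt hQ1 h2
    have := (Nat.pow_lt_pow_iff_right (by omega : 1 < b)).1 h4
    omega
  obtain ⟨W, hW, hrep⟩ := hn0 n (by omega)
  have e1 : b ^ n = b * b ^ (n - 1) := by
    rw [← pow_succ']
    congr 1
    omega
  have hp1 : 1 ≤ b ^ (n - 1) := Nat.one_le_pow _ _ (by omega)
  have hb2 : 2 ≤ b ^ n := by
    rw [e1]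
    nlinarith
  have hN1 : 10 * J * b ^ n ≤ N := by
    calc 10 * J * b ^ n ≤ 10 * J * Q := Nat.mul_le_mul_left _ h1
      _ ≤ N := Nat.mul_div_le N (10 * J)
  have hN2 : N < 10 * J * b ^ (n + 1) := by
    have : N < 10 * J * (Q + 1) := Nat.lt_mul_div_succ N (by omega)
    exact lt_of_lt_of_le this (Nat.mul_le_mul_left _ h2)
  have hWN : W ≤ N := by
    refine hW.trans (le_trans ?_ hN1)
    nlinarith
  have hcop1 : Nat.Coprime 1 b := Nat.coprime_one_left b
  -- the chain of reductions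
  obtain ⟨u1, hu1, hu1a, hu1b⟩ := hn1 (n + 1) (by omega) 1 hcop1 (by omega)
  obtain ⟨u2, hu2, hu2a, hu2b⟩ := hn1 n (by omega) 1 hcop1 (by omega)
  have r1 : Red b (10 * J) (10 * J * b ^ (n + 1)) (2 * b ^ (n + 1)) :=
    red_linear hu1 (by omega) (by omega) (10 * J)
  have e2 : 2 * b ^ (n + 1) = 2 * b * b ^ n := by rw [pow_succ]; ring
  rw [e2] at r1
  have r2 : Red b k (2 * b * b ^ n) (T * b ^ n) :=
    red_half hb hp (fun d hd hdb => hn1 n (by omega) d hd hdb) hT0 hT1 hT2 hk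
  have r3 : Red b T (T * b ^ n) (2 * b ^ n) := red_linear hu2 (by omega) (by omega) T
  have e3 : 2 * b ^ n = 2 * b * b ^ (n - 1) := by rw [e1]; ring
  rw [e3] at r3
  have r4 : Red b k (2 * b * b ^ (n - 1)) (T * b ^ (n - 1)) :=
    red_half hb hp (fun d hd hdb => hn1 (n - 1) (by omega) d hd hdb) hT0 hT1 hT2 hk
  have r := ((r1.trans r2).trans r3).trans r4
  obtain ⟨v, z, e4, h5, h6⟩ := r (N - W) (by omega)
  have h7 : z ≤ b ^ n := by
    have : T * b ^ (n - 1) ≤ b * b ^ (n - 1) := Nat.mul_le_mul_right _ hTb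
    omega
  have h8 := (hrep z h7).add h6
  have e5 : W + z + v = N := by omega
  rw [e5] at h8
  exact h8

end Pool.Agent.Q252.RP
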