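import Pool.Agent.Q252.RP15

/-!
# Reversed primes: the uniform bound, final form
-/

set_option autoImplicit false

namespace Pool.Agent.Q252.RP

open Finset Filter

lemma exists_T (h0 : ℕ) : ∃ b1 : ℕ, ∀ b : ℕ, b1 ≤ b → 4 * (h0 + ⌈2 * Real.log b⌉₊ + 1) ≤ b := by
  have h1 := Real.isLittleO_log_id_atTop.bound (show (0 : ℝ) < 1 / 16 by norm_num)
  have h2 := (tendsto_natCast_atTop_atTop (R := ℝ)).eventually h1
  obtain ⟨b1, hb1⟩ := eventually_atTop.1 h2
  refine ⟨b1 + 8 * h0 + 16, fun b hb => ?_⟩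
  have h3 := hb1 b (by omega)
  have hb16 : (16 : ℝ) ≤ b := by exact_mod_cast (by omega : 16 ≤ b)
  have hlog : 0 ≤ Real.log b := Real.log_nonneg (by linarith)
  simp only [id, Real.norm_eq_abs, Nat.abs_cast] at h3
  rw [abs_of_nonneg hlog] at h3
  have h4 := Nat.ceil_lt_add_one (a := 2 * Real.log b) (by positivity)
  have h5 : (8 * (h0 : ℝ) + 16) ≤ b := by
    have : 8 * h0 + 16 ≤ b := by omega
    exact_mod_cast this
  have h6 : ((4 * (h0 + ⌈2 * Real.log b⌉₊ + 1) : ℕ) : ℝ) ≤ b := by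
    push_cast
    linarith
  exact_mod_cast h6

lemma exists_k (b : ℕ) (hb : 2 ≤ b) : 3 ^ ⌈4 * Real.log (2 * b)⌉₊ * (2 * b) ≤ 4 ^ ⌈4 * Real.log (2 * b)⌉₊ := by
  set k := ⌈4 * Real.log (2 * b)⌉₊ with hk
  have hb' : (2 : ℝ) ≤ b := by exact_mod_cast hb
  have h1 : 4 * Real.log (2 * b) ≤ k := Nat.le_ceil _
  have h2 : (1 / 4 : ℝ) ≤ Real.log (4 / 3) := by
    have := Real.one_sub_inv_le_log_of_pos (show (0 : ℝ) < 4 / 3 by norm_num)
    norm_num at this ⊢
    linarith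
  have hk0 : (0 : ℝ) ≤ k := Nat.cast_nonneg k
  have h3 : Real.log (2 * (b : ℝ)) ≤ Real.log ((4 / 3 : ℝ) ^ k) := by
    rw [Real.log_pow]
    nlinarith
  have h4 : (2 * (b : ℝ)) ≤ (4 / 3 : ℝ) ^ k := by
    rwa [Real.log_le_log_iff (by linarith) (by positivity)] at h3
  have h5 : (3 : ℝ) ^ k * (2 * b) ≤ 4 ^ k := by
    have h6 : (0 : ℝ) < 3 ^ k := by positivity
    calc (3 : ℝ) ^ k * (2 * b) ≤ 3 ^ k * (4 / 3 : ℝ) ^ k := mul_le_mul_of_nonneg_left h4 h6.le
      _ = 4 ^ k := by rw [← mul_pow]; norm_num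
  exact_mod_cast h5

theorem uniform : ∃ C : ℝ, 0 < C ∧ ∀ b : ℕ, 2 ≤ b → ∃ K : ℕ, 2 ≤ K ∧ (K : ℝ) ≤ C * Real.log b ∧
    ∃ N0 : ℕ, ∀ N : ℕ, N0 ≤ N → Rep b K N := by
  classical
  obtain ⟨h0, hp⟩ := exists_prime_not_dvd
  obtain ⟨b1, hb1⟩ := exists_T h0
  set Kf : ℕ → ℕ := fun b => if h : 2 ≤ b then Classical.choose (fixed_base h) else 0 with hKf
  set C1 : ℝ := 20 * 36 * 4097 ^ 2 + 20 + 8 * h0 + 24 with hC1
  set C2 : ℝ := 2 * ∑ b ∈ range b1, (Kf b : ℝ) with hC2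
  have hC2' : 0 ≤ C2 := by
    rw [hC2]
    exact mul_nonneg (by norm_num) (Finset.sum_nonneg fun _ _ => Nat.cast_nonneg _)
  have hC1' : 0 < C1 := by rw [hC1]; positivity
  refine ⟨C1 + C2, by linarith, fun b hb => ?_⟩
  have hb' : (2 : ℝ) ≤ b := by exact_mod_cast hb
  have hL2 : Real.log 2 ≤ Real.log b := Real.log_le_log (by norm_num) hb'
  have hL2' : (1 / 2 : ℝ) ≤ Real.log 2 := by
    have := Real.log_two_gt_d9
    linarith
  set L := Real.log b with hL
  have hL0 : (1 / 2 : ℝ) ≤ L := hL2'.trans hL2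
  by_cases hbb : b1 ≤ b
  · -- large bases
    set T := 4 * (h0 + ⌈2 * Real.log b⌉₊ + 1) with hT
    have hT4 : T / 4 = h0 + ⌈2 * Real.log b⌉₊ + 1 := by rw [hT]; omega
    set J := ⌈8 / cc b⌉₊ with hJ
    have hJle : 8 / cc b ≤ J := Nat.le_ceil _
    have hc := cc_pos hb
    have hJ1 : 1 ≤ J := by
      have h1 : 0 < 8 / cc b := by positivity
      have h2 : (0 : ℝ) < J := lt_of_lt_of_le h1 hJle
      exact_mod_cast h2
    have hmain := large_base (h0 := h0) (T := T) (k := ⌈4 * Real.log (2 * b)⌉₊) hb hJle hp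
      (by rw [hT4]; omega) (by rw [hT4]; omega) (by
        rw [hT4]
        have := Nat.le_ceil (2 * Real.log (b : ℝ))
        push_cast
        have h1 : (0 : ℝ) ≤ h0 := Nat.cast_nonneg _
        linarith) (hb1 b hbb) (exists_k b hb)
    refine ⟨_, ?_, ?_, hmain⟩
    · have : 1 ≤ J * (J + 4) := Nat.mul_pos hJ1 (by omega)
      nlinarith
    · -- the numerical bound
      set k := ⌈4 * Real.log (2 * b)⌉₊ with hk
      have hm4 : 4 ≤ b ^ 2 := by nlinarith
      have hm0 : 0 < b ^ 2 - 1 := by omega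
      have hmR : (0 : ℝ) < ((b ^ 2 - 1 : ℕ) : ℝ) := by exact_mod_cast hm0
      have hφ : (0 : ℝ) < (Nat.totient (b ^ 2 - 1) : ℝ) := by exact_mod_cast Nat.totient_pos.2 hm0
      set ρ : ℝ := ((b ^ 2 - 1 : ℕ) : ℝ) / (Nat.totient (b ^ 2 - 1) : ℝ) with hρ
      have hρ1 : 1 ≤ ρ := by
        rw [hρ, one_le_div hφ]
        exact_mod_cast Nat.totient_le _
      have hρ2 : ρ ^ 2 ≤ 36 * L := by
        refine (ratio_sq hm0).trans ?_
        have h1 : Real.log ((b ^ 2 - 1 : ℕ) : ℝ) ≤ 2 * L := by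
          have h2 : ((b ^ 2 - 1 : ℕ) : ℝ) ≤ (b : ℝ) ^ 2 := by
            exact_mod_cast Nat.sub_le _ _
          have h3 := Real.log_le_log hmR h2
          rw [Real.log_pow] at h3
          push_cast at h3
          exact h3
        linarith
      have hJρ : (J : ℝ) ≤ 4097 * ρ := by
        have h1 := Nat.ceil_lt_add_one (a := 8 / cc b) (by positivity)
        have h2 : 8 / cc b = 4096 * ρ := by
          rw [cc, hρ]
          field_simp
          norm_num
        rw [h2] at h1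
        have h3 : (J : ℝ) = (⌈8 / cc b⌉₊ : ℝ) := rfl
        rw [h3, h2]
        linarith
      have hJ1R : (1 : ℝ) ≤ J := by exact_mod_cast hJ1
      have hJ2 : (J : ℝ) ^ 2 ≤ 4097 ^ 2 * (36 * L) := by
        calc (J : ℝ) ^ 2 ≤ (4097 * ρ) ^ 2 := pow_le_pow_left₀ (by linarith) hJρ 2
          _ = 4097 ^ 2 * ρ ^ 2 := by ring
          _ ≤ 4097 ^ 2 * (36 * L) := by gcongr
      have hJJ : (J : ℝ) ≤ (J : ℝ) ^ 2 := by nlinarith
      have hkL : (k : ℝ) ≤ 10 * L := by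
        have h1 := Nat.ceil_lt_add_one (a := 4 * Real.log (2 * b)) (by
          have : 0 ≤ Real.log (2 * (b : ℝ)) := Real.log_nonneg (by linarith)
          positivity)
        have h2 : Real.log (2 * (b : ℝ)) = Real.log 2 + L := Real.log_mul (by norm_num) (by linarith)
        rw [h2] at h1
        have h3 : (k : ℝ) = (⌈4 * Real.log (2 * b)⌉₊ : ℝ) := rfl
        rw [h3, h2]
        linarith
      have hTL : (T : ℝ) ≤ (8 * h0 + 24) * L := by
        have h1 := Nat.ceil_lt_add_one (a := 2 * Real.log (b : ℝ)) (by positivity)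
        have h2 : (T : ℝ) = 4 * (h0 + (⌈2 * Real.log b⌉₊ : ℝ) + 1) := by rw [hT]; push_cast; rfl
        rw [h2]
        have h3 : (0 : ℝ) ≤ h0 := Nat.cast_nonneg _
        have h4 : (h0 : ℝ) ≤ 2 * h0 * L := by nlinarith
        rw [← hL] at h1 ⊢
        nlinarith
      have hK : ((2 * J * (J + 4) + (10 * J + k + T + k) : ℕ) : ℝ) ≤ C1 * L := by
        push_cast
        rw [hC1]
        nlinarith
      refine hK.trans ?_
      have : 0 ≤ C2 * L := mul_nonneg hC2' (by linarith)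
      linarith
  · -- small bases
    push Not at hbb
    have h1 := Classical.choose_spec (fixed_base hb)
    obtain ⟨N0, hK, hN⟩ := h1
    refine ⟨_, hK, ?_, N0, hN⟩
    have h2 : Kf b = Classical.choose (fixed_base hb) := by
      simp only [hKf]
      rw [dif_pos hb]
    rw [← h2]
    have h3 : (Kf b : ℝ) ≤ ∑ b ∈ range b1, (Kf b : ℝ) :=
      Finset.single_le_sum (f := fun b => (Kf b : ℝ)) (fun _ _ => Nat.cast_nonneg _) (mem_range.2 hbb)
    have h4 : 0 ≤ ∑ b ∈ range b1, (Kf b : ℝ) := Finset.sum_nonneg fun _ _ => Nat.cast_nonneg _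
    have h5 : 0 ≤ C1 * L := mul_nonneg hC1'.le (by linarith)
    rw [add_mul]
    have h6 : (Kf b : ℝ) ≤ C2 * L := by
      rw [hC2]
      nlinarith
    linarith

end Pool.Agent.Q252.RP
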