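import Pool.Agent.Q252.RP1

/-!
# Reversed primes: the mean value of the digit product over Farey fractions
-/

set_option autoImplicit false

namespace Pool.Agent.Q252.RP

open Finset
open Pool.Agent.Helper112 (ee ls_ee_zero ls_ee_add ls_ee_int ls_ee_nat ls_norm_ee additive_large_sieve)

lemma rv_inj {b : ℕ} (hb : 0 < b) (n : ℕ) : Set.InjOn (rv b n) (range (b ^ n)) := by
  induction n with
  | zero =>
    intro x hx y hy _
    simp only [pow_zero, range_one, coe_singleton, Set.mem_singleton_iff] at hx hy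
    rw [hx, hy]
  | succ n ih =>
    intro x hx y hy h
    rw [mem_coe, mem_range, pow_succ] at hx hy
    rw [rv, rv] at h
    have h1 := rv_lt hb n (x / b)
    have h2 := rv_lt hb n (y / b)
    have h3 : x % b = y % b := by
      have e1 : (x % b * b ^ n + rv b n (x / b)) / b ^ n = x % b := by
        rw [mul_comm, Nat.mul_add_div (pow_pos hb n), Nat.div_eq_of_lt h1, add_zero]
      have e2 : (y % b * b ^ n + rv b n (y / b)) / b ^ n = y % b := by
        rw [mul_comm, Nat.mul_add_div (pow_pos hb n), Nat.div_eq_of_lt h2, add_zero]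
      rw [← e1, ← e2, h]
    rw [h3] at h
    have h4 : rv b n (x / b) = rv b n (y / b) := by omega
    have hx' : x / b ∈ (range (b ^ n) : Set ℕ) := by
      rw [mem_coe, mem_range]; exact Nat.div_lt_of_lt_mul (by rwa [mul_comm])
    have hy' : y / b ∈ (range (b ^ n) : Set ℕ) := by
      rw [mem_coe, mem_range]; exact Nat.div_lt_of_lt_mul (by rwa [mul_comm])
    have h5 := ih hx' hy' h4
    rw [← Nat.mod_add_div x b, ← Nat.mod_add_div y b, h3, h5]

/-- the second moment over Farey fractions -/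
lemma ls_FF {b : ℕ} (hb : 0 < b) (k R : ℕ) (θ : ℝ) :
    ∑ q ∈ Icc 1 R, ∑ a ∈ (range q).filter (fun a => a.Coprime q), ‖FF b k ((a : ℝ) / q) θ‖ ^ 2 ≤
      6 * ((b : ℝ) ^ (k + 1) + (R : ℝ) ^ 2) * (b : ℝ) ^ k := by
  set g : ℕ → ℕ := fun m => 1 + b * rv b k m with hg
  set c : ℕ → ℂ := fun n => ∑ m ∈ range (b ^ k), if g m = n then ee (θ * m) else 0 with hc
  have hginj : Set.InjOn g (range (b ^ k)) := by
    intro x hx y hy h
    simp only [hg] at h
    have h1 : b * rv b k x = b * rv b k y := by omega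
    exact rv_inj hb k hx hy (Nat.eq_of_mul_eq_mul_left hb h1)
  have hgmem : ∀ m, g m ∈ Icc 1 (b ^ (k + 1)) := by
    intro m
    rw [mem_Icc]
    refine ⟨by simp [hg], ?_⟩
    have h1 := rv_lt hb k m
    simp only [hg]
    calc 1 + b * rv b k m ≤ b + b * rv b k m := by omega
      _ = b * (rv b k m + 1) := by ring
      _ ≤ b * b ^ k := Nat.mul_le_mul_left _ h1
      _ = b ^ (k + 1) := by ring
  have hsum : ∀ x : ℝ, ∑ n ∈ Icc 1 (b ^ (k + 1)), c n * ee (n * x) = ee x * FF b k x θ := by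
    intro x
    rw [← sum_rv hb, Finset.mul_sum]
    simp only [hc, Finset.sum_mul]
    rw [Finset.sum_comm]
    refine Finset.sum_congr rfl fun m _ => ?_
    have e : ∀ n ∈ Icc 1 (b ^ (k + 1)), (if g m = n then ee (θ * m) else 0) * ee (n * x) =
        if g m = n then ee (θ * m) * ee ((g m : ℕ) * x) else 0 := by
      intro n _
      split_ifs with h
      · rw [h]
      · rw [zero_mul]
    rw [Finset.sum_congr rfl e, Finset.sum_ite_eq, if_pos (hgmem m), ← ls_ee_add, ← ls_ee_add]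
    congr 1
    simp only [hg]
    push_cast
    ring
  have hnorm : ∀ n, ‖c n‖ ^ 2 ≤ ∑ m ∈ range (b ^ k), if g m = n then (1 : ℝ) else 0 := by
    intro n
    by_cases h : ∃ m0 ∈ range (b ^ k), g m0 = n
    · obtain ⟨m0, h0, h1⟩ := h
      have e : c n = ee (θ * m0) := by
        simp only [hc]
        rw [Finset.sum_eq_single m0]
        · rw [if_pos h1]
        · intro m hm hne
          rw [if_neg]
          intro h2
          exact hne (hginj (by exact_mod_cast hm) (by exact_mod_cast h0) (h2.trans h1.symm))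
        · intro h2; exact absurd h0 h2
      rw [e, ls_norm_ee, one_pow]
      have h3 := Finset.single_le_sum (f := fun m => if g m = n then (1 : ℝ) else 0)
        (fun m _ => by split_ifs <;> norm_num) h0
      simp only [h1, if_true] at h3
      exact h3
    · push Not at h
      have e : c n = 0 := by
        simp only [hc]
        exact Finset.sum_eq_zero fun m hm => by rw [if_neg (h m hm)]
      rw [e]
      simp only [norm_zero]
      rw [zero_pow (by norm_num)]
      exact Finset.sum_nonneg fun m _ => by split_ifs <;> norm_num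
  have hl2 : ∑ n ∈ Icc 1 (b ^ (k + 1)), ‖c n‖ ^ 2 ≤ (b : ℝ) ^ k := by
    refine (Finset.sum_le_sum fun n _ => hnorm n).trans ?_
    rw [Finset.sum_comm]
    have e : ∀ m ∈ range (b ^ k), (∑ n ∈ Icc 1 (b ^ (k + 1)), if g m = n then (1 : ℝ) else 0) = 1 := by
      intro m _
      rw [Finset.sum_ite_eq, if_pos (hgmem m)]
    rw [Finset.sum_congr rfl e]
    simp
  have h := additive_large_sieve (b ^ (k + 1)) R c
  have hcongr : ∀ q ∈ Icc 1 R, ∀ a ∈ (range q).filter (fun a => a.Coprime q),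
      ‖∑ n ∈ Icc 1 (b ^ (k + 1)), c n * ee (n * a / q)‖ = ‖FF b k ((a : ℝ) / q) θ‖ := by
    intro q _ a _
    have e : ∀ n ∈ Icc 1 (b ^ (k + 1)), c n * ee (n * a / q) = c n * ee (n * ((a : ℝ) / q)) := by
      intro n _
      rw [mul_div_assoc]
    rw [Finset.sum_congr rfl e, hsum, norm_mul, ls_norm_ee, one_mul]
  have e2 : ∑ q ∈ Icc 1 R, ∑ a ∈ (range q).filter (fun a => a.Coprime q),
      ‖FF b k ((a : ℝ) / q) θ‖ ^ 2 = ∑ q ∈ Icc 1 R, ∑ a ∈ (range q).filter (fun a => a.Coprime q),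
      ‖∑ n ∈ Icc 1 (b ^ (k + 1)), c n * ee (n * a / q)‖ ^ 2 :=
    Finset.sum_congr rfl fun q hq => Finset.sum_congr rfl fun a ha => by rw [hcongr q hq a ha]
  rw [e2]
  refine h.trans ?_
  push_cast
  gcongr

/-- multiplication by a unit permutes the reduced residues -/
lemma sum_dilate {q c : ℕ} (hq : 0 < q) (hc : c.Coprime q) (f : ℝ → ℝ)
    (hf : ∀ (x : ℝ) (k : ℤ), f (x + k) = f x) :
    ∑ a ∈ (range q).filter (fun a => a.Coprime q), f ((a : ℝ) / q * c) =
      ∑ a ∈ (range q).filter (fun a => a.Coprime q), f ((a : ℝ) / q) := by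
  have hq0 : (q : ℝ) ≠ 0 := by exact_mod_cast hq.ne'
  set S := (range q).filter (fun a => a.Coprime q) with hS
  have hmaps : ∀ a ∈ S, (a * c) % q ∈ S := by
    intro a ha
    rw [hS, mem_filter, mem_range] at ha ⊢
    refine ⟨Nat.mod_lt _ hq, ?_⟩
    rw [Nat.Coprime, ← Nat.gcd_rec, Nat.gcd_comm]
    exact Nat.Coprime.mul_left ha.2 hc
  have hinj : Set.InjOn (fun a => (a * c) % q) S := by
    intro x hx y hy h
    rw [hS, coe_filter] at hx hy
    simp only [mem_range] at hx hy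
    have h1 : x * c ≡ y * c [MOD q] := h
    have h2 := Nat.ModEq.cancel_right_of_coprime (by rw [Nat.gcd_comm]; exact hc) h1
    have h3 : x % q = y % q := h2
    rwa [Nat.mod_eq_of_lt hx.1, Nat.mod_eq_of_lt hy.1] at h3
  have himg : S.image (fun a => (a * c) % q) = S := by
    apply Finset.eq_of_subset_of_card_le
    · intro x hx
      rw [mem_image] at hx
      obtain ⟨a, ha, rfl⟩ := hx
      exact hmaps a ha
    · rw [Finset.card_image_of_injOn hinj]
  conv_rhs => rw [← himg]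
  rw [Finset.sum_image hinj]
  refine Finset.sum_congr rfl fun a _ => ?_
  have e : (a : ℝ) / q * c = (((a * c) % q : ℕ) : ℝ) / q + (((a * c) / q : ℕ) : ℤ) := by
    have h1 := Nat.mod_add_div (a * c) q
    have h2 : (((a * c) % q : ℕ) : ℝ) + q * ((a * c) / q : ℕ) = (a : ℝ) * c := by exact_mod_cast h1
    rw [Int.cast_natCast, div_add' _ _ _ hq0, div_mul_eq_mul_div, ← h2]
    ring
  rw [e, hf]

/-- the sum over the reduced fractions with denominator `q` -/
noncomputable def hs (b n : ℕ) (θ : ℝ) (q : ℕ) : ℝ :=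
  ∑ a ∈ (range q).filter (fun a => a.Coprime q), ‖FF b n ((a : ℝ) / q) θ‖

lemma hs_nonneg (b n : ℕ) (θ : ℝ) (q : ℕ) : 0 ≤ hs b n θ q :=
  Finset.sum_nonneg fun _ _ => norm_nonneg _

/-- the mean value over Farey fractions -/
lemma L1 {b : ℕ} (hb : 0 < b) (k r R : ℕ) (θ : ℝ) :
    ∑ q ∈ (Icc 1 R).filter (fun q => q.Coprime b), hs b (k + (k + r)) θ q ≤
      (b : ℝ) ^ r * (6 * ((b : ℝ) ^ (k + 1) + (R : ℝ) ^ 2) * (b : ℝ) ^ k) := by
  -- pointwise
  have hpt : ∀ α : ℝ, ‖FF b (k + (k + r)) α θ‖ ≤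
      (b : ℝ) ^ r * ((‖FF b k (α * (b ^ (k + r) : ℕ)) θ‖ ^ 2 +
        ‖FF b k (α * (b ^ r : ℕ)) ((b : ℝ) ^ k * θ)‖ ^ 2) / 2) := by
    intro α
    rw [FF_split, FF_split, norm_mul, norm_mul]
    push_cast
    have h1 := norm_FF_le b r α ((b : ℝ) ^ k * ((b : ℝ) ^ k * θ))
    set x := ‖FF b k (α * (b : ℝ) ^ (k + r)) θ‖
    set y := ‖FF b k (α * (b : ℝ) ^ r) ((b : ℝ) ^ k * θ)‖
    have hx : 0 ≤ x := norm_nonneg _
    have hy : 0 ≤ y := norm_nonneg _
    have h2 : x * y ≤ (x ^ 2 + y ^ 2) / 2 := by nlinarith [sq_nonneg (x - y)]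
    have hbr : (0 : ℝ) ≤ (b : ℝ) ^ r := by positivity
    calc x * (y * ‖FF b r α ((b : ℝ) ^ k * ((b : ℝ) ^ k * θ))‖)
        ≤ x * (y * (b : ℝ) ^ r) := by gcongr
      _ = (b : ℝ) ^ r * (x * y) := by ring
      _ ≤ _ := mul_le_mul_of_nonneg_left h2 hbr
  have hq : ∀ q ∈ (Icc 1 R).filter (fun q => q.Coprime b), hs b (k + (k + r)) θ q ≤
      (b : ℝ) ^ r * ((∑ a ∈ (range q).filter (fun a => a.Coprime q), ‖FF b k ((a : ℝ) / q) θ‖ ^ 2 +
        ∑ a ∈ (range q).filter (fun a => a.Coprime q),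
          ‖FF b k ((a : ℝ) / q) ((b : ℝ) ^ k * θ)‖ ^ 2) / 2) := by
    intro q hq
    rw [mem_filter, mem_Icc] at hq
    have hper : ∀ θ' : ℝ, ∀ (x : ℝ) (j : ℤ), ‖FF b k (x + j) θ'‖ ^ 2 = ‖FF b k x θ'‖ ^ 2 := by
      intro θ' x j
      rw [FF_add_int]
    have hc1 : (b ^ (k + r)).Coprime q := Nat.Coprime.pow_left _ hq.2.symm
    have hc2 : (b ^ r).Coprime q := Nat.Coprime.pow_left _ hq.2.symm
    have e1 := sum_dilate (by omega) hc1 (fun x => ‖FF b k x θ‖ ^ 2) (hper θ)
    have e2 := sum_dilate (by omega) hc2 (fun x => ‖FF b k x ((b : ℝ) ^ k * θ)‖ ^ 2)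
      (hper ((b : ℝ) ^ k * θ))
    unfold hs
    refine (Finset.sum_le_sum fun (a : ℕ) _ => hpt ((a : ℝ) / q)).trans ?_
    rw [← Finset.mul_sum, ← Finset.sum_div, Finset.sum_add_distrib, e1, e2]
  refine (Finset.sum_le_sum hq).trans ?_
  rw [← Finset.mul_sum, ← Finset.sum_div, Finset.sum_add_distrib]
  have hbr : (0 : ℝ) ≤ (b : ℝ) ^ r := by positivity
  apply mul_le_mul_of_nonneg_left _ hbr
  have hsub : ∀ θ' : ℝ, ∑ q ∈ (Icc 1 R).filter (fun q => q.Coprime b),
      ∑ a ∈ (range q).filter (fun a => a.Coprime q), ‖FF b k ((a : ℝ) / q) θ'‖ ^ 2 ≤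
      6 * ((b : ℝ) ^ (k + 1) + (R : ℝ) ^ 2) * (b : ℝ) ^ k := by
    intro θ'
    refine le_trans ?_ (ls_FF hb k R θ')
    apply Finset.sum_le_sum_of_subset_of_nonneg (Finset.filter_subset _ _)
    intro q _ _
    exact Finset.sum_nonneg fun _ _ => by positivity
  have h1 := hsub θ
  have h2 := hsub ((b : ℝ) ^ k * θ)
  linarith

end Pool.Agent.Q252.RP
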