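import Pool.Agent.Q252.RP2

/-!
# Reversed primes: the uniform bound for the digit product at rational points
-/

set_option autoImplicit false

namespace Pool.Agent.Q252.RP

open Finset
open Pool.Agent.Helper112 (ee ls_ee_zero ls_ee_add ls_ee_int ls_ee_nat ls_norm_ee)

/-- distance to the nearest integer -/
noncomputable def nd (x : ℝ) : ℝ := |x - round x|

lemma nd_nonneg (x : ℝ) : 0 ≤ nd x := abs_nonneg _

lemma nd_le (x : ℝ) (k : ℤ) : nd x ≤ |x - k| := round_le x k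

lemma nd_le_half (x : ℝ) : nd x ≤ 1 / 2 := abs_sub_round x

lemma nd_sub_le (x y : ℝ) : nd (x - y) ≤ nd x + nd y := by
  have h := nd_le (x - y) (round x - round y)
  push_cast at h
  have e : x - y - (round x - round y) = (x - round x) - (y - round y) := by ring
  rw [e] at h
  exact h.trans (abs_sub _ _)

lemma nd_mul_le (b : ℕ) (x : ℝ) : nd (b * x) ≤ b * nd x := by
  have h := nd_le (b * x) (b * round x)
  push_cast at h
  have e : (b : ℝ) * x - b * round x = b * (x - round x) := by ring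
  rw [e, abs_mul, Nat.abs_cast] at h
  exact h

lemma le_nd_mul {b : ℕ} {x : ℝ} (h : b * nd x ≤ 1 / 2) : b * nd x ≤ nd (b * x) := by
  unfold nd at h ⊢
  set j : ℤ := b * round x with hj
  have e : (b : ℝ) * |x - round x| = |(b : ℝ) * x - j| := by
    rw [hj]
    push_cast
    rw [← mul_sub, abs_mul, Nat.abs_cast]
  rw [e] at h ⊢
  set k : ℤ := round ((b : ℝ) * x) with hk
  by_cases hkj : k = j
  · rw [hkj]
  · have h1 : (1 : ℝ) ≤ |(k : ℝ) - j| := by
      have h2 : (1 : ℤ) ≤ |k - j| := Int.one_le_abs (sub_ne_zero.2 hkj)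
      exact_mod_cast h2
    have h3 : |(k : ℝ) - j| ≤ |(b : ℝ) * x - j| + |(b : ℝ) * x - k| := by
      have e2 : (k : ℝ) - j = ((b : ℝ) * x - j) - ((b : ℝ) * x - k) := by ring
      rw [e2]
      exact abs_sub _ _
    linarith

lemma nd_rat {q : ℕ} (hq : 0 < q) {a : ℤ} (ha : ¬ (q : ℤ) ∣ a) : 1 / (q : ℝ) ≤ nd ((a : ℝ) / q) := by
  unfold nd
  set k : ℤ := round ((a : ℝ) / q)
  have hq' : (0 : ℝ) < q := by exact_mod_cast hq
  have e : (a : ℝ) / q - k = ((a - k * q : ℤ) : ℝ) / q := by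
    push_cast
    field_simp
  rw [e, abs_div, Nat.abs_cast]
  apply div_le_div_of_nonneg_right _ hq'.le
  have h1 : (1 : ℤ) ≤ |a - k * q| := by
    apply Int.one_le_abs
    intro h
    exact ha ⟨k, by linarith⟩
  exact_mod_cast h1

lemma norm_one_add_ee (x : ℝ) : ‖1 + ee x‖ ≤ 2 - 4 * nd x ^ 2 := by
  set y : ℝ := x - round x with hy
  have hxy : ee x = ee y := by
    have : x = y + (round x : ℤ) := by rw [hy]; ring
    conv_lhs => rw [this]
    rw [ls_ee_add, ls_ee_int, mul_one]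
  have hy2 : nd x ^ 2 = y ^ 2 := by
    unfold nd
    rw [← hy, sq_abs]
  have hyabs : |y| ≤ 1 / 2 := abs_sub_round x
  have hypi : |2 * Real.pi * y| ≤ Real.pi := by
    rw [abs_mul, abs_of_pos (by positivity)]
    nlinarith [Real.pi_pos]
  have hcos := Real.cos_le_one_sub_mul_cos_sq hypi
  have hcos2 : Real.cos (2 * Real.pi * y) ≤ 1 - 8 * y ^ 2 := by
    refine hcos.trans (le_of_eq ?_)
    have := Real.pi_pos.ne'
    field_simp
    ring
  have he : ee y = ((Real.cos (2 * Real.pi * y) : ℝ) : ℂ) + (Real.sin (2 * Real.pi * y) : ℝ) * Complex.I := by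
    unfold ee
    have : (2 * Real.pi * y * Complex.I : ℂ) = ((2 * Real.pi * y : ℝ) : ℂ) * Complex.I := by
      push_cast; ring
    rw [this, Complex.exp_mul_I, ← Complex.ofReal_cos, ← Complex.ofReal_sin]
  rw [hxy, hy2]
  have hy4 : y ^ 2 ≤ 1 / 4 := by
    have := sq_le_sq' (by linarith [abs_nonneg y] : -(1 / 2) ≤ |y|) hyabs
    rw [sq_abs] at this
    linarith
  have hnn : (0 : ℝ) ≤ 2 - 4 * y ^ 2 := by linarith
  apply le_of_sq_le_sq _ hnn
  have hn : ‖1 + ee y‖ ^ 2 = 2 + 2 * Real.cos (2 * Real.pi * y) := by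
    rw [he, ← Complex.normSq_eq_norm_sq, Complex.normSq_apply]
    simp only [Complex.add_re, Complex.one_re, Complex.ofReal_re, Complex.mul_re, Complex.I_re,
      Complex.ofReal_im, Complex.I_im, Complex.add_im, Complex.one_im, Complex.mul_im]
    have := Real.sin_sq_add_cos_sq (2 * Real.pi * y)
    nlinarith
  rw [hn]
  nlinarith [sq_nonneg (y ^ 2)]

lemma norm_ph_le' {b : ℕ} (hb : 2 ≤ b) (x : ℝ) : ‖ph b x‖ ≤ b - 4 * nd x ^ 2 := by
  obtain ⟨c, rfl⟩ := Nat.exists_eq_add_of_le hb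
  unfold ph
  rw [Finset.sum_range_add]
  have h1 : ∑ j ∈ range 2, ee (j * x) = 1 + ee x := by
    rw [Finset.sum_range_succ, Finset.sum_range_one]
    simp [ls_ee_zero]
  rw [h1]
  have h2 : ‖∑ j ∈ range c, ee ((2 + j : ℕ) * x)‖ ≤ c := by
    refine (norm_sum_le _ _).trans ?_
    simp [ls_norm_ee]
  have h3 := norm_one_add_ee x
  refine (norm_add_le _ _).trans ?_
  push_cast at h2 ⊢
  linarith

/-- the gain over a block -/
noncomputable def kap (b : ℕ) : ℝ := 1 - 1 / ((b : ℝ) ^ 3 * (b + 1) ^ 2)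

lemma kap_nonneg {b : ℕ} (hb : 2 ≤ b) : 0 ≤ kap b := by
  unfold kap
  have hb' : (2 : ℝ) ≤ b := by exact_mod_cast hb
  have h1 : (1 : ℝ) ≤ (b : ℝ) ^ 3 * (b + 1) ^ 2 := by
    have h2 : (1 : ℝ) ≤ (b : ℝ) ^ 3 := one_le_pow₀ (by linarith)
    have h3 : (1 : ℝ) ≤ ((b : ℝ) + 1) ^ 2 := one_le_pow₀ (by linarith)
    nlinarith
  have : 1 / ((b : ℝ) ^ 3 * (b + 1) ^ 2) ≤ 1 := by
    rw [div_le_one (by linarith)]
    exact h1
  linarith

lemma kap_lt_one {b : ℕ} (hb : 2 ≤ b) : kap b < 1 := by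
  unfold kap
  have hb' : (2 : ℝ) ≤ b := by exact_mod_cast hb
  have : 0 < 1 / ((b : ℝ) ^ 3 * (b + 1) ^ 2) := by positivity
  linarith

/-- two consecutive digits -/
lemma two_digits {b : ℕ} (hb : 2 ≤ b) {x y : ℝ} (h : 1 / (2 * (b : ℝ)) ≤ nd (b * x - y)) :
    ‖ph b x‖ * ‖ph b y‖ ≤ kap b * (b : ℝ) ^ 2 := by
  have hb' : (2 : ℝ) ≤ b := by exact_mod_cast hb
  have h1 : 1 / (2 * (b : ℝ)) ≤ b * nd x + nd y :=
    h.trans ((nd_sub_le _ _).trans (add_le_add_left (nd_mul_le b x) _))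
  set δ : ℝ := 1 / (2 * (b : ℝ) * (b + 1)) with hδ
  have hδ0 : 0 < δ := by rw [hδ]; positivity
  have hδ2 : (b : ℝ) * δ + δ = 1 / (2 * (b : ℝ)) := by
    rw [hδ]; field_simp
  have hkey : kap b * (b : ℝ) ^ 2 = b * (b - 4 * δ ^ 2) := by
    rw [kap, hδ]
    have : (b : ℝ) ≠ 0 := by linarith
    field_simp
    ring
  have hx := norm_ph_le' hb x
  have hy := norm_ph_le' hb y
  have hx0 := norm_ph_le b x
  have hy0 := norm_ph_le b y
  rw [hkey]
  by_cases hc : δ ≤ nd x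
  · have h2 : δ ^ 2 ≤ nd x ^ 2 := pow_le_pow_left₀ hδ0.le hc 2
    rw [mul_comm (b : ℝ)]
    exact mul_le_mul (hx.trans (by linarith)) hy0 (norm_nonneg _) ((norm_nonneg _).trans (hx.trans (by linarith)))
  · push Not at hc
    have h3 : δ ≤ nd y := by
      have : (b : ℝ) * nd x ≤ b * δ := mul_le_mul_of_nonneg_left hc.le (by linarith)
      linarith
    have h2 : δ ^ 2 ≤ nd y ^ 2 := pow_le_pow_left₀ hδ0.le h3 2
    exact mul_le_mul hx0 (hy.trans (by linarith)) (norm_nonneg _) (by linarith)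

/-- one block of `w` digits -/
lemma block {b : ℕ} (hb : 2 ≤ b) {q : ℕ} (hq0 : 0 < q) (hq : q.Coprime (b * (b ^ 2 - 1))) {a : ℤ}
    (ha : ¬ (q : ℤ) ∣ a) {w : ℕ} (hw : 2 ≤ w) (hqw : q ≤ b ^ (w - 1)) (θ : ℝ) :
    ‖FF b w ((a : ℝ) / q) θ‖ ≤ kap b * (b : ℝ) ^ w := by
  set α : ℝ := (a : ℝ) / q with hα
  have hb' : (2 : ℝ) ≤ b := by exact_mod_cast hb
  have hb2 : ((b ^ 2 - 1 : ℕ) : ℝ) = (b : ℝ) ^ 2 - 1 := by
    rw [Nat.cast_sub (Nat.one_le_pow _ _ (by omega))]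
    push_cast; rfl
  -- some scaled fraction is far from the integers
  have hex : ∃ j, 1 ≤ j ∧ j ≤ w - 1 ∧ 1 / (2 * (b : ℝ)) ≤ nd (α * (b : ℝ) ^ j * ((b : ℝ) ^ 2 - 1)) := by
    by_contra hcon
    push Not at hcon
    have hgrow : ∀ j, 1 ≤ j → j ≤ w - 1 →
        (b : ℝ) ^ (j - 1) / q ≤ nd (α * (b : ℝ) ^ j * ((b : ℝ) ^ 2 - 1)) := by
      intro j hj
      induction j, hj using Nat.le_induction with
      | base =>
        intro _
        have e : α * (b : ℝ) ^ 1 * ((b : ℝ) ^ 2 - 1) = ((a * ((b * (b ^ 2 - 1) : ℕ) : ℤ) : ℤ) : ℝ) / q := by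
          rw [hα]
          push_cast [Nat.cast_mul]
          rw [← hb2]
          ring
        rw [e]
        simp only [Nat.sub_self, pow_zero]
        apply nd_rat hq0
        intro hdvd
        have hcop : IsCoprime (q : ℤ) ((b * (b ^ 2 - 1) : ℕ) : ℤ) := Nat.isCoprime_iff_coprime.2 hq
        exact ha (hcop.dvd_of_dvd_mul_right hdvd)
      | succ j hj ih =>
        intro hjw
        have h1 := ih (by omega)
        have h2 := hcon j hj (by omega)
        have h3 : (b : ℝ) * nd (α * (b : ℝ) ^ j * ((b : ℝ) ^ 2 - 1)) ≤ 1 / 2 := by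
          have : (b : ℝ) * nd (α * (b : ℝ) ^ j * ((b : ℝ) ^ 2 - 1)) ≤ b * (1 / (2 * (b : ℝ))) :=
            mul_le_mul_of_nonneg_left h2.le (by linarith)
          refine this.trans (le_of_eq ?_)
          have : (b : ℝ) ≠ 0 := by linarith
          field_simp
        have h4 := le_nd_mul h3
        have e : (b : ℝ) * (α * (b : ℝ) ^ j * ((b : ℝ) ^ 2 - 1)) =
          α * (b : ℝ) ^ (j + 1) * ((b : ℝ) ^ 2 - 1) := by ring
        rw [e] at h4
        refine le_trans ?_ h4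
        have e2 : (b : ℝ) ^ (j + 1 - 1) / q = b * ((b : ℝ) ^ (j - 1) / q) := by
          have : j + 1 - 1 = (j - 1) + 1 := by omega
          rw [this, pow_succ]
          ring
        rw [e2]
        exact mul_le_mul_of_nonneg_left h1 (by linarith)
    have h1 := hgrow (w - 1) (by omega) le_rfl
    have h2 := hcon (w - 1) (by omega) le_rfl
    have h3 : (b : ℝ) ^ (w - 1 - 1) / q < 1 / (2 * (b : ℝ)) := lt_of_le_of_lt h1 h2
    have hq' : (0 : ℝ) < q := by exact_mod_cast hq0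
    rw [div_lt_div_iff₀ hq' (by linarith)] at h3
    have h4 : (q : ℝ) ≤ (b : ℝ) ^ (w - 1) := by exact_mod_cast hqw
    have h5 : (b : ℝ) ^ (w - 1) = (b : ℝ) ^ (w - 1 - 1) * b := by
      rw [← pow_succ]
      congr 1
      omega
    have h6 : 0 < (b : ℝ) ^ (w - 1) := by positivity
    nlinarith
  obtain ⟨j, hj1, hjw, hj⟩ := hex
  obtain ⟨i, hi⟩ : ∃ i, w = i + (2 + (j - 1)) := ⟨w - 1 - j, by omega⟩
  rw [hi, FF_split, FF_split, norm_mul, norm_mul]
  have e2 : FF b 2 (α * (b : ℝ) ^ (j - 1)) ((b : ℝ) ^ i * θ) =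
      ph b (α * (b : ℝ) ^ (j + 1) + (b : ℝ) ^ i * θ) * ph b (α * (b : ℝ) ^ j + b * ((b : ℝ) ^ i * θ)) := by
    rw [FF, FF, FF, mul_one]
    congr 2
    · congr 1
      rw [mul_assoc, ← pow_add]
      congr 2
      omega
    · congr 1
      rw [mul_assoc, ← pow_add]
      congr 2
      omega
  have h2 : ‖FF b 2 (α * (b : ℝ) ^ (j - 1)) ((b : ℝ) ^ i * θ)‖ ≤ kap b * (b : ℝ) ^ 2 := by
    rw [e2, norm_mul]
    apply two_digits hb
    refine hj.trans (le_of_eq ?_)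
    congr 1
    ring
  have h1 := norm_FF_le b i (α * (b : ℝ) ^ (2 + (j - 1))) θ
  have h3 := norm_FF_le b (j - 1) α ((b : ℝ) ^ 2 * ((b : ℝ) ^ i * θ))
  have hk := kap_nonneg hb
  calc _ ≤ (b : ℝ) ^ i * ((kap b * (b : ℝ) ^ 2) * (b : ℝ) ^ (j - 1)) := by
        apply mul_le_mul h1 _ (by positivity) (by positivity)
        exact mul_le_mul h2 h3 (norm_nonneg _) (by positivity)
    _ = kap b * (b : ℝ) ^ (i + (2 + (j - 1))) := by
        rw [pow_add, pow_add]; ring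

/-- the uniform bound -/
lemma Linf {b : ℕ} (hb : 2 ≤ b) {q : ℕ} (hq0 : 0 < q) (hq : q.Coprime (b * (b ^ 2 - 1))) {a : ℤ}
    (ha : ¬ (q : ℤ) ∣ a) {w : ℕ} (hw : 2 ≤ w) (hqw : q ≤ b ^ (w - 1)) (t r : ℕ) (θ : ℝ) :
    ‖FF b (w * t + r) ((a : ℝ) / q) θ‖ ≤ kap b ^ t * (b : ℝ) ^ (w * t + r) := by
  induction t generalizing θ with
  | zero =>
    rw [mul_zero, zero_add, pow_zero, one_mul]
    exact norm_FF_le _ _ _ _
  | succ t ih =>
    have e : w * (t + 1) + r = w + (w * t + r) := by ring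
    rw [e, FF_split, norm_mul]
    have hcop : IsCoprime (q : ℤ) ((b : ℕ) : ℤ) :=
      Nat.isCoprime_iff_coprime.2 (Nat.Coprime.coprime_mul_right_right hq)
    have h1 : ‖FF b w ((a : ℝ) / q * (b : ℝ) ^ (w * t + r)) θ‖ ≤ kap b * (b : ℝ) ^ w := by
      have e2 : (a : ℝ) / q * (b : ℝ) ^ (w * t + r) = ((a * (b : ℤ) ^ (w * t + r) : ℤ) : ℝ) / q := by
        push_cast; ring
      rw [e2]
      apply block hb hq0 hq _ hw hqw
      intro hdvd
      exact ha ((hcop.pow_right).dvd_of_dvd_mul_right hdvd)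
    have h2 := ih ((b : ℝ) ^ w * θ)
    calc _ ≤ (kap b * (b : ℝ) ^ w) * (kap b ^ t * (b : ℝ) ^ (w * t + r)) :=
          mul_le_mul h1 h2 (norm_nonneg _) (mul_nonneg (kap_nonneg hb) (by positivity))
      _ = _ := by rw [pow_succ (kap b) t, pow_add]; ring

end Pool.Agent.Q252.RP
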