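import Pool.Agent.Q252.RP3
import Pool.Agent.Helper112.PairSieve
import Pool.Agent.Helper923.PPS.BT

/-!
# Reversed primes: the Selberg weights
-/

set_option autoImplicit false

namespace Pool.Agent.Q252.RP

open Finset ArithmeticFunction BoundingSieve
open Pool.Agent.Helper112.E456.SieveAux (ww JJ JJ_pos ww_one ww_zero ww_bound mainSum_eq U SF U_lower)
open Pool.Agent.Helper923.PPS (apSieve PP PP_squarefree prime_dvd_PP dvd_PP_of_squarefree
  coprime_of_dvd_PP invAF invAF_apply)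

/-- the sieve by the primes up to `D` that do not divide `M` -/
noncomputable def sv (M D : ℕ) : BoundingSieve := apSieve 0 M 0 D

lemma sv_P (M D : ℕ) : (sv M D).prodPrimes = PP M D := rfl

lemma sv_nu (M D d : ℕ) : (sv M D).nu d = (d : ℝ)⁻¹ := rfl

/-- the weights -/
noncomputable def lam (M D d : ℕ) : ℝ := ww (sv M D) D d

lemma lam_one {M D : ℕ} (hD : 1 ≤ D) : lam M D 1 = 1 := ww_one D hD

lemma lam_zero {M D d : ℕ} (hd0 : 0 < d) (hd : D < d) : lam M D d = 0 := ww_zero D hd0 hd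

lemma lam_bound {M D d : ℕ} (hD : 1 ≤ D) (hd : d ∈ Nat.divisors (PP M D)) :
    |lam M D d| ≤ (d.divisors.card : ℝ) := by
  have h := ww_bound (s := sv M D) D hD hd
  refine h.trans ?_
  rw [selbergTerms_apply]
  have hd0 : 0 < d := Nat.pos_of_mem_divisors hd
  have hdR : (0 : ℝ) < d := by exact_mod_cast hd0
  have hsq : Squarefree d := (PP_squarefree M D).squarefree_of_dvd (Nat.dvd_of_mem_divisors hd)
  have h1 : (sv M D).nu d * ∏ p ∈ d.primeFactors, (1 - (sv M D).nu p)⁻¹ / (sv M D).nu d =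
      (sv M D).nu d * ∏ p ∈ d.primeFactors, (1 - (sv M D).nu p)⁻¹ / (sv M D).nu d := rfl
  have hnu : (sv M D).nu d ≠ 0 := by rw [sv_nu]; positivity
  rw [mul_div_assoc, mul_comm, div_mul_cancel₀ _ hnu]
  have h2 : ∏ p ∈ d.primeFactors, (1 - (sv M D).nu p)⁻¹ ≤ ∏ _p ∈ d.primeFactors, (2 : ℝ) := by
    apply Finset.prod_le_prod
    · intro p hp
      rw [sv_nu]
      have hp2 : (2 : ℝ) ≤ p := by exact_mod_cast (Nat.prime_of_mem_primeFactors hp).two_le
      have : (p : ℝ)⁻¹ ≤ 2⁻¹ := inv_anti₀ (by norm_num) hp2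
      rw [inv_nonneg]
      linarith
    · intro p hp
      rw [sv_nu]
      have hp2 : (2 : ℝ) ≤ p := by exact_mod_cast (Nat.prime_of_mem_primeFactors hp).two_le
      have h3 : (p : ℝ)⁻¹ ≤ 2⁻¹ := inv_anti₀ (by norm_num) hp2
      have h4 : (2 : ℝ) = (2⁻¹)⁻¹ := by norm_num
      rw [h4]
      exact inv_anti₀ (by norm_num) (by linarith)
  refine h2.trans ?_
  rw [Finset.prod_const, Nat.card_divisors hd0.ne']
  push_cast
  rw [← Finset.prod_const]
  apply Finset.prod_le_prod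
  · intro p _; norm_num
  · intro p hp
    have : 1 ≤ d.factorization p := (Nat.prime_of_mem_primeFactors hp).factorization_pos_of_dvd
      hd0.ne' (Nat.dvd_of_mem_primeFactors hp)
    have : (1 : ℝ) ≤ d.factorization p := by exact_mod_cast this
    linarith

/-- the main coefficient -/
noncomputable def VV (M D : ℕ) : ℝ := 1 / JJ (sv M D) D

lemma VV_eq {M D : ℕ} (hD : 1 ≤ D) :
    ∑ d1 ∈ Nat.divisors (PP M D), ∑ d2 ∈ Nat.divisors (PP M D),
      lam M D d1 * lam M D d2 * (1 / (Nat.lcm d1 d2 : ℝ)) = VV M D := by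
  have h := mainSum_eq (s := sv M D) D hD
  rw [mainSum_lambdaSquared_eq_sum_sum_mul] at h
  unfold VV
  rw [← h]
  refine Finset.sum_congr rfl fun d1 h1 => Finset.sum_congr rfl fun d2 h2 => ?_
  have hd1 : 0 < d1 := Nat.pos_of_mem_divisors h1
  have hd2 : 0 < d2 := Nat.pos_of_mem_divisors h2
  rw [sv_nu, sv_nu, sv_nu, inv_inv]
  have e : (Nat.gcd d1 d2 : ℝ) * (Nat.lcm d1 d2 : ℝ) = (d1 : ℝ) * d2 := by
    exact_mod_cast Nat.gcd_mul_lcm d1 d2
  have h3 : (0 : ℝ) < d1 := by exact_mod_cast hd1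
  have h4 : (0 : ℝ) < d2 := by exact_mod_cast hd2
  have h5 : (0 : ℝ) < (Nat.lcm d1 d2 : ℝ) := by exact_mod_cast Nat.lcm_pos hd1 hd2
  have h6 : (1 : ℝ) / (Nat.lcm d1 d2 : ℝ) = (Nat.gcd d1 d2 : ℝ) / ((d1 : ℝ) * d2) := by
    rw [← e]
    have h7 : (0 : ℝ) < (Nat.gcd d1 d2 : ℝ) := by exact_mod_cast Nat.gcd_pos_of_pos_left _ hd1
    field_simp
  rw [h6]
  unfold lam
  field_simp

lemma VV_pos {M D : ℕ} (hD : 1 ≤ D) : 0 < VV M D := by
  unfold VV
  exact one_div_pos.2 (JJ_pos D hD)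

/-- the upper bound for the main coefficient -/
lemma VV_le {M D : ℕ} (hM : M ≠ 0) (hD : 1 ≤ D) :
    VV M D ≤ 2 * ((M : ℝ) / (Nat.totient M : ℝ)) / Real.log (D + 1) := by
  have h1 : U D M ≤ JJ (sv M D) D := by
    unfold U JJ
    have h2 : ∀ l ∈ SF D M, (1 : ℝ) / l ≤ (sv M D).selbergTerms l := by
      intro l hl
      unfold SF at hl
      rw [Finset.mem_filter, Finset.mem_Icc] at hl
      rw [selbergTerms_apply, sv_nu, one_div]
      have hl0 : (0 : ℝ) < l := by exact_mod_cast hl.1.1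
      have h3 : (1 : ℝ) ≤ ∏ p ∈ l.primeFactors, (1 - (sv M D).nu p)⁻¹ := by
        have h0 : (∏ _p ∈ l.primeFactors, (1 : ℝ)) ≤ ∏ p ∈ l.primeFactors, (1 - (sv M D).nu p)⁻¹ := by
          apply Finset.prod_le_prod (fun _ _ => zero_le_one)
          intro p hp
          have hp1 : (1 : ℝ) < p := by exact_mod_cast (Nat.prime_of_mem_primeFactors hp).one_lt
          rw [sv_nu, one_le_inv₀]
          · have : 0 < (p : ℝ)⁻¹ := by positivity
            linarith
          · have : (p : ℝ)⁻¹ < 1 := inv_lt_one_of_one_lt₀ hp1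
            linarith
        rwa [Finset.prod_const_one] at h0
      exact le_mul_of_one_le_right (by positivity) h3
    refine (Finset.sum_le_sum h2).trans ?_
    apply Finset.sum_le_sum_of_subset_of_nonneg
    · intro l hl
      unfold SF at hl
      rw [Finset.mem_filter, Finset.mem_Icc] at hl
      rw [Finset.mem_filter, Nat.mem_divisors]
      exact ⟨⟨dvd_PP_of_squarefree hl.2.1 hl.1.2 hl.2.2, (PP_squarefree M D).ne_zero⟩, hl.1.2⟩
    · intro l hl _
      rw [Finset.mem_filter, Nat.mem_divisors] at hl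
      exact (selbergTerms_pos hl.1.1).le
  have h2 := U_lower D M hM
  have h3 := JJ_pos (s := sv M D) D hD
  have hlog : 0 < Real.log ((D : ℝ) + 1) := by
    apply Real.log_pos
    have : (1 : ℝ) ≤ D := by exact_mod_cast hD
    linarith
  have hM' : (0 : ℝ) ≤ (M : ℝ) / (Nat.totient M : ℝ) := by positivity
  unfold VV
  rw [div_le_div_iff₀ h3 hlog, one_mul]
  calc Real.log ((D : ℝ) + 1) ≤ 2 * ((M : ℝ) / (Nat.totient M : ℝ)) * U D M := h2
    _ ≤ _ := mul_le_mul_of_nonneg_left h1 (by positivity)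

/-- the majorant -/
noncomputable def maj (M D N : ℕ) : ℝ :=
  (∑ d ∈ Nat.divisors (PP M D), if d ∣ N then lam M D d else 0) ^ 2

lemma maj_nonneg (M D N : ℕ) : 0 ≤ maj M D N := sq_nonneg _

lemma maj_prime {M D N : ℕ} (hD : 1 ≤ D) (hN : N.Prime) (h : D < N) : maj M D N = 1 := by
  unfold maj
  have e : (∑ d ∈ Nat.divisors (PP M D), if d ∣ N then lam M D d else 0) = 1 := by
    rw [Finset.sum_eq_single 1]
    · rw [if_pos (one_dvd _), lam_one hD]
    · intro d hd hd1
      split_ifs with hdN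
      · rcases (Nat.dvd_prime hN).1 hdN with h1 | h1
        · exact absurd h1 hd1
        · exact lam_zero (Nat.pos_of_mem_divisors hd) (by omega)
      · rfl
    · intro h1
      exact absurd (Nat.one_mem_divisors.2 (PP_squarefree M D).ne_zero) h1
  rw [e, one_pow]

/-- expansion of the square -/
lemma maj_eq (M D N : ℕ) : maj M D N =
    ∑ d1 ∈ Nat.divisors (PP M D), ∑ d2 ∈ Nat.divisors (PP M D),
      lam M D d1 * lam M D d2 * (if Nat.lcm d1 d2 ∣ N then 1 else 0) := by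
  unfold maj
  rw [sq, Finset.sum_mul_sum]
  refine Finset.sum_congr rfl fun d1 _ => Finset.sum_congr rfl fun d2 _ => ?_
  by_cases h1 : d1 ∣ N
  · by_cases h2 : d2 ∣ N
    · rw [if_pos h1, if_pos h2, if_pos (Nat.lcm_dvd h1 h2), mul_one]
    · rw [if_pos h1, if_neg h2, if_neg (fun h => h2 ((Nat.dvd_lcm_right _ _).trans h)), mul_zero,
        mul_zero]
  · rw [if_neg h1, if_neg (fun h => h1 ((Nat.dvd_lcm_left _ _).trans h)), zero_mul, mul_zero]

end Pool.Agent.Q252.RP
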