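import Pool.Agent.Q252.RP4
import Pool.Agent.TH935.LP.L1

/-!
# Reversed primes: the Fourier transform of the majorant
-/

set_option autoImplicit false

namespace Pool.Agent.Q252.RP

open Finset
open Pool.Agent.Helper112 (ee ls_ee_zero ls_ee_add ls_ee_int ls_ee_nat ls_norm_ee ls_ee_nat_mul
  ls_ee_eq_one)
open Pool.Agent.Helper923.PPS (PP PP_squarefree coprime_of_dvd_PP)

/-- detecting divisibility -/
lemma detect {q : ℕ} (hq : 0 < q) (N : ℤ) :
    (if (q : ℤ) ∣ N then (1 : ℂ) else 0) = (1 / (q : ℂ)) * ∑ a ∈ range q, ee ((a : ℝ) * N / q) := by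
  have hq' : (q : ℝ) ≠ 0 := by exact_mod_cast hq.ne'
  have hqC : (q : ℂ) ≠ 0 := by exact_mod_cast hq.ne'
  set z : ℂ := ee ((N : ℝ) / q) with hz
  have e1 : ∀ a ∈ range q, ee ((a : ℝ) * N / q) = z ^ a := by
    intro a _
    rw [hz, ← ls_ee_nat_mul, mul_div_assoc]
  rw [Finset.sum_congr rfl e1]
  split_ifs with h
  · obtain ⟨k, hk⟩ := h
    have : z = 1 := by
      rw [hz, hk]
      have : (((q : ℤ) * k : ℤ) : ℝ) / q = ((k : ℤ) : ℝ) := by
        push_cast
        field_simp
      rw [this, ls_ee_int]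
    rw [this]
    simp [hqC]
  · have hz1 : z ≠ 1 := by
      intro h1
      obtain ⟨k, hk⟩ := ls_ee_eq_one h1
      apply h
      refine ⟨k, ?_⟩
      rw [div_eq_iff hq'] at hk
      have : (N : ℝ) = ((q * k : ℤ) : ℝ) := by rw [hk]; push_cast; ring
      exact_mod_cast this
    have hzq : z ^ q = 1 := by
      rw [hz, ← ls_ee_nat_mul]
      have : (q : ℝ) * ((N : ℝ) / q) = N := by field_simp
      rw [this, ls_ee_int]
    rw [geom_sum_eq hz1, hzq, sub_self, zero_div, mul_zero]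

/-- the sum over all nonzero fractions with denominator `q` -/
noncomputable def as (b n : ℕ) (θ : ℝ) (q : ℕ) : ℝ :=
  ∑ a ∈ (range q).filter (fun a => a ≠ 0), ‖FF b n ((a : ℝ) / q) θ‖

/-- the number of the sieve -/
def NN (b n m : ℕ) : ℕ := 1 + b * rv b n m

lemma div_sum {b : ℕ} (hb : 0 < b) (n : ℕ) (θ : ℝ) {q : ℕ} (hq : 0 < q) :
    ‖∑ m ∈ range (b ^ n), ((if q ∣ NN b n m then (1 : ℂ) else 0) - 1 / (q : ℂ)) * ee (θ * m)‖ ≤
      (1 / (q : ℝ)) * as b n θ q := by
  have hqC : (q : ℂ) ≠ 0 := by exact_mod_cast hq.ne'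
  have hqR : (0 : ℝ) < q := by exact_mod_cast hq
  have e1 : ∀ m ∈ range (b ^ n),
      ((if q ∣ NN b n m then (1 : ℂ) else 0) - 1 / (q : ℂ)) * ee (θ * m) =
      ∑ a ∈ (range q).filter (fun a => a ≠ 0), (1 / (q : ℂ)) *
        (ee ((a : ℝ) / q) * ee ((a : ℝ) / q * (b * (rv b n m : ℝ)) + θ * m)) := by
    intro m _
    have h1 := detect hq (NN b n m : ℤ)
    have h2 : ((q : ℤ) ∣ (NN b n m : ℤ)) ↔ q ∣ NN b n m := Int.natCast_dvd_natCast
    simp only [h2] at h1
    rw [h1]
    have h3 : range q = insert 0 ((range q).filter (fun a => a ≠ 0)) := by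
      ext x
      simp only [mem_insert, mem_filter, mem_range]
      constructor
      · intro h; by_cases hx : x = 0
        · exact Or.inl hx
        · exact Or.inr ⟨h, hx⟩
      · rintro (h | h)
        · rw [h]; exact hq
        · exact h.1
    conv_lhs => rw [h3]
    rw [Finset.sum_insert (by simp)]
    have h4 : ee (((0 : ℕ) : ℝ) * ((NN b n m : ℤ) : ℝ) / q) = 1 := by
      simp [ls_ee_zero]
    rw [h4, mul_add, mul_one, add_sub_cancel_left, mul_assoc, Finset.sum_mul, Finset.mul_sum]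
    refine Finset.sum_congr rfl fun a _ => ?_
    congr 1
    rw [← ls_ee_add, ← ls_ee_add]
    congr 1
    unfold NN
    push_cast
    ring
  rw [Finset.sum_congr rfl e1, Finset.sum_comm]
  refine (norm_sum_le _ _).trans ?_
  unfold as
  rw [Finset.mul_sum]
  refine Finset.sum_le_sum fun a _ => ?_
  rw [← Finset.mul_sum, ← Finset.mul_sum, sum_rv hb, norm_mul, norm_mul, ls_norm_ee, one_mul]
  apply le_of_eq
  congr 1
  simp

/-- grouping the fractions by their reduced denominator -/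
lemma group {q : ℕ} (hq : 0 < q) (f : ℝ → ℝ) :
    ∑ a ∈ range q, f ((a : ℝ) / q) =
      ∑ r ∈ q.divisors, ∑ a ∈ (range r).filter (fun a => a.Coprime r), f ((a : ℝ) / r) := by
  rw [Finset.sum_sigma']
  refine Finset.sum_bij' (fun a _ => (⟨q / Nat.gcd a q, a / Nat.gcd a q⟩ : (_ : ℕ) × ℕ))
    (fun x _ => x.2 * (q / x.1)) ?_ ?_ ?_ ?_ ?_
  · intro a ha
    rw [mem_range] at ha
    have hg : 0 < Nat.gcd a q := Nat.gcd_pos_of_pos_right _ hq
    simp only [mem_sigma, Nat.mem_divisors, mem_filter, mem_range]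
    refine ⟨⟨Nat.div_dvd_of_dvd (Nat.gcd_dvd_right _ _), hq.ne'⟩, ?_, ?_⟩
    · exact Nat.div_lt_div_of_lt_of_dvd (Nat.gcd_dvd_right _ _) ha
    · exact Nat.coprime_div_gcd_div_gcd hg
  · rintro ⟨r, a⟩ hx
    simp only [mem_sigma, Nat.mem_divisors, mem_filter, mem_range] at hx
    obtain ⟨⟨h1, -⟩, h2, -⟩ := hx
    simp only [mem_range]
    have h3 : 0 < q / r := Nat.div_pos (Nat.le_of_dvd hq h1) (Nat.pos_of_dvd_of_pos h1 hq)
    calc a * (q / r) < r * (q / r) := Nat.mul_lt_mul_of_pos_right h2 h3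
      _ = q := Nat.mul_div_cancel' h1
  · intro a ha
    have hg : 0 < Nat.gcd a q := Nat.gcd_pos_of_pos_right _ hq
    simp only
    rw [Nat.div_div_self (Nat.gcd_dvd_right _ _) hq.ne']
    exact Nat.div_mul_cancel (Nat.gcd_dvd_left _ _)
  · rintro ⟨r, a⟩ hx
    simp only [mem_sigma, Nat.mem_divisors, mem_filter, mem_range] at hx
    obtain ⟨⟨h1, -⟩, h2, h3⟩ := hx
    have hr : 0 < r := Nat.pos_of_dvd_of_pos h1 hq
    have h4 : 0 < q / r := Nat.div_pos (Nat.le_of_dvd hq h1) hr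
    have h5 : Nat.gcd (a * (q / r)) q = q / r := by
      have : q = r * (q / r) := (Nat.mul_div_cancel' h1).symm
      conv_lhs => rw [this]
      rw [Nat.mul_div_cancel_left _ hr, Nat.gcd_mul_right, h3, one_mul]
    simp only [h5]
    have e1 : q / (q / r) = r := Nat.div_div_self h1 hq.ne'
    have e2 : a * (q / r) / (q / r) = a := Nat.mul_div_cancel _ h4
    rw [e1, e2]
  · intro a ha
    have hg : 0 < Nat.gcd a q := Nat.gcd_pos_of_pos_right _ hq
    simp only
    congr 1
    have e1 : (a : ℝ) = ((a / Nat.gcd a q : ℕ) : ℝ) * (Nat.gcd a q : ℝ) := by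
      exact_mod_cast (Nat.div_mul_cancel (Nat.gcd_dvd_left a q)).symm
    have e2 : (q : ℝ) = ((q / Nat.gcd a q : ℕ) : ℝ) * (Nat.gcd a q : ℝ) := by
      exact_mod_cast (Nat.div_mul_cancel (Nat.gcd_dvd_right a q)).symm
    have hg' : (Nat.gcd a q : ℝ) ≠ 0 := by exact_mod_cast hg.ne'
    conv_lhs => rw [e1, e2]
    exact mul_div_mul_right _ _ hg'

lemma as_eq (b n : ℕ) (θ : ℝ) {q : ℕ} (hq : 0 < q) :
    as b n θ q = ∑ r ∈ q.divisors.filter (fun r => r ≠ 1), hs b n θ r := by
  have h := group hq (fun x => ‖FF b n x θ‖)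
  have h1 : ∑ a ∈ range q, ‖FF b n ((a : ℝ) / q) θ‖ = ‖FF b n 0 θ‖ + as b n θ q := by
    have h3 : range q = insert 0 ((range q).filter (fun a => a ≠ 0)) := by
      ext x
      simp only [mem_insert, mem_filter, mem_range]
      constructor
      · intro h; by_cases hx : x = 0
        · exact Or.inl hx
        · exact Or.inr ⟨h, hx⟩
      · rintro (h | h)
        · rw [h]; exact hq
        · exact h.1
    conv_lhs => rw [h3]
    rw [Finset.sum_insert (by simp)]
    simp only [Nat.cast_zero, zero_div]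
    rfl
  have h2 : ∑ r ∈ q.divisors, hs b n θ r = ‖FF b n 0 θ‖ +
      ∑ r ∈ q.divisors.filter (fun r => r ≠ 1), hs b n θ r := by
    have h3 : q.divisors = insert 1 (q.divisors.filter (fun r => r ≠ 1)) := by
      ext x
      simp only [mem_insert, mem_filter, Nat.mem_divisors]
      constructor
      · intro h; by_cases hx : x = 1
        · exact Or.inl hx
        · exact Or.inr ⟨h, hx⟩
      · rintro (h | h)
        · rw [h]; exact ⟨one_dvd _, hq.ne'⟩
        · exact h.1
    conv_lhs => rw [h3]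
    rw [Finset.sum_insert (by simp)]
    congr 1
    unfold hs
    have : (range 1).filter (fun a => a.Coprime 1) = {0} := by decide
    rw [this, Finset.sum_singleton]
    simp
  have h4 : ∑ r ∈ q.divisors, hs b n θ r = ∑ a ∈ range q, ‖FF b n ((a : ℝ) / q) θ‖ := h.symm
  rw [h1, h2] at h4
  linarith

end Pool.Agent.Q252.RP
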