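import Pool.Agent.Q252.RP5

/-!
# Reversed primes: the error in the Fourier transform of the majorant
-/

set_option autoImplicit false

namespace Pool.Agent.Q252.RP

open Finset
open Pool.Agent.Helper112 (ee ls_norm_ee)
open Pool.Agent.Helper923.PPS (PP PP_squarefree coprime_of_dvd_PP)
open Pool.Agent.TH935.DSB (dir tau_mul)
open Pool.Agent.TH935.LD (tau_pow_div)

/-- the sum of the errors -/
noncomputable def ES (b n : ℕ) (θ : ℝ) (M R : ℕ) : ℝ :=
  ∑ r ∈ (Icc 1 R).filter (fun r => r.Coprime M ∧ r ≠ 1),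
    hs b n θ r * ((r.divisors.card : ℝ) ^ 4 / r)

lemma ES_nonneg (b n : ℕ) (θ : ℝ) (M R : ℕ) : 0 ≤ ES b n θ M R :=
  Finset.sum_nonneg fun _ _ => mul_nonneg (hs_nonneg _ _ _ _) (by positivity)

lemma alg {q r s H x y : ℝ} (h : q = r * s) (hr : 0 < r) (hs : 0 < s) :
    (x * y) ^ 4 / q * H = H * (x ^ 4 / r) * (y ^ 4 / s) := by
  rw [h]
  field_simp

set_option maxHeartbeats 1000000 in
lemma err_bound {b : ℕ} (hb : 0 < b) (n M D : ℕ) (hD : 1 ≤ D) (θ : ℝ) :
    ‖∑ m ∈ range (b ^ n), (((maj M D (NN b n m) : ℝ) : ℂ) - (VV M D : ℝ)) * ee (θ * m)‖ ≤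
      (1 + Real.log ((D ^ 2 : ℕ) : ℝ)) ^ 16 * ES b n θ M (D ^ 2) := by
  set P := PP M D with hP
  have hP0 : P ≠ 0 := (PP_squarefree M D).ne_zero
  -- step 1: expand
  have e1 : ∑ m ∈ range (b ^ n), (((maj M D (NN b n m) : ℝ) : ℂ) - (VV M D : ℝ)) * ee (θ * m) =
      ∑ d1 ∈ P.divisors, ∑ d2 ∈ P.divisors, ((lam M D d1 * lam M D d2 : ℝ) : ℂ) *
        ∑ m ∈ range (b ^ n), ((if Nat.lcm d1 d2 ∣ NN b n m then (1 : ℂ) else 0) -
          1 / (Nat.lcm d1 d2 : ℂ)) * ee (θ * m) := by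
    have e2 : ∀ m ∈ range (b ^ n), (((maj M D (NN b n m) : ℝ) : ℂ) - (VV M D : ℝ)) * ee (θ * m) =
        ∑ d1 ∈ P.divisors, ∑ d2 ∈ P.divisors, ((lam M D d1 * lam M D d2 : ℝ) : ℂ) *
        (((if Nat.lcm d1 d2 ∣ NN b n m then (1 : ℂ) else 0) - 1 / (Nat.lcm d1 d2 : ℂ)) *
          ee (θ * m)) := by
      intro m _
      rw [maj_eq, ← VV_eq hD]
      push_cast
      rw [← Finset.sum_sub_distrib, Finset.sum_mul]
      refine Finset.sum_congr rfl fun d1 _ => ?_
      rw [← Finset.sum_sub_distrib, Finset.sum_mul]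
      refine Finset.sum_congr rfl fun d2 _ => ?_
      have : (((if Nat.lcm d1 d2 ∣ NN b n m then (1 : ℝ) else 0) : ℝ) : ℂ) =
          if Nat.lcm d1 d2 ∣ NN b n m then (1 : ℂ) else 0 := by
        split_ifs <;> simp
      rw [this]
      ring
    rw [Finset.sum_congr rfl e2, Finset.sum_comm]
    refine Finset.sum_congr rfl fun d1 _ => ?_
    rw [Finset.sum_comm]
    refine Finset.sum_congr rfl fun d2 _ => ?_
    rw [Finset.mul_sum]
  rw [e1]
  -- step 2: the norm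
  set g : ℕ → ℝ := fun q => (1 / (q : ℝ)) * ∑ r ∈ q.divisors.filter (fun r => r ≠ 1), hs b n θ r with hg
  have hg0 : ∀ q, 0 ≤ g q := fun q => mul_nonneg (by positivity)
    (Finset.sum_nonneg fun _ _ => hs_nonneg _ _ _ _)
  set DD := P.divisors.filter (fun d => d ≤ D) with hDD
  have h2 : ‖∑ d1 ∈ P.divisors, ∑ d2 ∈ P.divisors, ((lam M D d1 * lam M D d2 : ℝ) : ℂ) *
        ∑ m ∈ range (b ^ n), ((if Nat.lcm d1 d2 ∣ NN b n m then (1 : ℂ) else 0) -
          1 / (Nat.lcm d1 d2 : ℂ)) * ee (θ * m)‖ ≤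
      ∑ d1 ∈ DD, ∑ d2 ∈ DD, ((d1.divisors.card : ℝ) * (d2.divisors.card : ℝ)) * g (Nat.lcm d1 d2) := by
    have h3 : ∀ d1 ∈ P.divisors, ∀ d2 ∈ P.divisors, ‖((lam M D d1 * lam M D d2 : ℝ) : ℂ) *
        ∑ m ∈ range (b ^ n), ((if Nat.lcm d1 d2 ∣ NN b n m then (1 : ℂ) else 0) -
          1 / (Nat.lcm d1 d2 : ℂ)) * ee (θ * m)‖ ≤
        if d1 ≤ D then (if d2 ≤ D then
          ((d1.divisors.card : ℝ) * (d2.divisors.card : ℝ)) * g (Nat.lcm d1 d2) else 0) else 0 := by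
      intro d1 h1 d2 h2
      have hd1 : 0 < d1 := Nat.pos_of_mem_divisors h1
      have hd2 : 0 < d2 := Nat.pos_of_mem_divisors h2
      by_cases c1 : d1 ≤ D
      · by_cases c2 : d2 ≤ D
        · rw [if_pos c1, if_pos c2, norm_mul]
          have hq : 0 < Nat.lcm d1 d2 := Nat.lcm_pos hd1 hd2
          have h4 := div_sum hb n θ hq
          rw [as_eq b n θ hq] at h4
          have h5 : ‖((lam M D d1 * lam M D d2 : ℝ) : ℂ)‖ ≤
              (d1.divisors.card : ℝ) * (d2.divisors.card : ℝ) := by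
            rw [Complex.norm_real, Real.norm_eq_abs, abs_mul]
            exact mul_le_mul (lam_bound hD h1) (lam_bound hD h2) (abs_nonneg _) (Nat.cast_nonneg _)
          exact mul_le_mul h5 h4 (norm_nonneg _) (by positivity)
        · rw [if_pos c1, if_neg c2, lam_zero hd2 (by omega)]
          simp
      · rw [if_neg c1, lam_zero hd1 (by omega)]
        simp
    refine (norm_sum_le _ _).trans ?_
    have h6 : ∀ d1 ∈ P.divisors, ‖∑ d2 ∈ P.divisors, ((lam M D d1 * lam M D d2 : ℝ) : ℂ) *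
        ∑ m ∈ range (b ^ n), ((if Nat.lcm d1 d2 ∣ NN b n m then (1 : ℂ) else 0) -
          1 / (Nat.lcm d1 d2 : ℂ)) * ee (θ * m)‖ ≤
        if d1 ≤ D then (∑ d2 ∈ DD,
          ((d1.divisors.card : ℝ) * (d2.divisors.card : ℝ)) * g (Nat.lcm d1 d2)) else 0 := by
      intro d1 h1
      refine (norm_sum_le _ _).trans ((Finset.sum_le_sum (h3 d1 h1)).trans (le_of_eq ?_))
      split_ifs
      · rw [hDD, Finset.sum_filter]
      · simp
    refine (Finset.sum_le_sum h6).trans (le_of_eq ?_)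
    rw [hDD, Finset.sum_filter]
  refine h2.trans ?_
  -- step 3: group by the least common multiple
  set Q := (Icc 1 (D ^ 2)).filter (fun q => q.Coprime M) with hQ
  have hmaps : ∀ x ∈ DD ×ˢ DD, Nat.lcm x.1 x.2 ∈ Q := by
    rintro ⟨d1, d2⟩ hx
    rw [mem_product, hDD, mem_filter, mem_filter] at hx
    simp only at hx
    obtain ⟨⟨h1, h1'⟩, h2, h2'⟩ := hx
    have hd1 : 0 < d1 := Nat.pos_of_mem_divisors h1
    have hd2 : 0 < d2 := Nat.pos_of_mem_divisors h2
    rw [hQ, mem_filter, mem_Icc]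
    refine ⟨⟨Nat.lcm_pos hd1 hd2, ?_⟩, ?_⟩
    · calc Nat.lcm d1 d2 ≤ d1 * d2 := Nat.le_of_dvd (Nat.mul_pos hd1 hd2) (Nat.lcm_dvd_mul _ _)
        _ ≤ D * D := Nat.mul_le_mul h1' h2'
        _ = D ^ 2 := by ring
    · exact coprime_of_dvd_PP (Nat.lcm_dvd (Nat.dvd_of_mem_divisors h1) (Nat.dvd_of_mem_divisors h2))
  have h3 : ∑ d1 ∈ DD, ∑ d2 ∈ DD, ((d1.divisors.card : ℝ) * (d2.divisors.card : ℝ)) *
      g (Nat.lcm d1 d2) ≤ ∑ q ∈ Q, (q.divisors.card : ℝ) ^ 4 * g q := by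
    rw [← Finset.sum_product', ← Finset.sum_fiberwise_of_maps_to hmaps]
    refine Finset.sum_le_sum fun q hq => ?_
    rw [hQ, mem_filter, mem_Icc] at hq
    have hq0 : 0 < q := hq.1.1
    have hterm : ∀ x ∈ (DD ×ˢ DD).filter (fun x => Nat.lcm x.1 x.2 = q),
        ((x.1.divisors.card : ℝ) * (x.2.divisors.card : ℝ)) * g (Nat.lcm x.1 x.2) ≤
        (q.divisors.card : ℝ) ^ 2 * g q := by
      rintro ⟨d1, d2⟩ hx
      rw [mem_filter] at hx
      simp only at hx ⊢
      rw [hx.2]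
      have h1 : d1 ∣ q := hx.2 ▸ Nat.dvd_lcm_left _ _
      have h2 : d2 ∣ q := hx.2 ▸ Nat.dvd_lcm_right _ _
      have h1' : (d1.divisors.card : ℝ) ≤ q.divisors.card := by
        exact_mod_cast Finset.card_le_card (Nat.divisors_subset_of_dvd hq0.ne' h1)
      have h2' : (d2.divisors.card : ℝ) ≤ q.divisors.card := by
        exact_mod_cast Finset.card_le_card (Nat.divisors_subset_of_dvd hq0.ne' h2)
      apply mul_le_mul_of_nonneg_right _ (hg0 q)
      rw [sq]
      exact mul_le_mul h1' h2' (Nat.cast_nonneg _) (Nat.cast_nonneg _)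
    refine (Finset.sum_le_sum hterm).trans ?_
    rw [Finset.sum_const, nsmul_eq_mul]
    have hcard : (((DD ×ˢ DD).filter (fun x => Nat.lcm x.1 x.2 = q)).card : ℝ) ≤
        (q.divisors.card : ℝ) ^ 2 := by
      have hsub : (DD ×ˢ DD).filter (fun x => Nat.lcm x.1 x.2 = q) ⊆ q.divisors ×ˢ q.divisors := by
        rintro ⟨d1, d2⟩ hx
        rw [mem_filter] at hx
        simp only at hx
        rw [mem_product, Nat.mem_divisors, Nat.mem_divisors]
        exact ⟨⟨hx.2 ▸ Nat.dvd_lcm_left _ _, hq0.ne'⟩, ⟨hx.2 ▸ Nat.dvd_lcm_right _ _, hq0.ne'⟩⟩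
      have := Finset.card_le_card hsub
      rw [Finset.card_product, ← sq] at this
      exact_mod_cast this
    calc _ ≤ (q.divisors.card : ℝ) ^ 2 * ((q.divisors.card : ℝ) ^ 2 * g q) :=
          mul_le_mul_of_nonneg_right hcard (mul_nonneg (by positivity) (hg0 q))
      _ = _ := by ring
  refine h3.trans ?_
  -- step 4: exchange
  set F : ℕ → ℕ → ℝ := fun r s => (if r.Coprime M ∧ r ≠ 1 then hs b n θ r * ((r.divisors.card : ℝ) ^ 4 / r)
    else 0) * ((s.divisors.card : ℝ) ^ 4 / s) with hF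
  have hF0 : ∀ r s, 0 ≤ F r s := by
    intro r s
    simp only [hF]
    apply mul_nonneg _ (by positivity)
    split_ifs
    · exact mul_nonneg (hs_nonneg _ _ _ _) (by positivity)
    · exact le_rfl
  have h4 : ∑ q ∈ Q, (q.divisors.card : ℝ) ^ 4 * g q ≤
      ∑ q ∈ Icc 1 (D ^ 2), ∑ r ∈ q.divisors, F r (q / r) := by
    have h5 : ∀ q ∈ Q, (q.divisors.card : ℝ) ^ 4 * g q ≤ ∑ r ∈ q.divisors, F r (q / r) := by
      intro q hq
      rw [hQ, mem_filter, mem_Icc] at hq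
      have hq0 : 0 < q := hq.1.1
      have hqR : (0 : ℝ) < q := by exact_mod_cast hq0
      simp only [hg]
      rw [← mul_assoc, mul_one_div, Finset.mul_sum, Finset.sum_filter]
      refine Finset.sum_le_sum fun r hr => ?_
      have hrq := Nat.dvd_of_mem_divisors hr
      have hr0 : 0 < r := Nat.pos_of_mem_divisors hr
      simp only [hF]
      by_cases h1 : r ≠ 1
      · rw [if_pos h1, if_pos ⟨Nat.Coprime.coprime_dvd_left hrq hq.2, h1⟩]
        have h6 : (q.divisors.card : ℝ) ≤ (r.divisors.card : ℝ) * ((q / r).divisors.card : ℝ) := by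
          have := tau_mul r (q / r)
          rw [Nat.mul_div_cancel' hrq] at this
          exact_mod_cast this
        have h7 : (q.divisors.card : ℝ) ^ 4 ≤
            ((r.divisors.card : ℝ) * ((q / r).divisors.card : ℝ)) ^ 4 :=
          pow_le_pow_left₀ (Nat.cast_nonneg _) h6 4
        have h8 : (q : ℝ) = (r : ℝ) * ((q / r : ℕ) : ℝ) := by
          exact_mod_cast (Nat.mul_div_cancel' hrq).symm
        have hr0' : (0 : ℝ) < r := by exact_mod_cast hr0
        have hs0 : (0 : ℝ) < ((q / r : ℕ) : ℝ) := by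
          exact_mod_cast Nat.div_pos (Nat.le_of_dvd hq0 hrq) hr0
        rw [← alg h8 hr0' hs0]
        exact mul_le_mul_of_nonneg_right (div_le_div_of_nonneg_right h7 hqR.le) (hs_nonneg _ _ _ _)
      · rw [if_neg h1]
        exact mul_nonneg (by split_ifs <;> [exact mul_nonneg (hs_nonneg _ _ _ _) (by positivity); exact le_rfl])
          (by positivity)
    refine (Finset.sum_le_sum h5).trans ?_
    apply Finset.sum_le_sum_of_subset_of_nonneg (Finset.filter_subset _ _)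
    intro q _ _
    exact Finset.sum_nonneg fun r _ => hF0 r _
  refine h4.trans ?_
  rw [dir]
  have h5 : ∀ r ∈ Icc 1 (D ^ 2), ∑ s ∈ Icc 1 (D ^ 2 / r), F r s ≤
      (if r.Coprime M ∧ r ≠ 1 then hs b n θ r * ((r.divisors.card : ℝ) ^ 4 / r) else 0) *
        (1 + Real.log ((D ^ 2 : ℕ) : ℝ)) ^ 16 := by
    intro r _
    simp only [hF]
    rw [← Finset.mul_sum]
    have h6 : ∑ s ∈ Icc 1 (D ^ 2 / r), (s.divisors.card : ℝ) ^ 4 / (s : ℝ) ≤
        (1 + Real.log ((D ^ 2 : ℕ) : ℝ)) ^ 16 := by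
      have h7 := tau_pow_div 4 (D ^ 2)
      have e16 : (2 : ℕ) ^ 4 = 16 := by norm_num
      rw [e16] at h7
      refine le_trans ?_ h7
      apply Finset.sum_le_sum_of_subset_of_nonneg (Icc_subset_Icc_right (Nat.div_le_self _ _))
      intro s _ _
      positivity
    apply mul_le_mul_of_nonneg_left h6
    split_ifs
    · exact mul_nonneg (hs_nonneg _ _ _ _) (by positivity)
    · exact le_rfl
  refine (Finset.sum_le_sum h5).trans (le_of_eq ?_)
  rw [← Finset.sum_mul, mul_comm]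
  congr 1
  rw [ES, Finset.sum_filter]

end Pool.Agent.Q252.RP
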