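import Pool.Agent.Q252.RP6
import Pool.Agent.H353R2.Z2

/-!
# Reversed primes: the error is small
-/

set_option autoImplicit false

namespace Pool.Agent.Q252.RP

open Finset
open Pool.Agent.Helper112 (ee ls_norm_ee)

lemma tau4 : ∃ C : ℝ, 1 ≤ C ∧ ∀ r : ℕ, 0 < r → (r.divisors.card : ℝ) ^ 4 / r ≤ C * (r : ℝ) ^ (-(1 / 2) : ℝ) := by
  obtain ⟨C, hC, h⟩ := H353.divisor_bound_real (1 / 8) (by norm_num)
  refine ⟨C ^ 4 + 1, by have : 0 ≤ C ^ 4 := by positivity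
                        linarith, fun r hr => ?_⟩
  have hr' : (0 : ℝ) < r := by exact_mod_cast hr
  have h1 := h r hr.ne'
  have h2 : (r.divisors.card : ℝ) ^ 4 ≤ (C * (r : ℝ) ^ (1 / 8 : ℝ)) ^ 4 :=
    pow_le_pow_left₀ (Nat.cast_nonneg _) h1 4
  have h3 : (C * (r : ℝ) ^ (1 / 8 : ℝ)) ^ 4 = C ^ 4 * (r : ℝ) ^ (1 / 2 : ℝ) := by
    rw [mul_pow, ← Real.rpow_natCast ((r : ℝ) ^ (1 / 8 : ℝ)) 4, ← Real.rpow_mul hr'.le]
    norm_num
  rw [div_le_iff₀ hr']
  have h4 : (C ^ 4 + 1) * (r : ℝ) ^ (-(1 / 2) : ℝ) * r = (C ^ 4 + 1) * (r : ℝ) ^ (1 / 2 : ℝ) := by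
    rw [mul_assoc, ← Real.rpow_add_one hr'.ne']
    norm_num
  rw [h4]
  rw [h3] at h2
  have h5 : 0 < (r : ℝ) ^ (1 / 2 : ℝ) := Real.rpow_pos_of_pos hr' _
  nlinarith

/-- the sum of the errors, in terms of a parameter `v` -/
lemma ES_bound : ∃ C : ℝ, 1 ≤ C ∧ ∀ b : ℕ, 2 ≤ b → ∀ n v : ℕ, 2 ≤ v → v ^ 4 ≤ n → ∀ θ : ℝ,
    ES b n θ (b * (b ^ 2 - 1)) ((b ^ (n / 8)) ^ 2) ≤
      C * (b : ℝ) ^ n * (((b : ℝ) ^ v) ^ 2 * kap b ^ (v ^ 2) + 12 * b * (3 / 4 : ℝ) ^ v) := by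
  obtain ⟨C, hC, htau⟩ := tau4
  refine ⟨C, hC, fun b hb n v hv hn θ => ?_⟩
  have hb' : (2 : ℝ) ≤ b := by exact_mod_cast hb
  have hb0 : (0 : ℝ) < b := by linarith
  set M := b * (b ^ 2 - 1) with hM
  set R := (b ^ (n / 8)) ^ 2 with hR
  set Y := b ^ v with hY
  have hκ0 := kap_nonneg hb
  have hκ1 := kap_lt_one hb
  have hnn : (0 : ℝ) ≤ C * (b : ℝ) ^ n := by positivity
  -- small denominators
  have hsmall : ∀ r ∈ (Icc 1 R).filter (fun r => (r.Coprime M ∧ r ≠ 1) ∧ r ≤ Y),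
      hs b n θ r * ((r.divisors.card : ℝ) ^ 4 / r) ≤
        C * ((Y : ℝ) * (kap b ^ (v ^ 2) * (b : ℝ) ^ n)) := by
    intro r hr
    rw [mem_filter, mem_Icc] at hr
    obtain ⟨⟨hr1, -⟩, ⟨hrM, hr2⟩, hrY⟩ := hr
    have h1 : (r.divisors.card : ℝ) ^ 4 / r ≤ C := by
      refine (htau r hr1).trans ?_
      have hr1' : (1 : ℝ) ≤ r := by exact_mod_cast hr1
      have : (r : ℝ) ^ (-(1 / 2) : ℝ) ≤ 1 := Real.rpow_le_one_of_one_le_of_nonpos hr1' (by norm_num)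
      nlinarith
    have h2 : hs b n θ r ≤ (Y : ℝ) * (kap b ^ (v ^ 2) * (b : ℝ) ^ n) := by
      unfold hs
      have h3 : ∀ a ∈ (range r).filter (fun a => a.Coprime r), ‖FF b n ((a : ℝ) / r) θ‖ ≤
          kap b ^ (v ^ 2) * (b : ℝ) ^ n := by
        intro a ha
        rw [mem_filter, mem_range] at ha
        have hnd : ¬ ((r : ℕ) : ℤ) ∣ ((a : ℕ) : ℤ) := by
          rw [Int.natCast_dvd_natCast]
          intro hd
          have h5 : r ∣ Nat.gcd a r := Nat.dvd_gcd hd dvd_rfl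
          rw [ha.2] at h5
          exact hr2 (Nat.dvd_one.1 h5)
        have h4 := Linf hb (by omega : 0 < r) hrM hnd (w := v + 1) (by omega)
          (by simpa using hrY) (n / (v + 1)) (n % (v + 1)) θ
        rw [Nat.div_add_mod] at h4
        have h5 : v ^ 2 ≤ n / (v + 1) := by
          rw [Nat.le_div_iff_mul_le (by omega)]
          refine le_trans ?_ hn
          have h6 : v + 1 ≤ v ^ 2 := by nlinarith
          calc v ^ 2 * (v + 1) ≤ v ^ 2 * v ^ 2 := Nat.mul_le_mul_left _ h6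
            _ = v ^ 4 := by ring
        have h6 : kap b ^ (n / (v + 1)) ≤ kap b ^ (v ^ 2) := pow_le_pow_of_le_one hκ0 hκ1.le h5
        have h7 : ((a : ℤ) : ℝ) = (a : ℝ) := Int.cast_natCast a
        rw [h7] at h4
        exact h4.trans (mul_le_mul_of_nonneg_right h6 (by positivity))
      refine (Finset.sum_le_sum h3).trans ?_
      rw [Finset.sum_const, nsmul_eq_mul]
      apply mul_le_mul_of_nonneg_right _ (by positivity)
      have h8 : ((range r).filter (fun a => a.Coprime r)).card ≤ Y :=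
        (Finset.card_filter_le _ _).trans (by rw [card_range]; exact hrY)
      exact_mod_cast h8
    calc hs b n θ r * ((r.divisors.card : ℝ) ^ 4 / r) ≤
          ((Y : ℝ) * (kap b ^ (v ^ 2) * (b : ℝ) ^ n)) * C :=
          mul_le_mul h2 h1 (by positivity) (by positivity)
      _ = _ := by ring
  -- large denominators
  have hlarge : ∀ r ∈ (Icc 1 R).filter (fun r => (r.Coprime M ∧ r ≠ 1) ∧ ¬ r ≤ Y),
      hs b n θ r * ((r.divisors.card : ℝ) ^ 4 / r) ≤ C * (3 / 4 : ℝ) ^ v * hs b n θ r := by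
    intro r hr
    rw [mem_filter, mem_Icc] at hr
    obtain ⟨⟨hr1, -⟩, ⟨hrM, hr2⟩, hrY⟩ := hr
    have h1 : (r.divisors.card : ℝ) ^ 4 / r ≤ C * (3 / 4 : ℝ) ^ v := by
      refine (htau r hr1).trans ?_
      apply mul_le_mul_of_nonneg_left _ (by linarith)
      have hYr : (Y : ℝ) ≤ r := by exact_mod_cast (not_le.1 hrY).le
      have hY0 : (0 : ℝ) < Y := by rw [hY]; positivity
      calc (r : ℝ) ^ (-(1 / 2) : ℝ) ≤ (Y : ℝ) ^ (-(1 / 2) : ℝ) :=
            Real.rpow_le_rpow_of_nonpos hY0 hYr (by norm_num)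
        _ = ((b : ℝ) ^ (-(1 / 2) : ℝ)) ^ v := by
            rw [hY]
            push_cast
            rw [← Real.rpow_natCast ((b : ℝ) ^ (-(1 / 2) : ℝ)) v, ← Real.rpow_mul hb0.le,
              ← Real.rpow_natCast (b : ℝ) v, ← Real.rpow_mul hb0.le, mul_comm]
        _ ≤ (3 / 4 : ℝ) ^ v := by
            apply pow_le_pow_left₀ (by positivity)
            calc (b : ℝ) ^ (-(1 / 2) : ℝ) ≤ (2 : ℝ) ^ (-(1 / 2) : ℝ) :=
                  Real.rpow_le_rpow_of_nonpos (by norm_num) hb' (by norm_num)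
              _ = (Real.sqrt 2)⁻¹ := by
                  rw [Real.rpow_neg (by norm_num), Real.sqrt_eq_rpow]
              _ ≤ 3 / 4 := by
                  rw [inv_le_comm₀ (by positivity) (by norm_num)]
                  apply Real.le_sqrt_of_sq_le
                  norm_num
    have h2 := hs_nonneg b n θ r
    nlinarith
  -- the sum over all denominators
  have hL1 : ∑ r ∈ (Icc 1 R).filter (fun r => (r.Coprime M ∧ r ≠ 1) ∧ ¬ r ≤ Y), hs b n θ r ≤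
      12 * b * (b : ℝ) ^ n := by
    have h1 := L1 (b := b) (by omega) (n / 2) (n % 2) R θ
    have e1 : n / 2 + (n / 2 + n % 2) = n := by omega
    rw [e1] at h1
    have h2 : ∑ r ∈ (Icc 1 R).filter (fun r => (r.Coprime M ∧ r ≠ 1) ∧ ¬ r ≤ Y), hs b n θ r ≤
        ∑ q ∈ (Icc 1 R).filter (fun q => q.Coprime b), hs b n θ q := by
      apply Finset.sum_le_sum_of_subset_of_nonneg
      · intro r hr
        rw [mem_filter] at hr ⊢
        exact ⟨hr.1, Nat.Coprime.coprime_mul_right_right hr.2.1.1⟩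
      · intro r _ _
        exact hs_nonneg _ _ _ _
    refine h2.trans (h1.trans ?_)
    have h3 : (R : ℝ) ^ 2 ≤ (b : ℝ) ^ (n / 2 + 1) := by
      rw [hR]
      push_cast
      rw [← pow_mul, ← pow_mul]
      exact pow_le_pow_right₀ (by linarith) (by omega)
    calc (b : ℝ) ^ (n % 2) * (6 * ((b : ℝ) ^ (n / 2 + 1) + (R : ℝ) ^ 2) * (b : ℝ) ^ (n / 2))
        ≤ (b : ℝ) ^ (n % 2) * (6 * ((b : ℝ) ^ (n / 2 + 1) + (b : ℝ) ^ (n / 2 + 1)) * (b : ℝ) ^ (n / 2)) := by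
          gcongr
      _ = 12 * b * ((b : ℝ) ^ (n / 2 + (n / 2 + n % 2))) := by
          rw [pow_succ, pow_add, pow_add]; ring
      _ = 12 * b * (b : ℝ) ^ n := by rw [e1]
  -- combine
  have hsplit : ES b n θ M R =
      ∑ r ∈ (Icc 1 R).filter (fun r => (r.Coprime M ∧ r ≠ 1) ∧ r ≤ Y),
        hs b n θ r * ((r.divisors.card : ℝ) ^ 4 / r) +
      ∑ r ∈ (Icc 1 R).filter (fun r => (r.Coprime M ∧ r ≠ 1) ∧ ¬ r ≤ Y),
        hs b n θ r * ((r.divisors.card : ℝ) ^ 4 / r) := by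
    unfold ES
    rw [← Finset.sum_filter_add_sum_filter_not _ (fun r => r ≤ Y), Finset.filter_filter,
      Finset.filter_filter]
  rw [hsplit]
  have hs1 : ∑ r ∈ (Icc 1 R).filter (fun r => (r.Coprime M ∧ r ≠ 1) ∧ r ≤ Y),
        hs b n θ r * ((r.divisors.card : ℝ) ^ 4 / r) ≤
      (Y : ℝ) * (C * ((Y : ℝ) * (kap b ^ (v ^ 2) * (b : ℝ) ^ n))) := by
    refine (Finset.sum_le_sum hsmall).trans ?_
    rw [Finset.sum_const, nsmul_eq_mul]
    apply mul_le_mul_of_nonneg_right _ (by positivity)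
    have h1 : ((Icc 1 R).filter (fun r => (r.Coprime M ∧ r ≠ 1) ∧ r ≤ Y)).card ≤ Y := by
      have h2 : (Icc 1 R).filter (fun r => (r.Coprime M ∧ r ≠ 1) ∧ r ≤ Y) ⊆ Icc 1 Y := by
        intro r hr
        rw [mem_filter, mem_Icc] at hr
        rw [mem_Icc]
        exact ⟨hr.1.1, hr.2.2⟩
      have := Finset.card_le_card h2
      rw [Nat.card_Icc] at this
      omega
    exact_mod_cast h1
  have hs2 : ∑ r ∈ (Icc 1 R).filter (fun r => (r.Coprime M ∧ r ≠ 1) ∧ ¬ r ≤ Y),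
        hs b n θ r * ((r.divisors.card : ℝ) ^ 4 / r) ≤
      C * (3 / 4 : ℝ) ^ v * (12 * b * (b : ℝ) ^ n) := by
    refine (Finset.sum_le_sum hlarge).trans ?_
    rw [← Finset.mul_sum]
    exact mul_le_mul_of_nonneg_left hL1 (by positivity)
  have hYc : (Y : ℝ) = (b : ℝ) ^ v := by rw [hY]; push_cast; rfl
  rw [hYc] at hs1
  calc _ ≤ _ := add_le_add hs1 hs2
    _ = _ := by ring

end Pool.Agent.Q252.RP
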