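import Pool.Agent.Q252.RP7

/-!
# Reversed primes: the error is small, final form
-/

set_option autoImplicit false

namespace Pool.Agent.Q252.RP

open Finset Filter
open Pool.Agent.Helper112 (ee ls_norm_ee)

/-- the fourth root -/
def rt (n : ℕ) : ℕ := Nat.sqrt (Nat.sqrt n)

lemma rt_pow_le (n : ℕ) : rt n ^ 4 ≤ n := by
  unfold rt
  have h1 := Nat.sqrt_le' (Nat.sqrt n)
  have h2 := Nat.sqrt_le' n
  calc Nat.sqrt (Nat.sqrt n) ^ 4 = (Nat.sqrt (Nat.sqrt n) ^ 2) ^ 2 := by ring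
    _ ≤ (Nat.sqrt n) ^ 2 := Nat.pow_le_pow_left h1 2
    _ ≤ n := h2

lemma lt_rt_pow (n : ℕ) : n < (rt n + 1) ^ 4 := by
  unfold rt
  have h1 := Nat.lt_succ_sqrt' (Nat.sqrt n)
  have h2 := Nat.lt_succ_sqrt' n
  simp only [Nat.succ_eq_add_one] at h1 h2
  calc n < (Nat.sqrt n + 1) ^ 2 := h2
    _ ≤ ((Nat.sqrt (Nat.sqrt n) + 1) ^ 2) ^ 2 := Nat.pow_le_pow_left h1 2
    _ = _ := by ring

lemma le_rt {v n : ℕ} (h : (v + 1) ^ 4 ≤ n) : v ≤ rt n := by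
  by_contra hcon
  push Not at hcon
  have h1 := lt_rt_pow n
  have h2 : (rt n + 1) ^ 4 ≤ (v + 1) ^ 4 := Nat.pow_le_pow_left (by omega) 4
  omega

lemma err_small {b : ℕ} (hb : 2 ≤ b) {ε : ℝ} (hε : 0 < ε) : ∃ n0 : ℕ, ∀ n : ℕ, n0 ≤ n → ∀ θ : ℝ,
    ‖∑ m ∈ range (b ^ n), (((maj (b * (b ^ 2 - 1)) (b ^ (n / 8)) (NN b n m) : ℝ) : ℂ) -
      (VV (b * (b ^ 2 - 1)) (b ^ (n / 8)) : ℝ)) * ee (θ * m)‖ ≤ ε * (b : ℝ) ^ n / (n : ℝ) ^ 2 := by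
  obtain ⟨C, hC, hES⟩ := ES_bound
  have hb' : (2 : ℝ) ≤ b := by exact_mod_cast hb
  have hκ0 := kap_nonneg hb
  have hκ1 := kap_lt_one hb
  -- first threshold
  have hT1 : Tendsto (fun v : ℕ => (b : ℝ) ^ 2 * kap b ^ v) atTop (nhds ((b : ℝ) ^ 2 * 0)) :=
    (tendsto_pow_atTop_nhds_zero_of_lt_one hκ0 hκ1).const_mul _
  rw [mul_zero] at hT1
  have hE1 := hT1.eventually_lt_const (show (0 : ℝ) < 3 / 4 by norm_num)
  -- second threshold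
  set K : ℝ := C * (2 * b) ^ 16 * (13 * b) * 2 ^ 72 with hK
  have hK0 : 0 < K := by rw [hK]; positivity
  have hT2 : Tendsto (fun v : ℕ => (v : ℝ) ^ 72 * (3 / 4 : ℝ) ^ v) atTop (nhds 0) :=
    tendsto_pow_const_mul_const_pow_of_abs_lt_one 72 (by rw [abs_of_pos] <;> norm_num)
  have hE2 := hT2.eventually_lt_const (show (0 : ℝ) < ε / K by positivity)
  obtain ⟨v1, hv1⟩ := eventually_atTop.1 (hE1.and (hE2.and (eventually_ge_atTop 2)))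
  refine ⟨(v1 + 1) ^ 4 + 1, fun n hn θ => ?_⟩
  set v := rt n with hv
  have hvv : v1 ≤ v := le_rt (by omega)
  obtain ⟨h1, h2, h3⟩ := hv1 v hvv
  have hn0 : 0 < n := by omega
  have hnR : (0 : ℝ) < n := by exact_mod_cast hn0
  have h4 := err_bound (b := b) (by omega) n (b * (b ^ 2 - 1)) (b ^ (n / 8))
    (Nat.one_le_pow _ _ (by omega)) θ
  refine h4.trans ?_
  have h5 := hES b hb n v h3 (rt_pow_le n) θ
  set X : ℝ := ES b n θ (b * (b ^ 2 - 1)) ((b ^ (n / 8)) ^ 2) with hX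
  have hX0 : 0 ≤ X := ES_nonneg _ _ _ _ _
  -- the logarithm
  have hlog : 1 + Real.log (((b ^ (n / 8)) ^ 2 : ℕ) : ℝ) ≤ 2 * b * ((v : ℝ) + 1) ^ 4 := by
    have e1 : Real.log (((b ^ (n / 8)) ^ 2 : ℕ) : ℝ) = 2 * ((n / 8 : ℕ) : ℝ) * Real.log b := by
      push_cast
      rw [Real.log_pow, Real.log_pow]
      push_cast
      ring
    rw [e1]
    have h6 : Real.log b ≤ b := (Real.log_le_sub_one_of_pos (by linarith)).trans (by linarith)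
    have h7 : 0 ≤ Real.log b := Real.log_nonneg (by linarith)
    have h8 : ((n / 8 : ℕ) : ℝ) ≤ n / 8 := Nat.cast_div_le
    have h9 : (n : ℝ) ≤ ((v : ℝ) + 1) ^ 4 := by exact_mod_cast (lt_rt_pow n).le
    have h10 : (1 : ℝ) ≤ ((v : ℝ) + 1) ^ 4 := one_le_pow₀ (by
      have : (0 : ℝ) ≤ v := Nat.cast_nonneg v
      linarith)
    have h11 : 2 * ((n / 8 : ℕ) : ℝ) * Real.log b ≤ 2 * (n / 8) * b := by
      have : (0 : ℝ) ≤ ((n / 8 : ℕ) : ℝ) := Nat.cast_nonneg _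
      calc 2 * ((n / 8 : ℕ) : ℝ) * Real.log b ≤ 2 * (n / 8) * Real.log b := by gcongr
        _ ≤ _ := by gcongr
    nlinarith
  have hlog0 : 0 ≤ 1 + Real.log (((b ^ (n / 8)) ^ 2 : ℕ) : ℝ) := by
    have := Real.log_natCast_nonneg ((b ^ (n / 8)) ^ 2)
    linarith
  have hlog16 := pow_le_pow_left₀ hlog0 hlog 16
  -- the bracket
  have hbr : ((b : ℝ) ^ v) ^ 2 * kap b ^ (v ^ 2) + 12 * b * (3 / 4 : ℝ) ^ v ≤
      13 * b * (3 / 4 : ℝ) ^ v := by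
    have e2 : ((b : ℝ) ^ v) ^ 2 * kap b ^ (v ^ 2) = ((b : ℝ) ^ 2 * kap b ^ v) ^ v := by
      rw [mul_pow, ← pow_mul, ← pow_mul, ← pow_mul, mul_comm v 2, sq v]
    have h6 : ((b : ℝ) ^ 2 * kap b ^ v) ^ v ≤ (3 / 4 : ℝ) ^ v :=
      pow_le_pow_left₀ (by positivity) h1.le v
    rw [e2]
    have h7 : 0 < (3 / 4 : ℝ) ^ v := by positivity
    nlinarith
  have h6 : X ≤ C * (b : ℝ) ^ n * (13 * b * (3 / 4 : ℝ) ^ v) :=
    h5.trans (mul_le_mul_of_nonneg_left hbr (by positivity))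
  rw [le_div_iff₀ (by positivity)]
  have h9 : (n : ℝ) ≤ ((v : ℝ) + 1) ^ 4 := by exact_mod_cast (lt_rt_pow n).le
  have h10 : (n : ℝ) ^ 2 ≤ (((v : ℝ) + 1) ^ 4) ^ 2 := pow_le_pow_left₀ hnR.le h9 2
  have hv1' : (1 : ℝ) ≤ v := by exact_mod_cast (by omega : 1 ≤ v)
  have h11 : ((v : ℝ) + 1) ^ 72 ≤ (2 * (v : ℝ)) ^ 72 := pow_le_pow_left₀ (by linarith) (by linarith) 72
  have h12 : (v : ℝ) ^ 72 * (3 / 4 : ℝ) ^ v * K ≤ ε := by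
    rw [lt_div_iff₀ hK0] at h2
    exact h2.le
  calc (1 + Real.log (((b ^ (n / 8)) ^ 2 : ℕ) : ℝ)) ^ 16 * X * (n : ℝ) ^ 2
      ≤ (2 * b * ((v : ℝ) + 1) ^ 4) ^ 16 * (C * (b : ℝ) ^ n * (13 * b * (3 / 4 : ℝ) ^ v)) *
          (((v : ℝ) + 1) ^ 4) ^ 2 := by
        apply mul_le_mul _ h10 (by positivity) (by positivity)
        exact mul_le_mul hlog16 h6 hX0 (by positivity)
    _ = C * (2 * b) ^ 16 * (13 * b) * ((v : ℝ) + 1) ^ 72 * (3 / 4 : ℝ) ^ v * (b : ℝ) ^ n := by ring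
    _ ≤ C * (2 * b) ^ 16 * (13 * b) * (2 * (v : ℝ)) ^ 72 * (3 / 4 : ℝ) ^ v * (b : ℝ) ^ n := by
        gcongr
    _ = ((v : ℝ) ^ 72 * (3 / 4 : ℝ) ^ v * K) * (b : ℝ) ^ n := by
        rw [hK, mul_pow 2 (v : ℝ) 72]; ring
    _ ≤ ε * (b : ℝ) ^ n := mul_le_mul_of_nonneg_right h12 (by positivity)

end Pool.Agent.Q252.RP
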