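import Pool.Agent.Q261.PartGen

/-!
# The generating function of weighted partitions into the values of an injective sequence
-/

set_option autoImplicit false

namespace Q252.SQ

open Finset Filter Topology Q261.PartGen

/-- the first `M` values -/
def FM (f : ℕ → ℕ) (M : ℕ) : Finset ℕ := (range M).image f

section

variable {f : ℕ → ℕ} (hinj : Function.Injective f) (hf : ∀ m, m + 1 ≤ f m)

include hf in
theorem FM_pos (M : ℕ) : ∀ s ∈ FM f M, 0 < s := by
  intro s hs
  rw [FM, mem_image] at hs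
  obtain ⟨m, _, rfl⟩ := hs
  have := hf m
  omega

include hf in
theorem W_range_eq {R : Type*} [CommRing R] (t : R) (n M : ℕ) (h : n ≤ M) :
    W (Set.range f) t n = W (FM f M : Set ℕ) t n := by
  apply W_congr
  intro i hi hin
  rw [FM]
  simp only [coe_image, coe_range, Set.mem_image, Set.mem_Iio, Set.mem_range]
  constructor
  · rintro ⟨m, rfl⟩
    have := hf m
    exact ⟨m, by omega, rfl⟩
  · rintro ⟨m, _, rfl⟩
    exact ⟨m, rfl⟩

include hinj in
theorem prod_FM {K : Type*} [CommMonoid K] (g : ℕ → K) (M : ℕ) :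
    ∏ s ∈ FM f M, g s = ∏ m ∈ range M, g (f m) := by
  rw [FM, prod_image]
  intro a _ b _ h
  exact hinj h

include hinj hf in
theorem summable_range {r : ℝ} (h0 : 0 ≤ r) (h1 : r < 1) :
    Summable (fun n => W (Set.range f) (1 : ℝ) n * r ^ n) := by
  apply summable_of_sum_range_le (c := Real.exp ((1 - r)⁻¹ * (1 - r)⁻¹))
    (fun n => mul_nonneg (W_nonneg _ _) (pow_nonneg h0 _))
  intro K
  have h2 : ∑ n ∈ range K, W (Set.range f) (1 : ℝ) n * r ^ n =
      ∑ n ∈ range K, W (FM f K : Set ℕ) (1 : ℝ) n * r ^ n := by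
    apply sum_congr rfl
    intro n hn
    rw [mem_range] at hn
    rw [W_range_eq hf 1 n K hn.le]
  obtain ⟨h3, h4⟩ := summable_finset (FM f K) (FM_pos hf K) h0 h1
  rw [h2]
  refine (h3.sum_le_tsum _ (fun n _ => mul_nonneg (W_nonneg _ _) (pow_nonneg h0 _))).trans ?_
  rw [h4, prod_FM hinj]
  have h5 : ∀ m : ℕ, (1 - r ^ (f m))⁻¹ ≤ Real.exp (r ^ m * (1 - r)⁻¹) := by
    intro m
    have hfm := hf m
    have hx1 : r ^ (f m) ≤ r := by
      calc r ^ (f m) ≤ r ^ 1 := pow_le_pow_of_le_one h0 h1.le (by omega)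
        _ = r := pow_one r
    have hx2 : r ^ (f m) ≤ r ^ m := pow_le_pow_of_le_one h0 h1.le (by omega)
    have hx0 : 0 ≤ r ^ (f m) := pow_nonneg h0 _
    set x := r ^ (f m)
    have h6 : (1 - x)⁻¹ = 1 + x * (1 - x)⁻¹ := by
      have : (1 - x) ≠ 0 := by linarith
      field_simp
      ring
    have h7 : x * (1 - x)⁻¹ ≤ r ^ m * (1 - r)⁻¹ := by
      apply mul_le_mul hx2 _ (inv_nonneg.2 (by linarith)) (pow_nonneg h0 _)
      exact inv_anti₀ (by linarith) (by linarith)
    rw [h6]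
    have := Real.add_one_le_exp (r ^ m * (1 - r)⁻¹)
    linarith
  have h6 : ∏ m ∈ range K, (1 - r ^ (f m))⁻¹ ≤ ∏ m ∈ range K, Real.exp (r ^ m * (1 - r)⁻¹) := by
    apply Finset.prod_le_prod
    · intro m _
      apply inv_nonneg.2
      have : r ^ (f m) ≤ 1 := pow_le_one₀ h0 h1.le
      linarith
    · intro m _
      exact h5 m
  refine h6.trans ?_
  rw [← Real.exp_sum]
  apply Real.exp_le_exp.2
  rw [← sum_mul]
  apply mul_le_mul_of_nonneg_right _ (inv_nonneg.2 (by linarith))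
  have h7 := (summable_geometric_of_lt_one h0 h1).sum_le_tsum (range K) (fun n _ => pow_nonneg h0 n)
  rwa [tsum_geometric_of_lt_one h0 h1] at h7

/-- the logarithm of the generating function -/
noncomputable def T (f : ℕ → ℕ) (t z : ℂ) : ℂ := ∑' k : ℕ, t ^ k / k * ∑' m : ℕ, z ^ (k * f m)

include hf in
theorem norm_pow_le {z : ℂ} (hz : ‖z‖ < 1) {k : ℕ} (hk : 1 ≤ k) (m : ℕ) :
    ‖z ^ (k * f m)‖ ≤ ‖z‖ ^ k * ‖z‖ ^ m := by
  rw [norm_pow, ← pow_add]
  apply pow_le_pow_of_le_one (norm_nonneg z) hz.le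
  have := hf m
  nlinarith

include hf in
theorem summable_inner {z : ℂ} (hz : ‖z‖ < 1) {k : ℕ} (hk : 1 ≤ k) :
    Summable (fun m : ℕ => z ^ (k * f m)) := by
  refine Summable.of_norm_bounded (g := fun m => ‖z‖ ^ k * ‖z‖ ^ m) ?_ (norm_pow_le hf hz hk)
  exact (summable_geometric_of_lt_one (norm_nonneg z) hz).mul_left _

include hf in
theorem tendsto_prod {t z : ℂ} (ht : ‖t‖ ≤ 1) (hz : ‖z‖ < 1) :
    Tendsto (fun M => ∏ m ∈ range M, (1 - t * z ^ (f m))⁻¹) atTop (𝓝 (Complex.exp (T f t z))) := by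
  have hlt : ∀ m : ℕ, ‖t * z ^ (f m)‖ < 1 := by
    intro m
    have hfm := hf m
    rw [norm_mul, norm_pow]
    have := pow_lt_one₀ (norm_nonneg z) hz (n := f m) (by omega)
    calc ‖t‖ * ‖z‖ ^ (f m) ≤ 1 * ‖z‖ ^ (f m) :=
          mul_le_mul_of_nonneg_right ht (pow_nonneg (norm_nonneg _) _)
      _ < 1 := by rw [one_mul]; exact this
  have hexp : ∀ M, ∏ m ∈ range M, (1 - t * z ^ (f m))⁻¹ =
      Complex.exp (∑' k : ℕ, t ^ k / k * (∑ m ∈ range M, z ^ (k * f m))) := by
    intro M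
    have h1 : ∀ m : ℕ, HasSum (fun k : ℕ => t ^ k / k * z ^ (k * f m))
        (-Complex.log (1 - t * z ^ (f m))) := by
      intro m
      have h2 := Complex.hasSum_taylorSeries_neg_log (hlt m)
      have e : (fun k : ℕ => t ^ k / k * z ^ (k * f m)) =
          fun n : ℕ => (t * z ^ (f m)) ^ n / n := by
        funext k
        rw [mul_pow, ← pow_mul, mul_comm (f m) k]
        ring
      rw [e]
      exact h2
    have h3 := hasSum_sum (s := range M) (fun m _ => h1 m)
    have h4 : ∑' k : ℕ, t ^ k / k * (∑ m ∈ range M, z ^ (k * f m)) =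
        ∑ m ∈ range M, -Complex.log (1 - t * z ^ (f m)) := by
      rw [← h3.tsum_eq]
      apply tsum_congr
      intro k
      rw [mul_sum]
    rw [h4, Complex.exp_sum]
    apply prod_congr rfl
    intro m _
    rw [Complex.exp_neg, Complex.exp_log]
    intro h
    have h6 : t * z ^ (f m) = 1 := by linear_combination -h
    have := hlt m
    rw [h6, norm_one] at this
    exact lt_irrefl _ this
  simp_rw [hexp]
  refine (Complex.continuous_exp.tendsto _).comp ?_
  unfold T
  apply tendsto_tsum_of_dominated_convergence (bound := fun k : ℕ => ‖z‖ ^ k * (1 - ‖z‖)⁻¹)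
  · exact (summable_geometric_of_lt_one (norm_nonneg z) hz).mul_right _
  · intro k
    rcases Nat.eq_zero_or_pos k with rfl | hk
    · simp
    exact ((summable_inner hf hz hk).hasSum.tendsto_sum_nat).const_mul _
  · filter_upwards with M
    intro k
    rcases Nat.eq_zero_or_pos k with rfl | hk
    · simp only [Nat.cast_zero, div_zero, zero_mul, norm_zero]
      have : 0 < 1 - ‖z‖ := by linarith
      positivity
    have hk' : (1 : ℝ) ≤ k := by exact_mod_cast hk
    have h1 : ‖t ^ k / (k : ℂ)‖ ≤ 1 := by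
      rw [norm_div, norm_pow, Complex.norm_natCast]
      calc ‖t‖ ^ k / k ≤ 1 / k := by
            apply div_le_div_of_nonneg_right (pow_le_one₀ (norm_nonneg _) ht)
            positivity
        _ ≤ 1 := by rw [div_le_one (by positivity)]; exact hk'
    have h2 : ‖∑ m ∈ range M, z ^ (k * f m)‖ ≤ ‖z‖ ^ k * (1 - ‖z‖)⁻¹ := by
      calc ‖∑ m ∈ range M, z ^ (k * f m)‖ ≤ ∑ m ∈ range M, ‖z‖ ^ k * ‖z‖ ^ m :=
            (norm_sum_le _ _).trans (sum_le_sum fun m _ => norm_pow_le hf hz hk m)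
        _ = ‖z‖ ^ k * ∑ m ∈ range M, ‖z‖ ^ m := by rw [mul_sum]
        _ ≤ ‖z‖ ^ k * (1 - ‖z‖)⁻¹ := by
            apply mul_le_mul_of_nonneg_left _ (by positivity)
            have h7 := (summable_geometric_of_lt_one (norm_nonneg z) hz).sum_le_tsum (range M)
              (fun n _ => pow_nonneg (norm_nonneg z) n)
            rwa [tsum_geometric_of_lt_one (norm_nonneg z) hz] at h7
    rw [norm_mul]
    calc ‖t ^ k / (k : ℂ)‖ * ‖∑ m ∈ range M, z ^ (k * f m)‖ ≤ 1 * (‖z‖ ^ k * (1 - ‖z‖)⁻¹) :=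
          mul_le_mul h1 h2 (norm_nonneg _) zero_le_one
      _ = _ := one_mul _

include hinj hf in
/-- **the generating function** -/
theorem gen {t z : ℂ} (ht : ‖t‖ ≤ 1) (hz : ‖z‖ < 1) :
    Summable (fun n => ‖W (Set.range f) t n * z ^ n‖) ∧
      ∑' n, W (Set.range f) t n * z ^ n = Complex.exp (T f t z) := by
  have hb : ∀ (S : Set ℕ) (n : ℕ), ‖W S t n * z ^ n‖ ≤ W S (1 : ℝ) n * ‖z‖ ^ n := by
    intro S n
    rw [norm_mul, norm_pow]
    exact mul_le_mul_of_nonneg_right (norm_W_le _ _ ht n) (pow_nonneg (norm_nonneg _) _)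
  have hs := summable_range hinj hf (norm_nonneg z) hz
  refine ⟨Summable.of_nonneg_of_le (fun _ => norm_nonneg _) (hb (Set.range f)) hs, ?_⟩
  have h1 : Tendsto (fun M => ∑' n, W (FM f M : Set ℕ) t n * z ^ n) atTop
      (𝓝 (∑' n, W (Set.range f) t n * z ^ n)) := by
    apply tendsto_tsum_of_dominated_convergence hs
    · intro n
      apply tendsto_const_nhds.congr'
      filter_upwards [eventually_ge_atTop n] with M hM
      rw [W_range_eq hf _ n M hM]
    · filter_upwards with M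
      intro n
      refine (hb _ n).trans (mul_le_mul_of_nonneg_right (W_mono ?_ n) (pow_nonneg (norm_nonneg _) _))
      intro s hs
      rw [FM, mem_coe, mem_image] at hs
      obtain ⟨m, _, rfl⟩ := hs
      exact ⟨m, rfl⟩
  refine tendsto_nhds_unique h1 ?_
  have h2 : ∀ M, ∑' n, W (FM f M : Set ℕ) t n * z ^ n =
      ∏ m ∈ range M, (1 - t * z ^ (f m))⁻¹ := by
    intro M
    rw [(tsum_finset (FM f M) (FM_pos hf M) ht hz).2, prod_FM hinj]
  simp_rw [h2]
  exact tendsto_prod hf ht hz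

end

end Q252.SQ
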