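import Mathlib

/-!
# Sums of periodic sequences against `exp (-(m+1)^2 s)` as `s → 0+`
-/

set_option autoImplicit false

namespace Q252.SQ

open Finset Filter Topology

/-- half of the theta series -/
noncomputable def th (s : ℝ) : ℝ := ∑' m : ℕ, Real.exp (-((m : ℝ) + 1) ^ 2 * s)

theorem exp_sq_le {s : ℝ} (hs : 0 < s) (m : ℕ) :
    Real.exp (-((m : ℝ) + 1) ^ 2 * s) ≤ Real.exp 1 * (Real.exp (-(2 * √s))) ^ (m + 1) := by
  rw [← Real.exp_nat_mul, ← Real.exp_add]
  apply Real.exp_le_exp.2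
  have h1 : √s * √s = s := Real.mul_self_sqrt hs.le
  push_cast
  nlinarith [sq_nonneg (((m : ℝ) + 1) * √s - 1)]

theorem exp_neg_lt_one {s : ℝ} (hs : 0 < s) : Real.exp (-(2 * √s)) < 1 := by
  rw [Real.exp_lt_one_iff]
  have := Real.sqrt_pos.2 hs
  linarith

theorem summable_majorant {s : ℝ} (hs : 0 < s) :
    Summable (fun m : ℕ => Real.exp 1 * (Real.exp (-(2 * √s))) ^ (m + 1)) := by
  apply Summable.mul_left
  exact (summable_nat_add_iff 1).2
    (summable_geometric_of_lt_one (Real.exp_pos _).le (exp_neg_lt_one hs))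

theorem summable_th {s : ℝ} (hs : 0 < s) :
    Summable (fun m : ℕ => Real.exp (-((m : ℝ) + 1) ^ 2 * s)) :=
  Summable.of_nonneg_of_le (fun _ => (Real.exp_pos _).le) (exp_sq_le hs) (summable_majorant hs)

theorem th_nonneg (s : ℝ) : 0 ≤ th s := tsum_nonneg fun _ => (Real.exp_pos _).le

theorem sqrt_mul_th_le {s : ℝ} (hs : 0 < s) : √s * th s ≤ Real.exp 1 / 2 := by
  have h1 : th s ≤ ∑' m : ℕ, Real.exp 1 * (Real.exp (-(2 * √s))) ^ (m + 1) :=
    (summable_th hs).tsum_le_tsum (exp_sq_le hs) (summable_majorant hs)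
  set r := Real.exp (-(2 * √s)) with hr
  have hr1 : r < 1 := exp_neg_lt_one hs
  have hr0 : 0 < r := Real.exp_pos _
  have h2 : ∑' m : ℕ, Real.exp 1 * r ^ (m + 1) = Real.exp 1 * (r / (1 - r)) := by
    rw [tsum_mul_left]
    congr 1
    simp_rw [pow_succ']
    rw [tsum_mul_left, tsum_geometric_of_lt_one hr0.le hr1]
    rfl
  have hs' : 0 < √s := Real.sqrt_pos.2 hs
  have h3 : r / (1 - r) ≤ 1 / (2 * √s) := by
    rw [div_le_div_iff₀ (by linarith) (by positivity)]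
    have h4 := Real.add_one_le_exp (2 * √s)
    have h5 : r * Real.exp (2 * √s) = 1 := by
      rw [hr, ← Real.exp_add]; simp
    nlinarith
  rw [h2] at h1
  calc √s * th s ≤ √s * (Real.exp 1 * (1 / (2 * √s))) := by
        apply mul_le_mul_of_nonneg_left _ hs'.le
        exact h1.trans (mul_le_mul_of_nonneg_left h3 (Real.exp_pos _).le)
    _ = Real.exp 1 / 2 := by field_simp

theorem hasSum_int {s : ℝ} (hs : 0 < s) :
    HasSum (fun n : ℤ => Real.exp (-s * (n : ℝ) ^ 2)) (1 + 2 * th s) := by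
  have h1 : HasSum (fun n : ℕ => Real.exp (-s * ((n : ℤ) : ℝ) ^ 2)) (1 + th s) := by
    have e : (fun n : ℕ => Real.exp (-s * (((n + 1 : ℕ) : ℤ) : ℝ) ^ 2)) =
        fun m : ℕ => Real.exp (-((m : ℝ) + 1) ^ 2 * s) := by
      funext m
      congr 1
      push_cast
      ring
    have h0 : HasSum (fun n : ℕ => Real.exp (-s * (((n + 1 : ℕ) : ℤ) : ℝ) ^ 2)) (th s) := by
      rw [e]
      exact (summable_th hs).hasSum
    have h3 := (hasSum_nat_add_iff (f := fun n : ℕ => Real.exp (-s * ((n : ℤ) : ℝ) ^ 2)) 1).1 h0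
    rw [Finset.sum_range_one] at h3
    have e2 : th s + Real.exp (-s * (((0 : ℕ) : ℤ) : ℝ) ^ 2) = 1 + th s := by
      rw [Nat.cast_zero, Int.cast_zero, zero_pow two_ne_zero, mul_zero, Real.exp_zero, add_comm]
    rwa [e2] at h3
  have h2 : HasSum (fun n : ℕ => Real.exp (-s * ((-((n : ℤ) + 1) : ℤ) : ℝ) ^ 2)) (th s) := by
    have e : (fun n : ℕ => Real.exp (-s * ((-((n : ℤ) + 1) : ℤ) : ℝ) ^ 2)) =
        fun m : ℕ => Real.exp (-((m : ℝ) + 1) ^ 2 * s) := by
      funext m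
      congr 1
      push_cast
      ring
    rw [e]
    exact (summable_th hs).hasSum
  have h3 := HasSum.of_nat_of_neg_add_one (f := fun n : ℤ => Real.exp (-s * (n : ℝ) ^ 2)) h1 h2
  have e3 : 1 + th s + th s = 1 + 2 * th s := by ring
  rwa [e3] at h3

theorem functional {s : ℝ} (hs : 0 < s) :
    √s * (1 + 2 * th s) = √Real.pi * (1 + 2 * th (Real.pi ^ 2 / s)) := by
  have hpi := Real.pi_pos
  have h := Real.tsum_exp_neg_mul_int_sq (a := s / Real.pi) (by positivity)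
  have e1 : (fun n : ℤ => Real.exp (-Real.pi * (s / Real.pi) * (n : ℝ) ^ 2)) =
      fun n : ℤ => Real.exp (-s * (n : ℝ) ^ 2) := by
    funext n
    congr 2
    field_simp
  have e2 : (fun n : ℤ => Real.exp (-Real.pi / (s / Real.pi) * (n : ℝ) ^ 2)) =
      fun n : ℤ => Real.exp (-(Real.pi ^ 2 / s) * (n : ℝ) ^ 2) := by
    funext n
    congr 2
    field_simp
  rw [e1, e2, (hasSum_int hs).tsum_eq, (hasSum_int (by positivity)).tsum_eq,
    ← Real.sqrt_eq_rpow, Real.sqrt_div hs.le] at h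
  rw [h]
  have := Real.sqrt_pos.2 hs
  field_simp

/-- `√s · θ(s) → √π / 2` -/
theorem tendsto_sqrt_mul_th :
    Tendsto (fun s : ℝ => √s * th s) (𝓝[>] 0) (𝓝 (√Real.pi / 2)) := by
  have hpi := Real.pi_pos
  have h1 : Tendsto (fun s : ℝ => th (Real.pi ^ 2 / s)) (𝓝[>] 0) (𝓝 0) := by
    have h2 : Tendsto (fun s : ℝ => Real.exp 1 / 2 * (√s / Real.pi)) (𝓝[>] 0) (𝓝 0) := by
      have : Tendsto (fun s : ℝ => Real.exp 1 / 2 * (√s / Real.pi)) (𝓝 0)
          (𝓝 (Real.exp 1 / 2 * (√0 / Real.pi))) := by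
        apply Continuous.tendsto
        fun_prop
      simp only [Real.sqrt_zero, zero_div, mul_zero] at this
      exact this.mono_left nhdsWithin_le_nhds
    refine squeeze_zero' (Eventually.of_forall fun s => th_nonneg _) ?_ h2
    filter_upwards [self_mem_nhdsWithin] with s hs
    have hs' : 0 < s := hs
    have h3 := sqrt_mul_th_le (s := Real.pi ^ 2 / s) (by positivity)
    rw [Real.sqrt_div (by positivity), Real.sqrt_sq hpi.le] at h3
    have h4 : 0 < √s := Real.sqrt_pos.2 hs'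
    calc th (Real.pi ^ 2 / s) = (Real.pi / √s * th (Real.pi ^ 2 / s)) * (√s / Real.pi) := by
          field_simp
      _ ≤ Real.exp 1 / 2 * (√s / Real.pi) := mul_le_mul_of_nonneg_right h3 (by positivity)
  have h5 : Tendsto (fun s : ℝ => (√Real.pi * (1 + 2 * th (Real.pi ^ 2 / s)) - √s) / 2) (𝓝[>] 0)
      (𝓝 ((√Real.pi * (1 + 2 * 0) - √0) / 2)) := by
    have h6 : Tendsto (fun s : ℝ => √s) (𝓝[>] 0) (𝓝 (√0)) :=
      (Real.continuous_sqrt.tendsto 0).mono_left nhdsWithin_le_nhds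
    exact ((((h1.const_mul 2).const_add 1).const_mul _).sub h6).div_const 2
  simp only [mul_zero, add_zero, mul_one, Real.sqrt_zero, sub_zero] at h5
  apply h5.congr'
  filter_upwards [self_mem_nhdsWithin] with s hs
  rw [← functional hs]
  ring

/-- a periodic sequence with zero sum over a period has bounded partial sums -/
theorem periodic_bounded {d : ℕ → ℂ} {h : ℕ} (hh : 0 < h) (hper : ∀ n, d (n + h) = d n)
    (hd : ∀ n, ‖d n‖ ≤ 2) (h0 : ∑ c ∈ range h, d c = 0) (n : ℕ) :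
    ‖∑ m ∈ range n, d m‖ ≤ 2 * h := by
  have h1 : ∀ q r : ℕ, ∑ m ∈ range (h * q + r), d m = ∑ m ∈ range r, d m := by
    intro q
    induction q with
    | zero => intro r; simp
    | succ q ih =>
      intro r
      have e : h * (q + 1) + r = h + (h * q + r) := by ring
      rw [e, Finset.sum_range_add, h0, zero_add, ← ih r]
      apply sum_congr rfl
      intro m _
      rw [add_comm, hper]
  rw [← Nat.div_add_mod n h, h1]
  calc ‖∑ m ∈ range (n % h), d m‖ ≤ ∑ m ∈ range (n % h), (2 : ℝ) :=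
        (norm_sum_le _ _).trans (sum_le_sum fun m _ => hd m)
    _ = (n % h : ℕ) * 2 := by rw [sum_const, card_range, nsmul_eq_mul]
    _ ≤ 2 * h := by
        have : ((n % h : ℕ) : ℝ) ≤ h := by exact_mod_cast (Nat.mod_lt n hh).le
        linarith

/-- Abel summation bound -/
theorem abel_bound {d : ℕ → ℂ} {a : ℕ → ℝ} {B : ℝ} (hB : ∀ n, ‖∑ m ∈ range n, d m‖ ≤ B)
    (ha : Antitone a) (ha0 : ∀ n, 0 ≤ a n) (n : ℕ) :
    ‖∑ m ∈ range n, a m • d m‖ ≤ B * a 0 := by
  have hB0 : 0 ≤ B := by simpa using hB 0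
  rcases Nat.eq_zero_or_pos n with rfl | hn
  · simp only [range_zero, sum_empty, norm_zero]
    exact mul_nonneg hB0 (ha0 0)
  rw [Finset.sum_range_by_parts]
  have h1 : ‖a (n - 1) • ∑ i ∈ range n, d i‖ ≤ B * a (n - 1) := by
    rw [norm_smul, Real.norm_of_nonneg (ha0 _), mul_comm]
    exact mul_le_mul_of_nonneg_right (hB n) (ha0 _)
  have h2 : ‖∑ i ∈ range (n - 1), (a (i + 1) - a i) • ∑ i ∈ range (i + 1), d i‖ ≤
      B * (a 0 - a (n - 1)) := by
    calc ‖∑ i ∈ range (n - 1), (a (i + 1) - a i) • ∑ i ∈ range (i + 1), d i‖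
        ≤ ∑ i ∈ range (n - 1), B * (a i - a (i + 1)) := by
          refine (norm_sum_le _ _).trans (sum_le_sum fun i _ => ?_)
          have h3 : a (i + 1) ≤ a i := ha (Nat.le_succ i)
          rw [norm_smul, Real.norm_eq_abs, abs_of_nonpos (by linarith), neg_sub, mul_comm]
          exact mul_le_mul_of_nonneg_right (hB _) (by linarith)
      _ = B * (a 0 - a (n - 1)) := by
          rw [← mul_sum, Finset.sum_range_sub']
  calc _ ≤ B * a (n - 1) + B * (a 0 - a (n - 1)) := (norm_sub_le _ _).trans (add_le_add h1 h2)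
    _ = B * a 0 := by ring

theorem summable_per {g : ℕ → ℂ} (hg : ∀ n, ‖g n‖ ≤ 1) {s : ℝ} (hs : 0 < s) :
    Summable (fun m : ℕ => g m * (Real.exp (-((m : ℝ) + 1) ^ 2 * s) : ℝ)) := by
  apply Summable.of_norm_bounded (summable_th hs)
  intro m
  rw [norm_mul, Complex.norm_real, Real.norm_of_nonneg (Real.exp_pos _).le]
  exact mul_le_of_le_one_left (Real.exp_pos _).le (hg m)

theorem norm_per_le {g : ℕ → ℂ} (hg : ∀ n, ‖g n‖ ≤ 1) {s : ℝ} (hs : 0 < s) :
    ‖∑' m : ℕ, g m * (Real.exp (-((m : ℝ) + 1) ^ 2 * s) : ℝ)‖ ≤ th s := by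
  apply tsum_of_norm_bounded (summable_th hs).hasSum
  intro m
  rw [norm_mul, Complex.norm_real, Real.norm_of_nonneg (Real.exp_pos _).le]
  exact mul_le_of_le_one_left (Real.exp_pos _).le (hg m)

theorem per_sub_le {g : ℕ → ℂ} {h : ℕ} (hh : 0 < h) (hper : ∀ n, g (n + h) = g n)
    (hg : ∀ n, ‖g n‖ ≤ 1) {s : ℝ} (hs : 0 < s) :
    ‖∑' m : ℕ, g m * (Real.exp (-((m : ℝ) + 1) ^ 2 * s) : ℝ) -
      (∑ c ∈ range h, g c) / h * (th s : ℝ)‖ ≤ 2 * h := by
  set μ : ℂ := (∑ c ∈ range h, g c) / h with hμ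
  have hh' : (0 : ℝ) < h := by exact_mod_cast hh
  have hμ1 : ‖μ‖ ≤ 1 := by
    rw [hμ, norm_div, Complex.norm_natCast, div_le_one hh']
    calc ‖∑ c ∈ range h, g c‖ ≤ ∑ c ∈ range h, (1 : ℝ) :=
          (norm_sum_le _ _).trans (sum_le_sum fun m _ => hg m)
      _ = h := by simp
  set d : ℕ → ℂ := fun m => g m - μ with hd
  have hd2 : ∀ n, ‖d n‖ ≤ 2 := fun n => (norm_sub_le _ _).trans (by linarith [hg n])
  have hdp : ∀ n, d (n + h) = d n := fun n => by simp only [hd, hper]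
  have hd0 : ∑ c ∈ range h, d c = 0 := by
    simp only [hd]
    rw [sum_sub_distrib, sum_const, card_range, nsmul_eq_mul, hμ]
    have : (h : ℂ) ≠ 0 := by exact_mod_cast hh.ne'
    field_simp
    ring
  have hB := periodic_bounded hh hdp hd2 hd0
  have ha : Antitone (fun m : ℕ => Real.exp (-((m : ℝ) + 1) ^ 2 * s)) := by
    intro m n hmn
    apply Real.exp_le_exp.2
    have : (m : ℝ) ≤ n := by exact_mod_cast hmn
    have h0 : (0 : ℝ) ≤ m := Nat.cast_nonneg m
    nlinarith [mul_le_mul this this h0 (Nat.cast_nonneg n)]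
  have hth : (th s : ℂ) = ∑' m : ℕ, ((Real.exp (-((m : ℝ) + 1) ^ 2 * s) : ℝ) : ℂ) := by
    rw [th, Complex.ofReal_tsum]
  have hsum2 : Summable (fun m : ℕ => ((Real.exp (-((m : ℝ) + 1) ^ 2 * s) : ℝ) : ℂ)) :=
    Complex.hasSum_ofReal.2 (summable_th hs).hasSum |>.summable
  have e : ∑' m : ℕ, g m * (Real.exp (-((m : ℝ) + 1) ^ 2 * s) : ℝ) - μ * (th s : ℝ) =
      ∑' m : ℕ, Real.exp (-((m : ℝ) + 1) ^ 2 * s) • d m := by
    rw [hth, ← tsum_mul_left, ← (summable_per hg hs).tsum_sub (hsum2.mul_left μ)]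
    apply tsum_congr
    intro m
    rw [Complex.real_smul]
    simp only [hd]
    ring
  rw [e]
  have hsum : Summable (fun m : ℕ => Real.exp (-((m : ℝ) + 1) ^ 2 * s) • d m) := by
    refine ((summable_per hg hs).sub (hsum2.mul_left μ)).congr fun m => ?_
    rw [Complex.real_smul]
    simp only [hd]
    ring
  refine le_of_tendsto (hsum.hasSum.tendsto_sum_nat.norm) (Eventually.of_forall fun n => ?_)
  refine (abel_bound hB ha (fun _ => (Real.exp_pos _).le) n).trans ?_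
  apply mul_le_of_le_one_right (by positivity)
  apply Real.exp_le_one_iff.2
  push_cast
  nlinarith

/-- the limit of a periodic theta-type sum -/
theorem tendsto_per {g : ℕ → ℂ} {h : ℕ} (hh : 0 < h) (hper : ∀ n, g (n + h) = g n)
    (hg : ∀ n, ‖g n‖ ≤ 1) :
    Tendsto (fun s : ℝ => (√s : ℂ) * ∑' m : ℕ, g m * (Real.exp (-((m : ℝ) + 1) ^ 2 * s) : ℝ))
      (𝓝[>] 0) (𝓝 ((∑ c ∈ range h, g c) / h * ((√Real.pi / 2 : ℝ) : ℂ))) := by
  set μ : ℂ := (∑ c ∈ range h, g c) / h with hμ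
  have h1 : Tendsto (fun s : ℝ => μ * ((√s * th s : ℝ) : ℂ)) (𝓝[>] 0)
      (𝓝 (μ * ((√Real.pi / 2 : ℝ) : ℂ))) :=
    ((Complex.continuous_ofReal.tendsto _).comp tendsto_sqrt_mul_th).const_mul μ
  have h2 : Tendsto (fun s : ℝ => (√s : ℂ) *
      (∑' m : ℕ, g m * (Real.exp (-((m : ℝ) + 1) ^ 2 * s) : ℝ) - μ * (th s : ℝ)))
      (𝓝[>] 0) (𝓝 0) := by
    rw [tendsto_zero_iff_norm_tendsto_zero]
    have h3 : Tendsto (fun s : ℝ => √s * (2 * h)) (𝓝[>] 0) (𝓝 (√0 * (2 * h))) :=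
      ((Real.continuous_sqrt.tendsto 0).mono_left nhdsWithin_le_nhds).mul_const _
    rw [Real.sqrt_zero, zero_mul] at h3
    refine squeeze_zero' (Eventually.of_forall fun s => norm_nonneg _) ?_ h3
    filter_upwards [self_mem_nhdsWithin] with s hs
    rw [norm_mul, Complex.norm_real, Real.norm_of_nonneg (Real.sqrt_nonneg _)]
    exact mul_le_mul_of_nonneg_left (per_sub_le hh hper hg hs) (Real.sqrt_nonneg _)
  have h3 := h2.add h1
  rw [zero_add] at h3
  refine h3.congr fun s => ?_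
  push_cast
  ring

end Q252.SQ
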