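import Pool.Agent.Q252.SQ1
import Pool.Agent.Q252.SQ2

/-!
# The logarithm of the generating function near a root of unity
-/

set_option autoImplicit false

namespace Q252.SQ

open Finset Filter Topology

/-- the squares -/
def fsq (m : ℕ) : ℕ := (m + 1) ^ 2

theorem fsq_inj : Function.Injective fsq := by
  intro a b h
  simp only [fsq] at h
  have := Nat.pow_left_injective (n := 2) (by norm_num) h
  omega

theorem fsq_ge (m : ℕ) : m + 1 ≤ fsq m := by
  simp only [fsq]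
  nlinarith

/-- the weights `k^{-3/2}` -/
noncomputable def mu (k : ℕ) : ℝ := ((k : ℝ) * √(k : ℝ))⁻¹

theorem mu_nonneg (k : ℕ) : 0 ≤ mu k := by unfold mu; positivity

theorem mu_zero : mu 0 = 0 := by simp [mu]

theorem mu_pos {k : ℕ} (hk : 0 < k) : 0 < mu k := by
  have : (0 : ℝ) < k := by exact_mod_cast hk
  have := Real.sqrt_pos.2 this
  unfold mu; positivity

theorem summable_mu : Summable mu := by
  have h := Real.summable_nat_rpow_inv (p := 3 / 2) |>.2 (by norm_num)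
  refine h.congr fun k => ?_
  unfold mu
  congr 1
  rcases Nat.eq_zero_or_pos k with rfl | hk
  · simp
  · have hk' : (0 : ℝ) < k := by exact_mod_cast hk
    rw [Real.sqrt_eq_rpow]
    nth_rewrite 2 [← Real.rpow_one (k : ℝ)]
    rw [← Real.rpow_add hk']
    norm_num

theorem mu_mul (a b : ℕ) : mu (a * b) = mu a * mu b := by
  unfold mu
  rw [Nat.cast_mul, Real.sqrt_mul (Nat.cast_nonneg a), ← mul_inv]
  congr 1
  ring

/-- the mean of `ζ^(k c²)` over a period -/
noncomputable def E (ζ : ℂ) (h k : ℕ) : ℂ := (∑ c ∈ range h, ζ ^ (k * (c + 1) ^ 2)) / h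

theorem norm_of_pow_eq_one {ζ : ℂ} {h : ℕ} (hh : 0 < h) (hζ : ζ ^ h = 1) : ‖ζ‖ = 1 :=
  Complex.norm_eq_one_of_pow_eq_one hζ hh.ne'

theorem norm_E_le_one {ζ : ℂ} {h : ℕ} (hh : 0 < h) (hζ : ζ ^ h = 1) (k : ℕ) : ‖E ζ h k‖ ≤ 1 := by
  have hh' : (0 : ℝ) < h := by exact_mod_cast hh
  rw [E, norm_div, Complex.norm_natCast, div_le_one hh']
  calc ‖∑ c ∈ range h, ζ ^ (k * (c + 1) ^ 2)‖ ≤ ∑ c ∈ range h, (1 : ℝ) := by
        refine (norm_sum_le _ _).trans (sum_le_sum fun m _ => ?_)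
        rw [norm_pow, norm_of_pow_eq_one hh hζ, one_pow]
    _ = h := by simp

/-- the leading coefficient -/
noncomputable def Ac (w ζ : ℂ) (h : ℕ) : ℂ := ∑' k : ℕ, (mu k : ℂ) * (w ^ k * E ζ h k)

theorem summable_Ac {w ζ : ℂ} (hw : ‖w‖ ≤ 1) {h : ℕ} (hh : 0 < h) (hζ : ζ ^ h = 1) :
    Summable (fun k : ℕ => (mu k : ℂ) * (w ^ k * E ζ h k)) := by
  apply Summable.of_norm_bounded summable_mu
  intro k
  rw [norm_mul, norm_mul, norm_pow, Complex.norm_real, Real.norm_of_nonneg (mu_nonneg k)]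
  apply mul_le_of_le_one_right (mu_nonneg k)
  exact mul_le_one₀ (pow_le_one₀ (norm_nonneg _) hw) (norm_nonneg _) (norm_E_le_one hh hζ k)

theorem norm_exp_lt {t : ℝ} (ht : 0 < t) {ζ : ℂ} (hζ : ‖ζ‖ = 1) :
    ‖ζ * (Real.exp (-t) : ℝ)‖ < 1 := by
  rw [norm_mul, hζ, one_mul, Complex.norm_real, Real.norm_of_nonneg (Real.exp_pos _).le]
  rw [Real.exp_lt_one_iff]
  linarith

theorem pow_split (ζ : ℂ) (t : ℝ) (k m : ℕ) :
    (ζ * (Real.exp (-t) : ℝ)) ^ (k * fsq m) =
      ζ ^ (k * (m + 1) ^ 2) * (Real.exp (-((m : ℝ) + 1) ^ 2 * (k * t)) : ℝ) := by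
  rw [mul_pow, fsq]
  congr 1
  rw [← Complex.ofReal_pow, ← Real.exp_nat_mul]
  congr 2
  push_cast
  ring

theorem term_eq {w ζ : ℂ} {t : ℝ} (ht : 0 < t) (k : ℕ) :
    (√t : ℂ) * (w ^ k / k * ∑' m : ℕ, (ζ * (Real.exp (-t) : ℝ)) ^ (k * fsq m)) =
      (mu k : ℂ) * w ^ k * ((√(k * t) : ℂ) *
        ∑' m : ℕ, ζ ^ (k * (m + 1) ^ 2) * (Real.exp (-((m : ℝ) + 1) ^ 2 * (k * t)) : ℝ)) := by
  simp_rw [pow_split]
  rcases Nat.eq_zero_or_pos k with rfl | hk
  · simp [mu_zero]
  have hk' : (0 : ℝ) < k := by exact_mod_cast hk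
  have h1 : (√t : ℂ) * (w ^ k / k) = (mu k : ℂ) * w ^ k * (√(k * t) : ℂ) := by
    rw [Real.sqrt_mul hk'.le, mu]
    have h2 : ((√(k : ℝ) : ℝ) : ℂ) ≠ 0 := by
      exact_mod_cast (Real.sqrt_pos.2 hk').ne'
    have h3 : ((k : ℝ) : ℂ) ≠ 0 := by exact_mod_cast hk'.ne'
    push_cast
    push_cast at h3
    field_simp
  rw [← mul_assoc, h1, mul_assoc]

/-- **asymptotics of the logarithm** -/
theorem tendsto_T {w ζ : ℂ} (hw : ‖w‖ ≤ 1) {h : ℕ} (hh : 0 < h) (hζ : ζ ^ h = 1) :
    Tendsto (fun t : ℝ => (√t : ℂ) * T fsq w (ζ * (Real.exp (-t) : ℝ))) (𝓝[>] 0)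
      (𝓝 (Ac w ζ h * ((√Real.pi / 2 : ℝ) : ℂ))) := by
  have hn := norm_of_pow_eq_one hh hζ
  have h1 : ∀ t : ℝ, 0 < t → (√t : ℂ) * T fsq w (ζ * (Real.exp (-t) : ℝ)) =
      ∑' k : ℕ, (mu k : ℂ) * w ^ k * ((√(k * t) : ℂ) *
        ∑' m : ℕ, ζ ^ (k * (m + 1) ^ 2) * (Real.exp (-((m : ℝ) + 1) ^ 2 * (k * t)) : ℝ)) := by
    intro t ht
    rw [T, ← tsum_mul_left]
    exact tsum_congr fun k => term_eq ht k
  have h2 : Ac w ζ h * ((√Real.pi / 2 : ℝ) : ℂ) =
      ∑' k : ℕ, (mu k : ℂ) * w ^ k * (E ζ h k * ((√Real.pi / 2 : ℝ) : ℂ)) := by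
    rw [Ac, ← tsum_mul_right]
    apply tsum_congr
    intro k
    ring
  rw [h2]
  have h3 : Tendsto (fun t : ℝ => ∑' k : ℕ, (mu k : ℂ) * w ^ k * ((√(k * t) : ℂ) *
      ∑' m : ℕ, ζ ^ (k * (m + 1) ^ 2) * (Real.exp (-((m : ℝ) + 1) ^ 2 * (k * t)) : ℝ))) (𝓝[>] 0)
      (𝓝 (∑' k : ℕ, (mu k : ℂ) * w ^ k * (E ζ h k * ((√Real.pi / 2 : ℝ) : ℂ)))) := by
    apply tendsto_tsum_of_dominated_convergence (bound := fun k => mu k * (Real.exp 1 / 2))
      (summable_mu.mul_right _)
    · intro k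
      rcases Nat.eq_zero_or_pos k with rfl | hk
      · simp only [mu_zero, Complex.ofReal_zero, zero_mul]
        exact tendsto_const_nhds
      have hk' : (0 : ℝ) < k := by exact_mod_cast hk
      apply Tendsto.const_mul
      have h4 := tendsto_per (g := fun m : ℕ => ζ ^ (k * (m + 1) ^ 2)) hh (by
        intro n
        have e : k * (n + h + 1) ^ 2 = k * (n + 1) ^ 2 + h * (k * (2 * (n + 1) + h)) := by ring

        rw [e, pow_add, pow_mul ζ h, hζ, one_pow, mul_one]) (by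
        intro n
        rw [norm_pow, hn, one_pow])
      have h5 : Tendsto (fun t : ℝ => (k : ℝ) * t) (𝓝[>] 0) (𝓝[>] 0) := by
        rw [tendsto_nhdsWithin_iff]
        constructor
        · have : Tendsto (fun t : ℝ => (k : ℝ) * t) (𝓝 0) (𝓝 ((k : ℝ) * 0)) :=
            (continuous_const.mul continuous_id).tendsto 0
          rw [mul_zero] at this
          exact this.mono_left nhdsWithin_le_nhds
        · filter_upwards [self_mem_nhdsWithin] with t ht
          exact mul_pos hk' ht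
      exact h4.comp h5
    · filter_upwards [self_mem_nhdsWithin] with t ht
      intro k
      rcases Nat.eq_zero_or_pos k with rfl | hk
      · simp [mu_zero]
      have hk' : (0 : ℝ) < k := by exact_mod_cast hk
      have hkt : 0 < (k : ℝ) * t := mul_pos hk' ht
      rw [norm_mul, norm_mul, norm_mul, norm_pow, Complex.norm_real, Complex.norm_real,
        Real.norm_of_nonneg (mu_nonneg k), Real.norm_of_nonneg (Real.sqrt_nonneg _)]
      have h5 := norm_per_le (g := fun m : ℕ => ζ ^ (k * (m + 1) ^ 2)) (by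
        intro n
        rw [norm_pow, hn, one_pow]) hkt
      have h6 := sqrt_mul_th_le hkt
      have h7 : mu k * ‖w‖ ^ k ≤ mu k :=
        mul_le_of_le_one_right (mu_nonneg k) (pow_le_one₀ (norm_nonneg _) hw)
      apply mul_le_mul h7 _ (by positivity) (mu_nonneg k)
      exact (mul_le_mul_of_nonneg_left h5 (Real.sqrt_nonneg _)).trans h6
  apply h3.congr'
  filter_upwards [self_mem_nhdsWithin] with t ht
  rw [h1 t ht]

/-- continuity of the logarithm along a ray -/
theorem continuousOn_T {w ζ : ℂ} (hw : ‖w‖ ≤ 1) (hζ : ‖ζ‖ = 1) :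
    ContinuousOn (fun t : ℝ => T fsq w (ζ * (Real.exp (-t) : ℝ))) (Set.Ioi 0) := by
  have key : ∀ t₀ : ℝ, 0 < t₀ →
      ContinuousOn (fun t : ℝ => T fsq w (ζ * (Real.exp (-t) : ℝ))) (Set.Ioi t₀) := by
    intro t₀ ht₀
    set r := Real.exp (-t₀) with hr
    have hr0 : 0 < r := Real.exp_pos _
    have hr1 : r < 1 := by rw [hr, Real.exp_lt_one_iff]; linarith
    have hb : ∀ t ∈ Set.Ioi t₀, ∀ k m : ℕ, 1 ≤ k →
        ‖(ζ * (Real.exp (-t) : ℝ)) ^ (k * fsq m)‖ ≤ r ^ k * r ^ m := by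
      intro t ht k m hk
      rw [norm_pow, norm_mul, hζ, one_mul, Complex.norm_real,
        Real.norm_of_nonneg (Real.exp_pos _).le, ← pow_add]
      have h1 : Real.exp (-t) ≤ r := Real.exp_le_exp.2 (by linarith [Set.mem_Ioi.1 ht])
      calc Real.exp (-t) ^ (k * fsq m) ≤ r ^ (k * fsq m) :=
            pow_le_pow_left₀ (Real.exp_pos _).le h1 _
        _ ≤ r ^ (k + m) := by
            apply pow_le_pow_of_le_one hr0.le hr1.le
            have := fsq_ge m
            nlinarith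
    have hgeo := summable_geometric_of_lt_one hr0.le hr1
    unfold T
    apply continuousOn_tsum (u := fun k => r ^ k * (1 - r)⁻¹)
    · intro k
      rcases Nat.eq_zero_or_pos k with rfl | hk
      · simp only [Nat.cast_zero, div_zero, zero_mul]
        exact continuousOn_const
      apply ContinuousOn.mul continuousOn_const
      apply continuousOn_tsum (u := fun m => r ^ k * r ^ m)
      · intro m
        apply Continuous.continuousOn
        fun_prop
      · exact hgeo.mul_left _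
      · intro m t ht
        exact hb t ht k m hk
    · exact hgeo.mul_right _
    · intro k t ht
      rcases Nat.eq_zero_or_pos k with rfl | hk
      · simp only [Nat.cast_zero, div_zero, zero_mul, norm_zero]
        have : 0 < 1 - r := by linarith
        positivity
      have hk' : (1 : ℝ) ≤ k := by exact_mod_cast hk
      rw [norm_mul]
      have h1 : ‖w ^ k / (k : ℂ)‖ ≤ 1 := by
        rw [norm_div, norm_pow, Complex.norm_natCast]
        calc ‖w‖ ^ k / k ≤ 1 / k := by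
              apply div_le_div_of_nonneg_right (pow_le_one₀ (norm_nonneg _) hw)
              positivity
          _ ≤ 1 := by rw [div_le_one (by positivity)]; exact hk'
      have h2 : ‖∑' m : ℕ, (ζ * (Real.exp (-t) : ℝ)) ^ (k * fsq m)‖ ≤ r ^ k * (1 - r)⁻¹ := by
        apply tsum_of_norm_bounded (g := fun m => r ^ k * r ^ m)
        · rw [← tsum_geometric_of_lt_one hr0.le hr1]
          exact hgeo.hasSum.mul_left _
        · intro m
          exact hb t ht k m hk
      calc _ ≤ 1 * (r ^ k * (1 - r)⁻¹) := mul_le_mul h1 h2 (norm_nonneg _) zero_le_one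
        _ = _ := one_mul _
  intro t ht
  have ht' : 0 < t := ht
  have h1 := (key (t / 2) (by linarith)) t (Set.mem_Ioi.2 (by linarith))
  have h2 : ContinuousAt (fun t : ℝ => T fsq w (ζ * (Real.exp (-t) : ℝ))) t :=
    h1.continuousAt (Ioi_mem_nhds (by linarith))
  exact h2.continuousWithinAt

end Q252.SQ
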