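import Pool.Agent.Q252.SQ3

/-!
# Quadratic Gauss sums: absolute values
-/

set_option autoImplicit false

namespace Q252.SQ

open Finset

section Gauss

variable {n : ℕ} [NeZero n] {η : ℂ}

theorem gauss_sq (hη : IsPrimitiveRoot η n) :
    ((‖∑ x : ZMod n, AddChar.zmodChar n hη.pow_eq_one (x ^ 2)‖ ^ 2 : ℝ) : ℂ) =
      n * ∑ u ∈ univ.filter (fun u : ZMod n => 2 * u = 0),
        AddChar.zmodChar n hη.pow_eq_one (u ^ 2) := by
  classical
  set ψ := AddChar.zmodChar n hη.pow_eq_one with hψ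
  have hprim : ψ.IsPrimitive := AddChar.zmodChar_primitive_of_primitive_root n hη
  have h1 : ((‖∑ x : ZMod n, ψ (x ^ 2)‖ ^ 2 : ℝ) : ℂ) =
      (∑ x : ZMod n, ψ (x ^ 2)) * (starRingEnd ℂ) (∑ y : ZMod n, ψ (y ^ 2)) := by
    rw [Complex.mul_conj, Complex.normSq_eq_norm_sq]
  rw [h1, map_sum, sum_mul_sum]
  simp_rw [← AddChar.map_neg_eq_conj, ← AddChar.map_add_eq_mul]
  rw [sum_comm]
  have h2 : ∀ y : ZMod n, ∑ x : ZMod n, ψ (x ^ 2 + -y ^ 2) =
      ∑ u : ZMod n, ψ (u ^ 2) * ψ (y * (2 * u)) := by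
    intro y
    rw [← Equiv.sum_comp (Equiv.addRight y)]
    apply sum_congr rfl
    intro u _
    rw [← AddChar.map_add_eq_mul]
    congr 1
    simp only [Equiv.coe_addRight]
    ring
  simp_rw [h2]
  rw [sum_comm]
  simp_rw [← mul_sum, AddChar.sum_mulShift _ hprim, ZMod.card]
  rw [sum_filter, mul_sum]
  apply sum_congr rfl
  intro u _
  split_ifs
  · ring
  · simp

theorem two_mul_eq_zero_iff (u : ZMod n) : 2 * u = 0 ↔ n ∣ 2 * u.val := by
  rw [← ZMod.natCast_eq_zero_iff]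
  push_cast
  rw [ZMod.natCast_zmod_val]

/-- odd order -/
theorem gauss_odd (hη : IsPrimitiveRoot η n) (hn : Odd n) :
    ‖∑ x : ZMod n, AddChar.zmodChar n hη.pow_eq_one (x ^ 2)‖ ^ 2 = n := by
  classical
  have h := gauss_sq hη
  have hf : univ.filter (fun u : ZMod n => 2 * u = 0) = {0} := by
    ext u
    rw [mem_filter, mem_singleton, two_mul_eq_zero_iff]
    constructor
    · rintro ⟨_, h1⟩
      have h2 : n ∣ u.val := (Nat.Coprime.dvd_mul_left (by
        rw [Nat.coprime_two_right]; exact hn)).1 h1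
      have h3 : u.val = 0 := Nat.eq_zero_of_dvd_of_lt h2 (ZMod.val_lt u)
      exact (ZMod.val_eq_zero u).1 h3
    · rintro rfl
      simp
  rw [hf, sum_singleton] at h
  have h4 : AddChar.zmodChar n hη.pow_eq_one (0 ^ 2 : ZMod n) = 1 := by
    rw [zero_pow two_ne_zero, AddChar.map_zero_eq_one]
  rw [h4, mul_one] at h
  exact_mod_cast h

theorem filter_even {m : ℕ} (hm : n = 2 * m) :
    univ.filter (fun u : ZMod n => 2 * u = 0) = {0, (m : ZMod n)} := by
  classical
  have hn0 : 0 < n := NeZero.pos n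
  ext u
  rw [mem_filter, mem_insert, mem_singleton, two_mul_eq_zero_iff]
  constructor
  · rintro ⟨_, h1⟩
    obtain ⟨c, hc'⟩ := h1
    have hc : u.val = m * c := by
      have h2 : n * c = 2 * (m * c) := by
        calc n * c = (2 * m) * c := by rw [← hm]
          _ = 2 * (m * c) := by ring
      omega
    have h3 := ZMod.val_lt u
    have hmpos : 0 < m := by omega
    have h4 : c < 2 := by
      by_contra hge
      have : m * 2 ≤ m * c := Nat.mul_le_mul_left m (by omega)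
      omega
    have h5 : u = ((m * c : ℕ) : ZMod n) := by rw [← hc, ZMod.natCast_zmod_val]
    interval_cases c
    · left; rw [h5]; simp
    · right; rw [h5]; simp
  · rintro (rfl | rfl)
    · simp
    · refine ⟨mem_univ _, ?_⟩
      rw [ZMod.val_natCast, Nat.mod_eq_of_lt (by omega), ← hm]

/-- even order -/
theorem gauss_even (hη : IsPrimitiveRoot η n) (hn : Even n) :
    ‖∑ x : ZMod n, AddChar.zmodChar n hη.pow_eq_one (x ^ 2)‖ ^ 2 ≤ 2 * n := by
  classical
  obtain ⟨m, hm⟩ := hn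
  have h := gauss_sq hη
  rw [filter_even (m := m) (by omega)] at h
  have h1 := congrArg norm h
  rw [Complex.norm_real, Real.norm_of_nonneg (by positivity), norm_mul, Complex.norm_natCast] at h1
  rw [h1, mul_comm]
  apply mul_le_mul_of_nonneg_right _ (Nat.cast_nonneg n)
  calc ‖∑ u ∈ ({0, (m : ZMod n)} : Finset (ZMod n)), AddChar.zmodChar n hη.pow_eq_one (u ^ 2)‖
      ≤ ∑ u ∈ ({0, (m : ZMod n)} : Finset (ZMod n)), (1 : ℝ) := by
        refine (norm_sum_le _ _).trans (sum_le_sum fun u _ => ?_)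
        rw [AddChar.norm_apply]
    _ = (({0, (m : ZMod n)} : Finset (ZMod n)).card : ℝ) := by simp
    _ ≤ 2 := by
        have := Finset.card_le_two (a := (0 : ZMod n)) (b := (m : ZMod n))
        exact_mod_cast this

/-- order congruent to 2 modulo 4 -/
theorem gauss_two (hη : IsPrimitiveRoot η n) (hn : n % 4 = 2) :
    ∑ x : ZMod n, AddChar.zmodChar n hη.pow_eq_one (x ^ 2) = 0 := by
  classical
  obtain ⟨m, hm⟩ : ∃ m, n = 2 * m := ⟨n / 2, by omega⟩
  have hodd : Odd m := by rw [Nat.odd_iff]; omega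
  have hmpos : 0 < m := by omega
  have h := gauss_sq hη
  rw [filter_even hm] at h
  have hne : (0 : ZMod n) ≠ (m : ZMod n) := by
    intro h0
    have := (ZMod.natCast_eq_zero_iff m n).1 h0.symm
    have := Nat.le_of_dvd hmpos this
    omega
  rw [sum_pair hne] at h
  have h1 : AddChar.zmodChar n hη.pow_eq_one (0 ^ 2 : ZMod n) = 1 := by
    rw [zero_pow two_ne_zero, AddChar.map_zero_eq_one]
  have h2 : AddChar.zmodChar n hη.pow_eq_one ((m : ZMod n) ^ 2) = -1 := by
    have e : ((m : ZMod n) ^ 2) = ((m ^ 2 : ℕ) : ZMod n) := by push_cast; rfl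
    rw [e, AddChar.zmodChar_apply', pow_two, pow_mul]
    have h3 : η ^ m = -1 := by
      have h4 : IsPrimitiveRoot (η ^ m) 2 := hη.pow (NeZero.pos n) (by rw [hm, mul_comm])
      exact h4.eq_neg_one_of_two_right
    rw [h3, hodd.neg_one_pow]
  rw [h1, h2] at h
  have h5 : (‖∑ x : ZMod n, AddChar.zmodChar n hη.pow_eq_one (x ^ 2)‖ ^ 2 : ℝ) = 0 := by
    have : (1 : ℂ) + -1 = 0 := by ring
    rw [this, mul_zero] at h
    exact_mod_cast h
  have h6 := pow_eq_zero_iff (two_ne_zero) |>.1 h5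
  exact norm_eq_zero.1 h6

theorem sum_range_zmod (F : ZMod n → ℂ) :
    ∑ c ∈ range n, F (c : ZMod n) = ∑ x : ZMod n, F x := by
  refine Finset.sum_bij' (fun c _ => (c : ZMod n)) (fun x _ => x.val) ?_ ?_ ?_ ?_ ?_
  · intro c _; exact mem_univ _
  · intro x _; exact mem_range.2 (ZMod.val_lt x)
  · intro c hc
    exact ZMod.val_cast_of_lt (mem_range.1 hc)
  · intro x _
    exact ZMod.natCast_zmod_val x
  · intro c _; rfl

theorem sum_range_sq (hη : IsPrimitiveRoot η n) :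
    ∑ c ∈ range n, η ^ ((c + 1) ^ 2) =
      ∑ x : ZMod n, AddChar.zmodChar n hη.pow_eq_one (x ^ 2) := by
  rw [← Equiv.sum_comp (Equiv.addRight (1 : ZMod n)),
    ← sum_range_zmod (fun x => AddChar.zmodChar n hη.pow_eq_one ((Equiv.addRight (1 : ZMod n) x) ^ 2))]
  apply sum_congr rfl
  intro c _
  rw [Equiv.coe_addRight]
  have e : ((c : ZMod n) + 1) ^ 2 = (((c + 1) ^ 2 : ℕ) : ZMod n) := by push_cast; rfl
  simp only
  rw [e, AddChar.zmodChar_apply']

end Gauss

theorem sum_range_mul {g : ℕ → ℂ} {n : ℕ} (hper : ∀ c, g (c + n) = g c) (q : ℕ) :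
    ∑ c ∈ range (n * q), g c = q * ∑ c ∈ range n, g c := by
  induction q with
  | zero => simp
  | succ q ih =>
    rw [mul_add, mul_one, add_comm, Finset.sum_range_add]
    have : ∑ x ∈ range (n * q), g (n + x) = ∑ x ∈ range (n * q), g x :=
      sum_congr rfl fun x _ => by rw [add_comm, hper]
    rw [this, ih]
    push_cast
    ring

/-- the mean does not depend on the period -/
theorem E_eq {ζ : ℂ} {h n k : ℕ} (hh : 0 < h) (hn : n ∣ h) (hk : (ζ ^ k) ^ n = 1) :
    E ζ h k = (∑ c ∈ range n, (ζ ^ k) ^ ((c + 1) ^ 2)) / n := by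
  obtain ⟨q, rfl⟩ := hn
  have hn0 : n ≠ 0 := by rintro rfl; simp at hh
  have hq0 : q ≠ 0 := by rintro rfl; simp at hh
  rw [E]
  simp_rw [pow_mul ζ k]
  rw [sum_range_mul (g := fun c => (ζ ^ k) ^ ((c + 1) ^ 2))]
  · push_cast
    have h1 : (n : ℂ) ≠ 0 := by exact_mod_cast hn0
    have h2 : (q : ℂ) ≠ 0 := by exact_mod_cast hq0
    field_simp
  · intro c
    have e : (c + n + 1) ^ 2 = (c + 1) ^ 2 + n * (2 * (c + 1) + n) := by ring
    rw [e, pow_add, pow_mul _ n, hk, one_pow, mul_one]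

section

variable {ζ : ℂ} {h k n : ℕ} (hh : 0 < h) (hζ : ζ ^ h = 1) (hn : IsPrimitiveRoot (ζ ^ k) n)

include hh hζ hn in
theorem E_gauss : n ≠ 0 ∧ E ζ h k = (∑ c ∈ range n, (ζ ^ k) ^ ((c + 1) ^ 2)) / n := by
  have hd : n ∣ h := hn.dvd_of_pow_eq_one h (by rw [← pow_mul, mul_comm, pow_mul, hζ, one_pow])
  refine ⟨?_, E_eq hh hd hn.pow_eq_one⟩
  rintro rfl
  simp at hd
  omega

include hh hζ hn in
theorem norm_E_odd (ho : Odd n) : ‖E ζ h k‖ ^ 2 = 1 / n := by
  obtain ⟨h0, h1⟩ := E_gauss hh hζ hn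
  have : NeZero n := ⟨h0⟩
  have h2 := gauss_odd hn ho
  rw [← sum_range_sq hn] at h2
  rw [h1, norm_div, div_pow, h2, Complex.norm_natCast]
  have : (n : ℝ) ≠ 0 := by exact_mod_cast h0
  field_simp

include hh hζ hn in
theorem norm_E_even (he : Even n) : ‖E ζ h k‖ ^ 2 ≤ 2 / n := by
  obtain ⟨h0, h1⟩ := E_gauss hh hζ hn
  have : NeZero n := ⟨h0⟩
  have h2 := gauss_even hn he
  rw [← sum_range_sq hn] at h2
  have h3 : (0 : ℝ) < n := by exact_mod_cast Nat.pos_of_ne_zero h0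
  rw [h1, norm_div, div_pow, Complex.norm_natCast]
  rw [div_le_div_iff₀ (by positivity) h3]
  nlinarith

include hh hζ hn in
theorem E_two (he : n % 4 = 2) : E ζ h k = 0 := by
  obtain ⟨h0, h1⟩ := E_gauss hh hζ hn
  have : NeZero n := ⟨h0⟩
  have h2 := gauss_two hn he
  rw [← sum_range_sq hn] at h2
  rw [h1, h2, zero_div]

end

end Q252.SQ
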