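import Pool.Agent.Q252.SQ4

/-!
# Comparison of the leading coefficients
-/

set_option autoImplicit false

namespace Q252.SQ

open Finset

/-- the total weight -/
noncomputable def Z : ℝ := ∑' k : ℕ, mu k

theorem Z_pos : 0 < Z :=
  summable_mu.tsum_pos mu_nonneg 1 (mu_pos (by norm_num))

theorem mu_anti {a b : ℕ} (ha : 0 < a) (hab : a ≤ b) : mu b ≤ mu a := by
  have h1 : (0 : ℝ) < a := by exact_mod_cast ha
  have h2 : (a : ℝ) ≤ b := by exact_mod_cast hab
  have h3 := Real.sqrt_pos.2 h1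
  have h4 := Real.sqrt_le_sqrt h2
  unfold mu
  apply inv_anti₀ (by positivity)
  exact mul_le_mul h2 h4 h3.le (h1.le.trans h2)

theorem mu_anti_lt {a b : ℕ} (ha : 0 < a) (hab : a < b) : mu b < mu a := by
  have h1 : (0 : ℝ) < a := by exact_mod_cast ha
  have h2 : (a : ℝ) < b := by exact_mod_cast hab
  have h3 := Real.sqrt_pos.2 h1
  have h4 := Real.sqrt_le_sqrt h2.le
  unfold mu
  apply inv_strictAnti₀ (by positivity)
  exact mul_lt_mul h2 h4 h3 (h1.le.trans h2.le)

theorem mu_le_one {a : ℕ} (ha : 0 < a) : mu a ≤ 1 := by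
  have := mu_anti (a := 1) (by norm_num) ha
  simpa [mu] using this

theorem tsum_mul_dvd {N : ℕ} (hN : 0 < N) :
    Summable (fun k : ℕ => if N ∣ k then mu k else 0) ∧
      ∑' k : ℕ, (if N ∣ k then mu k else 0) = mu N * Z := by
  have hinj : Function.Injective (fun j : ℕ => N * j) := fun a b h =>
    Nat.eq_of_mul_eq_mul_left hN h
  refine ⟨summable_mu.of_nonneg_of_le (fun k => ?_) (fun k => ?_), ?_⟩
  · split_ifs
    · exact mu_nonneg k
    · exact le_rfl
  · split_ifs
    · exact le_rfl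
    · exact mu_nonneg k
  · rw [← hinj.tsum_eq]
    · simp only [dvd_mul_right, if_true]
      rw [Z, ← tsum_mul_left]
      exact tsum_congr fun k => mu_mul N k
    · intro k hk
      rw [Function.mem_support] at hk
      by_contra h
      apply hk
      rw [if_neg]
      rintro ⟨c, rfl⟩
      exact h ⟨c, rfl⟩

/-- the absolute majorant of the leading coefficient -/
noncomputable def B (ζ : ℂ) (h : ℕ) : ℝ := ∑' k : ℕ, mu k * ‖E ζ h k‖

section

variable {h : ℕ} (hh : 0 < h)

include hh in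
theorem summable_B {ζ : ℂ} (hζ : ζ ^ h = 1) : Summable (fun k : ℕ => mu k * ‖E ζ h k‖) :=
  summable_mu.of_nonneg_of_le (fun k => mul_nonneg (mu_nonneg k) (norm_nonneg _))
    (fun k => mul_le_of_le_one_right (mu_nonneg k) (norm_E_le_one hh hζ k))

include hh in
theorem re_Ac_le {w ζ : ℂ} (hw : ‖w‖ ≤ 1) (hζ : ζ ^ h = 1) : (Ac w ζ h).re ≤ B ζ h := by
  refine (Complex.re_le_norm _).trans ?_
  apply tsum_of_norm_bounded (summable_B hh hζ).hasSum
  intro k
  rw [norm_mul, norm_mul, norm_pow, Complex.norm_real, Real.norm_of_nonneg (mu_nonneg k)]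
  apply mul_le_mul_of_nonneg_left _ (mu_nonneg k)
  exact mul_le_of_le_one_left (norm_nonneg _) (pow_le_one₀ (norm_nonneg _) hw)

include hh in
theorem B_le_one {ζ : ℂ} (hζ : ζ ^ h = 1) : B ζ h ≤ Z :=
  (summable_B hh hζ).tsum_le_tsum
    (fun k => mul_le_of_le_one_right (mu_nonneg k) (norm_E_le_one hh hζ k)) summable_mu

/-- a bound from the behaviour on non-multiples of `N` -/
theorem B_le_of {ζ : ℂ} (hh : 0 < h) (hζ : ζ ^ h = 1) {N : ℕ} (hN : 0 < N) {γ : ℝ}
    (hγ : ∀ k, ¬ N ∣ k → ‖E ζ h k‖ ≤ γ) : B ζ h ≤ (mu N + (1 - mu N) * γ) * Z := by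
  obtain ⟨h1, h2⟩ := tsum_mul_dvd hN
  have h3 : Summable (fun k : ℕ => γ * mu k + (1 - γ) * (if N ∣ k then mu k else 0)) :=
    (summable_mu.mul_left γ).add (h1.mul_left _)
  calc B ζ h ≤ ∑' k : ℕ, (γ * mu k + (1 - γ) * (if N ∣ k then mu k else 0)) := by
        apply (summable_B hh hζ).tsum_le_tsum _ h3
        intro k
        split_ifs with hk
        · have := mul_le_of_le_one_right (mu_nonneg k) (norm_E_le_one hh hζ k)
          linarith
        · have := mul_le_mul_of_nonneg_left (hγ k hk) (mu_nonneg k)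
          linarith
    _ = (mu N + (1 - mu N) * γ) * Z := by
        rw [(summable_mu.mul_left γ).tsum_add (h1.mul_left _), tsum_mul_left, tsum_mul_left, h2]
        change γ * Z + _ = _
        ring

theorem E_two_mul (ζ : ℂ) (h k : ℕ) : E ζ h (2 * k) = E (ζ ^ 2) h k := by
  unfold E
  congr 1
  apply sum_congr rfl
  intro c _
  rw [← pow_mul]
  congr 1
  ring

theorem tsum_mu_even : ∑' k : ℕ, mu (2 * k) = mu 2 * Z := by
  simp_rw [mu_mul]
  rw [tsum_mul_left]
  rfl

theorem summable_mu_odd : Summable (fun k : ℕ => mu (2 * k + 1)) :=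
  summable_mu.comp_injective (i := fun k : ℕ => 2 * k + 1) fun a b hab => by
    simp only at hab
    omega

theorem summable_mu_even : Summable (fun k : ℕ => mu (2 * k)) :=
  summable_mu.comp_injective (i := fun k : ℕ => 2 * k) fun a b hab => by
    simp only at hab
    omega

theorem tsum_mu_odd : ∑' k : ℕ, mu (2 * k + 1) = (1 - mu 2) * Z := by
  have h1 := tsum_even_add_odd summable_mu_even summable_mu_odd
  rw [tsum_mu_even] at h1
  have : (∑' k, mu k) = Z := rfl
  rw [this] at h1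
  linarith

include hh in
/-- the recursion for even orders -/
theorem B_split {ζ : ℂ} (hζ : ζ ^ h = 1) {δ : ℝ} (hδ : ∀ k, ‖E ζ h (2 * k + 1)‖ ≤ δ) :
    B ζ h ≤ mu 2 * B (ζ ^ 2) h + (1 - mu 2) * δ * Z := by
  have h1 : Summable (fun k : ℕ => mu (2 * k) * ‖E ζ h (2 * k)‖) :=
    (summable_B hh hζ).comp_injective (i := fun k : ℕ => 2 * k) fun a b hab => by
      simp only at hab
      omega
  have h2 : Summable (fun k : ℕ => mu (2 * k + 1) * ‖E ζ h (2 * k + 1)‖) :=
    (summable_B hh hζ).comp_injective (i := fun k : ℕ => 2 * k + 1) fun a b hab => by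
      simp only at hab
      omega
  have h3 := tsum_even_add_odd (f := fun k : ℕ => mu k * ‖E ζ h k‖) h1 h2
  have h4 : ∑' k : ℕ, mu (2 * k) * ‖E ζ h (2 * k)‖ = mu 2 * B (ζ ^ 2) h := by
    rw [B, ← tsum_mul_left]
    apply tsum_congr
    intro k
    rw [mu_mul, E_two_mul]
    ring
  have h5 : ∑' k : ℕ, mu (2 * k + 1) * ‖E ζ h (2 * k + 1)‖ ≤ (1 - mu 2) * δ * Z := by
    calc ∑' k : ℕ, mu (2 * k + 1) * ‖E ζ h (2 * k + 1)‖ ≤ ∑' k : ℕ, mu (2 * k + 1) * δ :=
          h2.tsum_le_tsum (fun k => mul_le_mul_of_nonneg_left (hδ k) (mu_nonneg _))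
            (summable_mu_odd.mul_right _)
      _ = (1 - mu 2) * δ * Z := by
          rw [tsum_mul_right, tsum_mu_odd]
          ring
  have h6 : B ζ h = ∑' k : ℕ, mu (2 * k) * ‖E ζ h (2 * k)‖ +
      ∑' k : ℕ, mu (2 * k + 1) * ‖E ζ h (2 * k + 1)‖ := h3.symm
  rw [h6, h4]
  linarith

theorem mu_two : mu 2 = √2 / 4 := by
  unfold mu
  have h := Real.mul_self_sqrt (show (0 : ℝ) ≤ 2 by norm_num)
  have h0 : 0 < √(2 : ℝ) := Real.sqrt_pos.2 (by norm_num)
  push_cast
  rw [inv_eq_one_div, div_eq_div_iff (by positivity) (by norm_num)]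
  nlinarith

theorem mu_three : mu 3 = √3 / 9 := by
  unfold mu
  have h := Real.mul_self_sqrt (show (0 : ℝ) ≤ 3 by norm_num)
  have h0 : 0 < √(3 : ℝ) := Real.sqrt_pos.2 (by norm_num)
  push_cast
  rw [inv_eq_one_div, div_eq_div_iff (by positivity) (by norm_num)]
  nlinarith

theorem sqrt_two_bd : 1.414 < √(2 : ℝ) ∧ √(2 : ℝ) < 1.4143 := by
  constructor
  · rw [Real.lt_sqrt (by norm_num)]; norm_num
  · rw [Real.sqrt_lt' (by norm_num)]; norm_num

theorem sqrt_three_bd : 1.732 < √(3 : ℝ) ∧ √(3 : ℝ) < 1.7321 := by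
  constructor
  · rw [Real.lt_sqrt (by norm_num)]; norm_num
  · rw [Real.sqrt_lt' (by norm_num)]; norm_num

theorem le_of_sq {x δ : ℝ} (hx : 0 ≤ x) (hδ : 0 ≤ δ) (h : x ^ 2 ≤ δ ^ 2) : x ≤ δ :=
  (sq_le_sq₀ hx hδ).1 h

/-- the order of an odd power -/
theorem order_odd_pow {ζ : ℂ} {N : ℕ} (hN : orderOf ζ = N) (hN0 : 0 < N) {k : ℕ} (hk : Odd k) :
    ∃ g q : ℕ, Odd g ∧ N = g * q ∧ 0 < q ∧ IsPrimitiveRoot (ζ ^ k) q := by
  have hk0 : k ≠ 0 := by rintro rfl; simp at hk
  refine ⟨N.gcd k, N / N.gcd k, ?_, ?_, ?_, ?_⟩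
  · exact Odd.of_dvd_nat hk (Nat.gcd_dvd_right N k)
  · exact (Nat.mul_div_cancel' (Nat.gcd_dvd_left N k)).symm
  · exact Nat.div_pos (Nat.le_of_dvd hN0 (Nat.gcd_dvd_left N k)) (Nat.gcd_pos_of_pos_left k hN0)
  · have h1 := orderOf_pow' ζ hk0
    rw [hN] at h1
    have h2 := IsPrimitiveRoot.orderOf (ζ ^ k)
    rwa [h1] at h2

include hh in
/-- **even orders** -/
theorem B_even : ∀ N : ℕ, ∀ ζ : ℂ, ζ ^ h = 1 → orderOf ζ = N → Even N →
    B ζ h ≤ (√2 / 2 - 1 / 8) * Z := by
  intro N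
  induction N using Nat.strong_induction_on with
  | _ N ih =>
    intro ζ hζ hN heven
    have hZ := Z_pos
    obtain ⟨hs1, hs2⟩ := sqrt_two_bd
    have hsq : √(2 : ℝ) * √2 = 2 := Real.mul_self_sqrt (by norm_num)
    have hNd : N ∣ h := by rw [← hN]; exact orderOf_dvd_of_pow_eq_one hζ
    have hN0 : 0 < N := Nat.pos_of_dvd_of_pos hNd hh
    have hζ2 : (ζ ^ 2) ^ h = 1 := by rw [← pow_mul, mul_comm, pow_mul, hζ, one_pow]
    have hord2 : orderOf (ζ ^ 2) = N / 2 := by
      rw [orderOf_pow' ζ two_ne_zero, hN]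
      congr 1
      exact Nat.gcd_eq_right heven.two_dvd
    -- order 2 mod 4
    have h2case : ∀ ξ : ℂ, ξ ^ h = 1 → (orderOf ξ) % 4 = 2 → B ξ h ≤ √2 / 4 * Z := by
      intro ξ hξ hM
      have hξ2 : (ξ ^ 2) ^ h = 1 := by rw [← pow_mul, mul_comm, pow_mul, hξ, one_pow]
      have h1 := B_split hh hξ (δ := 0) (by
        intro k
        obtain ⟨g, q, hg, hgq, hq, hprim⟩ := order_odd_pow (ζ := ξ) rfl (by omega)
          (k := 2 * k + 1) ⟨k, rfl⟩
        rw [E_two hh hξ hprim, norm_zero]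
        obtain ⟨g', rfl⟩ := hg
        have e : (2 * g' + 1) * q = 2 * (g' * q) + q := by ring
        rw [e] at hgq
        -- q even, not divisible by 4
        rcases Nat.even_or_odd q with ⟨q', hq'⟩ | ⟨q', hq'⟩
        · have e2 : g' * q = 2 * (g' * q') := by rw [hq']; ring
          omega
        · omega)
      have h2 := B_le_one hh hξ2
      rw [mu_two] at h1
      nlinarith
    by_cases h4 : N % 4 = 2
    · have h1 := h2case ζ hζ (by rw [hN]; exact h4)
      nlinarith
    · obtain ⟨N', hN'⟩ := heven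
      have h4' : 4 ∣ N := by omega
      have hodd : ∀ k, ∀ d, d = 4 ∨ d = 8 → d ∣ N → ‖E ζ h (2 * k + 1)‖ ^ 2 ≤ 2 / d := by
        intro k d hd hdN
        obtain ⟨g, q, hg, hgq, hq, hprim⟩ := order_odd_pow hN hN0 (k := 2 * k + 1) ⟨k, rfl⟩
        have hdq : d ∣ q := by
          rw [hgq] at hdN
          refine Nat.Coprime.dvd_of_dvd_mul_left ?_ hdN
          have h2 : Nat.Coprime 2 g := by rw [Nat.coprime_two_left]; exact hg
          rcases hd with rfl | rfl
          · have : Nat.Coprime (2 ^ 2) g := Nat.Coprime.pow_left 2 h2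
            simpa using this
          · have : Nat.Coprime (2 ^ 3) g := Nat.Coprime.pow_left 3 h2
            simpa using this
        have hqe : Even q := by
          rw [Nat.even_iff]
          rcases hd with rfl | rfl <;> omega
        have hqd : (d : ℝ) ≤ q := by exact_mod_cast Nat.le_of_dvd hq hdq
        have hd0 : (0 : ℝ) < d := by rcases hd with rfl | rfl <;> norm_num
        refine (norm_E_even hh hζ hprim hqe).trans ?_
        exact div_le_div_of_nonneg_left (by norm_num) hd0 hqd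
      by_cases h8 : 8 ∣ N
      · have h1 := B_split hh hζ (δ := 1 / 2) (by
          intro k
          apply le_of_sq (norm_nonneg _) (by norm_num)
          refine (hodd k 8 (Or.inr rfl) h8).trans ?_
          norm_num)
        have h2 := ih (N / 2) (by omega) (ζ ^ 2) hζ2 hord2 (by
          rw [Nat.even_iff]; omega)
        rw [mu_two] at h1
        nlinarith
      · have h1 := B_split hh hζ (δ := √2 / 2) (by
          intro k
          apply le_of_sq (norm_nonneg _) (by positivity)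
          refine (hodd k 4 (Or.inl rfl) h4').trans ?_
          push_cast
          nlinarith)
        have h2 := h2case (ζ ^ 2) hζ2 (by rw [hord2]; omega)
        rw [mu_two] at h1
        have h3 : √2 / 4 * B (ζ ^ 2) h ≤ √2 / 4 * (√2 / 4 * Z) :=
          mul_le_mul_of_nonneg_left h2 (by positivity)
        have h4 : √2 / 4 * (√2 / 4 * Z) = 1 / 8 * Z := by
          have : √2 / 4 * (√2 / 4 * Z) = (√2 * √2) / 16 * Z := by ring
          rw [this, hsq]; ring
        have h5 : (1 - √2 / 4) * (√2 / 2) * Z = (√2 / 2 - 1 / 4) * Z := by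
          have : (1 - √2 / 4) * (√2 / 2) * Z = (√2 / 2 - (√2 * √2) / 8) * Z := by ring
          rw [this, hsq]; ring
        rw [h4] at h3
        rw [h5] at h1
        linarith

end

end Q252.SQ
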