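import Pool.Agent.Q252.SQ5

/-!
# The dominating root of unity and its leading coefficient
-/

set_option autoImplicit false

namespace Q252.SQ

open Finset

section

variable {h : ℕ} (hh : 0 < h)

include hh in
theorem B_odd {ζ : ℂ} (hζ : ζ ^ h = 1) (hodd : Odd (orderOf ζ)) (h1 : orderOf ζ ≠ 1)
    (h3 : orderOf ζ ≠ 3) : B ζ h ≤ 0.594 * Z := by
  have hZ := Z_pos
  set N := orderOf ζ with hN
  have hNd : N ∣ h := orderOf_dvd_of_pow_eq_one hζ
  have hN0 : 0 < N := Nat.pos_of_dvd_of_pos hNd hh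
  have key : ∀ k, ¬ N ∣ k → ∃ n : ℕ, n ≠ 1 ∧ n ∣ N ∧ Odd n ∧ ‖E ζ h k‖ ^ 2 = 1 / n := by
    intro k hk
    have hk0 : k ≠ 0 := by rintro rfl; exact hk (dvd_zero N)
    have e := orderOf_pow' ζ hk0
    rw [← hN] at e
    have hprim := IsPrimitiveRoot.orderOf (ζ ^ k)
    rw [e] at hprim
    have hnd : N / N.gcd k ∣ N := Nat.div_dvd_of_dvd (Nat.gcd_dvd_left N k)
    have hno : Odd (N / N.gcd k) := Odd.of_dvd_nat hodd hnd
    refine ⟨N / N.gcd k, ?_, hnd, hno, norm_E_odd hh hζ hprim hno⟩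
    intro h5
    apply hk
    have h6 : N = N.gcd k := by
      have := Nat.div_mul_cancel (Nat.gcd_dvd_left N k)
      rw [h5, one_mul] at this
      exact this.symm
    rw [h6]
    exact Nat.gcd_dvd_right N k
  by_cases h3N : 3 ∣ N
  · have hN9 : 9 ≤ N := by
      obtain ⟨c, hc⟩ := h3N
      rw [hc] at hodd h3
      rcases hodd with ⟨d, hd⟩
      omega
    obtain ⟨hs1, hs2⟩ := sqrt_three_bd
    have hsq : √(3 : ℝ) * √3 = 3 := Real.mul_self_sqrt (by norm_num)
    have h4 := B_le_of (γ := √3 / 3) hh hζ hN0 (by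
      intro k hk
      obtain ⟨n, hn1, hnd, hno, he⟩ := key k hk
      apply le_of_sq (norm_nonneg _) (by positivity)
      rw [he]
      have hn3 : (3 : ℝ) ≤ n := by
        have : 3 ≤ n := by
          rcases hno with ⟨d, hd⟩
          omega
        exact_mod_cast this
      rw [div_le_iff₀ (by linarith)]
      nlinarith)
    have h5 : mu N ≤ 1 / 27 := by
      refine (mu_anti (by norm_num) hN9).trans ?_
      have : (9 : ℕ) = 3 * 3 := by norm_num
      rw [this, mu_mul, mu_three]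
      nlinarith
    have h6 := mu_nonneg N
    refine h4.trans ?_
    apply mul_le_mul_of_nonneg_right _ hZ.le
    nlinarith
  · have hN5 : 5 ≤ N := by
      rcases hodd with ⟨d, hd⟩
      have : N ≠ 3 := h3
      omega
    have h4 := B_le_of (γ := 0.448) hh hζ hN0 (by
      intro k hk
      obtain ⟨n, hn1, hnd, hno, he⟩ := key k hk
      apply le_of_sq (norm_nonneg _) (by norm_num)
      rw [he]
      have hn5 : (5 : ℝ) ≤ n := by
        have : 5 ≤ n := by
          rcases hno with ⟨d, hd⟩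
          have : n ≠ 3 := by rintro rfl; exact h3N hnd
          omega
        exact_mod_cast this
      rw [div_le_iff₀ (by linarith)]
      nlinarith)
    have h5 : mu N ≤ 1 / 11 := by
      refine (mu_anti (by norm_num) hN5).trans ?_
      unfold mu
      have : (2.2 : ℝ) ≤ √5 := Real.le_sqrt_of_sq_le (by norm_num)
      rw [inv_eq_one_div]
      apply one_div_le_one_div_of_le (by norm_num)
      push_cast
      linarith
    have h6 := mu_nonneg N
    refine h4.trans ?_
    apply mul_le_mul_of_nonneg_right _ hZ.le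
    nlinarith

variable {w : ℂ} (hw : IsPrimitiveRoot w 3)

include hw in
theorem w_sum : 1 + w + w ^ 2 = 0 := by
  have h1 := hw.geom_sum_eq_zero (by norm_num)
  simpa [Finset.sum_range_succ] using h1

include hw in
theorem w_norm : ‖w‖ = 1 := Complex.norm_eq_one_of_pow_eq_one hw.pow_eq_one (by norm_num)

include hw in
theorem w_sq : w ^ 2 = (starRingEnd ℂ) w := by
  have h1 : w * (starRingEnd ℂ) w = 1 := by
    rw [Complex.mul_conj, Complex.normSq_eq_norm_sq, w_norm hw]
    simp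
  have h2 : w * w ^ 2 = 1 := by rw [← pow_succ', hw.pow_eq_one]
  have h3 : w ≠ 0 := hw.ne_zero (by norm_num)
  exact mul_left_cancel₀ h3 (h2.trans h1.symm)

include hw in
theorem w_re : w.re = -1 / 2 := by
  have h1 := congrArg Complex.re (w_sum hw)
  rw [w_sq hw] at h1
  simp at h1
  linarith

include hw in
/-- the real part of `w^k` -/
theorem w_pow_re (k : ℕ) : (w ^ k).re = if 3 ∣ k then 1 else -1 / 2 := by
  have h3 := hw.pow_eq_one
  rw [pow_eq_pow_mod k h3]
  have hk : k % 3 < 3 := Nat.mod_lt _ (by norm_num)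
  split_ifs with hd
  · rw [Nat.mod_eq_zero_of_dvd hd]; simp
  · have h0 : k % 3 ≠ 0 := fun h0 => hd (Nat.dvd_of_mod_eq_zero h0)
    have : k % 3 = 1 ∨ k % 3 = 2 := by omega
    rcases this with h1 | h1
    · rw [h1, pow_one, w_re hw]
    · rw [h1, w_sq hw, Complex.conj_re, w_re hw]

include hw in
theorem w_pow_re_le (k : ℕ) : (w ^ k).re ≤ 1 := by
  rw [w_pow_re hw]; split_ifs <;> norm_num

include hh hw in
theorem term_main (h3 : 3 ∣ h) (k : ℕ) : w ^ k * E (w ^ 2) h k = (w ^ k + 2) / 3 := by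
  have hw3 := hw.pow_eq_one
  have hx : (w ^ k) ^ 3 = 1 := by rw [← pow_mul, mul_comm, pow_mul, hw3, one_pow]
  have h1 : ((w ^ 2) ^ k) ^ 3 = 1 := by
    rw [← pow_mul, ← pow_mul, show 2 * (k * 3) = 3 * (2 * k) by ring, pow_mul, hw3, one_pow]
  rw [E_eq hh h3 h1]
  have e : (w ^ 2) ^ k = (w ^ k) ^ 2 := by rw [← pow_mul, ← pow_mul, mul_comm]
  rw [e]
  set x := w ^ k
  simp only [Finset.sum_range_succ, Finset.sum_range_zero]
  push_cast
  have e1 : (x ^ 2) ^ 1 = x ^ 2 := by ring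
  have e2 : (x ^ 2) ^ 4 = x ^ 2 := by
    have : (x ^ 2) ^ 4 = (x ^ 3) ^ 2 * x ^ 2 := by ring
    rw [this, hx]; ring
  have e3 : (x ^ 2) ^ 9 = 1 := by
    have : (x ^ 2) ^ 9 = (x ^ 3) ^ 6 := by ring
    rw [this, hx]; ring
  rw [e1, e2, e3]
  have e4 : x * ((0 + x ^ 2 + x ^ 2 + 1) / 3) = (2 * x ^ 3 + x) / 3 := by ring
  rw [e4, hx]
  ring

include hh hw in
theorem term_w (h3 : 3 ∣ h) (k : ℕ) : w ^ k * E w h k = (w ^ k + 2 * (w ^ (2 * k))) / 3 := by
  have hw3 := hw.pow_eq_one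
  have hx : (w ^ k) ^ 3 = 1 := by rw [← pow_mul, mul_comm, pow_mul, hw3, one_pow]
  rw [E_eq hh h3 hx]
  have e : w ^ (2 * k) = (w ^ k) ^ 2 := by rw [← pow_mul, mul_comm]
  rw [e]
  set x := w ^ k
  simp only [Finset.sum_range_succ, Finset.sum_range_zero]
  push_cast
  have e1 : x ^ 1 = x := by ring
  have e2 : x ^ 4 = x := by
    have : x ^ 4 = (x ^ 3) * x := by ring
    rw [this, hx]; ring
  have e3 : x ^ 9 = 1 := by
    have : x ^ 9 = (x ^ 3) ^ 3 := by ring
    rw [this, hx]; ring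
  rw [e1, e2, e3]
  ring

include hh in
theorem E_one (k : ℕ) : E 1 h k = 1 := by
  have : (h : ℂ) ≠ 0 := by exact_mod_cast hh.ne'
  simp [E, this]

include hh hw in
theorem w2_pow (h3 : 3 ∣ h) : (w ^ 2) ^ h = 1 := by
  obtain ⟨c, rfl⟩ := h3
  rw [← pow_mul, show 2 * (3 * c) = 3 * (2 * c) by ring, pow_mul, hw.pow_eq_one, one_pow]

include hh hw in
theorem w_pow_h (h3 : 3 ∣ h) : w ^ h = 1 := by
  obtain ⟨c, rfl⟩ := h3
  rw [pow_mul, hw.pow_eq_one, one_pow]

include hh hw in
theorem re_tsum {ζ : ℂ} (hζ : ζ ^ h = 1) :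
    (Ac w ζ h).re = ∑' k : ℕ, mu k * (w ^ k * E ζ h k).re := by
  rw [Ac, Complex.re_tsum (summable_Ac (w_norm hw).le hh hζ)]
  apply tsum_congr
  intro k
  rw [Complex.re_ofReal_mul]

include hh hw in
theorem summable_re {ζ : ℂ} (hζ : ζ ^ h = 1) :
    Summable (fun k : ℕ => mu k * (w ^ k * E ζ h k).re) := by
  have h1 := Complex.hasSum_re (summable_Ac (w_norm hw).le hh hζ).hasSum |>.summable
  refine h1.congr fun k => ?_
  rw [Complex.re_ofReal_mul]

include hh hw in
theorem re_main (h3 : 3 ∣ h) : (Ac w (w ^ 2) h).re = (1 / 2 + √3 / 18) * Z := by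
  rw [re_tsum hh hw (w2_pow hh hw h3)]
  obtain ⟨h1, h2⟩ := tsum_mul_dvd (N := 3) (by norm_num)
  have e : ∀ k : ℕ, mu k * (w ^ k * E (w ^ 2) h k).re =
      1 / 2 * mu k + 1 / 2 * (if 3 ∣ k then mu k else 0) := by
    intro k
    rw [term_main hh hw h3]
    have : ((w ^ k + 2) / 3).re = ((w ^ k).re + 2) / 3 := by
      have h4 : (w ^ k + 2) / 3 = ((1 / 3 : ℝ) : ℂ) * (w ^ k + 2) := by push_cast; ring
      rw [h4, Complex.re_ofReal_mul, Complex.add_re]
      norm_num
      ring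
    rw [this, w_pow_re hw]
    split_ifs <;> ring
  simp_rw [e]
  rw [(summable_mu.mul_left _).tsum_add (h1.mul_left _), tsum_mul_left, tsum_mul_left, h2, mu_three]
  change 1 / 2 * Z + _ = _
  ring

include hh hw in
/-- **the root `w²` dominates** -/
theorem re_lt (h3 : 3 ∣ h) {ζ : ℂ} (hζ : ζ ^ h = 1) (hne : ζ ≠ w ^ 2) :
    (Ac w ζ h).re < (Ac w (w ^ 2) h).re := by
  have hZ := Z_pos
  have hN0 : 0 < orderOf ζ :=
    Nat.pos_of_dvd_of_pos (orderOf_dvd_of_pow_eq_one hζ) hh
  obtain ⟨hs1, hs2⟩ := sqrt_three_bd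
  obtain ⟨ht1, ht2⟩ := sqrt_two_bd
  by_cases hc : orderOf ζ = 1 ∨ orderOf ζ = 3
  · have hζ3 : ζ ^ 3 = 1 := by
      have h4 := pow_orderOf_eq_one ζ
      rcases hc with hc | hc
      · rw [hc, pow_one] at h4; rw [h4]; simp
      · rw [hc] at h4; exact h4
    obtain ⟨i, hi, hiw⟩ := hw.eq_pow_of_pow_eq_one hζ3
    have hmain : ∀ k : ℕ, ((w ^ k * E (w ^ 2) h k)).re = ((w ^ k).re + 2) / 3 := by
      intro k
      rw [term_main hh hw h3]
      have h4 : (w ^ k + 2) / 3 = ((1 / 3 : ℝ) : ℂ) * (w ^ k + 2) := by push_cast; ring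
      rw [h4, Complex.re_ofReal_mul, Complex.add_re]
      norm_num
      ring
    rw [re_tsum hh hw hζ, re_tsum hh hw (w2_pow hh hw h3)]
    have hS := summable_re hh hw (w2_pow hh hw h3)
    have hS' := summable_re hh hw hζ
    have hw1 : w.re = -1 / 2 := w_re hw
    have hm1 : 0 < mu 1 := mu_pos (by norm_num)
    interval_cases i
    · -- ζ = 1
      have hζ1 : ζ = 1 := by rw [← hiw, pow_zero]
      subst hζ1
      apply hS'.tsum_lt_tsum (i := 1) _ _ hS
      · intro k
        apply mul_le_mul_of_nonneg_left _ (mu_nonneg k)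
        rw [hmain, E_one hh, mul_one]
        have := w_pow_re_le hw k
        linarith
      · apply mul_lt_mul_of_pos_left _ hm1
        rw [hmain, E_one hh, mul_one, pow_one, hw1]
        norm_num
    · -- ζ = w
      have hζ1 : ζ = w := by rw [← hiw, pow_one]
      subst hζ1
      have hw' : ∀ k : ℕ, (ζ ^ k * E ζ h k).re = ((ζ ^ k).re + 2 * (ζ ^ (2 * k)).re) / 3 := by
        intro k
        rw [term_w hh hw h3]
        have h4 : (ζ ^ k + 2 * ζ ^ (2 * k)) / 3 =
            ((1 / 3 : ℝ) : ℂ) * (ζ ^ k + ((2 : ℝ) : ℂ) * ζ ^ (2 * k)) := by push_cast; ring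
        rw [h4, Complex.re_ofReal_mul, Complex.add_re, Complex.re_ofReal_mul]
        ring
      apply hS'.tsum_lt_tsum (i := 1) _ _ hS
      · intro k
        apply mul_le_mul_of_nonneg_left _ (mu_nonneg k)
        rw [hmain, hw']
        have := w_pow_re_le hw (2 * k)
        linarith
      · apply mul_lt_mul_of_pos_left _ hm1
        rw [hmain, hw', mul_one, pow_one, w_sq hw, Complex.conj_re, hw1]
        norm_num
    · exact absurd hiw.symm hne
  · push Not at hc
    have h4 := re_Ac_le (ζ := ζ) hh (w_norm hw).le hζ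
    rw [re_main hh hw h3]
    rcases Nat.even_or_odd (orderOf ζ) with he | ho
    · have h5 := B_even hh (orderOf ζ) ζ hζ rfl he
      nlinarith
    · have h5 := B_odd hh hζ ho hc.1 hc.2
      nlinarith

include hh hw in
theorem re_main_pos (h3 : 3 ∣ h) : 0 < (Ac w (w ^ 2) h).re := by
  rw [re_main hh hw h3]
  have := Z_pos
  positivity

include hh hw in
/-- the leading coefficient at `w²` is not real -/
theorem im_main_pos (h3 : 3 ∣ h) (him : 0 < w.im) : 0 < (Ac w (w ^ 2) h).im := by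
  have hS0 := summable_Ac (w_norm hw).le hh (w2_pow hh hw h3)
  have e : ∀ k : ℕ, ((mu k : ℂ) * (w ^ k * E (w ^ 2) h k)).im = mu k * (w ^ k).im / 3 := by
    intro k
    rw [Complex.im_ofReal_mul, term_main hh hw h3]
    have h4 : (w ^ k + 2) / 3 = ((1 / 3 : ℝ) : ℂ) * (w ^ k + 2) := by push_cast; ring
    rw [h4, Complex.im_ofReal_mul, Complex.add_im]
    norm_num
    ring
  have hS : Summable (fun k : ℕ => mu k * (w ^ k).im / 3) :=
    (Complex.hasSum_im hS0.hasSum).summable.congr e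
  rw [Ac, Complex.im_tsum hS0]
  simp_rw [e]
  rw [Nat.sumByResidueClasses hS 3]
  have h0 : (Finset.univ : Finset (ZMod 3)) = {0, 1, 2} := by decide
  rw [h0, Finset.sum_insert (by decide), Finset.sum_insert (by decide), Finset.sum_singleton]
  have hw3 := hw.pow_eq_one
  have i0 : ∀ m : ℕ, (w ^ ((0 : ZMod 3).val + 3 * m)).im = 0 := by
    intro m
    have : (0 : ZMod 3).val = 0 := rfl
    rw [this, zero_add, pow_mul, hw3, one_pow, Complex.one_im]
  have i1 : ∀ m : ℕ, (w ^ ((1 : ZMod 3).val + 3 * m)).im = w.im := by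
    intro m
    have : (1 : ZMod 3).val = 1 := rfl
    rw [this, pow_add, pow_mul, hw3, one_pow, mul_one, pow_one]
  have i2 : ∀ m : ℕ, (w ^ ((2 : ZMod 3).val + 3 * m)).im = -w.im := by
    intro m
    have : (2 : ZMod 3).val = 2 := rfl
    rw [this, pow_add, pow_mul, hw3, one_pow, mul_one, w_sq hw, Complex.conj_im]
  simp_rw [i0, i1, i2]
  have v1 : (1 : ZMod 3).val = 1 := rfl
  have v2 : (2 : ZMod 3).val = 2 := rfl
  simp_rw [v1, v2]
  have s1 : Summable (fun m : ℕ => mu (1 + 3 * m)) :=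
    summable_mu.comp_injective (i := fun m : ℕ => 1 + 3 * m) fun a b hab => by
      simp only at hab
      omega
  have s2 : Summable (fun m : ℕ => mu (2 + 3 * m)) :=
    summable_mu.comp_injective (i := fun m : ℕ => 2 + 3 * m) fun a b hab => by
      simp only at hab
      omega
  have hlt : ∑' m : ℕ, mu (2 + 3 * m) < ∑' m : ℕ, mu (1 + 3 * m) :=
    s2.tsum_lt_tsum (i := 0) (fun m => mu_anti (by omega) (by omega))
      (mu_anti_lt (by norm_num) (by norm_num)) s1
  have t1 : ∑' m : ℕ, mu (1 + 3 * m) * w.im / 3 = (∑' m : ℕ, mu (1 + 3 * m)) * (w.im / 3) := by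
    rw [← tsum_mul_right]
    exact tsum_congr fun m => by ring
  have t2 : ∑' m : ℕ, mu (2 + 3 * m) * -w.im / 3 = -((∑' m : ℕ, mu (2 + 3 * m)) * (w.im / 3)) := by
    rw [← tsum_mul_right, ← tsum_neg]
    exact tsum_congr fun m => by ring
  rw [t1, t2]
  simp only [mul_zero, zero_div, tsum_zero, zero_add]
  nlinarith

end

end Q252.SQ
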