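import Pool.Agent.Q252.SQ6

/-!
# The weighted count of partitions into squares rotates
-/

set_option autoImplicit false

namespace Q252.SQ

open Finset Filter Topology Q261.PartGen

/-- the cube root of unity -/
noncomputable def om : ℂ := Complex.exp (2 * Real.pi * Complex.I / 3)

theorem om_prim : IsPrimitiveRoot om 3 := by
  have h := Complex.isPrimitiveRoot_exp 3 (by norm_num)
  rw [om]
  convert h using 3
  norm_num

theorem om_im : 0 < om.im := by
  have h : om = Complex.exp (((2 * Real.pi / 3 : ℝ) : ℂ) * Complex.I) := by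
    rw [om]
    congr 1
    push_cast
    ring
  rw [h, Complex.exp_ofReal_mul_I_im]
  apply Real.sin_pos_of_pos_of_lt_pi
  · have := Real.pi_pos; positivity
  · have := Real.pi_pos; linarith

/-- `√t·f(t) → c < 0` implies `f(t) → -∞` as `t → 0+` -/
theorem tendsto_atTop_of_sqrt {f : ℝ → ℝ} {c : ℝ} (hc : 0 < c)
    (hf : Tendsto (fun t => √t * f t) (𝓝[>] 0) (𝓝 c)) : Tendsto f (𝓝[>] 0) atTop := by
  have h1 : Tendsto (fun t : ℝ => √t) (𝓝[>] 0) (𝓝[>] 0) := by
    rw [tendsto_nhdsWithin_iff]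
    constructor
    · have : Tendsto (fun t : ℝ => √t) (𝓝 0) (𝓝 √0) := Real.continuous_sqrt.tendsto 0
      rw [Real.sqrt_zero] at this
      exact this.mono_left nhdsWithin_le_nhds
    · filter_upwards [self_mem_nhdsWithin] with t ht
      exact Real.sqrt_pos.2 ht
  have h2 : Tendsto (fun t : ℝ => (√t)⁻¹) (𝓝[>] 0) atTop := tendsto_inv_nhdsGT_zero.comp h1
  have h3 := h2.atTop_mul_pos hc hf
  apply h3.congr'
  filter_upwards [self_mem_nhdsWithin] with t ht
  have : √t ≠ 0 := (Real.sqrt_pos.2 ht).ne'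
  field_simp

theorem main (P r : ℕ) (hP : 0 < P) (lam : ℂ) (hlam : lam ≠ 0) (N : ℕ) :
    ∃ n, N ≤ n ∧ n % P = r % P ∧ 0 < (lam * W (Set.range fsq) om n).re := by
  by_contra hcon
  push Not at hcon
  set c : ℕ → ℂ := fun n => W (Set.range fsq) om n with hc
  set Q := 3 * P with hQ
  have hQ0 : 0 < Q := by omega
  have : NeZero Q := ⟨hQ0.ne'⟩
  have h3Q : 3 ∣ Q := ⟨P, rfl⟩
  have hom1 : ‖om‖ ≤ 1 := (w_norm om_prim).le
  set ξ : ℂ := Complex.exp (2 * Real.pi * Complex.I / Q) with hξ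
  have hprim : IsPrimitiveRoot ξ Q := Complex.isPrimitiveRoot_exp Q hQ0.ne'
  have hξQ : ξ ^ Q = 1 := hprim.pow_eq_one
  have hξj : ∀ j : ℕ, (ξ ^ j) ^ Q = 1 := fun j => by
    rw [← pow_mul, mul_comm, pow_mul, hξQ, one_pow]
  have hξn : ∀ j : ℕ, ‖ξ ^ j‖ = 1 := fun j => norm_of_pow_eq_one hQ0 (hξj j)
  obtain ⟨j₀, hj₀, hj₀w⟩ := hprim.eq_pow_of_pow_eq_one (w2_pow hQ0 om_prim h3Q)
  set r' := (Q - 1) * r with hr'
  set G : ℕ → ℝ → ℂ := fun j t => T fsq om (ξ ^ j * (Real.exp (-t) : ℝ)) with hG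
  have hlam0 : 0 < ‖lam‖ := norm_pos_iff.2 hlam
  -- the generating function identity
  have hgen : ∀ t : ℝ, 0 < t → ∀ j : ℕ,
      HasSum (fun n => c n * (ξ ^ j * (Real.exp (-t) : ℝ)) ^ n) (Complex.exp (G j t)) := by
    intro t ht j
    obtain ⟨h1, h2⟩ := gen (f := fsq) fsq_inj fsq_ge hom1 (norm_exp_lt ht (hξn j))
    have h3 := h1.of_norm.hasSum
    rw [h2] at h3
    exact h3
  have hfilter : ∀ m : ℕ, ∑ j ∈ range Q, (ξ ^ j) ^ m = if Q ∣ m then (Q : ℂ) else 0 := by
    intro m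
    split_ifs with hm
    · obtain ⟨q, rfl⟩ := hm
      have : ∀ j ∈ range Q, (ξ ^ j) ^ (Q * q) = 1 := fun j _ => by
        rw [pow_mul, hξj, one_pow]
      rw [sum_congr rfl this]
      simp
    · have e : ∀ j ∈ range Q, (ξ ^ j) ^ m = (ξ ^ m) ^ j := fun j _ => by
        rw [← pow_mul, ← pow_mul, mul_comm]
      rw [sum_congr rfl e]
      have hne : ξ ^ m ≠ 1 := by
        intro h1
        exact hm (hprim.dvd_of_pow_eq_one m h1)
      rw [geom_sum_eq hne, hξj, sub_self, zero_div]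
  -- the sum over the residue class
  have hH : ∀ t : ℝ, 0 < t →
      HasSum (fun n : ℕ => (if Q ∣ n + r' then (Q : ℝ) else 0) * (lam * c n).re * Real.exp (-t) ^ n)
        (∑ j ∈ range Q, lam * (ξ ^ j) ^ r' * Complex.exp (G j t)).re := by
    intro t ht
    have h1 : HasSum (fun n => ∑ j ∈ range Q,
        lam * (ξ ^ j) ^ r' * (c n * (ξ ^ j * (Real.exp (-t) : ℝ)) ^ n))
        (∑ j ∈ range Q, lam * (ξ ^ j) ^ r' * Complex.exp (G j t)) :=
      hasSum_sum fun j _ => (hgen t ht j).mul_left _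
    have h2 := Complex.hasSum_re h1
    convert h2 using 2 with n
    have h3 : ∑ j ∈ range Q, lam * (ξ ^ j) ^ r' * (c n * (ξ ^ j * (Real.exp (-t) : ℝ)) ^ n) =
        (((if Q ∣ n + r' then (Q : ℝ) else 0) * Real.exp (-t) ^ n : ℝ) : ℂ) * (lam * c n) := by
      have h4 : ∀ j ∈ range Q, lam * (ξ ^ j) ^ r' * (c n * (ξ ^ j * (Real.exp (-t) : ℝ)) ^ n) =
          (lam * c n * ((Real.exp (-t) : ℝ) : ℂ) ^ n) * (ξ ^ j) ^ (n + r') := by
        intro j _
        rw [mul_pow, pow_add]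
        ring
      rw [sum_congr rfl h4, ← mul_sum, hfilter]
      split_ifs
      · push_cast; ring
      · simp
    rw [h3, Complex.re_ofReal_mul]
    ring
  -- upper bound for the sum over the residue class
  set C : ℝ := ∑ n ∈ range N, (Q : ℝ) * |(lam * c n).re| with hC
  have hupper : ∀ t : ℝ, 0 < t →
      (∑ j ∈ range Q, lam * (ξ ^ j) ^ r' * Complex.exp (G j t)).re ≤ C := by
    intro t ht
    have h1 : HasSum (fun n : ℕ => if n < N then (Q : ℝ) * |(lam * c n).re| else 0) C := by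
      have this : HasSum (fun n : ℕ => if n < N then (Q : ℝ) * |(lam * c n).re| else 0)
          (∑ n ∈ range N, if n < N then (Q : ℝ) * |(lam * c n).re| else 0) :=
        hasSum_sum_of_ne_finset_zero (by
          intro n hn
          rw [mem_range] at hn
          rw [if_neg hn])
      convert this using 1
      rw [hC]
      apply sum_congr rfl
      intro n hn
      rw [if_pos (mem_range.1 hn)]
    refine hasSum_le ?_ (hH t ht) h1
    intro n
    have hQR : (0 : ℝ) < Q := by exact_mod_cast hQ0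
    have he0 : 0 < Real.exp (-t) ^ n := pow_pos (Real.exp_pos _) n
    have he1 : Real.exp (-t) ^ n ≤ 1 :=
      pow_le_one₀ (Real.exp_pos _).le (by rw [Real.exp_le_one_iff]; linarith)
    by_cases hd : Q ∣ n + r'
    · rw [if_pos hd]
      split_ifs with hn
      · calc (Q : ℝ) * (lam * c n).re * Real.exp (-t) ^ n
            ≤ (Q : ℝ) * |(lam * c n).re| * Real.exp (-t) ^ n := by
              apply mul_le_mul_of_nonneg_right _ he0.le
              exact mul_le_mul_of_nonneg_left (le_abs_self _) hQR.le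
          _ ≤ (Q : ℝ) * |(lam * c n).re| := mul_le_of_le_one_right (by positivity) he1
      · push Not at hn
        have hmod : n % P = r % P := by
          have h2 : n + r' + r = n + Q * r := by
            rw [hr']
            have : Q = (Q - 1) + 1 := by omega
            rw [add_assoc]
            congr 1
            conv_rhs => rw [this]
            ring
          have h3 : (n + r' + r) % P = r % P := by
            have hPd : P ∣ n + r' := (Dvd.intro_left 3 rfl).trans hd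
            rw [Nat.add_mod, Nat.mod_eq_zero_of_dvd hPd, zero_add, Nat.mod_mod]
          rw [h2, hQ, show n + 3 * P * r = n + P * (3 * r) by ring, Nat.add_mul_mod_self_left] at h3
          exact h3
        have h4 := hcon n hn hmod
        have h5 : (Q : ℝ) * (lam * c n).re ≤ 0 := mul_nonpos_of_nonneg_of_nonpos hQR.le h4
        exact mul_nonpos_of_nonpos_of_nonneg h5 he0.le
    · rw [if_neg hd, zero_mul, zero_mul]
      split_ifs
      · positivity
      · exact le_rfl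
  -- asymptotics
  have hK : (0 : ℝ) < √Real.pi / 2 := by
    have := Real.sqrt_pos.2 Real.pi_pos
    positivity
  have hasym : ∀ j : ℕ, Tendsto (fun t : ℝ => (√t : ℂ) * G j t) (𝓝[>] 0)
      (𝓝 (Ac om (ξ ^ j) Q * ((√Real.pi / 2 : ℝ) : ℂ))) := fun j => tendsto_T hom1 hQ0 (hξj j)
  have hre : ∀ j : ℕ, Tendsto (fun t : ℝ => √t * (G j t).re) (𝓝[>] 0)
      (𝓝 ((Ac om (ξ ^ j) Q).re * (√Real.pi / 2))) := by
    intro j
    have h1 := (Complex.continuous_re.tendsto _).comp (hasym j)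
    rw [Complex.re_mul_ofReal] at h1
    refine h1.congr fun t => ?_
    simp only [Function.comp]
    rw [Complex.re_ofReal_mul]
  have him : Tendsto (fun t : ℝ => √t * (G j₀ t).im) (𝓝[>] 0)
      (𝓝 ((Ac om (ξ ^ j₀) Q).im * (√Real.pi / 2))) := by
    have h1 := (Complex.continuous_im.tendsto _).comp (hasym j₀)
    rw [Complex.im_mul_ofReal] at h1
    refine h1.congr fun t => ?_
    simp only [Function.comp]
    rw [Complex.im_ofReal_mul]
  have hphi : Tendsto (fun t : ℝ => (G j₀ t).im) (𝓝[>] 0) atTop := by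
    apply tendsto_atTop_of_sqrt _ him
    rw [hj₀w]
    exact mul_pos (im_main_pos hQ0 om_prim h3Q om_im) hK
  have hM : Tendsto (fun t : ℝ => (G j₀ t).re) (𝓝[>] 0) atTop := by
    apply tendsto_atTop_of_sqrt _ (hre j₀)
    rw [hj₀w]
    exact mul_pos (re_main_pos hQ0 om_prim h3Q) hK
  have hdiff : ∀ j ∈ (range Q).erase j₀,
      Tendsto (fun t : ℝ => ‖lam‖ * Real.exp ((G j t).re - (G j₀ t).re)) (𝓝[>] 0) (𝓝 0) := by
    intro j hj
    rw [mem_erase, mem_range] at hj
    have hne : ξ ^ j ≠ om ^ 2 := by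
      rw [← hj₀w]
      intro h1
      exact hj.1 (hprim.pow_inj hj.2 hj₀ h1)
    have h1 := re_lt hQ0 om_prim h3Q (hξj j) hne
    rw [← hj₀w] at h1
    have h2 : Tendsto (fun t : ℝ => (G j₀ t).re - (G j t).re) (𝓝[>] 0) atTop := by
      apply tendsto_atTop_of_sqrt (c := (Ac om (ξ ^ j₀) Q).re * (√Real.pi / 2) -
        (Ac om (ξ ^ j) Q).re * (√Real.pi / 2))
      · have := mul_lt_mul_of_pos_right h1 hK
        linarith
      · refine ((hre j₀).sub (hre j)).congr fun t => ?_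
        ring
    have h3 : Tendsto (fun t : ℝ => Real.exp ((G j t).re - (G j₀ t).re)) (𝓝[>] 0) (𝓝 0) := by
      refine (Real.tendsto_exp_neg_atTop_nhds_zero.comp h2).congr fun t => ?_
      simp only [Function.comp]
      congr 1
      ring
    simpa using h3.const_mul ‖lam‖
  have hR : Tendsto (fun t : ℝ => ∑ j ∈ (range Q).erase j₀,
      ‖lam‖ * Real.exp ((G j t).re - (G j₀ t).re)) (𝓝[>] 0) (𝓝 0) := by
    have := tendsto_finsetSum ((range Q).erase j₀) hdiff
    simpa using this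
  have hev1 : ∀ᶠ t in 𝓝[>] (0 : ℝ), ∑ j ∈ (range Q).erase j₀,
      ‖lam‖ * Real.exp ((G j t).re - (G j₀ t).re) < ‖lam‖ / 2 :=
    hR.eventually (gt_mem_nhds (by positivity))
  have hev2 : ∀ᶠ t in 𝓝[>] (0 : ℝ), 2 * (C + 1) / ‖lam‖ ≤ Real.exp ((G j₀ t).re) :=
    (Real.tendsto_exp_atTop.comp hM).eventually (eventually_ge_atTop _)
  obtain ⟨δ, hδ0, hδ⟩ : ∃ δ : ℝ, 0 < δ ∧ ∀ t ∈ Set.Ioo 0 δ,
      (∑ j ∈ (range Q).erase j₀, ‖lam‖ * Real.exp ((G j t).re - (G j₀ t).re) < ‖lam‖ / 2) ∧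
      2 * (C + 1) / ‖lam‖ ≤ Real.exp ((G j₀ t).re) := by
    have h1 := hev1.and hev2
    rw [eventually_nhdsWithin_iff, Metric.eventually_nhds_iff] at h1
    obtain ⟨δ, hδ0, hδ⟩ := h1
    refine ⟨δ, hδ0, fun t ht => hδ ?_ ht.1⟩
    rw [Real.dist_eq, sub_zero, abs_of_pos ht.1]
    exact ht.2
  -- choose the phase
  set mu' : ℂ := lam * (ξ ^ j₀) ^ r' with hmu'
  have hmun : ‖mu'‖ = ‖lam‖ := by rw [hmu', norm_mul, norm_pow, hξn, one_pow, mul_one]
  obtain ⟨t, ht, m, hm⟩ : ∃ t ∈ Set.Ioo 0 δ, ∃ m : ℤ,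
      (G j₀ t).im = m * (2 * Real.pi) - Complex.arg mu' := by
    set b := δ / 2 with hb
    have hb0 : 0 < b := by positivity
    obtain ⟨m, hm⟩ : ∃ m : ℤ, (G j₀ b).im ≤ m * (2 * Real.pi) - Complex.arg mu' := by
      obtain ⟨m, hm⟩ := exists_nat_ge (((G j₀ b).im + Complex.arg mu') / (2 * Real.pi))
      refine ⟨m, ?_⟩
      rw [div_le_iff₀ (by positivity)] at hm
      push_cast
      linarith
    obtain ⟨a, ha1, ha2, ha3⟩ : ∃ a : ℝ, 0 < a ∧ a < b ∧
        m * (2 * Real.pi) - Complex.arg mu' ≤ (G j₀ a).im := by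
      have h1 := hphi.eventually (eventually_ge_atTop (m * (2 * Real.pi) - Complex.arg mu'))
      have h2 : ∀ᶠ t in 𝓝[>] (0 : ℝ), t ∈ Set.Ioo 0 b := Ioo_mem_nhdsGT hb0
      obtain ⟨a, ha⟩ := (h1.and h2).exists
      exact ⟨a, ha.2.1, ha.2.2, ha.1⟩
    have hcont : ContinuousOn (fun t : ℝ => (G j₀ t).im) (Set.Icc a b) := by
      have h1 : ContinuousOn (G j₀) (Set.Ioi 0) := continuousOn_T hom1 (hξn j₀)
      exact (Complex.continuous_im.comp_continuousOn h1).mono fun t ht => lt_of_lt_of_le ha1 ht.1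
    have h3 := intermediate_value_Icc' ha2.le hcont
    obtain ⟨t, ht, hte⟩ := h3 ⟨hm, ha3⟩
    exact ⟨t, ⟨lt_of_lt_of_le ha1 ht.1, lt_of_le_of_lt ht.2 (by rw [hb]; linarith)⟩, m, hte⟩
  obtain ⟨hR1, hR2⟩ := hδ t ht
  have hup := hupper t ht.1
  rw [← add_sum_erase _ _ (mem_range.2 hj₀), Complex.add_re] at hup
  have hmain : (lam * (ξ ^ j₀) ^ r' * Complex.exp (G j₀ t)).re =
      ‖lam‖ * Real.exp ((G j₀ t).re) := by
    have h1 : Complex.exp (G j₀ t) =
        ((Real.exp (G j₀ t).re : ℝ) : ℂ) * Complex.exp (((G j₀ t).im : ℂ) * Complex.I) := by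
      rw [Complex.ofReal_exp, ← Complex.exp_add, Complex.re_add_im]
    have h2 : mu' = ((‖lam‖ : ℝ) : ℂ) * Complex.exp ((Complex.arg mu' : ℂ) * Complex.I) := by
      rw [← hmun, Complex.norm_mul_exp_arg_mul_I]
    change (mu' * Complex.exp (G j₀ t)).re = _
    have h3 : mu' * Complex.exp (G j₀ t) = ((‖lam‖ * Real.exp ((G j₀ t).re) : ℝ) : ℂ) := by
      rw [h1, hm]
      nth_rewrite 1 [h2]
      have h4 : Complex.exp ((Complex.arg mu' : ℂ) * Complex.I) *
          Complex.exp ((((m * (2 * Real.pi) - Complex.arg mu' : ℝ)) : ℂ) * Complex.I) = 1 := by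
        rw [← Complex.exp_add, Complex.exp_eq_one_iff]
        refine ⟨m, ?_⟩
        push_cast
        ring
      calc _ = ((‖lam‖ : ℝ) : ℂ) * ((Real.exp (G j₀ t).re : ℝ) : ℂ) *
            (Complex.exp ((Complex.arg mu' : ℂ) * Complex.I) *
            Complex.exp ((((m * (2 * Real.pi) - Complex.arg mu' : ℝ)) : ℂ) * Complex.I)) := by ring
        _ = _ := by rw [h4]; push_cast; ring
    rw [h3, Complex.ofReal_re]
  have hrest : -(∑ j ∈ (range Q).erase j₀, ‖lam‖ * Real.exp ((G j t).re)) ≤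
      (∑ j ∈ (range Q).erase j₀, lam * (ξ ^ j) ^ r' * Complex.exp (G j t)).re := by
    rw [neg_le]
    refine (neg_le_abs _).trans ((Complex.abs_re_le_norm _).trans ((norm_sum_le _ _).trans ?_))
    apply sum_le_sum
    intro j _
    rw [norm_mul, norm_mul, norm_pow, hξn, one_pow, mul_one, Complex.norm_exp]
  have hfac : ∑ j ∈ (range Q).erase j₀, ‖lam‖ * Real.exp ((G j t).re) =
      Real.exp ((G j₀ t).re) * ∑ j ∈ (range Q).erase j₀,
        ‖lam‖ * Real.exp ((G j t).re - (G j₀ t).re) := by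
    rw [mul_sum]
    apply sum_congr rfl
    intro j _
    rw [Real.exp_sub]
    have := Real.exp_ne_zero (G j₀ t).re
    field_simp
  rw [hmain] at hup
  rw [hfac] at hrest
  have hMpos : 0 < Real.exp ((G j₀ t).re) := Real.exp_pos _
  have h7 := mul_lt_mul_of_pos_left hR1 hMpos
  rw [div_le_iff₀ hlam0] at hR2
  nlinarith

end Q252.SQ
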