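import Pool.Agent.Q16.SQ.Stm2

set_option autoImplicit false
noncomputable section
open scoped BigOperators
open Pool.Agent.Helper549.Tri

namespace Pool.Agent.Q252.SQ

open Q16.SQ

theorem t_SH1 : S_SH1 := by
  intro N ℓ θ S A κ β D hκ
  subst hκ
  have hA0 : A 0 = 2 * θ 0 := by
    rw [D.angles 0, Fin.sum_univ_three]
    simp [K1]
  have hA1 : A 1 = θ 0 + θ 1 := by
    rw [D.angles 1, Fin.sum_univ_three]
    simp [K1]
  have hA2 : A 2 = θ 1 := by
    rw [D.angles 2, Fin.sum_univ_three]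
    simp [K1]
  have hs := D.Asum
  rw [hA0, hA1, hA2] at hs
  have ht := D.tsum
  have ht0 := D.tpos 0
  have ht1 := D.tpos 1
  have ht2 := D.tpos 2
  obtain ⟨s, hs0⟩ : ∃ s, θ 0 = 2 * s := ⟨θ 0 / 2, by ring⟩
  have h1 : θ 1 = Real.pi / 2 - 3 * s := by linarith
  have h2 : θ 2 = s + Real.pi / 2 := by linarith
  set C := Real.cos s with hC
  set E := Real.sin s with hE
  have hCE : E ^ 2 + C ^ 2 = 1 := Real.sin_sq_add_cos_sq s
  have e0 : Real.sin (θ 0) = 2 * E * C := by rw [hs0, Real.sin_two_mul]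
  have e1 : Real.sin (θ 1) = 4 * C ^ 3 - 3 * C := by
    rw [h1, Real.sin_pi_div_two_sub, Real.cos_three_mul]
  have e2 : Real.sin (θ 2) = C := by rw [h2, Real.sin_add_pi_div_two]
  have p0 : 0 < 2 * E * C := e0 ▸ Real.sin_pos_of_pos_of_lt_pi ht0 (by linarith)
  have p1 : 0 < 4 * C ^ 3 - 3 * C := e1 ▸ Real.sin_pos_of_pos_of_lt_pi ht1 (by linarith)
  have p2 : 0 < C := e2 ▸ Real.sin_pos_of_pos_of_lt_pi ht2 (by linarith)
  have pE : 0 < E := by
    by_contra h
    push Not at h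
    nlinarith
  have pQ : 0 < 4 * C ^ 2 - 3 := by
    by_contra h
    push Not at h
    nlinarith
  have a0 : Real.sin (A 0) = 4 * E * C * (2 * C ^ 2 - 1) := by
    rw [hA0, hs0, Real.sin_two_mul (2 * s), Real.sin_two_mul, Real.cos_two_mul]
    ring
  have a1 : Real.sin (A 1) = C := by
    rw [hA1, show θ 0 + θ 1 = Real.pi - θ 2 by linarith, Real.sin_pi_sub, e2]
  have a2 : Real.sin (A 2) = 4 * C ^ 3 - 3 * C := by rw [hA2, e1]
  have pl2 := D.lpos 2
  have pS1 := D.Spos 1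
  have l0 : ℓ 0 = 2 * E * ℓ 2 := by
    have h := D.sinet 0 2
    rw [e2, e0] at h
    have : (ℓ 0 - 2 * E * ℓ 2) * C = 0 := by linear_combination h
    rcases mul_eq_zero.1 this with h | h
    · linarith
    · exact absurd h p2.ne'
  have l1 : ℓ 1 = (4 * C ^ 2 - 3) * ℓ 2 := by
    have h := D.sinet 1 2
    rw [e2, e1] at h
    have : (ℓ 1 - (4 * C ^ 2 - 3) * ℓ 2) * C = 0 := by linear_combination h
    rcases mul_eq_zero.1 this with h | h
    · linarith
    · exact absurd h p2.ne'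
  have s0 : S 0 = 4 * E * (2 * C ^ 2 - 1) * S 1 := by
    have h := D.sineT 0 1
    rw [a1, a0] at h
    have : (S 0 - 4 * E * (2 * C ^ 2 - 1) * S 1) * C = 0 := by linear_combination h
    rcases mul_eq_zero.1 this with h | h
    · linarith
    · exact absurd h p2.ne'
  have s2 : S 2 = (4 * C ^ 2 - 3) * S 1 := by
    have h := D.sineT 2 1
    rw [a1, a2] at h
    have : (S 2 - (4 * C ^ 2 - 3) * S 1) * C = 0 := by linear_combination h
    rcases mul_eq_zero.1 this with h | h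
    · linarith
    · exact absurd h p2.ne'
  have hN : (N : ℝ) * ℓ 2 ^ 2 = S 1 ^ 2 * (4 * C ^ 2 - 2) := by
    have h := D.area
    rw [e2, a2, l0, l1, s0] at h
    have hz : ((N : ℝ) * ℓ 2 ^ 2 - S 1 ^ 2 * (4 * C ^ 2 - 2)) * (2 * E * (4 * C ^ 2 - 3) * C) = 0 := by
      linear_combination h
    have hne : 2 * E * (4 * C ^ 2 - 3) * C ≠ 0 := by positivity
    rcases mul_eq_zero.1 hz with h | h
    · linarith
    · exact absurd h hne
  refine ⟨?_, S 1 / ℓ 2 ^ 2, by positivity, ?_, ?_, ?_, ?_⟩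
  · rw [l0, l1]
    linear_combination (4 * ℓ 2 ^ 2) * hCE
  · rw [s0, l0, l1]
    field_simp
    ring
  · field_simp
  · rw [s2, l1]
    field_simp
  · rw [l1]
    have : (N : ℝ) = S 1 ^ 2 * (4 * C ^ 2 - 2) / ℓ 2 ^ 2 := by
      rw [← hN]
      field_simp
    rw [this]
    field_simp
    ring

end Pool.Agent.Q252.SQ
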