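import Pool.Agent.Q16.XP.Stm

/-!
# Project XP: additivity of the sum over consecutive digits
-/

set_option autoImplicit false

namespace Pool.Agent.Q252.XP_D1

open Q16.XP

variable {p : ℕ}

theorem dg_lt (hp : p.Prime) (n : ℕ) : dg p n < p := Nat.mod_lt _ hp.pos

theorem decomp (hp : p.Prime) (n : ℕ) : ∃ w, n / p ^ (n.factorization p + 1) = w ∧
    rd p n = p ^ (n.factorization p + 1) * w ∧
    n = p ^ (n.factorization p + 1) * w + dg p n * p ^ n.factorization p := by
  have h1 : n = p ^ n.factorization p * (n / p ^ n.factorization p) :=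
    (Nat.ordProj_mul_ordCompl_eq_self n p).symm
  have h2 := Nat.div_add_mod (n / p ^ n.factorization p) p
  have h3 : n = p ^ (n.factorization p + 1) * (n / p ^ n.factorization p / p) +
      dg p n * p ^ n.factorization p := by
    unfold dg
    conv_lhs => rw [h1, ← h2]
    ring
  refine ⟨n / p ^ n.factorization p / p, ?_, ?_, h3⟩
  · rw [Nat.div_div_eq_div_mul, pow_succ]
  · have h4 : rd p n = n - dg p n * p ^ n.factorization p := rfl
    rw [h4]
    omega

theorem dg_pos (hp : p.Prime) {n : ℕ} (hn : n ≠ 0) : 0 < dg p n := by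
  rw [Nat.pos_iff_ne_zero]
  intro h
  exact Nat.not_dvd_ordCompl hp hn (Nat.dvd_of_mod_eq_zero h)

theorem rd_lt (hp : p.Prime) {n : ℕ} (hn : n ≠ 0) : rd p n < n := by
  obtain ⟨w, _, h2, h3⟩ := decomp hp n
  have h4 : 0 < dg p n * p ^ n.factorization p :=
    Nat.mul_pos (dg_pos hp hn) (pow_pos hp.pos _)
  omega

theorem rd_zero : rd p 0 = 0 := by simp [rd]

theorem fuel (hp : p.Prime) (G : ℕ → ℕ → ℕ → ℕ) (n : ℕ) :
    ∀ k, n ≤ k → DSf p G k n = DSf p G n n := by
  induction n using Nat.strong_induction_on with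
  | _ n ih =>
    intro k hk
    rcases Nat.eq_zero_or_pos n with hn | hn
    · subst hn
      have h0 : ∀ j, DSf p G j 0 = 0 := by
        intro j
        cases j with
        | zero => rfl
        | succ j =>
          rw [DSf]
          exact if_pos rd_zero
      rw [h0, h0]
    · obtain ⟨m, rfl⟩ : ∃ m, n = m + 1 := ⟨n - 1, by omega⟩
      obtain ⟨l, rfl⟩ : ∃ l, k = l + 1 := ⟨k - 1, by omega⟩
      have h1 := rd_lt hp (show m + 1 ≠ 0 by omega)
      rw [DSf, DSf, ih _ h1 l (by omega), ih _ h1 m (by omega)]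

theorem DS_zero (G : ℕ → ℕ → ℕ → ℕ) {n : ℕ} (h : rd p n = 0) : DS p G n = 0 := by
  unfold DS
  cases n with
  | zero => rfl
  | succ n => rw [DSf, if_pos h]

theorem DS_rec (hp : p.Prime) (G : ℕ → ℕ → ℕ → ℕ) {n : ℕ} (h : rd p n ≠ 0) :
    DS p G n = G (n.factorization p) (dg p n) ((rd p n).factorization p) + DS p G (rd p n) := by
  have hn : n ≠ 0 := by
    rintro rfl
    exact h rd_zero
  unfold DS
  obtain ⟨m, rfl⟩ : ∃ m, n = m + 1 := ⟨n - 1, by omega⟩
  have h1 := rd_lt hp hn
  rw [DSf, if_neg h, fuel hp G (rd p (m + 1)) m (by omega)]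

theorem fac_lt (hp : p.Prime) {x k : ℕ} (hx : 0 < x) (hk : x < p ^ k) : x.factorization p < k := by
  have h1 : p ^ x.factorization p ≤ x := Nat.ordProj_le p hx.ne'
  exact (Nat.pow_lt_pow_iff_right hp.one_lt).1 (h1.trans_lt hk)

theorem fac_add (hp : p.Prime) {x y k : ℕ} (hx : 0 < x) (hy : p ^ k ∣ y)
    (hk : x < p ^ k) : (x + y).factorization p = x.factorization p := by
  have h1 := fac_lt hp hx hk
  have h2 : p ^ (x.factorization p + 1) ∣ y := (pow_dvd_pow p h1).trans hy
  apply le_antisymm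
  · by_contra h
    push Not at h
    have h3 : p ^ (x.factorization p + 1) ∣ x + y :=
      (pow_dvd_pow p h).trans (Nat.ordProj_dvd _ _)
    have h4 : p ^ (x.factorization p + 1) ∣ x := (Nat.dvd_add_left h2).1 h3
    exact Nat.pow_succ_factorization_not_dvd hx.ne' hp h4
  · rw [← hp.pow_dvd_iff_le_factorization (by omega)]
    exact dvd_add (Nat.ordProj_dvd _ _) ((pow_dvd_pow p (Nat.le_succ _)).trans h2)

theorem dg_add (hp : p.Prime) {x y k : ℕ} (hx : 0 < x) (hy : p ^ k ∣ y)
    (hk : x < p ^ k) : dg p (x + y) = dg p x := by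
  have h1 := fac_lt hp hx hk
  obtain ⟨z, rfl⟩ : p ^ (x.factorization p + 1) ∣ y := (pow_dvd_pow p h1).trans hy
  unfold dg
  rw [fac_add hp hx hy hk]
  have h2 : x + p ^ (x.factorization p + 1) * z = x + p ^ x.factorization p * (p * z) := by ring
  rw [h2, Nat.add_mul_div_left _ _ (pow_pos hp.pos _), Nat.add_mul_mod_self_left]

theorem rd_add (hp : p.Prime) {x y k : ℕ} (hx : 0 < x) (hy : p ^ k ∣ y)
    (hk : x < p ^ k) : rd p (x + y) = rd p x + y := by
  obtain ⟨w, _, h2, h3⟩ := decomp hp x
  have h4 : rd p (x + y) = x + y - dg p (x + y) * p ^ (x + y).factorization p := rfl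
  have h5 : rd p x = x - dg p x * p ^ x.factorization p := rfl
  rw [h4, dg_add hp hx hy hk, fac_add hp hx hy hk, h5]
  omega

theorem log_div (hp : p.Prime) {n j w : ℕ} (hw : n / p ^ j = w) (hw0 : 0 < w) :
    Nat.log p n = j + Nat.log p w ∧ n / p ^ Nat.log p n = w / p ^ Nat.log p w := by
  have h1 : p ^ Nat.log p w ≤ w := Nat.pow_log_le_self p hw0.ne'
  have h2 : w < p ^ (Nat.log p w + 1) := Nat.lt_pow_succ_log_self hp.one_lt w
  have hpj : 0 < p ^ j := pow_pos hp.pos _
  have h3 : p ^ j * w ≤ n := by rw [← hw]; exact Nat.mul_div_le n _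
  have h4 : n < p ^ j * (w + 1) := by rw [← hw]; exact Nat.lt_mul_div_succ n hpj
  have h5 : Nat.log p n = j + Nat.log p w := by
    apply Nat.log_eq_of_pow_le_of_lt_pow
    · rw [pow_add]
      exact (Nat.mul_le_mul_left _ h1).trans h3
    · rw [add_assoc, pow_add]
      exact h4.trans_le (Nat.mul_le_mul_left _ h2)
  refine ⟨h5, ?_⟩
  rw [h5, pow_add, ← Nat.div_div_eq_div_mul, hw]

theorem d1 (hp : p.Prime) (G : ℕ → ℕ → ℕ → ℕ) (y k : ℕ) (hy0 : 0 < y) (hy : p ^ k ∣ y) (x : ℕ) :
    0 < x → x < p ^ k →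
    DS p G (x + y) = DS p G x + G (Nat.log p x) (x / p ^ Nat.log p x) (y.factorization p) +
      DS p G y := by
  induction x using Nat.strong_induction_on with
  | _ x ih =>
    intro hx hk
    have hrd := rd_add hp hx hy hk
    have hrec := DS_rec hp G (n := x + y) (by rw [hrd]; omega)
    rw [hrd, fac_add hp hx hy hk, dg_add hp hx hy hk] at hrec
    rw [hrec]
    obtain ⟨w, h1, h2, h3⟩ := decomp hp x
    have hpow : 0 < p ^ (x.factorization p + 1) := pow_pos hp.pos _
    rcases Nat.eq_zero_or_pos (rd p x) with h0 | h0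
    · have hw : w = 0 := by
        rw [h0] at h2
        rcases Nat.mul_eq_zero.1 h2.symm with h | h
        · omega
        · exact h
      rw [hw, mul_zero, zero_add] at h3
      have h4 : Nat.log p x = x.factorization p := by
        apply Nat.log_eq_of_pow_le_of_lt_pow
        · exact Nat.ordProj_le p hx.ne'
        · calc x = dg p x * p ^ x.factorization p := h3
            _ < p * p ^ x.factorization p :=
              Nat.mul_lt_mul_of_pos_right (dg_lt hp x) (pow_pos hp.pos _)
            _ = p ^ (x.factorization p + 1) := by ring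
      have h5 : x / p ^ Nat.log p x = dg p x := by
        rw [h4]
        exact Nat.div_eq_of_eq_mul_left (pow_pos hp.pos _) h3
      rw [h0, zero_add, DS_zero G h0, h5, h4, zero_add]
    · have hw : 0 < w := by
        rw [h2] at h0
        rcases Nat.eq_zero_or_pos w with h | h
        · rw [h, mul_zero] at h0; omega
        · exact h
      have h6 : rd p x / p ^ (x.factorization p + 1) = w := by
        rw [h2, Nat.mul_div_cancel_left _ hpow]
      obtain ⟨h7, h8⟩ := log_div hp h1 hw
      obtain ⟨h9, h10⟩ := log_div hp h6 hw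
      have hlt := rd_lt hp hx.ne'
      rw [fac_add hp h0 hy (hlt.trans hk), ih _ hlt h0 (hlt.trans hk), DS_rec hp G h0.ne',
        h8, h7, h10, h9]
      ring

theorem t_D1 : S_D1 := fun _ hp G x y k hx hy hk hlt => d1 hp G y k hy hk x hx hlt

end Pool.Agent.Q252.XP_D1
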