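import Pool.Agent.Q252.XP_P1

/-!
# Project XP: the effect of a power
-/

set_option autoImplicit false

namespace Pool.Agent.Q252.XP_PA

open Q16.XP

theorem minFac_pow' {a b : ℕ} (hb : 1 < b) : (a ^ b).minFac = a.minFac :=
  Nat.pow_minFac (by omega)

theorem ex_pow {a b : ℕ} (hb : 1 < b) : ex (a ^ b) = b * ex a := by
  unfold ex
  rw [minFac_pow' hb, Nat.factorization_pow]
  simp

theorem tp_pow {a b : ℕ} (hb : 1 < b) : tp (a ^ b) = tp a := by
  unfold tp
  rw [Nat.primeFactors_pow _ (by omega)]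

theorem t_PA (h : S_P1) : S_PA := by
  refine ⟨fun a b ha hb hs => ?_, fun a b ha hb hs => ?_⟩
  · have hab : 1 < a ^ b := Nat.one_lt_pow (by omega) ha
    have hs' : Sep b (a ^ b) := fun p q hp hq h1 h2 => hs p q hp hq h1 (hq.dvd_of_dvd_pow h2)
    have h1 := h F1 b (a ^ b) hb hab hs'
    have h2 := h F1 b a hb ha hs
    have h3 := Pool.Agent.Q252.XP_P1.tp_mem hb
    have h4 := Nat.prime_of_mem_primeFactors h3
    have h5 : 0 < b.factorization (tp b) :=
      h4.factorization_pos_of_dvd (by omega) (Nat.dvd_of_mem_primeFactors h3)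
    have h6 : F1 (tp b) (b.factorization (tp b)) (a ^ b).minFac (ex (a ^ b)) =
        F1 (tp b) (b.factorization (tp b)) a.minFac (ex a) + 1 := by
      unfold F1
      rw [ex_pow hb, Nat.factorization_mul (by omega)
        (Pool.Agent.Q252.XP_P1.ex_pos ha).ne', Finsupp.add_apply, Nat.add_div_left _ h5]
    rw [mul_comm (a ^ b) b, mul_comm a b, h1, h2, h6]
    ring
  · have hab : 1 < a ^ b := Nat.one_lt_pow (by omega) ha
    have hs' : Sep (a ^ b) b := fun p q hp hq h1 h2 => hs p q hp hq (hp.dvd_of_dvd_pow h1) h2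
    have h1 := h F2 (a ^ b) b hab hb hs'
    have h2 := h F2 a b ha hb hs
    have h3 := Pool.Agent.Q252.XP_P1.tp_mem ha
    have h4 := Nat.prime_of_mem_primeFactors h3
    have h5 : 0 < a.factorization (tp a) :=
      h4.factorization_pos_of_dvd (by omega) (Nat.dvd_of_mem_primeFactors h3)
    have h6 : F2 (tp (a ^ b)) ((a ^ b).factorization (tp (a ^ b))) b.minFac (ex b) =
        F2 (tp a) (a.factorization (tp a)) b.minFac (ex b) + 1 := by
      unfold F2
      rw [tp_pow hb, Nat.factorization_pow]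
      have h7 : (b • a.factorization) (tp a) = b * a.factorization (tp a) := by simp
      rw [h7, Nat.factorization_mul (by omega) h5.ne', Finsupp.add_apply]
      exact Nat.add_div_left _ (Pool.Agent.Q252.XP_P1.ex_pos hb)
    rw [h1, h2, h6]
    ring

end Pool.Agent.Q252.XP_PA
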