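import Pool.Agent.Q252.XP_D1
import Pool.Agent.Q252.XP_PA
import Pool.Agent.Q16.XP.Stm2

/-!
# Project XP: a colouring for exponents with bounded digit sums
-/

set_option autoImplicit false

namespace Pool.Agent.Q252.XP_E6

open Q16.XP
open Pool.Agent.Q252.XP_D1 (decomp dg_lt dg_pos DS_zero DS_rec rd_lt)

theorem minFac_mul {a b p : ℕ} (ha : 1 < a) (hb : 1 < b) (hap : a.minFac = p)
    (hbp : b.minFac = p) : (a * b).minFac = p := by
  have hba : a * b ≠ 1 := by
    intro h
    have := Nat.eq_one_of_mul_eq_one_right h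
    omega
  have hq := Nat.minFac_prime hba
  have hp : p.Prime := hap ▸ Nat.minFac_prime (by omega)
  apply le_antisymm
  · exact Nat.minFac_le_of_dvd hp.two_le ((hap ▸ Nat.minFac_dvd a : p ∣ a).mul_right b)
  · rcases (Nat.Prime.dvd_mul hq).1 (Nat.minFac_dvd (a * b)) with h | h
    · rw [← hap]
      exact Nat.minFac_le_of_dvd hq.two_le h
    · rw [← hbp]
      exact Nat.minFac_le_of_dvd hq.two_le h

theorem ex_mul {a b p : ℕ} (ha : 1 < a) (hb : 1 < b) (hap : a.minFac = p)
    (hbp : b.minFac = p) : ex (a * b) = ex a + ex b := by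
  unfold ex
  rw [minFac_mul ha hb hap hbp, hap, hbp, Nat.factorization_mul (by omega) (by omega),
    Finsupp.add_apply]

theorem DS_le {p : ℕ} (hp : p.Prime) (G : ℕ → ℕ → ℕ → ℕ) (hG : ∀ l d q, G l d q ≤ 1) (n : ℕ) :
    0 < n → DS p G n + 1 ≤ (Nat.digits p n).sum := by
  induction n using Nat.strong_induction_on with
  | _ n ih =>
    intro hn
    obtain ⟨w, _, h2, h3⟩ := decomp hp n
    have hd := dg_pos hp hn.ne'
    have h4 : n = p ^ n.factorization p * (dg p n + p * w) := by
      conv_lhs => rw [h3]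
      ring
    have h5 : (Nat.digits p n).sum = dg p n + (Nat.digits p w).sum := by
      conv_lhs => rw [h4]
      rw [Nat.digits_base_pow_mul hp.one_lt (by omega),
        Nat.digits_add p hp.one_lt _ _ (dg_lt hp n) (Or.inl hd.ne')]
      simp
    rcases Nat.eq_zero_or_pos (rd p n) with h0 | h0
    · rw [DS_zero G h0, h5]
      omega
    · have hw : 0 < w := by
        rw [h2] at h0
        rcases Nat.eq_zero_or_pos w with h | h
        · rw [h, mul_zero] at h0; omega
        · exact h
      have h6 : (Nat.digits p (rd p n)).sum = (Nat.digits p w).sum := by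
        rw [h2, Nat.digits_base_pow_mul hp.one_lt hw]
        simp
      have h7 := ih _ (rd_lt hp hn.ne') h0
      have h8 := hG (n.factorization p) (dg p n) ((rd p n).factorization p)
      rw [DS_rec hp G h0.ne', h5]
      rw [h6] at h7
      omega

theorem t_E6 : S_E6 := by
  intro J
  refine ⟨J + 1, fun n => ⟨min (DS n.minFac (G3 n.minFac) (ex n)) J, by omega⟩, ?_⟩
  intro p a b ha hb hap hbp hJ heq
  have hp : p.Prime := hap ▸ Nat.minFac_prime (by omega)
  have hab : 1 < a ^ b := Nat.one_lt_pow (by omega) ha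
  have habp : (a ^ b).minFac = p := by
    rw [Pool.Agent.Q252.XP_PA.minFac_pow' hb, hap]
  have h1 := congrArg Fin.val heq
  simp only [] at h1
  rw [minFac_mul hab hb habp hbp, ex_mul hab hb habp hbp, Pool.Agent.Q252.XP_PA.ex_pow hb, hbp]
    at h1
  have hbe : 0 < ex b := Pool.Agent.Q252.XP_P1.ex_pos hb
  have hal : 0 < ex a := Pool.Agent.Q252.XP_P1.ex_pos ha
  have hexb : ex b = b.factorization p := by
    unfold ex
    rw [hbp]
  have hdvd : p ^ ex b ∣ b * ex a := by
    rw [hexb]
    exact (Nat.ordProj_dvd b p).mul_right _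
  have h2 := Pool.Agent.Q252.XP_D1.t_D1 p hp (G3 p) (ex b) (b * ex a) (ex b) hbe
    (Nat.mul_pos (by omega) hal) hdvd (Nat.lt_pow_self hp.one_lt)
  have h3 : G3 p (Nat.log p (ex b)) (ex b / p ^ Nat.log p (ex b)) ((b * ex a).factorization p) =
      1 := by
    unfold G3
    rw [if_pos]
    rw [Nat.factorization_mul (by omega) hal.ne', Finsupp.add_apply, ← hexb]
    exact (Nat.pow_log_le_self p hbe.ne').trans (Nat.le_add_right _ _)
  rw [h3] at h2
  rw [add_comm (b * ex a) (ex b), h2] at h1
  have h4 := DS_le hp (G3 p) (fun l d q => by unfold G3; split_ifs <;> omega) (ex b) hbe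
  omega

end Pool.Agent.Q252.XP_E6
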