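import Pool.Agent.TH120.HM.Cor
import Pool.Agent.TH647.NR.Rank

/-!
# Linear relations between `ζ(2) ζ(3)`, `ζ(2)`, `ζ(3)`, `ζ(4)`, `ζ(5)`
-/

set_option autoImplicit false

namespace Pool.Agent.Q252.ZP

open Pool.Agent.W472.AC Pool.Agent.TH647.NR

/-- `ζ(s)` for integers `s ≥ 2` as a series -/
noncomputable def z (s : ℕ) : ℝ := ∑' n : ℕ, 1 / ((n : ℝ) + 1) ^ s

theorem z_two : z 2 = Real.pi ^ 2 / 6 := Pool.Agent.LZ.Z2_value

theorem z_four : z 4 = Real.pi ^ 4 / 90 := by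
  have h := (hasSum_nat_add_iff' 1).mpr hasSum_zeta_four
  have h2 : HasSum (fun n : ℕ => 1 / ((n : ℝ) + 1) ^ 4) (Real.pi ^ 4 / 90) := by
    simpa using h
  exact h2.tsum_eq

theorem z_four' : z 4 = 2 / 5 * z 2 ^ 2 := by
  rw [z_four, z_two]; ring

theorem z_two_gt : (1 : ℝ) < z 2 := by
  rw [z_two]
  have := Real.pi_gt_three
  nlinarith

/-- a measure of linear independence for `ζ(2) ζ(3), ζ(2), ζ(4)` -/
theorem meas3 : ∃ c : ℝ, 0 < c ∧ ∀ (e a d : ℤ) (H : ℝ), 1 ≤ H → ¬ (e = 0 ∧ a = 0 ∧ d = 0) →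
    |(e : ℝ)| ≤ H → |(d : ℝ)| ≤ H →
    c * H ^ (-227 : ℝ) ≤ |(e : ℝ) * (z 2 * z 3) + a * z 2 + d * z 4| := by
  obtain ⟨c, hc, h⟩ := Pool.Agent.TH120.HM.measure_all
  refine ⟨c * 5 ^ (-227 : ℝ) / 5, by positivity, fun e a d H hH h0 he hd => ?_⟩
  have h1 := h (5 * a) (2 * d) (5 * e) (5 * H) (by linarith)
    (by intro hh; apply h0; omega)
    (by push_cast; rw [abs_mul, abs_of_pos (by norm_num : (0 : ℝ) < 2)]
        have := abs_nonneg (d : ℝ)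
        linarith)
    (by push_cast; rw [abs_mul, abs_of_pos (by norm_num : (0 : ℝ) < 5)]; linarith)
  have e2 : Pool.Agent.H337R2.zr 2 = z 2 := rfl
  have e3 : Pool.Agent.H337R2.zr 3 = z 3 := rfl
  rw [e2, e3, Real.mul_rpow (by norm_num) (by linarith)] at h1
  have e4 : (e : ℝ) * (z 2 * z 3) + a * z 2 + d * z 4 =
      z 2 / 5 * (((5 * a : ℤ) : ℝ) + ((2 * d : ℤ) : ℝ) * z 2 + ((5 * e : ℤ) : ℝ) * z 3) := by
    rw [z_four']
    push_cast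
    ring
  have hz := z_two_gt
  rw [e4, abs_mul, abs_of_pos (by positivity)]
  have h5 : (0 : ℝ) < 5 ^ (-227 : ℝ) := by positivity
  have h6 : (0 : ℝ) < H ^ (-227 : ℝ) := by positivity
  have h7 : 0 ≤ c * (5 ^ (-227 : ℝ) * H ^ (-227 : ℝ)) := by positivity
  calc c * 5 ^ (-227 : ℝ) / 5 * H ^ (-227 : ℝ) = 1 / 5 * (c * (5 ^ (-227 : ℝ) * H ^ (-227 : ℝ))) := by ring
    _ ≤ z 2 / 5 * (c * (5 ^ (-227 : ℝ) * H ^ (-227 : ℝ))) := by
        apply mul_le_mul_of_nonneg_right _ h7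
        linarith
    _ ≤ _ := mul_le_mul_of_nonneg_left h1 (by positivity)

theorem meas_form : ∃ c : ℝ, 0 < c ∧
    Meas (![z 2 * z 3, z 2, z 4] : Fin (2 + 1) → ℝ) 227 c := by
  obtain ⟨c, hc, h⟩ := meas3
  refine ⟨c, hc, fun v hv H hH hb => ?_⟩
  have h1 := h (v 0) (v 1) (v 2) H hH (by
    rintro ⟨h0, h1, h2⟩
    apply hv
    funext i
    fin_cases i
    · exact h0
    · exact h1
    · exact h2) (hb 0) (hb 2)
  have hH0 : 0 < H := by linarith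
  have e1 : ∑ j, (v j : ℝ) * (![z 2 * z 3, z 2, z 4] : Fin (2 + 1) → ℝ) j =
      (v 0 : ℝ) * (z 2 * z 3) + v 1 * z 2 + v 2 * z 4 := by
    rw [Fin.sum_univ_three]
    simp
  rw [e1]
  have h2 : H ^ (227 : ℝ) * H ^ (-227 : ℝ) = 1 := by
    rw [← Real.rpow_add hH0]; simp
  have h3 : 0 < H ^ (227 : ℝ) := by positivity
  calc c = H ^ (227 : ℝ) * (c * H ^ (-227 : ℝ)) := by rw [mul_left_comm, h2, mul_one]
    _ ≤ _ := mul_le_mul_of_nonneg_left h1 h3.le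

/-- rank of the near relations -/
theorem rank (r : ℕ) : ∃ c : ℝ, 0 < c ∧ ∀ (t : Fin r → ℝ) (X : ℝ), 1 ≤ X →
    ∀ v : Fin (r + 1) → (Fin 3 → ℤ) × (Fin r → ℤ), LinearIndependent ℤ v →
      (∀ k, ‖v k‖ ≤ X) →
      ∃ k, c * X ^ (-(228 * r + 227 : ℝ)) ≤
        |((v k).1 0 : ℝ) * (z 2 * z 3) + (v k).1 1 * z 2 + (v k).1 2 * z 4 +
          ∑ j, ((v k).2 j : ℝ) * t j| := by
  obtain ⟨c, hc, h⟩ := meas_form
  obtain ⟨c', hc', h'⟩ := rank_bound _ 227 c hc h r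
  refine ⟨c', hc', fun t X hX v hv hvX => ?_⟩
  obtain ⟨k, hk⟩ := h' t X hX v hv hvX
  refine ⟨k, (le_of_eq ?_).trans (hk.trans (le_of_eq ?_))⟩
  · congr 2
    ring
  · unfold linr
    rw [Fin.sum_univ_three]
    simp

/-- no three independent integer relations -/
theorem no_three (v : Fin 3 → (Fin 3 → ℤ) × (Fin 2 → ℤ)) (hv : LinearIndependent ℤ v) (t : Fin 2 → ℝ) :
    ∃ k, ((v k).1 0 : ℝ) * (z 2 * z 3) + (v k).1 1 * z 2 + (v k).1 2 * z 4 +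
          ∑ j, ((v k).2 j : ℝ) * t j ≠ 0 := by
  obtain ⟨c, hc, h⟩ := rank 2
  obtain ⟨X, hX⟩ : ∃ X : ℝ, X = 1 + ∑ k, ‖v k‖ := ⟨_, rfl⟩
  have hX1 : 1 ≤ X := by
    rw [hX]
    have : 0 ≤ ∑ k, ‖v k‖ := Finset.sum_nonneg fun k _ => norm_nonneg _
    linarith
  obtain ⟨k, hk⟩ := h t X hX1 v hv (fun k => by
    rw [hX]
    have := Finset.single_le_sum (f := fun k => ‖v k‖) (fun k _ => norm_nonneg _) (Finset.mem_univ k)
    linarith)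
  refine ⟨k, fun h0 => ?_⟩
  rw [h0, abs_zero] at hk
  have : 0 < c * X ^ (-(228 * (2 : ℕ) + 227 : ℝ)) := by positivity
  linarith

end Pool.Agent.Q252.ZP
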