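import Pool.Agent.Q252.ZP1

/-!
# The rational solutions lie on a line
-/

set_option autoImplicit false

namespace Pool.Agent.Q252.ZP

/-- the relation of the problem: `ζ(2) ζ(3) = a ζ(2) + b ζ(3) + c ζ(4) + d ζ(5)` -/
def Rel (y : Fin 4 → ℚ) : Prop :=
  z 2 * z 3 = y 0 * z 2 + y 1 * z 3 + y 2 * z 4 + y 3 * z 5

theorem clear_den (y : Fin 4 → ℚ) : ∃ (N : ℤ) (m : Fin 4 → ℤ), N ≠ 0 ∧ ∀ i, (m i : ℚ) = N * y i := by
  refine ⟨((∏ i, (y i).den : ℕ) : ℤ), fun i => ((∏ j, (y j).den) / (y i).den : ℕ) * (y i).num,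
    ?_, fun i => ?_⟩
  · have : 0 < ∏ i, (y i).den := Finset.prod_pos fun i _ => (y i).pos
    exact_mod_cast this.ne'
  · obtain ⟨K, hK⟩ : (y i).den ∣ ∏ j, (y j).den := Finset.dvd_prod_of_mem _ (Finset.mem_univ i)
    simp only
    rw [hK, Nat.mul_div_cancel_left _ (y i).pos]
    have h1 : (y i).num = (y i) * ((y i).den : ℚ) := (Rat.mul_den_eq_num (y i)).symm
    push_cast
    rw [h1]
    ring

/-- the form on an integer vector coming from a rational vector -/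
theorem form_val (y : Fin 4 → ℚ) (hy : Rel y) (N : ℤ) (m : Fin 4 → ℤ) (hm : ∀ i, (m i : ℚ) = N * y i) :
    (N : ℝ) * (z 2 * z 3) + (-(m 0) : ℤ) * z 2 + (-(m 2) : ℤ) * z 4 +
      ∑ j, (((![-(m 1), -(m 3)] : Fin 2 → ℤ) j : ℤ) : ℝ) * (![z 3, z 5] : Fin 2 → ℝ) j = 0 := by
  have hr : ∀ i, (m i : ℝ) = N * (y i : ℝ) := fun i => by exact_mod_cast congrArg (Rat.cast : ℚ → ℝ) (hm i)
  rw [Fin.sum_univ_two]
  simp only [Matrix.cons_val_zero, Matrix.cons_val_one]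
  push_cast
  rw [hr 0, hr 1, hr 2, hr 3]
  unfold Rel at hy
  linear_combination (N : ℝ) * hy

theorem third_on_line (y₀ y₁ y₂ : Fin 4 → ℚ) (h0 : Rel y₀) (h1 : Rel y₁) (h2 : Rel y₂)
    (hne : y₀ ≠ y₁) : ∃ s : ℚ, y₂ = y₀ + s • (y₁ - y₀) := by
  obtain ⟨N0, m0, hN0, hm0⟩ := clear_den y₀
  obtain ⟨N1, m1, hN1, hm1⟩ := clear_den y₁
  obtain ⟨N2, m2, hN2, hm2⟩ := clear_den y₂
  obtain ⟨v, hv⟩ : ∃ v : Fin 3 → (Fin 3 → ℤ) × (Fin 2 → ℤ),
      v = ![(![N0, -(m0 0), -(m0 2)], ![-(m0 1), -(m0 3)]),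
            (![N1, -(m1 0), -(m1 2)], ![-(m1 1), -(m1 3)]),
            (![N2, -(m2 0), -(m2 2)], ![-(m2 1), -(m2 3)])] := ⟨_, rfl⟩
  have hdep : ¬ LinearIndependent ℤ v := by
    intro hli
    obtain ⟨k, hk⟩ := no_three v hli ![z 3, z 5]
    apply hk
    fin_cases k
    · rw [hv]; exact form_val y₀ h0 N0 m0 hm0
    · rw [hv]; exact form_val y₁ h1 N1 m1 hm1
    · rw [hv]; exact form_val y₂ h2 N2 m2 hm2
  rw [Fintype.not_linearIndependent_iff] at hdep
  obtain ⟨g, hg, i, hi⟩ := hdep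
  rw [Fin.sum_univ_three, hv] at hg
  simp only [Matrix.cons_val_zero, Matrix.cons_val_one, Matrix.cons_val] at hg
  have hf : ∀ j : Fin 3, g 0 * (![N0, -(m0 0), -(m0 2)] : Fin 3 → ℤ) j +
      g 1 * (![N1, -(m1 0), -(m1 2)] : Fin 3 → ℤ) j +
      g 2 * (![N2, -(m2 0), -(m2 2)] : Fin 3 → ℤ) j = 0 := fun j => by
    exact congrFun (congrArg Prod.fst hg) j
  have hs : ∀ j : Fin 2, g 0 * (![-(m0 1), -(m0 3)] : Fin 2 → ℤ) j +
      g 1 * (![-(m1 1), -(m1 3)] : Fin 2 → ℤ) j +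
      g 2 * (![-(m2 1), -(m2 3)] : Fin 2 → ℤ) j = 0 := fun j => by
    exact congrFun (congrArg Prod.snd hg) j
  have a0 := hf 0
  have a1 := hf 1
  have a2 := hf 2
  have b0 := hs 0
  have b1 := hs 1
  simp only [Matrix.cons_val_zero, Matrix.cons_val_one, Matrix.cons_val] at a0 a1 a2 b0 b1
  -- rational coefficients
  obtain ⟨l0, hl0⟩ : ∃ l : ℚ, l = g 0 * N0 := ⟨_, rfl⟩
  obtain ⟨l1, hl1⟩ : ∃ l : ℚ, l = g 1 * N1 := ⟨_, rfl⟩
  obtain ⟨l2, hl2⟩ : ∃ l : ℚ, l = g 2 * N2 := ⟨_, rfl⟩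
  have c0 : l0 + l1 + l2 = 0 := by
    rw [hl0, hl1, hl2]; exact_mod_cast a0
  have cc : ∀ j : Fin 4, l0 * y₀ j + l1 * y₁ j + l2 * y₂ j = 0 := by
    intro j
    have e : l0 * y₀ j + l1 * y₁ j + l2 * y₂ j = g 0 * m0 j + g 1 * m1 j + g 2 * m2 j := by
      rw [hm0, hm1, hm2, hl0, hl1, hl2]; ring
    rw [e]
    fin_cases j
    · have : g 0 * m0 0 + g 1 * m1 0 + g 2 * m2 0 = 0 := by linarith
      exact_mod_cast this
    · have : g 0 * m0 1 + g 1 * m1 1 + g 2 * m2 1 = 0 := by linarith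
      exact_mod_cast this
    · have : g 0 * m0 2 + g 1 * m1 2 + g 2 * m2 2 = 0 := by linarith
      exact_mod_cast this
    · have : g 0 * m0 3 + g 1 * m1 3 + g 2 * m2 3 = 0 := by linarith
      exact_mod_cast this
  have hl2' : l2 ≠ 0 := by
    intro h
    rw [h, add_zero] at c0
    have hc1 : l1 = -l0 := by linarith
    have hc0 : l0 = 0 := by
      by_contra hne0
      apply hne
      funext j
      have := cc j
      rw [h, hc1, zero_mul, add_zero] at this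
      have h3 : l0 * (y₀ j - y₁ j) = 0 := by linarith
      rcases mul_eq_zero.1 h3 with h4 | h4
      · exact absurd h4 hne0
      · linarith
    have hg0 : g 0 = 0 := by
      rw [hl0] at hc0
      rcases mul_eq_zero.1 hc0 with h4 | h4
      · exact_mod_cast h4
      · exact absurd (by exact_mod_cast h4) hN0
    have hg1 : g 1 = 0 := by
      rw [hc0, neg_zero, hl1] at hc1
      rcases mul_eq_zero.1 hc1 with h4 | h4
      · exact_mod_cast h4
      · exact absurd (by exact_mod_cast h4) hN1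
    have hg2 : g 2 = 0 := by
      rw [hl2] at h
      rcases mul_eq_zero.1 h with h4 | h4
      · exact_mod_cast h4
      · exact absurd (by exact_mod_cast h4) hN2
    apply hi
    fin_cases i
    · exact hg0
    · exact hg1
    · exact hg2
  refine ⟨-l1 / l2, ?_⟩
  funext j
  have h3 := cc j
  simp only [Pi.add_apply, Pi.smul_apply, Pi.sub_apply, smul_eq_mul]
  have h4 : l0 = -l1 - l2 := by linarith
  rw [h4] at h3
  field_simp
  linarith

/-- all rational solutions are on one affine line -/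
theorem line : ∃ P W : Fin 4 → ℚ, ∀ y : Fin 4 → ℚ, Rel y → ∃ s : ℚ, y = P + s • W := by
  by_cases h : ∃ y₀ y₁ : Fin 4 → ℚ, Rel y₀ ∧ Rel y₁ ∧ y₀ ≠ y₁
  · obtain ⟨y₀, y₁, h0, h1, hne⟩ := h
    exact ⟨y₀, y₁ - y₀, fun y hy => third_on_line y₀ y₁ y h0 h1 hy hne⟩
  · push Not at h
    by_cases h' : ∃ y₀, Rel y₀
    · obtain ⟨y₀, h0⟩ := h'
      refine ⟨y₀, 0, fun y hy => ⟨0, ?_⟩⟩
      rw [h y₀ y h0 hy]
      simp
    · push Not at h'
      exact ⟨0, 0, fun y hy => absurd hy (h' y)⟩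

/-- no relation between `ζ(2), ζ(4), ζ(2) ζ(3)` over the rationals -/
theorem indep_rat (e a c : ℚ) (h : (e : ℝ) * (z 2 * z 3) + a * z 2 + c * z 4 = 0) :
    e = 0 ∧ a = 0 ∧ c = 0 := by
  obtain ⟨N, m, hN, hm⟩ := clear_den ![e, a, c, 0]
  have h0 := hm 0
  have h1 := hm 1
  have h2 := hm 2
  simp only [Matrix.cons_val_zero, Matrix.cons_val_one, Matrix.cons_val] at h0 h1 h2
  obtain ⟨c0, hc0, hh⟩ := meas3
  have hN' : (N : ℚ) ≠ 0 := by exact_mod_cast hN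
  have key : m 0 = 0 ∧ m 1 = 0 ∧ m 2 = 0 := by
    by_contra hcon
    have h3 := hh (m 0) (m 1) (m 2) (1 + |(m 0 : ℝ)| + |(m 2 : ℝ)|)
      (by have := abs_nonneg (m 0 : ℝ); have := abs_nonneg (m 2 : ℝ); linarith) hcon
      (by have := abs_nonneg (m 0 : ℝ); have := abs_nonneg (m 2 : ℝ); linarith)
      (by have := abs_nonneg (m 0 : ℝ); have := abs_nonneg (m 2 : ℝ); linarith)
    have r0 : (m 0 : ℝ) = N * (e : ℝ) := by exact_mod_cast congrArg (Rat.cast : ℚ → ℝ) h0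
    have r1 : (m 1 : ℝ) = N * (a : ℝ) := by exact_mod_cast congrArg (Rat.cast : ℚ → ℝ) h1
    have r2 : (m 2 : ℝ) = N * (c : ℝ) := by exact_mod_cast congrArg (Rat.cast : ℚ → ℝ) h2
    have e1 : (m 0 : ℝ) * (z 2 * z 3) + m 1 * z 2 + m 2 * z 4 = 0 := by
      rw [r0, r1, r2]
      linear_combination (N : ℝ) * h
    rw [e1, abs_zero] at h3
    have : 0 < c0 * (1 + |(m 0 : ℝ)| + |(m 2 : ℝ)|) ^ (-227 : ℝ) := by positivity
    linarith
  obtain ⟨k0, k1, k2⟩ := key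
  rw [k0, Int.cast_zero] at h0
  rw [k1, Int.cast_zero] at h1
  rw [k2, Int.cast_zero] at h2
  refine ⟨?_, ?_, ?_⟩
  · exact (mul_eq_zero.1 h0.symm).resolve_left hN'
  · exact (mul_eq_zero.1 h1.symm).resolve_left hN'
  · exact (mul_eq_zero.1 h2.symm).resolve_left hN'

/-- `b = d = 0` is impossible -/
theorem not_both (y : Fin 4 → ℚ) (hy : Rel y) : ¬ (y 1 = 0 ∧ y 3 = 0) := by
  rintro ⟨h1, h3⟩
  unfold Rel at hy
  rw [h1, h3] at hy
  have := indep_rat 1 (-(y 0)) (-(y 2)) (by push_cast; push_cast at hy; linarith)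
  exact one_ne_zero this.1

/-- `(b, d)` determines the solution -/
theorem determined (y y' : Fin 4 → ℚ) (hy : Rel y) (hy' : Rel y') (h1 : y 1 = y' 1)
    (h3 : y 3 = y' 3) : y = y' := by
  unfold Rel at hy hy'
  rw [h1, h3] at hy
  have := indep_rat 0 (y 0 - y' 0) (y 2 - y' 2) (by push_cast; linarith)
  obtain ⟨-, ha, hc⟩ := this
  funext i
  fin_cases i
  · exact sub_eq_zero.1 ha
  · exact h1
  · exact sub_eq_zero.1 hc
  · exact h3

theorem direction_aux (y y' : Fin 4 → ℚ) (hy : Rel y) (hy' : Rel y') (l : ℚ)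
    (h1 : y 1 = l * y' 1) (h3 : y 3 = l * y' 3) : y = y' := by
  have hy2 := hy
  have hy2' := hy'
  unfold Rel at hy hy'
  rw [h1, h3] at hy
  have := indep_rat (1 - l) (-(y 0 - l * y' 0)) (-(y 2 - l * y' 2)) (by
    push_cast
    push_cast at hy
    linear_combination hy - (l : ℝ) * hy')
  have hl : l = 1 := by linarith [this.1]
  apply determined y y' hy2 hy2'
  · rw [h1, hl, one_mul]
  · rw [h3, hl, one_mul]

/-- for every ratio `b : d` there is at most one solution -/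
theorem direction (y y' : Fin 4 → ℚ) (hy : Rel y) (hy' : Rel y') (h : y 1 * y' 3 = y' 1 * y 3) :
    y = y' := by
  have hn := not_both y' hy'
  by_cases h1 : y' 1 = 0
  · have h3 : y' 3 ≠ 0 := fun h3 => hn ⟨h1, h3⟩
    apply direction_aux y y' hy hy' (y 3 / y' 3)
    · rw [h1, zero_mul] at h
      rw [h1, mul_zero]
      exact (mul_eq_zero.1 h).resolve_right h3
    · rw [div_mul_cancel₀ _ h3]
  · apply direction_aux y y' hy hy' (y 1 / y' 1)
    · rw [div_mul_cancel₀ _ h1]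
    · rw [div_mul_eq_mul_div, eq_div_iff h1, h]
      ring

end Pool.Agent.Q252.ZP
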