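import Mathlib

/-!
# Representation of algebraic numbers of bounded height in a common number field of bounded degree

Let `α_1, …, α_m` be elements of a real number field of degree at most `d + 1`, each a root of a nonzero integer
polynomial with coefficients bounded by `H`. Then `q α_j = ∑_{i ≤ d} c_{j i} θ^i` with a real number `θ`, a natural number
`q` and integers `c_{j i}` which are bounded by `H ^ C`, where `C` depends on `m` and `d` only.
-/

open Polynomial

namespace Pool.Agent.Q252.ZU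

/-- bound of the roots of an integer polynomial -/
lemma root_bound {H : ℕ} {P : ℤ[X]} (hP : P ≠ 0) (hH : ∀ i, |P.coeff i| ≤ (H : ℤ)) {z : ℂ}
    (hz : aeval z P = 0) : ‖z‖ ≤ (H : ℝ) + 1 := by
  have hinj : Function.Injective (Int.castRingHom ℂ) := Int.cast_injective
  have hp : P.map (Int.castRingHom ℂ) ≠ 0 := (Polynomial.map_ne_zero_iff hinj).2 hP
  have hr : (P.map (Int.castRingHom ℂ)).IsRoot z := by
    rw [Polynomial.IsRoot.def, Polynomial.eval_map]
    rw [aeval_def] at hz
    simpa using hz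
  have h1 := Polynomial.IsRoot.norm_lt_cauchyBound hp hr
  have h2 : ((P.map (Int.castRingHom ℂ)).cauchyBound : ℝ) ≤ (H : ℝ) + 1 := by
    unfold Polynomial.cauchyBound
    rw [NNReal.coe_add, NNReal.coe_div, NNReal.coe_one, coe_nnnorm]
    have hl : (1 : ℝ) ≤ ‖(P.map (Int.castRingHom ℂ)).leadingCoeff‖ := by
      rw [Polynomial.leadingCoeff_map_of_injective hinj, eq_intCast, Complex.norm_intCast]
      have h3 : P.leadingCoeff ≠ 0 := Polynomial.leadingCoeff_ne_zero.2 hP
      exact_mod_cast Int.one_le_abs h3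
    have hs : (((Finset.range (P.map (Int.castRingHom ℂ)).natDegree).sup
        fun i => ‖(P.map (Int.castRingHom ℂ)).coeff i‖₊ : NNReal) : ℝ) ≤ H := by
      have : ((Finset.range (P.map (Int.castRingHom ℂ)).natDegree).sup
        fun i => ‖(P.map (Int.castRingHom ℂ)).coeff i‖₊) ≤ (H : NNReal) := by
        apply Finset.sup_le
        intro i _
        rw [← NNReal.coe_le_coe, coe_nnnorm, Polynomial.coeff_map, eq_intCast, Complex.norm_intCast,
          NNReal.coe_natCast]
        exact_mod_cast hH i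
      exact_mod_cast this
    have h0 : (0 : ℝ) < ‖(P.map (Int.castRingHom ℂ)).leadingCoeff‖ := by linarith
    have hH0 : (0 : ℝ) ≤ H := Nat.cast_nonneg H
    have : (((Finset.range (P.map (Int.castRingHom ℂ)).natDegree).sup
        fun i => ‖(P.map (Int.castRingHom ℂ)).coeff i‖₊ : NNReal) : ℝ) /
        ‖(P.map (Int.castRingHom ℂ)).leadingCoeff‖ ≤ H := by
      rw [div_le_iff₀ h0]
      nlinarith
    linarith
  have h3 : ‖z‖ < ((P.map (Int.castRingHom ℂ)).cauchyBound : ℝ) := by exact_mod_cast h1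
  linarith

/-- a small natural number which is not a root -/
lemma exists_nat_not_root {Q : ℂ[X]} (hQ : Q ≠ 0) {N : ℕ} (hN : Q.natDegree ≤ N) :
    ∃ T : ℕ, T ≤ N ∧ Q.eval (T : ℂ) ≠ 0 := by
  classical
  by_contra hc
  push Not at hc
  apply hQ
  apply Polynomial.eq_zero_of_natDegree_lt_card_of_eval_eq_zero' Q
    ((Finset.range (N + 1)).image (fun n : ℕ => (n : ℂ)))
  · intro x hx
    rw [Finset.mem_image] at hx
    obtain ⟨n, hn, rfl⟩ := hx
    rw [Finset.mem_range] at hn
    exact hc n (by omega)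
  · rw [Finset.card_image_of_injective _ Nat.cast_injective, Finset.card_range]
    omega

/-- a small primitive element -/
lemma exists_primitive {m d : ℕ} (K : IntermediateField ℚ ℝ) [FiniteDimensional ℚ K]
    (hd : Module.finrank ℚ K ≤ d + 1) (b : Fin m → K)
    (hgen : ∀ φ ψ : K →ₐ[ℚ] ℂ, (∀ j, φ (b j) = ψ (b j)) → φ = ψ) :
    ∃ T : ℕ, T ≤ (d + 1) * (d + 1) * m ∧
      IntermediateField.adjoin ℚ {(∑ j : Fin m, ((T ^ (j : ℕ) : ℕ) : K) * b j)} = ⊤ := by
  classical
  have hcard : Fintype.card (K →ₐ[ℚ] ℂ) ≤ d + 1 := by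
    have := AlgHom.card ℚ K ℂ
    rw [this]
    exact hd
  -- the polynomials
  let q : (K →ₐ[ℚ] ℂ) → (K →ₐ[ℚ] ℂ) → ℂ[X] := fun φ ψ =>
    if φ = ψ then 1 else ∑ j : Fin m, C (φ (b j) - ψ (b j)) * X ^ (j : ℕ)
  have hq0 : ∀ φ ψ, q φ ψ ≠ 0 := by
    intro φ ψ
    by_cases h : φ = ψ
    · simp only [q, if_pos h]; exact one_ne_zero
    · simp only [q, if_neg h]
      intro h0
      apply h
      apply hgen
      intro j
      have h1 := congrArg (fun p => p.coeff (j : ℕ)) h0
      simp only [Polynomial.finset_sum_coeff, Polynomial.coeff_C_mul, Polynomial.coeff_X_pow,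
        Polynomial.coeff_zero] at h1
      rw [Finset.sum_eq_single j] at h1
      · simpa [sub_eq_zero] using h1
      · intro i _ hij
        have : (j : ℕ) ≠ (i : ℕ) := fun h => hij (Fin.ext h.symm)
        simp [this]
      · intro h; exact absurd (Finset.mem_univ j) h
  have hqd : ∀ φ ψ, (q φ ψ).natDegree ≤ m := by
    intro φ ψ
    by_cases h : φ = ψ
    · simp only [q, if_pos h]; simp
    · simp only [q, if_neg h]
      apply Polynomial.natDegree_sum_le_of_forall_le
      intro j _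
      refine (Polynomial.natDegree_C_mul_X_pow_le _ _).trans ?_
      exact j.2.le
  have hQ0 : (∏ φ, ∏ ψ, q φ ψ) ≠ 0 :=
    Finset.prod_ne_zero_iff.2 fun φ _ => Finset.prod_ne_zero_iff.2 fun ψ _ => hq0 φ ψ
  have hQd : (∏ φ, ∏ ψ, q φ ψ).natDegree ≤ (d + 1) * (d + 1) * m := by
    refine (Polynomial.natDegree_prod_le _ _).trans ?_
    calc ∑ φ : (K →ₐ[ℚ] ℂ), (∏ ψ, q φ ψ).natDegree ≤ ∑ φ : (K →ₐ[ℚ] ℂ), (d + 1) * m := by
          apply Finset.sum_le_sum
          intro φ _
          refine (Polynomial.natDegree_prod_le _ _).trans ?_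
          calc ∑ ψ : (K →ₐ[ℚ] ℂ), (q φ ψ).natDegree ≤ ∑ ψ : (K →ₐ[ℚ] ℂ), m :=
                Finset.sum_le_sum fun ψ _ => hqd φ ψ
            _ = Fintype.card (K →ₐ[ℚ] ℂ) * m := by
                rw [Finset.sum_const, Finset.card_univ, smul_eq_mul]
            _ ≤ (d + 1) * m := Nat.mul_le_mul_right _ hcard
      _ = Fintype.card (K →ₐ[ℚ] ℂ) * ((d + 1) * m) := by
          rw [Finset.sum_const, Finset.card_univ, smul_eq_mul]
      _ ≤ (d + 1) * ((d + 1) * m) := Nat.mul_le_mul_right _ hcard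
      _ = _ := by ring
  obtain ⟨T, hT, hTe⟩ := exists_nat_not_root hQ0 hQd
  refine ⟨T, hT, ?_⟩
  rw [Field.primitive_element_iff_algHom_eq_of_eval' ℚ ℂ (fun x => IsAlgClosed.splits _)]
  intro φ ψ h
  by_contra hne
  rw [Polynomial.eval_prod, Finset.prod_ne_zero_iff] at hTe
  have h1 := hTe φ (Finset.mem_univ _)
  rw [Polynomial.eval_prod, Finset.prod_ne_zero_iff] at h1
  have h2 := h1 ψ (Finset.mem_univ _)
  apply h2
  simp only [q, if_neg hne]
  rw [Polynomial.eval_finset_sum]
  simp only at h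
  rw [map_sum, map_sum] at h
  have h3 : ∑ j : Fin m, (φ (b j) - ψ (b j)) * (T : ℂ) ^ (j : ℕ) = 0 := by
    have h4 : ∑ j : Fin m, φ (((T ^ (j : ℕ) : ℕ) : K) * b j) -
        ∑ j : Fin m, ψ (((T ^ (j : ℕ) : ℕ) : K) * b j) = 0 := by rw [h, sub_self]
    rw [← Finset.sum_sub_distrib] at h4
    rw [← h4]
    apply Finset.sum_congr rfl
    intro j _
    rw [map_mul, map_mul, map_natCast, map_natCast]
    push_cast
    ring
  rw [← h3]
  apply Finset.sum_congr rfl
  intro j _
  simp

end Pool.Agent.Q252.ZU
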