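import Pool.Agent.Q252.ZU1

/-!
# Coordinates with respect to the powers of an integral primitive element
-/

open Polynomial

namespace Pool.Agent.Q252.ZU

variable {K : IntermediateField ℚ ℝ} [FiniteDimensional ℚ K]

/-- the trace of an integral element is a bounded integer -/
lemma trace_int {d Y : ℕ} (hd : Module.finrank ℚ K ≤ d) (z : K) (hz : IsIntegral ℤ z)
    (hY : ∀ φ : K →ₐ[ℚ] ℂ, ‖φ z‖ ≤ Y) :
    ∃ t : ℤ, Algebra.trace ℚ K z = t ∧ |t| ≤ ((d * Y : ℕ) : ℤ) := by
  obtain ⟨t, ht⟩ := IsIntegrallyClosed.isIntegral_iff.1 (Algebra.isIntegral_trace (L := ℚ) hz)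
  refine ⟨t, by rw [← ht]; simp, ?_⟩
  have h1 := trace_eq_sum_embeddings (K := ℚ) (L := K) ℂ (x := z)
  have h2 : ‖(t : ℂ)‖ ≤ (d : ℝ) * Y := by
    have h3 : (t : ℂ) = ∑ σ : K →ₐ[ℚ] ℂ, σ z := by
      rw [← h1, ← ht]
      simp
    rw [h3]
    refine (norm_sum_le _ _).trans ?_
    calc ∑ σ : K →ₐ[ℚ] ℂ, ‖σ z‖ ≤ ∑ σ : K →ₐ[ℚ] ℂ, (Y : ℝ) := Finset.sum_le_sum fun σ _ => hY σ
      _ = (Fintype.card (K →ₐ[ℚ] ℂ) : ℝ) * Y := by
          rw [Finset.sum_const, Finset.card_univ, nsmul_eq_mul]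
      _ ≤ (d : ℝ) * Y := by
          have := AlgHom.card ℚ K ℂ
          rw [this]
          gcongr
  rw [Complex.norm_intCast] at h2
  have : ((|t| : ℤ) : ℝ) ≤ (((d * Y : ℕ) : ℤ) : ℝ) := by
    push_cast
    exact h2
  exact_mod_cast this

/-- **Coordinates.** -/
theorem coords {d X : ℕ} (hd : Module.finrank ℚ K ≤ d) (θ : K)
    (hθ : IntermediateField.adjoin ℚ {θ} = ⊤) (hi : IsIntegral ℤ θ) (hX1 : 1 ≤ X)
    (hX : ∀ φ : K →ₐ[ℚ] ℂ, ‖φ θ‖ ≤ X) :
    ∃ Δ : ℤ, Δ ≠ 0 ∧ |Δ| ≤ ((d.factorial * (d * X ^ (2 * d) + 1) ^ d : ℕ) : ℤ) ∧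
      ∀ (Y : ℕ) (z : K), IsIntegral ℤ z → (∀ φ : K →ₐ[ℚ] ℂ, ‖φ z‖ ≤ Y) →
        ∃ p : ℕ → ℤ, (∀ i, |p i| ≤ ((d * (d.factorial * (d * X ^ (2 * d) + 1) ^ d * (d * (Y * X ^ d))) : ℕ) : ℤ)) ∧
          (Δ : K) * z = ∑ i ∈ Finset.range d, (p i : K) * θ ^ i := by
  classical
  have hiQ : IsIntegral ℚ θ := IsIntegral.of_finite ℚ θ
  let e : IntermediateField.adjoin ℚ {θ} ≃ₐ[ℚ] K :=
    (IntermediateField.equivOfEq hθ).trans IntermediateField.topEquiv
  let pb : PowerBasis ℚ K := (IntermediateField.adjoin.powerBasis hiQ).map e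
  have hgen : pb.gen = θ := by
    simp only [pb, PowerBasis.map_gen, IntermediateField.adjoin.powerBasis_gen, e]
    rfl
  obtain ⟨k, hk⟩ : ∃ k, k = pb.dim := ⟨_, rfl⟩
  have hkd : pb.dim ≤ d := by
    rw [← pb.finrank]
    exact hd
  have hk1 : 0 < pb.dim := pb.dim_pos
  have hd1 : 1 ≤ d := by omega
  have hb : ∀ i, pb.basis i = θ ^ (i : ℕ) := by
    intro i
    rw [pb.basis_eq_pow, hgen]
  have hXr : (1 : ℝ) ≤ X := by exact_mod_cast hX1
  have hpow : ∀ (φ : K →ₐ[ℚ] ℂ) (i N : ℕ), i ≤ N → ‖φ (θ ^ i)‖ ≤ (X : ℝ) ^ N := by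
    intro φ i N hiN
    rw [map_pow, norm_pow]
    calc ‖φ θ‖ ^ i ≤ (X : ℝ) ^ i := pow_le_pow_left₀ (norm_nonneg _) (hX φ) i
      _ ≤ (X : ℝ) ^ N := pow_le_pow_right₀ hXr hiN
  -- the trace matrix
  have hT : ∀ i j : Fin pb.dim, ∃ t : ℤ, Algebra.trace ℚ K (θ ^ (i : ℕ) * θ ^ (j : ℕ)) = t ∧
      |t| ≤ ((d * X ^ (2 * d) : ℕ) : ℤ) := by
    intro i j
    apply trace_int hd _ ((hi.pow _).mul (hi.pow _))
    intro φ
    rw [← pow_add]
    push_cast
    apply hpow
    omega
  choose TM hTM hTMb using hT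
  have hdetb : ∀ (M : Matrix (Fin pb.dim) (Fin pb.dim) ℤ),
      (∀ i j, |M i j| ≤ ((d * X ^ (2 * d) + 1 : ℕ) : ℤ)) →
      |M.det| ≤ ((d.factorial * (d * X ^ (2 * d) + 1) ^ d : ℕ) : ℤ) := by
    intro M hM
    have h1 := Matrix.det_le (A := M) (abv := AbsoluteValue.abs) (x := ((d * X ^ (2 * d) + 1 : ℕ) : ℤ)) hM
    rw [Fintype.card_fin, nsmul_eq_mul] at h1
    refine h1.trans ?_
    have h2 : pb.dim.factorial ≤ d.factorial := Nat.factorial_le hkd
    have h3 : (d * X ^ (2 * d) + 1) ^ pb.dim ≤ (d * X ^ (2 * d) + 1) ^ d :=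
      Nat.pow_le_pow_right (by omega) hkd
    exact_mod_cast Nat.mul_le_mul h2 h3
  have hTMb' : ∀ i j, |TM i j| ≤ ((d * X ^ (2 * d) + 1 : ℕ) : ℤ) := by
    intro i j
    refine (hTMb i j).trans ?_
    exact_mod_cast Nat.le_succ _
  let M : Matrix (Fin pb.dim) (Fin pb.dim) ℤ := Matrix.of TM
  have hMQ : M.map (Int.cast : ℤ → ℚ) = Algebra.traceMatrix ℚ pb.basis := by
    ext i j
    rw [Matrix.map_apply, Algebra.traceMatrix_apply, Algebra.traceForm_apply, hb, hb, hTM]
    rfl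
  have hdet : ((M.det : ℤ) : ℚ) = Algebra.discr ℚ pb.basis := by
    rw [Algebra.discr_def, ← hMQ]
    exact Int.cast_det M
  refine ⟨M.det, ?_, hdetb M hTMb', ?_⟩
  · have h1 := Algebra.discr_not_zero_of_basis ℚ pb.basis
    rw [← hdet] at h1
    exact_mod_cast h1
  · intro Y z hz hY
    have hs : ∀ i : Fin pb.dim, ∃ t : ℤ, Algebra.trace ℚ K (z * θ ^ (i : ℕ)) = t ∧
        |t| ≤ ((d * (Y * X ^ d) : ℕ) : ℤ) := by
      intro i
      apply trace_int hd _ (hz.mul (hi.pow _))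
      intro φ
      rw [map_mul, norm_mul]
      push_cast
      exact mul_le_mul (hY φ) (hpow φ _ _ (by omega)) (norm_nonneg _) (Nat.cast_nonneg _)
    choose tz htz htzb using hs
    let p0 : Fin pb.dim → ℤ := M.adjugate.mulVec tz
    -- coordinates
    have hcoord : ∀ i, ((M.det : ℤ) : ℚ) * pb.basis.equivFun z i = (p0 i : ℚ) := by
      have h1 := Algebra.traceMatrix_of_basis_mulVec pb.basis z
      rw [← hMQ] at h1
      have h2 : (fun i => Algebra.trace ℚ K (z * pb.basis i)) = fun i => ((tz i : ℤ) : ℚ) := by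
        funext i
        rw [hb, htz]
      rw [h2] at h1
      have h3 := congrArg (fun w => (M.map (Int.cast : ℤ → ℚ)).adjugate.mulVec w) h1
      simp only [Matrix.mulVec_mulVec, Matrix.adjugate_mul, Matrix.smul_mulVec, Matrix.one_mulVec] at h3
      intro i
      have h4 := congrFun h3 i
      rw [Pi.smul_apply, smul_eq_mul] at h4
      have h5 : (M.map (Int.cast : ℤ → ℚ)).det = ((M.det : ℤ) : ℚ) := (Int.cast_det M).symm
      rw [h5] at h4
      rw [h4]
      have h6 : (M.map (Int.cast : ℤ → ℚ)).adjugate = M.adjugate.map (Int.cast : ℤ → ℚ) :=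
        (RingHom.map_adjugate (Int.castRingHom ℚ) M).symm
      rw [h6]
      simp only [p0, Matrix.mulVec, dotProduct, Matrix.map_apply]
      push_cast
      rfl
    have hadj : ∀ i j, |M.adjugate i j| ≤ ((d.factorial * (d * X ^ (2 * d) + 1) ^ d : ℕ) : ℤ) := by
      intro i j
      rw [Matrix.adjugate_apply]
      apply hdetb
      intro a b
      rw [Matrix.updateRow_apply]
      split_ifs with h
      · rw [Pi.single_apply]
        split_ifs
        · rw [abs_one]
          exact_mod_cast Nat.le_add_left _ _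
        · rw [abs_zero]; positivity
      · exact hTMb' a b
    have hp0b : ∀ i, |p0 i| ≤
        ((d * (d.factorial * (d * X ^ (2 * d) + 1) ^ d * (d * (Y * X ^ d))) : ℕ) : ℤ) := by
      intro i
      simp only [p0, Matrix.mulVec, dotProduct]
      refine (Finset.abs_sum_le_sum_abs _ _).trans ?_
      calc ∑ j, |M.adjugate i j * tz j| ≤ ∑ j : Fin pb.dim,
            ((d.factorial * (d * X ^ (2 * d) + 1) ^ d * (d * (Y * X ^ d)) : ℕ) : ℤ) := by
            apply Finset.sum_le_sum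
            intro j _
            rw [abs_mul]
            push_cast
            have h1 := hadj i j
            have h2 := htzb j
            push_cast at h1 h2
            exact mul_le_mul h1 h2 (abs_nonneg _) (by positivity)
        _ = (pb.dim : ℤ) * ((d.factorial * (d * X ^ (2 * d) + 1) ^ d * (d * (Y * X ^ d)) : ℕ) : ℤ) := by
            rw [Finset.sum_const, Finset.card_univ, Fintype.card_fin, nsmul_eq_mul]
        _ ≤ _ := by
            push_cast
            have : (pb.dim : ℤ) ≤ d := by exact_mod_cast hkd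
            gcongr
    refine ⟨fun i => if h : i < pb.dim then p0 ⟨i, h⟩ else 0, fun i => ?_, ?_⟩
    · by_cases h : i < pb.dim
      · simp only [dif_pos h]
        exact hp0b _
      · simp only [dif_neg h, abs_zero]
        positivity
    · have h1 : (M.det : K) * z = ∑ i : Fin pb.dim, ((p0 i : ℤ) : K) * θ ^ (i : ℕ) := by
        have h2 := pb.basis.sum_equivFun z
        have h3 : (M.det : K) * z = ∑ i, (M.det : K) * (pb.basis.equivFun z i • pb.basis i) := by
          rw [← Finset.mul_sum, h2]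
        rw [h3]
        apply Finset.sum_congr rfl
        intro i _
        rw [hb, Algebra.smul_def, ← mul_assoc]
        congr 1
        have h4 := congrArg (algebraMap ℚ K) (hcoord i)
        rw [map_mul, map_intCast, map_intCast] at h4
        exact h4
      rw [h1]
      have h2 : ∑ i : Fin pb.dim, ((p0 i : ℤ) : K) * θ ^ (i : ℕ) =
          ∑ i : Fin pb.dim, (fun i : ℕ => (((if h : i < pb.dim then p0 ⟨i, h⟩ else 0 : ℤ)) : K) * θ ^ i) i := by
        apply Finset.sum_congr rfl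
        intro i _
        simp only [dif_pos i.2, Fin.eta]
      rw [h2, Fin.sum_univ_eq_sum_range
        (fun i : ℕ => (((if h : i < pb.dim then p0 ⟨i, h⟩ else 0 : ℤ)) : K) * θ ^ i) pb.dim]
      apply Finset.sum_subset
      · intro i hi
        rw [Finset.mem_range] at hi ⊢
        omega
      · intro i _ hi
        rw [Finset.mem_range] at hi
        simp [dif_neg hi]

end Pool.Agent.Q252.ZU
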