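import Pool.Agent.Q252.ZU2

/-!
# The representation with bounded integers
-/

open Polynomial

namespace Pool.Agent.Q252.ZU

lemma le_pow_self2 {H : ℕ} (hH : 2 ≤ H) (c : ℕ) : c ≤ H ^ c :=
  (Nat.lt_two_pow_self (n := c)).le.trans (Nat.pow_le_pow_left hH c)

lemma HH_le {H : ℕ} (hH : 2 ≤ H) : H * (H + 1) ≤ H ^ 3 := by
  have : H + 1 ≤ H * H := by nlinarith
  calc H * (H + 1) ≤ H * (H * H) := Nat.mul_le_mul_left _ this
    _ = H ^ 3 := by ring

/-- the size of the bounds -/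
lemma sizes (d x : ℕ) : ∃ C : ℕ, ∀ H X : ℕ, 2 ≤ H → X ≤ H ^ x →
    d.factorial * (d * X ^ (2 * d) + 1) ^ d ≤ H ^ C ∧
    d * (d.factorial * (d * X ^ (2 * d) + 1) ^ d * (d * (H * (H + 1) * X ^ d))) ≤ H ^ C := by
  obtain ⟨E, hE⟩ : ∃ E, E = d * d + (d + x * (2 * d) + 1) * d := ⟨_, rfl⟩
  refine ⟨E + (d + (d + (3 + x * d))), fun H X hH hX => ?_⟩
  have hH1 : 1 ≤ H := by omega
  have h1 : d.factorial ≤ H ^ (d * d) := by
    calc d.factorial ≤ d ^ d := Nat.factorial_le_pow d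
      _ ≤ (H ^ d) ^ d := Nat.pow_le_pow_left (le_pow_self2 hH d) d
      _ = _ := by rw [← pow_mul]
  have h2 : d * X ^ (2 * d) + 1 ≤ H ^ (d + x * (2 * d) + 1) := by
    have h3 : d * X ^ (2 * d) ≤ H ^ (d + x * (2 * d)) := by
      rw [pow_add]
      apply Nat.mul_le_mul (le_pow_self2 hH d)
      rw [pow_mul H x]
      exact Nat.pow_le_pow_left hX _
    have h4 : 1 ≤ H ^ (d + x * (2 * d)) := Nat.one_le_pow _ _ (by omega)
    calc d * X ^ (2 * d) + 1 ≤ H ^ (d + x * (2 * d)) * 2 := by omega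
      _ ≤ H ^ (d + x * (2 * d)) * H := Nat.mul_le_mul_left _ hH
      _ = _ := by rw [pow_succ]
  have h5 : d.factorial * (d * X ^ (2 * d) + 1) ^ d ≤ H ^ E := by
    rw [hE, pow_add]
    apply Nat.mul_le_mul h1
    rw [pow_mul H]
    exact Nat.pow_le_pow_left h2 _
  refine ⟨h5.trans (Nat.pow_le_pow_right hH1 (by omega)), ?_⟩
  have h6 : d * (H * (H + 1) * X ^ d) ≤ H ^ (d + (3 + x * d)) := by
    rw [pow_add, pow_add]
    apply Nat.mul_le_mul (le_pow_self2 hH d)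
    apply Nat.mul_le_mul (HH_le hH)
    rw [pow_mul H x]
    exact Nat.pow_le_pow_left hX _
  calc d * (d.factorial * (d * X ^ (2 * d) + 1) ^ d * (d * (H * (H + 1) * X ^ d)))
      ≤ H ^ d * (H ^ E * H ^ (d + (3 + x * d))) :=
        Nat.mul_le_mul (le_pow_self2 hH d) (Nat.mul_le_mul h5 h6)
    _ = _ := by rw [← pow_add, ← pow_add]; congr 1; ring

/-- **The representation.** -/
theorem field_rep (m d : ℕ) : ∃ C : ℕ, ∀ H : ℕ, 2 ≤ H → ∀ F : IntermediateField ℚ ℝ,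
    FiniteDimensional ℚ F → Module.finrank ℚ F ≤ d + 1 → ∀ α : Fin m → ℝ, (∀ j, α j ∈ F) →
    (∀ j, ∃ P : ℤ[X], P ≠ 0 ∧ (∀ i, |P.coeff i| ≤ (H : ℤ)) ∧ aeval (α j) P = 0) →
    ∃ (q : ℕ) (θ : ℝ) (c : Fin m → ℕ → ℤ), H ≤ q ∧ q ≤ H ^ C ∧
      (∀ j i, |c j i| ≤ ((H ^ C : ℕ) : ℤ)) ∧
      ∀ j, (q : ℝ) * α j = ∑ i ∈ Finset.range (d + 1), (c j i : ℝ) * θ ^ i := by
  classical
  obtain ⟨N, hN⟩ : ∃ N, N = (d + 1) * (d + 1) * m := ⟨_, rfl⟩
  obtain ⟨κ, hκ⟩ : ∃ κ, κ = m * (N + 1) ^ m + 1 := ⟨_, rfl⟩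
  obtain ⟨C0, hC0⟩ := sizes (d + 1) (κ + 3)
  refine ⟨1 + m + C0, fun H hH F hF hFd α hα hP => ?_⟩
  choose P hP0 hPH hPα using hP
  have hH1 : 1 ≤ H := by omega
  obtain ⟨a, ha⟩ : ∃ a : Fin m → ℤ, ∀ j, a j = (P j).leadingCoeff := ⟨_, fun _ => rfl⟩
  have ha0 : ∀ j, a j ≠ 0 := fun j => by rw [ha]; exact Polynomial.leadingCoeff_ne_zero.2 (hP0 j)
  have haH : ∀ j, |a j| ≤ (H : ℤ) := fun j => by rw [ha]; exact hPH j _
  obtain ⟨β, hβ⟩ : ∃ β : Fin m → ℝ, ∀ j, β j = (a j : ℝ) * α j := ⟨_, fun _ => rfl⟩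
  let K : IntermediateField ℚ ℝ := IntermediateField.adjoin ℚ (Set.range β)
  have hKF : K ≤ F := by
    rw [IntermediateField.adjoin_le_iff]
    rintro x ⟨j, rfl⟩
    rw [hβ]
    exact F.mul_mem (F.intCast_mem _) (hα j)
  have : FiniteDimensional ℚ K :=
    FiniteDimensional.of_injective (IntermediateField.inclusion hKF).toLinearMap
      (IntermediateField.inclusion_injective hKF)
  have hKd : Module.finrank ℚ K ≤ d + 1 := by
    refine le_trans ?_ hFd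
    exact LinearMap.finrank_le_finrank_of_injective (f := (IntermediateField.inclusion hKF).toLinearMap)
      (IntermediateField.inclusion_injective hKF)
  have hβK : ∀ j, β j ∈ K := fun j => IntermediateField.subset_adjoin ℚ _ ⟨j, rfl⟩
  have hαK : ∀ j, α j ∈ K := by
    intro j
    have h1 : α j = ((a j : ℤ) : ℝ)⁻¹ * β j := by
      rw [hβ]
      have : (a j : ℝ) ≠ 0 := by exact_mod_cast ha0 j
      field_simp
    rw [h1]
    exact K.mul_mem (K.inv_mem (K.intCast_mem _)) (hβK j)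
  let b : Fin m → K := fun j => ⟨β j, hβK j⟩
  let al : Fin m → K := fun j => ⟨α j, hαK j⟩
  have hbal : ∀ j, b j = (a j : K) * al j := by
    intro j
    apply Subtype.ext
    simp only [b, al, hβ]
    push_cast
    rfl
  have hbi : ∀ j, IsIntegral ℤ (b j) := by
    intro j
    have h1 : IsIntegral ℤ ((P j).leadingCoeff • α j) := isIntegral_leadingCoeff_smul _ _ (hPα j)
    have h2 : (P j).leadingCoeff • α j = β j := by rw [hβ, ha, zsmul_eq_mul]
    rw [h2] at h1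
    have h3 : IsIntegral ℤ (K.val.restrictScalars ℤ (b j)) := h1
    exact (isIntegral_algHom_iff (K.val.restrictScalars ℤ) (fun x y h => Subtype.ext h)).1 h3
  have hφ : ∀ (φ : K →ₐ[ℚ] ℂ) j, ‖φ (b j)‖ ≤ ((H * (H + 1) : ℕ) : ℝ) := by
    intro φ j
    have h1 : aeval (al j) (P j) = 0 := by
      apply Subtype.ext
      have h2 : ((aeval (al j) (P j) : K) : ℝ) = aeval (α j) (P j) := by
        have := Polynomial.aeval_algHom_apply (K.val.restrictScalars ℤ) (al j) (P j)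
        exact this.symm
      rw [h2, hPα]
      rfl
    have h3 : aeval (φ (al j)) (P j) = 0 := by
      have := Polynomial.aeval_algHom_apply (φ.restrictScalars ℤ) (al j) (P j)
      rw [h1, map_zero] at this
      exact this
    have h4 := root_bound (hP0 j) (hPH j) h3
    rw [hbal, map_mul, norm_mul, map_intCast, Complex.norm_intCast]
    push_cast
    have h5 : |((a j : ℤ) : ℝ)| ≤ H := by exact_mod_cast haH j
    exact mul_le_mul h5 h4 (norm_nonneg _) (Nat.cast_nonneg _)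
  obtain ⟨T, hTN, hT⟩ := exists_primitive (d := d) K hKd b (by
    intro φ ψ h
    apply IntermediateField.algHom_ext_of_eq_adjoin ℚ (rfl : K = IntermediateField.adjoin ℚ (Set.range β))
    rintro x ⟨j, rfl⟩
    exact h j)
  rw [← hN] at hTN
  obtain ⟨θ, hθ⟩ : ∃ θ : K, θ = ∑ j : Fin m, ((T ^ (j : ℕ) : ℕ) : K) * b j := ⟨_, rfl⟩
  rw [← hθ] at hT
  have hθi : IsIntegral ℤ θ := by
    rw [hθ]
    apply IsIntegral.sum
    intro j _
    apply IsIntegral.mul _ (hbi j)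
    exact isIntegral_algebraMap (R := ℤ) (A := K) (x := ((T ^ (j : ℕ) : ℕ) : ℤ)) |> fun h => by
      simpa using h
  obtain ⟨X, hX⟩ : ∃ X, X = m * (N + 1) ^ m * (H * (H + 1)) + 1 := ⟨_, rfl⟩
  have hX1 : 1 ≤ X := by omega
  have hXH : X ≤ H ^ (κ + 3) := by
    have h1 : 1 ≤ H * (H + 1) := Nat.mul_pos hH1 (by omega)
    calc X ≤ κ * (H * (H + 1)) := by rw [hX, hκ, add_mul, one_mul]; omega
      _ ≤ H ^ κ * H ^ 3 := Nat.mul_le_mul (le_pow_self2 hH κ) (HH_le hH)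
      _ = _ := by rw [← pow_add]
  have hθX : ∀ φ : K →ₐ[ℚ] ℂ, ‖φ θ‖ ≤ X := by
    intro φ
    rw [hθ, map_sum]
    refine (norm_sum_le _ _).trans ?_
    have h1 : ∀ j : Fin m, ‖φ (((T ^ (j : ℕ) : ℕ) : K) * b j)‖ ≤ (((N + 1) ^ m * (H * (H + 1)) : ℕ) : ℝ) := by
      intro j
      rw [map_mul, norm_mul, map_natCast, Complex.norm_natCast, Nat.cast_mul ((N + 1) ^ m)]
      apply mul_le_mul _ (hφ φ j) (norm_nonneg _) (Nat.cast_nonneg _)
      have : T ^ (j : ℕ) ≤ (N + 1) ^ m :=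
        (Nat.pow_le_pow_left (by omega : T ≤ N + 1) _).trans
          (Nat.pow_le_pow_right (by omega) j.2.le)
      exact_mod_cast this
    refine (Finset.sum_le_sum fun j _ => h1 j).trans ?_
    rw [Finset.sum_const, Finset.card_univ, Fintype.card_fin, nsmul_eq_mul, hX]
    push_cast
    nlinarith
  obtain ⟨Δ, hΔ0, hΔb, hΔ⟩ := coords (d := d + 1) hKd θ hT hθi hX1 hθX
  obtain ⟨hs1, hs2⟩ := hC0 H X hH hXH
  have hpj : ∀ j, ∃ p : ℕ → ℤ, (∀ i, |p i| ≤ ((H ^ C0 : ℕ) : ℤ)) ∧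
      (Δ : K) * b j = ∑ i ∈ Finset.range (d + 1), (p i : K) * θ ^ i := by
    intro j
    obtain ⟨p, hp1, hp2⟩ := hΔ (H * (H + 1)) (b j) (hbi j) (fun φ => hφ φ j)
    exact ⟨p, fun i => (hp1 i).trans (by exact_mod_cast hs2), hp2⟩
  choose p hpb hp using hpj
  have hΔH : |Δ| ≤ ((H ^ C0 : ℕ) : ℤ) := hΔb.trans (by exact_mod_cast hs1)
  -- the number q
  obtain ⟨A, hA⟩ : ∃ A : ℤ, A = ∏ l, a l := ⟨_, rfl⟩
  have hA0 : A ≠ 0 := by rw [hA]; exact Finset.prod_ne_zero_iff.2 fun l _ => ha0 l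
  have hAb : |A| ≤ (H : ℤ) ^ m := by
    rw [hA, Finset.abs_prod]
    calc ∏ l, |a l| ≤ ∏ l : Fin m, (H : ℤ) := Finset.prod_le_prod (fun l _ => abs_nonneg _) fun l _ => haH l
      _ = _ := by rw [Finset.prod_const, Finset.card_univ, Fintype.card_fin]
  have hAΔ : A * Δ ≠ 0 := mul_ne_zero hA0 hΔ0
  obtain ⟨s, hs⟩ : ∃ s : ℤ, s = (A * Δ).sign := ⟨_, rfl⟩
  have hsabs : |s| = 1 := by rw [hs, Int.abs_sign_of_ne_zero hAΔ]
  have hsq : s * (A * Δ) = ((A * Δ).natAbs : ℤ) := by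
    rw [hs, Int.sign_mul_self_eq_abs, Int.abs_eq_natAbs]
  have hq1 : 1 ≤ (A * Δ).natAbs := Nat.one_le_iff_ne_zero.2 (Int.natAbs_ne_zero.2 hAΔ)
  have her : ∀ j, |∏ l ∈ Finset.univ.erase j, a l| ≤ (H : ℤ) ^ m := by
    intro j
    rw [Finset.abs_prod]
    calc ∏ l ∈ Finset.univ.erase j, |a l| ≤ ∏ l ∈ Finset.univ.erase j, (H : ℤ) :=
          Finset.prod_le_prod (fun l _ => abs_nonneg _) fun l _ => haH l
      _ = (H : ℤ) ^ (Finset.univ.erase j).card := by rw [Finset.prod_const]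
      _ ≤ (H : ℤ) ^ m := by
          apply pow_le_pow_right₀ (by exact_mod_cast hH1)
          rw [Finset.card_erase_of_mem (Finset.mem_univ _), Finset.card_univ, Fintype.card_fin]
          omega
  refine ⟨H * (A * Δ).natAbs, (θ : ℝ), fun j i => H * s * (∏ l ∈ Finset.univ.erase j, a l) * p j i,
    Nat.le_mul_of_pos_right _ (by omega), ?_, ?_, ?_⟩
  · have h1 : (((A * Δ).natAbs : ℕ) : ℤ) ≤ (H : ℤ) ^ m * ((H ^ C0 : ℕ) : ℤ) := by
      rw [← Int.abs_eq_natAbs, abs_mul]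
      exact mul_le_mul hAb hΔH (abs_nonneg _) (by positivity)
    have h2 : (A * Δ).natAbs ≤ H ^ m * H ^ C0 := by exact_mod_cast h1
    calc H * (A * Δ).natAbs ≤ H * (H ^ m * H ^ C0) := Nat.mul_le_mul_left _ h2
      _ = _ := by rw [pow_add, pow_add, pow_one, mul_assoc]
  · intro j i
    rw [abs_mul, abs_mul, abs_mul, hsabs, Nat.abs_cast, mul_one]
    calc (H : ℤ) * |∏ l ∈ Finset.univ.erase j, a l| * |p j i| ≤ (H : ℤ) * (H : ℤ) ^ m * ((H ^ C0 : ℕ) : ℤ) := by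
          have h1 := her j
          have h2 := hpb j i
          gcongr
      _ = _ := by push_cast; rw [pow_add, pow_add, pow_one]
  · intro j
    have h1 := congrArg (fun x : K => (x : ℝ)) (hp j)
    push_cast at h1
    have h2 : ((b j : K) : ℝ) = (a j : ℝ) * α j := hβ j
    rw [h2] at h1
    have h3 : (((H * (A * Δ).natAbs : ℕ)) : ℝ) = H * s * A * Δ := by
      have h4 : (((A * Δ).natAbs : ℕ) : ℝ) = (s : ℝ) * (A * Δ) := by
        have h6 := congrArg (fun x : ℤ => (x : ℝ)) hsq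
        rw [Int.cast_natCast, Int.cast_mul, Int.cast_mul] at h6
        exact h6.symm
      rw [Nat.cast_mul, h4]
      ring
    have h5 : (A : ℝ) = (∏ l ∈ Finset.univ.erase j, (a l : ℝ)) * a j := by
      rw [hA, Int.cast_prod, mul_comm]
      exact (Finset.mul_prod_erase Finset.univ (fun l => (a l : ℝ)) (Finset.mem_univ j)).symm
    rw [h3, h5]
    calc (H : ℝ) * s * ((∏ l ∈ Finset.univ.erase j, (a l : ℝ)) * a j) * Δ * α j
        = (H : ℝ) * s * (∏ l ∈ Finset.univ.erase j, (a l : ℝ)) * (Δ * (a j * α j)) := by ring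
      _ = (H : ℝ) * s * (∏ l ∈ Finset.univ.erase j, (a l : ℝ)) *
          ∑ i ∈ Finset.range (d + 1), (p j i : ℝ) * (θ : ℝ) ^ i := by rw [h1]
      _ = _ := by
          rw [Finset.mul_sum]
          apply Finset.sum_congr rfl
          intro i _
          push_cast
          ring

end Pool.Agent.Q252.ZU
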