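import Pool.Agent.Q252.ZU3
import Pool.Agent.Y926.TW.Main
import Pool.Agent.Y926.TW.Sim

/-!
# Odd zeta values and algebraic numbers of bounded height in number fields of bounded degree
-/

open Polynomial Pool.Agent.H337R2 Pool.Agent.W165.OZ Pool.Agent.Y926.LZ Pool.Agent.Y926.TW

namespace Pool.Agent.Q252.ZU

/-- **Distances, uniformly in the numbers `v_i`** (after `Pool.Agent.Y926.TW.window_dist`, where the threshold is not
stated to be independent of `v` and `A`). -/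
theorem window_dist_unif {b K D s : ℕ} (hK : 1 ≤ K)
    (hs : (2 : ℝ) ^ (132 * (D + 1)) * ((b : ℝ) + 1) ^ 2 * (K : ℝ) ^ 3 * Real.log (K + 1) ≤ (s : ℝ) ^ 2) :
    ∃ q0 : ℕ, ∀ (v : Fin D → ℝ) (A q : ℕ), q0 ≤ q → K ≤ Set.ncard {j : ℕ | b < j ∧ j ≤ s ∧ Odd j ∧
      ∀ (r : ℤ) (p : Fin D → ℤ), (∀ i, |(p i : ℝ)| ≤ (q : ℝ) ^ A) →
        1 / (q : ℝ) ^ (D * (D + 2) * A + 2 * D + 2) ≤
          |(q : ℝ) * (∑' n : ℕ, 1 / ((n : ℝ) + 1) ^ j) - r - ∑ i, (p i : ℝ) * v i|} := by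
  classical
  obtain ⟨q1, hq1⟩ := window_core (b := b) (K := K) (S := D + 1) (s := s) hK (by omega) hs
  refine ⟨max q1 ((D + 1) ^ (D + 1) + 1), fun v A q hq => ?_⟩
  have hqq1 : q1 ≤ q := (le_max_left _ _).trans hq
  have hqD : (D + 1) ^ (D + 1) < q := by
    have := (le_max_right _ _).trans hq
    omega
  have hq0 : 1 ≤ q := by omega
  obtain ⟨I, hI, hset⟩ := mem_win b s (fun j =>
    ∀ (r : ℤ) (p : Fin D → ℤ), (∀ i, |(p i : ℝ)| ≤ (q : ℝ) ^ A) →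
        1 / (q : ℝ) ^ (D * (D + 2) * A + 2 * D + 2) ≤
          |(q : ℝ) * (∑' n : ℕ, 1 / ((n : ℝ) + 1) ^ j) - r - ∑ i, (p i : ℝ) * v i|)
  rw [hset, Set.ncard_coe_finset]
  have hqr : (1 : ℝ) ≤ q := by exact_mod_cast hq0
  have hqp : (0 : ℝ) < q := by linarith
  obtain ⟨E, hE⟩ : ∃ E, E = (D + 1) * A + 2 := ⟨_, rfl⟩
  obtain ⟨n, hn1, hn2, hn3⟩ := dirichlet_sim D v (q ^ E) (Nat.one_le_pow _ _ (by omega))
  choose P hP using hn3
  refine hq1 (n * q) ?_ I fun j h1 h2 h3 h4 => ?_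
  · calc q1 ≤ 1 * q := by omega
      _ ≤ n * q := Nat.mul_le_mul_right q hn1
  have h5 : ∃ (r : ℤ) (p : Fin D → ℤ), (∀ i, |(p i : ℝ)| ≤ (q : ℝ) ^ A) ∧
      |(q : ℝ) * (∑' n : ℕ, 1 / ((n : ℝ) + 1) ^ j) - r - ∑ i, (p i : ℝ) * v i| <
        1 / (q : ℝ) ^ (D * (D + 2) * A + 2 * D + 2) := by
    by_contra hc
    refine h4 ((hI j).2 ⟨h2, h3, h1, fun r p hp => ?_⟩)
    by_contra hc2
    exact hc ⟨r, p, hp, not_le.1 hc2⟩
  obtain ⟨r, p, hp, hlt⟩ := h5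
  refine ⟨n * r + ∑ i, p i * P i, ?_⟩
  have hz : zr j = ∑' n : ℕ, 1 / ((n : ℝ) + 1) ^ j := rfl
  rw [← hz] at hlt
  have e1 : ((n * q : ℕ) : ℝ) * zr j - ((n * r + ∑ i, p i * P i : ℤ) : ℝ) =
      (n : ℝ) * ((q : ℝ) * zr j - r - ∑ i, (p i : ℝ) * v i) + ∑ i, (p i : ℝ) * ((n : ℝ) * v i - P i) := by
    push_cast
    have : ∑ i, (p i : ℝ) * ((n : ℝ) * v i - P i) =
        (n : ℝ) * (∑ i, (p i : ℝ) * v i) - ∑ i, (p i : ℝ) * P i := by
      rw [Finset.mul_sum, ← Finset.sum_sub_distrib]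
      exact Finset.sum_congr rfl fun i _ => by ring
    rw [this]
    ring
  have hnr : (n : ℝ) ≤ (q : ℝ) ^ (E * D) := by
    have : n ≤ q ^ (E * D) := by
      rw [pow_mul]
      exact hn2
    exact_mod_cast this
  have hn0 : (0 : ℝ) < n := by exact_mod_cast (by omega : 0 < n)
  have b1 : |(n : ℝ) * ((q : ℝ) * zr j - r - ∑ i, (p i : ℝ) * v i)| ≤ 1 / (q : ℝ) ^ (D * A + 2) := by
    rw [abs_mul, abs_of_pos hn0]
    calc (n : ℝ) * |(q : ℝ) * zr j - r - ∑ i, (p i : ℝ) * v i|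
        ≤ (q : ℝ) ^ (E * D) * (1 / (q : ℝ) ^ (D * (D + 2) * A + 2 * D + 2)) :=
          mul_le_mul hnr hlt.le (abs_nonneg _) (by positivity)
      _ = 1 / (q : ℝ) ^ (D * A + 2) := by
          rw [mul_one_div, div_eq_div_iff (by positivity) (by positivity), one_mul, ← pow_add]
          congr 1
          rw [hE]
          ring
  have b2 : |∑ i, (p i : ℝ) * ((n : ℝ) * v i - P i)| ≤ D * (1 / (q : ℝ) ^ (D * A + 2)) := by
    calc |∑ i, (p i : ℝ) * ((n : ℝ) * v i - P i)|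
        ≤ ∑ i : Fin D, 1 / (q : ℝ) ^ (D * A + 2) := by
          refine (Finset.abs_sum_le_sum_abs _ _).trans (Finset.sum_le_sum fun i _ => ?_)
          rw [abs_mul]
          have h6 := (hP i).le
          push_cast at h6
          calc |(p i : ℝ)| * |(n : ℝ) * v i - P i| ≤ (q : ℝ) ^ A * (1 / (q : ℝ) ^ E) :=
                mul_le_mul (hp i) h6 (abs_nonneg _) (by positivity)
            _ = 1 / (q : ℝ) ^ (D * A + 2) := by
                rw [mul_one_div, div_eq_div_iff (by positivity) (by positivity), one_mul, ← pow_add]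
                congr 1
                rw [hE]
                ring
      _ = _ := by
          rw [Finset.sum_const, Finset.card_univ, Fintype.card_fin, nsmul_eq_mul]
  have e2 : |((n * q : ℕ) : ℝ) * zr j - ((n * r + ∑ i, p i * P i : ℤ) : ℝ)| ≤
      ((D : ℝ) + 1) / (q : ℝ) ^ (D * A + 2) := by
    rw [e1]
    refine (abs_add_le _ _).trans ?_
    have : ((D : ℝ) + 1) / (q : ℝ) ^ (D * A + 2) = 1 / (q : ℝ) ^ (D * A + 2) + D * (1 / (q : ℝ) ^ (D * A + 2)) := by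
      ring
    rw [this]
    exact add_le_add b1 b2
  refine lt_of_le_of_lt e2 ?_
  have hNpos : (0 : ℝ) < ((n * q : ℕ) : ℝ) := by
    push_cast
    positivity
  have e3 : (((D : ℝ) + 1) / (q : ℝ) ^ (D * A + 2)) ^ (D + 1) < (((n * q : ℕ) : ℝ))⁻¹ := by
    have f1 : ((n * q : ℕ) : ℝ) ≤ (q : ℝ) ^ (E * D + 1) := by
      push_cast
      rw [pow_succ]
      exact mul_le_mul_of_nonneg_right hnr hqp.le
    have f2 : ((D : ℝ) + 1) ^ (D + 1) < q := by exact_mod_cast hqD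
    rw [div_pow, div_lt_iff₀ (by positivity), ← div_eq_inv_mul, lt_div_iff₀ hNpos]
    calc ((D : ℝ) + 1) ^ (D + 1) * ((n * q : ℕ) : ℝ) ≤ ((D : ℝ) + 1) ^ (D + 1) * (q : ℝ) ^ (E * D + 1) :=
          mul_le_mul_of_nonneg_left f1 (by positivity)
      _ < q * (q : ℝ) ^ (E * D + 1) := mul_lt_mul_of_pos_right f2 (by positivity)
      _ = ((q : ℝ) ^ (D * A + 2)) ^ (D + 1) := by
          rw [← pow_succ', ← pow_mul]
          congr 1
          rw [hE]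
          ring
  have e4' : ∀ y : ℝ, 0 ≤ y → y = (y ^ (D + 1)) ^ (1 / ((D : ℝ) + 1)) := by
    intro y hy
    rw [← Real.rpow_natCast, ← Real.rpow_mul hy]
    push_cast
    rw [mul_one_div_cancel (by positivity), Real.rpow_one]
  have e4 := e4' (((D : ℝ) + 1) / (q : ℝ) ^ (D * A + 2)) (by positivity)
  have e5 : ((n * q : ℕ) : ℝ) ^ (-(1 / (((D + 1 : ℕ) : ℝ)))) = (((n * q : ℕ) : ℝ)⁻¹) ^ (1 / ((D : ℝ) + 1)) := by
    rw [Real.rpow_neg hNpos.le, Real.inv_rpow hNpos.le]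
    push_cast
    rfl
  rw [e4, e5]
  exact Real.rpow_lt_rpow (by positivity) e3 (by positivity)

/-- **Algebraic numbers in a number field of bounded degree.** -/
theorem main (b K s D : ℕ) (hK : 1 ≤ K)
    (hs : (2 : ℝ) ^ (132 * (D + 1)) * ((b : ℝ) + 1) ^ 2 * (K : ℝ) ^ 3 * Real.log (K + 1) ≤ (s : ℝ) ^ 2) :
    ∃ C H0 : ℕ, ∀ H : ℕ, H0 ≤ H → ∀ F : IntermediateField ℚ ℝ, FiniteDimensional ℚ F →
      Module.finrank ℚ F ≤ D + 1 → K ≤ Set.ncard {j : ℕ | b < j ∧ j ≤ s ∧ Odd j ∧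
        ∀ α ∈ F, (∃ P : ℤ[X], P ≠ 0 ∧ (∀ i, |P.coeff i| ≤ (H : ℤ)) ∧ aeval α P = 0) →
          1 / (H : ℝ) ^ C ≤ |(∑' n : ℕ, 1 / ((n : ℝ) + 1) ^ j) - α|} := by
  classical
  obtain ⟨q0, hq0⟩ := window_dist_unif (b := b) (K := K) (D := D) (s := s) hK hs
  obtain ⟨C, hC⟩ := field_rep (s + 1) D
  obtain ⟨E, hE⟩ : ∃ E, E = D * (D + 2) * C + 2 * D + 2 := ⟨_, rfl⟩
  refine ⟨C * (E + 1), max q0 2, fun H hH F hF hFD => ?_⟩
  have hHq : q0 ≤ H := (le_max_left _ _).trans hH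
  have hH2 : 2 ≤ H := (le_max_right _ _).trans hH
  -- the bad numbers
  have hbad : ∀ j : Fin (s + 1), ∃ α : ℝ, α ∈ F ∧
      (∃ P : ℤ[X], P ≠ 0 ∧ (∀ i, |P.coeff i| ≤ (H : ℤ)) ∧ aeval α P = 0) ∧
      ((∃ α' ∈ F, (∃ P : ℤ[X], P ≠ 0 ∧ (∀ i, |P.coeff i| ≤ (H : ℤ)) ∧ aeval α' P = 0) ∧
        |(∑' n : ℕ, 1 / ((n : ℝ) + 1) ^ (j : ℕ)) - α'| < 1 / (H : ℝ) ^ (C * (E + 1))) →
        |(∑' n : ℕ, 1 / ((n : ℝ) + 1) ^ (j : ℕ)) - α| < 1 / (H : ℝ) ^ (C * (E + 1))) := by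
    intro j
    by_cases h : ∃ α' ∈ F, (∃ P : ℤ[X], P ≠ 0 ∧ (∀ i, |P.coeff i| ≤ (H : ℤ)) ∧ aeval α' P = 0) ∧
        |(∑' n : ℕ, 1 / ((n : ℝ) + 1) ^ (j : ℕ)) - α'| < 1 / (H : ℝ) ^ (C * (E + 1))
    · obtain ⟨α', h1, h2, h3⟩ := h
      exact ⟨α', h1, h2, fun _ => h3⟩
    · refine ⟨0, F.zero_mem, ⟨X, X_ne_zero, fun i => ?_, by simp⟩, fun h' => absurd h' h⟩
      rw [Polynomial.coeff_X]
      split_ifs
      · rw [abs_one]; exact_mod_cast (by omega : 1 ≤ H)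
      · rw [abs_zero]; positivity
  choose α hαF hαP hα using hbad
  obtain ⟨q, θ, c, hqH, hqC, hcb, hrep⟩ := hC H hH2 F hF hFD α hαF hαP
  have h1 := hq0 (fun i : Fin D => θ ^ ((i : ℕ) + 1)) C q (hHq.trans hqH)
  refine h1.trans (Set.ncard_le_ncard ?_ ?_)
  · rintro j ⟨j1, j2, j3, j4⟩
    refine ⟨j1, j2, j3, fun α' hα'F hα'P => ?_⟩
    by_contra hlt
    rw [not_le] at hlt
    obtain ⟨jj, hjj⟩ : ∃ jj : Fin (s + 1), (jj : ℕ) = j := ⟨⟨j, by omega⟩, rfl⟩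
    have h2 := hα jj ⟨α', hα'F, hα'P, by rw [hjj]; exact hlt⟩
    rw [hjj] at h2
    have hHr : (1 : ℝ) ≤ H := by exact_mod_cast (by omega : 1 ≤ H)
    have hqr : (1 : ℝ) ≤ q := by exact_mod_cast (by omega : 1 ≤ q)
    have hqpos : (0 : ℝ) < q := by linarith
    have h3 := j4 (c jj 0) (fun i => c jj ((i : ℕ) + 1)) (fun i => by
      have h4 := hcb jj ((i : ℕ) + 1)
      have h5 : ((|c jj ((i : ℕ) + 1)| : ℤ) : ℝ) ≤ (((H ^ C : ℕ) : ℤ) : ℝ) := by exact_mod_cast h4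
      push_cast at h5
      refine h5.trans (pow_le_pow_left₀ (by linarith) ?_ C)
      exact_mod_cast hqH)
    have h6 : (q : ℝ) * (∑' n : ℕ, 1 / ((n : ℝ) + 1) ^ j) - (c jj 0 : ℝ) -
        ∑ i : Fin D, ((c jj ((i : ℕ) + 1) : ℤ) : ℝ) * θ ^ ((i : ℕ) + 1) =
        q * ((∑' n : ℕ, 1 / ((n : ℝ) + 1) ^ j) - α jj) := by
      rw [mul_sub, hrep jj, Finset.sum_range_succ', Fin.sum_univ_eq_sum_range
        (fun i : ℕ => ((c jj (i + 1) : ℤ) : ℝ) * θ ^ (i + 1)) D]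
      ring
    rw [h6, abs_mul, abs_of_pos hqpos, ← hE] at h3
    have h7 : (q : ℝ) ^ (E + 1) ≤ (H : ℝ) ^ (C * (E + 1)) := by
      rw [pow_mul]
      exact pow_le_pow_left₀ hqpos.le (by exact_mod_cast hqC) _
    have h8 : (q : ℝ) * |(∑' n : ℕ, 1 / ((n : ℝ) + 1) ^ j) - α jj| < 1 / (q : ℝ) ^ E := by
      calc (q : ℝ) * |(∑' n : ℕ, 1 / ((n : ℝ) + 1) ^ j) - α jj| < q * (1 / (H : ℝ) ^ (C * (E + 1))) :=
            mul_lt_mul_of_pos_left h2 hqpos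
        _ ≤ q * (1 / (q : ℝ) ^ (E + 1)) := by gcongr
        _ = 1 / (q : ℝ) ^ E := by
            rw [pow_succ]
            field_simp
    linarith
  · apply (Finset.range (s + 1)).finite_toSet.subset
    rintro j ⟨_, j2, _⟩
    rw [Finset.mem_coe, Finset.mem_range]
    omega

end Pool.Agent.Q252.ZU
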