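import Pool.Agent.Q252.ZU4

/-!
# Odd zeta values and linear combinations of real numbers with algebraic coefficients of bounded height
-/

open Polynomial Pool.Agent.H337R2 Pool.Agent.W165.OZ Pool.Agent.Y926.LZ Pool.Agent.Y926.TW

namespace Pool.Agent.Q252.ZU

/-- `α` is a root of a nonzero integer polynomial with coefficients bounded by `H` -/
def Hgt (H : ℕ) (α : ℝ) : Prop :=
  ∃ P : ℤ[X], P ≠ 0 ∧ (∀ i, |P.coeff i| ≤ (H : ℤ)) ∧ aeval α P = 0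

lemma Hgt_zero {H : ℕ} (hH : 1 ≤ H) : Hgt H 0 := by
  refine ⟨X, X_ne_zero, fun i => ?_, by simp⟩
  rw [Polynomial.coeff_X]
  split_ifs
  · rw [abs_one]; exact_mod_cast hH
  · rw [abs_zero]; positivity

lemma sum_divmod {M : Type*} [AddCommMonoid M] (n : ℕ) (hn : 0 < n) (f : ℕ → ℕ → M) (T : ℕ) :
    ∑ k ∈ Finset.range (n * T), f (k / n) (k % n) = ∑ l ∈ Finset.range T, ∑ i ∈ Finset.range n, f l i := by
  induction T with
  | zero => simp
  | succ T ih =>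
    rw [Nat.mul_succ, Finset.sum_range_add, ih, Finset.sum_range_succ]
    congr 1
    apply Finset.sum_congr rfl
    intro i hi
    rw [Finset.mem_range] at hi
    rw [Nat.mul_add_div hn, Nat.div_eq_of_lt hi, add_zero, Nat.mul_add_mod, Nat.mod_eq_of_lt hi]

/-- **Linear combinations with algebraic coefficients.** -/
theorem main_lin (b K s e t : ℕ) (hK : 1 ≤ K)
    (hs : (2 : ℝ) ^ (132 * ((e + 1) * (t + 1))) * ((b : ℝ) + 1) ^ 2 * (K : ℝ) ^ 3 * Real.log (K + 1) ≤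
      (s : ℝ) ^ 2) :
    ∃ C H0 : ℕ, ∀ H : ℕ, H0 ≤ H → ∀ F : IntermediateField ℚ ℝ, FiniteDimensional ℚ F →
      Module.finrank ℚ F ≤ e + 1 → ∀ v : Fin t → ℝ, K ≤ Set.ncard {j : ℕ | b < j ∧ j ≤ s ∧ Odd j ∧
        ∀ (α₀ : ℝ) (α : Fin t → ℝ), α₀ ∈ F → (∀ l, α l ∈ F) → Hgt H α₀ → (∀ l, Hgt H (α l)) →
          1 / (H : ℝ) ^ C ≤ |(∑' n : ℕ, 1 / ((n : ℝ) + 1) ^ j) - α₀ - ∑ l, α l * v l|} := by
  classical
  obtain ⟨D, hD⟩ : ∃ D, D = (e + 1) * t + e := ⟨_, rfl⟩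
  have hD1 : D + 1 = (e + 1) * (t + 1) := by rw [hD]; ring
  rw [← hD1] at hs
  obtain ⟨q0, hq0⟩ := window_dist_unif (b := b) (K := K) (D := D) (s := s) hK hs
  obtain ⟨C, hC⟩ := field_rep ((s + 1) * (t + 1)) e
  obtain ⟨E, hE⟩ : ∃ E, E = D * (D + 2) * C + 2 * D + 2 := ⟨_, rfl⟩
  refine ⟨C * (E + 1), max q0 2, fun H hH F hF hFe v => ?_⟩
  have hHq : q0 ≤ H := (le_max_left _ _).trans hH
  have hH2 : 2 ≤ H := (le_max_right _ _).trans hH
  -- the bad combinations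
  have hbad : ∀ j : Fin (s + 1), ∃ α : Fin (t + 1) → ℝ, (∀ l, α l ∈ F) ∧ (∀ l, Hgt H (α l)) ∧
      ((∃ (α₀ : ℝ) (α' : Fin t → ℝ), α₀ ∈ F ∧ (∀ l, α' l ∈ F) ∧ Hgt H α₀ ∧ (∀ l, Hgt H (α' l)) ∧
        |(∑' n : ℕ, 1 / ((n : ℝ) + 1) ^ (j : ℕ)) - α₀ - ∑ l, α' l * v l| < 1 / (H : ℝ) ^ (C * (E + 1))) →
        |(∑' n : ℕ, 1 / ((n : ℝ) + 1) ^ (j : ℕ)) - α 0 - ∑ l : Fin t, α l.succ * v l| <
          1 / (H : ℝ) ^ (C * (E + 1))) := by
    intro j
    by_cases h : ∃ (α₀ : ℝ) (α' : Fin t → ℝ), α₀ ∈ F ∧ (∀ l, α' l ∈ F) ∧ Hgt H α₀ ∧ (∀ l, Hgt H (α' l)) ∧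
        |(∑' n : ℕ, 1 / ((n : ℝ) + 1) ^ (j : ℕ)) - α₀ - ∑ l, α' l * v l| < 1 / (H : ℝ) ^ (C * (E + 1))
    · obtain ⟨α₀, α', h1, h2, h3, h4, h5⟩ := h
      refine ⟨Fin.cons α₀ α', fun l => ?_, fun l => ?_, fun _ => ?_⟩
      · refine Fin.cases ?_ (fun i => ?_) l
        · exact h1
        · exact h2 i
      · refine Fin.cases ?_ (fun i => ?_) l
        · exact h3
        · exact h4 i
      · simpa only [Fin.cons_zero, Fin.cons_succ] using h5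
    · exact ⟨fun _ => 0, fun _ => F.zero_mem, fun _ => Hgt_zero (by omega), fun h' => absurd h' h⟩
  choose α hαF hαP hα using hbad
  obtain ⟨q, θ, c, hqH, hqC, hcb, hrep⟩ := hC H hH2 F hF hFe (fun k => α k.divNat k.modNat)
    (fun k => hαF _ _) (fun k => hαP _ _)
  -- the real numbers
  obtain ⟨v', hv'⟩ : ∃ v' : ℕ → ℝ, v' = fun l => if h : l < t + 1 then
    (Fin.cons 1 v : Fin (t + 1) → ℝ) ⟨l, h⟩ else 0 := ⟨_, rfl⟩
  have hv'0 : v' 0 = 1 := by rw [hv']; simp only [dif_pos (Nat.succ_pos t)]; rfl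
  have hv's : ∀ l : Fin t, v' ((l : ℕ) + 1) = v l := by
    intro l
    rw [hv']
    simp only [dif_pos (by omega : (l : ℕ) + 1 < t + 1)]
    rfl
  obtain ⟨W, hW⟩ : ∃ W : ℕ → ℝ, W = fun k => θ ^ (k % (e + 1)) * v' (k / (e + 1)) := ⟨_, rfl⟩
  have hW0 : W 0 = 1 := by rw [hW]; simp [hv'0]
  obtain ⟨cc, hcc⟩ : ∃ cc : Fin (s + 1) → ℕ → ℤ, cc = fun j k => if h : k / (e + 1) < t + 1 then
    c (finProdFinEquiv (j, ⟨k / (e + 1), h⟩)) (k % (e + 1)) else 0 := ⟨_, rfl⟩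
  have hccb : ∀ j k, |cc j k| ≤ ((H ^ C : ℕ) : ℤ) := by
    intro j k
    rw [hcc]
    simp only
    split_ifs with h
    · exact hcb _ _
    · rw [abs_zero]; positivity
  have hdm : ∀ (j : Fin (s + 1)) (l : Fin (t + 1)),
      (q : ℝ) * α j l = ∑ i ∈ Finset.range (e + 1), (c (finProdFinEquiv (j, l)) i : ℝ) * θ ^ i := by
    intro j l
    have h1 := hrep (finProdFinEquiv (j, l))
    have h2 : (finProdFinEquiv (j, l)).divNat = j := by
      have := finProdFinEquiv.symm_apply_apply (j, l)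
      exact congrArg Prod.fst this
    have h3 : (finProdFinEquiv (j, l)).modNat = l := by
      have := finProdFinEquiv.symm_apply_apply (j, l)
      exact congrArg Prod.snd this
    simp only [h2, h3] at h1
    exact h1
  have hsum : ∀ j : Fin (s + 1), (q : ℝ) * (α j 0 + ∑ l : Fin t, α j l.succ * v l) =
      ∑ k ∈ Finset.range (D + 1), (cc j k : ℝ) * W k := by
    intro j
    have h1 : ∑ k ∈ Finset.range (D + 1), (cc j k : ℝ) * W k =
        ∑ l ∈ Finset.range (t + 1), ∑ i ∈ Finset.range (e + 1),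
          ((if h : l < t + 1 then c (finProdFinEquiv (j, ⟨l, h⟩)) i else 0 : ℤ) : ℝ) * (θ ^ i * v' l) := by
      rw [hD1, ← sum_divmod (e + 1) (Nat.succ_pos e)
        (fun l i => ((if h : l < t + 1 then c (finProdFinEquiv (j, ⟨l, h⟩)) i else 0 : ℤ) : ℝ) * (θ ^ i * v' l)) (t + 1)]
      apply Finset.sum_congr rfl
      intro k _
      rw [hcc, hW]
    rw [h1, Finset.sum_range]
    have h2 : ∀ l : Fin (t + 1), ∑ i ∈ Finset.range (e + 1),
          ((if h : (l : ℕ) < t + 1 then c (finProdFinEquiv (j, ⟨(l : ℕ), h⟩)) i else 0 : ℤ) : ℝ) *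
            (θ ^ i * v' (l : ℕ)) = (q : ℝ) * α j l * v' (l : ℕ) := by
      intro l
      rw [hdm, Finset.sum_mul]
      apply Finset.sum_congr rfl
      intro i _
      simp only [dif_pos l.2, Fin.eta]
      ring
    rw [Finset.sum_congr rfl fun l _ => h2 l, Fin.sum_univ_succ]
    simp only [Fin.val_zero, hv'0, Fin.val_succ, hv's]
    rw [mul_add, Finset.mul_sum]
    congr 1
    · ring
    · apply Finset.sum_congr rfl
      intro l _
      ring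
  have h1 := hq0 (fun i : Fin D => W ((i : ℕ) + 1)) C q (hHq.trans hqH)
  refine h1.trans (Set.ncard_le_ncard ?_ ?_)
  · rintro j ⟨j1, j2, j3, j4⟩
    refine ⟨j1, j2, j3, fun α₀ α' a1 a2 a3 a4 => ?_⟩
    by_contra hlt
    rw [not_le] at hlt
    obtain ⟨jj, hjj⟩ : ∃ jj : Fin (s + 1), (jj : ℕ) = j := ⟨⟨j, by omega⟩, rfl⟩
    have h2 := hα jj ⟨α₀, α', a1, a2, a3, a4, by rw [hjj]; exact hlt⟩
    rw [hjj] at h2
    have hHr : (1 : ℝ) ≤ H := by exact_mod_cast (by omega : 1 ≤ H)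
    have hqr : (1 : ℝ) ≤ q := by exact_mod_cast (by omega : 1 ≤ q)
    have hqpos : (0 : ℝ) < q := by linarith
    have h3 := j4 (cc jj 0) (fun i => cc jj ((i : ℕ) + 1)) (fun i => by
      have h4 := hccb jj ((i : ℕ) + 1)
      have h5 : ((|cc jj ((i : ℕ) + 1)| : ℤ) : ℝ) ≤ (((H ^ C : ℕ) : ℤ) : ℝ) := by exact_mod_cast h4
      push_cast at h5
      refine h5.trans (pow_le_pow_left₀ (by linarith) ?_ C)
      exact_mod_cast hqH)
    have h6 : (q : ℝ) * (∑' n : ℕ, 1 / ((n : ℝ) + 1) ^ j) - (cc jj 0 : ℝ) -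
        ∑ i : Fin D, ((cc jj ((i : ℕ) + 1) : ℤ) : ℝ) * W ((i : ℕ) + 1) =
        q * ((∑' n : ℕ, 1 / ((n : ℝ) + 1) ^ j) - α jj 0 - ∑ l : Fin t, α jj l.succ * v l) := by
      have h9 := hsum jj
      rw [Finset.sum_range_succ', hW0, mul_one] at h9
      rw [Fin.sum_univ_eq_sum_range (fun i : ℕ => ((cc jj (i + 1) : ℤ) : ℝ) * W (i + 1)) D]
      linarith
    rw [h6, abs_mul, abs_of_pos hqpos, ← hE] at h3
    have h7 : (q : ℝ) ^ (E + 1) ≤ (H : ℝ) ^ (C * (E + 1)) := by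
      rw [pow_mul]
      exact pow_le_pow_left₀ hqpos.le (by exact_mod_cast hqC) _
    have h8 : (q : ℝ) * |(∑' n : ℕ, 1 / ((n : ℝ) + 1) ^ j) - α jj 0 - ∑ l : Fin t, α jj l.succ * v l| <
        1 / (q : ℝ) ^ E := by
      calc (q : ℝ) * |(∑' n : ℕ, 1 / ((n : ℝ) + 1) ^ j) - α jj 0 - ∑ l : Fin t, α jj l.succ * v l|
          < q * (1 / (H : ℝ) ^ (C * (E + 1))) := mul_lt_mul_of_pos_left h2 hqpos
        _ ≤ q * (1 / (q : ℝ) ^ (E + 1)) := by gcongr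
        _ = 1 / (q : ℝ) ^ E := by
            rw [pow_succ]
            field_simp
    linarith
  · apply (Finset.range (s + 1)).finite_toSet.subset
    rintro j ⟨_, j2, _⟩
    rw [Finset.mem_coe, Finset.mem_range]
    omega

end Pool.Agent.Q252.ZU
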